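import Mathlib

/-!
# Compact hyperbolic Coxeter polytopes: definitions (MP_345ef2_gt)

The hyperboloid model of hyperbolic `n`-space and compact Coxeter polytopes in it.
-/

namespace MP345

open Finset

/-- The Lorentz form `x₁y₁ + ⋯ + xₙyₙ - x₀y₀` on `ℝⁿ⁺¹`; the last coordinate is the time-like
one. -/
def lor {n : ℕ} (x y : Fin (n + 1) → ℝ) : ℝ :=
  (∑ i : Fin n, x i.castSucc * y i.castSucc) - x (Fin.last n) * y (Fin.last n)

/-- Hyperbolic `n`-space, in the hyperboloid model. -/
def Hyp (n : ℕ) : Set (Fin (n + 1) → ℝ) :=
  {x | lor x x = -1 ∧ 0 < x (Fin.last n)}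

/-- A compact Coxeter polytope in hyperbolic `n`-space, given by the outer unit normals
`u i` of its facets: the polytope is the set of points `x` of `Hyp n` with `lor x (u i) ≤ 0`
for all `i`. -/
structure CoxeterPolytope (n : ℕ) where
  /-- index set of the facets -/
  ι : Type
  /-- there are finitely many facets -/
  [fin : Fintype ι]
  /-- outer normals of the facets -/
  u : ι → (Fin (n + 1) → ℝ)
  /-- the normals are unit vectors (so each `lor x (u i) = 0` is a hyperbolic hyperplane) -/
  unit : ∀ i, lor (u i) (u i) = 1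
  /-- the polytope has an interior point -/
  interior : ∃ x ∈ Hyp n, ∀ i, lor x (u i) < 0
  /-- the polytope is bounded -/
  bounded : Bornology.IsBounded {x | x ∈ Hyp n ∧ ∀ i, lor x (u i) ≤ 0}
  /-- each of the hyperplanes carries a facet: it contains a point of the polytope that lies on
  no other of the hyperplanes -/
  facet : ∀ i, ∃ x ∈ Hyp n, lor x (u i) = 0 ∧ ∀ j, j ≠ i → lor x (u j) < 0
  /-- if the facets `i` and `j` are adjacent, that is, if they share a face of codimension 2
  (whose relative interior points lie on the hyperplanes `i` and `j` and on no others), then the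
  dihedral angle between them is `π / m` for some integer `m ≥ 2` -/
  angle : ∀ i j, i ≠ j →
    (∃ x ∈ Hyp n, lor x (u i) = 0 ∧ lor x (u j) = 0 ∧
      ∀ k, k ≠ i → k ≠ j → lor x (u k) < 0) →
    ∃ m : ℕ, 2 ≤ m ∧ lor (u i) (u j) = -Real.cos (Real.pi / m)

attribute [instance] CoxeterPolytope.fin

end MP345
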