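import Mathlib
import Pool.Agent.Work.MP_345ef2_gt.Defs

/-!
# Basic Lorentzian geometry and the acute cone of a compact Coxeter polytope
-/

namespace MP345

open Finset

variable {n : ℕ}

abbrev E (n : ℕ) := Fin (n + 1) → ℝ

theorem lor_comm (x y : E n) : lor x y = lor y x := by
  unfold lor; congr 1
  · exact Finset.sum_congr rfl fun i _ => mul_comm _ _
  · exact mul_comm _ _

theorem lor_add_left (x y z : E n) : lor (x + y) z = lor x z + lor y z := by
  unfold lor; simp only [Pi.add_apply, add_mul, Finset.sum_add_distrib]; ring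

theorem lor_smul_left (c : ℝ) (x z : E n) : lor (c • x) z = c * lor x z := by
  unfold lor; simp only [Pi.smul_apply, smul_eq_mul, mul_sub, Finset.mul_sum]
  congr 1
  · exact Finset.sum_congr rfl fun i _ => by ring
  · ring

theorem lor_add_right (x y z : E n) : lor z (x + y) = lor z x + lor z y := by
  rw [lor_comm, lor_add_left, lor_comm x, lor_comm y]

theorem lor_smul_right (c : ℝ) (x z : E n) : lor z (c • x) = c * lor z x := by
  rw [lor_comm, lor_smul_left, lor_comm x]

theorem lor_sub_left (x y z : E n) : lor (x - y) z = lor x z - lor y z := by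
  unfold lor; simp only [Pi.sub_apply, sub_mul, Finset.sum_sub_distrib]; ring

theorem lor_sub_right (x y z : E n) : lor z (x - y) = lor z x - lor z y := by
  rw [lor_comm, lor_sub_left, lor_comm x, lor_comm y]

theorem lor_neg_left (x z : E n) : lor (-x) z = - lor x z := by
  have := lor_smul_left (-1) x z; simpa using this

theorem lor_neg_right (x z : E n) : lor z (-x) = - lor z x := by
  rw [lor_comm, lor_neg_left, lor_comm x]

@[simp] theorem lor_zero_left (z : E n) : lor 0 z = 0 := by
  have := lor_smul_left 0 0 z; simpa using this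

@[simp] theorem lor_zero_right (z : E n) : lor z 0 = 0 := by
  rw [lor_comm]; simp

/-- The Lorentz form as a bilinear form. -/
def lorB (n : ℕ) : LinearMap.BilinForm ℝ (E n) :=
  LinearMap.mk₂ ℝ lor (fun x y z => lor_add_left x y z)
    (fun c x y => by simpa using lor_smul_left c x y)
    (fun x y z => lor_add_right y z x) (fun c x y => by simpa using lor_smul_right c y x)

@[simp] theorem lorB_apply (x y : E n) : lorB n x y = lor x y := rfl

theorem lor_sum_right {α : Type*} (s : Finset α) (f : α → E n) (z : E n) :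
    lor z (∑ a ∈ s, f a) = ∑ a ∈ s, lor z (f a) := by
  have := map_sum ((lorB n) z) f s
  simpa only [lorB_apply] using this

theorem lor_sum_left {α : Type*} (s : Finset α) (f : α → E n) (z : E n) :
    lor (∑ a ∈ s, f a) z = ∑ a ∈ s, lor (f a) z := by
  rw [lor_comm, lor_sum_right]
  exact Finset.sum_congr rfl fun a _ => lor_comm _ _

theorem lor_continuous : Continuous fun z : E n × E n => lor z.1 z.2 := by
  unfold lor
  fun_prop

/-- Reversed Cauchy–Schwarz: the orthogonal complement of a timelike vector is positive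
definite. -/
theorem lor_pos_of_orth {x y : E n} (hx : lor x x < 0) (hxy : lor x y = 0) (hy : y ≠ 0) :
    0 < lor y y := by
  unfold lor at *
  set a := x (Fin.last n) with ha
  set b := y (Fin.last n) with hb
  set X := ∑ i : Fin n, x i.castSucc * x i.castSucc with hX
  set Y := ∑ i : Fin n, y i.castSucc * y i.castSucc with hY
  set Z := ∑ i : Fin n, x i.castSucc * y i.castSucc with hZ
  have hCS : Z ^ 2 ≤ X * Y := by
    have := Finset.sum_mul_sq_le_sq_mul_sq Finset.univ (fun i : Fin n => x i.castSucc)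
      (fun i : Fin n => y i.castSucc)
    calc Z ^ 2 = (∑ i : Fin n, x i.castSucc * y i.castSucc) ^ 2 := by rw [hZ]
      _ ≤ _ := this
      _ = X * Y := by
          rw [hX, hY]; simp only [pow_two]
  have hX0 : 0 ≤ X := Finset.sum_nonneg fun i _ => mul_self_nonneg _
  have hY0 : 0 ≤ Y := Finset.sum_nonneg fun i _ => mul_self_nonneg _
  have hZab : Z = a * b := by linarith
  have ha2 : X < a * a := by linarith
  have ha0 : 0 < a * a := lt_of_le_of_lt hX0 ha2
  by_cases hY1 : Y = 0
  · exfalso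
    have hb0 : b = 0 := by
      have h1 : Z ^ 2 ≤ 0 := by rw [hY1] at hCS; simpa using hCS
      have h2 : Z = 0 := by nlinarith
      have h3 : a * b = 0 := by linarith
      rcases mul_eq_zero.1 h3 with h | h
      · rw [h] at ha0; simp at ha0
      · exact h
    apply hy
    have hYi := (Finset.sum_eq_zero_iff_of_nonneg
      (fun (i : Fin n) _ => mul_self_nonneg (y i.castSucc))).1 hY1
    funext j
    refine Fin.lastCases ?_ (fun i => ?_) j
    · simpa [hb] using hb0
    · have := hYi i (Finset.mem_univ i)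
      simpa using this
  · have hYpos : 0 < Y := lt_of_le_of_ne hY0 (Ne.symm hY1)
    have h1 : a * a * (b * b) < a * a * Y := by
      calc a * a * (b * b) = Z ^ 2 := by rw [hZab]; ring
        _ ≤ X * Y := hCS
        _ < a * a * Y := by exact mul_lt_mul_of_pos_right ha2 hYpos
    have h2 : b * b < Y := lt_of_mul_lt_mul_left h1 ha0.le
    linarith

theorem lor_nonneg_of_orth {x y : E n} (hx : lor x x < 0) (hxy : lor x y = 0) :
    0 ≤ lor y y := by
  by_cases hy : y = 0
  · simp [hy]
  · exact (lor_pos_of_orth hx hxy hy).le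

/-- two timelike vectors are not orthogonal -/
theorem lor_ne_zero_of_timelike {x y : E n} (hx : lor x x < 0) (hy : lor y y < 0) :
    lor x y ≠ 0 := by
  intro h
  have := lor_nonneg_of_orth hx h
  linarith

theorem norm_sq_le_of_bounded {P : CoxeterPolytope n} {R : ℝ}
    (hR : ∀ x, (x ∈ Hyp n ∧ ∀ i, lor x (P.u i) ≤ 0) → ‖x‖ ≤ R)
    {z : E n} (hz : ∀ i, lor z (P.u i) ≤ 0) (hzz : lor z z < 0) (hl : 0 < z (Fin.last n)) :
    ‖z‖ ^ 2 ≤ R ^ 2 * (- lor z z) := by
  set s := Real.sqrt (- lor z z) with hs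
  have hspos : 0 < s := Real.sqrt_pos.2 (by linarith)
  have hs2 : s ^ 2 = - lor z z := Real.sq_sqrt (by linarith)
  have h1 : (s⁻¹ • z) ∈ Hyp n ∧ ∀ i, lor (s⁻¹ • z) (P.u i) ≤ 0 := by
    refine ⟨⟨?_, ?_⟩, fun i => ?_⟩
    · rw [lor_smul_left, lor_smul_right]
      have : lor z z = - s ^ 2 := by linarith
      rw [this]; field_simp
    · simp only [Pi.smul_apply, smul_eq_mul]; positivity
    · rw [lor_smul_left]
      exact mul_nonpos_of_nonneg_of_nonpos (by positivity) (hz i)
  have h2 := hR _ h1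
  rw [norm_smul, Real.norm_of_nonneg (by positivity)] at h2
  have h3 : ‖z‖ ≤ R * s := by
    have := mul_le_mul_of_nonneg_right h2 hspos.le
    calc ‖z‖ = s⁻¹ * ‖z‖ * s := by field_simp
      _ ≤ R * s := this
  calc ‖z‖ ^ 2 ≤ (R * s) ^ 2 := by
        exact pow_le_pow_left₀ (norm_nonneg z) h3 2
    _ = R ^ 2 * (- lor z z) := by rw [mul_pow, hs2]

theorem nonempty_facets (hn : 1 ≤ n) (P : CoxeterPolytope n) : Nonempty P.ι := by
  by_contra hemp
  rw [not_nonempty_iff] at hemp
  obtain ⟨R, hR⟩ := P.bounded.exists_norm_le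
  obtain ⟨k, rfl⟩ : ∃ k, n = k + 1 := ⟨n - 1, by omega⟩
  set s : ℝ := |R| + 1 with hs
  set x : E (k + 1) := Fin.snoc (α := fun _ => ℝ) (Pi.single 0 s) (Real.sqrt (1 + s ^ 2)) with hx
  have hxH : x ∈ Hyp (k + 1) := by
    refine ⟨?_, ?_⟩
    · unfold lor
      simp only [hx, Fin.snoc_castSucc, Fin.snoc_last]
      rw [Finset.sum_eq_single (0 : Fin (k + 1))]
      · rw [Real.mul_self_sqrt (by positivity)]
        simp only [Pi.single_eq_same]; ring
      · intro b _ hb
        simp [hb]
      · intro h; exact absurd (Finset.mem_univ _) h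
    · simp only [hx, Fin.snoc_last]; positivity
  have h1 := hR x ⟨hxH, fun i => (hemp.false i).elim⟩
  have h2 : ‖x (Fin.castSucc 0)‖ ≤ ‖x‖ := norm_le_pi_norm x _
  have h3 : x (Fin.castSucc 0) = s := by
    simp only [hx, Fin.snoc_castSucc, Pi.single_eq_same]
  rw [h3, Real.norm_eq_abs] at h2
  have h4 : s ≤ |s| := le_abs_self s
  have h5 : R ≤ |R| := le_abs_self R
  linarith

theorem cone_timelike (hn : 1 ≤ n) (P : CoxeterPolytope n) {x : E n}
    (hx : ∀ i, lor x (P.u i) ≤ 0)
    (hx0 : x ≠ 0) : lor x x < 0 ∧ 0 < x (Fin.last n) := by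
  obtain ⟨p, hpH, hpu⟩ := P.interior
  obtain ⟨R, hR⟩ := P.bounded.exists_norm_le
  have hR' : ∀ x, (x ∈ Hyp n ∧ ∀ i, lor x (P.u i) ≤ 0) → ‖x‖ ≤ R := fun x hx => hR x hx
  obtain ⟨i0⟩ := nonempty_facets hn P
  -- the segment
  let z : ℝ → E n := fun t => (1 - t) • p + t • x
  have hzc : Continuous z := by fun_prop
  have hzu : ∀ t ∈ Set.Icc (0 : ℝ) 1, ∀ i, lor (z t) (P.u i) ≤ 0 := by
    intro t ht i
    simp only [z, lor_add_left, lor_smul_left]
    have h1 := mul_nonpos_of_nonneg_of_nonpos (sub_nonneg.2 ht.2) (hpu i).le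
    have h2 := mul_nonpos_of_nonneg_of_nonpos ht.1 (hx i)
    linarith
  have hz0 : ∀ t ∈ Set.Icc (0 : ℝ) 1, z t ≠ 0 := by
    intro t ht h0
    by_cases ht1 : t = 1
    · apply hx0
      simpa [z, ht1] using h0
    · have h1 : lor (z t) (P.u i0) < 0 := by
        simp only [z, lor_add_left, lor_smul_left]
        have h1 := mul_neg_of_pos_of_neg (sub_pos.2 (lt_of_le_of_ne ht.2 ht1)) (hpu i0)
        have h2 := mul_nonpos_of_nonneg_of_nonpos ht.1 (hx i0)
        linarith
      rw [h0] at h1; simp at h1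
  have hqc : Continuous fun t => lor (z t) (z t) :=
    lor_continuous.comp (hzc.prodMk hzc)
  have hlc : Continuous fun t => (z t) (Fin.last n) := (continuous_apply _).comp hzc
  -- bad set
  let A : Set ℝ := {t | t ∈ Set.Icc (0 : ℝ) 1 ∧ (0 ≤ lor (z t) (z t) ∨ (z t) (Fin.last n) ≤ 0)}
  have hAcl : IsClosed A := by
    apply IsClosed.inter isClosed_Icc
    exact (isClosed_le continuous_const hqc).union (isClosed_le hlc continuous_const)
  by_cases hAne : A.Nonempty
  · exfalso
    have hbdd : BddBelow A := ⟨0, fun t ht => ht.1.1⟩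
    set t0 := sInf A with ht0
    have ht0A : t0 ∈ A := hAcl.csInf_mem hAne hbdd
    have hbelow : ∀ t, 0 ≤ t → t < t0 → lor (z t) (z t) < 0 ∧ 0 < (z t) (Fin.last n) := by
      intro t h0 h1
      by_contra hcon
      have : t ∈ A := by
        refine ⟨⟨h0, h1.le.trans ht0A.1.2⟩, ?_⟩
        by_contra h2
        push Not at h2
        exact hcon h2
      exact absurd (csInf_le hbdd this) (not_le.2 h1)
    have ht0pos : 0 < t0 := by
      rcases lt_or_eq_of_le ht0A.1.1 with h | h
      · exact h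
      · exfalso
        have hA0 := ht0A.2
        rw [← h] at hA0
        simp only [z, sub_zero, one_smul, zero_smul, add_zero] at hA0
        rcases hA0 with h2 | h2
        · rw [hpH.1] at h2; linarith
        · exact absurd hpH.2 (not_lt.2 h2)
    have hlim : t0 ∈ closure (Set.Ico 0 t0) := by
      rw [closure_Ico ht0pos.ne]
      exact ⟨ht0pos.le, le_refl _⟩
    have hcl : ‖z t0‖ ^ 2 ≤ R ^ 2 * (- lor (z t0) (z t0)) ∧ 0 ≤ (z t0) (Fin.last n) := by
      have hcS : IsClosed {t : ℝ | ‖z t‖ ^ 2 ≤ R ^ 2 * (- lor (z t) (z t)) ∧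
          0 ≤ (z t) (Fin.last n)} := by
        apply IsClosed.inter
        · have h1 : Continuous fun t => ‖z t‖ ^ 2 := hzc.norm.pow 2
          have h2 : Continuous fun t => R ^ 2 * (- lor (z t) (z t)) :=
            continuous_const.mul hqc.neg
          exact isClosed_le h1 h2
        · exact isClosed_le continuous_const hlc
      have hsub : Set.Ico 0 t0 ⊆ {t : ℝ | ‖z t‖ ^ 2 ≤ R ^ 2 * (- lor (z t) (z t)) ∧
          0 ≤ (z t) (Fin.last n)} := by
        intro t ht
        have hb := hbelow t ht.1 ht.2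
        exact ⟨norm_sq_le_of_bounded hR' (hzu t ⟨ht.1, ht.2.le.trans ht0A.1.2⟩) hb.1 hb.2,
          hb.2.le⟩
      exact (hcS.closure_subset_iff.2 hsub) hlim
    have hn0 : 0 < ‖z t0‖ ^ 2 := by
      have := norm_pos_iff.2 (hz0 t0 ht0A.1)
      positivity
    have hneg : lor (z t0) (z t0) < 0 := by
      by_contra hcon
      push Not at hcon
      have : R ^ 2 * (- lor (z t0) (z t0)) ≤ 0 :=
        mul_nonpos_of_nonneg_of_nonpos (sq_nonneg R) (by linarith)
      linarith [hcl.1]
    rcases ht0A.2 with h | h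
    · linarith
    · have h0 : (z t0) (Fin.last n) = 0 := le_antisymm h hcl.2
      unfold lor at hneg
      rw [h0] at hneg
      have : 0 ≤ ∑ i : Fin n, (z t0) i.castSucc * (z t0) i.castSucc :=
        Finset.sum_nonneg fun i _ => mul_self_nonneg _
      linarith
  · have h1 : (1 : ℝ) ∉ A := fun h => hAne ⟨1, h⟩
    have hz1 : z 1 = x := by simp [z]
    simp only [A, Set.mem_ofPred_eq, hz1] at h1
    push Not at h1
    exact h1 ⟨zero_le_one, le_refl _⟩

/-- The data of the cone over a compact Coxeter polytope: everything that will be used. -/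
structure Cone (n : ℕ) where
  /-- facets -/
  ι : Type
  [fin : Fintype ι]
  [dec : DecidableEq ι]
  /-- outer unit normals -/
  u : ι → E n
  unit : ∀ i, lor (u i) (u i) = 1
  /-- interior point -/
  p : E n
  hp : lor p p < 0
  hpu : ∀ i, lor p (u i) < 0
  hcone : ∀ x : E n, (∀ i, lor x (u i) ≤ 0) → x ≠ 0 → lor x x < 0
  hconep : ∀ x : E n, (∀ i, lor x (u i) ≤ 0) → x ≠ 0 → lor p x < 0
  facet : ∀ i, ∃ x : E n, lor p x < 0 ∧ lor x (u i) = 0 ∧ (∀ j, j ≠ i → lor x (u j) < 0)
  angle : ∀ i j, i ≠ j →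
    (∃ x : E n, x ≠ 0 ∧ lor x (u i) = 0 ∧ lor x (u j) = 0 ∧
      ∀ k, k ≠ i → k ≠ j → lor x (u k) < 0) →
    ∃ m : ℕ, 2 ≤ m ∧ lor (u i) (u j) = -Real.cos (Real.pi / m)

attribute [instance] Cone.fin Cone.dec

theorem lor_neg_of_future {x y : E n} (hx : lor x x < 0) (hx0 : 0 < x (Fin.last n))
    (hy : lor y y < 0) (hy0 : 0 < y (Fin.last n)) : lor x y < 0 := by
  unfold lor at *
  set a := x (Fin.last n) with ha
  set b := y (Fin.last n) with hb
  set X := ∑ i : Fin n, x i.castSucc * x i.castSucc with hX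
  set Y := ∑ i : Fin n, y i.castSucc * y i.castSucc with hY
  set Z := ∑ i : Fin n, x i.castSucc * y i.castSucc with hZ
  have hCS : Z ^ 2 ≤ X * Y := by
    have := Finset.sum_mul_sq_le_sq_mul_sq Finset.univ (fun i : Fin n => x i.castSucc)
      (fun i : Fin n => y i.castSucc)
    calc Z ^ 2 = (∑ i : Fin n, x i.castSucc * y i.castSucc) ^ 2 := by rw [hZ]
      _ ≤ _ := this
      _ = X * Y := by
          rw [hX, hY]; simp only [pow_two]
  have hX0 : 0 ≤ X := Finset.sum_nonneg fun i _ => mul_self_nonneg _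
  have hY0 : 0 ≤ Y := Finset.sum_nonneg fun i _ => mul_self_nonneg _
  have h1 : Z ^ 2 < (a * b) ^ 2 := by
    calc Z ^ 2 ≤ X * Y := hCS
      _ ≤ a * a * Y := mul_le_mul_of_nonneg_right (by linarith) hY0
      _ < a * a * (b * b) := mul_lt_mul_of_pos_left (by linarith) (by positivity)
      _ = (a * b) ^ 2 := by ring
  have h2 : Z < a * b := lt_of_pow_lt_pow_left₀ 2 (by positivity) h1
  linarith

/-- The cone of a compact Coxeter polytope. -/
theorem exists_cone (hn : 1 ≤ n) (P : CoxeterPolytope n) : Nonempty (Cone n) := by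
  obtain ⟨p, hpH, hpu⟩ := P.interior
  have hp : lor p p < 0 := by rw [hpH.1]; norm_num
  classical
  refine ⟨{ ι := P.ι, u := P.u, unit := P.unit, p := p, hp := hp, hpu := hpu,
            hcone := fun x hx hx0 => (cone_timelike hn P hx hx0).1,
            hconep := fun x hx hx0 => ?_,
            facet := fun i => ?_, angle := fun i j hij h => ?_ }⟩
  · have := cone_timelike hn P hx hx0
    exact lor_neg_of_future hp hpH.2 this.1 this.2
  · obtain ⟨x, hxH, h1, h2⟩ := P.facet i
    refine ⟨x, ?_, h1, h2⟩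
    exact lor_neg_of_future hp hpH.2 (by rw [hxH.1]; norm_num) hxH.2
  · obtain ⟨x, hx0, h1, h2, h3⟩ := h
    have hxC : ∀ k, lor x (P.u k) ≤ 0 := by
      intro k
      by_cases hk1 : k = i
      · rw [hk1, h1]
      by_cases hk2 : k = j
      · rw [hk2, h2]
      exact (h3 k hk1 hk2).le
    have ht := cone_timelike hn P hxC hx0
    set s := Real.sqrt (- lor x x) with hs
    have hspos : 0 < s := Real.sqrt_pos.2 (by linarith [ht.1])
    have hs2 : s ^ 2 = - lor x x := Real.sq_sqrt (by linarith [ht.1])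
    have hsi : 0 < s⁻¹ := inv_pos.2 hspos
    refine P.angle i j hij ⟨s⁻¹ • x, ⟨?_, ?_⟩, ?_, ?_, ?_⟩
    · rw [lor_smul_left, lor_smul_right]
      have : lor x x = - s ^ 2 := by linarith
      rw [this]; field_simp
    · simp only [Pi.smul_apply, smul_eq_mul]
      exact mul_pos hsi ht.2
    · rw [lor_smul_left, h1, mul_zero]
    · rw [lor_smul_left, h2, mul_zero]
    · intro k hk1 hk2
      rw [lor_smul_left]
      exact mul_neg_of_pos_of_neg hsi (h3 k hk1 hk2)

end MP345
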