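import Mathlib
import Pool.Agent.Work.MP_345ef2_gt.Geo

/-!
# All pairs of facets of a compact Coxeter polytope have nonpositive product (Andreev)
-/

namespace MP345

open Finset

variable {n : ℕ}

namespace Cone

variable (C : Cone n)

/-- Gram matrix of the facet normals -/
def g (i j : C.ι) : ℝ := lor (C.u i) (C.u j)

theorem g_comm (i j : C.ι) : C.g i j = C.g j i := lor_comm _ _

theorem g_self (i : C.ι) : C.g i i = 1 := C.unit i

/-- strictly positive functional: a point of the cone that is nonzero is seen negatively by `p`,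
and a nonneg combination that is `0` has zero coefficients -/
theorem cos_nonneg_of_two_le {m : ℕ} (hm : 2 ≤ m) : 0 ≤ Real.cos (Real.pi / m) := by
  apply Real.cos_nonneg_of_mem_Icc
  constructor
  · have : 0 ≤ Real.pi / m := by positivity
    linarith [Real.pi_pos]
  · have hm' : (2 : ℝ) ≤ m := by exact_mod_cast hm
    exact div_le_div_of_nonneg_left Real.pi_pos.le (by norm_num) hm'

/-- Andreev's lemma: the Gram matrix has nonpositive off-diagonal entries. -/
theorem g_nonpos {i j : C.ι} (hij : i ≠ j) : C.g i j ≤ 0 := by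
  by_contra hpos
  push Not at hpos
  -- J = {k ≠ i : g i k > 0}
  obtain ⟨xi, hpxi, hxi0, hxi⟩ := C.facet i
  obtain ⟨xj, hpxj, hxj0, hxj⟩ := C.facet j
  set z : E n := xj - lor xj (C.u i) • C.u i with hz
  have hxji : lor xj (C.u i) < 0 := hxj i hij
  have hzi : lor z (C.u i) = 0 := by
    rw [hz, lor_sub_left, lor_smul_left, C.unit]; ring
  have hzk : ∀ k, lor z (C.u k) = lor xj (C.u k) - lor xj (C.u i) * C.g i k := by
    intro k; rw [hz, lor_sub_left, lor_smul_left]; rfl
  have hzj : 0 < lor z (C.u j) := by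
    rw [hzk, hxj0]
    have := mul_neg_of_neg_of_pos hxji hpos
    linarith
  have hznJ : ∀ k, C.g i k ≤ 0 → lor z (C.u k) ≤ 0 := by
    intro k hk
    rw [hzk]
    have h1 : lor xj (C.u k) ≤ 0 := by
      by_cases h : k = j
      · rw [h, hxj0]
      · exact (hxj k h).le
    have h2 : 0 ≤ lor xj (C.u i) * C.g i k := mul_nonneg_of_nonpos_of_nonpos hxji.le hk
    linarith
  have hpz : lor C.p z < 0 := by
    rw [hz, lor_sub_right, lor_smul_right]
    have := mul_pos_of_neg_of_neg hxji (C.hpu i)
    linarith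
  -- exit time: minimise over k with lor z (u k) > 0 the ratio
  -- t_k = lor xi u_k / (lor xi u_k - lor z u_k)
  let K : Finset C.ι := Finset.univ.filter fun k => 0 < lor z (C.u k)
  have hjK : j ∈ K := by simp [K, hzj]
  have hKi : ∀ k ∈ K, k ≠ i := by
    intro k hk h
    simp only [K, Finset.mem_filter, Finset.mem_univ, true_and] at hk
    rw [h, hzi] at hk; exact lt_irrefl _ hk
  have hKJ : ∀ k ∈ K, 0 < C.g i k := by
    intro k hk
    by_contra h
    push Not at h
    simp only [K, Finset.mem_filter, Finset.mem_univ, true_and] at hk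
    linarith [hznJ k h]
  let τ : C.ι → ℝ := fun k => lor xi (C.u k) / (lor xi (C.u k) - lor z (C.u k))
  obtain ⟨k0, hk0K, hk0min⟩ := Finset.exists_min_image K τ ⟨j, hjK⟩
  have hKz : ∀ k ∈ K, 0 < lor z (C.u k) := by
    intro k hk; simpa [K] using hk
  have hτpos : ∀ k ∈ K, 0 < τ k ∧ τ k < 1 := by
    intro k hk
    have h1 := hxi k (hKi k hk)
    have h2 := hKz k hk
    have h3 : lor xi (C.u k) - lor z (C.u k) < 0 := by linarith
    refine ⟨div_pos_of_neg_of_neg h1 h3, ?_⟩
    rw [div_lt_one_of_neg h3]; linarith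
  set t := τ k0 with ht
  have ht0 := (hτpos k0 hk0K).1
  have ht1 := (hτpos k0 hk0K).2
  set y : E n := (1 - t) • xi + t • z with hy
  have hyk : ∀ k, lor y (C.u k) = lor xi (C.u k) - t * (lor xi (C.u k) - lor z (C.u k)) := by
    intro k; rw [hy, lor_add_left, lor_smul_left, lor_smul_left]; ring
  have hyi : lor y (C.u i) = 0 := by rw [hyk, hxi0, hzi]; ring
  have hyK : ∀ k ∈ K, lor y (C.u k) ≤ 0 := by
    intro k hk
    have h1 := hxi k (hKi k hk)
    have h2 := hKz k hk
    have h3 : lor xi (C.u k) - lor z (C.u k) < 0 := by linarith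
    have h4 : t ≤ τ k := hk0min k hk
    rw [hyk]
    have h5 : t * (lor xi (C.u k) - lor z (C.u k)) ≥ τ k * (lor xi (C.u k) - lor z (C.u k)) :=
      mul_le_mul_of_nonpos_right h4 h3.le
    have h6 : τ k * (lor xi (C.u k) - lor z (C.u k)) = lor xi (C.u k) := by
      simp only [τ]; exact div_mul_cancel₀ _ h3.ne
    linarith
  have hynK : ∀ k, k ≠ i → k ∉ K → lor y (C.u k) < 0 := by
    intro k hki hk
    simp only [K, Finset.mem_filter, Finset.mem_univ, true_and, not_lt] at hk
    rw [hyk]
    have h1 := hxi k hki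
    nlinarith
  have hyk0 : lor y (C.u k0) = 0 := by
    have h1 := hxi k0 (hKi k0 hk0K)
    have h2 := hKz k0 hk0K
    have h3 : lor xi (C.u k0) - lor z (C.u k0) ≠ 0 := by
      have : lor xi (C.u k0) - lor z (C.u k0) < 0 := by linarith
      exact this.ne
    rw [hyk, ht]; simp only [τ]; field_simp; ring
  have hpy : lor C.p y < 0 := by
    rw [hy, lor_add_right, lor_smul_right, lor_smul_right]
    have h1 := mul_neg_of_pos_of_neg (sub_pos.2 ht1) hpxi
    have h2 := mul_neg_of_pos_of_neg ht0 hpz
    linarith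
  have hy0 : y ≠ 0 := by
    intro h; rw [h] at hpy; simp at hpy
  have hyC : ∀ k, lor y (C.u k) ≤ 0 := by
    intro k
    by_cases hki : k = i
    · rw [hki, hyi]
    by_cases hk : k ∈ K
    · exact hyK k hk
    · exact (hynK k hki hk).le
  have hyy : lor y y < 0 := C.hcone y hyC hy0
  -- K0: tight set besides i
  let K0 : Finset C.ι := K.filter fun k => lor y (C.u k) = 0
  have hk0K0 : k0 ∈ K0 := by simp [K0, hk0K, hyk0]
  have hK0K : ∀ k ∈ K0, k ∈ K := fun k hk => (Finset.mem_filter.1 hk).1
  have hK0y : ∀ k ∈ K0, lor y (C.u k) = 0 := fun k hk => (Finset.mem_filter.1 hk).2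
  have hK0n : ∀ k, k ≠ i → k ∉ K0 → lor y (C.u k) < 0 := by
    intro k hki hk
    by_cases hkK : k ∈ K
    · refine lt_of_le_of_ne (hyK k hkK) fun h => hk ?_
      exact Finset.mem_filter.2 ⟨hkK, h⟩
    · exact hynK k hki hkK
  -- direction d
  set d : E n := xi - (lor xi y / lor y y) • y with hd
  have hdy : lor d y = 0 := by
    rw [hd, lor_sub_left, lor_smul_left, div_mul_cancel₀ _ hyy.ne]; ring
  have hdi : lor d (C.u i) = 0 := by
    rw [hd, lor_sub_left, lor_smul_left, hxi0, hyi]; ring
  have hdk : ∀ k ∈ K0, lor d (C.u k) < 0 := by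
    intro k hk
    rw [hd, lor_sub_left, lor_smul_left, hK0y k hk]
    have := hxi k (hKi k (hK0K k hk))
    linarith
  -- projected normals
  let v : C.ι → E n := fun k => C.u k - C.g i k • C.u i
  have hvi : ∀ k, lor (v k) (C.u i) = 0 := by
    intro k
    simp only [v, lor_sub_left, lor_smul_left, C.unit]
    have : lor (C.u k) (C.u i) = C.g i k := C.g_comm k i
    rw [this]; ring
  have hvy : ∀ k ∈ K0, lor y (v k) = 0 := by
    intro k hk
    simp only [v, lor_sub_right, lor_smul_right, hK0y k hk, hyi]; ring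
  have hwv : ∀ (w : E n) (k : C.ι), lor w (C.u i) = 0 → lor w (v k) = lor w (C.u k) := by
    intro w k hw
    simp only [v, lor_sub_right, lor_smul_right, hw]; ring
  have hv0 : ∀ k ∈ K0, v k ≠ 0 := by
    intro k hk h
    have h1 := hdk k hk
    rw [← hwv d k hdi, h] at h1
    simp at h1
  have hvpos : ∀ k ∈ K0, 0 < lor (v k) (v k) := fun k hk =>
    lor_pos_of_orth hyy (hvy k hk) (hv0 k hk)
  let N : C.ι → ℝ := fun k => Real.sqrt (lor (v k) (v k))
  have hN : ∀ k ∈ K0, 0 < N k := fun k hk => Real.sqrt_pos.2 (hvpos k hk)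
  have hN2 : ∀ k ∈ K0, N k ^ 2 = lor (v k) (v k) := fun k hk => Real.sq_sqrt (hvpos k hk).le
  let r : C.ι → ℝ := fun k => - lor d (C.u k) / N k
  obtain ⟨k, hkK0, hkmin⟩ := Finset.exists_min_image K0 r ⟨k0, hk0K0⟩
  have hki : k ≠ i := hKi k (hK0K k hkK0)
  have hgik : 0 < C.g i k := hKJ k (hK0K k hkK0)
  have hrpos : 0 < r k := div_pos (by linarith [hdk k hkK0]) (hN k hkK0)
  set T : E n := d + (r k / N k) • v k with hT
  have hTi : lor T (C.u i) = 0 := by
    rw [hT, lor_add_left, lor_smul_left, hdi, hvi]; ring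
  have hTy : lor T y = 0 := by
    rw [hT, lor_add_left, lor_smul_left, hdy, lor_comm, hvy k hkK0]; ring
  have hTk : lor T (C.u k) = 0 := by
    have h1 : lor (v k) (C.u k) = lor (v k) (v k) := (hwv (v k) k (hvi k)).symm
    rw [hT, lor_add_left, lor_smul_left, h1, ← hN2 k hkK0]
    have := (hN k hkK0).ne'
    simp only [r]; field_simp; ring
  have hTl : ∀ l ∈ K0, l ≠ k → lor T (C.u l) < 0 := by
    intro l hl hlk
    have h1 : lor (v k) (C.u l) = lor (v k) (v l) := (hwv (v k) l (hvi k)).symm
    rw [hT, lor_add_left, lor_smul_left, h1]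
    have hr : r k ≤ r l := hkmin l hl
    have hNk := hN k hkK0
    have hNl := hN l hl
    have h2 : lor d (C.u l) = - r l * N l := by simp only [r]; field_simp
    -- strict Cauchy–Schwarz: lor (v k) (v l) < N k * N l
    have h3 : lor (v k) (v l) < N k * N l := by
      by_contra hcon
      push Not at hcon
      -- w = N l • v k - N k • v l has lor w w ≤ 0, so w = 0
      have hw : N l • v k - N k • v l = 0 := by
        by_contra hw0
        have hwy : lor y (N l • v k - N k • v l) = 0 := by
          rw [lor_sub_right, lor_smul_right, lor_smul_right, hvy k hkK0, hvy l hl]; ring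
        have hwpos := lor_pos_of_orth hyy hwy hw0
        rw [lor_sub_left, lor_sub_right, lor_sub_right, lor_smul_left, lor_smul_right,
          lor_smul_left, lor_smul_right, lor_smul_left, lor_smul_right, lor_smul_left,
          lor_smul_right, ← hN2 k hkK0, ← hN2 l hl, lor_comm (v l) (v k)] at hwpos
        have h4 : N l * N k * (N k * N l) ≤ N l * N k * lor (v k) (v l) :=
          mul_le_mul_of_nonneg_left hcon (by positivity)
        nlinarith
      -- so u l = lam u k + mu u i
      have hlam : v l = (N l / N k) • v k := by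
        have h5 : N k • v l = N l • v k := (sub_eq_zero.1 hw).symm
        calc v l = (N k)⁻¹ • (N k • v l) := by rw [smul_smul, inv_mul_cancel₀ hNk.ne', one_smul]
          _ = (N l / N k) • v k := by rw [h5, smul_smul]; congr 1; field_simp
      set lam := N l / N k with hlamdef
      have hlampos : 0 < lam := div_pos hNl hNk
      set mu := C.g i l - lam * C.g i k with hmu
      have hul : C.u l = lam • C.u k + mu • C.u i := by
        have h6 : C.u l - C.g i l • C.u i = lam • (C.u k - C.g i k • C.u i) := hlam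
        have h7 : C.u l = lam • (C.u k - C.g i k • C.u i) + C.g i l • C.u i := by
          rw [← h6]; abel
        rw [h7, hmu, smul_sub, sub_smul, smul_smul]; abel
      obtain ⟨xl, hpxl, hxl0, hxl⟩ := C.facet l
      obtain ⟨xk, hpxk, hxk0, hxk⟩ := C.facet k
      have hli : l ≠ i := hKi l (hK0K l hl)
      have e1 : lor xl (C.u l) = lam * lor xl (C.u k) + mu * lor xl (C.u i) := by
        conv_lhs => rw [hul]
        rw [lor_add_right, lor_smul_right, lor_smul_right]
      have e2 : lor xk (C.u l) = lam * lor xk (C.u k) + mu * lor xk (C.u i) := by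
        conv_lhs => rw [hul]
        rw [lor_add_right, lor_smul_right, lor_smul_right]
      rw [hxl0] at e1
      rw [hxk0] at e2
      have s1 := hxl k (Ne.symm hlk)
      have s2 := hxl i (Ne.symm hli)
      have s3 := hxk l hlk
      have s4 := hxk i (Ne.symm hki)
      have p1 := mul_neg_of_pos_of_neg hlampos s1
      -- mu * lor xl u_i > 0 so mu < 0
      have hmuneg : mu < 0 := by
        by_contra h
        push Not at h
        have := mul_nonpos_of_nonneg_of_nonpos h s2.le
        linarith
      have := mul_pos_of_neg_of_neg hmuneg s4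
      linarith
    rw [h2]
    have h4 : r k / N k * lor (v k) (v l) < r k / N k * (N k * N l) :=
      mul_lt_mul_of_pos_left h3 (div_pos hrpos hNk)
    have h5 : r k / N k * (N k * N l) = r k * N l := by field_simp
    have h6 : r k * N l ≤ r l * N l := mul_le_mul_of_nonneg_right hr hNl.le
    linarith
  -- choose epsilon
  have heps : ∃ ε : ℝ, 0 < ε ∧ ∀ l, l ∉ K0 → l ≠ i → lor y (C.u l) + ε * lor T (C.u l) < 0 := by
    have hone : ∀ l : C.ι, ∃ ε : ℝ, 0 < ε ∧ ∀ ε', 0 < ε' → ε' ≤ ε → l ∉ K0 → l ≠ i →
        lor y (C.u l) + ε' * lor T (C.u l) < 0 := by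
      intro l
      by_cases hl : l ∉ K0 ∧ l ≠ i
      · have h1 := hK0n l hl.2 hl.1
        refine ⟨- lor y (C.u l) / (2 * (|lor T (C.u l)| + 1)), ?_, ?_⟩
        · apply div_pos (by linarith); positivity
        · intro ε' h0 hle _ _
          have h2 : ε' * (2 * (|lor T (C.u l)| + 1)) ≤ - lor y (C.u l) := by
            rwa [le_div_iff₀ (by positivity)] at hle
          have h3 : ε' * lor T (C.u l) ≤ ε' * |lor T (C.u l)| :=
            mul_le_mul_of_nonneg_left (le_abs_self _) h0.le
          nlinarith [abs_nonneg (lor T (C.u l))]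
      · refine ⟨1, one_pos, fun ε' _ _ h1 h2 => absurd ⟨h1, h2⟩ hl⟩
    choose ε hε hε' using hone
    obtain ⟨m, -, hm⟩ := Finset.exists_min_image (Finset.univ : Finset C.ι) ε ⟨i, Finset.mem_univ i⟩
    exact ⟨ε m, hε m, fun l h1 h2 => hε' l (ε m) (hε m) (hm l (Finset.mem_univ l)) h1 h2⟩
  obtain ⟨ε, hεpos, hε⟩ := heps
  have hfin := C.angle i k (Ne.symm hki) ⟨y + ε • T, ?_, ?_, ?_, ?_⟩
  · obtain ⟨m, hm, hgm⟩ := hfin
    have := cos_nonneg_of_two_le hm
    have h1 : C.g i k = - Real.cos (Real.pi / m) := hgm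
    linarith
  · intro h0
    have h1 : lor (y + ε • T) y = 0 := by rw [h0]; simp
    rw [lor_add_left, lor_smul_left, hTy] at h1
    linarith
  · rw [lor_add_left, lor_smul_left, hyi, hTi]; ring
  · rw [lor_add_left, lor_smul_left, hK0y k hkK0, hTk]; ring
  · intro l hli hlk
    rw [lor_add_left, lor_smul_left]
    by_cases hl : l ∈ K0
    · rw [hK0y l hl]
      have := mul_neg_of_pos_of_neg hεpos (hTl l hl hlk)
      linarith
    · exact hε l hl hli

end Cone

end MP345
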