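import Mathlib

/-!
# Gram data: definitions for the combinatorial part (MP_345ef2_gt)

`g : ι → ι → ℝ` is the Gram matrix of the facets, `PD g S` says that the facets in `S` have a
positive definite Gram matrix (equivalently, for a compact Coxeter polytope: they meet in a face of
codimension `#S`).
-/

namespace MP345

open Finset

variable {ι : Type*} [Fintype ι]

/-- bilinear form of the Gram matrix -/
def bf (g : ι → ι → ℝ) (c d : ι → ℝ) : ℝ := ∑ i, ∑ j, c i * d j * g i j

/-- quadratic form of the Gram matrix -/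
def qf (g : ι → ι → ℝ) (c : ι → ℝ) : ℝ := bf g c c

/-- the facets in `S` have a positive definite Gram matrix -/
def PD (g : ι → ι → ℝ) (S : Finset ι) : Prop :=
  ∀ c : ι → ℝ, (∀ i, i ∉ S → c i = 0) → c ≠ 0 → 0 < qf g c

theorem PD.mono {g : ι → ι → ℝ} {S T : Finset ι} (hT : PD g T) (h : S ⊆ T) : PD g S :=
  fun c hc h0 => hT c (fun i hi => hc i fun hS => hi (h hS)) h0

theorem pd_empty (g : ι → ι → ℝ) : PD g ∅ := by
  intro c hc h0
  exact absurd (funext fun i => hc i (Finset.notMem_empty i)) h0

variable [DecidableEq ι]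

open scoped Classical in
/-- vertices: positive definite sets of size `n` -/
noncomputable def Verts (g : ι → ι → ℝ) (n : ℕ) : Finset (Finset ι) :=
  Finset.univ.filter fun S => PD g S ∧ S.card = n

open scoped Classical in
/-- 2-faces: sets `K` of size `n - 2` contained in some vertex -/
noncomputable def Faces2 (g : ι → ι → ℝ) (n : ℕ) : Finset (Finset ι) :=
  Finset.univ.filter fun K => K.card + 2 = n ∧ ∃ S ∈ Verts g n, K ⊆ S

/-- number of vertices of a 2-face -/
noncomputable def kF (g : ι → ι → ℝ) (n : ℕ) (K : Finset ι) : ℕ :=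
  ((Verts g n).filter fun S => K ⊆ S).card

/-- The combinatorial data of a compact Coxeter polytope of dimension `n`. -/
structure CoxData (n : ℕ) where
  /-- facets -/
  ι : Type
  [fin : Fintype ι]
  [dec : DecidableEq ι]
  /-- Gram matrix -/
  g : ι → ι → ℝ
  symm : ∀ i j, g i j = g j i
  self : ∀ i, g i i = 1
  off : ∀ i j, i ≠ j → (∃ m : ℕ, 2 ≤ m ∧ g i j = - Real.cos (Real.pi / m)) ∨ g i j < -1
  /-- a face of codimension `k` has `k ≤ n` facets through it -/
  card_le : ∀ S, PD g S → S.card ≤ n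
  /-- a non-maximal positive definite set can be extended -/
  extend : ∀ S, PD g S → S.card < n → ∃ i, i ∉ S ∧ PD g (insert i S)
  /-- an edge has exactly two vertices -/
  edge : ∀ S, PD g S → S.card + 1 = n →
    ∃ i j, i ≠ j ∧ i ∉ S ∧ j ∉ S ∧ PD g (insert i S) ∧ PD g (insert j S) ∧
      ∀ k, k ∉ S → PD g (insert k S) → k = i ∨ k = j
  /-- no degenerate nonneg vectors: a nonneg vector `c ≠ 0` with `(Gc)_i ≤ 0` on its support has
  `cᵀGc < 0` -/
  noPar : ∀ c : ι → ℝ, (∀ i, 0 ≤ c i) → c ≠ 0 → (∀ i, 0 < c i → ∑ j, g i j * c j ≤ 0) →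
    qf g c < 0
  /-- the Gram matrix has at most one negative eigenvalue -/
  sig : ∀ c d : ι → ℝ, qf g c < 0 → bf g c d = 0 → 0 ≤ qf g d
  /-- there is a vertex -/
  verts_nonempty : (Verts g n).Nonempty
  /-- Vinberg's / Nikulin's estimate: there are many 2-faces -/
  count : (n : ℝ) * (n - 6) * (Verts g n).card ≤
    8 * ∑ K ∈ Faces2 g n, max (5 - (kF g n K : ℝ)) 0

attribute [instance] CoxData.fin CoxData.dec

end MP345
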