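import Mathlib
import Pool.Agent.Work.MP_345ef2_gt.Andreev
import Pool.Agent.Work.MP_345ef2_gt.Gram

/-!
# Faces of a compact Coxeter polytope correspond to positive definite sets of facets
-/

namespace MP345

open Finset

variable {n : ℕ}

namespace Cone

variable (C : Cone n)

/-- the vector with coordinates `c` -/
noncomputable def vec (c : C.ι → ℝ) : E n := ∑ i, c i • C.u i

theorem lor_vec_right (x : E n) (c : C.ι → ℝ) : lor x (C.vec c) = ∑ i, c i * lor x (C.u i) := by
  unfold vec; rw [lor_sum_right]
  exact Finset.sum_congr rfl fun i _ => lor_smul_right _ _ _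

theorem lor_vec_vec (c d : C.ι → ℝ) : lor (C.vec c) (C.vec d) = bf C.g c d := by
  unfold bf
  rw [lor_comm, lor_vec_right]
  refine Finset.sum_congr rfl fun i _ => ?_
  rw [lor_comm, lor_vec_right, Finset.mul_sum]
  refine Finset.sum_congr rfl fun j _ => ?_
  rw [g]; ring

theorem qf_eq (c : C.ι → ℝ) : qf C.g c = lor (C.vec c) (C.vec c) := (C.lor_vec_vec c c).symm

/-- a nonneg combination of the normals vanishes only trivially -/
theorem vec_ne_zero {c : C.ι → ℝ} (hc : ∀ i, 0 ≤ c i) (h0 : c ≠ 0) : C.vec c ≠ 0 := by
  intro h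
  have h1 : lor C.p (C.vec c) = 0 := by rw [h]; simp
  rw [lor_vec_right] at h1
  have h2 : ∀ i ∈ (Finset.univ : Finset C.ι), c i * lor C.p (C.u i) ≤ 0 := fun i _ =>
    mul_nonpos_of_nonneg_of_nonpos (hc i) (C.hpu i).le
  have h3 := (Finset.sum_eq_zero_iff_of_nonpos h2).1 h1
  apply h0
  funext i
  have h4 := h3 i (Finset.mem_univ i)
  rcases mul_eq_zero.1 h4 with h | h
  · exact h
  · exact absurd h (C.hpu i).ne

/-- **no parabolic vectors** -/
theorem noPar (c : C.ι → ℝ) (hc : ∀ i, 0 ≤ c i) (h0 : c ≠ 0)
    (h : ∀ i, 0 < c i → ∑ j, C.g i j * c j ≤ 0) : qf C.g c < 0 := by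
  rw [qf_eq]
  apply C.hcone _ _ (C.vec_ne_zero hc h0)
  intro i
  have h1 : lor (C.vec c) (C.u i) = ∑ j, C.g i j * c j := by
    rw [lor_comm, lor_vec_right]
    exact Finset.sum_congr rfl fun j _ => by rw [g]; ring
  rw [h1]
  rcases lt_or_eq_of_le (hc i) with hi | hi
  · exact h i hi
  · refine Finset.sum_nonpos fun j _ => ?_
    by_cases hij : i = j
    · subst hij; rw [← hi]; simp
    · exact mul_nonpos_of_nonpos_of_nonneg (C.g_nonpos hij) (hc j)

theorem sig (c d : C.ι → ℝ) (hc : qf C.g c < 0) (h : bf C.g c d = 0) : 0 ≤ qf C.g d := by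
  rw [qf_eq] at hc ⊢
  rw [← lor_vec_vec] at h
  exact lor_nonneg_of_orth hc h

/-- **F1**: a positive definite set `S` is the exact tight set of a point of the cone. -/
theorem exists_point {S : Finset C.ι} (hS : PD C.g S) :
    ∃ x : E n, lor C.p x = -1 ∧ (∀ i ∈ S, lor x (C.u i) = 0) ∧ ∀ i, i ∉ S → lor x (C.u i) < 0 := by
  -- solve the linear system
  let Φ : (C.ι → ℝ) →ₗ[ℝ] (C.ι → ℝ) :=
    { toFun := fun c t => if t ∈ S then ∑ s ∈ S, c s * C.g s t else c t
      map_add' := by
        intro c d; funext t
        by_cases ht : t ∈ S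
        · simp [ht, add_mul, Finset.sum_add_distrib]
        · simp [ht]
      map_smul' := by
        intro r c; funext t
        by_cases ht : t ∈ S
        · simp [ht, Finset.mul_sum, mul_assoc]
        · simp [ht] }
  have hΦ : ∀ c t, Φ c t = if t ∈ S then ∑ s ∈ S, c s * C.g s t else c t := fun c t => rfl
  have hinj : Function.Injective Φ := by
    rw [injective_iff_map_eq_zero]
    intro c hc
    by_contra h0
    have hcS : ∀ i, i ∉ S → c i = 0 := by
      intro i hi
      have := congrFun hc i
      rwa [hΦ, if_neg hi] at this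
    have h1 := hS c hcS h0
    have h2 : qf C.g c = 0 := by
      unfold qf bf
      rw [Finset.sum_comm]
      refine Finset.sum_eq_zero fun t _ => ?_
      by_cases ht : t ∈ S
      · have h3 := congrFun hc t
        rw [hΦ, if_pos ht] at h3
        have h4 : ∑ s, c s * C.g s t = 0 := by
          rw [← Finset.sum_subset (Finset.subset_univ S)]
          · exact h3
          · intro s _ hs; rw [hcS s hs]; ring
        have h5 : ∑ s, c s * c t * C.g s t = c t * ∑ s, c s * C.g s t := by
          rw [Finset.mul_sum]; exact Finset.sum_congr rfl fun s _ => by ring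
        rw [h5, h4]; ring
      · refine Finset.sum_eq_zero fun s _ => ?_
        rw [hcS t ht]; ring
    linarith
  have hsurj : Function.Surjective Φ := LinearMap.injective_iff_surjective.1 hinj
  obtain ⟨c, hc⟩ := hsurj fun t => if t ∈ S then lor C.p (C.u t) else 0
  have hcS : ∀ i, i ∉ S → c i = 0 := by
    intro i hi
    have := congrFun hc i
    rwa [hΦ, if_neg hi, if_neg hi] at this
  have hct : ∀ t ∈ S, ∑ s, c s * C.g s t = lor C.p (C.u t) := by
    intro t ht
    have := congrFun hc t
    rw [hΦ, if_pos ht, if_pos ht] at this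
    rw [← this]
    symm
    apply Finset.sum_subset (Finset.subset_univ S)
    intro s _ hs; rw [hcS s hs]; ring
  -- sign
  have hneg : ∀ i, c i ≤ 0 := by
    let a : C.ι → ℝ := fun i => max (c i) 0
    have ha0 : ∀ i, 0 ≤ a i := fun i => le_max_right _ _
    by_cases ha : a = 0
    · intro i
      have := congrFun ha i
      simp only [a, Pi.zero_apply] at this
      exact max_eq_right_iff.1 this
    · exfalso
      have h1 : 0 < qf C.g a := hS a (fun i hi => by simp [a, hcS i hi]) ha
      have h2 : qf C.g a ≤ ∑ t, ∑ s, a t * c s * C.g s t := by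
        unfold qf bf
        refine Finset.sum_le_sum fun t _ => Finset.sum_le_sum fun s _ => ?_
        rw [C.g_comm t s]
        by_cases hst : s = t
        · subst hst
          have : a s * a s = a s * c s := by
            simp only [a]
            rcases le_total (c s) 0 with h | h
            · rw [max_eq_right h]; ring
            · rw [max_eq_left h]
          rw [this]
        · have hg := C.g_nonpos hst
          have h3 : c s ≤ a s := le_max_left _ _
          have h4 : 0 ≤ a t * (a s - c s) := mul_nonneg (ha0 t) (by linarith)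
          nlinarith
      have h3 : ∑ t, ∑ s, a t * c s * C.g s t ≤ 0 := by
        refine Finset.sum_nonpos fun t _ => ?_
        have h5 : ∑ s, a t * c s * C.g s t = a t * ∑ s, c s * C.g s t := by
          rw [Finset.mul_sum]; exact Finset.sum_congr rfl fun s _ => by ring
        rw [h5]
        by_cases ht : t ∈ S
        · rw [hct t ht]
          exact mul_nonpos_of_nonneg_of_nonpos (ha0 t) (C.hpu t).le
        · have : a t = 0 := by simp [a, hcS t ht]
          rw [this]; simp
      linarith
  set x := C.p - C.vec c with hx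
  have hxt : ∀ i ∈ S, lor x (C.u i) = 0 := by
    intro i hi
    rw [hx, lor_sub_left, lor_comm (C.vec c), lor_vec_right, ← hct i hi, sub_eq_zero]
    exact Finset.sum_congr rfl fun s _ => by rw [C.g_comm s i, g]
  have hxn : ∀ i, i ∉ S → lor x (C.u i) < 0 := by
    intro i hi
    rw [hx, lor_sub_left, lor_comm (C.vec c), lor_vec_right]
    have h1 : 0 ≤ ∑ s, c s * lor (C.u i) (C.u s) := by
      refine Finset.sum_nonneg fun s _ => ?_
      by_cases hs : s = i
      · subst hs; rw [hcS s hi]; simp
      · exact mul_nonneg_of_nonpos_of_nonpos (hneg s) (C.g_nonpos (Ne.symm hs))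
    linarith [C.hpu i]
  have hpx : lor C.p x < 0 := by
    rw [hx, lor_sub_right, lor_vec_right]
    have h1 : 0 ≤ ∑ s, c s * lor C.p (C.u s) :=
      Finset.sum_nonneg fun s _ => mul_nonneg_of_nonpos_of_nonpos (hneg s) (C.hpu s).le
    linarith [C.hp]
  set r := - lor C.p x with hr
  have hrpos : 0 < r := by linarith
  have hri : 0 < r⁻¹ := inv_pos.2 hrpos
  refine ⟨r⁻¹ • x, ?_, fun i hi => ?_, fun i hi => ?_⟩
  · rw [lor_smul_right, show lor C.p x = - r by linarith]
    field_simp
  · rw [lor_smul_left, hxt i hi]; ring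
  · rw [lor_smul_left]; exact mul_neg_of_pos_of_neg hri (hxn i hi)

/-- **F2**: tight sets of points of the cone are positive definite. -/
theorem pd_of_tight {x : E n} (hx : lor x x < 0) {S : Finset C.ι}
    (hS : ∀ i ∈ S, lor x (C.u i) = 0) : PD C.g S := by
  intro c hcS hc0
  have hxc : ∀ d : C.ι → ℝ, (∀ i, i ∉ S → d i = 0) → lor x (C.vec d) = 0 := by
    intro d hd
    rw [lor_vec_right]
    refine Finset.sum_eq_zero fun i _ => ?_
    by_cases hi : i ∈ S
    · rw [hS i hi]; ring
    · rw [hd i hi]; ring
  rw [qf_eq]
  by_cases hw : C.vec c = 0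
  · exfalso
    let a : C.ι → ℝ := fun i => max (c i) 0
    let b : C.ι → ℝ := fun i => max (- c i) 0
    have ha0 : ∀ i, 0 ≤ a i := fun i => le_max_right _ _
    have hb0 : ∀ i, 0 ≤ b i := fun i => le_max_right _ _
    have hab : ∀ i, c i = a i - b i := by
      intro i; simp only [a, b]
      rcases le_total (c i) 0 with h | h
      · rw [max_eq_right h, max_eq_left (by linarith)]; ring
      · rw [max_eq_left h, max_eq_right (by linarith)]; ring
    have hvab : C.vec a = C.vec b := by
      have : C.vec c = C.vec a - C.vec b := by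
        unfold vec; rw [← Finset.sum_sub_distrib]
        exact Finset.sum_congr rfl fun i _ => by rw [hab i, sub_smul]
      rw [hw] at this
      exact (sub_eq_zero.1 this.symm)
    have hle : lor (C.vec a) (C.vec b) ≤ 0 := by
      rw [lor_vec_vec]; unfold bf
      refine Finset.sum_nonpos fun i _ => Finset.sum_nonpos fun j _ => ?_
      by_cases hij : i = j
      · subst hij
        have : a i * b i = 0 := by
          simp only [a, b]
          rcases le_total (c i) 0 with h | h
          · rw [max_eq_right h]; ring
          · rw [max_eq_right (show - c i ≤ 0 by linarith)]; ring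
        rw [this]; simp
      · exact mul_nonpos_of_nonneg_of_nonpos (mul_nonneg (ha0 i) (hb0 j)) (C.g_nonpos hij)
    have haz : C.vec a = 0 := by
      by_contra h
      have h1 := lor_pos_of_orth hx (hxc a fun i hi => by simp [a, hcS i hi]) h
      rw [← hvab] at hle
      linarith
    have ha : a = 0 := by
      by_contra h; exact C.vec_ne_zero ha0 h haz
    have hb : b = 0 := by
      by_contra h; exact C.vec_ne_zero hb0 h (hvab ▸ haz)
    apply hc0
    funext i
    rw [hab i, ha, hb]; simp
  · exact lor_pos_of_orth hx (hxc c hcS) hw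

theorem timelike_of_point {x : E n} (h : ∀ i, lor x (C.u i) ≤ 0) (hp : lor C.p x < 0) :
    lor x x < 0 := by
  apply C.hcone x h
  intro h0; rw [h0] at hp; simp at hp

/-- points with exact tight set `S`, normalised -/
theorem point_timelike {x : E n} {S : Finset C.ι} (hp : lor C.p x = -1)
    (h1 : ∀ i ∈ S, lor x (C.u i) = 0) (h2 : ∀ i, i ∉ S → lor x (C.u i) < 0) : lor x x < 0 := by
  apply C.timelike_of_point _ (by rw [hp]; norm_num)
  intro i
  by_cases hi : i ∈ S
  · rw [h1 i hi]
  · exact (h2 i hi).le

/-- linear independence of a positive definite set of normals -/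
theorem linInd {S : Finset C.ι} (hS : PD C.g S) :
    LinearIndependent ℝ (fun s : S => C.u s) := by
  rw [Fintype.linearIndependent_iff]
  intro a ha s
  by_contra hs
  let c : C.ι → ℝ := fun i => if h : i ∈ S then a ⟨i, h⟩ else 0
  have hc0 : c ≠ 0 := by
    intro h
    have := congrFun h s.1
    simp only [c, s.2, dif_pos, Pi.zero_apply] at this
    exact hs this
  have h1 := hS c (fun i hi => by simp [c, hi]) hc0
  have h2 : C.vec c = 0 := by
    unfold vec
    rw [← Finset.sum_subset (Finset.subset_univ S)]
    · rw [← Finset.sum_coe_sort S]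
      rw [← ha]
      refine Finset.sum_congr rfl fun i _ => ?_
      simp [c]
    · intro i _ hi; simp [c, hi]
  rw [qf_eq, h2] at h1
  simp at h1

theorem finrank_ker {x : E n} (hx : lor x x ≠ 0) :
    Module.finrank ℝ (LinearMap.ker (lorB n x)) = n := by
  have h0 : (lorB n x : E n →ₗ[ℝ] ℝ) ≠ 0 := by
    intro h; apply hx
    have := congrFun (congrArg DFunLike.coe h) x
    simpa using this
  have h1 := Module.Dual.finrank_ker_add_one_of_ne_zero h0
  have h2 : Module.finrank ℝ (E n) = n + 1 := by simp [E]
  omega

/-- **F3** -/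
theorem card_le (S : Finset C.ι) (hS : PD C.g S) : S.card ≤ n := by
  obtain ⟨x, hp, h1, h2⟩ := C.exists_point hS
  have hx := C.point_timelike hp h1 h2
  have hli := C.linInd hS
  let f : S → LinearMap.ker (lorB n x) := fun s => ⟨C.u s, by
    rw [LinearMap.mem_ker]; exact h1 s.1 s.2⟩
  have hf : LinearIndependent ℝ f := by
    apply LinearIndependent.of_comp (LinearMap.ker (lorB n x)).subtype
    exact hli
  have := hf.fintype_card_le_finrank
  rw [finrank_ker hx.ne] at this
  simpa using this

/-- orthogonal complement of the normals in `S` -/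
noncomputable def perp (S : Finset C.ι) : Submodule ℝ (E n) where
  carrier := {x | ∀ i ∈ S, lor x (C.u i) = 0}
  add_mem' := by
    intro a b ha hb i hi; rw [lor_add_left, ha i hi, hb i hi]; ring
  zero_mem' := by intro i _; simp
  smul_mem' := by intro c x hx i hi; rw [lor_smul_left, hx i hi]; ring

theorem mem_perp {S : Finset C.ι} {x : E n} : x ∈ C.perp S ↔ ∀ i ∈ S, lor x (C.u i) = 0 :=
  Iff.rfl

theorem finrank_perp {S : Finset C.ι} (hS : PD C.g S) :
    Module.finrank ℝ (C.perp S) + S.card = n + 1 := by
  have hE : Module.finrank ℝ (E n) = n + 1 := by simp [E]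
  -- lower bound
  let Ψ : E n →ₗ[ℝ] (S → ℝ) := LinearMap.pi fun s : S => (lorB n).flip (C.u s)
  have hker : LinearMap.ker Ψ = C.perp S := by
    ext x
    rw [LinearMap.mem_ker, mem_perp]
    constructor
    · intro h i hi
      have := congrFun h ⟨i, hi⟩
      exact this
    · intro h; funext s; exact h s.1 s.2
  have h1 := LinearMap.finrank_range_add_finrank_ker Ψ
  have h2 : Module.finrank ℝ (LinearMap.range Ψ) ≤ S.card := by
    calc _ ≤ Module.finrank ℝ (S → ℝ) := Submodule.finrank_le _
      _ = S.card := by simp
  rw [hker, hE] at h1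
  -- upper bound
  have h3 : Module.finrank ℝ (Submodule.span ℝ (Set.range fun s : S => C.u s)) = S.card := by
    rw [finrank_span_eq_card (C.linInd hS)]; simp
  have h4 : Disjoint (Submodule.span ℝ (Set.range fun s : S => C.u s)) (C.perp S) := by
    rw [Submodule.disjoint_def]
    intro x hx hxp
    rw [Submodule.mem_span_range_iff_exists_fun] at hx
    obtain ⟨a, ha⟩ := hx
    by_contra hx0
    let c : C.ι → ℝ := fun i => if h : i ∈ S then a ⟨i, h⟩ else 0
    have hvec : C.vec c = x := by
      unfold vec
      rw [← Finset.sum_subset (Finset.subset_univ S)]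
      · rw [← Finset.sum_coe_sort S]
        rw [← ha]
        refine Finset.sum_congr rfl fun i _ => ?_
        simp [c]
      · intro i _ hi; simp [c, hi]
    have hc0 : c ≠ 0 := by
      intro h; apply hx0; rw [← hvec, h]; simp [vec]
    have h5 := hS c (fun i hi => by simp [c, hi]) hc0
    rw [qf_eq, hvec] at h5
    have h6 : lor x x = 0 := by
      conv_lhs => rw [← hvec]
      rw [lor_comm, hvec, ← hvec, lor_vec_right, hvec]
      refine Finset.sum_eq_zero fun i _ => ?_
      by_cases hi : i ∈ S
      · rw [(C.mem_perp.1 hxp) i hi]; ring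
      · simp [c, hi]
    linarith
  have h7 := Submodule.finrank_add_finrank_le_of_disjoint h4
  omega

end Cone

end MP345
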