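import Mathlib
import Pool.Agent.Work.MP_345ef2_gt.Faces

/-!
# Edges have two vertices; local minima on 2-faces
-/

namespace MP345

open Finset

variable {n : ℕ}

/-- coordinates in a subspace -/
theorem exists_coords {W : Submodule ℝ (E n)} {k : ℕ} (hW : Module.finrank ℝ W = k)
    (v : Fin k → E n) (hv : ∀ i, v i ∈ W) (hli : LinearIndependent ℝ v) {x : E n} (hx : x ∈ W) :
    ∃ c : Fin k → ℝ, x = ∑ i, c i • v i := by
  let v' : Fin k → W := fun i => ⟨v i, hv i⟩
  have hli' : LinearIndependent ℝ v' := by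
    apply LinearIndependent.of_comp W.subtype
    exact hli
  have hspan : Submodule.span ℝ (Set.range v') = ⊤ := by
    apply hli'.span_eq_top_of_card_eq_finrank'
    simp [hW]
  have hx' : (⟨x, hx⟩ : W) ∈ Submodule.span ℝ (Set.range v') := by
    rw [hspan]; exact Submodule.mem_top
  rw [Submodule.mem_span_range_iff_exists_fun] at hx'
  obtain ⟨c, hc⟩ := hx'
  refine ⟨c, ?_⟩
  have := congrArg (Submodule.subtype W) hc
  simp only [map_sum, map_smul, Submodule.subtype_apply] at this
  exact this.symm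

namespace Cone

variable (C : Cone n)

theorem neg_of_cone {x y : E n} (hx : lor x x < 0) (hy : lor y y < 0) (hpx : lor C.p x < 0)
    (hpy : lor C.p y < 0) : lor x y < 0 := by
  set w := lor C.p y • x - lor C.p x • y with hw
  have h1 : lor C.p w = 0 := by
    rw [hw, lor_sub_right, lor_smul_right, lor_smul_right]; ring
  have h2 := lor_nonneg_of_orth C.hp h1
  rw [hw, lor_sub_left, lor_sub_right, lor_sub_right, lor_smul_left, lor_smul_right,
    lor_smul_left, lor_smul_right, lor_smul_left, lor_smul_right, lor_smul_left,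
    lor_smul_right, lor_comm y x] at h2
  by_contra hcon
  push Not at hcon
  have h3 : 0 < lor C.p y * lor C.p x := mul_pos_of_neg_of_neg hpy hpx
  have h4 : 0 ≤ lor C.p y * lor C.p x * lor x y := mul_nonneg h3.le hcon
  have h5 : lor C.p y * (lor C.p y * lor x x) < 0 := by
    have : 0 < lor C.p y * lor C.p y := mul_pos_of_neg_of_neg hpy hpy
    nlinarith
  have h6 : lor C.p x * (lor C.p x * lor y y) < 0 := by
    have : 0 < lor C.p x * lor C.p x := mul_pos_of_neg_of_neg hpx hpx
    nlinarith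
  nlinarith

/-- leaving the cone from a point with exact tight set `S` in a direction `y` -/
theorem exit {S : Finset C.ι} {x0 : E n} (hp : lor C.p x0 = -1)
    (h1 : ∀ i ∈ S, lor x0 (C.u i) = 0) (h2 : ∀ i, i ∉ S → lor x0 (C.u i) < 0)
    {y : E n} (hy : y ∈ C.perp S) (hxy : lor x0 y = 0) (hy0 : y ≠ 0) :
    ∃ i, i ∉ S ∧ 0 < lor y (C.u i) ∧ PD C.g (insert i S) ∧
      ∀ k, k ∉ S → 0 < lor y (C.u k) →
        - lor x0 (C.u i) / lor y (C.u i) ≤ - lor x0 (C.u k) / lor y (C.u k) := by
  have hx0 : lor x0 x0 < 0 := C.point_timelike hp h1 h2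
  have hyy : 0 < lor y y := lor_pos_of_orth hx0 hxy hy0
  have hdir : ∀ t : ℝ, lor x0 (x0 + t • y) = lor x0 x0 := by
    intro t; rw [lor_add_right, lor_smul_right, hxy]; ring
  have hne : ∀ t : ℝ, x0 + t • y ≠ 0 := by
    intro t h; have := hdir t; rw [h] at this; simp at this; linarith
  let A : Finset C.ι := Finset.univ.filter fun k => k ∉ S ∧ 0 < lor y (C.u k)
  have hA : ∀ k, k ∈ A ↔ k ∉ S ∧ 0 < lor y (C.u k) := by intro k; simp [A]
  have hAne : A.Nonempty := by
    by_contra hemp
    rw [Finset.not_nonempty_iff_eq_empty] at hemp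
    have hle : ∀ k, k ∉ S → lor y (C.u k) ≤ 0 := by
      intro k hk
      by_contra h
      push Not at h
      have : k ∈ A := (hA k).2 ⟨hk, h⟩
      rw [hemp] at this; exact absurd this (Finset.notMem_empty k)
    set t := Real.sqrt (- lor x0 x0 / lor y y) with ht
    have ht0 : 0 ≤ t := Real.sqrt_nonneg _
    have ht2 : t ^ 2 = - lor x0 x0 / lor y y := Real.sq_sqrt (by
      apply div_nonneg (by linarith) hyy.le)
    have h3 := C.hcone (x0 + t • y) (fun k => by
      rw [lor_add_left, lor_smul_left]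
      by_cases hk : k ∈ S
      · rw [h1 k hk, (C.mem_perp.1 hy) k hk]; simp
      · have a1 := h2 k hk
        have a2 := mul_nonpos_of_nonneg_of_nonpos ht0 (hle k hk)
        linarith) (hne t)
    rw [lor_add_left, hdir, lor_smul_left, lor_add_right, lor_smul_right, lor_comm y x0,
      hxy] at h3
    have h4 : t ^ 2 * lor y y = - lor x0 x0 := by rw [ht2]; field_simp
    nlinarith
  obtain ⟨i, hiA, hmin⟩ := Finset.exists_min_image A
    (fun k => - lor x0 (C.u k) / lor y (C.u k)) hAne
  obtain ⟨hiS, hiy⟩ := (hA i).1 hiA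
  refine ⟨i, hiS, hiy, ?_, fun k hk hky => hmin k ((hA k).2 ⟨hk, hky⟩)⟩
  set t := - lor x0 (C.u i) / lor y (C.u i) with ht
  have htpos : 0 < t := div_pos (by linarith [h2 i hiS]) hiy
  have hcone : ∀ k, lor (x0 + t • y) (C.u k) ≤ 0 := by
    intro k
    rw [lor_add_left, lor_smul_left]
    by_cases hk : k ∈ S
    · rw [h1 k hk, (C.mem_perp.1 hy) k hk]; simp
    by_cases hky : 0 < lor y (C.u k)
    · have a1 : t ≤ - lor x0 (C.u k) / lor y (C.u k) := hmin k ((hA k).2 ⟨hk, hky⟩)
      rw [le_div_iff₀ hky] at a1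
      linarith
    · push Not at hky
      have a1 := h2 k hk
      have a2 := mul_nonpos_of_nonneg_of_nonpos htpos.le hky
      linarith
  have htl := C.hcone _ hcone (hne t)
  apply C.pd_of_tight htl
  intro k hk
  rw [lor_add_left, lor_smul_left]
  rcases Finset.mem_insert.1 hk with rfl | hk
  · rw [ht]; field_simp; ring
  · rw [h1 k hk, (C.mem_perp.1 hy) k hk]; simp

/-- there is a direction inside the face orthogonal to the point -/
theorem exists_dir {S : Finset C.ι} (hS : PD C.g S) (hcard : S.card < n) (x0 : E n) :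
    ∃ y : E n, y ∈ C.perp S ∧ lor x0 y = 0 ∧ y ≠ 0 := by
  have hfr := C.finrank_perp hS
  let f : C.perp S →ₗ[ℝ] ℝ := (lorB n x0).comp (C.perp S).subtype
  have hker : LinearMap.ker f ≠ ⊥ := by
    apply LinearMap.ker_ne_bot_of_finrank_lt
    rw [Module.finrank_self]; omega
  obtain ⟨y, hy, hy0⟩ := Submodule.exists_mem_ne_zero_of_ne_bot hker
  refine ⟨y.1, y.2, ?_, fun h => hy0 (Subtype.ext h)⟩
  exact hy

theorem extend (S : Finset C.ι) (hS : PD C.g S) (hcard : S.card < n) :
    ∃ i, i ∉ S ∧ PD C.g (insert i S) := by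
  obtain ⟨x0, hp, h1, h2⟩ := C.exists_point hS
  obtain ⟨y, hy, hxy, hy0⟩ := C.exists_dir hS hcard x0
  obtain ⟨i, hi, -, hpd, -⟩ := C.exit hp h1 h2 hy hxy hy0
  exact ⟨i, hi, hpd⟩

/-- coordinates of the vertex in an edge -/
theorem edge_aux {S : Finset C.ι} (hS : PD C.g S) (hcard : S.card + 1 = n) {x0 y : E n}
    (hp : lor C.p x0 = -1)
    (h1 : ∀ i ∈ S, lor x0 (C.u i) = 0) (h2 : ∀ i, i ∉ S → lor x0 (C.u i) < 0)
    (hy : y ∈ C.perp S) (hxy : lor x0 y = 0) (hy0 : y ≠ 0)
    {k : C.ι} (hk : k ∉ S) (hkpd : PD C.g (insert k S)) :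
    ∃ t : ℝ, lor x0 (C.u k) + t * lor y (C.u k) = 0 ∧
      ∀ l, lor x0 (C.u l) + t * lor y (C.u l) ≤ 0 ∧
        (l ∉ insert k S → lor x0 (C.u l) + t * lor y (C.u l) < 0) := by
  have hx0 : lor x0 x0 < 0 := C.point_timelike hp h1 h2
  have hyy : 0 < lor y y := lor_pos_of_orth hx0 hxy hy0
  obtain ⟨x', hp', h1', h2'⟩ := C.exists_point hkpd
  have hx' : lor x' x' < 0 := C.point_timelike hp' h1' h2'
  have hfr : Module.finrank ℝ (C.perp S) = 2 := by
    have := C.finrank_perp hS; omega
  have hli : LinearIndependent ℝ ![x0, y] := by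
    rw [LinearIndependent.pair_iff]
    intro a b hab
    have e1 : lor x0 (a • x0 + b • y) = 0 := by rw [hab]; simp
    have e2 : lor y (a • x0 + b • y) = 0 := by rw [hab]; simp
    rw [lor_add_right, lor_smul_right, lor_smul_right, hxy] at e1
    rw [lor_add_right, lor_smul_right, lor_smul_right, lor_comm y x0, hxy] at e2
    constructor
    · have : a * lor x0 x0 = 0 := by linarith
      rcases mul_eq_zero.1 this with h | h
      · exact h
      · linarith
    · have : b * lor y y = 0 := by linarith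
      rcases mul_eq_zero.1 this with h | h
      · exact h
      · linarith
  obtain ⟨c, hc⟩ := exists_coords hfr ![x0, y] (by
    intro i; fin_cases i
    · exact (C.mem_perp.2 h1)
    · exact hy) hli (x := x') (C.mem_perp.2 fun i hi => h1' i (Finset.mem_insert_of_mem hi))
  rw [Fin.sum_univ_two] at hc
  simp only [Matrix.cons_val_zero, Matrix.cons_val_one] at hc
  have hneg := C.neg_of_cone hx0 hx' (by rw [hp]; norm_num) (by rw [hp']; norm_num)
  have hc0 : 0 < c 0 := by
    rw [hc, lor_add_right, lor_smul_right, lor_smul_right, hxy] at hneg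
    by_contra h
    push Not at h
    nlinarith
  have hlor : ∀ l, lor x' (C.u l) = c 0 * (lor x0 (C.u l) + c 1 / c 0 * lor y (C.u l)) := by
    intro l; rw [hc, lor_add_left, lor_smul_left, lor_smul_left]; field_simp
  refine ⟨c 1 / c 0, ?_, fun l => ⟨?_, fun hl => ?_⟩⟩
  · have := h1' k (Finset.mem_insert_self k S)
    rw [hlor] at this
    rcases mul_eq_zero.1 this with h | h
    · exact absurd h hc0.ne'
    · exact h
  · have : lor x' (C.u l) ≤ 0 := by
      by_cases hl : l ∈ insert k S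
      · rw [h1' l hl]
      · exact (h2' l hl).le
    rw [hlor] at this
    by_contra h
    push Not at h
    have := mul_pos hc0 h
    linarith
  · have := h2' l hl
    rw [hlor] at this
    by_contra h
    push Not at h
    have := mul_nonneg hc0.le h
    linarith

/-- **F4**: an edge has exactly two vertices -/
theorem edge (S : Finset C.ι) (hS : PD C.g S) (hcard : S.card + 1 = n) :
    ∃ i j, i ≠ j ∧ i ∉ S ∧ j ∉ S ∧ PD C.g (insert i S) ∧ PD C.g (insert j S) ∧
      ∀ k, k ∉ S → PD C.g (insert k S) → k = i ∨ k = j := by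
  obtain ⟨x0, hp, h1, h2⟩ := C.exists_point hS
  obtain ⟨y, hy, hxy, hy0⟩ := C.exists_dir hS (by omega) x0
  have hy' : -y ∈ C.perp S := Submodule.neg_mem _ hy
  have hxy' : lor x0 (-y) = 0 := by rw [lor_neg_right, hxy]; ring
  have hy0' : -y ≠ 0 := neg_ne_zero.2 hy0
  obtain ⟨i, hi, hiy, hipd, himin⟩ := C.exit hp h1 h2 hy hxy hy0
  obtain ⟨j, hj, hjy, hjpd, hjmin⟩ := C.exit hp h1 h2 hy' hxy' hy0'
  refine ⟨i, j, ?_, hi, hj, hipd, hjpd, ?_⟩
  · intro h
    rw [← h, lor_neg_left] at hjy; linarith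
  · intro k hk hkpd
    have key : ∀ (y : E n) (i : C.ι), y ∈ C.perp S → lor x0 y = 0 → y ≠ 0 → i ∉ S →
        0 < lor y (C.u i) → (∀ k, k ∉ S → 0 < lor y (C.u k) →
          - lor x0 (C.u i) / lor y (C.u i) ≤ - lor x0 (C.u k) / lor y (C.u k)) →
        0 < lor y (C.u k) → k = i := by
      intro y i hy hxy hy0 hi hiy himin hky
      obtain ⟨t, ht1, ht2⟩ := C.edge_aux hS hcard hp h1 h2 hy hxy hy0 hk hkpd
      have a1 := himin k hk hky
      have a2 : - lor x0 (C.u k) / lor y (C.u k) = t := by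
        rw [div_eq_iff hky.ne']; linarith
      rw [a2] at a1
      by_contra hne
      have hi' : i ∉ insert k S := by
        intro h
        rcases Finset.mem_insert.1 h with h | h
        · exact hne h.symm
        · exact hi h
      have a3 := (ht2 i).2 hi'
      rw [div_le_iff₀ hiy] at a1
      linarith
    rcases lt_trichotomy (lor y (C.u k)) 0 with h | h | h
    · right
      refine key (-y) j hy' hxy' hy0' hj hjy hjmin ?_
      rw [lor_neg_left]; linarith
    · exfalso
      obtain ⟨t, ht1, -⟩ := C.edge_aux hS hcard hp h1 h2 hy hxy hy0 hk hkpd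
      rw [h] at ht1
      linarith [h2 k hk]
    · left
      exact key y i hy hxy hy0 hi hiy himin h

/-- chosen point with exact tight set `S` -/
noncomputable def pt (S : Finset C.ι) : E n :=
  open scoped Classical in
  if h : PD C.g S then (C.exists_point h).choose else 0

theorem pt_p {S : Finset C.ι} (hS : PD C.g S) : lor C.p (C.pt S) = -1 := by
  unfold pt; rw [dif_pos hS]; exact (C.exists_point hS).choose_spec.1

theorem pt_tight {S : Finset C.ι} (hS : PD C.g S) {i : C.ι} (hi : i ∈ S) :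
    lor (C.pt S) (C.u i) = 0 := by
  unfold pt; rw [dif_pos hS]; exact (C.exists_point hS).choose_spec.2.1 i hi

theorem pt_neg {S : Finset C.ι} (hS : PD C.g S) {i : C.ι} (hi : i ∉ S) :
    lor (C.pt S) (C.u i) < 0 := by
  unfold pt; rw [dif_pos hS]; exact (C.exists_point hS).choose_spec.2.2 i hi

theorem pt_nonpos {S : Finset C.ι} (hS : PD C.g S) (i : C.ι) :
    lor (C.pt S) (C.u i) ≤ 0 := by
  by_cases hi : i ∈ S
  · rw [C.pt_tight hS hi]
  · exact (C.pt_neg hS hi).le

theorem pt_injOn {S T : Finset C.ι} (hS : PD C.g S) (hT : PD C.g T) (h : C.pt S = C.pt T) :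
    S = T := by
  ext i
  constructor
  · intro hi
    by_contra hiT
    have := C.pt_neg hT hiT
    rw [← h, C.pt_tight hS hi] at this
    exact lt_irrefl _ this
  · intro hi
    by_contra hiS
    have := C.pt_neg hS hiS
    rw [h, C.pt_tight hT hi] at this
    exact lt_irrefl _ this

/-- **local minima are global on 2-faces**: if `v = K ∪ {i,j}` is a vertex of the 2-face `K`,
`w1`, `w2` vertices of `K` with `i ∉ w1 ∋ j`, `j ∉ w2 ∋ i`, and the linear functional `h` is at
least as large at `w1`, `w2` as at `v`, then `v` minimises `h` among the points of the 2-face. -/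
theorem local_min {K v w1 w2 x : Finset C.ι} {i j : C.ι} (hn : K.card + 2 = n)
    (hv : PD C.g v) (hw1 : PD C.g w1) (hw2 : PD C.g w2) (hx : PD C.g x)
    (hKv : K ⊆ v) (hKw1 : K ⊆ w1) (hKw2 : K ⊆ w2) (hKx : K ⊆ x)
    (hiv : i ∈ v) (hjv : j ∈ v) (hi1 : i ∉ w1) (hj1 : j ∈ w1) (hi2 : i ∈ w2) (hj2 : j ∉ w2)
    (h : E n →ₗ[ℝ] ℝ) (h1 : h (C.pt v) ≤ h (C.pt w1)) (h2 : h (C.pt v) ≤ h (C.pt w2)) :
    h (C.pt v) ≤ h (C.pt x) := by
  have hK : PD C.g K := hv.mono hKv
  have hfr : Module.finrank ℝ (C.perp K) = 3 := by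
    have := C.finrank_perp hK; omega
  have hli : LinearIndependent ℝ ![C.pt v, C.pt w1, C.pt w2] := by
    rw [Fintype.linearIndependent_iff]
    intro g hg
    rw [Fin.sum_univ_three] at hg
    change g 0 • C.pt v + g 1 • C.pt w1 + g 2 • C.pt w2 = 0 at hg
    have e1 : lor (g 0 • C.pt v + g 1 • C.pt w1 + g 2 • C.pt w2) (C.u i) = 0 := by
      rw [hg]; simp
    have e2 : lor (g 0 • C.pt v + g 1 • C.pt w1 + g 2 • C.pt w2) (C.u j) = 0 := by
      rw [hg]; simp
    have e3 : lor C.p (g 0 • C.pt v + g 1 • C.pt w1 + g 2 • C.pt w2) = 0 := by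
      rw [hg]; simp
    rw [lor_add_left, lor_add_left, lor_smul_left, lor_smul_left, lor_smul_left,
      C.pt_tight hv hiv, C.pt_tight hw2 hi2] at e1
    rw [lor_add_left, lor_add_left, lor_smul_left, lor_smul_left, lor_smul_left,
      C.pt_tight hv hjv, C.pt_tight hw1 hj1] at e2
    rw [lor_add_right, lor_add_right, lor_smul_right, lor_smul_right, lor_smul_right,
      C.pt_p hv, C.pt_p hw1, C.pt_p hw2] at e3
    have g1 : g 1 = 0 := by
      have : g 1 * lor (C.pt w1) (C.u i) = 0 := by linarith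
      rcases mul_eq_zero.1 this with h | h
      · exact h
      · exact absurd h (C.pt_neg hw1 hi1).ne
    have g2 : g 2 = 0 := by
      have : g 2 * lor (C.pt w2) (C.u j) = 0 := by linarith
      rcases mul_eq_zero.1 this with h | h
      · exact h
      · exact absurd h (C.pt_neg hw2 hj2).ne
    have g0 : g 0 = 0 := by rw [g1, g2] at e3; linarith
    intro k; fin_cases k
    · exact g0
    · exact g1
    · exact g2
  obtain ⟨c, hc⟩ := exists_coords hfr ![C.pt v, C.pt w1, C.pt w2] (by
    intro k; fin_cases k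
    · exact C.mem_perp.2 fun i hi => C.pt_tight hv (hKv hi)
    · exact C.mem_perp.2 fun i hi => C.pt_tight hw1 (hKw1 hi)
    · exact C.mem_perp.2 fun i hi => C.pt_tight hw2 (hKw2 hi)) hli (x := C.pt x)
    (C.mem_perp.2 fun i hi => C.pt_tight hx (hKx hi))
  rw [Fin.sum_univ_three] at hc
  change C.pt x = c 0 • C.pt v + c 1 • C.pt w1 + c 2 • C.pt w2 at hc
  have e1 := C.pt_nonpos hx i
  have e2 := C.pt_nonpos hx j
  have e3 := C.pt_p hx
  rw [hc, lor_add_left, lor_add_left, lor_smul_left, lor_smul_left, lor_smul_left,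
    C.pt_tight hv hiv, C.pt_tight hw2 hi2] at e1
  rw [hc, lor_add_left, lor_add_left, lor_smul_left, lor_smul_left, lor_smul_left,
    C.pt_tight hv hjv, C.pt_tight hw1 hj1] at e2
  rw [hc, lor_add_right, lor_add_right, lor_smul_right, lor_smul_right, lor_smul_right,
    C.pt_p hv, C.pt_p hw1, C.pt_p hw2] at e3
  have c1 : 0 ≤ c 1 := by
    by_contra h; push Not at h
    have := mul_pos_of_neg_of_neg h (C.pt_neg hw1 hi1)
    linarith
  have c2 : 0 ≤ c 2 := by
    by_contra h; push Not at h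
    have := mul_pos_of_neg_of_neg h (C.pt_neg hw2 hj2)
    linarith
  have c0 : c 0 = 1 - c 1 - c 2 := by linarith
  have hx' : h (C.pt x) = c 0 * h (C.pt v) + c 1 * h (C.pt w1) + c 2 * h (C.pt w2) := by
    conv_lhs => rw [hc]
    simp only [map_add, map_smul, smul_eq_mul]
  rw [hx', c0]
  nlinarith [mul_le_mul_of_nonneg_left h1 c1, mul_le_mul_of_nonneg_left h2 c2]

end Cone

end MP345
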