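import Mathlib
import Pool.Agent.Work.MP_345ef2_gt.Edges

/-!
# Counting 2-faces with a generic linear functional
-/

namespace MP345

open Finset

variable {n : ℕ}

theorem mem_Verts {ι : Type*} [Fintype ι] [DecidableEq ι] {g : ι → ι → ℝ} {S : Finset ι} :
    S ∈ Verts g n ↔ PD g S ∧ S.card = n := by simp [Verts]

theorem mem_Faces2 {ι : Type*} [Fintype ι] [DecidableEq ι] {g : ι → ι → ℝ} {K : Finset ι} :
    K ∈ Faces2 g n ↔ K.card + 2 = n ∧ ∃ S ∈ Verts g n, K ⊆ S := by simp [Faces2]

namespace Cone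

variable (C : Cone n)

theorem verts_nonempty : (Verts C.g n).Nonempty := by
  classical
  obtain ⟨S, hS, hmax⟩ := Finset.exists_max_image
    (Finset.univ.filter fun S : Finset C.ι => PD C.g S) Finset.card ⟨∅, by simp [pd_empty]⟩
  simp only [Finset.mem_filter, Finset.mem_univ, true_and] at hS hmax
  refine ⟨S, mem_Verts.2 ⟨hS, ?_⟩⟩
  refine le_antisymm (C.card_le S hS) ?_
  by_contra h
  push Not at h
  obtain ⟨i, hi, hpd⟩ := C.extend S hS h
  have := hmax _ hpd
  rw [Finset.card_insert_of_notMem hi] at this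
  omega

/-- the other vertex of an edge -/
theorem exists_other {v : Finset C.ι} (hv : v ∈ Verts C.g n) {i : C.ι} (hi : i ∈ v) :
    ∃ j, j ∉ v ∧ PD C.g (insert j (v.erase i)) := by
  obtain ⟨hpd, hcard⟩ := mem_Verts.1 hv
  have hS : PD C.g (v.erase i) := hpd.mono (Finset.erase_subset _ _)
  have hc : (v.erase i).card + 1 = n := by
    rw [Finset.card_erase_of_mem hi]
    have : 0 < v.card := Finset.card_pos.2 ⟨i, hi⟩
    omega
  obtain ⟨a, b, hab, ha, hb, hpa, hpb, hall⟩ := C.edge _ hS hc
  have hii : PD C.g (insert i (v.erase i)) := by rwa [Finset.insert_erase hi]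
  have h1 := hall i (Finset.notMem_erase i v) hii
  rcases h1 with rfl | rfl
  · refine ⟨b, fun h => hb (Finset.mem_erase.2 ⟨Ne.symm hab, h⟩), hpb⟩
  · refine ⟨a, fun h => ha (Finset.mem_erase.2 ⟨hab, h⟩), hpa⟩

open scoped Classical in
/-- facets `i` at the vertex `v` such that `h` increases along the edge `v \ {i}` -/
noncomputable def up (h : E n →ₗ[ℝ] ℝ) (v : Finset C.ι) : Finset C.ι :=
  v.filter fun i => ∃ j, j ∉ v ∧ PD C.g (insert j (v.erase i)) ∧
    h (C.pt v) ≤ h (C.pt (insert j (v.erase i)))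

theorem card_up_pairs (h : E n →ₗ[ℝ] ℝ)
    (hgen : ∀ v ∈ Verts C.g n, ∀ w ∈ Verts C.g n, h (C.pt v) = h (C.pt w) → v = w) :
    ∑ v ∈ Verts C.g n, ((C.up h v).card.choose 2) ≤ (Faces2 C.g n).card := by
  classical
  have hcard : ((Verts C.g n).sigma fun v => (C.up h v).powersetCard 2).card =
      ∑ v ∈ Verts C.g n, ((C.up h v).card.choose 2) := by
    rw [Finset.card_sigma]
    exact Finset.sum_congr rfl fun v _ => Finset.card_powersetCard _ _
  rw [← hcard]
  have hmin : ∀ v ∈ Verts C.g n, ∀ T ∈ (C.up h v).powersetCard 2, ∀ x ∈ Verts C.g n,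
      v \ T ⊆ x → h (C.pt v) ≤ h (C.pt x) := by
    intro v hv T hT x hx hKx
    rw [Finset.mem_powersetCard] at hT
    obtain ⟨hTu, hT2⟩ := hT
    obtain ⟨i, j, hij, rfl⟩ := Finset.card_eq_two.1 hT2
    have hiu : i ∈ C.up h v := hTu (by simp)
    have hju : j ∈ C.up h v := hTu (by simp)
    unfold up at hiu hju
    rw [Finset.mem_filter] at hiu hju
    obtain ⟨hiv, a, hav, hapd, hah⟩ := hiu
    obtain ⟨hjv, b, hbv, hbpd, hbh⟩ := hju
    obtain ⟨hvpd, hvc⟩ := mem_Verts.1 hv
    have hsub : ({i, j} : Finset C.ι) ⊆ v := by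
      intro k hk
      simp only [Finset.mem_insert, Finset.mem_singleton] at hk
      rcases hk with rfl | rfl <;> assumption
    have hKc : (v \ {i, j}).card + 2 = n := by
      have := Finset.card_sdiff_add_card_eq_card hsub
      rw [Finset.card_pair hij] at this
      omega
    refine C.local_min (K := v \ {i, j}) (w1 := insert a (v.erase i))
      (w2 := insert b (v.erase j)) (i := i) (j := j) hKc hvpd hapd hbpd (mem_Verts.1 hx).1
      Finset.sdiff_subset ?_ ?_ hKx hiv hjv ?_ ?_ ?_ ?_ h hah hbh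
    · intro k hk
      simp only [Finset.mem_sdiff, Finset.mem_insert, Finset.mem_singleton, not_or] at hk
      exact Finset.mem_insert_of_mem (Finset.mem_erase.2 ⟨hk.2.1, hk.1⟩)
    · intro k hk
      simp only [Finset.mem_sdiff, Finset.mem_insert, Finset.mem_singleton, not_or] at hk
      exact Finset.mem_insert_of_mem (Finset.mem_erase.2 ⟨hk.2.2, hk.1⟩)
    · intro hh
      rcases Finset.mem_insert.1 hh with h1 | h1
      · exact hav (h1 ▸ hiv)
      · exact Finset.notMem_erase i v h1
    · exact Finset.mem_insert_of_mem (Finset.mem_erase.2 ⟨Ne.symm hij, hjv⟩)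
    · exact Finset.mem_insert_of_mem (Finset.mem_erase.2 ⟨hij, hiv⟩)
    · intro hh
      rcases Finset.mem_insert.1 hh with h1 | h1
      · exact hbv (h1 ▸ hjv)
      · exact Finset.notMem_erase j v h1
  apply Finset.card_le_card_of_injOn (fun p => p.1 \ p.2)
  · rintro ⟨v, T⟩ hp
    simp only [Finset.coe_sigma, Set.mem_sigma_iff, Finset.mem_coe] at hp
    obtain ⟨hv, hT⟩ := hp
    rw [Finset.mem_coe, mem_Faces2]
    refine ⟨?_, v, hv, Finset.sdiff_subset⟩
    rw [Finset.mem_powersetCard] at hT
    have hsub : T ⊆ v := hT.1.trans (Finset.filter_subset _ _)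
    have := Finset.card_sdiff_add_card_eq_card hsub
    have hvc := (mem_Verts.1 hv).2
    simp only
    omega
  · rintro ⟨v, T⟩ hp ⟨v', T'⟩ hp' heq
    simp only [Finset.coe_sigma, Set.mem_sigma_iff, Finset.mem_coe] at hp hp'
    simp only at heq
    have h1 := hmin v hp.1 T hp.2 v' hp'.1 (by rw [heq]; exact Finset.sdiff_subset)
    have h2 := hmin v' hp'.1 T' hp'.2 v hp.1 (by rw [← heq]; exact Finset.sdiff_subset)
    have hvv := hgen v hp.1 v' hp'.1 (le_antisymm h1 h2)
    subst hvv
    have hT : T ⊆ v := (Finset.mem_powersetCard.1 hp.2).1.trans (Finset.filter_subset _ _)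
    have hT' : T' ⊆ v := (Finset.mem_powersetCard.1 hp'.2).1.trans (Finset.filter_subset _ _)
    have : T = T' := by
      rw [← Finset.sdiff_sdiff_eq_self hT, ← Finset.sdiff_sdiff_eq_self hT', heq]
    rw [this]

theorem exists_generic : ∃ h : E n →ₗ[ℝ] ℝ,
    ∀ v ∈ Verts C.g n, ∀ w ∈ Verts C.g n, h (C.pt v) = h (C.pt w) → v = w := by
  classical
  let I := {p : Finset C.ι × Finset C.ι // p.1 ∈ Verts C.g n ∧ p.2 ∈ Verts C.g n ∧ p.1 ≠ p.2}
  obtain ⟨h, hh⟩ := Module.exists_dual_forall_apply_ne_zero (K := ℝ) (M := E n)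
    (fun p : I => C.pt p.1.1 - C.pt p.1.2) (by
      rintro ⟨⟨v, w⟩, hv, hw, hvw⟩ h0
      exact hvw (C.pt_injOn (mem_Verts.1 hv).1 (mem_Verts.1 hw).1 (sub_eq_zero.1 h0)))
  refine ⟨h, fun v hv w hw hvw => ?_⟩
  by_contra hne
  apply hh ⟨(v, w), hv, hw, hne⟩
  rw [map_sub, hvw, sub_self]

theorem two_faces : n * (n - 2) * (Verts C.g n).card ≤ 8 * (Faces2 C.g n).card := by
  classical
  rcases Nat.lt_or_ge n 2 with hn | hn
  · have : n - 2 = 0 := by omega
    rw [this]; simp
  obtain ⟨h, hgen⟩ := C.exists_generic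
  have h1 := C.card_up_pairs h hgen
  have h2 := C.card_up_pairs (-h) (by
    intro v hv w hw hvw
    apply hgen v hv w hw
    simpa using hvw)
  have h3 : ∀ v ∈ Verts C.g n, n * (n - 2) ≤
      4 * ((C.up h v).card.choose 2) + 4 * ((C.up (-h) v).card.choose 2) := by
    intro v hv
    have hcov : v ⊆ C.up h v ∪ C.up (-h) v := by
      intro i hi
      obtain ⟨j, hj, hpd⟩ := C.exists_other hv hi
      rw [Finset.mem_union]
      rcases le_total (h (C.pt v)) (h (C.pt (insert j (v.erase i)))) with hle | hle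
      · left; unfold up; rw [Finset.mem_filter]
        exact ⟨hi, j, hj, hpd, hle⟩
      · right; unfold up; rw [Finset.mem_filter]
        refine ⟨hi, j, hj, hpd, ?_⟩
        simp only [LinearMap.neg_apply]; linarith
    have hc : n ≤ (C.up h v).card + (C.up (-h) v).card := by
      calc n = v.card := (mem_Verts.1 hv).2.symm
        _ ≤ _ := Finset.card_le_card hcov
        _ ≤ _ := Finset.card_union_le _ _
    set a := (C.up h v).card
    set b := (C.up (-h) v).card
    have ha : ((a.choose 2 : ℕ) : ℤ) * 2 = a * (a - 1) := by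
      have := Nat.choose_two_right a
      have h5 : a.choose 2 * 2 = a * (a - 1) := by
        rw [this]; exact Nat.div_mul_cancel (Nat.even_mul_pred_self a).two_dvd
      rcases Nat.eq_zero_or_pos a with h0 | h0
      · rw [h0]; simp
      · have h6 : ((a.choose 2 * 2 : ℕ) : ℤ) = ((a * (a - 1) : ℕ) : ℤ) := by rw [h5]
        push_cast [Nat.cast_sub h0] at h6
        linarith
    have hb : ((b.choose 2 : ℕ) : ℤ) * 2 = b * (b - 1) := by
      have := Nat.choose_two_right b
      have h5 : b.choose 2 * 2 = b * (b - 1) := by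
        rw [this]; exact Nat.div_mul_cancel (Nat.even_mul_pred_self b).two_dvd
      rcases Nat.eq_zero_or_pos b with h0 | h0
      · rw [h0]; simp
      · have h6 : ((b.choose 2 * 2 : ℕ) : ℤ) = ((b * (b - 1) : ℕ) : ℤ) := by rw [h5]
        push_cast [Nat.cast_sub h0] at h6
        linarith
    have hn2 : ((n - 2 : ℕ) : ℤ) = n - 2 := by push_cast [Nat.cast_sub hn]; ring
    have hgoal : ((n * (n - 2) : ℕ) : ℤ) ≤ ((4 * a.choose 2 + 4 * b.choose 2 : ℕ) : ℤ) := by
      push_cast
      rw [hn2]
      have hc' : (n : ℤ) ≤ a + b := by exact_mod_cast hc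
      have hn' : (2 : ℤ) ≤ n := by exact_mod_cast hn
      nlinarith [sq_nonneg ((a : ℤ) - b), mul_nonneg (sub_nonneg.2 hc')
        (show (0 : ℤ) ≤ a + b + n - 2 by linarith)]
    exact_mod_cast hgoal
  calc n * (n - 2) * (Verts C.g n).card = ∑ v ∈ Verts C.g n, n * (n - 2) := by
        rw [Finset.sum_const, smul_eq_mul, mul_comm]
    _ ≤ ∑ v ∈ Verts C.g n, (4 * ((C.up h v).card.choose 2) + 4 * ((C.up (-h) v).card.choose 2)) :=
        Finset.sum_le_sum h3
    _ = 4 * ∑ v ∈ Verts C.g n, ((C.up h v).card.choose 2) +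
        4 * ∑ v ∈ Verts C.g n, ((C.up (-h) v).card.choose 2) := by
        rw [Finset.sum_add_distrib, Finset.mul_sum, Finset.mul_sum]
    _ ≤ 8 * (Faces2 C.g n).card := by omega

end Cone

/-- double counting of incidences of vertices and 2-faces -/
theorem sum_kF {ι : Type*} [Fintype ι] [DecidableEq ι] (g : ι → ι → ℝ) (hn : 2 ≤ n) :
    ∑ K ∈ Faces2 g n, kF g n K = n.choose 2 * (Verts g n).card := by
  classical
  have h1 := Finset.sum_card_bipartiteAbove_eq_sum_card_bipartiteBelow
    (s := Faces2 g n) (t := Verts g n) (fun K S => K ⊆ S)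
  unfold Finset.bipartiteAbove Finset.bipartiteBelow at h1
  unfold kF
  rw [h1]
  have h2 : ∀ S ∈ Verts g n, ((Faces2 g n).filter fun K => K ⊆ S).card = n.choose 2 := by
    intro S hS
    have h3 : ((Faces2 g n).filter fun K => K ⊆ S) = S.powersetCard (n - 2) := by
      ext K
      rw [Finset.mem_filter, mem_Faces2, Finset.mem_powersetCard]
      constructor
      · rintro ⟨⟨hK, _⟩, hKS⟩
        exact ⟨hKS, by omega⟩
      · rintro ⟨hKS, hK⟩
        exact ⟨⟨by omega, S, hS, hKS⟩, hKS⟩
    rw [h3, Finset.card_powersetCard, (mem_Verts.1 hS).2]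
    exact Nat.choose_symm hn
  rw [Finset.sum_congr rfl h2, Finset.sum_const, smul_eq_mul, mul_comm]

namespace Cone

variable (C : Cone n)

theorem count : (n : ℝ) * (n - 6) * (Verts C.g n).card ≤
    8 * ∑ K ∈ Faces2 C.g n, max (5 - (kF C.g n K : ℝ)) 0 := by
  classical
  have hnn : 0 ≤ ∑ K ∈ Faces2 C.g n, max (5 - (kF C.g n K : ℝ)) 0 :=
    Finset.sum_nonneg fun _ _ => le_max_right _ _
  rcases Nat.lt_or_ge n 2 with hn | hn
  · have : (n : ℝ) * (n - 6) ≤ 0 := by
      apply mul_nonpos_of_nonneg_of_nonpos (by positivity)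
      have : (n : ℝ) < 2 := by exact_mod_cast hn
      linarith
    have h2 := mul_nonpos_of_nonpos_of_nonneg this (Nat.cast_nonneg (α := ℝ) (Verts C.g n).card)
    linarith
  have h1 := C.two_faces
  have h2 := sum_kF (n := n) C.g hn
  have h1' : (n : ℝ) * (n - 2) * (Verts C.g n).card ≤ 8 * (Faces2 C.g n).card := by
    have : ((n * (n - 2) * (Verts C.g n).card : ℕ) : ℝ) ≤ ((8 * (Faces2 C.g n).card : ℕ) : ℝ) := by
      exact_mod_cast h1
    push_cast [Nat.cast_sub hn] at this
    linarith
  have h2' : ∑ K ∈ Faces2 C.g n, (kF C.g n K : ℝ) = n * (n - 1) / 2 * (Verts C.g n).card := by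
    have h3 : ((∑ K ∈ Faces2 C.g n, kF C.g n K : ℕ) : ℝ) =
        ((n.choose 2 * (Verts C.g n).card : ℕ) : ℝ) := by rw [h2]
    push_cast at h3
    rw [h3, Nat.cast_choose_two]
  have h4 : ∑ K ∈ Faces2 C.g n, (5 - (kF C.g n K : ℝ)) ≤
      ∑ K ∈ Faces2 C.g n, max (5 - (kF C.g n K : ℝ)) 0 :=
    Finset.sum_le_sum fun _ _ => le_max_left _ _
  rw [Finset.sum_sub_distrib, h2', Finset.sum_const, nsmul_eq_mul] at h4
  nlinarith

/-- The Gram data of a compact Coxeter polytope. -/
theorem off (i j : C.ι) (hij : i ≠ j) :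
    (∃ m : ℕ, 2 ≤ m ∧ C.g i j = - Real.cos (Real.pi / m)) ∨ C.g i j < -1 := by
  rcases lt_trichotomy (C.g i j) (-1) with h | h | h
  · exact Or.inr h
  · exfalso
    -- parabolic pair
    let c : C.ι → ℝ := fun k => if k = i ∨ k = j then 1 else 0
    have hc0 : ∀ k, 0 ≤ c k := by intro k; simp only [c]; split_ifs <;> norm_num
    have hcne : c ≠ 0 := by
      intro h0; have := congrFun h0 i; simp [c] at this
    have hsum : ∀ f : C.ι → ℝ, ∑ k, f k * c k = f i + f j := by
      intro f
      have : ∀ k, f k * c k = (if k = i then f k else 0) + (if k = j then f k else 0) := by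
        intro k
        by_cases h1 : k = i
        · subst h1; simp [c, hij]
        · by_cases h2 : k = j
          · subst h2; simp [c, h1]
          · simp [c, h1, h2]
      rw [Finset.sum_congr rfl fun k _ => this k, Finset.sum_add_distrib]
      simp
    have hG : ∀ k, 0 < c k → ∑ l, C.g k l * c l = 0 := by
      intro k hk
      rw [hsum]
      have : k = i ∨ k = j := by
        by_contra h1; simp only [c, if_neg h1] at hk; exact lt_irrefl _ hk
      rcases this with rfl | rfl
      · rw [C.g_self, h]; norm_num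
      · rw [C.g_self, C.g_comm, h]; norm_num
    have h1 := C.noPar c hc0 hcne fun k hk => (hG k hk).le
    have h2 : qf C.g c = 0 := by
      unfold qf bf
      refine Finset.sum_eq_zero fun k _ => ?_
      have h3 : ∑ l, c k * c l * C.g k l = c k * ∑ l, C.g k l * c l := by
        rw [Finset.mul_sum]; exact Finset.sum_congr rfl fun l _ => by ring
      rw [h3]
      rcases lt_or_eq_of_le (hc0 k) with hk | hk
      · rw [hG k hk]; ring
      · rw [← hk]; ring
    linarith
  · left
    -- the pair is positive definite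
    have hle := C.g_nonpos hij
    have hpd : PD C.g {i, j} := by
      intro c hc hc0
      have hsum : ∀ f : C.ι → ℝ, (∀ k, k ∉ ({i, j} : Finset C.ι) → f k = 0) →
          ∑ k, f k = f i + f j := by
        intro f hf
        rw [← Finset.sum_subset (Finset.subset_univ {i, j}) fun k _ hk => hf k hk,
          Finset.sum_pair hij]
      have hq : qf C.g c = c i ^ 2 + c j ^ 2 + 2 * (c i * c j * C.g i j) := by
        unfold qf bf
        rw [hsum _ (fun k hk => Finset.sum_eq_zero fun l _ => by rw [hc k hk]; ring)]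
        rw [hsum _ (fun k hk => by rw [hc k hk]; ring), hsum _ (fun k hk => by rw [hc k hk]; ring)]
        rw [C.g_self, C.g_self, C.g_comm j i]; ring
      have hne : c i ≠ 0 ∨ c j ≠ 0 := by
        by_contra h1
        push Not at h1
        apply hc0
        funext k
        by_cases hk : k ∈ ({i, j} : Finset C.ι)
        · simp only [Finset.mem_insert, Finset.mem_singleton] at hk
          rcases hk with rfl | rfl
          · exact h1.1
          · exact h1.2
        · exact hc k hk
      rw [hq]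
      have hsq : 0 < c i ^ 2 + c j ^ 2 := by
        rcases hne with h1 | h1 <;> positivity
      rcases le_total 0 (c i * c j) with h1 | h1
      · nlinarith [sq_nonneg (c i - c j), sq_nonneg (c i + c j)]
      · nlinarith [sq_nonneg (c i - c j), sq_nonneg (c i + c j)]
    obtain ⟨x, hp, h1, h2⟩ := C.exists_point hpd
    refine C.angle i j hij ⟨x, ?_, h1 i (by simp), h1 j (by simp), fun k hk1 hk2 => h2 k ?_⟩
    · intro h0; rw [h0] at hp; simp at hp
    · simp [hk1, hk2]

/-- **Main output of the geometric part**: the Gram data of a compact Coxeter polytope. -/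
noncomputable def toCoxData : CoxData n where
  ι := C.ι
  g := C.g
  symm := C.g_comm
  self := C.g_self
  off := C.off
  card_le := C.card_le
  extend := C.extend
  edge := C.edge
  noPar := C.noPar
  sig := C.sig
  verts_nonempty := C.verts_nonempty
  count := C.count

end Cone

/-- A compact Coxeter polytope in `Hⁿ` gives combinatorial Gram data. -/
theorem exists_coxData (hn : 1 ≤ n) (P : CoxeterPolytope n) : Nonempty (CoxData n) := by
  obtain ⟨C⟩ := exists_cone hn P
  exact ⟨C.toCoxData⟩

end MP345
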