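import Mathlib
import Pool.Agent.Work.MP_345ef2_gt.Count

/-!
# The accounting: local charges imply a bound for the number of small 2-faces
-/

namespace MP345

open Finset

variable {n : ℕ}

section defs

variable {ι : Type*} [Fintype ι] [DecidableEq ι]

open scoped Classical in
/-- `R(T)`: the elements whose removal makes `T` positive definite -/
noncomputable def Rset (g : ι → ι → ℝ) (T : Finset ι) : Finset ι :=
  T.filter fun x => PD g (T.erase x)

/-- a set contains two adjacent elements -/
def AdjP (g : ι → ι → ℝ) (P : Finset ι) : Prop := ∃ i ∈ P, ∃ j ∈ P, i ≠ j ∧ g i j ≠ 0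

open scoped Classical in
/-- number of edges of the Coxeter diagram inside `S` -/
noncomputable def eN (g : ι → ι → ℝ) (S : Finset ι) : ℕ :=
  ((S.powersetCard 2).filter fun P => AdjP g P).card

open scoped Classical in
/-- the sets of size `n + 1` that contain at least two vertices (they correspond to the
simplicial blocks of edges) -/
noncomputable def Tsets (g : ι → ι → ℝ) (n : ℕ) : Finset (Finset ι) :=
  Finset.univ.filter fun T => T.card = n + 1 ∧ 2 ≤ (Rset g T).card

open scoped Classical in
/-- the 2-subsets of `R(T)` that are not adjacent to `i` -/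
noncomputable def freePairs (g : ι → ι → ℝ) (T : Finset ι) (i : ι) : Finset (Finset ι) :=
  ((Rset g T).powersetCard 2).filter fun P => ∀ j ∈ P, g i j = 0

theorem mem_Rset {g : ι → ι → ℝ} {T : Finset ι} {x : ι} :
    x ∈ Rset g T ↔ x ∈ T ∧ PD g (T.erase x) := by simp [Rset]

theorem mem_Tsets {g : ι → ι → ℝ} {T : Finset ι} :
    T ∈ Tsets g n ↔ T.card = n + 1 ∧ 2 ≤ (Rset g T).card := by simp [Tsets]

theorem sum_pairs (S : Finset ι) (f : Finset ι → ℝ) :
    ∑ i ∈ S, ∑ j ∈ S.erase i, f {i, j} = 2 * ∑ P ∈ S.powersetCard 2, f P := by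
  have h1 : ∀ P ∈ S.powersetCard 2, ∑ _i ∈ P, f P = 2 * f P := by
    intro P hP
    rw [Finset.sum_const, (Finset.mem_powersetCard.1 hP).2]; simp
  rw [Finset.mul_sum, ← Finset.sum_congr rfl h1]
  rw [Finset.sum_comm' (s := S.powersetCard 2) (t := fun P => P) (t' := S)
    (s' := fun i => (S.powersetCard 2).filter fun P => i ∈ P)]
  · refine Finset.sum_congr rfl fun i hi => ?_
    refine Finset.sum_bij (fun j _ => {i, j}) ?_ ?_ ?_ ?_
    · intro j hj
      rw [Finset.mem_erase] at hj
      rw [Finset.mem_filter, Finset.mem_powersetCard]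
      refine ⟨⟨?_, Finset.card_pair (Ne.symm hj.1)⟩, by simp⟩
      intro k hk
      simp only [Finset.mem_insert, Finset.mem_singleton] at hk
      rcases hk with rfl | rfl
      · exact hi
      · exact hj.2
    · intro j hj j' hj' h
      rw [Finset.mem_erase] at hj hj'
      have : j ∈ ({i, j'} : Finset ι) := by rw [← h]; simp
      simp only [Finset.mem_insert, Finset.mem_singleton] at this
      rcases this with h1 | h1
      · exact absurd h1 hj.1
      · exact h1
    · intro P hP
      rw [Finset.mem_filter, Finset.mem_powersetCard] at hP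
      obtain ⟨⟨hPS, hPc⟩, hiP⟩ := hP
      obtain ⟨a, b, hab, rfl⟩ := Finset.card_eq_two.1 hPc
      simp only [Finset.mem_insert, Finset.mem_singleton] at hiP
      rcases hiP with rfl | rfl
      · exact ⟨b, Finset.mem_erase.2 ⟨Ne.symm hab, hPS (by simp)⟩, rfl⟩
      · exact ⟨a, Finset.mem_erase.2 ⟨hab, hPS (by simp)⟩, Finset.pair_comm _ _⟩
    · intro j _; rfl
  · intro P i
    simp only [Finset.mem_filter, Finset.mem_powersetCard]
    constructor
    · rintro ⟨⟨h1, h2⟩, h3⟩; exact ⟨⟨⟨h1, h2⟩, h3⟩, h1 h3⟩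
    · rintro ⟨⟨⟨h1, h2⟩, h3⟩, _⟩; exact ⟨⟨h1, h2⟩, h3⟩

end defs

namespace CoxData

variable (D : CoxData n)

theorem g_le_of_ne {i j : D.ι} (hij : i ≠ j) (h : D.g i j ≠ 0) : D.g i j ≤ -1 / 2 := by
  rcases D.off i j hij with ⟨m, hm, hg⟩ | hg
  · have h3 : 3 ≤ m := by
      by_contra hlt
      have : m = 2 := by omega
      subst this
      apply h
      rw [hg]; simp
    rw [hg]
    have hc : Real.cos (Real.pi / 3) ≤ Real.cos (Real.pi / m) := by
      apply Real.cos_le_cos_of_nonneg_of_le_pi
      · positivity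
      · linarith [Real.pi_pos]
      · apply div_le_div_of_nonneg_left Real.pi_pos.le (by norm_num)
        exact_mod_cast h3
    rw [Real.cos_pi_div_three] at hc
    linarith
  · linarith

theorem g_nonpos {i j : D.ι} (hij : i ≠ j) : D.g i j ≤ 0 := by
  by_cases h : D.g i j = 0
  · rw [h]
  · linarith [D.g_le_of_ne hij h]

/-- a positive definite set spans a forest -/
theorem eN_lt {S : Finset D.ι} (hS : PD D.g S) (hne : S.Nonempty) : eN D.g S + 1 ≤ S.card := by
  classical
  let c : D.ι → ℝ := fun i => if i ∈ S then 1 else 0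
  have hc0 : c ≠ 0 := by
    obtain ⟨i, hi⟩ := hne
    intro h; have := congrFun h i; simp [c, hi] at this
  have h1 := hS c (fun i hi => by simp [c, hi]) hc0
  have h2 : qf D.g c = ∑ i ∈ S, ∑ j ∈ S, D.g i j := by
    unfold qf bf
    rw [← Finset.sum_subset (Finset.subset_univ S)]
    · refine Finset.sum_congr rfl fun i hi => ?_
      rw [← Finset.sum_subset (Finset.subset_univ S)]
      · exact Finset.sum_congr rfl fun j hj => by simp [c, hi, hj]
      · intro j _ hj; simp [c, hj]
    · intro i _ hi; exact Finset.sum_eq_zero fun j _ => by simp [c, hi]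
  have h3 : ∑ i ∈ S, ∑ j ∈ S, D.g i j = S.card + ∑ i ∈ S, ∑ j ∈ S.erase i, D.g i j := by
    have : ∀ i ∈ S, ∑ j ∈ S, D.g i j = 1 + ∑ j ∈ S.erase i, D.g i j := by
      intro i hi
      rw [← Finset.add_sum_erase S _ hi, D.self]
    rw [Finset.sum_congr rfl this, Finset.sum_add_distrib]; simp
  have h4 : ∑ i ∈ S, ∑ j ∈ S.erase i, D.g i j ≤
      ∑ i ∈ S, ∑ j ∈ S.erase i, (if AdjP D.g {i, j} then (-1 / 2 : ℝ) else 0) := by
    refine Finset.sum_le_sum fun i _ => Finset.sum_le_sum fun j hj => ?_
    have hji : j ≠ i := (Finset.mem_erase.1 hj).1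
    by_cases h : D.g i j = 0
    · rw [h]
      have : ¬ AdjP D.g {i, j} := by
        rintro ⟨a, ha, b, hb, hab, hg⟩
        simp only [Finset.mem_insert, Finset.mem_singleton] at ha hb
        rcases ha with rfl | rfl <;> rcases hb with rfl | rfl
        · exact hab rfl
        · exact hg h
        · exact hg (by rw [D.symm]; exact h)
        · exact hab rfl
      rw [if_neg this]
    · have : AdjP D.g {i, j} := ⟨i, by simp, j, by simp, Ne.symm hji, h⟩
      rw [if_pos this]
      exact D.g_le_of_ne (Ne.symm hji) h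
  rw [sum_pairs S (fun P => if AdjP D.g P then (-1 / 2 : ℝ) else 0)] at h4
  have h5 : ∑ P ∈ S.powersetCard 2, (if AdjP D.g P then (-1 / 2 : ℝ) else 0) =
      (eN D.g S : ℝ) * (-1 / 2) := by
    rw [← Finset.sum_filter, Finset.sum_const, nsmul_eq_mul]; rfl
  rw [h5] at h4
  have h6 : (eN D.g S : ℝ) < S.card := by linarith
  exact_mod_cast h6

/-- the two vertices of an edge, in terms of the extension -/
theorem edge_unique {S : Finset D.ι} (hS : PD D.g S) (hc : S.card + 1 = n) {a b c : D.ι}
    (ha : a ∉ S) (hb : b ∉ S) (hc' : c ∉ S) (hpa : PD D.g (insert a S))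
    (hpb : PD D.g (insert b S)) (hpc : PD D.g (insert c S)) (hab : a ≠ b) :
    c = a ∨ c = b := by
  obtain ⟨i, j, hij, -, -, -, -, hall⟩ := D.edge S hS hc
  rcases hall a ha hpa with rfl | rfl <;> rcases hall b hb hpb with rfl | rfl <;>
    rcases hall c hc' hpc with rfl | rfl <;> simp_all

/-- the other vertex of an edge -/
theorem edge_other {S : Finset D.ι} (hc : S.card + 1 = n) {a : D.ι}
    (ha : a ∉ S) (hpa : PD D.g (insert a S)) :
    ∃ b, b ≠ a ∧ b ∉ S ∧ PD D.g (insert b S) := by
  obtain ⟨i, j, hij, hi, hj, hpi, hpj, hall⟩ :=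
    D.edge S (hpa.mono (Finset.subset_insert _ _)) hc
  rcases hall a ha hpa with rfl | rfl
  · exact ⟨j, Ne.symm hij, hj, hpj⟩
  · exact ⟨i, hij, hi, hpi⟩

end CoxData

end MP345
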