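import Mathlib
import Pool.Agent.Work.MP_345ef2_gt.Account

/-!
# Triangular and quadrangular 2-faces
-/

namespace MP345

open Finset

variable {n : ℕ}

theorem pair_eq {ι : Type*} [DecidableEq ι] {a b c d : ι} :
    ({a, b} : Finset ι) = {c, d} ↔ (a = c ∧ b = d) ∨ (a = d ∧ b = c) := by
  rw [← Finset.coe_inj, Finset.coe_pair, Finset.coe_pair, Set.pair_eq_pair_iff]

namespace CoxData

variable (D : CoxData n)

/-- `K ∪ {a, b}` is a vertex, with `a, b ∉ K` different -/
def Lk (K : Finset D.ι) (a b : D.ι) : Prop :=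
  a ∉ K ∧ b ∉ K ∧ a ≠ b ∧ PD D.g (insert a (insert b K))

theorem Lk.symm {K : Finset D.ι} {a b : D.ι} (h : D.Lk K a b) : D.Lk K b a := by
  obtain ⟨h1, h2, h3, h4⟩ := h
  exact ⟨h2, h1, Ne.symm h3, by rwa [Finset.insert_comm]⟩

theorem Lk.next {K : Finset D.ι} (hK : K.card + 2 = n) {a b : D.ι} (h : D.Lk K a b) :
    ∃ c, c ≠ b ∧ D.Lk K a c := by
  obtain ⟨h1, h2, h3, h4⟩ := h
  have hc : (insert a K).card + 1 = n := by rw [Finset.card_insert_of_notMem h1]; omega
  have hb : b ∉ insert a K := by
    intro hb; rcases Finset.mem_insert.1 hb with hb | hb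
    · exact h3 hb.symm
    · exact h2 hb
  have hp : PD D.g (insert b (insert a K)) := by rwa [Finset.insert_comm]
  obtain ⟨c, hcb, hc1, hpc⟩ := D.edge_other hc hb hp
  refine ⟨c, hcb, h1, fun hc' => hc1 (Finset.mem_insert_of_mem hc'), ?_, ?_⟩
  · intro hac; exact hc1 (hac ▸ Finset.mem_insert_self a K)
  · rwa [Finset.insert_comm]

theorem Lk.only {K : Finset D.ι} (hK : K.card + 2 = n) {a b c d : D.ι} (hb : D.Lk K a b)
    (hc : D.Lk K a c) (hbc : b ≠ c) (hd : D.Lk K a d) : d = b ∨ d = c := by
  obtain ⟨b1, b2, b3, b4⟩ := hb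
  obtain ⟨c1, c2, c3, c4⟩ := hc
  obtain ⟨d1, d2, d3, d4⟩ := hd
  have hcard : (insert a K).card + 1 = n := by rw [Finset.card_insert_of_notMem b1]; omega
  have hmem : ∀ x, x ∉ K → a ≠ x → x ∉ insert a K := by
    intro x hx hax h; rcases Finset.mem_insert.1 h with h | h
    · exact hax h.symm
    · exact hx h
  rw [Finset.insert_comm] at b4 c4 d4
  exact D.edge_unique (b4.mono (Finset.subset_insert _ _)) hcard (hmem b b2 b3) (hmem c c2 c3)
    (hmem d d2 d3) b4 c4 d4 hbc

open scoped Classical in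
/-- the 2-sets `P` disjoint from `K` with `P ∪ K` a vertex -/
noncomputable def EK (K : Finset D.ι) : Finset (Finset D.ι) :=
  ((Finset.univ \ K).powersetCard 2).filter fun P => PD D.g (P ∪ K)

theorem mem_EK {K : Finset D.ι} {a b : D.ι} (hab : a ≠ b) :
    ({a, b} : Finset D.ι) ∈ D.EK K ↔ D.Lk K a b := by
  classical
  unfold EK Lk
  rw [Finset.mem_filter, Finset.mem_powersetCard, Finset.insert_union, Finset.singleton_union]
  constructor
  · rintro ⟨⟨h1, -⟩, h2⟩
    have ha : a ∈ Finset.univ \ K := h1 (by simp)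
    have hb : b ∈ Finset.univ \ K := h1 (by simp)
    exact ⟨(Finset.mem_sdiff.1 ha).2, (Finset.mem_sdiff.1 hb).2, hab, h2⟩
  · rintro ⟨h1, h2, h3, h4⟩
    refine ⟨⟨?_, Finset.card_pair hab⟩, h4⟩
    intro x hx
    simp only [Finset.mem_insert, Finset.mem_singleton] at hx
    rcases hx with rfl | rfl
    · simp [h1]
    · simp [h2]

theorem card_EK {K : Finset D.ι} (hK : K.card + 2 = n) : (D.EK K).card = kF D.g n K := by
  classical
  unfold kF
  refine Finset.card_bij (fun P _ => P ∪ K) ?_ ?_ ?_
  · intro P hP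
    unfold EK at hP
    rw [Finset.mem_filter, Finset.mem_powersetCard] at hP
    obtain ⟨⟨h1, h2⟩, h3⟩ := hP
    rw [Finset.mem_filter, mem_Verts]
    refine ⟨⟨h3, ?_⟩, Finset.subset_union_right⟩
    rw [Finset.card_union_of_disjoint, h2]; · omega
    rw [Finset.disjoint_left]; intro x hx hxK
    exact (Finset.mem_sdiff.1 (h1 hx)).2 hxK
  · intro P hP Q hQ h
    unfold EK at hP hQ
    rw [Finset.mem_filter, Finset.mem_powersetCard] at hP hQ
    have hd : ∀ P : Finset D.ι, P ⊆ Finset.univ \ K → (P ∪ K) \ K = P := by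
      intro P hP; ext x
      simp only [Finset.mem_sdiff, Finset.mem_union]
      constructor
      · rintro ⟨h1 | h1, h2⟩
        · exact h1
        · exact absurd h1 h2
      · intro h1; exact ⟨Or.inl h1, (Finset.mem_sdiff.1 (hP h1)).2⟩
    rw [← hd P hP.1.1, ← hd Q hQ.1.1, h]
  · intro w hw
    rw [Finset.mem_filter, mem_Verts] at hw
    obtain ⟨⟨h1, h2⟩, h3⟩ := hw
    refine ⟨w \ K, ?_, Finset.sdiff_union_of_subset h3⟩
    unfold EK
    rw [Finset.mem_filter, Finset.mem_powersetCard, Finset.sdiff_union_of_subset h3]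
    refine ⟨⟨Finset.sdiff_subset_sdiff (Finset.subset_univ _) (Finset.Subset.refl _), ?_⟩, h1⟩
    rw [Finset.card_sdiff_of_subset h3]; omega

/-- the structure of the 2-faces with at most 4 vertices -/
theorem face_struct {K : Finset D.ι} (hK : K ∈ Faces2 D.g n) :
    (kF D.g n K = 3 → ∃ a b c, D.Lk K a b ∧ D.Lk K a c ∧ D.Lk K b c) ∧
    (kF D.g n K = 4 → ∃ i i' j j', i ≠ i' ∧ j ≠ j' ∧ D.Lk K i j ∧ D.Lk K i j' ∧ D.Lk K i' j ∧
      D.Lk K i' j' ∧ ¬ PD D.g (insert i (insert i' K)) ∧ ¬ PD D.g (insert j (insert j' K))) ∧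
    3 ≤ kF D.g n K := by
  classical
  obtain ⟨hc, v, hv, hKv⟩ := mem_Faces2.1 hK
  obtain ⟨hvpd, hvc⟩ := mem_Verts.1 hv
  -- a, b
  have h2 : (v \ K).card = 2 := by rw [Finset.card_sdiff_of_subset hKv]; omega
  obtain ⟨a, b, hab, hvK⟩ := Finset.card_eq_two.1 h2
  have hLab : D.Lk K a b := by
    rw [← D.mem_EK hab, ← hvK]
    unfold EK
    rw [Finset.mem_filter, Finset.mem_powersetCard, Finset.sdiff_union_of_subset hKv]
    exact ⟨⟨Finset.sdiff_subset_sdiff (Finset.subset_univ _) (Finset.Subset.refl _), h2⟩, hvpd⟩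
  obtain ⟨c, hcb, hLac⟩ := hLab.next D hc
  obtain ⟨d, hda, hLbd⟩ := (hLab.symm D).next D hc
  obtain ⟨e, hea, hLce⟩ := (hLac.symm D).next D hc
  have hE := D.card_EK hc
  have hac : a ≠ c := hLac.2.2.1
  have hbd : b ≠ d := hLbd.2.2.1
  have hce : c ≠ e := hLce.2.2.1
  have m1 := (D.mem_EK hab).2 hLab
  have m2 := (D.mem_EK hac).2 hLac
  have m3 := (D.mem_EK hbd).2 hLbd
  have m4 := (D.mem_EK hce).2 hLce
  have d12 : ({a, b} : Finset D.ι) ≠ {a, c} := by
    rw [Ne, pair_eq]; rintro (⟨_, h⟩ | ⟨h, _⟩)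
    · exact hcb h.symm
    · exact hac h
  have d13 : ({a, b} : Finset D.ι) ≠ {b, d} := by
    rw [Ne, pair_eq]; rintro (⟨h, _⟩ | ⟨h, _⟩)
    · exact hab h
    · exact hda h.symm
  have d23 : ({a, c} : Finset D.ι) ≠ {b, d} := by
    rw [Ne, pair_eq]; rintro (⟨h, _⟩ | ⟨h, _⟩)
    · exact hab h
    · exact hda h.symm
  have h3card : ({({a, b} : Finset D.ι), {a, c}, {b, d}} : Finset (Finset D.ι)).card = 3 := by
    rw [Finset.card_insert_of_notMem, Finset.card_insert_of_notMem, Finset.card_singleton]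
    · simpa using d23
    · simp only [Finset.mem_insert, Finset.mem_singleton, not_or]; exact ⟨d12, d13⟩
  have h3sub : ({({a, b} : Finset D.ι), {a, c}, {b, d}} : Finset (Finset D.ι)) ⊆ D.EK K := by
    intro P hP; simp only [Finset.mem_insert, Finset.mem_singleton] at hP
    rcases hP with rfl | rfl | rfl <;> assumption
  have hge3 : 3 ≤ kF D.g n K := by
    rw [← hE, ← h3card]; exact Finset.card_le_card h3sub
  -- fourth
  have h4 : c ≠ d → ({({c, e} : Finset D.ι), {a, b}, {a, c}, {b, d}} : Finset (Finset D.ι)).card = 4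
      ∧ ({({c, e} : Finset D.ι), {a, b}, {a, c}, {b, d}} : Finset (Finset D.ι)) ⊆ D.EK K := by
    intro hcd
    constructor
    · rw [Finset.card_insert_of_notMem, h3card]
      simp only [Finset.mem_insert, Finset.mem_singleton, not_or]
      refine ⟨?_, ?_, ?_⟩
      · rw [pair_eq]; rintro (⟨h, _⟩ | ⟨h, _⟩)
        · exact hac h.symm
        · exact hcb h
      · rw [pair_eq]; rintro (⟨h, _⟩ | ⟨_, h⟩)
        · exact hac h.symm
        · exact hea h
      · rw [pair_eq]; rintro (⟨h, _⟩ | ⟨h, _⟩)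
        · exact hcb h
        · exact hcd h
    · intro P hP
      rw [Finset.mem_insert] at hP
      rcases hP with rfl | hP
      · exact m4
      · exact h3sub hP
  refine ⟨?_, ?_, hge3⟩
  · intro hk
    have hcd : c = d := by
      by_contra hcd
      obtain ⟨h5, h6⟩ := h4 hcd
      have := Finset.card_le_card h6
      rw [h5, hE, hk] at this
      omega
    subst hcd
    exact ⟨a, b, c, hLab, hLac, hLbd⟩
  · intro hk
    by_cases hcd : c = d
    · -- triangle a b c and a further vertex: at least 5 vertices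
      exfalso
      subst hcd
      have hlt : ({({a, b} : Finset D.ι), {a, c}, {b, c}} : Finset (Finset D.ι)).card <
          (D.EK K).card := by rw [h3card, hE, hk]; omega
      obtain ⟨P, hP, hPn⟩ := Finset.exists_mem_notMem_of_card_lt_card hlt
      have hPc : P.card = 2 := by
        unfold EK at hP; rw [Finset.mem_filter, Finset.mem_powersetCard] at hP; exact hP.1.2
      obtain ⟨x, y, hxy, rfl⟩ := Finset.card_eq_two.1 hPc
      have hLxy : D.Lk K x y := (D.mem_EK hxy).1 hP
      simp only [Finset.mem_insert, Finset.mem_singleton, not_or] at hPn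
      -- a vertex with one end in {a,b,c} has both
      have key : ∀ z w, D.Lk K z w → (z = a ∨ z = b ∨ z = c) →
          ({z, w} : Finset D.ι) = {a, b} ∨ ({z, w} : Finset D.ι) = {a, c} ∨
          ({z, w} : Finset D.ι) = {b, c} := by
        intro z w hzw hz
        rcases hz with rfl | rfl | rfl
        · rcases Lk.only D hc hLab hLac (Ne.symm hcb) hzw with rfl | rfl
          · left; rfl
          · right; left; rfl
        · rcases Lk.only D hc (hLab.symm D) hLbd hac hzw with rfl | rfl
          · left; exact Finset.pair_comm _ _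
          · right; right; rfl
        · rcases Lk.only D hc (hLac.symm D) (hLbd.symm D) hab hzw with rfl | rfl
          · right; left; exact Finset.pair_comm _ _
          · right; right; exact Finset.pair_comm _ _
      have hx : x ≠ a ∧ x ≠ b ∧ x ≠ c := by
        refine ⟨fun h => ?_, fun h => ?_, fun h => ?_⟩ <;>
        · have := key x y hLxy (by simp [h])
          tauto
      have hy : y ≠ a ∧ y ≠ b ∧ y ≠ c := by
        refine ⟨fun h => ?_, fun h => ?_, fun h => ?_⟩ <;>
        · have := key y x (hLxy.symm D) (by simp [h])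
          rw [Finset.pair_comm y x] at this
          tauto
      obtain ⟨y2, hy2, hLxy2⟩ := hLxy.next D hc
      have hxy2 : x ≠ y2 := hLxy2.2.2.1
      have m5 := (D.mem_EK hxy2).2 hLxy2
      have hsub5 : insert ({x, y2} : Finset D.ι) (insert ({x, y} : Finset D.ι)
          ({({a, b} : Finset D.ι), {a, c}, {b, c}} : Finset (Finset D.ι))) ⊆ D.EK K := by
        intro P hP
        rw [Finset.mem_insert, Finset.mem_insert] at hP
        rcases hP with rfl | rfl | hP
        · exact m5
        · exact hP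
        · exact h3sub hP
      have hc5 := Finset.card_le_card hsub5
      rw [Finset.card_insert_of_notMem, Finset.card_insert_of_notMem, h3card, hE, hk] at hc5
      · omega
      · simp only [Finset.mem_insert, Finset.mem_singleton, not_or]; exact hPn
      · simp only [Finset.mem_insert, Finset.mem_singleton, not_or]
        refine ⟨?_, ?_, ?_, ?_⟩
        · rw [pair_eq]; rintro (⟨_, h⟩ | ⟨h, _⟩)
          · exact hy2 h
          · exact hxy h
        · rw [pair_eq]; rintro (⟨h, _⟩ | ⟨h, _⟩)
          · exact hx.1 h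
          · exact hx.2.1 h
        · rw [pair_eq]; rintro (⟨h, _⟩ | ⟨h, _⟩)
          · exact hx.1 h
          · exact hx.2.2 h
        · rw [pair_eq]; rintro (⟨h, _⟩ | ⟨h, _⟩)
          · exact hx.2.1 h
          · exact hx.2.2 h
    · obtain ⟨h5, h6⟩ := h4 hcd
      have heq := Finset.eq_of_subset_of_card_le h6 (by rw [h5, hE, hk])
      -- e = d
      have hed : e = d := by
        by_contra hed
        obtain ⟨f, hfb, hLdf⟩ := (hLbd.symm D).next D hc
        have hdf : d ≠ f := hLdf.2.2.1
        have m6 := (D.mem_EK hdf).2 hLdf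
        rw [← heq] at m6
        simp only [Finset.mem_insert, Finset.mem_singleton] at m6
        rcases m6 with h | h | h | h <;> rw [pair_eq] at h
        · rcases h with ⟨h, _⟩ | ⟨h, _⟩
          · exact hcd h.symm
          · exact hed h.symm
        · rcases h with ⟨h, _⟩ | ⟨h, _⟩
          · exact hda h
          · exact hbd h.symm
        · rcases h with ⟨h, _⟩ | ⟨h, _⟩
          · exact hda h
          · exact hcd h.symm
        · rcases h with ⟨h, _⟩ | ⟨_, h⟩
          · exact hbd h.symm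
          · exact hfb h
      subst hed
      -- i = a, i' = e, j = b, j' = c
      refine ⟨a, e, b, c, Ne.symm hda, Ne.symm hcb, hLab, hLac, hLbd.symm D, hLce.symm D, ?_, ?_⟩
      · intro hpd
        have hLae : D.Lk K a e := ⟨hLab.1, hLce.2.1, Ne.symm hda, hpd⟩
        rcases Lk.only D hc hLab hLac (Ne.symm hcb) hLae with h | h
        · exact hbd h.symm
        · exact hce h.symm
      · intro hpd
        have hLbc : D.Lk K b c := ⟨hLab.2.1, hLac.2.1, Ne.symm hcb, hpd⟩
        rcases Lk.only D hc (hLab.symm D) hLbd (Ne.symm hda) hLbc with h | h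
        · exact hac h.symm
        · exact hcd h

end CoxData

end MP345
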