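import Mathlib
import Pool.Agent.Work.MP_345ef2_gt.Quads

/-!
# The accounting theorem
-/

namespace MP345

open Finset

variable {n : ℕ}

namespace CoxData

variable (D : CoxData n)

/-- number of adjacent corners of a 2-face -/
noncomputable def corn (K : Finset D.ι) : ℕ :=
  open scoped Classical in
  ((Verts D.g n).filter fun v => K ⊆ v ∧ AdjP D.g (v \ K)).card

theorem sum_corn (hn : 2 ≤ n) :
    ∑ K ∈ Faces2 D.g n, D.corn K = ∑ v ∈ Verts D.g n, eN D.g v := by
  classical
  unfold corn eN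
  have h1 := Finset.sum_card_bipartiteAbove_eq_sum_card_bipartiteBelow
    (s := Faces2 D.g n) (t := Verts D.g n) (fun K v => K ⊆ v ∧ AdjP D.g (v \ K))
  unfold Finset.bipartiteAbove Finset.bipartiteBelow at h1
  rw [h1]
  refine Finset.sum_congr rfl fun v hv => ?_
  have hvc := (mem_Verts.1 hv).2
  refine Finset.card_bij (fun K _ => v \ K) ?_ ?_ ?_
  · intro K hK
    rw [Finset.mem_filter, mem_Faces2] at hK
    rw [Finset.mem_filter, Finset.mem_powersetCard]
    refine ⟨⟨Finset.sdiff_subset, ?_⟩, hK.2.2⟩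
    rw [Finset.card_sdiff_of_subset hK.2.1]; omega
  · intro K hK K' hK' h
    rw [Finset.mem_filter] at hK hK'
    rw [← Finset.sdiff_sdiff_eq_self hK.2.1, ← Finset.sdiff_sdiff_eq_self hK'.2.1, h]
  · intro P hP
    rw [Finset.mem_filter, Finset.mem_powersetCard] at hP
    refine ⟨v \ P, ?_, Finset.sdiff_sdiff_eq_self hP.1.1⟩
    rw [Finset.mem_filter, mem_Faces2]
    refine ⟨⟨?_, v, hv, Finset.sdiff_subset⟩, Finset.sdiff_subset, ?_⟩
    · rw [Finset.card_sdiff_of_subset hP.1.1]; omega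
    · rw [Finset.sdiff_sdiff_eq_self hP.1.1]; exact hP.2

/-- the sum of `l (l - 1)` over the blocks -/
theorem sum_blocks :
    ∑ T ∈ Tsets D.g n, ((Rset D.g T).card : ℝ) * ((Rset D.g T).card - 1) ≤
      n * (Verts D.g n).card := by
  classical
  -- ordered pairs (x, y) in R(T) inject into (v = T \ y, x)
  have h1 : ∀ T ∈ Tsets D.g n, ((Rset D.g T).card : ℝ) * ((Rset D.g T).card - 1) =
      ((Rset D.g T).offDiag.card : ℝ) := by
    intro T hT
    have h2 := (mem_Tsets.1 hT).2
    rw [Finset.offDiag_card]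
    have h3 : (Rset D.g T).card ≤ (Rset D.g T).card * (Rset D.g T).card := by nlinarith
    rw [Nat.cast_sub h3]; push_cast; ring
  rw [Finset.sum_congr rfl h1]
  have h4 : (∑ T ∈ Tsets D.g n, (Rset D.g T).offDiag.card) ≤
      ∑ v ∈ Verts D.g n, v.card := by
    rw [← Finset.card_sigma, ← Finset.card_sigma]
    refine Finset.card_le_card_of_injOn
      (fun p => (⟨p.1.erase p.2.2, p.2.1⟩ : (_ : Finset D.ι) × D.ι)) ?_ ?_
    · rintro ⟨T, x, y⟩ hp
      rw [Finset.mem_coe, Finset.mem_sigma, Finset.mem_offDiag] at hp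
      obtain ⟨hT, hx, hy, hxy⟩ := hp
      simp only at hx hy hxy
      obtain ⟨hxT, hxp⟩ := mem_Rset.1 hx
      obtain ⟨hyT, hyp⟩ := mem_Rset.1 hy
      rw [Finset.mem_coe, Finset.mem_sigma, mem_Verts]
      have hc := (mem_Tsets.1 hT).1
      refine ⟨⟨hyp, ?_⟩, Finset.mem_erase.2 ⟨hxy, hxT⟩⟩
      rw [Finset.card_erase_of_mem hyT, hc]; omega
    · rintro ⟨T, x, y⟩ hp ⟨T', x', y'⟩ hp' heq
      rw [Finset.mem_coe, Finset.mem_sigma, Finset.mem_offDiag] at hp hp'
      obtain ⟨hT, hx, hy, hxy⟩ := hp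
      obtain ⟨hT', hx', hy', hxy'⟩ := hp'
      simp only at hx hy hxy hT hx' hy' hxy' hT'
      obtain ⟨hxT, hxp⟩ := mem_Rset.1 hx
      obtain ⟨hyT, hyp⟩ := mem_Rset.1 hy
      obtain ⟨hxT', hxp'⟩ := mem_Rset.1 hx'
      obtain ⟨hyT', hyp'⟩ := mem_Rset.1 hy'
      simp only [Sigma.mk.injEq, heq_eq_eq] at heq
      obtain ⟨hv, hxx⟩ := heq
      subst hxx
      -- the edge S = v \ x
      have hc := (mem_Tsets.1 hT).1
      have hc' := (mem_Tsets.1 hT').1
      set v := T.erase y with hvdef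
      have hxv : x ∈ v := Finset.mem_erase.2 ⟨hxy, hxT⟩
      have hyv : y ∉ v := Finset.notMem_erase y T
      have hyv' : y' ∉ v := by rw [hv]; exact Finset.notMem_erase y' T'
      have hTv : T = insert y v := (Finset.insert_erase hyT).symm
      have hTv' : T' = insert y' v := by rw [hv]; exact (Finset.insert_erase hyT').symm
      have hvc : v.card = n := by rw [hvdef, Finset.card_erase_of_mem hyT, hc]; omega
      have hSc : (v.erase x).card + 1 = n := by
        rw [Finset.card_erase_of_mem hxv, hvc]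
        have : 0 < v.card := Finset.card_pos.2 ⟨x, hxv⟩
        omega
      have e1 : T.erase x = insert y (v.erase x) := by
        rw [hTv, Finset.erase_insert_of_ne (Ne.symm hxy)]
      have e2 : T'.erase x = insert y' (v.erase x) := by
        rw [hTv', Finset.erase_insert_of_ne (Ne.symm hxy')]
      rw [e1] at hxp
      rw [e2] at hxp'
      have hpx : PD D.g (insert x (v.erase x)) := by rw [Finset.insert_erase hxv]; exact hyp
      have hyS : y ∉ v.erase x := fun h => hyv (Finset.mem_of_mem_erase h)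
      have hyS' : y' ∉ v.erase x := fun h => hyv' (Finset.mem_of_mem_erase h)
      rcases D.edge_unique (hpx.mono (Finset.subset_insert _ _)) hSc (Finset.notMem_erase x v)
        hyS hyS' hpx hxp hxp' hxy with h | h
      · exact absurd h.symm hxy'
      · subst h
        rw [hTv', ← hTv]
  have h5 : ∑ v ∈ Verts D.g n, v.card = n * (Verts D.g n).card := by
    rw [Finset.sum_congr rfl fun v hv => (mem_Verts.1 hv).2, Finset.sum_const, smul_eq_mul,
      mul_comm]
  have h6 : ((∑ T ∈ Tsets D.g n, (Rset D.g T).offDiag.card : ℕ) : ℝ) ≤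
      ((n * (Verts D.g n).card : ℕ) : ℝ) := by exact_mod_cast (h5 ▸ h4)
  push_cast at h6
  exact h6

/-- The charge of a block: triangles. -/
noncomputable def tri (P : Finset D.ι) : ℝ := max (2 - (eN D.g P : ℝ)) 0

theorem tri_nonneg (P : Finset D.ι) : 0 ≤ D.tri P := le_max_right _ _

theorem le_tri (P : Finset D.ι) : 2 - (eN D.g P : ℝ) ≤ D.tri P := le_max_left _ _

theorem eN_triple {K : Finset D.ι} (hK : K.card + 2 = n) {a b c : D.ι}
    (h1 : D.Lk K a b) (h2 : D.Lk K a c) (h3 : D.Lk K b c) :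
    eN D.g {a, b, c} ≤ D.corn K := by
  classical
  unfold eN corn
  have hdis : ∀ P ⊆ ({a, b, c} : Finset D.ι), ∀ x ∈ P, x ∉ K := by
    intro P hP x hx
    have := hP hx
    simp only [Finset.mem_insert, Finset.mem_singleton] at this
    rcases this with rfl | rfl | rfl
    · exact h1.1
    · exact h1.2.1
    · exact h2.2.1
  have hsd : ∀ P ⊆ ({a, b, c} : Finset D.ι), (P ∪ K) \ K = P := by
    intro P hP
    ext x; simp only [Finset.mem_sdiff, Finset.mem_union]
    constructor
    · rintro ⟨h | h, h'⟩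
      · exact h
      · exact absurd h h'
    · intro h; exact ⟨Or.inl h, hdis P hP x h⟩
  refine Finset.card_le_card_of_injOn (fun P => P ∪ K) ?_ ?_
  · intro P hP
    rw [Finset.mem_coe, Finset.mem_filter, Finset.mem_powersetCard] at hP
    obtain ⟨⟨hPs, hPc⟩, hadj⟩ := hP
    have hpd : PD D.g (P ∪ K) := by
      obtain ⟨x, y, hxy, rfl⟩ := Finset.card_eq_two.1 hPc
      have hx : x ∈ ({a, b, c} : Finset D.ι) := hPs (by simp)
      have hy : y ∈ ({a, b, c} : Finset D.ι) := hPs (by simp)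
      simp only [Finset.mem_insert, Finset.mem_singleton] at hx hy
      rw [Finset.insert_union, Finset.singleton_union]
      rcases hx with rfl | rfl | rfl <;> rcases hy with rfl | rfl | rfl
      · exact absurd rfl hxy
      · exact h1.2.2.2
      · exact h2.2.2.2
      · exact (h1.symm D).2.2.2
      · exact absurd rfl hxy
      · exact h3.2.2.2
      · exact (h2.symm D).2.2.2
      · exact (h3.symm D).2.2.2
      · exact absurd rfl hxy
    rw [Finset.mem_coe, Finset.mem_filter, mem_Verts, hsd P hPs]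
    refine ⟨⟨hpd, ?_⟩, Finset.subset_union_right, hadj⟩
    rw [Finset.card_union_of_disjoint (Finset.disjoint_left.2 (hdis P hPs)), hPc]; omega
  · intro P hP Q hQ h
    rw [Finset.mem_coe, Finset.mem_filter, Finset.mem_powersetCard] at hP hQ
    simp only at h
    rw [← hsd P hP.1.1, ← hsd Q hQ.1.1, h]

/-- a quadrangular 2-face `K` with opposite sides `i, i'` and `j, j'` and without adjacent
corners -/
structure Quad0 (K : Finset D.ι) (i i' j j' : D.ι) : Prop where
  card : K.card + 2 = n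
  ii : i ≠ i'
  jj : j ≠ j'
  lij : D.Lk K i j
  lij' : D.Lk K i j'
  li'j : D.Lk K i' j
  li'j' : D.Lk K i' j'
  nii : ¬ PD D.g (insert i (insert i' K))
  njj : ¬ PD D.g (insert j (insert j' K))
  zij : D.g i j = 0
  zij' : D.g i j' = 0
  zi'j : D.g i' j = 0
  zi'j' : D.g i' j' = 0

theorem Quad0.swap {K : Finset D.ι} {i i' j j' : D.ι} (q : D.Quad0 K i i' j j') :
    D.Quad0 K j j' i i' where
  card := q.card
  ii := q.jj
  jj := q.ii
  lij := q.lij.symm D
  lij' := q.li'j.symm D
  li'j := q.lij'.symm D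
  li'j' := q.li'j'.symm D
  nii := q.njj
  njj := q.nii
  zij := by rw [D.symm]; exact q.zij
  zij' := by rw [D.symm]; exact q.zi'j
  zi'j := by rw [D.symm]; exact q.zij'
  zi'j' := by rw [D.symm]; exact q.zi'j'

theorem Quad0.flip {K : Finset D.ι} {i i' j j' : D.ι} (q : D.Quad0 K i i' j j') :
    D.Quad0 K i' i j j' where
  card := q.card
  ii := Ne.symm q.ii
  jj := q.jj
  lij := q.li'j
  lij' := q.li'j'
  li'j := q.lij
  li'j' := q.lij'
  nii := by rw [Finset.insert_comm]; exact q.nii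
  njj := q.njj
  zij := q.zi'j
  zij' := q.zi'j'
  zi'j := q.zij
  zi'j' := q.zij'

/-- the side `T = K ∪ {x, y, y'}` -/
theorem side_mem {K : Finset D.ι} {x y y' : D.ι} (hK : K.card + 2 = n) (h1 : D.Lk K x y)
    (h2 : D.Lk K x y') (hyy : y ≠ y') (hn : ¬ PD D.g (insert y (insert y' K)))
    (z1 : D.g x y = 0) (z2 : D.g x y' = 0) :
    insert x (insert y (insert y' K)) ∈ Tsets D.g n ∧
    x ∈ insert x (insert y (insert y' K)) \ Rset D.g (insert x (insert y (insert y' K))) ∧
    ({y, y'} : Finset D.ι) ∈ freePairs D.g (insert x (insert y (insert y' K))) x ∧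
    insert x (insert y (insert y' K)) \ insert x {y, y'} = K := by
  classical
  obtain ⟨hx, hy, hxy, hp1⟩ := h1
  obtain ⟨-, hy', hxy', hp2⟩ := h2
  have e1 : (insert x (insert y (insert y' K))).erase x = insert y (insert y' K) := by
    rw [Finset.erase_insert]
    simp [hxy, hxy', hx]
  have e2 : (insert x (insert y (insert y' K))).erase y = insert x (insert y' K) := by
    rw [Finset.insert_comm, Finset.erase_insert]
    simp [Ne.symm hxy, hyy, hy]
  have e3 : (insert x (insert y (insert y' K))).erase y' = insert x (insert y K) := by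
    rw [Finset.insert_comm y y' K, Finset.insert_comm x y', Finset.erase_insert]
    simp [Ne.symm hxy', Ne.symm hyy, hy']
  have hc : (insert x (insert y (insert y' K))).card = n + 1 := by
    rw [Finset.card_insert_of_notMem, Finset.card_insert_of_notMem, Finset.card_insert_of_notMem hy']
    · omega
    · simp [hyy, hy]
    · simp [hxy, hxy', hx]
  have r1 : y ∈ Rset D.g (insert x (insert y (insert y' K))) :=
    mem_Rset.2 ⟨by simp, by rw [e2]; exact hp2⟩
  have r2 : y' ∈ Rset D.g (insert x (insert y (insert y' K))) :=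
    mem_Rset.2 ⟨by simp, by rw [e3]; exact hp1⟩
  have hsub : ({y, y'} : Finset D.ι) ⊆ Rset D.g (insert x (insert y (insert y' K))) := by
    intro z hz
    simp only [Finset.mem_insert, Finset.mem_singleton] at hz
    rcases hz with rfl | rfl
    · exact r1
    · exact r2
  refine ⟨mem_Tsets.2 ⟨hc, ?_⟩, ?_, ?_, ?_⟩
  · rw [← Finset.card_pair hyy]; exact Finset.card_le_card hsub
  · rw [Finset.mem_sdiff]
    refine ⟨by simp, fun h => hn ?_⟩
    rw [← e1]; exact (mem_Rset.1 h).2
  · unfold freePairs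
    rw [Finset.mem_filter, Finset.mem_powersetCard]
    refine ⟨⟨hsub, Finset.card_pair hyy⟩, ?_⟩
    intro z hz
    simp only [Finset.mem_insert, Finset.mem_singleton] at hz
    rcases hz with rfl | rfl
    · exact z1
    · exact z2
  · ext z
    simp only [Finset.mem_sdiff, Finset.mem_insert, Finset.mem_singleton, not_or]
    constructor
    · rintro ⟨h | h | h | h, h'⟩
      · exact absurd h h'.1
      · exact absurd h h'.2.1
      · exact absurd h h'.2.2
      · exact h
    · intro h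
      exact ⟨Or.inr (Or.inr (Or.inr h)), fun e => hx (e ▸ h), fun e => hy (e ▸ h),
        fun e => hy' (e ▸ h)⟩

theorem sum_le_of_inj {α β : Type*} (s : Finset α) (t : Finset β) (e : α → β) (f : β → ℝ)
    (hf : ∀ b ∈ t, 0 ≤ f b) (hmem : ∀ a ∈ s, e a ∈ t) (hinj : Set.InjOn e s) :
    ∑ a ∈ s, f (e a) ≤ ∑ b ∈ t, f b := by
  classical
  rw [← Finset.sum_image (f := f) hinj]
  exact Finset.sum_le_sum_of_subset_of_nonneg (Finset.image_subset_iff.2 hmem)
    fun b hb _ => hf b hb

/-- the 2-faces that are triangles -/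
noncomputable def TriF : Finset (Finset D.ι) :=
  (Faces2 D.g n).filter fun K => kF D.g n K = 3

/-- the quadrangular 2-faces without adjacent corners -/
noncomputable def QuadF : Finset (Finset D.ι) :=
  (Faces2 D.g n).filter fun K => kF D.g n K = 4 ∧ D.corn K = 0

theorem sum_tri_le (P : Finset D.ι → Finset D.ι)
    (hP : ∀ K ∈ D.TriF, ∃ a b c, P K = {a, b, c} ∧ D.Lk K a b ∧ D.Lk K a c ∧ D.Lk K b c) :
    ∑ K ∈ D.TriF, D.tri (P K) ≤
      ∑ T ∈ Tsets D.g n, ∑ Q ∈ (Rset D.g T).powersetCard 3, D.tri Q := by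
  classical
  rw [← Finset.sum_sigma (Tsets D.g n) (fun T => (Rset D.g T).powersetCard 3)
    (fun x => D.tri x.2)]
  refine sum_le_of_inj D.TriF _ (fun K => (⟨P K ∪ K, P K⟩ : (_ : Finset D.ι) × Finset D.ι))
    (fun x => D.tri x.2) (fun x _ => D.tri_nonneg _) ?_ ?_
  · intro K hK
    obtain ⟨a, b, c, hPK, h1, h2, h3⟩ := hP K hK
    have hKc : K.card + 2 = n := (mem_Faces2.1 (Finset.mem_filter.1 hK).1).1
    have hab := h1.2.2.1
    have hac := h2.2.2.1
    have hbc := h3.2.2.1
    have haK := h1.1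
    have hbK := h1.2.1
    have hcK := h2.2.1
    have hU : P K ∪ K = insert a (insert b (insert c K)) := by
      rw [hPK, Finset.insert_union, Finset.insert_union, Finset.singleton_union]
    have e1 : (insert a (insert b (insert c K))).erase a = insert b (insert c K) := by
      rw [Finset.erase_insert]; simp [hab, hac, haK]
    have e2 : (insert a (insert b (insert c K))).erase b = insert a (insert c K) := by
      rw [Finset.insert_comm, Finset.erase_insert]; simp [Ne.symm hab, hbc, hbK]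
    have e3 : (insert a (insert b (insert c K))).erase c = insert a (insert b K) := by
      rw [Finset.insert_comm b c K, Finset.insert_comm a c, Finset.erase_insert]
      simp [Ne.symm hac, Ne.symm hbc, hcK]
    have hsub : P K ⊆ Rset D.g (P K ∪ K) := by
      rw [hPK, ← hPK, hU, hPK]
      intro z hz
      simp only [Finset.mem_insert, Finset.mem_singleton] at hz
      rcases hz with rfl | rfl | rfl
      · exact mem_Rset.2 ⟨by simp, by rw [e1]; exact h3.2.2.2⟩
      · exact mem_Rset.2 ⟨by simp, by rw [e2]; exact h2.2.2.2⟩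
      · exact mem_Rset.2 ⟨by simp, by rw [e3]; exact h1.2.2.2⟩
    have hPc : (P K).card = 3 := by
      rw [hPK, Finset.card_insert_of_notMem, Finset.card_pair hbc]; simp [hab, hac]
    rw [Finset.mem_sigma, mem_Tsets, Finset.mem_powersetCard]
    refine ⟨⟨?_, ?_⟩, hsub, hPc⟩
    · simp only
      rw [hU, Finset.card_insert_of_notMem, Finset.card_insert_of_notMem,
        Finset.card_insert_of_notMem hcK]
      · omega
      · simp [hbc, hbK]
      · simp [hab, hac, haK]
    · have := Finset.card_le_card hsub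
      simp only
      omega
  · intro K hK K' hK' h
    have hd : ∀ K ∈ D.TriF, (P K ∪ K) \ P K = K := by
      intro K hK
      obtain ⟨a, b, c, hPK, h1, h2, h3⟩ := hP K hK
      ext z
      rw [hPK]
      simp only [Finset.mem_sdiff, Finset.mem_union, Finset.mem_insert, Finset.mem_singleton,
        not_or]
      constructor
      · rintro ⟨h | h, h'⟩
        · rcases h with h | h | h
          · exact absurd h h'.1
          · exact absurd h h'.2.1
          · exact absurd h h'.2.2
        · exact h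
      · intro h
        exact ⟨Or.inr h, fun e => h1.1 (e ▸ h), fun e => h1.2.1 (e ▸ h),
          fun e => h2.2.1 (e ▸ h)⟩
    simp only [Sigma.mk.injEq, heq_eq_eq] at h
    rw [← hd K hK, ← hd K' hK', h.1, h.2]

theorem sum_quad_le (φ : Finset D.ι → D.ι → Finset D.ι → ℝ) (hφ : ∀ T i P, 0 ≤ φ T i P)
    (q : Finset D.ι → Fin 4 → D.ι)
    (hq : ∀ K ∈ D.QuadF, D.Quad0 K (q K 0) (q K 1) (q K 2) (q K 3))
    (hquad : ∀ (K : Finset D.ι) (i i' j j' : D.ι), D.Quad0 K i i' j j' →
      1 ≤ φ (insert i (insert j (insert j' K))) i {j, j'} +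
        φ (insert i' (insert j (insert j' K))) i' {j, j'} +
        φ (insert j (insert i (insert i' K))) j {i, i'} +
        φ (insert j' (insert i (insert i' K))) j' {i, i'}) :
    (D.QuadF.card : ℝ) ≤ ∑ T ∈ Tsets D.g n, ∑ i ∈ T \ Rset D.g T,
      ∑ P ∈ freePairs D.g T i, φ T i P := by
  classical
  have hsig : ∑ T ∈ Tsets D.g n, ∑ i ∈ T \ Rset D.g T, ∑ P ∈ freePairs D.g T i, φ T i P =
      ∑ x ∈ (Tsets D.g n).sigma (fun T => (T \ Rset D.g T).sigma fun i => freePairs D.g T i),
        φ x.1 x.2.1 x.2.2 := by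
    rw [Finset.sum_sigma]
    refine Finset.sum_congr rfl fun T _ => ?_
    rw [Finset.sum_sigma]
  rw [hsig]
  -- the four sides
  let x : Finset D.ι → Fin 4 → D.ι := q
  let y : Finset D.ι → Fin 4 → D.ι := fun K s => if s = 0 ∨ s = 1 then q K 2 else q K 0
  let y' : Finset D.ι → Fin 4 → D.ι := fun K s => if s = 0 ∨ s = 1 then q K 3 else q K 1
  let e : Finset D.ι × Fin 4 → (_ : Finset D.ι) × (_ : D.ι) × Finset D.ι := fun p =>
    ⟨insert (x p.1 p.2) (insert (y p.1 p.2) (insert (y' p.1 p.2) p.1)), x p.1 p.2,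
      {y p.1 p.2, y' p.1 p.2}⟩
  have hside : ∀ K ∈ D.QuadF, ∀ s : Fin 4, D.Lk K (x K s) (y K s) ∧ D.Lk K (x K s) (y' K s) ∧
      y K s ≠ y' K s ∧ ¬ PD D.g (insert (y K s) (insert (y' K s) K)) ∧ D.g (x K s) (y K s) = 0 ∧
      D.g (x K s) (y' K s) = 0 := by
    intro K hK s
    have h := hq K hK
    have h' := h.swap D
    fin_cases s
    · exact ⟨h.lij, h.lij', h.jj, h.njj, h.zij, h.zij'⟩
    · exact ⟨h.li'j, h.li'j', h.jj, h.njj, h.zi'j, h.zi'j'⟩
    · exact ⟨h'.lij, h'.lij', h'.jj, h'.njj, h'.zij, h'.zij'⟩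
    · exact ⟨h'.li'j, h'.li'j', h'.jj, h'.njj, h'.zi'j, h'.zi'j'⟩
  have h1 : (D.QuadF.card : ℝ) ≤ ∑ p ∈ D.QuadF ×ˢ (Finset.univ : Finset (Fin 4)),
      φ (e p).1 (e p).2.1 (e p).2.2 := by
    rw [Finset.sum_product]
    have : (D.QuadF.card : ℝ) = ∑ K ∈ D.QuadF, (1 : ℝ) := by simp
    rw [this]
    refine Finset.sum_le_sum fun K hK => ?_
    rw [Fin.sum_univ_four]
    exact hquad K _ _ _ _ (hq K hK)
  refine h1.trans ?_
  refine sum_le_of_inj (D.QuadF ×ˢ (Finset.univ : Finset (Fin 4))) _ e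
    (fun z => φ z.1 z.2.1 z.2.2) (fun z _ => hφ _ _ _) ?_ ?_
  · rintro ⟨K, s⟩ hp
    have hK := (Finset.mem_product.1 hp).1
    have hKc : K.card + 2 = n := (hq K hK).card
    obtain ⟨a1, a2, a3, a4, a5, a6⟩ := hside K hK s
    obtain ⟨b1, b2, b3, -⟩ := D.side_mem hKc a1 a2 a3 a4 a5 a6
    rw [Finset.mem_sigma, Finset.mem_sigma]
    exact ⟨b1, b2, b3⟩
  · rintro ⟨K, s⟩ hp ⟨K', s'⟩ hp' h
    have hK := (Finset.mem_product.1 (Finset.mem_coe.1 hp)).1
    have hK' := (Finset.mem_product.1 (Finset.mem_coe.1 hp')).1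
    obtain ⟨a1, a2, a3, a4, a5, a6⟩ := hside K hK s
    obtain ⟨-, -, -, b4⟩ := D.side_mem (hq K hK).card a1 a2 a3 a4 a5 a6
    obtain ⟨a1', a2', a3', a4', a5', a6'⟩ := hside K' hK' s'
    obtain ⟨-, -, -, b4'⟩ := D.side_mem (hq K' hK').card a1' a2' a3' a4' a5' a6'
    simp only [e, Sigma.mk.injEq, heq_eq_eq] at h
    obtain ⟨hT, hx, hP⟩ := h
    have hKK : K = K' := by rw [← b4, ← b4', hT, hx, hP]
    subst hKK
    have hss : s = s' := by
      by_contra hne
      have hh := hq K hK
      have d01 := hh.ii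
      have d02 := hh.lij.2.2.1
      have d03 := hh.lij'.2.2.1
      have d12 := hh.li'j.2.2.1
      have d13 := hh.li'j'.2.2.1
      have d23 := hh.jj
      change q K s = q K s' at hx
      fin_cases s <;> fin_cases s' <;>
        first
        | exact hne rfl
        | exact d01 hx | exact d01 hx.symm | exact d02 hx | exact d02 hx.symm
        | exact d03 hx | exact d03 hx.symm | exact d12 hx | exact d12 hx.symm
        | exact d13 hx | exact d13 hx.symm | exact d23 hx | exact d23 hx.symm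
    rw [hss]

/-- **The accounting theorem.** -/
theorem accounting (hn : 2 ≤ n) (κ : ℝ) (hκ : 0 ≤ κ)
    (φ : Finset D.ι → D.ι → Finset D.ι → ℝ) (hφ : ∀ T i P, 0 ≤ φ T i P)
    (hquad : ∀ (K : Finset D.ι) (i i' j j' : D.ι), D.Quad0 K i i' j j' →
      1 ≤ φ (insert i (insert j (insert j' K))) i {j, j'} +
        φ (insert i' (insert j (insert j' K))) i' {j, j'} +
        φ (insert j (insert i (insert i' K))) j {i, i'} +
        φ (insert j' (insert i (insert i' K))) j' {i, i'})
    (hT : ∀ T ∈ Tsets D.g n, ∑ P ∈ (Rset D.g T).powersetCard 3, D.tri P +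
      ∑ i ∈ T \ Rset D.g T, ∑ P ∈ freePairs D.g T i, φ T i P ≤
        κ * (((Rset D.g T).card : ℝ) * ((Rset D.g T).card - 1))) :
    ∑ K ∈ Faces2 D.g n, max (5 - (kF D.g n K : ℝ)) 0 ≤
      ((n : ℝ) - 1 + κ * n) * (Verts D.g n).card := by
  classical
  -- choices
  have hch : ∀ K : Finset D.ι, ∃ P : Finset D.ι, K ∈ D.TriF →
      ∃ a b c, P = {a, b, c} ∧ D.Lk K a b ∧ D.Lk K a c ∧ D.Lk K b c := by
    intro K
    by_cases hK : K ∈ D.TriF
    · obtain ⟨hK1, hK2⟩ := Finset.mem_filter.1 hK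
      obtain ⟨a, b, c, h⟩ := (D.face_struct hK1).1 hK2
      exact ⟨{a, b, c}, fun _ => ⟨a, b, c, rfl, h⟩⟩
    · exact ⟨∅, fun h => absurd h hK⟩
  choose P hP using hch
  have hq : ∀ K : Finset D.ι, ∃ q : Fin 4 → D.ι, K ∈ D.QuadF →
      D.Quad0 K (q 0) (q 1) (q 2) (q 3) := by
    intro K
    by_cases hK : K ∈ D.QuadF
    · obtain ⟨hK1, hK2, hK3⟩ := Finset.mem_filter.1 hK
      obtain ⟨i, i', j, j', h1, h2, h3, h4, h5, h6, h7, h8⟩ := (D.face_struct hK1).2.1 hK2
      refine ⟨![i, i', j, j'], fun _ => ?_⟩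
      have hKc := (mem_Faces2.1 hK1).1
      have hz : ∀ a b, D.Lk K a b → D.g a b = 0 := by
        intro a b hab
        by_contra hne
        unfold corn at hK3
        rw [Finset.card_eq_zero] at hK3
        have hmem : insert a (insert b K) ∈ (Verts D.g n).filter
            (fun v => K ⊆ v ∧ AdjP D.g (v \ K)) := by
          rw [Finset.mem_filter, mem_Verts]
          refine ⟨⟨hab.2.2.2, ?_⟩, ?_, a, ?_, b, ?_, hab.2.2.1, hne⟩
          · rw [Finset.card_insert_of_notMem, Finset.card_insert_of_notMem hab.2.1]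
            · omega
            · simp [hab.2.2.1, hab.1]
          · intro z hz; simp [hz]
          · simp [hab.1]
          · simp [hab.2.1]
        rw [hK3] at hmem
        exact absurd hmem (Finset.notMem_empty _)
      exact ⟨hKc, h1, h2, h3, h4, h5, h6, h7, h8, hz _ _ h3, hz _ _ h4, hz _ _ h5, hz _ _ h6⟩
    · by_cases hne : Nonempty D.ι
      · exact ⟨fun _ => hne.some, fun h => absurd h hK⟩
      · exfalso
        apply hne
        obtain ⟨v, hv⟩ := D.verts_nonempty
        have hvc := (mem_Verts.1 hv).2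
        have : 0 < v.card := by omega
        exact ⟨(Finset.card_pos.1 this).choose⟩
  choose q hq using hq
  have h1 := D.sum_tri_le P hP
  have h2 := D.sum_quad_le φ hφ q hq hquad
  have h3 := D.sum_blocks
  have h4 := D.sum_corn hn
  have h5 : (∑ v ∈ Verts D.g n, (eN D.g v : ℝ)) ≤ ((n : ℝ) - 1) * (Verts D.g n).card := by
    calc ∑ v ∈ Verts D.g n, (eN D.g v : ℝ) ≤ ∑ v ∈ Verts D.g n, ((n : ℝ) - 1) := by
          refine Finset.sum_le_sum fun v hv => ?_
          obtain ⟨hv1, hv2⟩ := mem_Verts.1 hv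
          have hne : v.Nonempty := Finset.card_pos.1 (by omega)
          have := D.eN_lt hv1 hne
          rw [hv2] at this
          have h6 : ((eN D.g v + 1 : ℕ) : ℝ) ≤ (n : ℝ) := by exact_mod_cast this
          push_cast at h6; linarith
      _ = ((n : ℝ) - 1) * (Verts D.g n).card := by
          rw [Finset.sum_const, nsmul_eq_mul, mul_comm]
  have h4' : ∑ K ∈ Faces2 D.g n, (D.corn K : ℝ) = ∑ v ∈ Verts D.g n, (eN D.g v : ℝ) := by
    exact_mod_cast h4
  -- pointwise
  have h6 : ∀ K ∈ Faces2 D.g n, max (5 - (kF D.g n K : ℝ)) 0 ≤ (D.corn K : ℝ) +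
      (if kF D.g n K = 3 then D.tri (P K) else 0) +
      (if kF D.g n K = 4 ∧ D.corn K = 0 then (1 : ℝ) else 0) := by
    intro K hK
    have hcn : (0 : ℝ) ≤ D.corn K := Nat.cast_nonneg _
    have hge := (D.face_struct hK).2.2
    have hKc := (mem_Faces2.1 hK).1
    by_cases hk3 : kF D.g n K = 3
    · have hTri : K ∈ D.TriF := Finset.mem_filter.2 ⟨hK, hk3⟩
      obtain ⟨a, b, c, hPK, l1, l2, l3⟩ := hP K hTri
      have h7 := D.eN_triple hKc l1 l2 l3
      have h8 := D.le_tri (P K)
      rw [hPK] at h8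
      have h9 : (eN D.g {a, b, c} : ℝ) ≤ D.corn K := by exact_mod_cast h7
      rw [if_pos hk3, hPK, if_neg (by omega), hk3]
      rw [max_eq_left (by norm_num)]
      push_cast
      linarith
    · rw [if_neg hk3]
      by_cases hk4 : kF D.g n K = 4
      · by_cases hc0 : D.corn K = 0
        · rw [if_pos ⟨hk4, hc0⟩, hk4, max_eq_left (by norm_num)]
          push_cast; linarith
        · rw [if_neg (fun h => hc0 h.2), hk4, max_eq_left (by norm_num)]
          have : 1 ≤ D.corn K := Nat.one_le_iff_ne_zero.2 hc0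
          have : (1 : ℝ) ≤ D.corn K := by exact_mod_cast this
          push_cast; linarith
      · rw [if_neg (fun h => hk4 h.1)]
        have h5 : 5 ≤ kF D.g n K := by omega
        have h5' : (5 : ℝ) ≤ kF D.g n K := by exact_mod_cast h5
        rw [max_eq_right (by linarith)]
        linarith
  have h7 := Finset.sum_le_sum h6
  rw [Finset.sum_add_distrib, Finset.sum_add_distrib, ← Finset.sum_filter, ← Finset.sum_filter,
    Finset.sum_const, nsmul_eq_mul, mul_one] at h7
  have h8 : ∑ T ∈ Tsets D.g n, (∑ P ∈ (Rset D.g T).powersetCard 3, D.tri P +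
      ∑ i ∈ T \ Rset D.g T, ∑ P ∈ freePairs D.g T i, φ T i P) ≤
      κ * (n * (Verts D.g n).card) := by
    calc _ ≤ ∑ T ∈ Tsets D.g n, κ * (((Rset D.g T).card : ℝ) * ((Rset D.g T).card - 1)) :=
          Finset.sum_le_sum hT
      _ = κ * ∑ T ∈ Tsets D.g n, (((Rset D.g T).card : ℝ) * ((Rset D.g T).card - 1)) := by
          rw [Finset.mul_sum]
      _ ≤ _ := mul_le_mul_of_nonneg_left h3 hκ
  rw [Finset.sum_add_distrib] at h8
  have h9 : ∑ a ∈ (Faces2 D.g n).filter (fun K => kF D.g n K = 3), D.tri (P a) ≤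
      ∑ T ∈ Tsets D.g n, ∑ P ∈ (Rset D.g T).powersetCard 3, D.tri P := h1
  have h10 : (((Faces2 D.g n).filter (fun K => kF D.g n K = 4 ∧ D.corn K = 0)).card : ℝ) ≤
      ∑ T ∈ Tsets D.g n, ∑ i ∈ T \ Rset D.g T, ∑ P ∈ freePairs D.g T i, φ T i P := h2
  nlinarith

/-- **Numerics**: with `κ` the dimension satisfies `n (n - 6) ≤ 8 (n - 1 + κ n)`. -/
theorem dim_bound (hn : 2 ≤ n) (κ : ℝ) (hκ : 0 ≤ κ)
    (φ : Finset D.ι → D.ι → Finset D.ι → ℝ) (hφ : ∀ T i P, 0 ≤ φ T i P)
    (hquad : ∀ (K : Finset D.ι) (i i' j j' : D.ι), D.Quad0 K i i' j j' →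
      1 ≤ φ (insert i (insert j (insert j' K))) i {j, j'} +
        φ (insert i' (insert j (insert j' K))) i' {j, j'} +
        φ (insert j (insert i (insert i' K))) j {i, i'} +
        φ (insert j' (insert i (insert i' K))) j' {i, i'})
    (hT : ∀ T ∈ Tsets D.g n, ∑ P ∈ (Rset D.g T).powersetCard 3, D.tri P +
      ∑ i ∈ T \ Rset D.g T, ∑ P ∈ freePairs D.g T i, φ T i P ≤
        κ * (((Rset D.g T).card : ℝ) * ((Rset D.g T).card - 1))) :
    (n : ℝ) * (n - 6) ≤ 8 * (n - 1 + κ * n) := by
  have h1 := D.accounting hn κ hκ φ hφ hquad hT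
  have h2 := D.count
  have hpos : (0 : ℝ) < (Verts D.g n).card := by
    exact_mod_cast Finset.card_pos.2 D.verts_nonempty
  have h3 : (n : ℝ) * (n - 6) * (Verts D.g n).card ≤
      8 * (((n : ℝ) - 1 + κ * n) * (Verts D.g n).card) := h2.trans (by linarith)
  have h4 : ((n : ℝ) * (n - 6)) * (Verts D.g n).card ≤
      (8 * ((n : ℝ) - 1 + κ * n)) * (Verts D.g n).card := by linarith
  exact le_of_mul_le_mul_right h4 hpos

end CoxData

end MP345
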