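import Mathlib
import Pool.Agent.Work.MP_345ef2_gt.Account2

/-!
# The accounting theorem with additional corner payments
-/

namespace MP345

open Finset

variable {n : ℕ}

namespace CoxData

variable (D : CoxData n)

/-- the accounting theorem, general form -/
theorem accounting_core (hn : 2 ≤ n) (κ : ℝ) (hκ : 0 ≤ κ) (B : ℝ)
    (φ : Finset D.ι → D.ι → Finset D.ι → ℝ)
    (hB : ∀ q : Finset D.ι → Fin 4 → D.ι,
      (∀ K ∈ D.QuadF, D.Quad0 K (q K 0) (q K 1) (q K 2) (q K 3)) →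
      (D.QuadF.card : ℝ) ≤ B + ∑ T ∈ Tsets D.g n, ∑ i ∈ T \ Rset D.g T,
        ∑ P ∈ freePairs D.g T i, φ T i P)
    (hT : ∀ T ∈ Tsets D.g n, ∑ P ∈ (Rset D.g T).powersetCard 3, D.tri P +
      ∑ i ∈ T \ Rset D.g T, ∑ P ∈ freePairs D.g T i, φ T i P ≤
        κ * (((Rset D.g T).card : ℝ) * ((Rset D.g T).card - 1))) :
    ∑ K ∈ Faces2 D.g n, max (5 - (kF D.g n K : ℝ)) 0 ≤
      ((n : ℝ) - 1 + κ * n) * (Verts D.g n).card + B := by
  classical
  -- choices
  have hch : ∀ K : Finset D.ι, ∃ P : Finset D.ι, K ∈ D.TriF →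
      ∃ a b c, P = {a, b, c} ∧ D.Lk K a b ∧ D.Lk K a c ∧ D.Lk K b c := by
    intro K
    by_cases hK : K ∈ D.TriF
    · obtain ⟨hK1, hK2⟩ := Finset.mem_filter.1 hK
      obtain ⟨a, b, c, h⟩ := (D.face_struct hK1).1 hK2
      exact ⟨{a, b, c}, fun _ => ⟨a, b, c, rfl, h⟩⟩
    · exact ⟨∅, fun h => absurd h hK⟩
  choose P hP using hch
  have hq : ∀ K : Finset D.ι, ∃ q : Fin 4 → D.ι, K ∈ D.QuadF →
      D.Quad0 K (q 0) (q 1) (q 2) (q 3) := by
    intro K
    by_cases hK : K ∈ D.QuadF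
    · obtain ⟨hK1, hK2, hK3⟩ := Finset.mem_filter.1 hK
      obtain ⟨i, i', j, j', h1, h2, h3, h4, h5, h6, h7, h8⟩ := (D.face_struct hK1).2.1 hK2
      refine ⟨![i, i', j, j'], fun _ => ?_⟩
      have hKc := (mem_Faces2.1 hK1).1
      have hz : ∀ a b, D.Lk K a b → D.g a b = 0 := by
        intro a b hab
        by_contra hne
        unfold corn at hK3
        rw [Finset.card_eq_zero] at hK3
        have hmem : insert a (insert b K) ∈ (Verts D.g n).filter
            (fun v => K ⊆ v ∧ AdjP D.g (v \ K)) := by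
          rw [Finset.mem_filter, mem_Verts]
          refine ⟨⟨hab.2.2.2, ?_⟩, ?_, a, ?_, b, ?_, hab.2.2.1, hne⟩
          · rw [Finset.card_insert_of_notMem, Finset.card_insert_of_notMem hab.2.1]
            · omega
            · simp [hab.2.2.1, hab.1]
          · intro z hz; simp [hz]
          · simp [hab.1]
          · simp [hab.2.1]
        rw [hK3] at hmem
        exact absurd hmem (Finset.notMem_empty _)
      exact ⟨hKc, h1, h2, h3, h4, h5, h6, h7, h8, hz _ _ h3, hz _ _ h4, hz _ _ h5, hz _ _ h6⟩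
    · by_cases hne : Nonempty D.ι
      · exact ⟨fun _ => hne.some, fun h => absurd h hK⟩
      · exfalso
        apply hne
        obtain ⟨v, hv⟩ := D.verts_nonempty
        have hvc := (mem_Verts.1 hv).2
        have : 0 < v.card := by omega
        exact ⟨(Finset.card_pos.1 this).choose⟩
  choose q hq using hq
  have h1 := D.sum_tri_le P hP
  have h2 := hB q hq
  have h3 := D.sum_blocks
  have h4 := D.sum_corn hn
  have h5 : (∑ v ∈ Verts D.g n, (eN D.g v : ℝ)) ≤ ((n : ℝ) - 1) * (Verts D.g n).card := by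
    calc ∑ v ∈ Verts D.g n, (eN D.g v : ℝ) ≤ ∑ v ∈ Verts D.g n, ((n : ℝ) - 1) := by
          refine Finset.sum_le_sum fun v hv => ?_
          obtain ⟨hv1, hv2⟩ := mem_Verts.1 hv
          have hne : v.Nonempty := Finset.card_pos.1 (by omega)
          have := D.eN_lt hv1 hne
          rw [hv2] at this
          have h6 : ((eN D.g v + 1 : ℕ) : ℝ) ≤ (n : ℝ) := by exact_mod_cast this
          push_cast at h6; linarith
      _ = ((n : ℝ) - 1) * (Verts D.g n).card := by
          rw [Finset.sum_const, nsmul_eq_mul, mul_comm]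
  have h4' : ∑ K ∈ Faces2 D.g n, (D.corn K : ℝ) = ∑ v ∈ Verts D.g n, (eN D.g v : ℝ) := by
    exact_mod_cast h4
  -- pointwise
  have h6 : ∀ K ∈ Faces2 D.g n, max (5 - (kF D.g n K : ℝ)) 0 ≤ (D.corn K : ℝ) +
      (if kF D.g n K = 3 then D.tri (P K) else 0) +
      (if kF D.g n K = 4 ∧ D.corn K = 0 then (1 : ℝ) else 0) := by
    intro K hK
    have hcn : (0 : ℝ) ≤ D.corn K := Nat.cast_nonneg _
    have hge := (D.face_struct hK).2.2
    have hKc := (mem_Faces2.1 hK).1
    by_cases hk3 : kF D.g n K = 3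
    · have hTri : K ∈ D.TriF := Finset.mem_filter.2 ⟨hK, hk3⟩
      obtain ⟨a, b, c, hPK, l1, l2, l3⟩ := hP K hTri
      have h7 := D.eN_triple hKc l1 l2 l3
      have h8 := D.le_tri (P K)
      rw [hPK] at h8
      have h9 : (eN D.g {a, b, c} : ℝ) ≤ D.corn K := by exact_mod_cast h7
      rw [if_pos hk3, hPK, if_neg (by omega), hk3]
      rw [max_eq_left (by norm_num)]
      push_cast
      linarith
    · rw [if_neg hk3]
      by_cases hk4 : kF D.g n K = 4
      · by_cases hc0 : D.corn K = 0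
        · rw [if_pos ⟨hk4, hc0⟩, hk4, max_eq_left (by norm_num)]
          push_cast; linarith
        · rw [if_neg (fun h => hc0 h.2), hk4, max_eq_left (by norm_num)]
          have : 1 ≤ D.corn K := Nat.one_le_iff_ne_zero.2 hc0
          have : (1 : ℝ) ≤ D.corn K := by exact_mod_cast this
          push_cast; linarith
      · rw [if_neg (fun h => hk4 h.1)]
        have h5 : 5 ≤ kF D.g n K := by omega
        have h5' : (5 : ℝ) ≤ kF D.g n K := by exact_mod_cast h5
        rw [max_eq_right (by linarith)]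
        linarith
  have h7 := Finset.sum_le_sum h6
  rw [Finset.sum_add_distrib, Finset.sum_add_distrib, ← Finset.sum_filter, ← Finset.sum_filter,
    Finset.sum_const, nsmul_eq_mul, mul_one] at h7
  have h8 : ∑ T ∈ Tsets D.g n, (∑ P ∈ (Rset D.g T).powersetCard 3, D.tri P +
      ∑ i ∈ T \ Rset D.g T, ∑ P ∈ freePairs D.g T i, φ T i P) ≤
      κ * (n * (Verts D.g n).card) := by
    calc _ ≤ ∑ T ∈ Tsets D.g n, κ * (((Rset D.g T).card : ℝ) * ((Rset D.g T).card - 1)) :=
          Finset.sum_le_sum hT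
      _ = κ * ∑ T ∈ Tsets D.g n, (((Rset D.g T).card : ℝ) * ((Rset D.g T).card - 1)) := by
          rw [Finset.mul_sum]
      _ ≤ _ := mul_le_mul_of_nonneg_left h3 hκ
  rw [Finset.sum_add_distrib] at h8
  have h9 : ∑ a ∈ (Faces2 D.g n).filter (fun K => kF D.g n K = 3), D.tri (P a) ≤
      ∑ T ∈ Tsets D.g n, ∑ P ∈ (Rset D.g T).powersetCard 3, D.tri P := h1
  have h10 : (((Faces2 D.g n).filter (fun K => kF D.g n K = 4 ∧ D.corn K = 0)).card : ℝ) ≤
      B + ∑ T ∈ Tsets D.g n, ∑ i ∈ T \ Rset D.g T, ∑ P ∈ freePairs D.g T i, φ T i P := h2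
  nlinarith


/-- the sum of the side payments of the quadrangles -/
theorem sum_quad_gen (φ : Finset D.ι → D.ι → Finset D.ι → ℝ) (hφ : ∀ T i P, 0 ≤ φ T i P)
    (q : Finset D.ι → Fin 4 → D.ι)
    (hq : ∀ K ∈ D.QuadF, D.Quad0 K (q K 0) (q K 1) (q K 2) (q K 3)) :
    ∑ K ∈ D.QuadF, (φ (insert (q K 0) (insert (q K 2) (insert (q K 3) K))) (q K 0)
          {q K 2, q K 3} +
        φ (insert (q K 1) (insert (q K 2) (insert (q K 3) K))) (q K 1) {q K 2, q K 3} +
        φ (insert (q K 2) (insert (q K 0) (insert (q K 1) K))) (q K 2) {q K 0, q K 1} +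
        φ (insert (q K 3) (insert (q K 0) (insert (q K 1) K))) (q K 3) {q K 0, q K 1}) ≤
      ∑ T ∈ Tsets D.g n, ∑ i ∈ T \ Rset D.g T,
      ∑ P ∈ freePairs D.g T i, φ T i P := by
  classical
  have hsig : ∑ T ∈ Tsets D.g n, ∑ i ∈ T \ Rset D.g T, ∑ P ∈ freePairs D.g T i, φ T i P =
      ∑ x ∈ (Tsets D.g n).sigma (fun T => (T \ Rset D.g T).sigma fun i => freePairs D.g T i),
        φ x.1 x.2.1 x.2.2 := by
    rw [Finset.sum_sigma]
    refine Finset.sum_congr rfl fun T _ => ?_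
    rw [Finset.sum_sigma]
  rw [hsig]
  -- the four sides
  let x : Finset D.ι → Fin 4 → D.ι := q
  let y : Finset D.ι → Fin 4 → D.ι := fun K s => if s = 0 ∨ s = 1 then q K 2 else q K 0
  let y' : Finset D.ι → Fin 4 → D.ι := fun K s => if s = 0 ∨ s = 1 then q K 3 else q K 1
  let e : Finset D.ι × Fin 4 → (_ : Finset D.ι) × (_ : D.ι) × Finset D.ι := fun p =>
    ⟨insert (x p.1 p.2) (insert (y p.1 p.2) (insert (y' p.1 p.2) p.1)), x p.1 p.2,
      {y p.1 p.2, y' p.1 p.2}⟩
  have hside : ∀ K ∈ D.QuadF, ∀ s : Fin 4, D.Lk K (x K s) (y K s) ∧ D.Lk K (x K s) (y' K s) ∧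
      y K s ≠ y' K s ∧ ¬ PD D.g (insert (y K s) (insert (y' K s) K)) ∧ D.g (x K s) (y K s) = 0 ∧
      D.g (x K s) (y' K s) = 0 := by
    intro K hK s
    have h := hq K hK
    have h' := h.swap D
    fin_cases s
    · exact ⟨h.lij, h.lij', h.jj, h.njj, h.zij, h.zij'⟩
    · exact ⟨h.li'j, h.li'j', h.jj, h.njj, h.zi'j, h.zi'j'⟩
    · exact ⟨h'.lij, h'.lij', h'.jj, h'.njj, h'.zij, h'.zij'⟩
    · exact ⟨h'.li'j, h'.li'j', h'.jj, h'.njj, h'.zi'j, h'.zi'j'⟩
  have h1 : ∑ K ∈ D.QuadF, (φ (insert (q K 0) (insert (q K 2) (insert (q K 3) K))) (q K 0)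
          {q K 2, q K 3} +
        φ (insert (q K 1) (insert (q K 2) (insert (q K 3) K))) (q K 1) {q K 2, q K 3} +
        φ (insert (q K 2) (insert (q K 0) (insert (q K 1) K))) (q K 2) {q K 0, q K 1} +
        φ (insert (q K 3) (insert (q K 0) (insert (q K 1) K))) (q K 3) {q K 0, q K 1}) =
      ∑ p ∈ D.QuadF ×ˢ (Finset.univ : Finset (Fin 4)),
      φ (e p).1 (e p).2.1 (e p).2.2 := by
    rw [Finset.sum_product]
    refine Finset.sum_congr rfl fun K hK => ?_
    rw [Fin.sum_univ_four]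
    rfl
  rw [h1]
  refine sum_le_of_inj (D.QuadF ×ˢ (Finset.univ : Finset (Fin 4))) _ e
    (fun z => φ z.1 z.2.1 z.2.2) (fun z _ => hφ _ _ _) ?_ ?_
  · rintro ⟨K, s⟩ hp
    have hK := (Finset.mem_product.1 hp).1
    have hKc : K.card + 2 = n := (hq K hK).card
    obtain ⟨a1, a2, a3, a4, a5, a6⟩ := hside K hK s
    obtain ⟨b1, b2, b3, -⟩ := D.side_mem hKc a1 a2 a3 a4 a5 a6
    rw [Finset.mem_sigma, Finset.mem_sigma]
    exact ⟨b1, b2, b3⟩
  · rintro ⟨K, s⟩ hp ⟨K', s'⟩ hp' h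
    have hK := (Finset.mem_product.1 (Finset.mem_coe.1 hp)).1
    have hK' := (Finset.mem_product.1 (Finset.mem_coe.1 hp')).1
    obtain ⟨a1, a2, a3, a4, a5, a6⟩ := hside K hK s
    obtain ⟨-, -, -, b4⟩ := D.side_mem (hq K hK).card a1 a2 a3 a4 a5 a6
    obtain ⟨a1', a2', a3', a4', a5', a6'⟩ := hside K' hK' s'
    obtain ⟨-, -, -, b4'⟩ := D.side_mem (hq K' hK').card a1' a2' a3' a4' a5' a6'
    simp only [e, Sigma.mk.injEq, heq_eq_eq] at h
    obtain ⟨hT, hx, hP⟩ := h
    have hKK : K = K' := by rw [← b4, ← b4', hT, hx, hP]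
    subst hKK
    have hss : s = s' := by
      by_contra hne
      have hh := hq K hK
      have d01 := hh.ii
      have d02 := hh.lij.2.2.1
      have d03 := hh.lij'.2.2.1
      have d12 := hh.li'j.2.2.1
      have d13 := hh.li'j'.2.2.1
      have d23 := hh.jj
      change q K s = q K s' at hx
      fin_cases s <;> fin_cases s' <;>
        first
        | exact hne rfl
        | exact d01 hx | exact d01 hx.symm | exact d02 hx | exact d02 hx.symm
        | exact d03 hx | exact d03 hx.symm | exact d12 hx | exact d12 hx.symm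
        | exact d13 hx | exact d13 hx.symm | exact d23 hx | exact d23 hx.symm
    rw [hss]


/-- the corner payments -/
theorem corner_sum_le (ω : Finset D.ι → Finset D.ι → ℝ) (hω : ∀ v P, 0 ≤ ω v P)
    (A : ℝ) (hv : ∀ v ∈ Verts D.g n, ∑ P ∈ v.powersetCard 2, ω v P ≤ A)
    (q : Finset D.ι → Fin 4 → D.ι)
    (hq : ∀ K ∈ D.QuadF, D.Quad0 K (q K 0) (q K 1) (q K 2) (q K 3)) :
    ∑ K ∈ D.QuadF, (ω (insert (q K 0) (insert (q K 2) K)) {q K 0, q K 2} +
        ω (insert (q K 0) (insert (q K 3) K)) {q K 0, q K 3} +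
        ω (insert (q K 1) (insert (q K 2) K)) {q K 1, q K 2} +
        ω (insert (q K 1) (insert (q K 3) K)) {q K 1, q K 3}) ≤
      A * (Verts D.g n).card := by
  classical
  let x : Finset D.ι → Fin 4 → D.ι := fun K s => if s = 0 ∨ s = 1 then q K 0 else q K 1
  let y : Finset D.ι → Fin 4 → D.ι := fun K s => if s = 0 ∨ s = 2 then q K 2 else q K 3
  let e : Finset D.ι × Fin 4 → (_ : Finset D.ι) × Finset D.ι := fun p =>
    ⟨insert (x p.1 p.2) (insert (y p.1 p.2) p.1), {x p.1 p.2, y p.1 p.2}⟩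
  have hlk : ∀ K ∈ D.QuadF, ∀ s : Fin 4, D.Lk K (x K s) (y K s) := by
    intro K hK s
    have h := hq K hK
    fin_cases s
    · exact h.lij
    · exact h.lij'
    · exact h.li'j
    · exact h.li'j'
  have h1 : ∑ K ∈ D.QuadF, (ω (insert (q K 0) (insert (q K 2) K)) {q K 0, q K 2} +
        ω (insert (q K 0) (insert (q K 3) K)) {q K 0, q K 3} +
        ω (insert (q K 1) (insert (q K 2) K)) {q K 1, q K 2} +
        ω (insert (q K 1) (insert (q K 3) K)) {q K 1, q K 3}) =
      ∑ p ∈ D.QuadF ×ˢ (Finset.univ : Finset (Fin 4)), ω (e p).1 (e p).2 := by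
    rw [Finset.sum_product]
    refine Finset.sum_congr rfl fun K hK => ?_
    rw [Fin.sum_univ_four]
    rfl
  have h2 : ∑ v ∈ Verts D.g n, ∑ P ∈ v.powersetCard 2, ω v P ≤ A * (Verts D.g n).card := by
    calc _ ≤ ∑ v ∈ Verts D.g n, A := Finset.sum_le_sum hv
      _ = _ := by rw [Finset.sum_const, nsmul_eq_mul, mul_comm]
  rw [h1]
  refine le_trans ?_ h2
  rw [← Finset.sum_sigma (Verts D.g n) (fun v => v.powersetCard 2) (fun z => ω z.1 z.2)]
  refine sum_le_of_inj (D.QuadF ×ˢ (Finset.univ : Finset (Fin 4))) _ e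
    (fun z => ω z.1 z.2) (fun z _ => hω _ _) ?_ ?_
  · rintro ⟨K, s⟩ hp
    have hK := (Finset.mem_product.1 hp).1
    have hKc : K.card + 2 = n := (hq K hK).card
    obtain ⟨a1, a2, a3, a4⟩ := hlk K hK s
    rw [Finset.mem_sigma, mem_Verts, Finset.mem_powersetCard]
    refine ⟨⟨a4, ?_⟩, ?_, Finset.card_pair a3⟩
    · change (insert (x K s) (insert (y K s) K)).card = n
      rw [Finset.card_insert_of_notMem, Finset.card_insert_of_notMem a2]
      · omega
      · simp [a3, a1]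
    · change ({x K s, y K s} : Finset D.ι) ⊆ insert (x K s) (insert (y K s) K)
      intro z hz
      simp only [Finset.mem_insert, Finset.mem_singleton] at hz ⊢
      rcases hz with rfl | rfl
      · exact Or.inl rfl
      · exact Or.inr (Or.inl rfl)
  · rintro ⟨K, s⟩ hp ⟨K', s'⟩ hp' h
    have hK := (Finset.mem_product.1 (Finset.mem_coe.1 hp)).1
    have hK' := (Finset.mem_product.1 (Finset.mem_coe.1 hp')).1
    have hd : ∀ K ∈ D.QuadF, ∀ s : Fin 4,
        insert (x K s) (insert (y K s) K) \ {x K s, y K s} = K := by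
      intro K hK s
      obtain ⟨a1, a2, a3, a4⟩ := hlk K hK s
      ext z
      simp only [Finset.mem_sdiff, Finset.mem_insert, Finset.mem_singleton, not_or]
      constructor
      · rintro ⟨h | h | h, h'⟩
        · exact absurd h h'.1
        · exact absurd h h'.2
        · exact h
      · intro h
        exact ⟨Or.inr (Or.inr h), fun e => a1 (e ▸ h), fun e => a2 (e ▸ h)⟩
    simp only [e, Sigma.mk.injEq, heq_eq_eq] at h
    obtain ⟨hv', hP⟩ := h
    have hKK : K = K' := by rw [← hd K hK s, ← hd K' hK' s', hv', hP]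
    subst hKK
    have hss : s = s' := by
      by_contra hne
      have hh := hq K hK
      have d01 := hh.ii
      have d02 := hh.lij.2.2.1
      have d03 := hh.lij'.2.2.1
      have d12 := hh.li'j.2.2.1
      have d13 := hh.li'j'.2.2.1
      have d23 := hh.jj
      have e01 := Ne.symm d01
      have e02 := Ne.symm d02
      have e03 := Ne.symm d03
      have e12 := Ne.symm d12
      have e13 := Ne.symm d13
      have e23 := Ne.symm d23
      rw [pair_eq] at hP
      fin_cases s <;> fin_cases s' <;> simp [x, y] at hP hne <;> tauto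
    rw [hss]

/-- **The accounting theorem with corner payments.** -/
theorem accounting2 (hn : 2 ≤ n) (κ : ℝ) (hκ : 0 ≤ κ) (A : ℝ)
    (ω : Finset D.ι → Finset D.ι → ℝ) (hω : ∀ v P, 0 ≤ ω v P)
    (hv : ∀ v ∈ Verts D.g n, ∑ P ∈ v.powersetCard 2, ω v P ≤ A)
    (φ : Finset D.ι → D.ι → Finset D.ι → ℝ) (hφ : ∀ T i P, 0 ≤ φ T i P)
    (hquad : ∀ (K : Finset D.ι) (i i' j j' : D.ι), D.Quad0 K i i' j j' →
      1 ≤ (ω (insert i (insert j K)) {i, j} + ω (insert i (insert j' K)) {i, j'} +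
        ω (insert i' (insert j K)) {i', j} + ω (insert i' (insert j' K)) {i', j'}) +
        (φ (insert i (insert j (insert j' K))) i {j, j'} +
        φ (insert i' (insert j (insert j' K))) i' {j, j'} +
        φ (insert j (insert i (insert i' K))) j {i, i'} +
        φ (insert j' (insert i (insert i' K))) j' {i, i'}))
    (hT : ∀ T ∈ Tsets D.g n, ∑ P ∈ (Rset D.g T).powersetCard 3, D.tri P +
      ∑ i ∈ T \ Rset D.g T, ∑ P ∈ freePairs D.g T i, φ T i P ≤
        κ * (((Rset D.g T).card : ℝ) * ((Rset D.g T).card - 1))) :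
    ∑ K ∈ Faces2 D.g n, max (5 - (kF D.g n K : ℝ)) 0 ≤
      ((n : ℝ) - 1 + A + κ * n) * (Verts D.g n).card := by
  classical
  have h := D.accounting_core hn κ hκ (A * (Verts D.g n).card) φ (fun q hq => ?_) hT
  · linarith
  · have hs := D.corner_sum_le ω hω A hv q hq
    have ht := D.sum_quad_gen φ hφ q hq
    have h1 : (D.QuadF.card : ℝ) = ∑ K ∈ D.QuadF, (1 : ℝ) := by simp
    rw [h1]
    refine (Finset.sum_le_sum fun K hK => hquad K _ _ _ _ (hq K hK)).trans ?_
    rw [Finset.sum_add_distrib]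
    exact add_le_add hs ht

/-- **Numerics** -/
theorem dim_bound2 (hn : 2 ≤ n) (κ : ℝ) (hκ : 0 ≤ κ) (A : ℝ)
    (ω : Finset D.ι → Finset D.ι → ℝ) (hω : ∀ v P, 0 ≤ ω v P)
    (hv : ∀ v ∈ Verts D.g n, ∑ P ∈ v.powersetCard 2, ω v P ≤ A)
    (φ : Finset D.ι → D.ι → Finset D.ι → ℝ) (hφ : ∀ T i P, 0 ≤ φ T i P)
    (hquad : ∀ (K : Finset D.ι) (i i' j j' : D.ι), D.Quad0 K i i' j j' →
      1 ≤ (ω (insert i (insert j K)) {i, j} + ω (insert i (insert j' K)) {i, j'} +
        ω (insert i' (insert j K)) {i', j} + ω (insert i' (insert j' K)) {i', j'}) +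
        (φ (insert i (insert j (insert j' K))) i {j, j'} +
        φ (insert i' (insert j (insert j' K))) i' {j, j'} +
        φ (insert j (insert i (insert i' K))) j {i, i'} +
        φ (insert j' (insert i (insert i' K))) j' {i, i'}))
    (hT : ∀ T ∈ Tsets D.g n, ∑ P ∈ (Rset D.g T).powersetCard 3, D.tri P +
      ∑ i ∈ T \ Rset D.g T, ∑ P ∈ freePairs D.g T i, φ T i P ≤
        κ * (((Rset D.g T).card : ℝ) * ((Rset D.g T).card - 1))) :
    (n : ℝ) * (n - 6) ≤ 8 * (n - 1 + A + κ * n) := by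
  have h1 := D.accounting2 hn κ hκ A ω hω hv φ hφ hquad hT
  have h2 := D.count
  have hpos : (0 : ℝ) < (Verts D.g n).card := by
    exact_mod_cast Finset.card_pos.2 D.verts_nonempty
  have h4 : ((n : ℝ) * (n - 6)) * (Verts D.g n).card ≤
      (8 * ((n : ℝ) - 1 + A + κ * n)) * (Verts D.g n).card := by linarith
  exact le_of_mul_le_mul_right h4 hpos

end CoxData

end MP345
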