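import Mathlib
import Pool.Agent.Work.MP_345ef2_gt.Count

/-!
# The strict form of Nikulin's estimate
-/

namespace MP345

open Finset

variable {n : ℕ}

theorem choose_int (a : ℕ) : ((a.choose 2 : ℕ) : ℤ) * 2 = a * (a - 1) := by
  have := Nat.choose_two_right a
  have h5 : a.choose 2 * 2 = a * (a - 1) := by
    rw [this]; exact Nat.div_mul_cancel (Nat.even_mul_pred_self a).two_dvd
  rcases Nat.eq_zero_or_pos a with h0 | h0
  · rw [h0]; simp
  · have h6 : ((a.choose 2 * 2 : ℕ) : ℤ) = ((a * (a - 1) : ℕ) : ℤ) := by rw [h5]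
    push_cast [Nat.cast_sub h0] at h6
    linarith

theorem num_le {n a b : ℕ} (hn : 2 ≤ n) (hc : n ≤ a + b) :
    n * (n - 2) ≤ 4 * (a.choose 2) + 4 * (b.choose 2) := by
  have ha := choose_int a
  have hb := choose_int b
  have hn2 : ((n - 2 : ℕ) : ℤ) = n - 2 := by push_cast [Nat.cast_sub hn]; ring
  have hgoal : ((n * (n - 2) : ℕ) : ℤ) ≤ ((4 * a.choose 2 + 4 * b.choose 2 : ℕ) : ℤ) := by
    push_cast
    rw [hn2]
    have hc' : (n : ℤ) ≤ a + b := by exact_mod_cast hc
    have hn' : (2 : ℤ) ≤ n := by exact_mod_cast hn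
    nlinarith [sq_nonneg ((a : ℤ) - b), mul_nonneg (sub_nonneg.2 hc')
      (show (0 : ℤ) ≤ a + b + n - 2 by linarith)]
  exact_mod_cast hgoal

theorem num_lt {n b : ℕ} (hn : 2 ≤ n) (hc : n ≤ b) :
    n * (n - 2) < 4 * ((0 : ℕ).choose 2) + 4 * (b.choose 2) := by
  have hb := choose_int b
  have hn2 : ((n - 2 : ℕ) : ℤ) = n - 2 := by push_cast [Nat.cast_sub hn]; ring
  have hgoal : ((n * (n - 2) : ℕ) : ℤ) < ((4 * (0 : ℕ).choose 2 + 4 * b.choose 2 : ℕ) : ℤ) := by
    push_cast
    rw [hn2]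
    have hc' : (n : ℤ) ≤ b := by exact_mod_cast hc
    have hn' : (2 : ℤ) ≤ n := by exact_mod_cast hn
    have h1 : (n : ℤ) * (n - 1) ≤ b * (b - 1) := by nlinarith
    simp only [Nat.choose_zero_succ, Nat.cast_zero, mul_zero, zero_add]
    nlinarith
  exact_mod_cast hgoal

namespace Cone

variable (C : Cone n)

theorem two_faces_lt (hn : 2 ≤ n) :
    n * (n - 2) * (Verts C.g n).card < 8 * (Faces2 C.g n).card := by
  classical
  obtain ⟨h, hgen⟩ := C.exists_generic
  have h1 := C.card_up_pairs h hgen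
  have h2 := C.card_up_pairs (-h) (by
    intro v hv w hw hvw
    apply hgen v hv w hw
    simpa using hvw)
  have hc : ∀ v ∈ Verts C.g n, n ≤ (C.up h v).card + (C.up (-h) v).card := by
    intro v hv
    have hcov : v ⊆ C.up h v ∪ C.up (-h) v := by
      intro i hi
      obtain ⟨j, hj, hpd⟩ := C.exists_other hv hi
      rw [Finset.mem_union]
      rcases le_total (h (C.pt v)) (h (C.pt (insert j (v.erase i)))) with hle | hle
      · left; unfold up; rw [Finset.mem_filter]
        exact ⟨hi, j, hj, hpd, hle⟩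
      · right; unfold up; rw [Finset.mem_filter]
        refine ⟨hi, j, hj, hpd, ?_⟩
        simp only [LinearMap.neg_apply]; linarith
    calc n = v.card := (mem_Verts.1 hv).2.symm
      _ ≤ _ := Finset.card_le_card hcov
      _ ≤ _ := Finset.card_union_le _ _
  have h3 : ∀ v ∈ Verts C.g n, n * (n - 2) ≤
      4 * ((C.up h v).card.choose 2) + 4 * ((C.up (-h) v).card.choose 2) := fun v hv =>
    num_le hn (hc v hv)
  -- the top vertex
  obtain ⟨v0, hv0, hmax⟩ := Finset.exists_max_image (Verts C.g n) (fun v => h (C.pt v))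
    C.verts_nonempty
  have hup : C.up h v0 = ∅ := by
    rw [Finset.eq_empty_iff_forall_notMem]
    intro i hi
    unfold up at hi
    rw [Finset.mem_filter] at hi
    obtain ⟨hiv, j, hj, hpd, hle⟩ := hi
    have hmem : insert j (v0.erase i) ∈ Verts C.g n := by
      refine mem_Verts.2 ⟨hpd, ?_⟩
      rw [Finset.card_insert_of_notMem (fun hh => hj (Finset.mem_of_mem_erase hh)),
        Finset.card_erase_of_mem hiv, (mem_Verts.1 hv0).2]
      omega
    have := hgen v0 hv0 _ hmem (le_antisymm hle (hmax _ hmem))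
    exact hj (by rw [this]; simp)
  have h4 : n * (n - 2) < 4 * ((C.up h v0).card.choose 2) + 4 * ((C.up (-h) v0).card.choose 2) := by
    have h5 := hc v0 hv0
    rw [hup, Finset.card_empty] at h5 ⊢
    exact num_lt hn (by omega)
  calc n * (n - 2) * (Verts C.g n).card = ∑ v ∈ Verts C.g n, n * (n - 2) := by
        rw [Finset.sum_const, smul_eq_mul, mul_comm]
    _ < ∑ v ∈ Verts C.g n, (4 * ((C.up h v).card.choose 2) + 4 * ((C.up (-h) v).card.choose 2)) :=
        Finset.sum_lt_sum h3 ⟨v0, hv0, h4⟩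
    _ = 4 * ∑ v ∈ Verts C.g n, ((C.up h v).card.choose 2) +
        4 * ∑ v ∈ Verts C.g n, ((C.up (-h) v).card.choose 2) := by
        rw [Finset.sum_add_distrib, Finset.mul_sum, Finset.mul_sum]
    _ ≤ 8 * (Faces2 C.g n).card := by omega

theorem count_lt (hn : 2 ≤ n) : (n : ℝ) * (n - 6) * (Verts C.g n).card <
    8 * ∑ K ∈ Faces2 C.g n, max (5 - (kF C.g n K : ℝ)) 0 := by
  classical
  have h1 := C.two_faces_lt hn
  have h2 := sum_kF (n := n) C.g hn
  have h1' : (n : ℝ) * (n - 2) * (Verts C.g n).card < 8 * (Faces2 C.g n).card := by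
    have : ((n * (n - 2) * (Verts C.g n).card : ℕ) : ℝ) < ((8 * (Faces2 C.g n).card : ℕ) : ℝ) := by
      exact_mod_cast h1
    push_cast [Nat.cast_sub hn] at this
    linarith
  have h2' : ∑ K ∈ Faces2 C.g n, (kF C.g n K : ℝ) = n * (n - 1) / 2 * (Verts C.g n).card := by
    have h3 : ((∑ K ∈ Faces2 C.g n, kF C.g n K : ℕ) : ℝ) =
        ((n.choose 2 * (Verts C.g n).card : ℕ) : ℝ) := by rw [h2]
    push_cast at h3
    rw [h3, Nat.cast_choose_two]
  have h4 : ∑ K ∈ Faces2 C.g n, (5 - (kF C.g n K : ℝ)) ≤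
      ∑ K ∈ Faces2 C.g n, max (5 - (kF C.g n K : ℝ)) 0 :=
    Finset.sum_le_sum fun _ _ => le_max_left _ _
  rw [Finset.sum_sub_distrib, h2', Finset.sum_const, nsmul_eq_mul] at h4
  nlinarith

end Cone

end MP345
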