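import Mathlib
import Pool.Agent.Work.MP_345ef2_gt.Account3

/-!
# Diagram library: test vectors for positive definite sets
-/

namespace MP345

open Finset

variable {n : ℕ}

namespace CoxData

variable (D : CoxData n)

/-- adjacency in the Coxeter diagram -/
def Adj (i j : D.ι) : Prop := i ≠ j ∧ D.g i j ≠ 0

open scoped Classical in
/-- neighbours of `i` in `S` -/
noncomputable def nb (S : Finset D.ι) (i : D.ι) : Finset D.ι := S.filter fun j => D.Adj i j

theorem mem_nb {S : Finset D.ι} {i j : D.ι} : j ∈ D.nb S i ↔ j ∈ S ∧ D.Adj i j := by simp [nb]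

theorem Adj.symm {i j : D.ι} (h : D.Adj i j) : D.Adj j i := ⟨h.1.symm, by rw [D.symm]; exact h.2⟩

theorem adj_comm {i j : D.ι} : D.Adj i j ↔ D.Adj j i := ⟨fun h => h.symm D, fun h => h.symm D⟩

theorem Adj.g_le {i j : D.ι} (h : D.Adj i j) : D.g i j ≤ -1 / 2 := D.g_le_of_ne h.1 h.2

theorem g_eq_zero {i j : D.ι} (hij : i ≠ j) (h : ¬ D.Adj i j) : D.g i j = 0 := by
  by_contra h'; exact h ⟨hij, h'⟩

/-- the quadratic form in terms of `(Gc)_i` -/
theorem qf_eq (c : D.ι → ℝ) : qf D.g c = ∑ i, c i * ∑ j, D.g i j * c j := by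
  unfold qf bf
  refine Finset.sum_congr rfl fun i _ => ?_
  rw [Finset.mul_sum]
  exact Finset.sum_congr rfl fun j _ => by ring

/-- **Test vectors** -/
theorem pd_test {S : Finset D.ι} (hS : PD D.g S) (c : D.ι → ℝ)
    (hs : ∀ i, i ∉ S → c i = 0) (hne : ∃ i, 0 < c i)
    (h0 : ∀ i, 0 ≤ c i) (h : ∀ i, 0 < c i → ∑ j, D.g i j * c j ≤ 0) : False := by
  have hc0 : c ≠ 0 := by
    obtain ⟨i, hi⟩ := hne
    intro h; rw [h] at hi; exact lt_irrefl _ hi
  have h1 := hS c hs hc0
  rw [D.qf_eq] at h1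
  have h2 : ∑ i, c i * ∑ j, D.g i j * c j ≤ 0 := by
    refine Finset.sum_nonpos fun i _ => ?_
    rcases (h0 i).lt_or_eq with hi | hi
    · exact mul_nonpos_of_nonneg_of_nonpos hi.le (h i hi)
    · rw [← hi]; simp
  linarith

/-- row of `Gc`, with the diagonal separated -/
theorem row_eq (c : D.ι → ℝ) (i : D.ι) :
    ∑ j, D.g i j * c j = c i + ∑ j ∈ Finset.univ.erase i, D.g i j * c j := by
  rw [← Finset.add_sum_erase _ _ (Finset.mem_univ i), D.self, one_mul]

/-- upper bound for a row of `Gc` -/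
theorem row_le {c : D.ι → ℝ} (h0 : ∀ i, 0 ≤ c i) (i : D.ι) (N : Finset D.ι) (hN : i ∉ N) :
    ∑ j, D.g i j * c j ≤ c i + ∑ j ∈ N, D.g i j * c j := by
  classical
  rw [D.row_eq]
  have hsub : N ⊆ Finset.univ.erase i := fun j hj =>
    Finset.mem_erase.2 ⟨fun e => hN (e ▸ hj), Finset.mem_univ j⟩
  rw [← Finset.sum_sdiff hsub]
  have : ∑ j ∈ Finset.univ.erase i \ N, D.g i j * c j ≤ 0 := by
    refine Finset.sum_nonpos fun j hj => ?_
    have hji : j ≠ i := (Finset.mem_erase.1 (Finset.mem_sdiff.1 hj).1).1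
    exact mul_nonpos_of_nonpos_of_nonneg (D.g_nonpos hji.symm) (h0 j)
  linarith

/-- **Core test** (excludes all affine diagrams of type `A, B, C, D`): there is no nonempty `U ⊆ S`
such that for all `u ∈ U` the sum of `|g_uv|`, `v ∈ U`, and of `g_uq ^ 2`, `q ∉ U`, is at least 1. -/
theorem core_test {S U : Finset D.ι} (hS : PD D.g S) (hU : U ⊆ S) (hne : U.Nonempty)
    (h : ∀ u ∈ U, 1 ≤ ∑ v ∈ U.erase u, -D.g u v + ∑ q ∈ S \ U, D.g u q ^ 2) : False := by
  classical
  let t : D.ι → ℝ := fun q => ∑ u ∈ U, -D.g q u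
  let c : D.ι → ℝ := fun i => if i ∈ U then 1 else if i ∈ S then t i else 0
  have ht : ∀ q, q ∉ U → 0 ≤ t q := by
    intro q hq
    refine Finset.sum_nonneg fun u hu => ?_
    have := D.g_nonpos (i := q) (j := u) (fun e => hq (e ▸ hu))
    linarith
  have h0 : ∀ i, 0 ≤ c i := by
    intro i; simp only [c]; split_ifs with h1 h2
    · norm_num
    · exact ht i h1
    · exact le_rfl
  obtain ⟨u0, hu0⟩ := hne
  refine D.pd_test hS c (fun i hi => ?_) ⟨u0, by simp [c, hu0]⟩ h0 fun i hi => ?_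
  · have : i ∉ U := fun h => hi (hU h)
    simp [c, this, hi]
  · by_cases hiU : i ∈ U
    · have hN : i ∉ (U.erase i) ∪ (S \ U) := by simp [hiU]
      refine (D.row_le h0 i _ hN).trans ?_
      rw [Finset.sum_union (by
        rw [Finset.disjoint_left]; intro a ha hb
        exact (Finset.mem_sdiff.1 hb).2 (Finset.mem_of_mem_erase ha))]
      have e1 : ∑ j ∈ U.erase i, D.g i j * c j = - ∑ v ∈ U.erase i, -D.g i v := by
        rw [← Finset.sum_neg_distrib]
        refine Finset.sum_congr rfl fun j hj => ?_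
        have : j ∈ U := Finset.mem_of_mem_erase hj
        simp [c, this]
      have e2 : ∑ j ∈ S \ U, D.g i j * c j ≤ - ∑ q ∈ S \ U, D.g i q ^ 2 := by
        rw [← Finset.sum_neg_distrib]
        refine Finset.sum_le_sum fun j hj => ?_
        obtain ⟨hjS, hjU⟩ := Finset.mem_sdiff.1 hj
        have hcj : c j = t j := by simp [c, hjU, hjS]
        have hij : i ≠ j := fun e => hjU (e ▸ hiU)
        have hg := D.g_nonpos hij
        have htj : -D.g i j ≤ t j := by
          rw [D.symm i j]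
          exact Finset.single_le_sum (f := fun u => -D.g j u)
            (fun u hu => by
              have := D.g_nonpos (i := j) (j := u) (fun e => hjU (e ▸ hu))
              linarith) hiU
        rw [hcj]
        nlinarith
      have hci : c i = 1 := by simp [c, hiU]
      rw [e1, hci]
      have := h i hiU
      linarith
    · by_cases hiS : i ∈ S
      · refine (D.row_le h0 i U hiU).trans ?_
        have hci : c i = t i := by simp [c, hiU, hiS]
        have e1 : ∑ j ∈ U, D.g i j * c j = - t i := by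
          simp only [t]
          rw [← Finset.sum_neg_distrib]
          refine Finset.sum_congr rfl fun j hj => ?_
          simp [c, hj]
        rw [hci, e1]; linarith
      · simp [c, hiU, hiS] at hi

/-- the sum of `g_pq ^ 2` over the neighbours of a node is less than 1 -/
theorem sq_sum_lt {S N : Finset D.ι} (hS : PD D.g S) {p : D.ι} (hp : p ∈ S) (hN : N ⊆ S)
    (hpN : p ∉ N) : ∑ q ∈ N, D.g p q ^ 2 < 1 := by
  classical
  by_contra hlt
  push Not at hlt
  refine D.core_test hS (U := {p}) (by simpa using hp) (by simp) fun u hu => ?_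
  rw [Finset.mem_singleton] at hu
  subst hu
  have hsub : N ⊆ S \ {u} := by
    intro q hq
    rw [Finset.mem_sdiff, Finset.mem_singleton]
    exact ⟨hN hq, fun e => hpN (e ▸ hq)⟩
  have := Finset.sum_le_sum_of_subset_of_nonneg (f := fun q => D.g u q ^ 2) hsub
    (fun q _ _ => sq_nonneg _)
  simp only [Finset.erase_singleton, Finset.sum_empty, zero_add]
  linarith

theorem Adj.sq_ge {i j : D.ι} (h : D.Adj i j) : 1 / 4 ≤ D.g i j ^ 2 := by
  have := h.g_le D
  nlinarith

/-- degree at most 3 -/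
theorem deg_le {S : Finset D.ι} (hS : PD D.g S) {p : D.ι} (hp : p ∈ S) :
    (D.nb S p).card ≤ 3 := by
  classical
  by_contra hlt
  push Not at hlt
  have h1 := D.sq_sum_lt hS hp (N := D.nb S p) (Finset.filter_subset _ _)
    (by rw [mem_nb]; rintro ⟨_, h⟩; exact h.1 rfl)
  have h2 : ∑ q ∈ D.nb S p, (1 / 4 : ℝ) ≤ ∑ q ∈ D.nb S p, D.g p q ^ 2 :=
    Finset.sum_le_sum fun q hq => Adj.sq_ge D (mem_nb D |>.1 hq).2
  rw [Finset.sum_const, nsmul_eq_mul] at h2
  have h3 : (4 : ℝ) ≤ (D.nb S p).card := by exact_mod_cast hlt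
  linarith

end CoxData

end MP345
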