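import Mathlib
import Pool.Agent.Work.MP_345ef2_gt.Diag

/-!
# The number of pairs at distance two in a positive definite diagram
-/

namespace MP345

open Finset

variable {n : ℕ}

namespace CoxData

variable (D : CoxData n)

theorem sum_nb_comm (S : Finset D.ι) (f : D.ι → ℝ) :
    ∑ i ∈ S, ∑ j ∈ D.nb S i, f j = ∑ j ∈ S, ((D.nb S j).card : ℝ) * f j := by
  classical
  have h : ∑ i ∈ S, ∑ j ∈ D.nb S i, f j = ∑ j ∈ S, ∑ _i ∈ D.nb S j, f j := by
    refine Finset.sum_comm' ?_
    intro i j
    simp only [mem_nb]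
    constructor
    · rintro ⟨h1, h2, h3⟩; exact ⟨⟨h1, h3.symm D⟩, h2⟩
    · rintro ⟨⟨h1, h2⟩, h3⟩; exact ⟨h1, h3, h2.symm D⟩
  rw [h]
  refine Finset.sum_congr rfl fun j _ => ?_
  rw [Finset.sum_const, nsmul_eq_mul]

theorem sum_choose_le {S : Finset D.ι} (hS : PD D.g S) (hne : S.Nonempty) :
    (∑ i ∈ S, ((D.nb S i).card.choose 2)) + 1 ≤ S.card := by
  classical
  let d : D.ι → ℕ := fun i => (D.nb S i).card
  have hd3 : ∀ i ∈ S, d i ≤ 3 := fun i hi => D.deg_le hS hi
  have key : (0 : ℝ) < ∑ i ∈ S, (1 - (((d i).choose 2 : ℕ) : ℝ)) := by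
    by_cases hall : ∀ i ∈ S, d i = 0
    · have : ∑ i ∈ S, (1 - (((d i).choose 2 : ℕ) : ℝ)) = S.card := by
        rw [Finset.sum_congr rfl (fun i hi => by rw [hall i hi])]
        simp
      rw [this]; exact_mod_cast Finset.card_pos.2 hne
    · push Not at hall
      obtain ⟨i0, hi0, hd0⟩ := hall
      let m : D.ι → ℝ := fun i => ((min (d i) 2 : ℕ) : ℝ)
      let c : D.ι → ℝ := fun i => if i ∈ S then m i else 0
      have hcS : ∀ i ∈ S, c i = m i := fun i hi => by simp [c, hi]
      have hm2 : ∀ i, m i ≤ 2 := fun i => by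
        have : min (d i) 2 ≤ 2 := min_le_right _ _
        show ((min (d i) 2 : ℕ) : ℝ) ≤ 2
        exact_mod_cast this
      have hm0 : ∀ i, 0 ≤ m i := fun i => Nat.cast_nonneg _
      have h0 : ∀ i, 0 ≤ c i := by
        intro i; simp only [c]; split_ifs
        · exact hm0 i
        · exact le_rfl
      have hpos : 0 < c i0 := by
        rw [hcS i0 hi0]
        have : 0 < min (d i0) 2 := by
          have : 0 < d i0 := Nat.pos_of_ne_zero hd0
          omega
        show (0 : ℝ) < ((min (d i0) 2 : ℕ) : ℝ)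
        exact_mod_cast this
      have hq := hS c (fun i hi => by simp [c, hi]) (fun h => by
        rw [h] at hpos; exact lt_irrefl _ hpos)
      rw [D.qf_eq, ← Finset.sum_subset (Finset.subset_univ S)
        (fun i _ hi => by simp [c, hi])] at hq
      have h1 : ∀ i ∈ S, c i * ∑ j, D.g i j * c j ≤
          m i ^ 2 - 1 / 2 * ∑ j ∈ D.nb S i, m i * m j := by
        intro i hi
        have hN : i ∉ D.nb S i := by rw [mem_nb]; rintro ⟨_, h⟩; exact h.1 rfl
        have h2 := D.row_le h0 i (D.nb S i) hN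
        have h3 : ∑ j ∈ D.nb S i, D.g i j * c j ≤ ∑ j ∈ D.nb S i, (-1 / 2) * m j := by
          refine Finset.sum_le_sum fun j hj => ?_
          obtain ⟨hjS, hadj⟩ := (mem_nb D).1 hj
          rw [hcS j hjS]
          exact mul_le_mul_of_nonneg_right (hadj.g_le D) (hm0 j)
        rw [hcS i hi] at h2 ⊢
        rw [← Finset.mul_sum] at h3
        rw [← Finset.mul_sum]
        have := hm0 i
        nlinarith
      have h4 : ∀ i ∈ S, ∑ j ∈ D.nb S i, (2 * m i + 2 * m j - 4) ≤
          ∑ j ∈ D.nb S i, m i * m j := by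
        intro i _
        refine Finset.sum_le_sum fun j _ => ?_
        nlinarith [hm2 i, hm2 j]
      have h5 : ∑ i ∈ S, ∑ j ∈ D.nb S i, (2 * m i + 2 * m j - 4) =
          ∑ i ∈ S, (4 * (d i : ℝ) * m i - 4 * d i) := by
        have e : ∀ i ∈ S, ∑ j ∈ D.nb S i, (2 * m i + 2 * m j - 4) =
            (d i : ℝ) * (2 * m i - 4) + 2 * ∑ j ∈ D.nb S i, m j := by
          intro i _
          rw [Finset.mul_sum, show (d i : ℝ) * (2 * m i - 4) =
            ∑ _j ∈ D.nb S i, (2 * m i - 4) by rw [Finset.sum_const, nsmul_eq_mul],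
            ← Finset.sum_add_distrib]
          exact Finset.sum_congr rfl fun j _ => by ring
        rw [Finset.sum_congr rfl e, Finset.sum_add_distrib, ← Finset.mul_sum, D.sum_nb_comm,
          Finset.mul_sum, ← Finset.sum_add_distrib]
        exact Finset.sum_congr rfl fun i _ => by ring
      have h6 := Finset.sum_le_sum h1
      rw [Finset.sum_sub_distrib, ← Finset.mul_sum] at h6
      have h7 := Finset.sum_le_sum h4
      rw [h5] at h7
      have h8 : ∑ i ∈ S, (m i ^ 2 - (2 * (d i : ℝ) * m i - 2 * d i)) ≤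
          ∑ i ∈ S, (1 - (((d i).choose 2 : ℕ) : ℝ)) := by
        refine Finset.sum_le_sum fun i hi => ?_
        have := hd3 i hi
        simp only [m]
        interval_cases h : (d i)
        · norm_num
        · norm_num
        · norm_num [Nat.choose]
        · norm_num [Nat.choose]
      have h9 : ∑ i ∈ S, (4 * (d i : ℝ) * m i - 4 * d i) =
          2 * ∑ i ∈ S, (2 * (d i : ℝ) * m i - 2 * d i) := by
        rw [Finset.mul_sum]; exact Finset.sum_congr rfl fun i _ => by ring
      rw [Finset.sum_sub_distrib] at h8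
      linarith
  have h2 : ∑ i ∈ S, (1 - (((d i).choose 2 : ℕ) : ℝ)) =
      (S.card : ℝ) - ((∑ i ∈ S, (d i).choose 2 : ℕ) : ℝ) := by
    rw [Finset.sum_sub_distrib]; simp
  rw [h2] at key
  have h3 : ((∑ i ∈ S, (d i).choose 2 : ℕ) : ℝ) < (S.card : ℝ) := by linarith
  have h4 : (∑ i ∈ S, (d i).choose 2) < S.card := by exact_mod_cast h3
  exact h4

/-- two elements with a common neighbour in the rest of `v` -/
def D2 (v P : Finset D.ι) : Prop := ∃ z ∈ v, z ∉ P ∧ ∀ p ∈ P, D.Adj z p

open scoped Classical in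
theorem d2_count {S : Finset D.ι} (hS : PD D.g S) (hne : S.Nonempty) :
    ((S.powersetCard 2).filter fun P => D.D2 S P).card + 1 ≤ S.card := by
  refine le_trans (Nat.add_le_add_right ?_ 1) (D.sum_choose_le hS hne)
  have hsub : ((S.powersetCard 2).filter fun P => D.D2 S P) ⊆
      S.biUnion fun z => (D.nb S z).powersetCard 2 := by
    intro P hP
    rw [Finset.mem_filter, Finset.mem_powersetCard] at hP
    obtain ⟨⟨hPS, hPc⟩, z, hz, -, hadj⟩ := hP
    rw [Finset.mem_biUnion]
    refine ⟨z, hz, ?_⟩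
    rw [Finset.mem_powersetCard]
    exact ⟨fun p hp => (mem_nb D).2 ⟨hPS hp, hadj p hp⟩, hPc⟩
  refine (Finset.card_le_card hsub).trans (Finset.card_biUnion_le.trans ?_)
  refine Finset.sum_le_sum fun z _ => ?_
  rw [Finset.card_powersetCard]

open scoped Classical in
/-- the corner payments `α` for corners at distance two cost at most `α (n - 1)` per vertex -/
theorem d2_sum (hn : 1 ≤ n) {α : ℝ} (hα : 0 ≤ α) {v : Finset D.ι} (hv : v ∈ Verts D.g n) :
    ∑ P ∈ v.powersetCard 2, (if D.D2 v P then α else 0) ≤ α * (n - 1) := by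
  obtain ⟨hv1, hv2⟩ := mem_Verts.1 hv
  rw [← Finset.sum_filter, Finset.sum_const, nsmul_eq_mul, mul_comm]
  refine mul_le_mul_of_nonneg_left ?_ hα
  have h := D.d2_count hv1 (Finset.card_pos.1 (by omega))
  have h' : ((((v.powersetCard 2).filter fun P => D.D2 v P).card + 1 : ℕ) : ℝ) ≤ (n : ℝ) := by
    rw [hv2] at h; exact_mod_cast h
  push_cast at h'
  linarith

open scoped Classical in
/-- **The bound with payments `α` for corners at distance two.** -/
theorem dim_bound_hybrid (hn : 2 ≤ n) (κ α : ℝ) (hκ : 0 ≤ κ) (hα : 0 ≤ α)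
    (φ : Finset D.ι → D.ι → Finset D.ι → ℝ) (hφ : ∀ T i P, 0 ≤ φ T i P)
    (hquad : ∀ (K : Finset D.ι) (i i' j j' : D.ι), D.Quad0 K i i' j j' →
      1 ≤ ((if D.D2 (insert i (insert j K)) {i, j} then α else 0) +
        (if D.D2 (insert i (insert j' K)) {i, j'} then α else 0) +
        (if D.D2 (insert i' (insert j K)) {i', j} then α else 0) +
        (if D.D2 (insert i' (insert j' K)) {i', j'} then α else 0)) +
        (φ (insert i (insert j (insert j' K))) i {j, j'} +
        φ (insert i' (insert j (insert j' K))) i' {j, j'} +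
        φ (insert j (insert i (insert i' K))) j {i, i'} +
        φ (insert j' (insert i (insert i' K))) j' {i, i'}))
    (hT : ∀ T ∈ Tsets D.g n, ∑ P ∈ (Rset D.g T).powersetCard 3, D.tri P +
      ∑ i ∈ T \ Rset D.g T, ∑ P ∈ freePairs D.g T i, φ T i P ≤
        κ * (((Rset D.g T).card : ℝ) * ((Rset D.g T).card - 1))) :
    (n : ℝ) * (n - 6) ≤ 8 * ((n - 1) * (1 + α) + κ * n) := by
  have h := D.dim_bound2 hn κ hκ (α * (n - 1)) (fun v P => if D.D2 v P then α else 0)
    (fun v P => by split_ifs <;> simp [hα]) (fun v hv => D.d2_sum (by omega) hα hv) φ hφ hquad hT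
  linarith

end CoxData

end MP345
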