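import Mathlib
import Pool.Agent.Work.MP_345ef2_gt.D2

/-!
# Minimal non positive definite sets (Lannér sets)
-/

namespace MP345

open Finset

variable {n : ℕ}

namespace CoxData

variable (D : CoxData n)

/-! ### labels -/

/-- `cos (π / 5)` -/
noncomputable def c5 : ℝ := (1 + √5) / 4

theorem c5_sq : c5 ^ 2 = c5 / 2 + 1 / 4 := by
  unfold c5
  have h : √5 ^ 2 = 5 := Real.sq_sqrt (by norm_num)
  nlinarith

theorem c5_gt : (0.809 : ℝ) < c5 := by
  unfold c5
  have h : (2.236 : ℝ) < √5 := by
    rw [Real.lt_sqrt (by norm_num)]; norm_num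
  linarith

theorem c5_lt : c5 < (0.8091 : ℝ) := by
  unfold c5
  have h : √5 < (2.2361 : ℝ) := by
    rw [Real.sqrt_lt' (by norm_num)]; norm_num
  linarith

theorem s2_sq : (√2 / 2) ^ 2 = 1 / 2 := by
  have h : √2 ^ 2 = 2 := Real.sq_sqrt (by norm_num)
  nlinarith

theorem s2_gt : (0.707 : ℝ) < √2 / 2 := by
  have h : (1.414 : ℝ) < √2 := by
    rw [Real.lt_sqrt (by norm_num)]; norm_num
  linarith

theorem s2_lt : √2 / 2 < (0.7072 : ℝ) := by
  have h : √2 < (1.4143 : ℝ) := by
    rw [Real.sqrt_lt' (by norm_num)]; norm_num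
  linarith

theorem s3_sq : (√3 / 2) ^ 2 = 3 / 4 := by
  have h : √3 ^ 2 = 3 := Real.sq_sqrt (by norm_num)
  nlinarith

/-- the possible values of `-g` on an edge -/
theorem Adj.cases {i j : D.ι} (h : D.Adj i j) :
    D.g i j = -(1 / 2) ∨ D.g i j = -(√2 / 2) ∨ D.g i j = -c5 ∨ D.g i j ≤ -(√3 / 2) := by
  have h3 : √3 / 2 ≤ 1 := by
    have : √3 ≤ 2 := by rw [Real.sqrt_le_iff]; norm_num
    linarith
  rcases D.off i j h.1 with ⟨m, hm, hg⟩ | hg
  · have hm3 : 3 ≤ m := by
      by_contra hlt
      have : m = 2 := by omega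
      subst this
      apply h.2
      rw [hg]; simp
    rcases Nat.lt_or_ge m 6 with h6 | h6
    · interval_cases m
      · left; rw [hg]; norm_num
      · right; left; rw [hg]
        norm_num [Real.cos_pi_div_four]
      · right; right; left; rw [hg]
        norm_num [Real.cos_pi_div_five, c5]
    · right; right; right
      rw [hg]
      have hc : Real.cos (Real.pi / 6) ≤ Real.cos (Real.pi / m) := by
        apply Real.cos_le_cos_of_nonneg_of_le_pi
        · positivity
        · linarith [Real.pi_pos]
        · apply div_le_div_of_nonneg_left Real.pi_pos.le (by norm_num)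
          exact_mod_cast h6
      rw [Real.cos_pi_div_six] at hc
      linarith
  · right; right; right; linarith

/-- an edge is simple or `-g ≥ √2/2` -/
theorem Adj.simple_or {i j : D.ι} (h : D.Adj i j) :
    D.g i j = -(1 / 2) ∨ (D.g i j ≤ -(√2 / 2) ∧ 1 / 2 ≤ D.g i j ^ 2) := by
  have hs := s2_sq
  have h2 := s2_gt
  rcases h.cases D with h1 | h1 | h1 | h1
  · exact Or.inl h1
  · right; rw [h1]; constructor
    · exact le_rfl
    · nlinarith
  · right; rw [h1]; have := c5_gt; have h3 := s2_lt
    constructor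
    · linarith
    · nlinarith
  · right
    have h3 : √2 / 2 ≤ √3 / 2 := by
      have := Real.sqrt_le_sqrt (show (2 : ℝ) ≤ 3 by norm_num)
      linarith
    constructor
    · linarith
    · nlinarith

/-! ### minimal sets -/

/-- minimal non positive definite sets -/
def Lan (L : Finset D.ι) : Prop := ¬ PD D.g L ∧ ∀ x ∈ L, PD D.g (L.erase x)

theorem exists_lan (Z : Finset D.ι) (hZ : ¬ PD D.g Z) : ∃ L ⊆ Z, D.Lan L := by
  classical
  induction Z using Finset.strongInduction with
  | H Z ih =>
    by_cases h : ∀ x ∈ Z, PD D.g (Z.erase x)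
    · exact ⟨Z, Finset.Subset.refl _, hZ, h⟩
    · push Not at h
      obtain ⟨x, hx, hn⟩ := h
      obtain ⟨L, hL, hLan⟩ := ih (Z.erase x) (Finset.erase_ssubset hx) hn
      exact ⟨L, hL.trans (Finset.erase_subset _ _), hLan⟩

variable {D}

theorem Lan.pd_of_ssubset {L A : Finset D.ι} (hL : D.Lan L) (hA : A ⊆ L) (hne : A ≠ L) :
    PD D.g A := by
  obtain ⟨x, hx, hxA⟩ := Finset.exists_of_ssubset (Finset.ssubset_iff_subset_ne.2 ⟨hA, hne⟩)
  exact (hL.2 x hx).mono fun y hy => Finset.mem_erase.2 ⟨fun e => hxA (e ▸ hy), hA hy⟩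

theorem Lan.eq_of_not_pd {L A : Finset D.ι} (hL : D.Lan L) (hA : A ⊆ L) (hn : ¬ PD D.g A) :
    A = L := by
  by_contra hne; exact hn (hL.pd_of_ssubset hA hne)

theorem Lan.nonempty {L : Finset D.ι} (hL : D.Lan L) : L.Nonempty := by
  rw [Finset.nonempty_iff_ne_empty]
  rintro rfl
  exact hL.1 (pd_empty _)

/-- passing to absolute values does not increase the form -/
theorem qf_abs_le (c : D.ι → ℝ) : qf D.g (fun i => |c i|) ≤ qf D.g c := by
  unfold qf bf
  refine Finset.sum_le_sum fun i _ => Finset.sum_le_sum fun j _ => ?_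
  by_cases hij : i = j
  · subst hij
    rw [abs_mul_abs_self]
  · have h := D.g_nonpos hij
    have h1 : c i * c j ≤ |c i| * |c j| := by rw [← abs_mul]; exact le_abs_self _
    exact mul_le_mul_of_nonpos_right h1 h

/-- **Strict subsolutions**: a minimal non positive definite set carries a positive vector `c` with
`Gc < 0` on the set. -/
theorem Lan.exists_sub {L : Finset D.ι} (hL : D.Lan L) :
    ∃ c : D.ι → ℝ, (∀ i ∈ L, 0 < c i) ∧ (∀ i, i ∉ L → c i = 0) ∧
      ∀ i ∈ L, ∑ j, D.g i j * c j < 0 := by
  classical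
  let K : Set (D.ι → ℝ) := {c | (∀ i, 0 ≤ c i) ∧ (∑ i, c i = 1) ∧ ∀ i, i ∉ L → c i = 0}
  have hKc : IsCompact K := by
    have h1 : K = stdSimplex ℝ D.ι ∩ {c | ∀ i, i ∉ L → c i = 0} := by
      ext c; simp only [K, stdSimplex, Set.mem_ofPred_eq, Set.mem_inter_iff]; tauto
    rw [h1]
    refine (isCompact_stdSimplex ℝ D.ι).inter_right ?_
    have : {c : D.ι → ℝ | ∀ i, i ∉ L → c i = 0} = ⋂ i, ⋂ (_ : i ∉ L), {c | c i = 0} := by
      ext c; simp
    rw [this]
    exact isClosed_iInter fun i => isClosed_iInter fun _ =>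
      isClosed_eq (continuous_apply i) continuous_const
  -- a point with nonpositive value
  obtain ⟨d, hds, hd0, hdq⟩ : ∃ d : D.ι → ℝ, (∀ i, i ∉ L → d i = 0) ∧ d ≠ 0 ∧ qf D.g d ≤ 0 := by
    have h := hL.1
    unfold PD at h
    push Not at h
    exact h
  have hcq : Continuous fun c : D.ι → ℝ => qf D.g c := by
    unfold qf bf
    exact continuous_finsetSum _ fun i _ => continuous_finsetSum _ fun j _ =>
      ((continuous_apply i).mul (continuous_apply j)).mul continuous_const
  have hqsmul : ∀ (t : ℝ) (c : D.ι → ℝ), qf D.g (fun i => t * c i) = t ^ 2 * qf D.g c := by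
    intro t c
    unfold qf bf
    rw [Finset.mul_sum]
    refine Finset.sum_congr rfl fun i _ => ?_
    rw [Finset.mul_sum]
    exact Finset.sum_congr rfl fun j _ => by ring
  have hs : 0 < ∑ i, |d i| := by
    obtain ⟨i, hi⟩ : ∃ i, d i ≠ 0 := by
      by_contra h; push Not at h; exact hd0 (funext h)
    exact lt_of_lt_of_le (abs_pos.2 hi)
      (Finset.single_le_sum (f := fun i => |d i|) (fun i _ => abs_nonneg _) (Finset.mem_univ i))
  set s := ∑ i, |d i| with hsdef
  have hd' : (fun i => s⁻¹ * |d i|) ∈ K := by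
    refine ⟨fun i => by positivity, ?_, fun i hi => by simp [hds i hi]⟩
    rw [← Finset.mul_sum, ← hsdef, inv_mul_cancel₀ hs.ne']
  obtain ⟨c, hcK, hcmin⟩ := hKc.exists_isMinOn ⟨_, hd'⟩ hcq.continuousOn
  obtain ⟨hc0, hc1, hcs⟩ := hcK
  have hmin : ∀ e ∈ K, qf D.g c ≤ qf D.g e := fun e he => hcmin he
  have hqc : qf D.g c ≤ 0 := by
    refine (hmin _ hd').trans ?_
    rw [hqsmul]
    have h1 := (qf_abs_le d).trans hdq
    have h2 : 0 ≤ s⁻¹ ^ 2 := sq_nonneg _
    exact mul_nonpos_of_nonneg_of_nonpos h2 h1
  have hcne : c ≠ 0 := by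
    rintro rfl; simp at hc1
  have hpos : ∀ i ∈ L, 0 < c i := by
    intro i hi
    rcases (hc0 i).lt_or_eq with h | h
    · exact h
    · exfalso
      have h1 := hL.2 i hi c (fun k hk => by
        by_cases hki : k = i
        · rw [hki, ← h]
        · exact hcs k fun hkL => hk (Finset.mem_erase.2 ⟨hki, hkL⟩)) hcne
      linarith
  let B : D.ι → ℝ := fun i => ∑ j, D.g i j * c j
  -- expansion of the form
  have hexp : ∀ (i j : D.ι), i ≠ j → ∀ ε : ℝ,
      qf D.g (fun k => c k + (if k = j then ε else 0) - (if k = i then ε else 0)) =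
        qf D.g c + 2 * ε * (B j - B i) + ε ^ 2 * (2 - 2 * D.g i j) := by
    intro i j hij ε
    have e1 : ∀ a : D.ι, ∑ b, D.g a b *
        (c b + (if b = j then ε else 0) - (if b = i then ε else 0)) =
        B a + ε * (D.g a j - D.g a i) := by
      intro a
      have : ∀ b, D.g a b * (c b + (if b = j then ε else 0) - (if b = i then ε else 0)) =
          D.g a b * c b + (if b = j then ε * D.g a b else 0) -
            (if b = i then ε * D.g a b else 0) := by
        intro b; split_ifs <;> ring
      simp only [this, Finset.sum_sub_distrib, Finset.sum_add_distrib, Finset.sum_ite_eq',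
        Finset.mem_univ, if_true, B]
      ring
    rw [D.qf_eq, D.qf_eq]
    simp only [e1]
    have e2 : ∀ a : D.ι, (c a + (if a = j then ε else 0) - (if a = i then ε else 0)) *
        (B a + ε * (D.g a j - D.g a i)) =
        c a * B a + ε * (D.g j a * c a) - ε * (D.g i a * c a) +
        (if a = j then ε * (B a + ε * (D.g a j - D.g a i)) else 0) -
        (if a = i then ε * (B a + ε * (D.g a j - D.g a i)) else 0) := by
      intro a
      rw [D.symm a j, D.symm a i]
      split_ifs <;> ring
    simp only [e2, Finset.sum_sub_distrib, Finset.sum_add_distrib, Finset.sum_ite_eq',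
      Finset.mem_univ, if_true, ← Finset.mul_sum]
    rw [D.self, D.self, D.symm j i]
    simp only [B]
    ring
  have hBeq : ∀ i ∈ L, ∀ j ∈ L, B i = B j := by
    intro i hi j hj
    by_cases hij : i = j
    · rw [hij]
    by_contra hne
    -- move mass in the good direction
    have key : ∀ i ∈ L, ∀ j ∈ L, i ≠ j → ¬ B j < B i := by
      intro i hi j hj hij hlt
      set b := B i - B j with hb
      have hbpos : 0 < b := by rw [hb]; linarith
      set w := 2 - 2 * D.g i j with hw
      have hwpos : 0 < w := by have := D.g_nonpos hij; rw [hw]; linarith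
      set ε := min (c i) (b / w) with hε
      have hεpos : 0 < ε := lt_min (hpos i hi) (by positivity)
      have hεi : ε ≤ c i := min_le_left _ _
      have hεw : ε * w ≤ b := by
        have : ε ≤ b / w := min_le_right _ _
        calc ε * w ≤ b / w * w := mul_le_mul_of_nonneg_right this hwpos.le
          _ = b := by field_simp
      have hmem : (fun k => c k + (if k = j then ε else 0) - (if k = i then ε else 0)) ∈ K := by
        refine ⟨fun k => ?_, ?_, fun k hk => ?_⟩
        · by_cases hki : k = i
          · subst hki; simp [hij]; linarith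
          · by_cases hkj : k = j
            · subst hkj; simp [hki]; linarith [hc0 k]
            · simp [hki, hkj, hc0 k]
        · rw [Finset.sum_sub_distrib, Finset.sum_add_distrib]; simp [hc1]
        · have h1 : k ≠ i := fun e => hk (e ▸ hi)
          have h2 : k ≠ j := fun e => hk (e ▸ hj)
          simp [h1, h2, hcs k hk]
      have h1 := hmin _ hmem
      rw [hexp i j hij ε] at h1
      have h2 : B j - B i = -b := by rw [hb]; ring
      rw [h2] at h1
      nlinarith
    rcases lt_or_gt_of_ne hne with h | h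
    · exact key j hj i hi (Ne.symm hij) h
    · exact key i hi j hj hij h
  have hBq : ∀ i ∈ L, B i = qf D.g c := by
    intro i hi
    have : qf D.g c = ∑ k, c k * B i := by
      rw [D.qf_eq]
      refine Finset.sum_congr rfl fun k _ => ?_
      by_cases hk : k ∈ L
      · rw [hBeq i hi k hk]
      · rw [hcs k hk]; ring
    rw [this, ← Finset.sum_mul, hc1, one_mul]
  have hqneg : qf D.g c < 0 := by
    rcases hqc.lt_or_eq with h | h
    · exact h
    · refine D.noPar c hc0 hcne fun i hi => ?_
      have hiL : i ∈ L := by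
        by_contra hiL; rw [hcs i hiL] at hi; exact lt_irrefl _ hi
      have := hBq i hiL
      simp only [B] at this
      rw [this, h]
  exact ⟨c, hpos, hcs, fun i hi => by have := hBq i hi; simp only [B] at this; rw [this]; exact hqneg⟩

end CoxData

end MP345
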