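import Mathlib
import Pool.Agent.Work.MP_345ef2_gt.Lanner

/-!
# More convenient forms of the test vectors
-/

namespace MP345

open Finset

variable {n : ℕ}

namespace CoxData

variable {D : CoxData n}

theorem Adj.neg_ge {i j : D.ι} (h : D.Adj i j) : 1 / 2 ≤ -D.g i j := by
  have := h.g_le D; linarith

theorem Adj.ne {i j : D.ι} (h : D.Adj i j) : i ≠ j := h.1

/-- `u` has, outside `U`, a heavy neighbour or two neighbours in `S` -/
def Sp (S U : Finset D.ι) (u : D.ι) : Prop :=
  (∃ q ∈ S, q ∉ U ∧ 1 / 2 ≤ D.g u q ^ 2) ∨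
  ∃ q ∈ S, ∃ q' ∈ S, q ∉ U ∧ q' ∉ U ∧ q ≠ q' ∧ D.Adj u q ∧ D.Adj u q'

theorem Sp.sum_ge {S U : Finset D.ι} {u : D.ι} (h : Sp S U u) :
    1 / 2 ≤ ∑ q ∈ S \ U, D.g u q ^ 2 := by
  rcases h with ⟨q, hq, hqU, hg⟩ | ⟨q, hq, q', hq', hqU, hqU', hne, ha, ha'⟩
  · exact hg.trans (Finset.single_le_sum (f := fun q => D.g u q ^ 2)
      (fun q _ => sq_nonneg _) (Finset.mem_sdiff.2 ⟨hq, hqU⟩))
  · have hsub : ({q, q'} : Finset D.ι) ⊆ S \ U := by
      intro r hr
      simp only [Finset.mem_insert, Finset.mem_singleton] at hr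
      rcases hr with rfl | rfl
      · exact Finset.mem_sdiff.2 ⟨hq, hqU⟩
      · exact Finset.mem_sdiff.2 ⟨hq', hqU'⟩
    have h1 := Finset.sum_le_sum_of_subset_of_nonneg (f := fun q => D.g u q ^ 2) hsub
      (fun q _ _ => sq_nonneg _)
    rw [Finset.sum_pair hne] at h1
    have := Adj.sq_ge D ha
    have := Adj.sq_ge D ha'
    linarith

/-- **Core test**, convenient form -/
theorem core_test' {S U : Finset D.ι} (hS : PD D.g S) (hU : U ⊆ S) (hne : U.Nonempty)
    (h : ∀ u ∈ U, (∃ v ∈ U, ∃ v' ∈ U, v ≠ v' ∧ D.Adj u v ∧ D.Adj u v') ∨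
      ((∃ v ∈ U, D.Adj u v) ∧ Sp S U u)) : False := by
  refine D.core_test hS hU hne fun u hu => ?_
  have hg0 : ∀ v ∈ U.erase u, 0 ≤ -D.g u v := fun v hv => by
    have := D.g_nonpos (i := u) (j := v) (Ne.symm (Finset.mem_erase.1 hv).1)
    linarith
  have hs0 : 0 ≤ ∑ q ∈ S \ U, D.g u q ^ 2 := Finset.sum_nonneg fun q _ => sq_nonneg _
  rcases h u hu with ⟨v, hv, v', hv', hvv, ha, ha'⟩ | ⟨⟨v, hv, ha⟩, hsp⟩
  · have hsub : ({v, v'} : Finset D.ι) ⊆ U.erase u := by
      intro r hr
      simp only [Finset.mem_insert, Finset.mem_singleton] at hr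
      rcases hr with rfl | rfl
      · exact Finset.mem_erase.2 ⟨Ne.symm ha.1, hv⟩
      · exact Finset.mem_erase.2 ⟨Ne.symm ha'.1, hv'⟩
    have h1 := Finset.sum_le_sum_of_subset_of_nonneg (f := fun v => -D.g u v) hsub
      (fun q hq _ => hg0 q hq)
    rw [Finset.sum_pair hvv] at h1
    have := ha.neg_ge
    have := ha'.neg_ge
    linarith
  · have h1 := Finset.single_le_sum (f := fun v => -D.g u v) hg0
      (Finset.mem_erase.2 ⟨Ne.symm ha.1, hv⟩)
    have := ha.neg_ge
    have := hsp.sum_ge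
    linarith

/-- **Tree test**: an embedded tree with a nonpositive value of the form. -/
theorem tree_test {S : Finset D.ι} (hS : PD D.g S) {k : ℕ} (f : Fin (k + 1) → D.ι)
    (hf : Function.Injective f) (hfS : ∀ a, f a ∈ S) (π : Fin k → Fin (k + 1))
    (hπ : ∀ a : Fin k, π a ≤ a.castSucc) (w : Fin k → ℝ)
    (hw : ∀ a : Fin k, w a ≤ -D.g (f a.succ) (f (π a))) (x : Fin (k + 1) → ℝ)
    (hx : ∀ a, 0 < x a)
    (hnum : ∑ a, x a ^ 2 ≤ 2 * ∑ a : Fin k, w a * x a.succ * x (π a)) : False := by
  classical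
  let c : D.ι → ℝ := fun i => ∑ a, if f a = i then x a else 0
  have hcf : ∀ a, c (f a) = x a := by
    intro a
    simp only [c]
    rw [Finset.sum_eq_single a]
    · simp
    · intro b _ hb; rw [if_neg fun h => hb (hf h)]
    · intro h; exact absurd (Finset.mem_univ a) h
  have hc0 : ∀ i, (∀ a, f a ≠ i) → c i = 0 := fun i hi =>
    Finset.sum_eq_zero fun a _ => if_neg (hi a)
  have hq := hS c (fun i hi => hc0 i fun a e => hi (e ▸ hfS a)) (fun h => by
    have h1 := hcf 0
    rw [h] at h1
    have := hx 0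
    simp only [Pi.zero_apply] at h1
    linarith)
  have hsum : ∀ F : D.ι → ℝ, ∑ i, c i * F i = ∑ a, x a * F (f a) := by
    intro F
    have : ∑ i, c i * F i = ∑ i ∈ Finset.univ.image f, c i * F i := by
      symm
      apply Finset.sum_subset (Finset.subset_univ _)
      intro i _ hi
      rw [hc0 i, zero_mul]
      intro a e; exact hi (Finset.mem_image.2 ⟨a, Finset.mem_univ _, e⟩)
    rw [this, Finset.sum_image fun a _ b _ h => hf h]
    exact Finset.sum_congr rfl fun a _ => by rw [hcf]
  have hqe : qf D.g c = ∑ a, ∑ b, x a * x b * D.g (f a) (f b) := by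
    rw [D.qf_eq, hsum]
    refine Finset.sum_congr rfl fun a _ => ?_
    have : ∑ j, D.g (f a) j * c j = ∑ j, c j * D.g (f a) j :=
      Finset.sum_congr rfl fun j _ => mul_comm _ _
    rw [this, hsum, Finset.mul_sum]
    exact Finset.sum_congr rfl fun b _ => by ring
  -- split the double sum: diagonal, below, above
  let T : Fin (k + 1) → Fin (k + 1) → ℝ := fun a b => x a * x b * D.g (f a) (f b)
  have hTs : ∀ a b, T a b = T b a := by intro a b; simp only [T]; rw [D.symm]; ring
  have hTn : ∀ a b, a ≠ b → T a b ≤ 0 := fun a b hab =>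
    mul_nonpos_of_nonneg_of_nonpos (mul_nonneg (hx a).le (hx b).le)
      (D.g_nonpos fun e => hab (hf e))
  have hsplit : ∑ a, ∑ b, T a b = ∑ a, T a a + 2 * ∑ a, ∑ b ∈ Finset.univ.filter (· < a), T a b := by
    have h1 : ∀ a, ∑ b, T a b = T a a + ∑ b ∈ Finset.univ.filter (· < a), T a b +
        ∑ b ∈ Finset.univ.filter (a < ·), T a b := by
      intro a
      have e1 : (Finset.univ : Finset (Fin (k + 1))) =
          insert a ((Finset.univ.filter (· < a)) ∪ (Finset.univ.filter (a < ·))) := by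
        ext b
        simp only [Finset.mem_univ, Finset.mem_insert, Finset.mem_union, Finset.mem_filter,
          true_and, true_iff]
        rcases lt_trichotomy a b with h | h | h
        · right; right; exact h
        · left; exact h.symm
        · right; left; exact h
      conv_lhs => rw [e1]
      rw [Finset.sum_insert (by simp), Finset.sum_union]
      · ring
      · rw [Finset.disjoint_left]; intro b hb hb'
        simp only [Finset.mem_filter, Finset.mem_univ, true_and] at hb hb'
        exact absurd hb (not_lt.2 hb'.le)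
    have h2 : ∑ a, ∑ b ∈ Finset.univ.filter (a < ·), T a b =
        ∑ a, ∑ b ∈ Finset.univ.filter (· < a), T a b := by
      rw [Finset.sum_comm' (s := Finset.univ) (t := fun a => Finset.univ.filter (a < ·))
        (t' := Finset.univ) (s' := fun b => Finset.univ.filter (· < b))]
      · exact Finset.sum_congr rfl fun a _ => Finset.sum_congr rfl fun b _ => hTs _ _
      · intro a b; simp
    rw [Finset.sum_congr rfl fun a _ => h1 a, Finset.sum_add_distrib, Finset.sum_add_distrib, h2]
    ring
  have hdiag : ∑ a, T a a = ∑ a, x a ^ 2 :=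
    Finset.sum_congr rfl fun a _ => by simp only [T]; rw [D.self]; ring
  have hlow : ∑ a, ∑ b ∈ Finset.univ.filter (· < a), T a b ≤
      - ∑ a : Fin k, w a * x a.succ * x (π a) := by
    rw [Fin.sum_univ_succ]
    have h0 : ∑ b ∈ Finset.univ.filter (· < (0 : Fin (k + 1))), T 0 b = 0 := by
      apply Finset.sum_eq_zero; intro b hb
      simp at hb
    rw [h0, zero_add, ← Finset.sum_neg_distrib]
    refine Finset.sum_le_sum fun a _ => ?_
    have hmem : π a ∈ Finset.univ.filter (· < a.succ) := by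
      simp only [Finset.mem_filter, Finset.mem_univ, true_and]
      exact lt_of_le_of_lt (hπ a) (Fin.castSucc_lt_succ)
    rw [← Finset.add_sum_erase _ _ hmem]
    have h1 : ∑ b ∈ (Finset.univ.filter (· < a.succ)).erase (π a), T a.succ b ≤ 0 := by
      refine Finset.sum_nonpos fun b hb => hTn _ _ ?_
      have := (Finset.mem_filter.1 (Finset.mem_of_mem_erase hb)).2
      exact ne_of_gt this
    have h2 : T a.succ (π a) ≤ -(w a * x a.succ * x (π a)) := by
      simp only [T]
      have h3 := hw a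
      have h4 := mul_pos (hx a.succ) (hx (π a))
      nlinarith
    linarith
  rw [hqe] at hq
  change 0 < ∑ a, ∑ b, T a b at hq
  rw [hsplit, hdiag] at hq
  linarith

end CoxData

end MP345
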