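import Mathlib
import Pool.Agent.Work.MP_345ef2_gt.Tests

/-!
# Minimal non positive definite sets have at most five elements
-/

namespace MP345

open Finset

variable {n : ℕ}

namespace CoxData

variable {D : CoxData n}

theorem Lan.exists_sub' {L : Finset D.ι} (hL : D.Lan L) :
    ∃ c : D.ι → ℝ, (∀ i ∈ L, 0 < c i) ∧ ∀ i ∈ L, c i < ∑ j ∈ D.nb L i, -D.g i j * c j := by
  classical
  obtain ⟨c, h1, h2, h3⟩ := hL.exists_sub
  refine ⟨c, h1, fun i hi => ?_⟩
  have h4 := h3 i hi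
  rw [D.row_eq] at h4
  have h5 : ∑ j ∈ Finset.univ.erase i, D.g i j * c j = ∑ j ∈ D.nb L i, D.g i j * c j := by
    symm
    apply Finset.sum_subset
    · intro j hj
      obtain ⟨hj1, hj2⟩ := (mem_nb D).1 hj
      exact Finset.mem_erase.2 ⟨hj2.1.symm, Finset.mem_univ _⟩
    · intro j hj hn
      have hji := (Finset.mem_erase.1 hj).1
      by_cases hjL : j ∈ L
      · have : ¬ D.Adj i j := fun ha => hn ((mem_nb D).2 ⟨hjL, ha⟩)
        rw [D.g_eq_zero (Ne.symm hji) this, zero_mul]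
      · rw [h2 j hjL, mul_zero]
  rw [h5] at h4
  have h6 : ∑ j ∈ D.nb L i, -D.g i j * c j = -∑ j ∈ D.nb L i, D.g i j * c j := by
    rw [← Finset.sum_neg_distrib]; exact Finset.sum_congr rfl fun j _ => by ring
  rw [h6]; linarith

theorem inj5 {α : Type*} {a b c d e : α} (h : [a, b, c, d, e].Nodup) :
    Function.Injective ![a, b, c, d, e] := by
  rw [← List.nodup_ofFn]; simpa using h

/-- `[3,5,3]` is not positive definite -/
theorem no_353 {S : Finset D.ι} (hS : PD D.g S) {s q p r : D.ι} (hs : s ∈ S) (hq : q ∈ S)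
    (hp : p ∈ S) (hr : r ∈ S) (hsq : D.Adj s q) (hqp : D.g q p ≤ -c5) (hpq : p ≠ q)
    (hpr : D.Adj p r) (hsp : s ≠ p) (hsr : s ≠ r) (hrq : r ≠ q) : False := by
  have h5 := c5_gt
  refine tree_test hS ![q, p, s, r] ?_ ?_ ![0, 0, 1] ?_ ![0.809, 1 / 2, 1 / 2] ?_ ![2, 2, 1, 1] ?_ ?_
  · rw [← List.nodup_ofFn]
    have := hsq.ne; have := hpr.ne
    simp [List.ofFn_succ]
    tauto
  · intro a; fin_cases a <;> simp [hs, hq, hp, hr]
  · intro a; fin_cases a <;> simp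
  · intro a
    have h1 := hsq.neg_ge
    have h2 := hpr.neg_ge
    rw [D.symm] at h2
    rw [D.symm] at hqp
    fin_cases a
    · change (0.809 : ℝ) ≤ -D.g p q; linarith
    · change (1 / 2 : ℝ) ≤ -D.g s q; linarith
    · change (1 / 2 : ℝ) ≤ -D.g r p; linarith
  · intro a; fin_cases a <;> simp
  · simp [Fin.sum_univ_succ]; norm_num

/-- `F̃4` is not positive definite: path `s - q = p - r - t` with a heavy edge `q p` -/
theorem no_F4t {S : Finset D.ι} (hS : PD D.g S) {s q p r t : D.ι} (hs : s ∈ S) (hq : q ∈ S)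
    (hp : p ∈ S) (hr : r ∈ S) (ht : t ∈ S) (hsq : D.Adj s q) (hqp : D.g q p ≤ -(√2 / 2))
    (hpr : D.Adj p r) (hrt : D.Adj r t) (hnd : [s, q, p, r, t].Nodup) : False := by
  have h2 : √2 ^ 2 = 2 := Real.sq_sqrt (by norm_num)
  have h2' : 0 < √2 := by positivity
  refine tree_test hS ![p, q, s, r, t] ?_ ?_ ![0, 1, 0, 3] ?_ ![√2 / 2, 1 / 2, 1 / 2, 1 / 2] ?_
    ![3, 2 * √2, √2, 2, 1] ?_ ?_
  · rw [← List.nodup_ofFn]
    simp [List.ofFn_succ] at hnd ⊢
    tauto
  · intro a; fin_cases a <;> simp [hs, hq, hp, hr, ht]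
  · intro a; fin_cases a <;> simp
  · intro a
    have h1 := hsq.neg_ge
    have h3 := hpr.neg_ge
    have h4 := hrt.neg_ge
    rw [D.symm] at h1 h3 h4
    fin_cases a
    · change √2 / 2 ≤ -D.g q p; linarith
    · change (1 / 2 : ℝ) ≤ -D.g s q; rw [D.symm]; linarith
    · change (1 / 2 : ℝ) ≤ -D.g r p; linarith
    · change (1 / 2 : ℝ) ≤ -D.g t r; linarith
  · intro a; fin_cases a <;> simp [h2']
  · simp [Fin.sum_univ_succ]; nlinarith

/-- `[5,3,3,3]` is not positive definite: path `q = p - r - t - u` -/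
theorem no_5333 {S : Finset D.ι} (hS : PD D.g S) {q p r t u : D.ι} (hq : q ∈ S)
    (hp : p ∈ S) (hr : r ∈ S) (ht : t ∈ S) (hu : u ∈ S) (hqp : D.g q p ≤ -c5)
    (hpr : D.Adj p r) (hrt : D.Adj r t) (htu : D.Adj t u) (hnd : [q, p, r, t, u].Nodup) :
    False := by
  have h5 := c5_gt
  refine tree_test hS ![r, p, q, t, u] ?_ ?_ ![0, 1, 0, 3] ?_ ![1 / 2, 0.809, 1 / 2, 1 / 2] ?_
    ![3, 4, 3.2, 2, 1] ?_ ?_
  · rw [← List.nodup_ofFn]
    simp [List.ofFn_succ] at hnd ⊢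
    tauto
  · intro a; fin_cases a <;> simp [hq, hp, hr, ht, hu]
  · intro a; fin_cases a <;> simp
  · intro a
    have h1 := hpr.neg_ge
    have h3 := hrt.neg_ge
    have h4 := htu.neg_ge
    rw [D.symm] at h3 h4
    fin_cases a
    · change (1 / 2 : ℝ) ≤ -D.g p r; linarith
    · change (0.809 : ℝ) ≤ -D.g q p; linarith
    · change (1 / 2 : ℝ) ≤ -D.g t r; linarith
    · change (1 / 2 : ℝ) ≤ -D.g u t; linarith
  · intro a; fin_cases a <;> norm_num
  · simp [Fin.sum_univ_succ]; norm_num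

end CoxData

end MP345
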