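import Mathlib
import Pool.Agent.Work.MP_345ef2_gt.Order

/-!
# Minimal non positive definite sets have at most five elements: the proof
-/

namespace MP345

open Finset

variable {n : ℕ}

namespace CoxData

variable {D : CoxData n}

theorem heavy_or_simple {i j : D.ι} (h : D.Adj i j) :
    D.g i j = -(1 / 2) ∨ 1 / 2 ≤ D.g i j ^ 2 := by
  rcases h.simple_or D with h | h
  · exact Or.inl h
  · exact Or.inr h.2

/-- two heavy edges at a node -/
theorem no_heavy2 {S : Finset D.ι} (hS : PD D.g S) {p q r : D.ι} (hp : p ∈ S) (hq : q ∈ S)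
    (hr : r ∈ S) (hqr : q ≠ r) (hpq : p ≠ q) (hpr : p ≠ r) (h1 : 1 / 2 ≤ D.g p q ^ 2)
    (h2 : 1 / 2 ≤ D.g p r ^ 2) : False := by
  classical
  have := D.sq_sum_lt hS hp (N := {q, r}) (by
    intro x hx; simp only [Finset.mem_insert, Finset.mem_singleton] at hx
    rcases hx with rfl | rfl <;> assumption) (by simp [hpq, hpr])
  rw [Finset.sum_pair hqr] at this
  linarith

/-- a heavy edge and two further neighbours at a node -/
theorem no_heavy3 {S : Finset D.ι} (hS : PD D.g S) {p q r s : D.ι} (hp : p ∈ S) (hq : q ∈ S)
    (hr : r ∈ S) (hs : s ∈ S) (hqr : q ≠ r) (hqs : q ≠ s) (hrs : r ≠ s) (h1 : 1 / 2 ≤ D.g p q ^ 2)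
    (hpq : p ≠ q) (hpr : D.Adj p r) (hps : D.Adj p s) : False := by
  classical
  have := D.sq_sum_lt hS hp (N := {q, r, s}) (by
    intro x hx; simp only [Finset.mem_insert, Finset.mem_singleton] at hx
    rcases hx with rfl | rfl | rfl <;> assumption) (by simp [hpq, hpr.ne, hps.ne])
  rw [Finset.sum_insert (by simp [hqr, hqs]), Finset.sum_pair hrs] at this
  have := hpr.sq_ge D
  have := hps.sq_ge D
  linarith

/-- no triangles -/
theorem no_tri {S : Finset D.ι} (hS : PD D.g S) {a b d : D.ι} (ha : a ∈ S) (hb : b ∈ S)
    (hd : d ∈ S) (hab : D.Adj a b) (hbd : D.Adj b d) (had : D.Adj a d) : False := by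
  classical
  refine core_test' hS (U := {a, b, d}) ?_ ⟨a, by simp⟩ ?_
  · intro x hx; simp only [Finset.mem_insert, Finset.mem_singleton] at hx
    rcases hx with rfl | rfl | rfl <;> assumption
  · intro u hu; simp only [Finset.mem_insert, Finset.mem_singleton] at hu
    left
    rcases hu with rfl | rfl | rfl
    · exact ⟨b, by simp, d, by simp, hbd.ne, hab, had⟩
    · exact ⟨a, by simp, d, by simp, had.ne, hab.symm D, hbd⟩
    · exact ⟨a, by simp, b, by simp, hab.ne, had.symm D, hbd.symm D⟩

/-- no 4-cycles -/
theorem no_quad {S : Finset D.ι} (hS : PD D.g S) {a b d e : D.ι} (ha : a ∈ S) (hb : b ∈ S)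
    (hd : d ∈ S) (he : e ∈ S) (hab : D.Adj a b) (hbd : D.Adj b d) (hde : D.Adj d e)
    (hea : D.Adj e a) (had : a ≠ d) (hbe : b ≠ e) : False := by
  classical
  refine core_test' hS (U := {a, b, d, e}) ?_ ⟨a, by simp⟩ ?_
  · intro x hx; simp only [Finset.mem_insert, Finset.mem_singleton] at hx
    rcases hx with rfl | rfl | rfl | rfl <;> assumption
  · intro u hu; simp only [Finset.mem_insert, Finset.mem_singleton] at hu
    left
    rcases hu with rfl | rfl | rfl | rfl
    · exact ⟨b, by simp, e, by simp, hbe, hab, hea.symm D⟩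
    · exact ⟨a, by simp, d, by simp, had, hab.symm D, hbd⟩
    · exact ⟨b, by simp, e, by simp, hbe, hbd.symm D, hde⟩
    · exact ⟨a, by simp, d, by simp, had, hea, hde.symm D⟩

/-- no 5-cycles -/
theorem no_pent {S : Finset D.ι} (hS : PD D.g S) {a b d e f : D.ι} (ha : a ∈ S) (hb : b ∈ S)
    (hd : d ∈ S) (he : e ∈ S) (hf : f ∈ S) (hab : D.Adj a b) (hbd : D.Adj b d) (hde : D.Adj d e)
    (hef : D.Adj e f) (hfa : D.Adj f a) (had : a ≠ d) (hbe : b ≠ e) (hdf : d ≠ f) (hea : e ≠ a)
    (hfb : f ≠ b) : False := by
  classical
  refine core_test' hS (U := {a, b, d, e, f}) ?_ ⟨a, by simp⟩ ?_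
  · intro x hx; simp only [Finset.mem_insert, Finset.mem_singleton] at hx
    rcases hx with rfl | rfl | rfl | rfl | rfl <;> assumption
  · intro u hu; simp only [Finset.mem_insert, Finset.mem_singleton] at hu
    left
    rcases hu with rfl | rfl | rfl | rfl | rfl
    · exact ⟨b, by simp, f, by simp, hfb.symm, hab, hfa.symm D⟩
    · exact ⟨a, by simp, d, by simp, had, hab.symm D, hbd⟩
    · exact ⟨b, by simp, e, by simp, hbe, hbd.symm D, hde⟩
    · exact ⟨d, by simp, f, by simp, hdf, hde.symm D, hef⟩
    · exact ⟨a, by simp, e, by simp, hea.symm, hfa, hef.symm D⟩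

/-- two specials joined by an edge: `p - x`, `p` special by `q` (heavy) or `y, z` -/
theorem no_sp2 {S : Finset D.ι} (hS : PD D.g S) {p x : D.ι} (hp : p ∈ S) (hx : x ∈ S)
    (hpx : D.Adj p x) (h1 : Sp S {p, x} p) (h2 : Sp S {p, x} x) : False := by
  classical
  refine core_test' hS (U := {p, x}) ?_ ⟨p, by simp⟩ ?_
  · intro y hy; simp only [Finset.mem_insert, Finset.mem_singleton] at hy
    rcases hy with rfl | rfl <;> assumption
  · intro u hu; simp only [Finset.mem_insert, Finset.mem_singleton] at hu
    right
    rcases hu with rfl | rfl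
    · exact ⟨⟨x, by simp, hpx⟩, h1⟩
    · exact ⟨⟨p, by simp, hpx.symm D⟩, h2⟩

section order

variable {L : Finset D.ι} (hL : D.Lan L) (h6 : 6 ≤ L.card) {c : D.ι → ℝ}
  (hc : ∀ i ∈ L, 0 < c i) (hsub : ∀ i ∈ L, c i < ∑ j ∈ D.nb L i, -D.g i j * c j)

include hL h6 in
theorem small_pd {A : Finset D.ι} (hA : A ⊆ L) (hc : A.card ≤ 5) : PD D.g A :=
  hL.pd_of_ssubset hA fun e => by rw [e] at hc; omega

include hsub in
theorem sub1 {i a : D.ι} (hi : i ∈ L) (h : D.nb L i = {a}) : c i < -D.g i a * c a := by
  have := hsub i hi; rwa [h, Finset.sum_singleton] at this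

include hsub in
theorem sub2 {i a b : D.ι} (hi : i ∈ L) (h : D.nb L i = {a, b}) (hab : a ≠ b) :
    c i < -D.g i a * c a + -D.g i b * c b := by
  have := hsub i hi; rwa [h, Finset.sum_pair hab] at this

include hsub in
theorem sub3 {i a b d : D.ι} (hi : i ∈ L) (h : D.nb L i = {a, b, d}) (hab : a ≠ b) (had : a ≠ d)
    (hbd : b ≠ d) : c i < -D.g i a * c a + -D.g i b * c b + -D.g i d * c d := by
  have := hsub i hi
  rw [h, Finset.sum_insert (by simp [hab, had]), Finset.sum_pair hbd] at this
  linarith

/-- a neighbour set is `{a}` or there is a further neighbour -/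
theorem nb_single_or {i a : D.ι} (ha : a ∈ D.nb L i) :
    D.nb L i = {a} ∨ ∃ b ∈ D.nb L i, b ≠ a := by
  by_cases h : ∃ b ∈ D.nb L i, b ≠ a
  · exact Or.inr h
  · left; push Not at h
    exact Finset.eq_singleton_iff_unique_mem.2 ⟨ha, h⟩

theorem nb_pair_or {i a b : D.ι} (ha : a ∈ D.nb L i) (hb : b ∈ D.nb L i) :
    D.nb L i = {a, b} ∨ ∃ d ∈ D.nb L i, d ≠ a ∧ d ≠ b := by
  classical
  by_cases h : ∃ d ∈ D.nb L i, d ≠ a ∧ d ≠ b
  · exact Or.inr h
  · left; push Not at h
    ext x
    simp only [Finset.mem_insert, Finset.mem_singleton]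
    constructor
    · intro hx
      by_cases hxa : x = a
      · exact Or.inl hxa
      · exact Or.inr (h x hx hxa)
    · rintro (rfl | rfl) <;> assumption

include hL h6 in
theorem deg_le3 {i : D.ι} (hi : i ∈ L) : (D.nb L i).card ≤ 3 := by
  classical
  by_contra hlt
  push Not at hlt
  obtain ⟨N, hN, hNc⟩ := Finset.exists_subset_card_eq (show 4 ≤ (D.nb L i).card by omega)
  have hiN : i ∉ N := fun h => ((mem_nb D).1 (hN h)).2.1 rfl
  have hsubL : insert i N ⊆ L := by
    intro x hx
    rcases Finset.mem_insert.1 hx with rfl | hx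
    · exact hi
    · exact ((mem_nb D).1 (hN hx)).1
  have hPD := small_pd hL h6 hsubL (by rw [Finset.card_insert_of_notMem hiN]; omega)
  have h1 := D.sq_sum_lt hPD (Finset.mem_insert_self i N) (Finset.subset_insert i N) hiN
  have h2 : ∑ q ∈ N, (1 / 4 : ℝ) ≤ ∑ q ∈ N, D.g i q ^ 2 :=
    Finset.sum_le_sum fun q hq => Adj.sq_ge D (mem_nb D |>.1 (hN hq)).2
  rw [Finset.sum_const, nsmul_eq_mul, hNc] at h2
  push_cast at h2
  linarith

include hL h6 hc hsub in
/-- the maximum is not attained at a node of degree two -/
theorem caseB {p q r : D.ι} (hp : p ∈ L) (hmax : ∀ x ∈ L, c x ≤ c p)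
    (hnb : D.nb L p = {q, r}) (hqr : q ≠ r) (hq5 : 1 / 2 ≤ D.g p q ^ 2)
    (hr : D.g p r = -(1 / 2)) : False := by
  classical
  have hqm : q ∈ D.nb L p := by rw [hnb]; simp
  have hrm : r ∈ D.nb L p := by rw [hnb]; simp
  obtain ⟨hqL, hpq⟩ := (mem_nb D).1 hqm
  obtain ⟨hrL, hpr⟩ := (mem_nb D).1 hrm
  have hpnq : p ∈ D.nb L q := (mem_nb D).2 ⟨hp, hpq.symm D⟩
  have hpnr : p ∈ D.nb L r := (mem_nb D).2 ⟨hp, hpr.symm D⟩
  have hsp := sub2 hsub hp hnb hqr
  have hcp := hc p hp
  have hcq := hc q hqL
  have hcr := hc r hrL
  have hmq := hmax q hqL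
  have hmr := hmax r hrL
  have PDs : ∀ {A : Finset D.ι}, A ⊆ L → A.card ≤ 5 → PD D.g A := fun h1 h2 => small_pd hL h6 h1 h2
  -- no triangle at p q r
  have hnqr : ¬ D.Adj q r := fun h => no_tri (PDs (A := {p, q, r}) (by
    intro x hx; simp only [Finset.mem_insert, Finset.mem_singleton] at hx
    rcases hx with rfl | rfl | rfl <;> assumption) (Finset.card_le_three.trans (by norm_num)))
    (a := p) (b := q) (d := r) (by simp) (by simp) (by simp) hpq h hpr
  rcases hpq.cases D with h3 | h4 | h5 | h6'
  · rw [h3] at hq5; norm_num at hq5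
  · -- label 4
    have s1 := s2_gt
    have s2 := s2_lt
    have s3 := s2_sq
    rcases nb_single_or hpnq with hqs | ⟨s, hs, hsp'⟩
    · have h7 := sub1 hsub hqL hqs
      rw [D.symm q p, h4] at h7
      rw [h4, hr] at hsp
      nlinarith
    · obtain ⟨hsL, hqs⟩ := (mem_nb D).1 hs
      have hsr : s ≠ r := fun e => hnqr (e ▸ hqs)
      have hsubs : ∀ {A : Finset D.ι}, (∀ x ∈ A, x ∈ L) → A ⊆ L := fun h => h
      -- r is a leaf
      have hrleaf : D.nb L r = {p} := by
        rcases nb_single_or hpnr with h | ⟨t, ht, htp⟩
        · exact h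
        · exfalso
          obtain ⟨htL, hrt⟩ := (mem_nb D).1 ht
          have htq : t ≠ q := fun e => hnqr (e ▸ hrt.symm D)
          have hts : t ≠ s := by
            rintro rfl
            exact no_quad (PDs (A := {p, q, t, r}) (by
              intro x hx; simp only [Finset.mem_insert, Finset.mem_singleton] at hx
              rcases hx with rfl | rfl | rfl | rfl <;> assumption)
              (Finset.card_le_four.trans (by norm_num)))
              (a := p) (b := q) (d := t) (e := r) (by simp) (by simp) (by simp) (by simp)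
              hpq hqs (hrt.symm D) (hpr.symm D) htp.symm hqr
          refine no_F4t (PDs (A := {s, q, p, r, t}) (by
              intro x hx; simp only [Finset.mem_insert, Finset.mem_singleton] at hx
              rcases hx with rfl | rfl | rfl | rfl | rfl <;> assumption)
              Finset.card_le_five)
            (s := s) (q := q) (p := p) (r := r) (t := t) (by simp) (by simp) (by simp) (by simp)
            (by simp) (hqs.symm D) (by rw [D.symm, h4]) hpr hrt ?_
          have := hqs.ne; have := hpq.ne; have := hpr.ne; have := hrt.ne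
          simp; tauto
      -- s is a leaf
      have hsleaf : D.nb L s = {q} := by
        rcases nb_single_or ((mem_nb D).2 ⟨hqL, hqs.symm D⟩) with h | ⟨t, ht, htq⟩
        · exact h
        · exfalso
          obtain ⟨htL, hst⟩ := (mem_nb D).1 ht
          have htp : t ≠ p := by
            rintro rfl
            have : s ∈ D.nb L t := (mem_nb D).2 ⟨hsL, hst.symm D⟩
            rw [hnb] at this
            simp only [Finset.mem_insert, Finset.mem_singleton] at this
            rcases this with h | h
            · exact hqs.ne h.symm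
            · exact hsr h
          have htr : t ≠ r := by
            rintro rfl
            have : s ∈ D.nb L t := (mem_nb D).2 ⟨hsL, hst.symm D⟩
            rw [hrleaf] at this
            exact hsp' (Finset.mem_singleton.1 this)
          refine no_F4t (PDs (A := {r, p, q, s, t}) (by
              intro x hx; simp only [Finset.mem_insert, Finset.mem_singleton] at hx
              rcases hx with rfl | rfl | rfl | rfl | rfl <;> assumption)
              Finset.card_le_five)
            (s := r) (q := p) (p := q) (r := s) (t := t) (by simp) (by simp) (by simp) (by simp)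
            (by simp) (hpr.symm D) (by rw [h4]) hqs hst ?_
          have := hqs.ne; have := hpq.ne; have := hpr.ne; have := hst.ne
          simp; tauto
      have hqnb : D.nb L q = {p, s} := by
        rcases nb_pair_or hpnq hs with h | ⟨d, hd, hdp, hds⟩
        · exact h
        · exfalso
          obtain ⟨hdL, hqd⟩ := (mem_nb D).1 hd
          refine no_heavy3 (PDs (A := {q, p, s, d}) (by
              intro x hx; simp only [Finset.mem_insert, Finset.mem_singleton] at hx
              rcases hx with rfl | rfl | rfl | rfl <;> assumption)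
              (Finset.card_le_four.trans (by norm_num)))
            (p := q) (q := p) (r := s) (s := d) (by simp) (by simp) (by simp) (by simp)
            hsp'.symm hdp.symm hds.symm (by rw [D.symm]; exact hq5) hpq.ne.symm hqs hqd
      have hqs2 : D.g q s = -(1 / 2) := by
        rcases heavy_or_simple hqs with h | h
        · exact h
        · exfalso
          refine no_heavy2 (PDs (A := {q, p, s}) (by
              intro x hx; simp only [Finset.mem_insert, Finset.mem_singleton] at hx
              rcases hx with rfl | rfl | rfl <;> assumption)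
              (Finset.card_le_three.trans (by norm_num)))
            (p := q) (q := p) (r := s) (by simp) (by simp) (by simp) hsp'.symm
            hpq.ne.symm hqs.ne (by rw [D.symm]; exact hq5) h
      have e1 := sub1 hsub hrL hrleaf
      have e2 := sub1 hsub hsL hsleaf
      have e3 := sub2 hsub hqL hqnb hsp'.symm
      rw [D.symm r p, hr] at e1
      rw [D.symm s q, hqs2] at e2
      rw [D.symm q p, h4, hqs2] at e3
      rw [h4, hr] at hsp
      nlinarith
  · -- label 5
    have s1 := c5_gt
    have s2 := c5_lt
    have s3 := c5_sq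
    have hqleaf : D.nb L q = {p} := by
      rcases nb_single_or hpnq with h | ⟨s, hs, hsp'⟩
      · exact h
      · exfalso
        obtain ⟨hsL, hqs⟩ := (mem_nb D).1 hs
        have hsr : s ≠ r := fun e => hnqr (e ▸ hqs)
        exact no_353 (PDs (A := {s, q, p, r}) (by
              intro x hx; simp only [Finset.mem_insert, Finset.mem_singleton] at hx
              rcases hx with rfl | rfl | rfl | rfl <;> assumption)
              (Finset.card_le_four.trans (by norm_num)))
            (s := s) (q := q) (p := p) (r := r) (by simp) (by simp) (by simp) (by simp)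
            (hqs.symm D) (by rw [D.symm, h5]) hpq.ne hpr hsp' hsr hqr.symm
    have e1 := sub1 hsub hqL hqleaf
    rw [D.symm q p, h5] at e1
    rw [h5, hr] at hsp
    rcases nb_single_or hpnr with hr1 | ⟨t, ht, htp⟩
    · have e2 := sub1 hsub hrL hr1
      rw [D.symm r p, hr] at e2
      nlinarith
    · obtain ⟨htL, hrt⟩ := (mem_nb D).1 ht
      have htq : t ≠ q := fun e => hnqr (e ▸ hrt.symm D)
      have hrnb : D.nb L r = {p, t} := by
        rcases nb_pair_or hpnr ht with h | ⟨d, hd, hdp, hdt⟩
        · exact h
        · exfalso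
          obtain ⟨hdL, hrd⟩ := (mem_nb D).1 hd
          have hdq : d ≠ q := fun e => hnqr (e ▸ hrd.symm D)
          refine no_sp2 (PDs (A := {p, r, q, t, d}) (by
              intro x hx; simp only [Finset.mem_insert, Finset.mem_singleton] at hx
              rcases hx with rfl | rfl | rfl | rfl | rfl <;> assumption)
              Finset.card_le_five) (p := p) (x := r) (by simp) (by simp) hpr
              (Or.inl ⟨q, by simp, by simp [hpq.ne.symm, hqr], hq5⟩)
              (Or.inr ⟨t, by simp, d, by simp, by simp [htp, hrt.ne.symm],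
                by simp [hdp, hrd.ne.symm], hdt.symm, hrt, hrd⟩)
      have hrt2 : D.g r t = -(1 / 2) := by
        rcases heavy_or_simple hrt with h | h
        · exact h
        · exfalso
          refine no_sp2 (PDs (A := {p, r, q, t}) (by
              intro x hx; simp only [Finset.mem_insert, Finset.mem_singleton] at hx
              rcases hx with rfl | rfl | rfl | rfl <;> assumption)
              (Finset.card_le_four.trans (by norm_num))) (p := p) (x := r) (by simp) (by simp) hpr
              (Or.inl ⟨q, by simp, by simp [hpq.ne.symm, hqr], hq5⟩)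
              (Or.inl ⟨t, by simp, by simp [htp, hrt.ne.symm], h⟩)
      have e2 := sub2 hsub hrL hrnb htp.symm
      rw [D.symm r p, hr, hrt2] at e2
      have hct := hc t htL
      have htleaf : D.nb L t = {r} := by
        rcases nb_single_or ((mem_nb D).2 ⟨hrL, hrt.symm D⟩) with h | ⟨u, hu, hur⟩
        · exact h
        · exfalso
          obtain ⟨huL, htu⟩ := (mem_nb D).1 hu
          have hup : u ≠ p := by
            rintro rfl
            have : t ∈ D.nb L u := (mem_nb D).2 ⟨htL, htu.symm D⟩
            rw [hnb] at this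
            simp only [Finset.mem_insert, Finset.mem_singleton] at this
            rcases this with h | h
            · exact htq h
            · exact hrt.ne h.symm
          have huq : u ≠ q := by
            rintro rfl
            have : t ∈ D.nb L u := (mem_nb D).2 ⟨htL, htu.symm D⟩
            rw [hqleaf] at this
            exact htp (Finset.mem_singleton.1 this)
          refine no_5333 (PDs (A := {q, p, r, t, u}) (by
              intro x hx; simp only [Finset.mem_insert, Finset.mem_singleton] at hx
              rcases hx with rfl | rfl | rfl | rfl | rfl <;> assumption)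
              Finset.card_le_five) (q := q) (p := p) (r := r) (t := t) (u := u) (by simp)
              (by simp) (by simp) (by simp) (by simp) (by rw [D.symm, h5]) hpr hrt htu ?_
          have := hpq.ne; have := hpr.ne; have := hrt.ne; have := htu.ne
          simp; tauto
      have e3 := sub1 hsub htL htleaf
      rw [D.symm t r, hrt2] at e3
      nlinarith
  · have h7 : 3 / 4 ≤ D.g p q ^ 2 := by
      have := s3_sq
      have h3 : 0 ≤ √3 / 2 := by positivity
      nlinarith
    have := D.sq_sum_lt (PDs (A := {p, q, r}) (by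
      intro x hx; simp only [Finset.mem_insert, Finset.mem_singleton] at hx
      rcases hx with rfl | rfl | rfl <;> assumption) (Finset.card_le_three.trans (by norm_num)))
      (p := p) (by simp) (N := {q, r}) (by intro x hx; simp at hx ⊢; tauto)
      (by simp [hpq.ne, hpr.ne])
    rw [Finset.sum_pair hqr, hr] at this
    linarith

end order

end CoxData

end MP345
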