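import Mathlib
import Pool.Agent.Work.MP_345ef2_gt.Order2

/-!
# Minimal non positive definite sets have at most five elements: nodes of degree three
-/

namespace MP345

open Finset

variable {n : ℕ}

namespace CoxData

variable {D : CoxData n}

/-- `Ẽ6` -/
theorem no_E6t {S : Finset D.ι} (hS : PD D.g S) {p x x2 y y2 z z2 : D.ι} (hp : p ∈ S) (hx : x ∈ S)
    (hx2 : x2 ∈ S) (hy : y ∈ S) (hy2 : y2 ∈ S) (hz : z ∈ S) (hz2 : z2 ∈ S) (hpx : D.Adj p x)
    (hpy : D.Adj p y) (hpz : D.Adj p z) (hxx : D.Adj x x2) (hyy : D.Adj y y2) (hzz : D.Adj z z2)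
    (hnd : [p, x, x2, y, y2, z, z2].Nodup) : False := by
  refine tree_test hS ![p, x, x2, y, y2, z, z2] ?_ ?_ ![0, 1, 0, 3, 0, 5] ?_
    ![1 / 2, 1 / 2, 1 / 2, 1 / 2, 1 / 2, 1 / 2] ?_ ![3, 2, 1, 2, 1, 2, 1] ?_ ?_
  · rw [← List.nodup_ofFn]; simpa [List.ofFn_succ] using hnd
  · intro a; fin_cases a <;> simp [hp, hx, hx2, hy, hy2, hz, hz2]
  · intro a; fin_cases a <;> simp
  · intro a
    have h1 := hpx.neg_ge
    have h2 := hpy.neg_ge
    have h3 := hpz.neg_ge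
    have h4 := hxx.neg_ge
    have h5 := hyy.neg_ge
    have h6 := hzz.neg_ge
    rw [D.symm] at h1 h2 h3 h4 h5 h6
    fin_cases a
    · change (1 / 2 : ℝ) ≤ -D.g x p; linarith
    · change (1 / 2 : ℝ) ≤ -D.g x2 x; linarith
    · change (1 / 2 : ℝ) ≤ -D.g y p; linarith
    · change (1 / 2 : ℝ) ≤ -D.g y2 y; linarith
    · change (1 / 2 : ℝ) ≤ -D.g z p; linarith
    · change (1 / 2 : ℝ) ≤ -D.g z2 z; linarith
  · intro a; fin_cases a <;> norm_num
  · simp [Fin.sum_univ_succ]; norm_num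

/-- `Ẽ7` -/
theorem no_E7t {S : Finset D.ι} (hS : PD D.g S) {p z x x2 x3 y y2 y3 : D.ι} (hp : p ∈ S)
    (hz : z ∈ S) (hx : x ∈ S) (hx2 : x2 ∈ S) (hx3 : x3 ∈ S) (hy : y ∈ S) (hy2 : y2 ∈ S)
    (hy3 : y3 ∈ S) (hpz : D.Adj p z) (hpx : D.Adj p x) (hxx : D.Adj x x2) (hx23 : D.Adj x2 x3)
    (hpy : D.Adj p y) (hyy : D.Adj y y2) (hy23 : D.Adj y2 y3)
    (hnd : [p, z, x, x2, x3, y, y2, y3].Nodup) : False := by
  refine tree_test hS ![p, z, x, x2, x3, y, y2, y3] ?_ ?_ ![0, 0, 2, 3, 0, 5, 6] ?_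
    ![1 / 2, 1 / 2, 1 / 2, 1 / 2, 1 / 2, 1 / 2, 1 / 2] ?_ ![4, 2, 3, 2, 1, 3, 2, 1] ?_ ?_
  · rw [← List.nodup_ofFn]; simpa [List.ofFn_succ] using hnd
  · intro a; fin_cases a <;> simp [hp, hz, hx, hx2, hx3, hy, hy2, hy3]
  · intro a; fin_cases a <;> simp
  · intro a
    have h1 := hpz.neg_ge
    have h2 := hpx.neg_ge
    have h3 := hxx.neg_ge
    have h4 := hx23.neg_ge
    have h5 := hpy.neg_ge
    have h6 := hyy.neg_ge
    have h7 := hy23.neg_ge
    rw [D.symm] at h1 h2 h3 h4 h5 h6 h7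
    fin_cases a
    · change (1 / 2 : ℝ) ≤ -D.g z p; linarith
    · change (1 / 2 : ℝ) ≤ -D.g x p; linarith
    · change (1 / 2 : ℝ) ≤ -D.g x2 x; linarith
    · change (1 / 2 : ℝ) ≤ -D.g x3 x2; linarith
    · change (1 / 2 : ℝ) ≤ -D.g y p; linarith
    · change (1 / 2 : ℝ) ≤ -D.g y2 y; linarith
    · change (1 / 2 : ℝ) ≤ -D.g y3 y2; linarith
  · intro a; fin_cases a <;> norm_num
  · simp [Fin.sum_univ_succ]; norm_num

/-- `Ẽ8` -/
theorem no_E8t {S : Finset D.ι} (hS : PD D.g S) {p z y y2 x1 x2 x3 x4 x5 : D.ι} (hp : p ∈ S)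
    (hz : z ∈ S) (hy : y ∈ S) (hy2 : y2 ∈ S) (hx1 : x1 ∈ S) (hx2 : x2 ∈ S) (hx3 : x3 ∈ S)
    (hx4 : x4 ∈ S) (hx5 : x5 ∈ S) (hpz : D.Adj p z) (hpy : D.Adj p y) (hyy : D.Adj y y2)
    (h1 : D.Adj p x1) (h2 : D.Adj x1 x2) (h3 : D.Adj x2 x3) (h4 : D.Adj x3 x4) (h5 : D.Adj x4 x5)
    (hnd : [p, z, y, y2, x1, x2, x3, x4, x5].Nodup) : False := by
  refine tree_test hS ![p, z, y, y2, x1, x2, x3, x4, x5] ?_ ?_ ![0, 0, 2, 0, 4, 5, 6, 7] ?_
    ![1 / 2, 1 / 2, 1 / 2, 1 / 2, 1 / 2, 1 / 2, 1 / 2, 1 / 2] ?_ ![6, 3, 4, 2, 5, 4, 3, 2, 1] ?_ ?_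
  · rw [← List.nodup_ofFn]; simpa [List.ofFn_succ] using hnd
  · intro a; fin_cases a <;> simp [hp, hz, hy, hy2, hx1, hx2, hx3, hx4, hx5]
  · intro a; fin_cases a <;> simp
  · intro a
    have k1 := hpz.neg_ge
    have k2 := hpy.neg_ge
    have k3 := hyy.neg_ge
    have k4 := h1.neg_ge
    have k5 := h2.neg_ge
    have k6 := h3.neg_ge
    have k7 := h4.neg_ge
    have k8 := h5.neg_ge
    rw [D.symm] at k1 k2 k3 k4 k5 k6 k7 k8
    fin_cases a
    · change (1 / 2 : ℝ) ≤ -D.g z p; linarith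
    · change (1 / 2 : ℝ) ≤ -D.g y p; linarith
    · change (1 / 2 : ℝ) ≤ -D.g y2 y; linarith
    · change (1 / 2 : ℝ) ≤ -D.g x1 p; linarith
    · change (1 / 2 : ℝ) ≤ -D.g x2 x1; linarith
    · change (1 / 2 : ℝ) ≤ -D.g x3 x2; linarith
    · change (1 / 2 : ℝ) ≤ -D.g x4 x3; linarith
    · change (1 / 2 : ℝ) ≤ -D.g x5 x4; linarith
  · intro a; fin_cases a <;> norm_num
  · simp [Fin.sum_univ_succ]; norm_num

section order

variable {L : Finset D.ι} (hL : D.Lan L) (h6 : 6 ≤ L.card) {c : D.ι → ℝ}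
  (hc : ∀ i ∈ L, 0 < c i) (hsub : ∀ i ∈ L, c i < ∑ j ∈ D.nb L i, -D.g i j * c j)

/-- second node on an arm of a branch node `p` with neighbours `x, y, z`, when `y2` is the second
node of another arm -/
theorem arm2 (hL : D.Lan L) (h6 : 6 ≤ L.card) {p x y z x2 y2 : D.ι} (hp : p ∈ L) (hxL : x ∈ L)
    (hyL : y ∈ L) (hzL : z ∈ L) (hx2L : x2 ∈ L) (hy2L : y2 ∈ L)
    (hpx : D.Adj p x) (hpy : D.Adj p y) (hpz : D.Adj p z) (hxy : x ≠ y) (hxz : x ≠ z) (hyz : y ≠ z)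
    (hxx : D.Adj x x2) (hx2p : x2 ≠ p) (hyy : D.Adj y y2) (hy2p : y2 ≠ p) :
    x2 ≠ y ∧ x2 ≠ z ∧ y2 ≠ x ∧ y2 ≠ z ∧ x2 ≠ y2 ∧ D.nb L x = {p, x2} ∧ D.g x x2 = -(1 / 2) := by
  classical
  have PDs : ∀ {A : Finset D.ι}, A ⊆ L → A.card ≤ 5 → PD D.g A := fun h1 h2 => small_pd hL h6 h1 h2
  have tri : ∀ {a b d : D.ι}, a ∈ L → b ∈ L → d ∈ L → D.Adj a b → D.Adj b d → D.Adj a d → False :=
    fun {a b d} ha hb hd => no_tri (PDs (A := {a, b, d}) (by
      intro x hx; simp only [Finset.mem_insert, Finset.mem_singleton] at hx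
      rcases hx with rfl | rfl | rfl <;> assumption) (Finset.card_le_three.trans (by norm_num)))
      (by simp) (by simp) (by simp)
  have quad : ∀ {a b d e : D.ι}, a ∈ L → b ∈ L → d ∈ L → e ∈ L → D.Adj a b → D.Adj b d →
      D.Adj d e → D.Adj e a → a ≠ d → b ≠ e → False :=
    fun {a b d e} ha hb hd he => no_quad (PDs (A := {a, b, d, e}) (by
      intro x hx; simp only [Finset.mem_insert, Finset.mem_singleton] at hx
      rcases hx with rfl | rfl | rfl | rfl <;> assumption)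
      (Finset.card_le_four.trans (by norm_num))) (by simp) (by simp) (by simp) (by simp)
  have a1 : x2 ≠ y := by rintro rfl; exact tri hp hxL hyL hpx hxx hpy
  have a2 : x2 ≠ z := by rintro rfl; exact tri hp hxL hzL hpx hxx hpz
  have a3 : y2 ≠ x := by rintro rfl; exact tri hp hyL hxL hpy hyy hpx
  have a4 : y2 ≠ z := by rintro rfl; exact tri hp hyL hzL hpy hyy hpz
  have a5 : x2 ≠ y2 := by
    rintro rfl
    exact quad hp hxL hx2L hyL hpx hxx (hyy.symm D) (hpy.symm D) hx2p.symm hxy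
  have hpnx : p ∈ D.nb L x := (mem_nb D).2 ⟨hp, hpx.symm D⟩
  have hx2n : x2 ∈ D.nb L x := (mem_nb D).2 ⟨hx2L, hxx⟩
  have hspp : ∀ {S : Finset D.ι}, y ∈ S → z ∈ S → Sp S {p, x} p := fun h1 h2 =>
    Or.inr ⟨y, h1, z, h2, by simp [hpy.ne.symm, hxy.symm], by simp [hpz.ne.symm, hxz.symm], hyz,
      hpy, hpz⟩
  refine ⟨a1, a2, a3, a4, a5, ?_, ?_⟩
  · rcases nb_pair_or hpnx hx2n with h | ⟨d, hd, hdp, hdx2⟩
    · exact h
    · exfalso
      obtain ⟨hdL, hxd⟩ := (mem_nb D).1 hd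
      have hdy2 : d ≠ y2 := by
        rintro rfl
        exact quad hp hxL hdL hyL hpx hxd (hyy.symm D) (hpy.symm D) hdp.symm hxy
      have hPD : PD D.g {p, x, y, z, x2, d} := hL.pd_of_ssubset (by
        intro x hx; simp only [Finset.mem_insert, Finset.mem_singleton] at hx
        rcases hx with rfl | rfl | rfl | rfl | rfl | rfl <;> assumption) (by
          intro e
          have : y2 ∈ ({p, x, y, z, x2, d} : Finset D.ι) := by rw [e]; exact hy2L
          simp only [Finset.mem_insert, Finset.mem_singleton] at this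
          have := hyy.ne.symm
          tauto)
      exact no_sp2 hPD (p := p) (x := x) (by simp) (by simp) hpx (hspp (by simp) (by simp))
        (Or.inr ⟨x2, by simp, d, by simp, by simp [hx2p, hxx.ne.symm],
          by simp [hdp, hxd.ne.symm], hdx2.symm, hxx, hxd⟩)
  · rcases heavy_or_simple hxx with h | h
    · exact h
    · exfalso
      exact no_sp2 (PDs (A := {p, x, y, z, x2}) (by
        intro x hx; simp only [Finset.mem_insert, Finset.mem_singleton] at hx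
        rcases hx with rfl | rfl | rfl | rfl | rfl <;> assumption) Finset.card_le_five)
        (p := p) (x := x) (by simp) (by simp) hpx (hspp (by simp) (by simp))
        (Or.inl ⟨x2, by simp, by simp [hx2p, hxx.ne.symm], h⟩)

include hL hsub in
/-- one step along the long arm -/
theorem arm_step {p y z y2 : D.ι} (hp : p ∈ L) (hyL : y ∈ L) (hzL : z ∈ L) (hy2L : y2 ∈ L)
    (hpy : D.Adj p y) (hpz : D.Adj p z) (hyz : y ≠ z) (hy2z : y2 ≠ z)
    (hyy : D.Adj y y2) (hny : D.nb L y = {p, y2}) (hnz : D.nb L z = {p}) (hny2 : D.nb L y2 = {y})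
    {U : Finset D.ι} {s t : D.ι} (hU : U ⊆ L) (hpU : p ∈ U) (hsU : s ∈ U) (htU : t ∈ U)
    (htp : t ≠ p) (hyU : y ∉ U) (hzU : z ∉ U) (hy2U : y2 ∉ U) (hts : D.Adj t s)
    (hgts : D.g t s = -(1 / 2))
    (hint : ∀ u ∈ U, u ≠ t → u ≠ p → ∃ v ∈ U, ∃ v' ∈ U, v ≠ v' ∧ D.Adj u v ∧ D.Adj u v')
    (hpn : ∃ v ∈ U, D.Adj p v) (hd : c s - c t < c p / 6) (hct : c p / 6 < c t) :
    ∃ t' ∈ L, t' ∉ U ∧ t' ≠ y ∧ t' ≠ z ∧ t' ≠ y2 ∧ t' ≠ s ∧ D.Adj t t' ∧ D.g t t' = -(1 / 2) ∧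
      c t - c t' < c p / 6 := by
  classical
  have htL := hU htU
  have hsn : s ∈ D.nb L t := (mem_nb D).2 ⟨hU hsU, hts⟩
  have hy2y : y2 ≠ y := hyy.ne.symm
  -- test
  have key : ∀ E : Finset D.ι, E ⊆ L → y2 ∉ E →
      ((∃ v ∈ U, ∃ v' ∈ U, v ≠ v' ∧ D.Adj t v ∧ D.Adj t v') ∨
      ((∃ v ∈ U, D.Adj t v) ∧ Sp (U ∪ insert y (insert z E)) U t)) → False := by
    intro E hE hy2E h
    have hPD : PD D.g (U ∪ insert y (insert z E)) := hL.pd_of_ssubset (by
      intro x hx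
      simp only [Finset.mem_union, Finset.mem_insert] at hx
      rcases hx with hx | rfl | rfl | hx
      · exact hU hx
      · exact hyL
      · exact hzL
      · exact hE hx) (by
        intro e
        have : y2 ∈ U ∪ insert y (insert z E) := by rw [e]; exact hy2L
        simp only [Finset.mem_union, Finset.mem_insert] at this
        tauto)
    refine core_test' hPD Finset.subset_union_left ⟨p, hpU⟩ fun u hu => ?_
    by_cases hut : u = t
    · subst hut; exact h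
    · by_cases hup : u = p
      · subst hup
        right
        exact ⟨hpn, Or.inr ⟨y, by simp, z, by simp, hyU, hzU, hyz, hpy, hpz⟩⟩
      · left; exact hint u hu hut hup
  have hnotU : ∀ t' ∈ D.nb L t, t' ≠ s → t' ∉ U := by
    intro t' ht' hne hU'
    obtain ⟨ht'L, htt'⟩ := (mem_nb D).1 ht'
    exact key ∅ (by simp) (by simp) (Or.inl ⟨s, hsU, t', hU', hne.symm, hts, htt'⟩)
  have hne3 : ∀ t' ∈ D.nb L t, t' ≠ s → t' ≠ y ∧ t' ≠ z ∧ t' ≠ y2 := by
    intro t' ht' hne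
    obtain ⟨ht'L, htt'⟩ := (mem_nb D).1 ht'
    refine ⟨?_, ?_, ?_⟩
    · rintro rfl
      have : t ∈ D.nb L t' := (mem_nb D).2 ⟨htL, htt'.symm D⟩
      rw [hny] at this
      simp only [Finset.mem_insert, Finset.mem_singleton] at this
      rcases this with h | h
      · exact htp h
      · exact hy2U (h ▸ htU)
    · rintro rfl
      have : t ∈ D.nb L t' := (mem_nb D).2 ⟨htL, htt'.symm D⟩
      rw [hnz] at this
      exact htp (Finset.mem_singleton.1 this)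
    · rintro rfl
      have : t ∈ D.nb L t' := (mem_nb D).2 ⟨htL, htt'.symm D⟩
      rw [hny2] at this
      exact hyU (Finset.mem_singleton.1 this ▸ htU)
  rcases nb_single_or hsn with h | ⟨t', ht', hne⟩
  · exfalso
    have := sub1 hsub htL h
    rw [hgts] at this
    linarith
  · obtain ⟨ht'L, htt'⟩ := (mem_nb D).1 ht'
    obtain ⟨b1, b2, b3⟩ := hne3 t' ht' hne
    have hnb : D.nb L t = {s, t'} := by
      rcases nb_pair_or hsn ht' with h | ⟨d, hd', hds, hdt'⟩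
      · exact h
      · exfalso
        obtain ⟨hdL, htd⟩ := (mem_nb D).1 hd'
        obtain ⟨b4, b5, b6⟩ := hne3 d hd' hds
        exact key {t', d} (by intro x hx; simp only [Finset.mem_insert, Finset.mem_singleton] at hx
                              rcases hx with rfl | rfl <;> assumption)
          (by simp [Ne.symm b3, Ne.symm b6]) (Or.inr ⟨⟨s, hsU, hts⟩, Or.inr ⟨t', by simp, d, by simp,
            hnotU t' ht' hne, hnotU d hd' hds, hdt'.symm, htt', htd⟩⟩)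
    have hg : D.g t t' = -(1 / 2) := by
      rcases heavy_or_simple htt' with h | h
      · exact h
      · exfalso
        exact key {t'} (by simpa using ht'L) (by simpa using Ne.symm b3)
          (Or.inr ⟨⟨s, hsU, hts⟩, Or.inl ⟨t', by simp, hnotU t' ht' hne, h⟩⟩)
    have := sub2 hsub htL hnb hne.symm
    rw [hgts, hg] at this
    exact ⟨t', ht'L, hnotU t' ht' hne, b1, b2, b3, hne, htt', hg, by linarith⟩

end order

end CoxData

end MP345
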