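import Mathlib
import Pool.Agent.Work.MP_345ef2_gt.Order3

/-!
# Minimal non positive definite sets have at most five elements: end of the proof
-/

namespace MP345

open Finset

variable {n : ℕ}

namespace CoxData

variable {D : CoxData n}

section order

variable {L : Finset D.ι} (hL : D.Lan L) (h6 : 6 ≤ L.card) {c : D.ι → ℝ}
  (hc : ∀ i ∈ L, 0 < c i) (hsub : ∀ i ∈ L, c i < ∑ j ∈ D.nb L i, -D.g i j * c j)

/-- subsets of `L` that miss a node are positive definite -/
theorem miss_pd (hL : D.Lan L) {A : Finset D.ι} {m : D.ι} (hm : m ∈ L) (hmA : m ∉ A)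
    (hA : A ⊆ L) : PD D.g A :=
  hL.pd_of_ssubset hA fun e => hmA (e ▸ hm)

include hL hc hsub in
/-- the long arm -/
theorem long_arm {p x y z y2 : D.ι} (hp : p ∈ L) (hx : x ∈ L)
    (hy : y ∈ L) (hz : z ∈ L) (hy2 : y2 ∈ L) (hpx : D.Adj p x) (hpy : D.Adj p y)
    (hpz : D.Adj p z) (hxy : x ≠ y) (hxz : x ≠ z) (hyz : y ≠ z) (hyy : D.Adj y y2)
    (hy2p : y2 ≠ p) (hy2x : y2 ≠ x) (hy2z : y2 ≠ z) (hgx : D.g x p = -(1 / 2))
    (hny : D.nb L y = {p, y2}) (hnz : D.nb L z = {p}) (hny2 : D.nb L y2 = {y})
    (hcx : 5 / 6 * c p < c x) : False := by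
  classical
  have hcp := hc p hp
  have hy2y : y2 ≠ y := hyy.ne.symm
  have dxp := hpx.ne.symm
  have dyp := hpy.ne.symm
  have dzp := hpz.ne.symm
  -- step 1
  obtain ⟨a, haL, haU, hay, haz, hay2, has, hxa, hgxa, hca⟩ :=
    arm_step hL hsub hp hy hz hy2 hpy hpz hyz hy2z hyy hny hnz hny2
      (U := {p, x}) (s := p) (t := x)
      (by intro u hu; simp only [Finset.mem_insert, Finset.mem_singleton] at hu
          rcases hu with rfl | rfl <;> assumption)
      (by simp) (by simp) (by simp) dxp (by simp [dyp, hxy.symm]) (by simp [dzp, hxz.symm])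
      (by simp [hy2p, hy2x]) (hpx.symm D) hgx
      (by intro u hu h1 h2; simp only [Finset.mem_insert, Finset.mem_singleton] at hu; tauto)
      ⟨x, by simp, hpx⟩ (by linarith) (by linarith)
  simp only [Finset.mem_insert, Finset.mem_singleton, not_or] at haU
  have gax : D.g a x = -(1 / 2) := by rw [D.symm]; exact hgxa
  -- step 2
  obtain ⟨b, hbL, hbU, hby, hbz, hby2, hbs, hab, hgab, hcb⟩ :=
    arm_step hL hsub hp hy hz hy2 hpy hpz hyz hy2z hyy hny hnz hny2
      (U := {p, x, a}) (s := x) (t := a)
      (by intro u hu; simp only [Finset.mem_insert, Finset.mem_singleton] at hu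
          rcases hu with rfl | rfl | rfl <;> assumption)
      (by simp) (by simp) (by simp) haU.1 (by simp [dyp, hxy.symm, hay.symm])
      (by simp [dzp, hxz.symm, haz.symm])
      (by simp [hy2p, hy2x, hay2.symm]) (hxa.symm D) gax
      (by intro u hu h1 h2; simp only [Finset.mem_insert, Finset.mem_singleton] at hu
          rcases hu with rfl | rfl | rfl
          · exact absurd rfl h2
          · exact ⟨p, by simp, a, by simp, Ne.symm haU.1, hpx.symm D, hxa⟩
          · exact absurd rfl h1)
      ⟨x, by simp, hpx⟩ (by linarith) (by linarith)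
  simp only [Finset.mem_insert, Finset.mem_singleton, not_or] at hbU
  have gba : D.g b a = -(1 / 2) := by rw [D.symm]; exact hgab
  -- step 3
  obtain ⟨d, hdL, hdU, hdy, hdz, hdy2, hds, hbd, hgbd, hcd⟩ :=
    arm_step hL hsub hp hy hz hy2 hpy hpz hyz hy2z hyy hny hnz hny2
      (U := {p, x, a, b}) (s := a) (t := b)
      (by intro u hu; simp only [Finset.mem_insert, Finset.mem_singleton] at hu
          rcases hu with rfl | rfl | rfl | rfl <;> assumption)
      (by simp) (by simp) (by simp) hbU.1 (by simp [dyp, hxy.symm, hay.symm, hby.symm])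
      (by simp [dzp, hxz.symm, haz.symm, hbz.symm])
      (by simp [hy2p, hy2x, hay2.symm, hby2.symm]) (hab.symm D) gba
      (by intro u hu h1 h2; simp only [Finset.mem_insert, Finset.mem_singleton] at hu
          rcases hu with rfl | rfl | rfl | rfl
          · exact absurd rfl h2
          · exact ⟨p, by simp, a, by simp, Ne.symm haU.1, hpx.symm D, hxa⟩
          · exact ⟨x, by simp, b, by simp, Ne.symm hbU.2.1, hxa.symm D, hab⟩
          · exact absurd rfl h1)
      ⟨x, by simp, hpx⟩ (by linarith) (by linarith)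
  simp only [Finset.mem_insert, Finset.mem_singleton, not_or] at hdU
  have gdb : D.g d b = -(1 / 2) := by rw [D.symm]; exact hgbd
  -- step 4
  obtain ⟨e, heL, heU, hey, hez, hey2, hes, hde, hgde, hce⟩ :=
    arm_step hL hsub hp hy hz hy2 hpy hpz hyz hy2z hyy hny hnz hny2
      (U := {p, x, a, b, d}) (s := b) (t := d)
      (by intro u hu; simp only [Finset.mem_insert, Finset.mem_singleton] at hu
          rcases hu with rfl | rfl | rfl | rfl | rfl <;> assumption)
      (by simp) (by simp) (by simp) hdU.1
      (by simp [dyp, hxy.symm, hay.symm, hby.symm, hdy.symm])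
      (by simp [dzp, hxz.symm, haz.symm, hbz.symm, hdz.symm])
      (by simp [hy2p, hy2x, hay2.symm, hby2.symm, hdy2.symm]) (hbd.symm D) gdb
      (by intro u hu h1 h2; simp only [Finset.mem_insert, Finset.mem_singleton] at hu
          rcases hu with rfl | rfl | rfl | rfl | rfl
          · exact absurd rfl h2
          · exact ⟨p, by simp, a, by simp, Ne.symm haU.1, hpx.symm D, hxa⟩
          · exact ⟨x, by simp, b, by simp, Ne.symm hbU.2.1, hxa.symm D, hab⟩
          · exact ⟨a, by simp, d, by simp, Ne.symm hdU.2.2.1, hab.symm D, hbd⟩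
          · exact absurd rfl h1)
      ⟨x, by simp, hpx⟩ (by linarith) (by linarith)
  simp only [Finset.mem_insert, Finset.mem_singleton, not_or] at heU
  have ged : D.g e d = -(1 / 2) := by rw [D.symm]; exact hgde
  -- step 5
  obtain ⟨f, hfL, hfU, hfy, hfz, hfy2, hfs, hef, hgef, hcf⟩ :=
    arm_step hL hsub hp hy hz hy2 hpy hpz hyz hy2z hyy hny hnz hny2
      (U := {p, x, a, b, d, e}) (s := d) (t := e)
      (by intro u hu; simp only [Finset.mem_insert, Finset.mem_singleton] at hu
          rcases hu with rfl | rfl | rfl | rfl | rfl | rfl <;> assumption)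
      (by simp) (by simp) (by simp) heU.1
      (by simp [dyp, hxy.symm, hay.symm, hby.symm, hdy.symm, hey.symm])
      (by simp [dzp, hxz.symm, haz.symm, hbz.symm, hdz.symm, hez.symm])
      (by simp [hy2p, hy2x, hay2.symm, hby2.symm, hdy2.symm, hey2.symm]) (hde.symm D) ged
      (by intro u hu h1 h2; simp only [Finset.mem_insert, Finset.mem_singleton] at hu
          rcases hu with rfl | rfl | rfl | rfl | rfl | rfl
          · exact absurd rfl h2
          · exact ⟨p, by simp, a, by simp, Ne.symm haU.1, hpx.symm D, hxa⟩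
          · exact ⟨x, by simp, b, by simp, Ne.symm hbU.2.1, hxa.symm D, hab⟩
          · exact ⟨a, by simp, d, by simp, Ne.symm hdU.2.2.1, hab.symm D, hbd⟩
          · exact ⟨b, by simp, e, by simp, Ne.symm heU.2.2.2.1, hbd.symm D, hde⟩
          · exact absurd rfl h1)
      ⟨x, by simp, hpx⟩ (by linarith) (by linarith)
  simp only [Finset.mem_insert, Finset.mem_singleton, not_or] at hfU
  -- the affine diagram E8
  have hPD : PD D.g {p, z, y, y2, x, a, b, d, e} := miss_pd hL hfL (by
    simp only [Finset.mem_insert, Finset.mem_singleton, not_or]; tauto) (by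
    intro u hu; simp only [Finset.mem_insert, Finset.mem_singleton] at hu
    rcases hu with rfl | rfl | rfl | rfl | rfl | rfl | rfl | rfl | rfl <;> assumption)
  refine no_E8t hPD (p := p) (z := z) (y := y) (y2 := y2) (x1 := x) (x2 := a) (x3 := b)
    (x4 := d) (x5 := e) (by simp) (by simp) (by simp) (by simp) (by simp) (by simp) (by simp)
    (by simp) (by simp) hpz hpy hyy hpx hxa hab hbd hde ?_
  simp only [List.nodup_cons, List.mem_cons, List.not_mem_nil, or_false, not_or,
    not_false_eq_true, List.nodup_nil, and_true]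
  refine ⟨?_, ?_, ?_, ?_, ?_, ?_, ?_, ?_⟩ <;> tauto

end order

end CoxData

end MP345
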