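import Mathlib
import Pool.Agent.Work.MP_345ef2_gt.Order4

/-!
# Minimal non positive definite sets have at most five elements: the theorem
-/

namespace MP345

open Finset

variable {n : ℕ}

namespace CoxData

variable {D : CoxData n}

/-- a triangle-free convenience: `nb` of a leaf -/
theorem nb_single_of {L : Finset D.ι} {i a : D.ι} (ha : a ∈ D.nb L i)
    (h : ∀ b ∈ D.nb L i, b ≠ a → False) : D.nb L i = {a} := by
  rcases nb_single_or ha with h' | ⟨b, hb, hba⟩
  · exact h'
  · exact (h b hb hba).elim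

section order

variable {L : Finset D.ι} (hL : D.Lan L) (h6 : 6 ≤ L.card) {c : D.ι → ℝ}
  (hc : ∀ i ∈ L, 0 < c i) (hsub : ∀ i ∈ L, c i < ∑ j ∈ D.nb L i, -D.g i j * c j)

/-- the two arms have a second node -/
theorem core3b (hL : D.Lan L) (h6 : 6 ≤ L.card)
    (hc : ∀ i ∈ L, 0 < c i) (hsub : ∀ i ∈ L, c i < ∑ j ∈ D.nb L i, -D.g i j * c j)
    {p x y z x2 y2 : D.ι} (hp : p ∈ L) (hnb : D.nb L p = {x, y, z})
    (hxy : x ≠ y) (hxz : x ≠ z) (hyz : y ≠ z)
    (hx2 : x2 ∈ D.nb L x) (hx2p : x2 ≠ p) (hy2 : y2 ∈ D.nb L y) (hy2p : y2 ≠ p)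
    (hnz : D.nb L z = {p})
    (gx : D.g p x = -(1 / 2)) (gy : D.g p y = -(1 / 2)) (gz : D.g p z = -(1 / 2)) : False := by
  classical
  have hcp := hc p hp
  have hxm : x ∈ D.nb L p := by rw [hnb]; simp
  have hym : y ∈ D.nb L p := by rw [hnb]; simp
  have hzm : z ∈ D.nb L p := by rw [hnb]; simp
  obtain ⟨hxL, hpx⟩ := (mem_nb D).1 hxm
  obtain ⟨hyL, hpy⟩ := (mem_nb D).1 hym
  obtain ⟨hzL, hpz⟩ := (mem_nb D).1 hzm
  obtain ⟨hx2L, hxx⟩ := (mem_nb D).1 hx2
  obtain ⟨hy2L, hyy⟩ := (mem_nb D).1 hy2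
  obtain ⟨a1, a2, a3, a4, a5, hnx, gxx⟩ :=
    arm2 hL h6 hp hxL hyL hzL hx2L hy2L hpx hpy hpz hxy hxz hyz hxx hx2p hyy hy2p
  obtain ⟨b1, b2, b3, b4, b5, hny, gyy⟩ :=
    arm2 hL h6 hp hyL hxL hzL hy2L hx2L hpy hpx hpz hxy.symm hyz hxz hyy hy2p hxx hx2p
  have dxp := hpx.ne.symm
  have dyp := hpy.ne.symm
  have dzp := hpz.ne.symm
  have dxx := hxx.ne.symm
  have dyy := hyy.ne.symm
  have hcx := hc x hxL
  have hcy := hc y hyL
  have hcz := hc z hzL
  have hcx2 := hc x2 hx2L
  have hcy2 := hc y2 hy2L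
  have sp := sub3 hsub hp hnb hxy hxz hyz
  rw [gx, gy, gz] at sp
  have sz := sub1 hsub hzL hnz
  rw [D.symm, gz] at sz
  have sx := sub2 hsub hxL hnx hx2p.symm
  rw [D.symm x p, gx, gxx] at sx
  have sy := sub2 hsub hyL hny hy2p.symm
  rw [D.symm y p, gy, gyy] at sy
  -- neighbours of `x2`, `y2` avoid p, y, z, y2 (resp. ...)
  have pent : ¬ D.Adj x2 y2 := fun h => by
    have hPD : PD D.g {p, x, x2, y2, y} := miss_pd hL hzL (by
      simp only [Finset.mem_insert, Finset.mem_singleton, not_or]; grind) (by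
      intro u hu; simp only [Finset.mem_insert, Finset.mem_singleton] at hu
      rcases hu with rfl | rfl | rfl | rfl | rfl <;> assumption)
    exact no_pent hPD (a := p) (b := x) (d := x2) (e := y2) (f := y) (by simp) (by simp)
      (by simp) (by simp) (by simp) hpx hxx h (hyy.symm D) (hpy.symm D) hx2p.symm
      a3.symm a1 hy2p hxy.symm
  have notp : ∀ {t w : D.ι}, t ∈ L → D.Adj w t → w ∈ L → w ≠ x → w ≠ y → w ≠ z → t ≠ p := by
    rintro t w ht hwt hw h1 h2 h3 rfl
    have : w ∈ D.nb L t := (mem_nb D).2 ⟨hw, hwt.symm D⟩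
    rw [hnb] at this
    simp only [Finset.mem_insert, Finset.mem_singleton] at this
    grind
  have notz : ∀ {t w : D.ι}, t ∈ L → D.Adj w t → w ∈ L → w ≠ p → t ≠ z := by
    rintro t w ht hwt hw h1 rfl
    have : w ∈ D.nb L t := (mem_nb D).2 ⟨hw, hwt.symm D⟩
    rw [hnz] at this
    exact h1 (Finset.mem_singleton.1 this)
  have notx : ∀ {t w : D.ι}, t ∈ L → D.Adj w t → w ∈ L → w ≠ p → w ≠ x2 → t ≠ x := by
    rintro t w ht hwt hw h1 h2 rfl
    have : w ∈ D.nb L t := (mem_nb D).2 ⟨hw, hwt.symm D⟩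
    rw [hnx] at this
    simp only [Finset.mem_insert, Finset.mem_singleton] at this
    grind
  have noty : ∀ {t w : D.ι}, t ∈ L → D.Adj w t → w ∈ L → w ≠ p → w ≠ y2 → t ≠ y := by
    rintro t w ht hwt hw h1 h2 rfl
    have : w ∈ D.nb L t := (mem_nb D).2 ⟨hw, hwt.symm D⟩
    rw [hny] at this
    simp only [Finset.mem_insert, Finset.mem_singleton] at this
    grind
  have hx2m : x ∈ D.nb L x2 := (mem_nb D).2 ⟨hxL, hxx.symm D⟩
  have hy2m : y ∈ D.nb L y2 := (mem_nb D).2 ⟨hyL, hyy.symm D⟩
  -- the leaf cases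
  have leafy : D.nb L y2 = {y} → False := fun hny2 => by
    have s2 := sub1 hsub hy2L hny2
    rw [D.symm, gyy] at s2
    exact long_arm hL hc hsub hp hxL hyL hzL hy2L hpx hpy hpz hxy hxz hyz hyy hy2p a3 a4
      (by rw [D.symm]; exact gx) hny hnz hny2 (by linarith)
  have leafx : D.nb L x2 = {x} → False := fun hnx2 => by
    have s2 := sub1 hsub hx2L hnx2
    rw [D.symm, gxx] at s2
    exact long_arm hL hc hsub hp hyL hxL hzL hx2L hpy hpx hpz hxy.symm hyz hxz hxx hx2p a1 a2
      (by rw [D.symm]; exact gy) hnx hnz hnx2 (by linarith)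
  rcases nb_single_or hx2m with h | ⟨x3, hx3, hx3x⟩
  · exact leafx h
  rcases nb_single_or hy2m with h | ⟨y3, hy3, hy3y⟩
  · exact leafy h
  obtain ⟨hx3L, hx23⟩ := (mem_nb D).1 hx3
  obtain ⟨hy3L, hy23⟩ := (mem_nb D).1 hy3
  have e1 : x3 ≠ p := notp hx3L hx23 hx2L dxx a1 a2
  have e2 : x3 ≠ z := notz hx3L hx23 hx2L hx2p
  have e3 : x3 ≠ y := noty hx3L hx23 hx2L hx2p a5
  have e4 : x3 ≠ y2 := fun e => pent (e ▸ hx23)
  have f1 : y3 ≠ p := notp hy3L hy23 hy2L a3 dyy a4
  have f2 : y3 ≠ z := notz hy3L hy23 hy2L hy2p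
  have f3 : y3 ≠ x := notx hy3L hy23 hy2L hy2p a5.symm
  have f4 : y3 ≠ x2 := fun e => pent ((e ▸ hy23).symm D)
  have dx3 := hx23.ne.symm
  have dy3 := hy23.ne.symm
  -- hexagon
  have cyc : ∀ {U : Finset D.ι}, U ⊆ L → z ∉ U → U.Nonempty →
      (∀ u ∈ U, ∃ v ∈ U, ∃ v' ∈ U, v ≠ v' ∧ D.Adj u v ∧ D.Adj u v') → False := by
    intro U hU hzU hne h
    exact core_test' (miss_pd hL hzL hzU hU) (Finset.Subset.refl U) hne fun u hu => Or.inl (h u hu)
  have e5 : x3 ≠ y3 := by
    rintro rfl
    refine cyc (U := {p, x, x2, x3, y2, y}) (by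
      intro u hu; simp only [Finset.mem_insert, Finset.mem_singleton] at hu
      rcases hu with rfl | rfl | rfl | rfl | rfl | rfl <;> assumption)
      (by simp only [Finset.mem_insert, Finset.mem_singleton, not_or]; grind) ⟨p, by simp⟩ ?_
    intro u hu; simp only [Finset.mem_insert, Finset.mem_singleton] at hu
    rcases hu with rfl | rfl | rfl | rfl | rfl | rfl
    · exact ⟨x, by simp, y, by simp, hxy, hpx, hpy⟩
    · exact ⟨p, by simp, x2, by simp, hx2p.symm, hpx.symm D, hxx⟩
    · exact ⟨x, by simp, x3, by simp, hx3x.symm, hxx.symm D, hx23⟩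
    · exact ⟨x2, by simp, y2, by simp, a5, hx23.symm D, hy23.symm D⟩
    · exact ⟨y, by simp, x3, by simp, hy3y.symm, hyy.symm D, hy23⟩
    · exact ⟨y2, by simp, p, by simp, hy2p, hyy, hpy.symm D⟩
  have hnd : [p, z, x, x2, x3, y, y2, y3].Nodup := by
    simp only [List.nodup_cons, List.mem_cons, List.not_mem_nil, or_false, not_or,
      not_false_eq_true, List.nodup_nil, and_true]
    refine ⟨?_, ?_, ?_, ?_, ?_, ?_, ?_⟩ <;> grind
  by_cases hU : ({p, z, x, x2, x3, y, y2, y3} : Finset D.ι) = L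
  · -- numbers
    have hex : ¬ D.Adj x2 y3 := fun h => by
      refine cyc (U := {p, x, x2, y3, y2, y}) (by
        intro u hu; simp only [Finset.mem_insert, Finset.mem_singleton] at hu
        rcases hu with rfl | rfl | rfl | rfl | rfl | rfl <;> assumption)
        (by simp only [Finset.mem_insert, Finset.mem_singleton, not_or]; grind) ⟨p, by simp⟩ ?_
      intro u hu; simp only [Finset.mem_insert, Finset.mem_singleton] at hu
      rcases hu with rfl | rfl | rfl | rfl | rfl | rfl
      · exact ⟨x, by simp, y, by simp, hxy, hpx, hpy⟩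
      · exact ⟨p, by simp, x2, by simp, hx2p.symm, hpx.symm D, hxx⟩
      · exact ⟨x, by simp, y3, by simp, f3.symm, hxx.symm D, h⟩
      · exact ⟨x2, by simp, y2, by simp, a5, h.symm D, hy23.symm D⟩
      · exact ⟨y, by simp, y3, by simp, hy3y.symm, hyy.symm D, hy23⟩
      · exact ⟨y2, by simp, p, by simp, hy2p, hyy, hpy.symm D⟩
    have hex' : ¬ D.Adj y2 x3 := fun h => by
      refine cyc (U := {p, x, x2, x3, y2, y}) (by
        intro u hu; simp only [Finset.mem_insert, Finset.mem_singleton] at hu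
        rcases hu with rfl | rfl | rfl | rfl | rfl | rfl <;> assumption)
        (by simp only [Finset.mem_insert, Finset.mem_singleton, not_or]; grind) ⟨p, by simp⟩ ?_
      intro u hu; simp only [Finset.mem_insert, Finset.mem_singleton] at hu
      rcases hu with rfl | rfl | rfl | rfl | rfl | rfl
      · exact ⟨x, by simp, y, by simp, hxy, hpx, hpy⟩
      · exact ⟨p, by simp, x2, by simp, hx2p.symm, hpx.symm D, hxx⟩
      · exact ⟨x, by simp, x3, by simp, hx3x.symm, hxx.symm D, hx23⟩
      · exact ⟨x2, by simp, y2, by simp, a5, hx23.symm D, h.symm D⟩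
      · exact ⟨y, by simp, x3, by simp, e3.symm, hyy.symm D, h⟩
      · exact ⟨y2, by simp, p, by simp, hy2p, hyy, hpy.symm D⟩
    have hept : ¬ D.Adj x3 y3 := fun h => by
      refine cyc (U := {p, x, x2, x3, y3, y2, y}) (by
        intro u hu; simp only [Finset.mem_insert, Finset.mem_singleton] at hu
        rcases hu with rfl | rfl | rfl | rfl | rfl | rfl | rfl <;> assumption)
        (by simp only [Finset.mem_insert, Finset.mem_singleton, not_or]; grind) ⟨p, by simp⟩ ?_
      intro u hu; simp only [Finset.mem_insert, Finset.mem_singleton] at hu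
      rcases hu with rfl | rfl | rfl | rfl | rfl | rfl | rfl
      · exact ⟨x, by simp, y, by simp, hxy, hpx, hpy⟩
      · exact ⟨p, by simp, x2, by simp, hx2p.symm, hpx.symm D, hxx⟩
      · exact ⟨x, by simp, x3, by simp, hx3x.symm, hxx.symm D, hx23⟩
      · exact ⟨x2, by simp, y3, by simp, f4.symm, hx23.symm D, h⟩
      · exact ⟨x3, by simp, y2, by simp, e4, h.symm D, hy23.symm D⟩
      · exact ⟨y, by simp, y3, by simp, hy3y.symm, hyy.symm D, hy23⟩
      · exact ⟨y2, by simp, p, by simp, hy2p, hyy, hpy.symm D⟩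
    -- neighbour sets
    have nbx2 : D.nb L x2 = {x, x3} := by
      rcases nb_pair_or hx2m hx3 with h | ⟨d, hd, hdx, hdx3⟩
      · exact h
      · exfalso
        obtain ⟨hdL, hxd⟩ := (mem_nb D).1 hd
        have g1 : d ≠ p := notp hdL hxd hx2L dxx a1 a2
        have g2 : d ≠ z := notz hdL hxd hx2L hx2p
        have g3 : d ≠ y := noty hdL hxd hx2L hx2p a5
        have g4 : d ≠ y2 := fun e => pent (e ▸ hxd)
        have g5 : d ≠ y3 := fun e => hex (e ▸ hxd)
        have g6 := hxd.ne.symm
        rw [← hU] at hdL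
        simp only [Finset.mem_insert, Finset.mem_singleton] at hdL
        grind
    have nbx3 : D.nb L x3 = {x2} := by
      refine nb_single_of ((mem_nb D).2 ⟨hx2L, hx23.symm D⟩) fun d hd hdx2 => ?_
      obtain ⟨hdL, hxd⟩ := (mem_nb D).1 hd
      have g1 : d ≠ p := notp hdL hxd hx3L hx3x e3 e2
      have g2 : d ≠ z := notz hdL hxd hx3L e1
      have g3 : d ≠ y := noty hdL hxd hx3L e1 e4
      have g3' : d ≠ x := notx hdL hxd hx3L e1 dx3
      have g4 : d ≠ y2 := fun e => hex' ((e ▸ hxd).symm D)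
      have g5 : d ≠ y3 := fun e => hept (e ▸ hxd)
      have g6 := hxd.ne.symm
      rw [← hU] at hdL
      simp only [Finset.mem_insert, Finset.mem_singleton] at hdL
      grind
    have nby2 : D.nb L y2 = {y, y3} := by
      rcases nb_pair_or hy2m hy3 with h | ⟨d, hd, hdx, hdx3⟩
      · exact h
      · exfalso
        obtain ⟨hdL, hxd⟩ := (mem_nb D).1 hd
        have g1 : d ≠ p := notp hdL hxd hy2L a3 dyy a4
        have g2 : d ≠ z := notz hdL hxd hy2L hy2p
        have g3 : d ≠ x := notx hdL hxd hy2L hy2p a5.symm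
        have g4 : d ≠ x2 := fun e => pent ((e ▸ hxd).symm D)
        have g5 : d ≠ x3 := fun e => hex' (e ▸ hxd)
        have g6 := hxd.ne.symm
        rw [← hU] at hdL
        simp only [Finset.mem_insert, Finset.mem_singleton] at hdL
        grind
    have nby3 : D.nb L y3 = {y2} := by
      refine nb_single_of ((mem_nb D).2 ⟨hy2L, hy23.symm D⟩) fun d hd hdx2 => ?_
      obtain ⟨hdL, hxd⟩ := (mem_nb D).1 hd
      have g1 : d ≠ p := notp hdL hxd hy3L f3 hy3y f2
      have g2 : d ≠ z := notz hdL hxd hy3L f1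
      have g3 : d ≠ y := noty hdL hxd hy3L f1 dy3
      have g3' : d ≠ x := notx hdL hxd hy3L f1 f4
      have g4 : d ≠ x2 := fun e => hex ((e ▸ hxd).symm D)
      have g5 : d ≠ x3 := fun e => hept ((e ▸ hxd).symm D)
      have g6 := hxd.ne.symm
      rw [← hU] at hdL
      simp only [Finset.mem_insert, Finset.mem_singleton] at hdL
      grind
    -- labels
    have gx23 : D.g x2 x3 = -(1 / 2) := by
      rcases heavy_or_simple hx23 with h | h
      · exact h
      · exfalso
        have hPD : PD D.g {p, x, x2, y, z, x3} := miss_pd hL hy2L (by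
          simp only [Finset.mem_insert, Finset.mem_singleton, not_or]; grind) (by
          intro u hu; simp only [Finset.mem_insert, Finset.mem_singleton] at hu
          rcases hu with rfl | rfl | rfl | rfl | rfl | rfl <;> assumption)
        refine core_test' hPD (U := {p, x, x2}) (by
          intro u hu; simp only [Finset.mem_insert, Finset.mem_singleton] at hu ⊢
          tauto) ⟨p, by simp⟩ ?_
        intro u hu; simp only [Finset.mem_insert, Finset.mem_singleton] at hu
        rcases hu with rfl | rfl | rfl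
        · right
          exact ⟨⟨x, by simp, hpx⟩, Or.inr ⟨y, by simp, z, by simp,
            by simp only [Finset.mem_insert, Finset.mem_singleton, not_or]; grind,
            by simp only [Finset.mem_insert, Finset.mem_singleton, not_or]; grind, hyz, hpy, hpz⟩⟩
        · left; exact ⟨p, by simp, x2, by simp, hx2p.symm, hpx.symm D, hxx⟩
        · right
          exact ⟨⟨x, by simp, hxx.symm D⟩, Or.inl ⟨x3, by simp,
            by simp only [Finset.mem_insert, Finset.mem_singleton, not_or]; grind, h⟩⟩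
    have gy23 : D.g y2 y3 = -(1 / 2) := by
      rcases heavy_or_simple hy23 with h | h
      · exact h
      · exfalso
        have hPD : PD D.g {p, y, y2, x, z, y3} := miss_pd hL hx2L (by
          simp only [Finset.mem_insert, Finset.mem_singleton, not_or]; grind) (by
          intro u hu; simp only [Finset.mem_insert, Finset.mem_singleton] at hu
          rcases hu with rfl | rfl | rfl | rfl | rfl | rfl <;> assumption)
        refine core_test' hPD (U := {p, y, y2}) (by
          intro u hu; simp only [Finset.mem_insert, Finset.mem_singleton] at hu ⊢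
          tauto) ⟨p, by simp⟩ ?_
        intro u hu; simp only [Finset.mem_insert, Finset.mem_singleton] at hu
        rcases hu with rfl | rfl | rfl
        · right
          exact ⟨⟨y, by simp, hpy⟩, Or.inr ⟨x, by simp, z, by simp,
            by simp only [Finset.mem_insert, Finset.mem_singleton, not_or]; grind,
            by simp only [Finset.mem_insert, Finset.mem_singleton, not_or]; grind, hxz, hpx, hpz⟩⟩
        · left; exact ⟨p, by simp, y2, by simp, hy2p.symm, hpy.symm D, hyy⟩
        · right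
          exact ⟨⟨y, by simp, hyy.symm D⟩, Or.inl ⟨y3, by simp,
            by simp only [Finset.mem_insert, Finset.mem_singleton, not_or]; grind, h⟩⟩
    have s1 := sub2 hsub hx2L nbx2 hx3x.symm
    rw [D.symm x2 x, gxx, gx23] at s1
    have s2 := sub1 hsub hx3L nbx3
    rw [D.symm x3 x2, gx23] at s2
    have s3 := sub2 hsub hy2L nby2 hy3y.symm
    rw [D.symm y2 y, gyy, gy23] at s3
    have s4 := sub1 hsub hy3L nby3
    rw [D.symm y3 y2, gy23] at s4
    linarith
  · have hPD := hL.pd_of_ssubset (A := {p, z, x, x2, x3, y, y2, y3}) (by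
      intro u hu; simp only [Finset.mem_insert, Finset.mem_singleton] at hu
      rcases hu with rfl | rfl | rfl | rfl | rfl | rfl | rfl | rfl <;> assumption) hU
    exact no_E7t hPD (p := p) (z := z) (x := x) (x2 := x2) (x3 := x3) (y := y) (y2 := y2)
      (y3 := y3) (by simp) (by simp) (by simp) (by simp) (by simp) (by simp) (by simp) (by simp)
      hpz hpx hxx hx23 hpy hyy hy23 hnd

end order

end CoxData

end MP345
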