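import Mathlib
import Pool.Agent.Work.MP_345ef2_gt.Order5

/-!
# Minimal non positive definite sets have at most five elements: the theorem
-/

namespace MP345

open Finset

variable {n : ℕ}

namespace CoxData

variable {D : CoxData n}

/-- two of the neighbours of the branch node `p` are leaves -/
theorem core3a {L : Finset D.ι} {c : D.ι → ℝ}
    (hc : ∀ i ∈ L, 0 < c i) (hsub : ∀ i ∈ L, c i < ∑ j ∈ D.nb L i, -D.g i j * c j)
    {p x y z : D.ι} (hp : p ∈ L) (hmax : ∀ i ∈ L, c i ≤ c p) (hnb : D.nb L p = {x, y, z})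
    (hxy : x ≠ y) (hxz : x ≠ z) (hyz : y ≠ z) (hx : D.nb L x = {p}) (hy : D.nb L y = {p})
    (gx : D.g p x = -(1 / 2)) (gy : D.g p y = -(1 / 2)) (gz : D.g p z = -(1 / 2)) : False := by
  classical
  have hcp := hc p hp
  have hxm : x ∈ D.nb L p := by rw [hnb]; simp
  have hym : y ∈ D.nb L p := by rw [hnb]; simp
  have hzm : z ∈ D.nb L p := by rw [hnb]; simp
  have hxL := ((mem_nb D).1 hxm).1
  have hyL := ((mem_nb D).1 hym).1
  have hzL := ((mem_nb D).1 hzm).1
  have sp := sub3 hsub hp hnb hxy hxz hyz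
  rw [gx, gy, gz] at sp
  have s1 := sub1 hsub hxL hx
  rw [D.symm, gx] at s1
  have s2 := sub1 hsub hyL hy
  rw [D.symm, gy] at s2
  have := hmax z hzL
  linarith

/-- all three arms have a second node -/
theorem core3c {L : Finset D.ι} (hL : D.Lan L) (h6 : 6 ≤ L.card) {c : D.ι → ℝ}
    (hc : ∀ i ∈ L, 0 < c i) (hsub : ∀ i ∈ L, c i < ∑ j ∈ D.nb L i, -D.g i j * c j)
    {p x y z x2 y2 z2 : D.ι} (hp : p ∈ L) (hnb : D.nb L p = {x, y, z})
    (hxy : x ≠ y) (hxz : x ≠ z) (hyz : y ≠ z)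
    (hx2 : x2 ∈ D.nb L x) (hx2p : x2 ≠ p) (hy2 : y2 ∈ D.nb L y) (hy2p : y2 ≠ p)
    (hz2 : z2 ∈ D.nb L z) (hz2p : z2 ≠ p)
    (gx : D.g p x = -(1 / 2)) (gy : D.g p y = -(1 / 2)) (gz : D.g p z = -(1 / 2)) : False := by
  classical
  have hcp := hc p hp
  have hxm : x ∈ D.nb L p := by rw [hnb]; simp
  have hym : y ∈ D.nb L p := by rw [hnb]; simp
  have hzm : z ∈ D.nb L p := by rw [hnb]; simp
  obtain ⟨hxL, hpx⟩ := (mem_nb D).1 hxm
  obtain ⟨hyL, hpy⟩ := (mem_nb D).1 hym
  obtain ⟨hzL, hpz⟩ := (mem_nb D).1 hzm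
  obtain ⟨hx2L, hxx⟩ := (mem_nb D).1 hx2
  obtain ⟨hy2L, hyy⟩ := (mem_nb D).1 hy2
  obtain ⟨hz2L, hzz⟩ := (mem_nb D).1 hz2
  obtain ⟨a1, a2, a3, a4, a5, hnx, gxx⟩ :=
    arm2 hL h6 hp hxL hyL hzL hx2L hy2L hpx hpy hpz hxy hxz hyz hxx hx2p hyy hy2p
  obtain ⟨b1, b2, b3, b4, b5, hny, gyy⟩ :=
    arm2 hL h6 hp hyL hxL hzL hy2L hx2L hpy hpx hpz hxy.symm hyz hxz hyy hy2p hxx hx2p
  obtain ⟨c1, c2, c3, c4, c5', hnz, gzz⟩ :=
    arm2 hL h6 hp hzL hxL hyL hz2L hx2L hpz hpx hpy hxz.symm hyz.symm hxy hzz hz2p hxx hx2p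
  have dxp := hpx.ne.symm
  have dyp := hpy.ne.symm
  have dzp := hpz.ne.symm
  have dxx := hxx.ne.symm
  have dyy := hyy.ne.symm
  have dzz := hzz.ne.symm
  have d5 : y2 ≠ z2 := by
    rintro rfl
    have : z ∈ D.nb L y2 := (mem_nb D).2 ⟨hzL, hzz.symm D⟩
    have h4 : z ∈ L := hzL
    -- 4-cycle p y y2 z
    exact no_quad (small_pd hL h6 (A := {p, y, y2, z}) (by
      intro x hx; simp only [Finset.mem_insert, Finset.mem_singleton] at hx
      rcases hx with rfl | rfl | rfl | rfl <;> assumption)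
      (Finset.card_le_four.trans (by norm_num)))
      (a := p) (b := y) (d := y2) (e := z) (by simp) (by simp) (by simp) (by simp) hpy hyy
      (hzz.symm D) (hpz.symm D) hy2p.symm hyz
  have hnd : [p, x, x2, y, y2, z, z2].Nodup := by
    simp only [List.nodup_cons, List.mem_cons, List.not_mem_nil, or_false, not_or,
      not_false_eq_true, List.nodup_nil, and_true]
    refine ⟨?_, ?_, ?_, ?_, ?_, ?_⟩ <;> grind
  by_cases hU : ({p, x, x2, y, y2, z, z2} : Finset D.ι) = L
  · have pent : ∀ {a a2 b b2 m : D.ι}, a ∈ L → a2 ∈ L → b ∈ L → b2 ∈ L → m ∈ L →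
        D.Adj p a → D.Adj a a2 → D.Adj p b → D.Adj b b2 → p ≠ a2 → a ≠ b2 → a2 ≠ b → b2 ≠ p →
        b ≠ a → m ≠ p → m ≠ a → m ≠ a2 → m ≠ b2 → m ≠ b → ¬ D.Adj a2 b2 := by
      intro a a2 b b2 m haL ha2L hbL hb2L hmL h1 h2 h3 h4 n1 n2 n3 n4 n5 m1 m2 m3 m4 m5 h
      have hPD : PD D.g {p, a, a2, b2, b} := miss_pd hL hmL (by
        simp only [Finset.mem_insert, Finset.mem_singleton, not_or]
        exact ⟨m1, m2, m3, m4, m5⟩) (by
        intro u hu; simp only [Finset.mem_insert, Finset.mem_singleton] at hu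
        rcases hu with rfl | rfl | rfl | rfl | rfl <;> assumption)
      exact no_pent hPD (a := p) (b := a) (d := a2) (e := b2) (f := b) (by simp) (by simp)
        (by simp) (by simp) (by simp) h1 h2 h (h4.symm D) (h3.symm D) n1 n2 n3 n4 n5
    have p1 := pent hxL hx2L hyL hy2L hzL hpx hxx hpy hyy hx2p.symm a3.symm a1 hy2p hxy.symm
      dzp hxz.symm a2.symm a4.symm hyz.symm
    have p2 := pent hxL hx2L hzL hz2L hyL hpx hxx hpz hzz hx2p.symm c1.symm a2 hz2p hxz.symm
      dyp hxy.symm a1.symm c2.symm hyz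
    have p3 := pent hyL hy2L hzL hz2L hxL hpy hyy hpz hzz hy2p.symm c2.symm a4 hz2p hyz.symm
      dxp hxy a3.symm c1.symm hxz
    have notp : ∀ {w : D.ι}, w ∈ L → w ≠ x → w ≠ y → w ≠ z → ¬ D.Adj w p := by
      intro w hw h1 h2 h3 h
      have : w ∈ D.nb L p := (mem_nb D).2 ⟨hw, h.symm D⟩
      rw [hnb] at this
      simp only [Finset.mem_insert, Finset.mem_singleton] at this
      tauto
    have notx : ∀ {w : D.ι}, w ∈ L → w ≠ p → w ≠ x2 → ¬ D.Adj w x := by
      intro w hw h1 h2 h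
      have : w ∈ D.nb L x := (mem_nb D).2 ⟨hw, h.symm D⟩
      rw [hnx] at this
      simp only [Finset.mem_insert, Finset.mem_singleton] at this
      tauto
    have noty : ∀ {w : D.ι}, w ∈ L → w ≠ p → w ≠ y2 → ¬ D.Adj w y := by
      intro w hw h1 h2 h
      have : w ∈ D.nb L y := (mem_nb D).2 ⟨hw, h.symm D⟩
      rw [hny] at this
      simp only [Finset.mem_insert, Finset.mem_singleton] at this
      tauto
    have notz : ∀ {w : D.ι}, w ∈ L → w ≠ p → w ≠ z2 → ¬ D.Adj w z := by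
      intro w hw h1 h2 h
      have : w ∈ D.nb L z := (mem_nb D).2 ⟨hw, h.symm D⟩
      rw [hnz] at this
      simp only [Finset.mem_insert, Finset.mem_singleton] at this
      tauto
    have nbx2 : D.nb L x2 = {x} := by
      refine nb_single_of ((mem_nb D).2 ⟨hxL, hxx.symm D⟩) fun d hd hdx => ?_
      obtain ⟨hdL, hxd⟩ := (mem_nb D).1 hd
      have g0 := hxd.ne.symm
      rw [← hU] at hdL
      simp only [Finset.mem_insert, Finset.mem_singleton] at hdL
      rcases hdL with rfl | rfl | rfl | rfl | rfl | rfl | rfl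
      · exact notp hx2L dxx a1 a2 hxd
      · exact hdx rfl
      · exact g0 rfl
      · exact noty hx2L hx2p a5 hxd
      · exact p1 hxd
      · exact notz hx2L hx2p c5'.symm hxd
      · exact p2 hxd
    have nby2 : D.nb L y2 = {y} := by
      refine nb_single_of ((mem_nb D).2 ⟨hyL, hyy.symm D⟩) fun d hd hdx => ?_
      obtain ⟨hdL, hxd⟩ := (mem_nb D).1 hd
      have g0 := hxd.ne.symm
      rw [← hU] at hdL
      simp only [Finset.mem_insert, Finset.mem_singleton] at hdL
      rcases hdL with rfl | rfl | rfl | rfl | rfl | rfl | rfl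
      · exact notp hy2L a3 dyy a4 hxd
      · exact notx hy2L hy2p a5.symm hxd
      · exact p1 (hxd.symm D)
      · exact hdx rfl
      · exact g0 rfl
      · exact notz hy2L hy2p d5 hxd
      · exact p3 hxd
    have nbz2 : D.nb L z2 = {z} := by
      refine nb_single_of ((mem_nb D).2 ⟨hzL, hzz.symm D⟩) fun d hd hdx => ?_
      obtain ⟨hdL, hxd⟩ := (mem_nb D).1 hd
      have g0 := hxd.ne.symm
      rw [← hU] at hdL
      simp only [Finset.mem_insert, Finset.mem_singleton] at hdL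
      rcases hdL with rfl | rfl | rfl | rfl | rfl | rfl | rfl
      · exact notp hz2L c1 c2 dzz hxd
      · exact notx hz2L hz2p c5' hxd
      · exact p2 (hxd.symm D)
      · exact noty hz2L hz2p d5.symm hxd
      · exact p3 (hxd.symm D)
      · exact hdx rfl
      · exact g0 rfl
    have sp := sub3 hsub hp hnb hxy hxz hyz
    rw [gx, gy, gz] at sp
    have sx := sub2 hsub hxL hnx hx2p.symm
    rw [D.symm x p, gx, gxx] at sx
    have sy := sub2 hsub hyL hny hy2p.symm
    rw [D.symm y p, gy, gyy] at sy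
    have sz := sub2 hsub hzL hnz hz2p.symm
    rw [D.symm z p, gz, gzz] at sz
    have s1 := sub1 hsub hx2L nbx2
    rw [D.symm, gxx] at s1
    have s2 := sub1 hsub hy2L nby2
    rw [D.symm, gyy] at s2
    have s3 := sub1 hsub hz2L nbz2
    rw [D.symm, gzz] at s3
    linarith
  · have hPD := hL.pd_of_ssubset (A := {p, x, x2, y, y2, z, z2}) (by
      intro u hu; simp only [Finset.mem_insert, Finset.mem_singleton] at hu
      rcases hu with rfl | rfl | rfl | rfl | rfl | rfl | rfl <;> assumption) hU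
    exact no_E6t hPD (p := p) (x := x) (x2 := x2) (y := y) (y2 := y2) (z := z) (z2 := z2)
      (by simp) (by simp) (by simp) (by simp) (by simp) (by simp) (by simp)
      hpx hpy hpz hxx hyy hzz hnd

/-- the maximum is not attained at a node of degree three -/
theorem core3 {L : Finset D.ι} (hL : D.Lan L) (h6 : 6 ≤ L.card) {c : D.ι → ℝ}
    (hc : ∀ i ∈ L, 0 < c i) (hsub : ∀ i ∈ L, c i < ∑ j ∈ D.nb L i, -D.g i j * c j)
    {p x y z : D.ι} (hp : p ∈ L) (hmax : ∀ i ∈ L, c i ≤ c p) (hnb : D.nb L p = {x, y, z})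
    (hxy : x ≠ y) (hxz : x ≠ z) (hyz : y ≠ z) : False := by
  classical
  have hxm : x ∈ D.nb L p := by rw [hnb]; simp
  have hym : y ∈ D.nb L p := by rw [hnb]; simp
  have hzm : z ∈ D.nb L p := by rw [hnb]; simp
  obtain ⟨hxL, hpx⟩ := (mem_nb D).1 hxm
  obtain ⟨hyL, hpy⟩ := (mem_nb D).1 hym
  obtain ⟨hzL, hpz⟩ := (mem_nb D).1 hzm
  have hPD : PD D.g {p, x, y, z} := small_pd hL h6 (by
    intro u hu; simp only [Finset.mem_insert, Finset.mem_singleton] at hu
    rcases hu with rfl | rfl | rfl | rfl <;> assumption)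
    (Finset.card_le_four.trans (by norm_num))
  have gx : D.g p x = -(1 / 2) := by
    rcases heavy_or_simple hpx with h | h
    · exact h
    · exact (no_heavy3 hPD (p := p) (q := x) (r := y) (s := z) (by simp) (by simp) (by simp)
        (by simp) hxy hxz hyz h hpx.ne hpy hpz).elim
  have gy : D.g p y = -(1 / 2) := by
    rcases heavy_or_simple hpy with h | h
    · exact h
    · exact (no_heavy3 hPD (p := p) (q := y) (r := x) (s := z) (by simp) (by simp) (by simp)
        (by simp) hxy.symm hyz hxz h hpy.ne hpx hpz).elim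
  have gz : D.g p z = -(1 / 2) := by
    rcases heavy_or_simple hpz with h | h
    · exact h
    · exact (no_heavy3 hPD (p := p) (q := z) (r := x) (s := y) (by simp) (by simp) (by simp)
        (by simp) hxz.symm hyz.symm hxy h hpz.ne hpx hpy).elim
  have hpnx : p ∈ D.nb L x := (mem_nb D).2 ⟨hp, hpx.symm D⟩
  have hpny : p ∈ D.nb L y := (mem_nb D).2 ⟨hp, hpy.symm D⟩
  have hpnz : p ∈ D.nb L z := (mem_nb D).2 ⟨hp, hpz.symm D⟩
  have hnb1 : D.nb L p = {x, z, y} := by rw [hnb]; congr 1; exact Finset.pair_comm _ _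
  have hnb2 : D.nb L p = {y, z, x} := by
    rw [hnb]; ext w; simp only [Finset.mem_insert, Finset.mem_singleton]; tauto
  rcases nb_single_or hpnx with hx | ⟨x2, hx2, hx2p⟩
  · rcases nb_single_or hpny with hy | ⟨y2, hy2, hy2p⟩
    · exact core3a hc hsub hp hmax hnb hxy hxz hyz hx hy gx gy gz
    · rcases nb_single_or hpnz with hz | ⟨z2, hz2, hz2p⟩
      · exact core3a hc hsub hp hmax hnb1 hxz hxy hyz.symm hx hz gx gz gy
      · exact core3b hL h6 hc hsub hp hnb2 hyz hxy.symm hxz.symm hy2 hy2p hz2 hz2p hx gy gz gx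
  · rcases nb_single_or hpny with hy | ⟨y2, hy2, hy2p⟩
    · rcases nb_single_or hpnz with hz | ⟨z2, hz2, hz2p⟩
      · exact core3a hc hsub hp hmax hnb2 hyz hxy.symm hxz.symm hy hz gy gz gx
      · exact core3b hL h6 hc hsub hp hnb1 hxz hxy hyz.symm hx2 hx2p hz2 hz2p hy gx gz gy
    · rcases nb_single_or hpnz with hz | ⟨z2, hz2, hz2p⟩
      · exact core3b hL h6 hc hsub hp hnb hxy hxz hyz hx2 hx2p hy2 hy2p hz gx gy gz
      · exact core3c hL h6 hc hsub hp hnb hxy hxz hyz hx2 hx2p hy2 hy2p hz2 hz2p gx gy gz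

/-- **Lannér sets have at most five elements.** -/
theorem Lan.card_le {L : Finset D.ι} (hL : D.Lan L) : L.card ≤ 5 := by
  classical
  by_contra hlt
  push Not at hlt
  have h6 : 6 ≤ L.card := hlt
  obtain ⟨c, hc, hsub⟩ := hL.exists_sub'
  obtain ⟨p, hp, hmax⟩ := Finset.exists_max_image L c hL.nonempty
  have hcp := hc p hp
  have hd := deg_le3 hL h6 hp
  have PDs : ∀ {A : Finset D.ι}, A ⊆ L → A.card ≤ 5 → PD D.g A := fun h1 h2 => small_pd hL h6 h1 h2
  have hs := hsub p hp
  interval_cases hcard : (D.nb L p).card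
  · rw [Finset.card_eq_zero] at hcard
    rw [hcard, Finset.sum_empty] at hs
    linarith
  · obtain ⟨q, hq⟩ := Finset.card_eq_one.1 hcard
    have hqm : q ∈ D.nb L p := by rw [hq]; simp
    obtain ⟨hqL, hpq⟩ := (mem_nb D).1 hqm
    have h1 := sub1 hsub hp hq
    have h2 := hmax q hqL
    have h3 := D.sq_sum_lt (PDs (A := {p, q}) (by
      intro u hu; simp only [Finset.mem_insert, Finset.mem_singleton] at hu
      rcases hu with rfl | rfl <;> assumption) (Finset.card_le_two.trans (by norm_num)))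
      (p := p) (N := {q}) (by simp) (by simp) (by simp [hpq.ne])
    rw [Finset.sum_singleton] at h3
    have h4 : -D.g p q < 1 := by nlinarith [hpq.neg_ge]
    have h5 : -D.g p q * c q ≤ 1 * c p := mul_le_mul h4.le h2 (hc q hqL).le (by norm_num)
    linarith
  · obtain ⟨q, r, hqr, hnb⟩ := Finset.card_eq_two.1 hcard
    have hqm : q ∈ D.nb L p := by rw [hnb]; simp
    have hrm : r ∈ D.nb L p := by rw [hnb]; simp
    obtain ⟨hqL, hpq⟩ := (mem_nb D).1 hqm
    obtain ⟨hrL, hpr⟩ := (mem_nb D).1 hrm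
    rcases heavy_or_simple hpq with h1 | h1
    · rcases heavy_or_simple hpr with h2 | h2
      · have h3 := sub2 hsub hp hnb hqr
        rw [h1, h2] at h3
        have := hmax q hqL
        have := hmax r hrL
        linarith
      · exact caseB hL h6 hc hsub hp hmax (by rw [hnb]; exact Finset.pair_comm _ _) hqr.symm h2 h1
    · rcases heavy_or_simple hpr with h2 | h2
      · exact caseB hL h6 hc hsub hp hmax hnb hqr h1 h2
      · exact no_heavy2 (PDs (A := {p, q, r}) (by
          intro u hu; simp only [Finset.mem_insert, Finset.mem_singleton] at hu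
          rcases hu with rfl | rfl | rfl <;> assumption)
          (Finset.card_le_three.trans (by norm_num)))
          (by simp) (by simp) (by simp) hqr hpq.ne hpr.ne h1 h2
  · obtain ⟨x, y, z, hxy, hxz, hyz, hnb⟩ := Finset.card_eq_three.1 hcard
    exact core3 hL h6 hc hsub hp hmax hnb hxy hxz hyz

end CoxData

end MP345
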