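import Mathlib
import Pool.Agent.Work.MP_345ef2_gt.Order6

/-!
# The shapes of the minimal non positive definite sets of order four and five
-/

namespace MP345

open Finset

variable {n : ℕ}

theorem nd4 {α : Type*} {a b c d : α} (h1 : a ≠ b) (h2 : a ≠ c) (h3 : a ≠ d) (h4 : b ≠ c)
    (h5 : b ≠ d) (h6 : c ≠ d) : [a, b, c, d].Nodup := by
  simp [h1, h2, h3, h4, h5, h6]

theorem nd5 {α : Type*} {a b c d e : α} (h1 : a ≠ b) (h2 : a ≠ c) (h3 : a ≠ d) (h3' : a ≠ e)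
    (h4 : b ≠ c) (h5 : b ≠ d) (h5' : b ≠ e) (h6 : c ≠ d) (h6' : c ≠ e) (h7 : d ≠ e) :
    [a, b, c, d, e].Nodup := by
  simp [h1, h2, h3, h3', h4, h5, h5', h6, h6', h7]

theorem set4_acbd {α : Type*} [DecidableEq α] (a b c d : α) :
    ({a, b, c, d} : Finset α) = {a, c, b, d} := by
  ext x; simp only [Finset.mem_insert, Finset.mem_singleton]; tauto

theorem set4_adbc {α : Type*} [DecidableEq α] (a b c d : α) :
    ({a, b, c, d} : Finset α) = {a, d, b, c} := by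
  ext x; simp only [Finset.mem_insert, Finset.mem_singleton]; tauto

theorem set4_rev {α : Type*} [DecidableEq α] (a b c d : α) :
    ({a, b, c, d} : Finset α) = {d, c, b, a} := by
  ext x; simp only [Finset.mem_insert, Finset.mem_singleton]; tauto

theorem set5_rev {α : Type*} [DecidableEq α] (a b c d e : α) :
    ({a, b, c, d, e} : Finset α) = {e, d, c, b, a} := by
  ext x; simp only [Finset.mem_insert, Finset.mem_singleton]; tauto

theorem set5_rot {α : Type*} [DecidableEq α] (a b c d e : α) :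
    ({a, b, c, d, e} : Finset α) = {b, c, d, e, a} := by
  ext x; simp only [Finset.mem_insert, Finset.mem_singleton]; tauto

namespace CoxData

variable (D : CoxData n)

/-- a cycle of length four -/
def TCyc4 (L : Finset D.ι) : Prop :=
  ∃ a b c d, L = {a, b, c, d} ∧ [a, b, c, d].Nodup ∧ D.Adj a b ∧ D.Adj b c ∧ D.Adj c d ∧
    D.Adj d a ∧ D.g a c = 0 ∧ D.g b d = 0

/-- the star with labels 5, 3, 3 -/
def TStar (L : Finset D.ι) : Prop :=
  ∃ z u p q, L = {z, u, p, q} ∧ [z, u, p, q].Nodup ∧ D.g z u = -c5 ∧ D.g z p = -(1 / 2) ∧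
    D.g z q = -(1 / 2) ∧ D.g u p = 0 ∧ D.g u q = 0 ∧ D.g p q = 0

/-- a path of four nodes with the given weights -/
def TPath4 (x y z : ℝ) (L : Finset D.ι) : Prop :=
  ∃ a b c d, L = {a, b, c, d} ∧ [a, b, c, d].Nodup ∧ D.g a b = -x ∧ D.g b c = -y ∧
    D.g c d = -z ∧ D.g a c = 0 ∧ D.g a d = 0 ∧ D.g b d = 0

/-- the fork -/
def TFork (L : Finset D.ι) : Prop :=
  ∃ u v w p q, L = {u, v, w, p, q} ∧ [u, v, w, p, q].Nodup ∧ D.g u v = -c5 ∧
    D.g v w = -(1 / 2) ∧ D.g w p = -(1 / 2) ∧ D.g w q = -(1 / 2) ∧ D.g u w = 0 ∧ D.g u p = 0 ∧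
    D.g u q = 0 ∧ D.g v p = 0 ∧ D.g v q = 0 ∧ D.g p q = 0

/-- the path with labels 5, 3, 3 and a last label -/
def TPath5 (z : ℝ) (L : Finset D.ι) : Prop :=
  ∃ a b c d e, L = {a, b, c, d, e} ∧ [a, b, c, d, e].Nodup ∧ D.g a b = -c5 ∧
    D.g b c = -(1 / 2) ∧ D.g c d = -(1 / 2) ∧ D.g d e = -z ∧ D.g a c = 0 ∧ D.g a d = 0 ∧
    D.g a e = 0 ∧ D.g b d = 0 ∧ D.g b e = 0 ∧ D.g c e = 0

/-- the cycle with labels 4, 3, 3, 3, 3 -/
def TCyc5 (L : Finset D.ι) : Prop :=
  ∃ a b c d e, L = {a, b, c, d, e} ∧ [a, b, c, d, e].Nodup ∧ D.g a b = -(√2 / 2) ∧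
    D.g b c = -(1 / 2) ∧ D.g c d = -(1 / 2) ∧ D.g d e = -(1 / 2) ∧ D.g e a = -(1 / 2) ∧
    D.g a c = 0 ∧ D.g a d = 0 ∧ D.g b d = 0 ∧ D.g b e = 0 ∧ D.g c e = 0

variable {D}

/-- **Connectedness** -/
theorem Lan.conn {L : Finset D.ι} (hL : D.Lan L) {A : Finset D.ι} (hA : A ⊆ L)
    (hne : A.Nonempty) (hneL : A ≠ L) : ∃ i ∈ A, ∃ j ∈ L, j ∉ A ∧ D.Adj i j := by
  classical
  by_contra hcon
  push Not at hcon
  obtain ⟨c, h1, h2, h3⟩ := hL.exists_sub
  have hPD := hL.pd_of_ssubset hA hneL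
  let e : D.ι → ℝ := fun i => if i ∈ A then c i else 0
  obtain ⟨a, ha⟩ := hne
  refine D.pd_test hPD e (fun i hi => by simp [e, hi]) ⟨a, by simp [e, ha, h1 a (hA ha)]⟩
    (fun i => ?_) fun i hi => ?_
  · by_cases h : i ∈ A
    · simp [e, h, (h1 i (hA h)).le]
    · simp [e, h]
  · have hiA : i ∈ A := by
      by_contra h; simp [e, h] at hi
    have h4 := h3 i (hA hiA)
    have h5 : ∑ j, D.g i j * e j = ∑ j, D.g i j * c j := by
      refine Finset.sum_congr rfl fun j _ => ?_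
      by_cases hj : j ∈ A
      · simp [e, hj]
      · by_cases hjL : j ∈ L
        · have := hcon i hiA j hjL hj
          have hne : i ≠ j := fun h => hj (h ▸ hiA)
          rw [D.g_eq_zero hne this]; simp
        · simp [e, hj, h2 j hjL]
    rw [h5]; exact h4.le

/-- a convenient form of the strict inequalities, with explicit neighbour lists -/
theorem Lan.sub_le {L : Finset D.ι} {c : D.ι → ℝ} (hc : ∀ i ∈ L, 0 < c i)
    (hsub : ∀ i ∈ L, c i < ∑ j ∈ D.nb L i, -D.g i j * c j) {i : D.ι} (hi : i ∈ L)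
    (N : Finset D.ι) (hN : ∀ j ∈ L, D.Adj i j → j ∈ N) (hNL : N ⊆ L) (hiN : i ∉ N) :
    c i < ∑ j ∈ N, -D.g i j * c j := by
  classical
  refine (hsub i hi).trans_le (Finset.sum_le_sum_of_subset_of_nonneg (fun j hj => ?_)
    fun j hj _ => ?_)
  · obtain ⟨h1, h2⟩ := (mem_nb D).1 hj
    exact hN j h1 h2
  · have h1 := D.g_nonpos (i := i) (j := j) (fun e => hiN (e ▸ hj))
    have h2 := hc j (hNL hj)
    nlinarith

/-- in a positive definite set with two neighbours, one simple: the label of the other one is at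
most 5 -/
theorem label_cases {S : Finset D.ι} (hS : PD D.g S) {p q r : D.ι} (hp : p ∈ S) (hq : q ∈ S)
    (hr : r ∈ S) (hqr : q ≠ r) (hpq : D.Adj p q) (hpr : D.Adj p r) :
    D.g p q = -(1 / 2) ∨ (D.g p q = -(√2 / 2) ∧ D.g p r = -(1 / 2)) ∨
      (D.g p q = -c5 ∧ D.g p r = -(1 / 2)) := by
  classical
  have hs := D.sq_sum_lt hS hp (N := {q, r}) (by
    intro x hx; simp only [Finset.mem_insert, Finset.mem_singleton] at hx
    rcases hx with rfl | rfl <;> assumption) (by simp [hpq.ne, hpr.ne])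
  rw [Finset.sum_pair hqr] at hs
  have h5 := c5_gt
  have h4 := s2_sq
  have hr4 := hpr.sq_ge D
  have simple : 1 / 2 ≤ D.g p q ^ 2 → D.g p r = -(1 / 2) := fun h => by
    rcases heavy_or_simple hpr with h' | h'
    · exact h'
    · linarith
  rcases hpq.cases D with h | h | h | h
  · exact Or.inl h
  · refine Or.inr (Or.inl ⟨h, simple ?_⟩)
    rw [h]; nlinarith
  · refine Or.inr (Or.inr ⟨h, simple ?_⟩)
    rw [h]; nlinarith
  · exfalso
    have h3 := s3_sq
    have h30 : 0 ≤ √3 / 2 := by positivity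
    nlinarith

end CoxData

end MP345
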