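import Mathlib
import Pool.Agent.Work.MP_345ef2_gt.Shape

/-!
# The shapes of the minimal non positive definite sets of order four
-/

namespace MP345

open Finset

variable {n : ℕ}

namespace CoxData

variable {D : CoxData n}

theorem Adj.g_pos_neg {i j : D.ι} (h : D.Adj i j) : 0 < -D.g i j := by
  have := h.neg_ge; linarith

/-- no triangles in a Lannér set of order at least 4 -/
theorem Lan.no_tri {L : Finset D.ι} (hL : D.Lan L) (h4 : 4 ≤ L.card) {a b d : D.ι}
    (ha : a ∈ L) (hb : b ∈ L) (hd : d ∈ L) (hab : D.Adj a b) (hbd : D.Adj b d)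
    (had : D.Adj a d) : False := by
  classical
  refine CoxData.no_tri (S := {a, b, d}) (hL.pd_of_ssubset (by
    intro x hx; simp only [Finset.mem_insert, Finset.mem_singleton] at hx
    rcases hx with rfl | rfl | rfl <;> assumption) (by
    rintro rfl
    have := Finset.card_le_three (a := a) (b := b) (c := d)
    omega)) (by simp) (by simp) (by simp) hab hbd had

theorem pd3 {L : Finset D.ι} (hL : D.Lan L) (h4 : 4 ≤ L.card) {a b d : D.ι}
    (ha : a ∈ L) (hb : b ∈ L) (hd : d ∈ L) : PD D.g {a, b, d} := by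
  classical
  refine hL.pd_of_ssubset (by
    intro x hx; simp only [Finset.mem_insert, Finset.mem_singleton] at hx
    rcases hx with rfl | rfl | rfl <;> assumption) (by
    rintro rfl
    have := Finset.card_le_three (a := a) (b := b) (c := d)
    omega)

theorem pd4 {L : Finset D.ι} (hL : D.Lan L) (h5 : 5 ≤ L.card) {a b d e : D.ι}
    (ha : a ∈ L) (hb : b ∈ L) (hd : d ∈ L) (he : e ∈ L) : PD D.g {a, b, d, e} := by
  classical
  refine hL.pd_of_ssubset (by
    intro x hx; simp only [Finset.mem_insert, Finset.mem_singleton] at hx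
    rcases hx with rfl | rfl | rfl | rfl <;> assumption) (by
    rintro rfl
    have := Finset.card_le_four (a := a) (b := b) (c := d) (d := e)
    omega)

/-- a star with centre `z` is of type `[5, 3^{1,1}]` -/
theorem star_type {L : Finset D.ι} (hL : D.Lan L) {z u p q : D.ι} (hLe : L = {z, u, p, q})
    (hnd : [z, u, p, q].Nodup) (h1 : D.Adj z u) (h2 : D.Adj z p) (h3 : D.Adj z q)
    (n1 : ¬ D.Adj u p) (n2 : ¬ D.Adj u q) (n3 : ¬ D.Adj p q) : D.TStar L := by
  classical
  have hcard : L.card = 4 := by rw [hLe]; simp at hnd; simp [hnd]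
  have hz : z ∈ L := by rw [hLe]; simp
  have hu : u ∈ L := by rw [hLe]; simp
  have hp : p ∈ L := by rw [hLe]; simp
  have hq : q ∈ L := by rw [hLe]; simp
  obtain ⟨c, hc, hsub⟩ := hL.exists_sub'
  simp only [List.nodup_cons, List.mem_cons, List.not_mem_nil, or_false, not_or,
      not_false_eq_true, List.nodup_nil, and_true] at hnd
  obtain ⟨⟨dzu, dzp, dzq⟩, ⟨dup, duq⟩, dpq⟩ := hnd
  have cz := hc z hz
  have cu := hc u hu
  have cp := hc p hp
  have cq := hc q hq
  have sz := Lan.sub_le hc hsub hz {u, p, q} (fun j hj hadj => by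
    rw [hLe] at hj; simp only [Finset.mem_insert, Finset.mem_singleton] at hj ⊢
    rcases hj with rfl | rfl | rfl | rfl
    · exact absurd rfl hadj.ne
    all_goals simp) (by
    intro x hx; simp only [Finset.mem_insert, Finset.mem_singleton] at hx
    rcases hx with rfl | rfl | rfl <;> assumption) (by simp [dzu, dzp, dzq])
  rw [Finset.sum_insert (by simp [dup, duq]), Finset.sum_pair dpq] at sz
  have leaf : ∀ {x : D.ι}, x ∈ L → (∀ j ∈ L, D.Adj x j → j = z) → x ≠ z →
      c x < -D.g x z * c z := by
    intro x hx h hxz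
    have := Lan.sub_le hc hsub hx {z} (fun j hj hadj => by simp [h j hj hadj])
      (by simpa using hz) (by simpa using hxz)
    rwa [Finset.sum_singleton] at this
  have su := leaf hu (fun j hj hadj => by
    rw [hLe] at hj; simp only [Finset.mem_insert, Finset.mem_singleton] at hj
    rcases hj with rfl | rfl | rfl | rfl
    · rfl
    · exact absurd rfl hadj.ne
    · exact absurd hadj n1
    · exact absurd hadj n2) (Ne.symm dzu)
  have sp := leaf hp (fun j hj hadj => by
    rw [hLe] at hj; simp only [Finset.mem_insert, Finset.mem_singleton] at hj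
    rcases hj with rfl | rfl | rfl | rfl
    · rfl
    · exact absurd (hadj.symm D) n1
    · exact absurd rfl hadj.ne
    · exact absurd hadj n3) (Ne.symm dzp)
  have sq := leaf hq (fun j hj hadj => by
    rw [hLe] at hj; simp only [Finset.mem_insert, Finset.mem_singleton] at hj
    rcases hj with rfl | rfl | rfl | rfl
    · rfl
    · exact absurd (hadj.symm D) n2
    · exact absurd (hadj.symm D) n3
    · exact absurd rfl hadj.ne) (Ne.symm dzq)
  rw [D.symm u z] at su
  rw [D.symm p z] at sp
  rw [D.symm q z] at sq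
  have h4 : 4 ≤ L.card := hcard.ge
  have e5 := c5_gt
  have e4 := s2_sq
  have e40 := s2_gt
  -- labels: the combination of two neighbours
  have lu := label_cases (pd3 hL h4 hz hu hp) (p := z) (q := u) (r := p) (by simp) (by simp)
    (by simp) dup h1 h2
  have lu' := label_cases (pd3 hL h4 hz hu hq) (p := z) (q := u) (r := q) (by simp) (by simp)
    (by simp) duq h1 h3
  have lp := label_cases (pd3 hL h4 hz hp hu) (p := z) (q := p) (r := u) (by simp) (by simp)
    (by simp) (Ne.symm dup) h2 h1
  have lp' := label_cases (pd3 hL h4 hz hp hq) (p := z) (q := p) (r := q) (by simp) (by simp)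
    (by simp) dpq h2 h3
  have lq := label_cases (pd3 hL h4 hz hq hu) (p := z) (q := q) (r := u) (by simp) (by simp)
    (by simp) (Ne.symm duq) h3 h1
  have lq' := label_cases (pd3 hL h4 hz hq hp) (p := z) (q := q) (r := p) (by simp) (by simp)
    (by simp) (Ne.symm dpq) h3 h2
  have zup : D.g u p = 0 := D.g_eq_zero dup n1
  have zuq : D.g u q = 0 := D.g_eq_zero duq n2
  have zpq : D.g p q = 0 := D.g_eq_zero dpq n3
  have key : ∀ {t : ℝ}, t ^ 2 = 1 / 2 → ∀ {x y w : ℝ}, c z < t * x + 1 / 2 * y + 1 / 2 * w →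
      x < t * c z → y < 1 / 2 * c z → w < 1 / 2 * c z → 0 < t → False := by
    intro t ht x y w a1 a2 a3 a4 ht0
    have : t * x < t * (t * c z) := mul_lt_mul_of_pos_left a2 ht0
    nlinarith
  rcases lu with g1 | ⟨g1, g2⟩ | ⟨g1, g2⟩
  · rcases lp' with g2 | ⟨g2, g3⟩ | ⟨g2, g3⟩
    · rcases lq with g3 | ⟨g3, g3'⟩ | ⟨g3, g3'⟩
      · rw [g1] at su; rw [g2] at sp; rw [g3] at sq; rw [g1, g2, g3] at sz
        linarith
      · exfalso
        rw [g1] at su; rw [g2] at sp; rw [g3] at sq; rw [g1, g2, g3] at sz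
        exact key e4 (x := c q) (y := c u) (w := c p) (by linarith) (by linarith) (by linarith)
          (by linarith) (by linarith)
      · exact ⟨z, q, u, p, by rw [hLe]; exact set4_adbc _ _ _ _,
          nd4 dzq dzu dzp (Ne.symm duq) (Ne.symm dpq) dup, g3, g1, g2,
          by rw [D.symm]; exact zuq, by rw [D.symm]; exact zpq, zup⟩
    · exfalso
      rw [g1] at su; rw [g2] at sp; rw [g3] at sq; rw [g1, g2, g3] at sz
      exact key e4 (x := c p) (y := c u) (w := c q) (by linarith) (by linarith) (by linarith)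
        (by linarith) (by linarith)
    · exact ⟨z, p, u, q, by rw [hLe]; exact set4_acbd _ _ _ _,
        nd4 dzp dzu dzq (Ne.symm dup) dpq duq, g2, g1, g3,
        by rw [D.symm]; exact zup, zpq, zuq⟩
  · exfalso
    have g3 : D.g z q = -(1 / 2) := by
      rcases lu' with h | ⟨_, h⟩ | ⟨_, h⟩
      · rw [g1] at h; linarith
      · exact h
      · exact h
    rw [g1] at su; rw [g2] at sp; rw [g3] at sq; rw [g1, g2, g3] at sz
    exact key e4 (x := c u) (y := c p) (w := c q) (by linarith) (by linarith) (by linarith)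
      (by linarith) (by linarith)
  · have g3 : D.g z q = -(1 / 2) := by
      rcases lu' with h | ⟨_, h⟩ | ⟨_, h⟩
      · rw [g1] at h; linarith
      · exact h
      · exact h
    exact ⟨z, u, p, q, hLe, nd4 dzu dzp dzq dup duq dpq, g1, g2, g3, zup, zuq, zpq⟩

/-- a path of order four is of type `[3,5,3]`, `[5,3,4]` or `[5,3,5]` -/
theorem path4_type {L : Finset D.ι} (hL : D.Lan L) {a b c d : D.ι} (hLe : L = {a, b, c, d})
    (hnd : [a, b, c, d].Nodup) (h1 : D.Adj a b) (h2 : D.Adj b c) (h3 : D.Adj c d)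
    (n1 : ¬ D.Adj a c) (n2 : ¬ D.Adj a d) (n3 : ¬ D.Adj b d) :
    D.TPath4 (1 / 2) c5 (1 / 2) L ∨ D.TPath4 c5 (1 / 2) (√2 / 2) L ∨ D.TPath4 c5 (1 / 2) c5 L := by
  classical
  have hcard : L.card = 4 := by rw [hLe]; simp at hnd; simp [hnd]
  have ha : a ∈ L := by rw [hLe]; simp
  have hb : b ∈ L := by rw [hLe]; simp
  have hc' : c ∈ L := by rw [hLe]; simp
  have hd : d ∈ L := by rw [hLe]; simp
  obtain ⟨x, hx, hsub⟩ := hL.exists_sub'
  have hnd' := hnd
  simp only [List.nodup_cons, List.mem_cons, List.not_mem_nil, or_false, not_or,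
      not_false_eq_true, List.nodup_nil, and_true] at hnd
  obtain ⟨⟨dab, dac, dad⟩, ⟨dbc, dbd⟩, dcd⟩ := hnd
  have xa := hx a ha
  have xb := hx b hb
  have xc := hx c hc'
  have xd := hx d hd
  have sa := Lan.sub_le hx hsub ha {b} (fun j hj hadj => by
    rw [hLe] at hj; simp only [Finset.mem_insert, Finset.mem_singleton] at hj ⊢
    rcases hj with rfl | rfl | rfl | rfl
    · exact absurd rfl hadj.ne
    · rfl
    · exact absurd hadj n1
    · exact absurd hadj n2) (by simpa using hb) (by simpa using dab)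
  rw [Finset.sum_singleton] at sa
  have sb := Lan.sub_le hx hsub hb {a, c} (fun j hj hadj => by
    rw [hLe] at hj; simp only [Finset.mem_insert, Finset.mem_singleton] at hj ⊢
    rcases hj with rfl | rfl | rfl | rfl
    · simp
    · exact absurd rfl hadj.ne
    · simp
    · exact absurd hadj n3) (by
      intro y hy; simp only [Finset.mem_insert, Finset.mem_singleton] at hy
      rcases hy with rfl | rfl <;> assumption) (by simp [Ne.symm dab, dbc])
  rw [Finset.sum_pair dac] at sb
  have sc := Lan.sub_le hx hsub hc' {b, d} (fun j hj hadj => by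
    rw [hLe] at hj; simp only [Finset.mem_insert, Finset.mem_singleton] at hj ⊢
    rcases hj with rfl | rfl | rfl | rfl
    · exact absurd (hadj.symm D) n1
    · simp
    · exact absurd rfl hadj.ne
    · simp) (by
      intro y hy; simp only [Finset.mem_insert, Finset.mem_singleton] at hy
      rcases hy with rfl | rfl <;> assumption) (by simp [Ne.symm dbc, dcd])
  rw [Finset.sum_pair dbd] at sc
  have sd := Lan.sub_le hx hsub hd {c} (fun j hj hadj => by
    rw [hLe] at hj; simp only [Finset.mem_insert, Finset.mem_singleton] at hj ⊢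
    rcases hj with rfl | rfl | rfl | rfl
    · exact absurd (hadj.symm D) n2
    · exact absurd (hadj.symm D) n3
    · rfl
    · exact absurd rfl hadj.ne) (by simpa using hc') (by simpa using Ne.symm dcd)
  rw [Finset.sum_singleton] at sd
  rw [D.symm b a] at sb
  rw [D.symm c b] at sc
  rw [D.symm d c] at sd
  have h4 : 4 ≤ L.card := hcard.ge
  have e5 := c5_gt
  have e5' := c5_lt
  have e5s := c5_sq
  have e4 := s2_sq
  have e40 := s2_gt
  have e41 := s2_lt
  have l1 := label_cases (pd3 hL h4 hb ha hc') (p := b) (q := a) (r := c) (by simp) (by simp)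
    (by simp) dac (h1.symm D) h2
  have l2 := label_cases (pd3 hL h4 hb hc' ha) (p := b) (q := c) (r := a) (by simp) (by simp)
    (by simp) (Ne.symm dac) h2 (h1.symm D)
  have l2' := label_cases (pd3 hL h4 hc' hb hd) (p := c) (q := b) (r := d) (by simp) (by simp)
    (by simp) dbd (h2.symm D) h3
  have l3 := label_cases (pd3 hL h4 hc' hd hb) (p := c) (q := d) (r := b) (by simp) (by simp)
    (by simp) (Ne.symm dbd) h3 (h2.symm D)
  rw [D.symm b a] at l1 l2
  rw [D.symm c b] at l2' l3
  have zac : D.g a c = 0 := D.g_eq_zero dac n1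
  have zad : D.g a d = 0 := D.g_eq_zero dad n2
  have zbd : D.g b d = 0 := D.g_eq_zero dbd n3
  -- the main inequality
  have main : ∀ g1 g2 g3 : ℝ, D.g a b = -g1 → D.g b c = -g2 → D.g c d = -g3 → 0 < g1 → 0 < g2 →
      0 < g3 → g1 ^ 2 < 1 → g3 ^ 2 < 1 → (1 - g1 ^ 2) * (1 - g3 ^ 2) < g2 ^ 2 := by
    intro g1 g2 g3 f1 f2 f3 p1 p2 p3 q1 q3
    rw [f1, f2] at sb
    rw [f1] at sa
    rw [f2, f3] at sc
    rw [f3] at sd
    have i1 : (1 - g1 ^ 2) * x b < g2 * x c := by nlinarith
    have i2 : (1 - g3 ^ 2) * x c < g2 * x b := by nlinarith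
    have i3 : (1 - g1 ^ 2) * x b * ((1 - g3 ^ 2) * x c) < g2 * x c * (g2 * x b) :=
      mul_lt_mul'' i1 i2 (by have := mul_pos (show 0 < 1 - g1 ^ 2 by linarith) xb; linarith)
        (by have := mul_pos (show 0 < 1 - g3 ^ 2 by linarith) xc; linarith)
    have i4 : (1 - g1 ^ 2) * (1 - g3 ^ 2) * (x b * x c) < g2 ^ 2 * (x b * x c) := by nlinarith
    exact lt_of_mul_lt_mul_right i4 (mul_pos xb xc).le
  have p12 : (0 : ℝ) < 1 / 2 := by norm_num
  rcases l2 with g2 | ⟨g2, g1⟩ | ⟨g2, g1⟩
  · -- the middle edge is simple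
    rcases l1 with g1 | ⟨g1, _⟩ | ⟨g1, _⟩
    · rcases l3 with g3 | ⟨g3, _⟩ | ⟨g3, _⟩
      · exfalso
        have := main _ _ _ g1 g2 g3 p12 p12 p12 (by norm_num) (by norm_num)
        norm_num at this
      · exfalso
        have := main _ _ _ g1 g2 g3 p12 p12 (by linarith) (by norm_num) (by linarith)
        rw [e4] at this; norm_num at this
      · exfalso
        have := main _ _ _ g1 g2 g3 p12 p12 (by linarith) (by norm_num) (by nlinarith)
        nlinarith
    · rcases l3 with g3 | ⟨g3, _⟩ | ⟨g3, _⟩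
      · exfalso
        have := main _ _ _ g1 g2 g3 (by linarith) p12 p12 (by linarith) (by norm_num)
        rw [e4] at this; norm_num at this
      · exfalso
        have := main _ _ _ g1 g2 g3 (by linarith) p12 (by linarith) (by linarith) (by linarith)
        rw [e4] at this; norm_num at this
      · right; left
        exact ⟨d, c, b, a, by rw [hLe]; exact set4_rev _ _ _ _,
          nd4 (Ne.symm dcd) (Ne.symm dbd) (Ne.symm dad) (Ne.symm dbc) (Ne.symm dac) (Ne.symm dab),
          by rw [D.symm]; exact g3, by rw [D.symm]; exact g2, by rw [D.symm]; exact g1,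
          by rw [D.symm]; exact zbd, by rw [D.symm]; exact zad, by rw [D.symm]; exact zac⟩
    · rcases l3 with g3 | ⟨g3, _⟩ | ⟨g3, _⟩
      · exfalso
        have := main _ _ _ g1 g2 g3 (by linarith) p12 p12 (by nlinarith) (by norm_num)
        nlinarith
      · right; left
        exact ⟨a, b, c, d, hLe, hnd', g1, g2, g3, zac, zad, zbd⟩
      · right; right
        exact ⟨a, b, c, d, hLe, hnd', g1, g2, g3, zac, zad, zbd⟩
  · exfalso
    have g3 : D.g c d = -(1 / 2) := by
      rcases l2' with h | ⟨_, h⟩ | ⟨_, h⟩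
      · rw [g2] at h; linarith
      · exact h
      · exact h
    have := main _ _ _ g1 g2 g3 p12 (by linarith) p12 (by norm_num) (by norm_num)
    rw [e4] at this; norm_num at this
  · have g3 : D.g c d = -(1 / 2) := by
      rcases l2' with h | ⟨_, h⟩ | ⟨_, h⟩
      · rw [g2] at h; linarith
      · exact h
      · exact h
    left
    exact ⟨a, b, c, d, hLe, hnd', g1, g2, g3, zac, zad, zbd⟩

/-- **The Lannér sets of order four.** -/
theorem Lan.shape4 {L : Finset D.ι} (hL : D.Lan L) (h4 : L.card = 4) :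
    D.TCyc4 L ∨ D.TStar L ∨ D.TPath4 (1 / 2) c5 (1 / 2) L ∨ D.TPath4 c5 (1 / 2) (√2 / 2) L ∨
      D.TPath4 c5 (1 / 2) c5 L := by
  classical
  have tri : ∀ {a b d : D.ι}, a ∈ L → b ∈ L → d ∈ L → D.Adj a b → D.Adj b d → ¬ D.Adj a d :=
    fun {a b d} ha hb hd h1 h2 h3 => hL.no_tri h4.ge ha hb hd h1 h2 h3
  -- a node with two neighbours
  have hex : ∃ w ∈ L, ∃ u ∈ L, ∃ p ∈ L, u ≠ p ∧ D.Adj w u ∧ D.Adj w p := by
    obtain ⟨a, ha⟩ := hL.nonempty
    obtain ⟨i, hi, b, hb, hba, hab⟩ := hL.conn (A := {a}) (by simpa using ha) (by simp)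
      (by intro h; rw [← h] at h4; simp at h4)
    rw [Finset.mem_singleton] at hi; subst hi
    obtain ⟨j, hj, d, hd, hdn, hjd⟩ := hL.conn (A := {i, b}) (by
      intro x hx; simp only [Finset.mem_insert, Finset.mem_singleton] at hx
      rcases hx with rfl | rfl <;> assumption) (by simp)
      (by intro h; rw [← h] at h4; have := Finset.card_le_two (a := i) (b := b); omega)
    simp only [Finset.mem_insert, Finset.mem_singleton, not_or] at hj hdn
    rcases hj with rfl | rfl
    · exact ⟨j, ha, b, hb, d, hd, Ne.symm hdn.2, hab, hjd⟩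
    · exact ⟨j, hb, i, ha, d, hd, Ne.symm hdn.1, hab.symm D, hjd⟩
  obtain ⟨w, hw, u, hu, p, hp, hup, hwu, hwp⟩ := hex
  have hnup : ¬ D.Adj u p := tri hu hw hp (hwu.symm D) hwp
  -- the fourth node
  obtain ⟨q, hq, hLe⟩ : ∃ q, q ∉ ({w, u, p} : Finset D.ι) ∧ L = insert q {w, u, p} := by
    have hsub : ({w, u, p} : Finset D.ι) ⊆ L := by
      intro x hx; simp only [Finset.mem_insert, Finset.mem_singleton] at hx
      rcases hx with rfl | rfl | rfl <;> assumption
    have hc3 : ({w, u, p} : Finset D.ι).card = 3 := Finset.card_eq_three.2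
      ⟨w, u, p, hwu.ne, hwp.ne, hup, rfl⟩
    have h1 : (L \ {w, u, p}).card = 1 := by
      rw [Finset.card_sdiff_of_subset hsub, h4, hc3]
    obtain ⟨q, hq⟩ := Finset.card_eq_one.1 h1
    have hqm : q ∈ L \ {w, u, p} := by rw [hq]; simp
    refine ⟨q, (Finset.mem_sdiff.1 hqm).2, ?_⟩
    rw [Finset.insert_eq, ← hq, Finset.sdiff_union_of_subset hsub]
  have hqL : q ∈ L := by rw [hLe]; simp
  simp only [Finset.mem_insert, Finset.mem_singleton, not_or] at hq
  obtain ⟨qw, qu, qp⟩ := hq
  have dwu := hwu.ne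
  have dwp := hwp.ne
  obtain ⟨i, hi, j, hj, hjn, hij⟩ := hL.conn (A := {w, u, p}) (by
      rw [hLe]; exact Finset.subset_insert _ _) (by simp)
    (by intro h
        have : q ∈ ({w, u, p} : Finset D.ι) := by rw [h]; exact hqL
        simp only [Finset.mem_insert, Finset.mem_singleton] at this
        tauto)
  have hjq : j = q := by
    rw [hLe] at hj
    rcases Finset.mem_insert.1 hj with h | h
    · exact h
    · exact absurd h hjn
  subst hjq
  by_cases hwq : D.Adj w j
  · -- a star
    right; left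
    have n2 : ¬ D.Adj u j := tri hu hw hqL (hwu.symm D) hwq
    have n3 : ¬ D.Adj p j := tri hp hw hqL (hwp.symm D) hwq
    exact star_type hL (z := w) (u := u) (p := p) (q := j)
      (by rw [hLe]; ext x; simp only [Finset.mem_insert, Finset.mem_singleton]; tauto)
      (by simp only [List.nodup_cons, List.mem_cons, List.not_mem_nil, or_false, not_or,
            not_false_eq_true, List.nodup_nil, and_true]
          exact ⟨⟨dwu, dwp, Ne.symm qw⟩, ⟨hup, Ne.symm qu⟩, Ne.symm qp⟩)
      hwu hwp hwq hnup n2 n3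
  · by_cases huq : D.Adj u j
    · by_cases hpq : D.Adj p j
      · left
        exact ⟨w, u, j, p,
          by rw [hLe]; ext x; simp only [Finset.mem_insert, Finset.mem_singleton]; tauto,
          by simp only [List.nodup_cons, List.mem_cons, List.not_mem_nil, or_false, not_or,
              not_false_eq_true, List.nodup_nil, and_true]
             exact ⟨⟨dwu, Ne.symm qw, dwp⟩, ⟨Ne.symm qu, hup⟩, qp⟩,
          hwu, huq, hpq.symm D, hwp.symm D, D.g_eq_zero (Ne.symm qw) hwq,
          D.g_eq_zero hup hnup⟩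
      · right; right
        exact path4_type hL (a := p) (b := w) (c := u) (d := j)
          (by rw [hLe]; ext x; simp only [Finset.mem_insert, Finset.mem_singleton]; tauto)
          (by simp only [List.nodup_cons, List.mem_cons, List.not_mem_nil, or_false, not_or,
                not_false_eq_true, List.nodup_nil, and_true]
              exact ⟨⟨Ne.symm dwp, Ne.symm hup, Ne.symm qp⟩, ⟨dwu, Ne.symm qw⟩, Ne.symm qu⟩)
          (hwp.symm D) hwu huq (fun h => hnup (h.symm D)) hpq hwq
    · have hpq : D.Adj p j := by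
        simp only [Finset.mem_insert, Finset.mem_singleton] at hi
        rcases hi with rfl | rfl | rfl
        · exact absurd hij hwq
        · exact absurd hij huq
        · exact hij
      right; right
      exact path4_type hL (a := u) (b := w) (c := p) (d := j)
        (by rw [hLe]; ext x; simp only [Finset.mem_insert, Finset.mem_singleton]; tauto)
        (by simp only [List.nodup_cons, List.mem_cons, List.not_mem_nil, or_false, not_or,
              not_false_eq_true, List.nodup_nil, and_true]
            exact ⟨⟨Ne.symm dwu, hup, Ne.symm qu⟩, ⟨dwp, Ne.symm qw⟩, Ne.symm qp⟩)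
        (hwu.symm D) hwp hpq hnup huq hwq

end CoxData

end MP345
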