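import Mathlib
import Pool.Agent.Work.MP_345ef2_gt.Shape4

/-!
# The shapes of the minimal non positive definite sets of order five
-/

namespace MP345

open Finset

variable {n : ℕ}

namespace CoxData

variable {D : CoxData n}

/-- a tree of order five with a branch node is the fork -/
theorem fork_type {L : Finset D.ι} (hL : D.Lan L) {u v w p q : D.ι} (hLe : L = {u, v, w, p, q})
    (hnd : [u, v, w, p, q].Nodup) (h1 : D.Adj u v) (h2 : D.Adj v w) (h3 : D.Adj w p)
    (h4 : D.Adj w q) (n1 : ¬ D.Adj u w) (n2 : ¬ D.Adj u p) (n3 : ¬ D.Adj u q)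
    (n4 : ¬ D.Adj v p) (n5 : ¬ D.Adj v q) (n6 : ¬ D.Adj p q) : D.TFork L := by
  classical
  have hcard : L.card = 5 := by rw [hLe]; simp at hnd; simp [hnd]
  have hu : u ∈ L := by rw [hLe]; simp
  have hv : v ∈ L := by rw [hLe]; simp
  have hw : w ∈ L := by rw [hLe]; simp
  have hp : p ∈ L := by rw [hLe]; simp
  have hq : q ∈ L := by rw [hLe]; simp
  obtain ⟨x, hx, hsub⟩ := hL.exists_sub'
  have hnd' := hnd
  simp only [List.nodup_cons, List.mem_cons, List.not_mem_nil, or_false, not_or,
      not_false_eq_true, List.nodup_nil, and_true] at hnd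
  obtain ⟨⟨duv, duw, dup, duq⟩, ⟨dvw, dvp, dvq⟩, ⟨dwp, dwq⟩, dpq⟩ := hnd
  have xu := hx u hu
  have xv := hx v hv
  have xw := hx w hw
  have xp := hx p hp
  have xq := hx q hq
  have su := Lan.sub_le hx hsub hu {v} (fun j hj hadj => by
    rw [hLe] at hj; simp only [Finset.mem_insert, Finset.mem_singleton] at hj ⊢
    rcases hj with rfl | rfl | rfl | rfl | rfl
    · exact absurd rfl hadj.ne
    · rfl
    · exact absurd hadj n1
    · exact absurd hadj n2
    · exact absurd hadj n3) (by simpa using hv) (by simpa using duv)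
  rw [Finset.sum_singleton] at su
  have sv := Lan.sub_le hx hsub hv {u, w} (fun j hj hadj => by
    rw [hLe] at hj; simp only [Finset.mem_insert, Finset.mem_singleton] at hj ⊢
    rcases hj with rfl | rfl | rfl | rfl | rfl
    · simp
    · exact absurd rfl hadj.ne
    · simp
    · exact absurd hadj n4
    · exact absurd hadj n5) (by
      intro y hy; simp only [Finset.mem_insert, Finset.mem_singleton] at hy
      rcases hy with rfl | rfl <;> assumption) (by simp [Ne.symm duv, dvw])
  rw [Finset.sum_pair duw] at sv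
  have sw := Lan.sub_le hx hsub hw {v, p, q} (fun j hj hadj => by
    rw [hLe] at hj; simp only [Finset.mem_insert, Finset.mem_singleton] at hj ⊢
    rcases hj with rfl | rfl | rfl | rfl | rfl
    · exact absurd (hadj.symm D) n1
    · simp
    · exact absurd rfl hadj.ne
    · simp
    · simp) (by
      intro y hy; simp only [Finset.mem_insert, Finset.mem_singleton] at hy
      rcases hy with rfl | rfl | rfl <;> assumption) (by simp [Ne.symm dvw, dwp, dwq])
  rw [Finset.sum_insert (by simp [dvp, dvq]), Finset.sum_pair dpq] at sw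
  have sp := Lan.sub_le hx hsub hp {w} (fun j hj hadj => by
    rw [hLe] at hj; simp only [Finset.mem_insert, Finset.mem_singleton] at hj ⊢
    rcases hj with rfl | rfl | rfl | rfl | rfl
    · exact absurd (hadj.symm D) n2
    · exact absurd (hadj.symm D) n4
    · rfl
    · exact absurd rfl hadj.ne
    · exact absurd hadj n6) (by simpa using hw) (by simpa using Ne.symm dwp)
  rw [Finset.sum_singleton] at sp
  have sq := Lan.sub_le hx hsub hq {w} (fun j hj hadj => by
    rw [hLe] at hj; simp only [Finset.mem_insert, Finset.mem_singleton] at hj ⊢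
    rcases hj with rfl | rfl | rfl | rfl | rfl
    · exact absurd (hadj.symm D) n3
    · exact absurd (hadj.symm D) n5
    · rfl
    · exact absurd (hadj.symm D) n6
    · exact absurd rfl hadj.ne) (by simpa using hw) (by simpa using Ne.symm dwq)
  rw [Finset.sum_singleton] at sq
  have h5 : 5 ≤ L.card := hcard.ge
  have hb := pd4 hL h5 hw hv hp hq
  have gwv : D.g v w = -(1 / 2) := by
    rcases heavy_or_simple h2 with h | h
    · exact h
    · rw [D.symm v w] at h
      exact (no_heavy3 hb (p := w) (q := v) (r := p) (s := q) (by simp) (by simp) (by simp)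
        (by simp) dvp dvq dpq h (Ne.symm dvw) h3 h4).elim
  have gwp : D.g w p = -(1 / 2) := by
    rcases heavy_or_simple h3 with h | h
    · exact h
    · exact (no_heavy3 hb (p := w) (q := p) (r := v) (s := q) (by simp) (by simp) (by simp)
        (by simp) (Ne.symm dvp) dpq dvq h dwp (h2.symm D) h4).elim
  have gwq : D.g w q = -(1 / 2) := by
    rcases heavy_or_simple h4 with h | h
    · exact h
    · exact (no_heavy3 hb (p := w) (q := q) (r := v) (s := p) (by simp) (by simp) (by simp)
        (by simp) (Ne.symm dvq) (Ne.symm dpq) dvp h dwq (h2.symm D) h3).elim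
  rw [D.symm v u, gwv] at sv
  rw [D.symm w v, gwv, gwp, gwq] at sw
  rw [D.symm p w, gwp] at sp
  rw [D.symm q w, gwq] at sq
  have e4 := s2_sq
  have e40 := s2_gt
  have lv := label_cases (pd3 hL (by omega) hv hu hw) (p := v) (q := u) (r := w) (by simp)
    (by simp) (by simp) duw (h1.symm D) h2
  rw [D.symm v u] at lv
  have guv : D.g u v = -c5 := by
    rcases lv with h | ⟨h, _⟩ | ⟨h, _⟩
    · exfalso; rw [h] at su sv; linarith
    · exfalso; rw [h] at su sv; nlinarith
    · exact h
  exact ⟨u, v, w, p, q, hLe, hnd', guv, gwv, gwp, gwq, D.g_eq_zero duw n1, D.g_eq_zero dup n2,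
    D.g_eq_zero duq n3, D.g_eq_zero dvp n4, D.g_eq_zero dvq n5, D.g_eq_zero dpq n6⟩

/-- a path of order five -/
theorem path5_type {L : Finset D.ι} (hL : D.Lan L) {a b c d e : D.ι}
    (hLe : L = {a, b, c, d, e}) (hnd : [a, b, c, d, e].Nodup) (h1 : D.Adj a b) (h2 : D.Adj b c)
    (h3 : D.Adj c d) (h4 : D.Adj d e) (n1 : ¬ D.Adj a c) (n2 : ¬ D.Adj a d) (n3 : ¬ D.Adj a e)
    (n4 : ¬ D.Adj b d) (n5 : ¬ D.Adj b e) (n6 : ¬ D.Adj c e) :
    D.TPath5 (1 / 2) L ∨ D.TPath5 (√2 / 2) L ∨ D.TPath5 c5 L := by
  classical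
  have hcard : L.card = 5 := by rw [hLe]; simp at hnd; simp [hnd]
  have ha : a ∈ L := by rw [hLe]; simp
  have hb : b ∈ L := by rw [hLe]; simp
  have hc : c ∈ L := by rw [hLe]; simp
  have hd : d ∈ L := by rw [hLe]; simp
  have he : e ∈ L := by rw [hLe]; simp
  obtain ⟨x, hx, hsub⟩ := hL.exists_sub'
  have hnd' := hnd
  simp only [List.nodup_cons, List.mem_cons, List.not_mem_nil, or_false, not_or,
      not_false_eq_true, List.nodup_nil, and_true] at hnd
  obtain ⟨⟨dab, dac, dad, dae⟩, ⟨dbc, dbd, dbe⟩, ⟨dcd, dce⟩, dde⟩ := hnd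
  have xa := hx a ha
  have xb := hx b hb
  have xc := hx c hc
  have xd := hx d hd
  have xe := hx e he
  have sa := Lan.sub_le hx hsub ha {b} (fun j hj hadj => by
    rw [hLe] at hj; simp only [Finset.mem_insert, Finset.mem_singleton] at hj ⊢
    rcases hj with rfl | rfl | rfl | rfl | rfl
    · exact absurd rfl hadj.ne
    · rfl
    · exact absurd hadj n1
    · exact absurd hadj n2
    · exact absurd hadj n3) (by simpa using hb) (by simpa using dab)
  rw [Finset.sum_singleton] at sa
  have sb := Lan.sub_le hx hsub hb {a, c} (fun j hj hadj => by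
    rw [hLe] at hj; simp only [Finset.mem_insert, Finset.mem_singleton] at hj ⊢
    rcases hj with rfl | rfl | rfl | rfl | rfl
    · simp
    · exact absurd rfl hadj.ne
    · simp
    · exact absurd hadj n4
    · exact absurd hadj n5) (by
      intro y hy; simp only [Finset.mem_insert, Finset.mem_singleton] at hy
      rcases hy with rfl | rfl <;> assumption) (by simp [Ne.symm dab, dbc])
  rw [Finset.sum_pair dac] at sb
  have sc := Lan.sub_le hx hsub hc {b, d} (fun j hj hadj => by
    rw [hLe] at hj; simp only [Finset.mem_insert, Finset.mem_singleton] at hj ⊢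
    rcases hj with rfl | rfl | rfl | rfl | rfl
    · exact absurd (hadj.symm D) n1
    · simp
    · exact absurd rfl hadj.ne
    · simp
    · exact absurd hadj n6) (by
      intro y hy; simp only [Finset.mem_insert, Finset.mem_singleton] at hy
      rcases hy with rfl | rfl <;> assumption) (by simp [Ne.symm dbc, dcd])
  rw [Finset.sum_pair dbd] at sc
  have sd := Lan.sub_le hx hsub hd {c, e} (fun j hj hadj => by
    rw [hLe] at hj; simp only [Finset.mem_insert, Finset.mem_singleton] at hj ⊢
    rcases hj with rfl | rfl | rfl | rfl | rfl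
    · exact absurd (hadj.symm D) n2
    · exact absurd (hadj.symm D) n4
    · simp
    · exact absurd rfl hadj.ne
    · simp) (by
      intro y hy; simp only [Finset.mem_insert, Finset.mem_singleton] at hy
      rcases hy with rfl | rfl <;> assumption) (by simp [Ne.symm dcd, dde])
  rw [Finset.sum_pair dce] at sd
  have se := Lan.sub_le hx hsub he {d} (fun j hj hadj => by
    rw [hLe] at hj; simp only [Finset.mem_insert, Finset.mem_singleton] at hj ⊢
    rcases hj with rfl | rfl | rfl | rfl | rfl
    · exact absurd (hadj.symm D) n3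
    · exact absurd (hadj.symm D) n5
    · exact absurd (hadj.symm D) n6
    · rfl
    · exact absurd rfl hadj.ne) (by simpa using hd) (by simpa using Ne.symm dde)
  rw [Finset.sum_singleton] at se
  have h5 : 5 ≤ L.card := hcard.ge
  have e5 := c5_gt
  have e5' := c5_lt
  have e5s := c5_sq
  have e4 := s2_sq
  have e40 := s2_gt
  have e41 := s2_lt
  have hE5 : (1 : ℝ) / 2 ≤ (-c5) ^ 2 := by nlinarith
  have hE4 : (1 : ℝ) / 2 ≤ (-(√2 / 2)) ^ 2 := by nlinarith
  -- heavy edges: `b c` heavy is impossible
  have l1 := label_cases (pd3 hL (by omega) hb ha hc) (p := b) (q := a) (r := c) (by simp)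
    (by simp) (by simp) dac (h1.symm D) h2
  have l2 := label_cases (pd3 hL (by omega) hb hc ha) (p := b) (q := c) (r := a) (by simp)
    (by simp) (by simp) (Ne.symm dac) h2 (h1.symm D)
  have l3 := label_cases (pd3 hL (by omega) hd hc he) (p := d) (q := c) (r := e) (by simp)
    (by simp) (by simp) dce (h3.symm D) h4
  have l4 := label_cases (pd3 hL (by omega) hd he hc) (p := d) (q := e) (r := c) (by simp)
    (by simp) (by simp) (Ne.symm dce) h4 (h3.symm D)
  rw [D.symm b a] at l1 l2
  rw [D.symm d c] at l3 l4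
  rw [D.symm b a] at sb
  rw [D.symm c b] at sc
  rw [D.symm d c] at sd
  rw [D.symm e d] at se
  -- a heavy edge b c forces c d, d e simple
  have gbc : D.g b c = -(1 / 2) := by
    have hcd : 1 / 2 ≤ D.g b c ^ 2 → D.g c d = -(1 / 2) := fun h => by
      rcases heavy_or_simple h3 with h' | h'
      · exact h'
      · exact (no_heavy2 (pd3 hL (by omega) hc hb hd) (p := c) (q := b) (r := d) (by simp)
          (by simp) (by simp) dbd (Ne.symm dbc) dcd (by rw [D.symm]; exact h) h').elim
    have hde : 1 / 2 ≤ D.g b c ^ 2 → D.g d e = -(1 / 2) := fun h => by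
      rcases heavy_or_simple h4 with h' | h'
      · exact h'
      · refine (no_sp2 (pd4 hL h5 hb hc hd he) (p := c) (x := d) (by simp) (by simp) h3
          (Or.inl ⟨b, by simp, by simp [dbc, dbd], by rw [D.symm]; exact h⟩)
          (Or.inl ⟨e, by simp, by simp [Ne.symm dce, Ne.symm dde], h'⟩)).elim
    rcases l2 with h | ⟨h, hab⟩ | ⟨h, hab⟩
    · exact h
    · exfalso
      have hcd' := hcd (by rw [h]; exact hE4)
      have hde' := hde (by rw [h]; exact hE4)
      rw [hab] at sa sb
      rw [h] at sb sc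
      rw [hcd'] at sc sd
      rw [hde'] at sd se
      have i1 : 3 / 4 * x b < √2 / 2 * x c := by nlinarith
      have i2 : 3 / 4 * x d < 1 / 2 * x c := by nlinarith
      have i3 : √2 / 2 * (3 / 4 * x b) < √2 / 2 * (√2 / 2 * x c) :=
        mul_lt_mul_of_pos_left i1 (by linarith)
      nlinarith
    · exfalso
      exact no_353 (pd4 hL h5 ha hb hc hd) (s := a) (q := b) (p := c) (r := d) (by simp)
        (by simp) (by simp) (by simp) h1 h.le (Ne.symm dbc) h3 dac dad (Ne.symm dbd)
  have gcd : D.g c d = -(1 / 2) := by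
    have hde : 1 / 2 ≤ D.g c d ^ 2 → D.g a b = -(1 / 2) := fun h => by
      rcases heavy_or_simple h1 with h' | h'
      · exact h'
      · refine (no_sp2 (pd4 hL h5 ha hb hc hd) (p := b) (x := c) (by simp) (by simp) h2
          (Or.inl ⟨a, by simp, by simp [dab, dac], by rw [D.symm]; exact h'⟩)
          (Or.inl ⟨d, by simp, by simp [Ne.symm dbd, Ne.symm dcd], h⟩)).elim
    rcases l3 with h | ⟨h, hab⟩ | ⟨h, hab⟩
    · exact h
    · exfalso
      have hab' := hde (by rw [h]; exact hE4)
      rw [hab'] at sa sb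
      rw [gbc] at sb sc
      rw [h] at sc sd
      rw [hab] at sd se
      have i1 : 3 / 4 * x d < √2 / 2 * x c := by nlinarith
      have i2 : 3 / 4 * x b < 1 / 2 * x c := by nlinarith
      have i3 : √2 / 2 * (3 / 4 * x d) < √2 / 2 * (√2 / 2 * x c) :=
        mul_lt_mul_of_pos_left i1 (by linarith)
      nlinarith
    · exfalso
      exact no_353 (pd4 hL h5 hb hc hd he) (s := e) (q := d) (p := c) (r := b) (by simp)
        (by simp) (by simp) (by simp) (h4.symm D) (by rw [D.symm]; exact h.le) dcd
        (h2.symm D) (Ne.symm dce) (Ne.symm dbe) dbd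
  have zac : D.g a c = 0 := D.g_eq_zero dac n1
  have zad : D.g a d = 0 := D.g_eq_zero dad n2
  have zae : D.g a e = 0 := D.g_eq_zero dae n3
  have zbd : D.g b d = 0 := D.g_eq_zero dbd n4
  have zbe : D.g b e = 0 := D.g_eq_zero dbe n5
  have zce : D.g c e = 0 := D.g_eq_zero dce n6
  rw [gbc] at sb sc
  rw [gcd] at sc sd
  have rev : ∀ z : ℝ, D.g d e = -c5 → D.g a b = -z → D.TPath5 z L := fun z f1 f2 =>
    ⟨e, d, c, b, a, by rw [hLe]; exact set5_rev _ _ _ _ _,
      nd5 (Ne.symm dde) (Ne.symm dce) (Ne.symm dbe) (Ne.symm dae) (Ne.symm dcd) (Ne.symm dbd)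
        (Ne.symm dad) (Ne.symm dbc) (Ne.symm dac) (Ne.symm dab),
      by rw [D.symm]; exact f1, by rw [D.symm]; exact gcd, by rw [D.symm]; exact gbc,
      by rw [D.symm]; exact f2, by rw [D.symm]; exact zce, by rw [D.symm]; exact zbe,
      by rw [D.symm]; exact zae, by rw [D.symm]; exact zbd, by rw [D.symm]; exact zad,
      by rw [D.symm]; exact zac⟩
  have fwd : ∀ z : ℝ, D.g a b = -c5 → D.g d e = -z → D.TPath5 z L := fun z f1 f2 =>
    ⟨a, b, c, d, e, hLe, hnd', f1, gbc, gcd, f2, zac, zad, zae, zbd, zbe, zce⟩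
  rcases l1 with g1 | ⟨g1, _⟩ | ⟨g1, _⟩
  · rcases l4 with g4 | ⟨g4, _⟩ | ⟨g4, _⟩
    · exfalso
      rw [g1] at sa sb; rw [g4] at sd se
      linarith
    · exfalso
      rw [g1] at sa sb; rw [g4] at sd se
      have i1 : 1 / 2 * x d < 1 / 2 * x c := by nlinarith
      linarith
    · exact Or.inl (rev _ g4 g1)
  · rcases l4 with g4 | ⟨g4, _⟩ | ⟨g4, _⟩
    · exfalso
      rw [g1] at sa sb; rw [g4] at sd se
      have i1 : 1 / 2 * x b < 1 / 2 * x c := by nlinarith
      linarith
    · exfalso
      rw [g1] at sa sb; rw [g4] at sd se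
      have i1 : 1 / 2 * x b < 1 / 2 * x c := by nlinarith
      have i2 : 1 / 2 * x d < 1 / 2 * x c := by nlinarith
      linarith
    · exact Or.inr (Or.inl (rev _ g4 g1))
  · rcases l4 with g4 | ⟨g4, _⟩ | ⟨g4, _⟩
    · exact Or.inl (fwd _ g1 g4)
    · exact Or.inr (Or.inl (fwd _ g1 g4))
    · exact Or.inr (Or.inr (fwd _ g1 g4))

end CoxData

end MP345
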