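import Mathlib
import Pool.Agent.Work.MP_345ef2_gt.Shape5

/-!
# The shapes of the minimal non positive definite sets of order five: cycles, and the classification
-/

namespace MP345

open Finset

variable {n : ℕ}

namespace CoxData

variable {D : CoxData n}

/-- a 5-cycle with a heavy edge -/
theorem cyc5_heavy {L : Finset D.ι} (hL : D.Lan L) {a b c d e : D.ι}
    (hLe : L = {a, b, c, d, e}) (hnd : [a, b, c, d, e].Nodup) (h1 : D.Adj a b) (h2 : D.Adj b c)
    (h3 : D.Adj c d) (h4 : D.Adj d e) (h5 : D.Adj e a) (n1 : ¬ D.Adj a c) (n2 : ¬ D.Adj a d)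
    (n4 : ¬ D.Adj b d) (n5 : ¬ D.Adj b e) (n6 : ¬ D.Adj c e) (hh : 1 / 2 ≤ D.g a b ^ 2) :
    D.TCyc5 L := by
  classical
  have hcard : L.card = 5 := by rw [hLe]; simp at hnd; simp [hnd]
  have ha : a ∈ L := by rw [hLe]; simp
  have hb : b ∈ L := by rw [hLe]; simp
  have hc : c ∈ L := by rw [hLe]; simp
  have hd : d ∈ L := by rw [hLe]; simp
  have he : e ∈ L := by rw [hLe]; simp
  have hnd' := hnd
  simp only [List.nodup_cons, List.mem_cons, List.not_mem_nil, or_false, not_or,
      not_false_eq_true, List.nodup_nil, and_true] at hnd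
  obtain ⟨⟨dab, dac, dad, dae⟩, ⟨dbc, dbd, dbe⟩, ⟨dcd, dce⟩, dde⟩ := hnd
  have hh' : 1 / 2 ≤ D.g b a ^ 2 := by rw [D.symm]; exact hh
  have gbc : D.g b c = -(1 / 2) := by
    rcases heavy_or_simple h2 with h' | h'
    · exact h'
    · exact (no_heavy2 (pd3 hL (by omega) hb ha hc) (p := b) (q := a) (r := c) (by simp)
        (by simp) (by simp) dac (Ne.symm dab) dbc hh' h').elim
  have gea : D.g e a = -(1 / 2) := by
    rw [D.symm]
    rcases heavy_or_simple (h5.symm D) with h' | h'
    · exact h'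
    · exact (no_heavy2 (pd3 hL (by omega) ha hb he) (p := a) (q := b) (r := e) (by simp)
        (by simp) (by simp) dbe dab dae hh h').elim
  have gcd : D.g c d = -(1 / 2) := by
    rcases heavy_or_simple h3 with h' | h'
    · exact h'
    · exact (no_sp2 (pd4 hL hcard.ge ha hb hc hd) (p := b) (x := c) (by simp) (by simp) h2
          (Or.inl ⟨a, by simp, by simp [dab, dac], hh'⟩)
          (Or.inl ⟨d, by simp, by simp [Ne.symm dbd, Ne.symm dcd], h'⟩)).elim
  have gde : D.g d e = -(1 / 2) := by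
    rcases heavy_or_simple h4 with h' | h'
    · exact h'
    · exact (no_sp2 (pd4 hL hcard.ge hb ha he hd) (p := a) (x := e) (by simp) (by simp)
          (h5.symm D)
          (Or.inl ⟨b, by simp, by simp [Ne.symm dab, dbe], hh⟩)
          (Or.inl ⟨d, by simp, by simp [Ne.symm dad, dde], by rw [D.symm]; exact h'⟩)).elim
  have gab : D.g a b = -(√2 / 2) := by
    rcases label_cases (pd3 hL (by omega) ha hb he) (p := a) (q := b) (r := e) (by simp)
      (by simp) (by simp) dbe h1 (h5.symm D) with h | ⟨h, _⟩ | ⟨h, _⟩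
    · rw [h] at hh; norm_num at hh
    · exact h
    · exact (no_353 (pd4 hL hcard.ge he ha hb hc) (s := e) (q := a) (p := b) (r := c) (by simp)
        (by simp) (by simp) (by simp) h5 h.le (Ne.symm dab) h2 (Ne.symm dbe) (Ne.symm dce)
        (Ne.symm dac)).elim
  exact ⟨a, b, c, d, e, hLe, hnd', gab, gbc, gcd, gde, gea, D.g_eq_zero dac n1,
    D.g_eq_zero dad n2, D.g_eq_zero dbd n4, D.g_eq_zero dbe n5, D.g_eq_zero dce n6⟩

/-- 5-cycles -/
theorem cyc5_type {L : Finset D.ι} (hL : D.Lan L) {a b c d e : D.ι}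
    (hLe : L = {a, b, c, d, e}) (hnd : [a, b, c, d, e].Nodup) (h1 : D.Adj a b) (h2 : D.Adj b c)
    (h3 : D.Adj c d) (h4 : D.Adj d e) (h5 : D.Adj e a) (n1 : ¬ D.Adj a c) (n2 : ¬ D.Adj a d)
    (n4 : ¬ D.Adj b d) (n5 : ¬ D.Adj b e) (n6 : ¬ D.Adj c e) : D.TCyc5 L := by
  classical
  have ns : ∀ {i j : D.ι}, ¬ D.Adj i j → ¬ D.Adj j i := fun h h' => h (h'.symm D)
  have hnd' := hnd
  simp only [List.nodup_cons, List.mem_cons, List.not_mem_nil, or_false, not_or,
      not_false_eq_true, List.nodup_nil, and_true] at hnd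
  obtain ⟨⟨dab, dac, dad, dae⟩, ⟨dbc, dbd, dbe⟩, ⟨dcd, dce⟩, dde⟩ := hnd
  rcases heavy_or_simple h1 with g1 | g1
  swap
  · exact cyc5_heavy hL hLe hnd' h1 h2 h3 h4 h5 n1 n2 n4 n5 n6 g1
  rcases heavy_or_simple h2 with g2 | g2
  swap
  · exact cyc5_heavy hL (by rw [hLe]; exact set5_rot _ _ _ _ _)
      (nd5 dbc dbd dbe (Ne.symm dab) dcd dce (Ne.symm dac) dde (Ne.symm dad) (Ne.symm dae))
      h2 h3 h4 h5 h1 n4 n5 n6 (ns n1) (ns n2) g2
  rcases heavy_or_simple h3 with g3 | g3
  swap
  · exact cyc5_heavy hL (by rw [hLe, set5_rot, set5_rot])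
      (nd5 dcd dce (Ne.symm dac) (Ne.symm dbc) dde (Ne.symm dad) (Ne.symm dbd) (Ne.symm dae)
        (Ne.symm dbe) dab)
      h3 h4 h5 h1 h2 n6 (ns n1) (ns n2) (ns n4) (ns n5) g3
  rcases heavy_or_simple h4 with g4 | g4
  swap
  · exact cyc5_heavy hL (by rw [hLe, set5_rot, set5_rot, set5_rot])
      (nd5 dde (Ne.symm dad) (Ne.symm dbd) (Ne.symm dcd) (Ne.symm dae) (Ne.symm dbe)
        (Ne.symm dce) dab dac dbc)
      h4 h5 h1 h2 h3 (ns n2) (ns n4) (ns n5) (ns n6) n1 g4
  rcases heavy_or_simple h5 with g5 | g5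
  swap
  · exact cyc5_heavy hL (by rw [hLe, set5_rot, set5_rot, set5_rot, set5_rot])
      (nd5 (Ne.symm dae) (Ne.symm dbe) (Ne.symm dce) (Ne.symm dde) dab dac dad dbc dbd dcd)
      h5 h1 h2 h3 h4 (ns n5) (ns n6) n1 n2 n4 g5
  exfalso
  have ha : a ∈ L := by rw [hLe]; simp
  have hb : b ∈ L := by rw [hLe]; simp
  have hc : c ∈ L := by rw [hLe]; simp
  have hd : d ∈ L := by rw [hLe]; simp
  have he : e ∈ L := by rw [hLe]; simp
  obtain ⟨x, hx, hsub⟩ := hL.exists_sub'
  have sa := Lan.sub_le hx hsub ha {b, e} (fun j hj hadj => by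
    rw [hLe] at hj; simp only [Finset.mem_insert, Finset.mem_singleton] at hj ⊢
    rcases hj with rfl | rfl | rfl | rfl | rfl
    · exact absurd rfl hadj.ne
    · simp
    · exact absurd hadj n1
    · exact absurd hadj n2
    · simp) (by
      intro y hy; simp only [Finset.mem_insert, Finset.mem_singleton] at hy
      rcases hy with rfl | rfl <;> assumption) (by simp [dab, dae])
  rw [Finset.sum_pair dbe] at sa
  have sb := Lan.sub_le hx hsub hb {a, c} (fun j hj hadj => by
    rw [hLe] at hj; simp only [Finset.mem_insert, Finset.mem_singleton] at hj ⊢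
    rcases hj with rfl | rfl | rfl | rfl | rfl
    · simp
    · exact absurd rfl hadj.ne
    · simp
    · exact absurd hadj n4
    · exact absurd hadj n5) (by
      intro y hy; simp only [Finset.mem_insert, Finset.mem_singleton] at hy
      rcases hy with rfl | rfl <;> assumption) (by simp [Ne.symm dab, dbc])
  rw [Finset.sum_pair dac] at sb
  have sc := Lan.sub_le hx hsub hc {b, d} (fun j hj hadj => by
    rw [hLe] at hj; simp only [Finset.mem_insert, Finset.mem_singleton] at hj ⊢
    rcases hj with rfl | rfl | rfl | rfl | rfl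
    · exact absurd (hadj.symm D) n1
    · simp
    · exact absurd rfl hadj.ne
    · simp
    · exact absurd hadj n6) (by
      intro y hy; simp only [Finset.mem_insert, Finset.mem_singleton] at hy
      rcases hy with rfl | rfl <;> assumption) (by simp [Ne.symm dbc, dcd])
  rw [Finset.sum_pair dbd] at sc
  have sd := Lan.sub_le hx hsub hd {c, e} (fun j hj hadj => by
    rw [hLe] at hj; simp only [Finset.mem_insert, Finset.mem_singleton] at hj ⊢
    rcases hj with rfl | rfl | rfl | rfl | rfl
    · exact absurd (hadj.symm D) n2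
    · exact absurd (hadj.symm D) n4
    · simp
    · exact absurd rfl hadj.ne
    · simp) (by
      intro y hy; simp only [Finset.mem_insert, Finset.mem_singleton] at hy
      rcases hy with rfl | rfl <;> assumption) (by simp [Ne.symm dcd, dde])
  rw [Finset.sum_pair dce] at sd
  have se := Lan.sub_le hx hsub he {d, a} (fun j hj hadj => by
    rw [hLe] at hj; simp only [Finset.mem_insert, Finset.mem_singleton] at hj ⊢
    rcases hj with rfl | rfl | rfl | rfl | rfl
    · simp
    · exact absurd (hadj.symm D) n5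
    · exact absurd (hadj.symm D) n6
    · simp
    · exact absurd rfl hadj.ne) (by
      intro y hy; simp only [Finset.mem_insert, Finset.mem_singleton] at hy
      rcases hy with rfl | rfl <;> assumption) (by simp [Ne.symm dae, Ne.symm dde])
  rw [Finset.sum_pair (Ne.symm dad)] at se
  rw [g1, D.symm a e, g5] at sa
  rw [D.symm b a, g1, g2] at sb
  rw [D.symm c b, g2, g3] at sc
  rw [D.symm d c, g3, g4] at sd
  rw [D.symm e d, g4, g5] at se
  linarith

/-- a fifth element -/
theorem fifth {α : Type*} [DecidableEq α] {L : Finset α} (h5 : L.card = 5) {a b c d : α}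
    (hnd : [a, b, c, d].Nodup) (ha : a ∈ L) (hb : b ∈ L) (hc : c ∈ L) (hd : d ∈ L) :
    ∃ e ∈ L, L = {e, a, b, c, d} ∧ e ≠ a ∧ e ≠ b ∧ e ≠ c ∧ e ≠ d := by
  have hsub : ({a, b, c, d} : Finset α) ⊆ L := by
    intro x hx; simp only [Finset.mem_insert, Finset.mem_singleton] at hx
    rcases hx with rfl | rfl | rfl | rfl <;> assumption
  have hc4 : ({a, b, c, d} : Finset α).card = 4 := by
    simp only [List.nodup_cons, List.mem_cons, List.not_mem_nil, or_false, not_or,
      not_false_eq_true, List.nodup_nil, and_true] at hnd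
    obtain ⟨⟨h1, h2, h3⟩, ⟨h4, h5⟩, h6⟩ := hnd
    rw [Finset.card_insert_of_notMem (by simp [h1, h2, h3]),
      Finset.card_insert_of_notMem (by simp [h4, h5]), Finset.card_pair h6]
  have h1 : (L \ {a, b, c, d}).card = 1 := by
    rw [Finset.card_sdiff_of_subset hsub, h5, hc4]
  obtain ⟨q, hq⟩ := Finset.card_eq_one.1 h1
  have hqm : q ∈ L \ {a, b, c, d} := by rw [hq]; simp
  have hq2 := (Finset.mem_sdiff.1 hqm).2
  simp only [Finset.mem_insert, Finset.mem_singleton, not_or] at hq2
  refine ⟨q, (Finset.mem_sdiff.1 hqm).1, ?_, hq2.1, hq2.2.1, hq2.2.2.1, hq2.2.2.2⟩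
  rw [Finset.insert_eq, ← hq, Finset.sdiff_union_of_subset hsub]

/-- a Lannér set of order five with a node of degree at least three -/
theorem Lan.star5 {L : Finset D.ι} (hL : D.Lan L) (h5 : L.card = 5) {w u p q : D.ι} (hw : w ∈ L)
    (hu : u ∈ L) (hp : p ∈ L) (hq : q ∈ L) (dup : u ≠ p) (duq : u ≠ q) (dpq : p ≠ q)
    (h1 : D.Adj w u) (h2 : D.Adj w p) (h3 : D.Adj w q) : D.TFork L := by
  classical
  have ns : ∀ {i j : D.ι}, ¬ D.Adj i j → ¬ D.Adj j i := fun h h' => h (h'.symm D)
  have tri : ∀ {a b d : D.ι}, a ∈ L → b ∈ L → d ∈ L → D.Adj a b → D.Adj b d → ¬ D.Adj a d :=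
    fun {a b d} ha hb hd h1 h2 h3 => hL.no_tri (by omega) ha hb hd h1 h2 h3
  have n1 := tri hu hw hp (h1.symm D) h2
  have n2 := tri hu hw hq (h1.symm D) h3
  have n3 := tri hp hw hq (h2.symm D) h3
  have dwu := h1.ne
  have dwp := h2.ne
  have dwq := h3.ne
  obtain ⟨e, he, hLe, dew, deu, dep, deq⟩ := fifth h5 (nd4 dwu dwp dwq dup duq dpq) hw hu hp hq
  by_cases hwe : D.Adj w e
  · exfalso
    have m1 := tri hu hw he (h1.symm D) hwe
    have m2 := tri hp hw he (h2.symm D) hwe
    have m3 := tri hq hw he (h3.symm D) hwe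
    have g1 : D.g w u = -(1 / 2) := by
      rcases heavy_or_simple h1 with h | h
      · exact h
      · exact (no_heavy3 (pd4 hL h5.ge hw hu hp hq) (p := w) (q := u) (r := p) (s := q) (by simp)
          (by simp) (by simp) (by simp) dup duq dpq h dwu h2 h3).elim
    have g2 : D.g w p = -(1 / 2) := by
      rcases heavy_or_simple h2 with h | h
      · exact h
      · exact (no_heavy3 (pd4 hL h5.ge hw hu hp hq) (p := w) (q := p) (r := u) (s := q) (by simp)
          (by simp) (by simp) (by simp) (Ne.symm dup) dpq duq h dwp h1 h3).elim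
    have g3 : D.g w q = -(1 / 2) := by
      rcases heavy_or_simple h3 with h | h
      · exact h
      · exact (no_heavy3 (pd4 hL h5.ge hw hu hp hq) (p := w) (q := q) (r := u) (s := p) (by simp)
          (by simp) (by simp) (by simp) (Ne.symm duq) (Ne.symm dpq) dup h dwq h1 h2).elim
    have g4 : D.g w e = -(1 / 2) := by
      rcases heavy_or_simple hwe with h | h
      · exact h
      · exact (no_heavy3 (pd4 hL h5.ge hw hu hp he) (p := w) (q := e) (r := u) (s := p) (by simp)
          (by simp) (by simp) (by simp) deu dep dup h (Ne.symm dew) h1 h2).elim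
    obtain ⟨x, hx, hsub⟩ := hL.exists_sub'
    have sw := Lan.sub_le hx hsub hw {e, u, p, q} (fun j hj hadj => by
      rw [hLe] at hj; simp only [Finset.mem_insert, Finset.mem_singleton] at hj ⊢
      rcases hj with rfl | rfl | rfl | rfl | rfl
      · simp
      · exact absurd rfl hadj.ne
      · simp
      · simp
      · simp) (by
        intro y hy; simp only [Finset.mem_insert, Finset.mem_singleton] at hy
        rcases hy with rfl | rfl | rfl | rfl <;> assumption)
        (by simp [Ne.symm dew, dwu, dwp, dwq])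
    rw [Finset.sum_insert (by simp [deu, dep, deq]), Finset.sum_insert (by simp [dup, duq]),
      Finset.sum_pair dpq] at sw
    have leaf : ∀ y ∈ L, y ≠ w → (∀ j ∈ L, D.Adj y j → j = w) → x y < -D.g y w * x w := by
      intro y hy hyw hj
      have := Lan.sub_le hx hsub hy {w} (fun j hj' hadj => by
        rw [Finset.mem_singleton]; exact hj j hj' hadj) (by simpa using hw) (by simpa using hyw)
      rwa [Finset.sum_singleton] at this
    have su := leaf u hu (Ne.symm dwu) fun j hj hadj => by
      rw [hLe] at hj; simp only [Finset.mem_insert, Finset.mem_singleton] at hj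
      rcases hj with rfl | rfl | rfl | rfl | rfl
      · exact absurd hadj m1
      · rfl
      · exact absurd rfl hadj.ne
      · exact absurd hadj n1
      · exact absurd hadj n2
    have sp := leaf p hp (Ne.symm dwp) fun j hj hadj => by
      rw [hLe] at hj; simp only [Finset.mem_insert, Finset.mem_singleton] at hj
      rcases hj with rfl | rfl | rfl | rfl | rfl
      · exact absurd hadj m2
      · rfl
      · exact absurd hadj (ns n1)
      · exact absurd rfl hadj.ne
      · exact absurd hadj n3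
    have sq := leaf q hq (Ne.symm dwq) fun j hj hadj => by
      rw [hLe] at hj; simp only [Finset.mem_insert, Finset.mem_singleton] at hj
      rcases hj with rfl | rfl | rfl | rfl | rfl
      · exact absurd hadj m3
      · rfl
      · exact absurd hadj (ns n2)
      · exact absurd hadj (ns n3)
      · exact absurd rfl hadj.ne
    have se := leaf e he dew fun j hj hadj => by
      rw [hLe] at hj; simp only [Finset.mem_insert, Finset.mem_singleton] at hj
      rcases hj with rfl | rfl | rfl | rfl | rfl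
      · exact absurd rfl hadj.ne
      · rfl
      · exact absurd hadj (ns m1)
      · exact absurd hadj (ns m2)
      · exact absurd hadj (ns m3)
    rw [g1, g2, g3, g4] at sw
    rw [D.symm u w, g1] at su
    rw [D.symm p w, g2] at sp
    rw [D.symm q w, g3] at sq
    rw [D.symm e w, g4] at se
    linarith
  · -- the fifth node is adjacent to exactly one of the three
    have q1 : D.Adj e u → D.Adj e p → False := fun f1 f2 =>
      no_quad (pd4 hL h5.ge hw hu he hp) (a := w) (b := u) (d := e) (e := p) (by simp) (by simp)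
        (by simp) (by simp) h1 (f1.symm D) f2 (h2.symm D) (Ne.symm dew) dup
    have q2 : D.Adj e u → D.Adj e q → False := fun f1 f2 =>
      no_quad (pd4 hL h5.ge hw hu he hq) (a := w) (b := u) (d := e) (e := q) (by simp) (by simp)
        (by simp) (by simp) h1 (f1.symm D) f2 (h3.symm D) (Ne.symm dew) duq
    have q3 : D.Adj e p → D.Adj e q → False := fun f1 f2 =>
      no_quad (pd4 hL h5.ge hw hp he hq) (a := w) (b := p) (d := e) (e := q) (by simp) (by simp)
        (by simp) (by simp) h2 (f1.symm D) f2 (h3.symm D) (Ne.symm dew) dpq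
    obtain ⟨i, hi, j, hj, hjn, hij⟩ := hL.conn (A := {e}) (by simpa using he) (by simp)
      (by intro h; rw [← h] at h5; simp at h5)
    rw [Finset.mem_singleton] at hi hjn
    subst hi
    rw [hLe] at hj; simp only [Finset.mem_insert, Finset.mem_singleton] at hj
    rcases hj with rfl | rfl | rfl | rfl | rfl
    · exact absurd rfl hjn
    · exact absurd (hij.symm D) hwe
    · exact fork_type hL (u := i) (v := j) (w := w) (p := p) (q := q)
        (by rw [hLe]; ext x; simp only [Finset.mem_insert, Finset.mem_singleton]; tauto)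
        (nd5 deu dew dep deq (Ne.symm dwu) dup duq dwp dwq dpq) hij (h1.symm D) h2 h3
        (ns hwe) (fun f => q1 hij f) (fun f => q2 hij f) n1 n2 n3
    · exact fork_type hL (u := i) (v := j) (w := w) (p := u) (q := q)
        (by rw [hLe]; ext x; simp only [Finset.mem_insert, Finset.mem_singleton]; tauto)
        (nd5 dep dew deu deq (Ne.symm dwp) (Ne.symm dup) dpq dwu dwq duq) hij (h2.symm D) h1 h3
        (ns hwe) (fun f => q1 f hij) (fun f => q3 hij f) (ns n1) n3 n2
    · exact fork_type hL (u := i) (v := j) (w := w) (p := u) (q := p)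
        (by rw [hLe]; ext x; simp only [Finset.mem_insert, Finset.mem_singleton]; tauto)
        (nd5 deq dew deu dep (Ne.symm dwq) (Ne.symm duq) (Ne.symm dpq) dwu dwp dup) hij
        (h3.symm D) h1 h2 (ns hwe) (fun f => q2 f hij) (fun f => q3 f hij) (ns n2) (ns n3) n1

/-- **The Lannér sets of order five.** -/
theorem Lan.shape5 {L : Finset D.ι} (hL : D.Lan L) (h5 : L.card = 5) :
    D.TFork L ∨ (D.TPath5 (1 / 2) L ∨ D.TPath5 (√2 / 2) L ∨ D.TPath5 c5 L) ∨ D.TCyc5 L := by
  classical
  by_cases hst : ∃ w ∈ L, ∃ u ∈ L, ∃ p ∈ L, ∃ q ∈ L, u ≠ p ∧ u ≠ q ∧ p ≠ q ∧ D.Adj w u ∧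
      D.Adj w p ∧ D.Adj w q
  · obtain ⟨w, hw, u, hu, p, hp, q, hq, dup, duq, dpq, h1, h2, h3⟩ := hst
    exact Or.inl (hL.star5 h5 hw hu hp hq dup duq dpq h1 h2 h3)
  right
  have star : ∀ {w u p q : D.ι}, w ∈ L → u ∈ L → p ∈ L → q ∈ L → u ≠ p → u ≠ q → p ≠ q →
      D.Adj w u → D.Adj w p → ¬ D.Adj w q := fun {w u p q} hw hu hp hq h1 h2 h3 h4 h5 h6 =>
    hst ⟨w, hw, u, hu, p, hp, q, hq, h1, h2, h3, h4, h5, h6⟩
  have ns : ∀ {i j : D.ι}, ¬ D.Adj i j → ¬ D.Adj j i := fun h h' => h (h'.symm D)
  have tri : ∀ {a b d : D.ι}, a ∈ L → b ∈ L → d ∈ L → D.Adj a b → D.Adj b d → ¬ D.Adj a d :=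
    fun {a b d} ha hb hd h1 h2 h3 => hL.no_tri (by omega) ha hb hd h1 h2 h3
  -- a node with two neighbours
  have hex : ∃ w ∈ L, ∃ u ∈ L, ∃ p ∈ L, u ≠ p ∧ D.Adj w u ∧ D.Adj w p := by
    obtain ⟨a, ha⟩ := hL.nonempty
    obtain ⟨i, hi, b, hb, hba, hab⟩ := hL.conn (A := {a}) (by simpa using ha) (by simp)
      (by intro h; rw [← h] at h5; simp at h5)
    rw [Finset.mem_singleton] at hi; subst hi
    obtain ⟨j, hj, d, hd, hdn, hjd⟩ := hL.conn (A := {i, b}) (by
      intro x hx; simp only [Finset.mem_insert, Finset.mem_singleton] at hx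
      rcases hx with rfl | rfl <;> assumption) (by simp)
      (by intro h; rw [← h] at h5; have := Finset.card_le_two (a := i) (b := b); omega)
    simp only [Finset.mem_insert, Finset.mem_singleton, not_or] at hj hdn
    rcases hj with rfl | rfl
    · exact ⟨j, ha, b, hb, d, hd, Ne.symm hdn.2, hab, hjd⟩
    · exact ⟨j, hb, i, ha, d, hd, Ne.symm hdn.1, hab.symm D, hjd⟩
  obtain ⟨w, hw, u, hu, p, hp, dup, hwu, hwp⟩ := hex
  have nup : ¬ D.Adj u p := tri hu hw hp (hwu.symm D) hwp
  have dwu := hwu.ne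
  have dwp := hwp.ne
  -- a path of four nodes
  have hpath : ∃ a ∈ L, ∃ b ∈ L, ∃ c ∈ L, ∃ d ∈ L, [a, b, c, d].Nodup ∧ D.Adj a b ∧
      D.Adj b c ∧ D.Adj c d ∧ ¬ D.Adj a c ∧ ¬ D.Adj a d ∧ ¬ D.Adj b d := by
    obtain ⟨i, hi, j, hj, hjn, hij⟩ := hL.conn (A := {w, u, p}) (by
        intro x hx; simp only [Finset.mem_insert, Finset.mem_singleton] at hx
        rcases hx with rfl | rfl | rfl <;> assumption) (by simp)
      (by intro h; rw [← h] at h5; have := Finset.card_le_three (a := w) (b := u) (c := p); omega)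
    simp only [Finset.mem_insert, Finset.mem_singleton, not_or] at hi hjn
    obtain ⟨djw, dju, djp⟩ := hjn
    rcases hi with rfl | rfl | rfl
    · exact absurd hij (star hw hu hp hj dup (Ne.symm dju) (Ne.symm djp) hwu hwp)
    · refine ⟨p, hp, w, hw, i, hu, j, hj, nd4 (Ne.symm dwp) (Ne.symm dup) (Ne.symm djp) dwu
        (Ne.symm djw) (Ne.symm dju), hwp.symm D, hwu, hij, ns nup, fun f => ?_,
        ns (tri hj hu hw (hij.symm D) (hwu.symm D))⟩
      exact no_quad (pd4 hL h5.ge hw hu hj hp) (a := w) (b := i) (d := j) (e := p) (by simp)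
        (by simp) (by simp) (by simp) hwu hij (f.symm D) (hwp.symm D) (Ne.symm djw) dup
    · refine ⟨u, hu, w, hw, i, hp, j, hj, nd4 (Ne.symm dwu) dup (Ne.symm dju) dwp
        (Ne.symm djw) (Ne.symm djp), hwu.symm D, hwp, hij, nup, fun f => ?_,
        ns (tri hj hp hw (hij.symm D) (hwp.symm D))⟩
      exact no_quad (pd4 hL h5.ge hw hp hj hu) (a := w) (b := i) (d := j) (e := u) (by simp)
        (by simp) (by simp) (by simp) hwp hij (f.symm D) (hwu.symm D) (Ne.symm djw)
        (Ne.symm dup)
  obtain ⟨a, ha, b, hb, c, hc, d, hd, hnd, hab, hbc, hcd, nac, nad, nbd⟩ := hpath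
  obtain ⟨e, he, hLe, dea, deb, dec, ded⟩ := fifth h5 hnd ha hb hc hd
  have hnd' := hnd
  simp only [List.nodup_cons, List.mem_cons, List.not_mem_nil, or_false, not_or,
      not_false_eq_true, List.nodup_nil, and_true] at hnd
  obtain ⟨⟨dab, dac, dad⟩, ⟨dbc, dbd⟩, dcd⟩ := hnd
  have neb : ¬ D.Adj b e := star hb ha hc he dac (Ne.symm dea) (Ne.symm dec) (hab.symm D) hbc
  have nec : ¬ D.Adj c e := star hc hb hd he dbd (Ne.symm deb) (Ne.symm ded) (hbc.symm D) hcd
  by_cases hea : D.Adj e a
  · by_cases hed : D.Adj d e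
    · right
      exact cyc5_type hL (a := a) (b := b) (c := c) (d := d) (e := e)
        (by rw [hLe]; ext x; simp only [Finset.mem_insert, Finset.mem_singleton]; tauto)
        (nd5 dab dac dad (Ne.symm dea) dbc dbd (Ne.symm deb) dcd (Ne.symm dec) (Ne.symm ded))
        hab hbc hcd hed hea nac nad nbd neb nec
    · left
      exact path5_type hL (a := e) (b := a) (c := b) (d := c) (e := d) hLe
        (nd5 dea deb dec ded dab dac dad dbc dbd dcd) hea hab hbc hcd (ns neb) (ns nec)
        (ns hed) nac nad nbd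
  · left
    have hde : D.Adj d e := by
      obtain ⟨i, hi, j, hj, hjn, hij⟩ := hL.conn (A := {e}) (by simpa using he) (by simp)
        (by intro h; rw [← h] at h5; simp at h5)
      rw [Finset.mem_singleton] at hi hjn
      subst hi
      rw [hLe] at hj; simp only [Finset.mem_insert, Finset.mem_singleton] at hj
      rcases hj with rfl | rfl | rfl | rfl | rfl
      · exact absurd rfl hjn
      · exact absurd hij hea
      · exact absurd (hij.symm D) neb
      · exact absurd (hij.symm D) nec
      · exact hij.symm D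
    exact path5_type hL (a := a) (b := b) (c := c) (d := d) (e := e)
        (by rw [hLe]; ext x; simp only [Finset.mem_insert, Finset.mem_singleton]; tauto)
        (nd5 dab dac dad (Ne.symm dea) dbc dbd (Ne.symm deb) dcd (Ne.symm dec) (Ne.symm ded))
        hab hbc hcd hde nac nad (ns hea) nbd neb nec

end CoxData

end MP345
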