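import Mathlib
import Pool.Agent.Work.MP_345ef2_gt.Count2

/-!
# The strict form of Nikulin's estimate in odd dimensions
-/

namespace MP345

open Finset

variable {n : ℕ}

theorem num_odd_aux {m a b : ℤ} (hm : 0 ≤ m) (ha : a ≤ m) (hc : 2 * m + 1 ≤ a + b) :
    2 * m ^ 2 ≤ a * (a - 1) + b * (b - 1) := by
  have h1 : 0 ≤ (b - (2 * m + 1 - a)) * (b + (2 * m + 1 - a) - 1) :=
    mul_nonneg (by linarith) (by linarith)
  nlinarith [sq_nonneg (m - a), mul_nonneg (sub_nonneg.2 ha) (sub_nonneg.2 ha)]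

theorem num_odd_le {m a b : ℕ} (hc : 2 * m + 1 ≤ a + b) :
    (2 * m) ^ 2 ≤ 4 * (a.choose 2) + 4 * (b.choose 2) := by
  have ha := choose_int a
  have hb := choose_int b
  have hc' : 2 * (m : ℤ) + 1 ≤ a + b := by exact_mod_cast hc
  have key : 2 * (m : ℤ) ^ 2 ≤ a * (a - 1) + b * (b - 1) := by
    rcases le_or_gt (a : ℤ) m with h | h
    · exact num_odd_aux (Int.natCast_nonneg m) h hc'
    · rcases le_or_gt (b : ℤ) m with h' | h'
      · have := num_odd_aux (Int.natCast_nonneg m) h' (by linarith : 2 * (m : ℤ) + 1 ≤ b + a)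
        linarith
      · have h0 : (0 : ℤ) ≤ m := Int.natCast_nonneg m
        have h1 : (m : ℤ) + 1 ≤ a := h
        have h2 : (m : ℤ) + 1 ≤ b := h'
        nlinarith
  have hgoal : (((2 * m) ^ 2 : ℕ) : ℤ) ≤ ((4 * a.choose 2 + 4 * b.choose 2 : ℕ) : ℤ) := by
    push_cast
    nlinarith
  exact_mod_cast hgoal

theorem num_odd_lt {m b : ℕ} (hm : 1 ≤ m) (hc : 2 * m + 1 ≤ b) :
    (2 * m) ^ 2 < 4 * ((0 : ℕ).choose 2) + 4 * (b.choose 2) := by
  have hb := choose_int b
  have hgoal : (((2 * m) ^ 2 : ℕ) : ℤ) < ((4 * (0 : ℕ).choose 2 + 4 * b.choose 2 : ℕ) : ℤ) := by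
    push_cast
    have hc' : 2 * (m : ℤ) + 1 ≤ b := by exact_mod_cast hc
    have hm' : (1 : ℤ) ≤ m := by exact_mod_cast hm
    have h1 : (2 * (m : ℤ) + 1) * (2 * m) ≤ b * (b - 1) := by nlinarith
    simp only [Nat.choose_zero_succ, Nat.cast_zero, mul_zero, zero_add]
    nlinarith
  exact_mod_cast hgoal

namespace Cone

variable (C : Cone n)

theorem two_faces_odd_lt {m : ℕ} (hn : n = 2 * m + 1) (hm : 1 ≤ m) :
    (2 * m) ^ 2 * (Verts C.g n).card < 8 * (Faces2 C.g n).card := by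
  classical
  obtain ⟨h, hgen⟩ := C.exists_generic
  have h1 := C.card_up_pairs h hgen
  have h2 := C.card_up_pairs (-h) (by
    intro v hv w hw hvw
    apply hgen v hv w hw
    simpa using hvw)
  have hc : ∀ v ∈ Verts C.g n, n ≤ (C.up h v).card + (C.up (-h) v).card := by
    intro v hv
    have hcov : v ⊆ C.up h v ∪ C.up (-h) v := by
      intro i hi
      obtain ⟨j, hj, hpd⟩ := C.exists_other hv hi
      rw [Finset.mem_union]
      rcases le_total (h (C.pt v)) (h (C.pt (insert j (v.erase i)))) with hle | hle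
      · left; unfold up; rw [Finset.mem_filter]
        exact ⟨hi, j, hj, hpd, hle⟩
      · right; unfold up; rw [Finset.mem_filter]
        refine ⟨hi, j, hj, hpd, ?_⟩
        simp only [LinearMap.neg_apply]; linarith
    calc n = v.card := (mem_Verts.1 hv).2.symm
      _ ≤ _ := Finset.card_le_card hcov
      _ ≤ _ := Finset.card_union_le _ _
  have h3 : ∀ v ∈ Verts C.g n, (2 * m) ^ 2 ≤
      4 * ((C.up h v).card.choose 2) + 4 * ((C.up (-h) v).card.choose 2) := fun v hv =>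
    num_odd_le (by have := hc v hv; omega)
  -- the top vertex
  obtain ⟨v0, hv0, hmax⟩ := Finset.exists_max_image (Verts C.g n) (fun v => h (C.pt v))
    C.verts_nonempty
  have hup : C.up h v0 = ∅ := by
    rw [Finset.eq_empty_iff_forall_notMem]
    intro i hi
    unfold up at hi
    rw [Finset.mem_filter] at hi
    obtain ⟨hiv, j, hj, hpd, hle⟩ := hi
    have hmem : insert j (v0.erase i) ∈ Verts C.g n := by
      refine mem_Verts.2 ⟨hpd, ?_⟩
      rw [Finset.card_insert_of_notMem (fun hh => hj (Finset.mem_of_mem_erase hh)),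
        Finset.card_erase_of_mem hiv, (mem_Verts.1 hv0).2]
      omega
    have := hgen v0 hv0 _ hmem (le_antisymm hle (hmax _ hmem))
    exact hj (by rw [this]; simp)
  have h4 : (2 * m) ^ 2 <
      4 * ((C.up h v0).card.choose 2) + 4 * ((C.up (-h) v0).card.choose 2) := by
    have h5 := hc v0 hv0
    rw [hup, Finset.card_empty] at h5 ⊢
    exact num_odd_lt hm (by omega)
  calc (2 * m) ^ 2 * (Verts C.g n).card = ∑ v ∈ Verts C.g n, (2 * m) ^ 2 := by
        rw [Finset.sum_const, smul_eq_mul, mul_comm]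
    _ < ∑ v ∈ Verts C.g n, (4 * ((C.up h v).card.choose 2) + 4 * ((C.up (-h) v).card.choose 2)) :=
        Finset.sum_lt_sum h3 ⟨v0, hv0, h4⟩
    _ = 4 * ∑ v ∈ Verts C.g n, ((C.up h v).card.choose 2) +
        4 * ∑ v ∈ Verts C.g n, ((C.up (-h) v).card.choose 2) := by
        rw [Finset.sum_add_distrib, Finset.mul_sum, Finset.mul_sum]
    _ ≤ 8 * (Faces2 C.g n).card := by omega

/-- **Strict count in odd dimensions**: `(n - 1) (n - 5) V < 8 Σ (5 - k_F)⁺`. -/
theorem count_odd_lt {m : ℕ} (hn : n = 2 * m + 1) (hm : 1 ≤ m) :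
    ((n : ℝ) - 1) * (n - 5) * (Verts C.g n).card <
    8 * ∑ K ∈ Faces2 C.g n, max (5 - (kF C.g n K : ℝ)) 0 := by
  classical
  have h1 := C.two_faces_odd_lt hn hm
  have h2 := sum_kF (n := n) C.g (by omega)
  have hm2 : ((2 * m : ℕ) : ℝ) = (n : ℝ) - 1 := by rw [hn]; push_cast; ring
  have h1' : ((n : ℝ) - 1) ^ 2 * (Verts C.g n).card < 8 * (Faces2 C.g n).card := by
    have : (((2 * m) ^ 2 * (Verts C.g n).card : ℕ) : ℝ) < ((8 * (Faces2 C.g n).card : ℕ) : ℝ) := by
      exact_mod_cast h1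
    rw [← hm2]
    push_cast at this ⊢
    linarith
  have h2' : ∑ K ∈ Faces2 C.g n, (kF C.g n K : ℝ) = n * (n - 1) / 2 * (Verts C.g n).card := by
    have h3 : ((∑ K ∈ Faces2 C.g n, kF C.g n K : ℕ) : ℝ) =
        ((n.choose 2 * (Verts C.g n).card : ℕ) : ℝ) := by rw [h2]
    push_cast at h3
    rw [h3, Nat.cast_choose_two]
  have h4 : ∑ K ∈ Faces2 C.g n, (5 - (kF C.g n K : ℝ)) ≤
      ∑ K ∈ Faces2 C.g n, max (5 - (kF C.g n K : ℝ)) 0 :=
    Finset.sum_le_sum fun _ _ => le_max_left _ _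
  rw [Finset.sum_sub_distrib, h2', Finset.sum_const, nsmul_eq_mul] at h4
  nlinarith

end Cone

end MP345
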