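import Mathlib
import Pool.Agent.Work.MP_345ef2_gt.Rule

/-!
# The vertex level: edges, pairs at distance two and leaves of a positive definite diagram
-/

namespace MP345

open Finset

variable {n : ℕ}

/-- weight of a degree -/
def wd (d : ℕ) : ℤ := if d = 0 then 2 else if d = 1 then 1 else if d = 2 then 0 else -3

namespace CoxData

variable {D : CoxData n}

theorem nb_erase (S : Finset D.ι) (x z : D.ι) : D.nb (S.erase x) z = (D.nb S z).erase x := by
  classical
  ext y
  simp only [mem_nb, Finset.mem_erase]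
  tauto

theorem nb_erase_of_not_adj {S : Finset D.ι} {x z : D.ι} (h : ¬ D.Adj z x) :
    D.nb (S.erase x) z = D.nb S z := by
  classical
  rw [nb_erase, Finset.erase_eq_of_notMem]
  rw [mem_nb]; tauto

theorem nb_sdiff_of_not_adj {S A : Finset D.ι} {z : D.ι} (h : ∀ x ∈ A, ¬ D.Adj z x) :
    D.nb (S \ A) z = D.nb S z := by
  classical
  ext y
  simp only [mem_nb, Finset.mem_sdiff]
  constructor
  · rintro ⟨⟨h1, h2⟩, h3⟩; exact ⟨h1, h3⟩
  · rintro ⟨h1, h3⟩; exact ⟨⟨h1, fun h2 => h y h2 h3⟩, h3⟩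

/-- the only neighbour -/
theorem nb_eq_singleton {S : Finset D.ι} {x y : D.ι} (hc : (D.nb S x).card ≤ 1) (hy : y ∈ S)
    (hxy : D.Adj x y) : D.nb S x = {y} := by
  classical
  have hm : y ∈ D.nb S x := (mem_nb D).2 ⟨hy, hxy⟩
  refine Finset.eq_singleton_iff_unique_mem.2 ⟨hm, fun z hz => ?_⟩
  exact Finset.card_le_one.1 hc z hz y hm

/-- **Weighted count of the degrees** of a positive definite diagram: three times the number of
branch nodes is at most the number of leaves plus twice the number of isolated nodes. -/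
theorem wd_sum {S : Finset D.ι} (hS : PD D.g S) : 0 ≤ ∑ x ∈ S, wd (D.nb S x).card := by
  classical
  induction hk : S.card using Nat.strong_induction_on generalizing S with
  | _ k ih =>
  -- isolated nodes
  by_cases c0 : ∃ x ∈ S, (D.nb S x).card = 0
  · obtain ⟨x, hx, hx0⟩ := c0
    have hna : ∀ z, z ∈ S → ¬ D.Adj z x := fun z hz h => by
      have : z ∈ D.nb S x := (mem_nb D).2 ⟨hz, h.symm D⟩
      rw [Finset.card_eq_zero.1 hx0] at this
      exact absurd this (Finset.notMem_empty _)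
    have h1 := ih _ (by rw [← hk]; exact Finset.card_erase_lt_of_mem hx)
      (hS.mono (Finset.erase_subset x S)) rfl
    rw [← Finset.add_sum_erase S _ hx, hx0]
    have h2 : ∑ z ∈ S.erase x, wd (D.nb (S.erase x) z).card =
        ∑ z ∈ S.erase x, wd (D.nb S z).card :=
      Finset.sum_congr rfl fun z hz => by
        rw [nb_erase_of_not_adj (hna z (Finset.mem_of_mem_erase hz))]
    rw [h2] at h1
    have : wd 0 = 2 := rfl
    omega
  -- leaves at nodes of degree at most two
  by_cases c1 : ∃ x ∈ S, ∃ y ∈ S, D.Adj x y ∧ (D.nb S x).card ≤ 1 ∧ (D.nb S y).card ≤ 2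
  · obtain ⟨x, hx, y, hy, hxy, hx1, hy2⟩ := c1
    have hN := nb_eq_singleton hx1 hy hxy
    have h1 := ih _ (by rw [← hk]; exact Finset.card_erase_lt_of_mem hx)
      (hS.mono (Finset.erase_subset x S)) rfl
    have hyx : y ∈ S.erase x := Finset.mem_erase.2 ⟨Ne.symm hxy.1, hy⟩
    have hxN : x ∈ D.nb S y := (mem_nb D).2 ⟨hx, hxy.symm D⟩
    have hyc : (D.nb (S.erase x) y).card = (D.nb S y).card - 1 := by
      rw [nb_erase, Finset.card_erase_of_mem hxN]
    have hy1 : 1 ≤ (D.nb S y).card := Finset.card_pos.2 ⟨x, hxN⟩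
    have hna : ∀ z ∈ (S.erase x).erase y, ¬ D.Adj z x := fun z hz h => by
      have h3 : z ∈ D.nb S x := (mem_nb D).2
        ⟨Finset.mem_of_mem_erase (Finset.mem_of_mem_erase hz), h.symm D⟩
      rw [hN, Finset.mem_singleton] at h3
      exact (Finset.mem_erase.1 hz).1 h3
    have h2 : ∑ z ∈ (S.erase x).erase y, wd (D.nb (S.erase x) z).card =
        ∑ z ∈ (S.erase x).erase y, wd (D.nb S z).card :=
      Finset.sum_congr rfl fun z hz => by rw [nb_erase_of_not_adj (hna z hz)]
    rw [← Finset.add_sum_erase (S.erase x) _ hyx, h2, hyc] at h1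
    rw [← Finset.add_sum_erase S _ hx, ← Finset.add_sum_erase (S.erase x) _ hyx, hN,
      Finset.card_singleton]
    have hcase : (D.nb S y).card = 1 ∨ (D.nb S y).card = 2 := by omega
    rcases hcase with h | h
    · rw [h] at h1 ⊢
      have e1 : wd 1 = 1 := rfl
      have e0 : wd (1 - 1) = 2 := rfl
      rw [e0] at h1; rw [e1]; linarith
    · rw [h] at h1 ⊢
      have e1 : wd 1 = 1 := rfl
      have e2 : wd 2 = 0 := rfl
      have e0 : wd (2 - 1) = 1 := rfl
      rw [e0] at h1; rw [e1, e2]; linarith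
  push Not at c1
  -- a component of type D4
  by_cases c2 : ∃ y ∈ S, (D.nb S y).card = 3 ∧ ∀ z ∈ D.nb S y, (D.nb S z).card ≤ 1
  · obtain ⟨y, hy, hy3, hall⟩ := c2
    set A := insert y (D.nb S y) with hA
    have hyN : y ∉ D.nb S y := by rw [mem_nb]; rintro ⟨_, h⟩; exact h.1 rfl
    have hAS : A ⊆ S := by
      intro z hz
      rcases Finset.mem_insert.1 hz with rfl | h
      · exact hy
      · exact ((mem_nb D).1 h).1
    have hna : ∀ z ∈ S \ A, ∀ x ∈ A, ¬ D.Adj z x := by
      intro z hz x hx hadj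
      obtain ⟨hzS, hzA⟩ := Finset.mem_sdiff.1 hz
      rcases Finset.mem_insert.1 hx with rfl | h
      · exact hzA (Finset.mem_insert_of_mem ((mem_nb D).2 ⟨hzS, hadj.symm D⟩))
      · have h4 := (mem_nb D).1 h
        have h5 := nb_eq_singleton (hall x h) hy (h4.2.symm D)
        have h6 : z ∈ D.nb S x := (mem_nb D).2 ⟨hzS, hadj.symm D⟩
        rw [h5, Finset.mem_singleton] at h6
        exact hzA (by rw [h6]; exact Finset.mem_insert_self _ _)
    have h1 := ih _ (by
      rw [← hk]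
      exact Finset.card_lt_card (Finset.ssubset_iff_subset_ne.2 ⟨Finset.sdiff_subset, fun e => by
        have : y ∈ S \ A := by rw [e]; exact hy
        exact (Finset.mem_sdiff.1 this).2 (Finset.mem_insert_self _ _)⟩))
      (hS.mono (Finset.sdiff_subset (s := S) (t := A))) rfl
    have h2 : ∑ z ∈ S \ A, wd (D.nb (S \ A) z).card = ∑ z ∈ S \ A, wd (D.nb S z).card :=
      Finset.sum_congr rfl fun z hz => by rw [nb_sdiff_of_not_adj (hna z hz)]
    rw [h2] at h1
    rw [← Finset.sum_sdiff hAS]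
    have h3 : ∑ z ∈ A, wd (D.nb S z).card = 0 := by
      rw [hA, Finset.sum_insert hyN, hy3]
      have h4 : ∑ z ∈ D.nb S y, wd (D.nb S z).card = ∑ _z ∈ D.nb S y, 1 := by
        refine Finset.sum_congr rfl fun z hz => ?_
        rw [nb_eq_singleton (hall z hz) hy (((mem_nb D).1 hz).2.symm D), Finset.card_singleton]
        rfl
      rw [h4, Finset.sum_const, hy3]
      rfl
    rw [h3, add_zero]; exact h1
  push Not at c2
  -- the rest
  by_cases hU : ∃ u ∈ S, 2 ≤ (D.nb S u).card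
  swap
  · push Not at hU
    refine Finset.sum_nonneg fun x hx => ?_
    have := hU x hx
    have hcase : (D.nb S x).card = 0 ∨ (D.nb S x).card = 1 := by omega
    rcases hcase with h | h <;> rw [h] <;> decide
  exfalso
  obtain ⟨u0, hu0, hu02⟩ := hU
  refine core_test' hS (U := S.filter fun u => 2 ≤ (D.nb S u).card) (Finset.filter_subset _ _)
    ⟨u0, Finset.mem_filter.2 ⟨hu0, hu02⟩⟩ ?_
  intro u hu
  obtain ⟨huS, hu2⟩ := Finset.mem_filter.1 hu
  have hd := D.deg_le hS huS
  have hsum := Finset.card_filter_add_card_filter_not (s := D.nb S u)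
    (fun z => 2 ≤ (D.nb S z).card)
  -- small neighbours force degree three
  have hsm : ∀ z ∈ (D.nb S u).filter (fun z => ¬ 2 ≤ (D.nb S z).card), (D.nb S u).card = 3 := by
    intro z hz
    obtain ⟨hz1, hz2⟩ := Finset.mem_filter.1 hz
    obtain ⟨hzS, hadj⟩ := (mem_nb D).1 hz1
    have := c1 z hzS u huS (hadj.symm D) (by omega)
    omega
  by_cases h2 : 2 ≤ ((D.nb S u).filter fun z => 2 ≤ (D.nb S z).card).card
  · left
    obtain ⟨v, hv, v', hv', hne⟩ := Finset.one_lt_card.1 h2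
    obtain ⟨hv1, hv2⟩ := Finset.mem_filter.1 hv
    obtain ⟨hv1', hv2'⟩ := Finset.mem_filter.1 hv'
    obtain ⟨hvS, hadj⟩ := (mem_nb D).1 hv1
    obtain ⟨hvS', hadj'⟩ := (mem_nb D).1 hv1'
    exact ⟨v, Finset.mem_filter.2 ⟨hvS, hv2⟩, v', Finset.mem_filter.2 ⟨hvS', hv2'⟩, hne, hadj,
      hadj'⟩
  · have hpos : 0 < ((D.nb S u).filter fun z => ¬ 2 ≤ (D.nb S z).card).card := by omega
    obtain ⟨z0, hz0⟩ := Finset.card_pos.1 hpos
    have h3 := hsm z0 hz0
    have h1 : 1 ≤ ((D.nb S u).filter fun z => 2 ≤ (D.nb S z).card).card := by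
      by_contra hlt
      have h0 : ((D.nb S u).filter fun z => 2 ≤ (D.nb S z).card).card = 0 := by omega
      obtain ⟨z, hz, hz'⟩ := c2 u huS h3
      rw [Finset.card_eq_zero, Finset.filter_eq_empty_iff] at h0
      exact h0 hz (by omega)
    obtain ⟨v, hv⟩ := Finset.card_pos.1 (show 0 < _ from h1)
    obtain ⟨hv1, hv2⟩ := Finset.mem_filter.1 hv
    obtain ⟨hvS, hadj⟩ := (mem_nb D).1 hv1
    right
    refine ⟨⟨v, Finset.mem_filter.2 ⟨hvS, hv2⟩, hadj⟩, Or.inr ?_⟩
    have h4 : 2 ≤ ((D.nb S u).filter fun z => ¬ 2 ≤ (D.nb S z).card).card := by omega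
    obtain ⟨q, hq, q', hq', hne⟩ := Finset.one_lt_card.1 h4
    obtain ⟨hq1, hq2⟩ := Finset.mem_filter.1 hq
    obtain ⟨hq1', hq2'⟩ := Finset.mem_filter.1 hq'
    obtain ⟨hqS, hadjq⟩ := (mem_nb D).1 hq1
    obtain ⟨hqS', hadjq'⟩ := (mem_nb D).1 hq1'
    exact ⟨q, hqS, q', hqS', fun h => hq2 (Finset.mem_filter.1 h).2,
      fun h => hq2' (Finset.mem_filter.1 h).2, hne, hadjq, hadjq'⟩

open scoped Classical in
theorem sum_nb_card (S : Finset D.ι) : ∑ i ∈ S, ((D.nb S i).card : ℝ) = 2 * (eN D.g S : ℝ) := by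
  classical
  have h := sum_pairs S (fun P => if AdjP D.g P then (1 : ℝ) else 0)
  have h1 : ∑ P ∈ S.powersetCard 2, (if AdjP D.g P then (1 : ℝ) else 0) = (eN D.g S : ℝ) := by
    rw [← Finset.sum_filter, Finset.sum_const, nsmul_eq_mul, mul_one]; rfl
  rw [h1] at h
  rw [← h]
  refine Finset.sum_congr rfl fun i hi => ?_
  rw [← Finset.sum_filter, Finset.sum_const, nsmul_eq_mul, mul_one]
  congr 1
  refine congrArg Finset.card ?_
  ext j
  rw [mem_nb, Finset.mem_filter, Finset.mem_erase]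
  constructor
  · rintro ⟨h1, h2⟩
    exact ⟨⟨Ne.symm h2.1, h1⟩, i, by simp, j, by simp, h2.1, h2.2⟩
  · rintro ⟨⟨h1, h2⟩, a, ha, b, hb, hab, hg⟩
    refine ⟨h2, Ne.symm h1, ?_⟩
    simp only [Finset.mem_insert, Finset.mem_singleton] at ha hb
    rcases ha with rfl | rfl <;> rcases hb with rfl | rfl
    · exact absurd rfl hab
    · exact hg
    · rw [D.symm]; exact hg
    · exact absurd rfl hab

open scoped Classical in
theorem d2_card_le (S : Finset D.ι) :
    ((S.powersetCard 2).filter fun P => D.D2 S P).card ≤ ∑ i ∈ S, (D.nb S i).card.choose 2 := by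
  have hsub : ((S.powersetCard 2).filter fun P => D.D2 S P) ⊆
      S.biUnion fun z => (D.nb S z).powersetCard 2 := by
    intro P hP
    rw [Finset.mem_filter, Finset.mem_powersetCard] at hP
    obtain ⟨⟨hPS, hPc⟩, z, hz, -, hadj⟩ := hP
    rw [Finset.mem_biUnion]
    refine ⟨z, hz, ?_⟩
    rw [Finset.mem_powersetCard]
    exact ⟨fun p hp => (mem_nb D).2 ⟨hPS hp, hadj p hp⟩, hPc⟩
  refine (Finset.card_le_card hsub).trans (Finset.card_biUnion_le.trans ?_)
  refine Finset.sum_le_sum fun z _ => ?_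
  rw [Finset.card_powersetCard]

open scoped Classical in
/-- **The vertex level.** -/
theorem vertex_le {v : Finset D.ι} (hv : v ∈ Verts D.g n) :
    (eN D.g v : ℝ) + ∑ P ∈ v.powersetCard 2, D.cor v P +
      1 / 2 * ((v.filter fun b => D.Leaf v b).card : ℝ) ≤ 3 / 2 * n := by
  obtain ⟨hv1, hv2⟩ := mem_Verts.1 hv
  have h1 := sum_nb_card v
  have h2 : ∑ P ∈ v.powersetCard 2, D.cor v P =
      1 / 2 * (((v.powersetCard 2).filter fun P => D.D2 v P).card : ℝ) := by
    unfold cor
    rw [← Finset.sum_filter, Finset.sum_const, nsmul_eq_mul, mul_comm]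
  have h3 : (((v.powersetCard 2).filter fun P => D.D2 v P).card : ℝ) ≤
      ∑ i ∈ v, (((D.nb v i).card.choose 2 : ℕ) : ℝ) := by
    exact_mod_cast d2_card_le v
  have h4 : ((v.filter fun b => D.Leaf v b).card : ℝ) =
      ∑ i ∈ v, (if (D.nb v i).card ≤ 1 then (1 : ℝ) else 0) := by
    rw [← Finset.sum_filter, Finset.sum_const, nsmul_eq_mul, mul_one]
    congr 2
    ext b; simp only [Finset.mem_filter, Leaf]
  have h5 : (0 : ℝ) ≤ ∑ x ∈ v, (wd (D.nb v x).card : ℝ) := by exact_mod_cast wd_sum hv1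
  have h6 : ∀ x ∈ v, 1 / 2 * ((D.nb v x).card : ℝ) +
      1 / 2 * (((D.nb v x).card.choose 2 : ℕ) : ℝ) +
      1 / 2 * (if (D.nb v x).card ≤ 1 then (1 : ℝ) else 0) =
      3 / 2 - 1 / 2 * (wd (D.nb v x).card : ℝ) := by
    intro x hx
    have hd := D.deg_le hv1 hx
    interval_cases h : (D.nb v x).card
    · norm_num [wd]
    · norm_num [wd]
    · norm_num [wd]
    · norm_num [wd, Nat.choose]
  have h7 := Finset.sum_congr rfl h6
  rw [Finset.sum_add_distrib, Finset.sum_add_distrib, Finset.sum_sub_distrib,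
    ← Finset.mul_sum, ← Finset.mul_sum, ← Finset.mul_sum, ← Finset.mul_sum, Finset.sum_const,
    nsmul_eq_mul, hv2, h1, ← h4] at h7
  rw [h2]
  linarith

end CoxData

end MP345
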