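import Mathlib
import Pool.Agent.Work.MP_345ef2_gt.VLevel

/-!
# The accounting with leaf terms, and the bound `n ≤ 28`
-/

namespace MP345

open Finset

variable {n : ℕ}

namespace CoxData

variable (D : CoxData n)

/-- the accounting, most general form -/
theorem accounting_raw (hn : 2 ≤ n) (B : ℝ)
    (hB : ∀ q : Finset D.ι → Fin 4 → D.ι,
      (∀ K ∈ D.QuadF, D.Quad0 K (q K 0) (q K 1) (q K 2) (q K 3)) → (D.QuadF.card : ℝ) ≤ B) :
    ∑ K ∈ Faces2 D.g n, max (5 - (kF D.g n K : ℝ)) 0 ≤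
      ∑ v ∈ Verts D.g n, (eN D.g v : ℝ) +
        ∑ T ∈ Tsets D.g n, ∑ P ∈ (Rset D.g T).powersetCard 3, D.tri P + B := by
  classical
  -- choices
  have hch : ∀ K : Finset D.ι, ∃ P : Finset D.ι, K ∈ D.TriF →
      ∃ a b c, P = {a, b, c} ∧ D.Lk K a b ∧ D.Lk K a c ∧ D.Lk K b c := by
    intro K
    by_cases hK : K ∈ D.TriF
    · obtain ⟨hK1, hK2⟩ := Finset.mem_filter.1 hK
      obtain ⟨a, b, c, h⟩ := (D.face_struct hK1).1 hK2
      exact ⟨{a, b, c}, fun _ => ⟨a, b, c, rfl, h⟩⟩
    · exact ⟨∅, fun h => absurd h hK⟩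
  choose P hP using hch
  have hq : ∀ K : Finset D.ι, ∃ q : Fin 4 → D.ι, K ∈ D.QuadF →
      D.Quad0 K (q 0) (q 1) (q 2) (q 3) := by
    intro K
    by_cases hK : K ∈ D.QuadF
    · obtain ⟨hK1, hK2, hK3⟩ := Finset.mem_filter.1 hK
      obtain ⟨i, i', j, j', h1, h2, h3, h4, h5, h6, h7, h8⟩ := (D.face_struct hK1).2.1 hK2
      refine ⟨![i, i', j, j'], fun _ => ?_⟩
      have hKc := (mem_Faces2.1 hK1).1
      have hz : ∀ a b, D.Lk K a b → D.g a b = 0 := by
        intro a b hab
        by_contra hne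
        unfold corn at hK3
        rw [Finset.card_eq_zero] at hK3
        have hmem : insert a (insert b K) ∈ (Verts D.g n).filter
            (fun v => K ⊆ v ∧ AdjP D.g (v \ K)) := by
          rw [Finset.mem_filter, mem_Verts]
          refine ⟨⟨hab.2.2.2, ?_⟩, ?_, a, ?_, b, ?_, hab.2.2.1, hne⟩
          · rw [Finset.card_insert_of_notMem, Finset.card_insert_of_notMem hab.2.1]
            · omega
            · simp [hab.2.2.1, hab.1]
          · intro z hz; simp [hz]
          · simp [hab.1]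
          · simp [hab.2.1]
        rw [hK3] at hmem
        exact absurd hmem (Finset.notMem_empty _)
      exact ⟨hKc, h1, h2, h3, h4, h5, h6, h7, h8, hz _ _ h3, hz _ _ h4, hz _ _ h5, hz _ _ h6⟩
    · by_cases hne : Nonempty D.ι
      · exact ⟨fun _ => hne.some, fun h => absurd h hK⟩
      · exfalso
        apply hne
        obtain ⟨v, hv⟩ := D.verts_nonempty
        have hvc := (mem_Verts.1 hv).2
        have : 0 < v.card := by omega
        exact ⟨(Finset.card_pos.1 this).choose⟩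
  choose q hq using hq
  have h1 := D.sum_tri_le P hP
  have h2 := hB q hq
  have h4 := D.sum_corn hn
  have h4' : ∑ K ∈ Faces2 D.g n, (D.corn K : ℝ) = ∑ v ∈ Verts D.g n, (eN D.g v : ℝ) := by
    exact_mod_cast h4
  -- pointwise
  have h6 : ∀ K ∈ Faces2 D.g n, max (5 - (kF D.g n K : ℝ)) 0 ≤ (D.corn K : ℝ) +
      (if kF D.g n K = 3 then D.tri (P K) else 0) +
      (if kF D.g n K = 4 ∧ D.corn K = 0 then (1 : ℝ) else 0) := by
    intro K hK
    have hcn : (0 : ℝ) ≤ D.corn K := Nat.cast_nonneg _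
    have hge := (D.face_struct hK).2.2
    have hKc := (mem_Faces2.1 hK).1
    by_cases hk3 : kF D.g n K = 3
    · have hTri : K ∈ D.TriF := Finset.mem_filter.2 ⟨hK, hk3⟩
      obtain ⟨a, b, c, hPK, l1, l2, l3⟩ := hP K hTri
      have h7 := D.eN_triple hKc l1 l2 l3
      have h8 := D.le_tri (P K)
      rw [hPK] at h8
      have h9 : (eN D.g {a, b, c} : ℝ) ≤ D.corn K := by exact_mod_cast h7
      rw [if_pos hk3, hPK, if_neg (by omega), hk3]
      rw [max_eq_left (by norm_num)]
      push_cast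
      linarith
    · rw [if_neg hk3]
      by_cases hk4 : kF D.g n K = 4
      · by_cases hc0 : D.corn K = 0
        · rw [if_pos ⟨hk4, hc0⟩, hk4, max_eq_left (by norm_num)]
          push_cast; linarith
        · rw [if_neg (fun h => hc0 h.2), hk4, max_eq_left (by norm_num)]
          have : 1 ≤ D.corn K := Nat.one_le_iff_ne_zero.2 hc0
          have : (1 : ℝ) ≤ D.corn K := by exact_mod_cast this
          push_cast; linarith
      · rw [if_neg (fun h => hk4 h.1)]
        have h5 : 5 ≤ kF D.g n K := by omega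
        have h5' : (5 : ℝ) ≤ kF D.g n K := by exact_mod_cast h5
        rw [max_eq_right (by linarith)]
        linarith
  have h7 := Finset.sum_le_sum h6
  rw [Finset.sum_add_distrib, Finset.sum_add_distrib, ← Finset.sum_filter, ← Finset.sum_filter,
    Finset.sum_const, nsmul_eq_mul, mul_one] at h7
  have h9 : ∑ a ∈ (Faces2 D.g n).filter (fun K => kF D.g n K = 3), D.tri (P a) ≤
      ∑ T ∈ Tsets D.g n, ∑ P ∈ (Rset D.g T).powersetCard 3, D.tri P := h1
  have h10 : (((Faces2 D.g n).filter (fun K => kF D.g n K = 4 ∧ D.corn K = 0)).card : ℝ) ≤ B := h2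
  linarith

/-- the corner payments -/
theorem corner_sum_le' (ω : Finset D.ι → Finset D.ι → ℝ) (hω : ∀ v P, 0 ≤ ω v P)
    (q : Finset D.ι → Fin 4 → D.ι)
    (hq : ∀ K ∈ D.QuadF, D.Quad0 K (q K 0) (q K 1) (q K 2) (q K 3)) :
    ∑ K ∈ D.QuadF, (ω (insert (q K 0) (insert (q K 2) K)) {q K 0, q K 2} +
        ω (insert (q K 0) (insert (q K 3) K)) {q K 0, q K 3} +
        ω (insert (q K 1) (insert (q K 2) K)) {q K 1, q K 2} +
        ω (insert (q K 1) (insert (q K 3) K)) {q K 1, q K 3}) ≤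
      ∑ v ∈ Verts D.g n, ∑ P ∈ v.powersetCard 2, ω v P := by
  classical
  let x : Finset D.ι → Fin 4 → D.ι := fun K s => if s = 0 ∨ s = 1 then q K 0 else q K 1
  let y : Finset D.ι → Fin 4 → D.ι := fun K s => if s = 0 ∨ s = 2 then q K 2 else q K 3
  let e : Finset D.ι × Fin 4 → (_ : Finset D.ι) × Finset D.ι := fun p =>
    ⟨insert (x p.1 p.2) (insert (y p.1 p.2) p.1), {x p.1 p.2, y p.1 p.2}⟩
  have hlk : ∀ K ∈ D.QuadF, ∀ s : Fin 4, D.Lk K (x K s) (y K s) := by
    intro K hK s
    have h := hq K hK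
    fin_cases s
    · exact h.lij
    · exact h.lij'
    · exact h.li'j
    · exact h.li'j'
  have h1 : ∑ K ∈ D.QuadF, (ω (insert (q K 0) (insert (q K 2) K)) {q K 0, q K 2} +
        ω (insert (q K 0) (insert (q K 3) K)) {q K 0, q K 3} +
        ω (insert (q K 1) (insert (q K 2) K)) {q K 1, q K 2} +
        ω (insert (q K 1) (insert (q K 3) K)) {q K 1, q K 3}) =
      ∑ p ∈ D.QuadF ×ˢ (Finset.univ : Finset (Fin 4)), ω (e p).1 (e p).2 := by
    rw [Finset.sum_product]
    refine Finset.sum_congr rfl fun K hK => ?_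
    rw [Fin.sum_univ_four]
    rfl
  rw [h1]
  rw [← Finset.sum_sigma (Verts D.g n) (fun v => v.powersetCard 2) (fun z => ω z.1 z.2)]
  refine sum_le_of_inj (D.QuadF ×ˢ (Finset.univ : Finset (Fin 4))) _ e
    (fun z => ω z.1 z.2) (fun z _ => hω _ _) ?_ ?_
  · rintro ⟨K, s⟩ hp
    have hK := (Finset.mem_product.1 hp).1
    have hKc : K.card + 2 = n := (hq K hK).card
    obtain ⟨a1, a2, a3, a4⟩ := hlk K hK s
    rw [Finset.mem_sigma, mem_Verts, Finset.mem_powersetCard]
    refine ⟨⟨a4, ?_⟩, ?_, Finset.card_pair a3⟩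
    · change (insert (x K s) (insert (y K s) K)).card = n
      rw [Finset.card_insert_of_notMem, Finset.card_insert_of_notMem a2]
      · omega
      · simp [a3, a1]
    · change ({x K s, y K s} : Finset D.ι) ⊆ insert (x K s) (insert (y K s) K)
      intro z hz
      simp only [Finset.mem_insert, Finset.mem_singleton] at hz ⊢
      rcases hz with rfl | rfl
      · exact Or.inl rfl
      · exact Or.inr (Or.inl rfl)
  · rintro ⟨K, s⟩ hp ⟨K', s'⟩ hp' h
    have hK := (Finset.mem_product.1 (Finset.mem_coe.1 hp)).1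
    have hK' := (Finset.mem_product.1 (Finset.mem_coe.1 hp')).1
    have hd : ∀ K ∈ D.QuadF, ∀ s : Fin 4,
        insert (x K s) (insert (y K s) K) \ {x K s, y K s} = K := by
      intro K hK s
      obtain ⟨a1, a2, a3, a4⟩ := hlk K hK s
      ext z
      simp only [Finset.mem_sdiff, Finset.mem_insert, Finset.mem_singleton, not_or]
      constructor
      · rintro ⟨h | h | h, h'⟩
        · exact absurd h h'.1
        · exact absurd h h'.2
        · exact h
      · intro h
        exact ⟨Or.inr (Or.inr h), fun e => a1 (e ▸ h), fun e => a2 (e ▸ h)⟩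
    simp only [e, Sigma.mk.injEq, heq_eq_eq] at h
    obtain ⟨hv', hP⟩ := h
    have hKK : K = K' := by rw [← hd K hK s, ← hd K' hK' s', hv', hP]
    subst hKK
    have hss : s = s' := by
      by_contra hne
      have hh := hq K hK
      have d01 := hh.ii
      have d02 := hh.lij.2.2.1
      have d03 := hh.lij'.2.2.1
      have d12 := hh.li'j.2.2.1
      have d13 := hh.li'j'.2.2.1
      have d23 := hh.jj
      have e01 := Ne.symm d01
      have e02 := Ne.symm d02
      have e03 := Ne.symm d03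
      have e12 := Ne.symm d12
      have e13 := Ne.symm d13
      have e23 := Ne.symm d23
      rw [pair_eq] at hP
      fin_cases s <;> fin_cases s' <;> simp [x, y] at hP hne <;> tauto
    rw [hss]

/-- the injection `(T, r, b) ↦ (T \ r, b)` -/
theorem block_inj {T T' : Finset D.ι} {x y y' : D.ι} (hT : T ∈ Tsets D.g n)
    (hx : x ∈ Rset D.g T) (hy : y ∈ Rset D.g T) (hxy : x ≠ y)
    (hx' : x ∈ Rset D.g T') (hy' : y' ∈ Rset D.g T') (hxy' : x ≠ y')
    (hv : T.erase y = T'.erase y') : T = T' ∧ y = y' := by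
  classical
  obtain ⟨hxT, hxp⟩ := mem_Rset.1 hx
  obtain ⟨hyT, hyp⟩ := mem_Rset.1 hy
  obtain ⟨hxT', hxp'⟩ := mem_Rset.1 hx'
  obtain ⟨hyT', hyp'⟩ := mem_Rset.1 hy'
  have hc := (mem_Tsets.1 hT).1
  set v := T.erase y with hvdef
  have hxv : x ∈ v := Finset.mem_erase.2 ⟨hxy, hxT⟩
  have hyv : y ∉ v := Finset.notMem_erase y T
  have hyv' : y' ∉ v := by rw [hv]; exact Finset.notMem_erase y' T'
  have hTv : T = insert y v := (Finset.insert_erase hyT).symm
  have hTv' : T' = insert y' v := by rw [hv]; exact (Finset.insert_erase hyT').symm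
  have hvc : v.card = n := by rw [hvdef, Finset.card_erase_of_mem hyT, hc]; omega
  have hSc : (v.erase x).card + 1 = n := by
    rw [Finset.card_erase_of_mem hxv, hvc]
    have : 0 < v.card := Finset.card_pos.2 ⟨x, hxv⟩
    omega
  have e1 : T.erase x = insert y (v.erase x) := by
    rw [hTv, Finset.erase_insert_of_ne (Ne.symm hxy)]
  have e2 : T'.erase x = insert y' (v.erase x) := by
    rw [hTv', Finset.erase_insert_of_ne (Ne.symm hxy')]
  rw [e1] at hxp
  rw [e2] at hxp'
  have hpx : PD D.g (insert x (v.erase x)) := by rw [Finset.insert_erase hxv]; exact hyp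
  have hyS : y ∉ v.erase x := fun h => hyv (Finset.mem_of_mem_erase h)
  have hyS' : y' ∉ v.erase x := fun h => hyv' (Finset.mem_of_mem_erase h)
  rcases D.edge_unique (hpx.mono (Finset.subset_insert _ _)) hSc (Finset.notMem_erase x v)
    hyS hyS' hpx hxp hxp' hxy with h | h
  · exact absurd h.symm hxy'
  · exact ⟨by rw [hTv, hTv', h], h.symm⟩

open scoped Classical in
/-- the leaf terms -/
theorem sum_leafN : ∑ T ∈ Tsets D.g n, D.leafN T ≤
    ∑ v ∈ Verts D.g n, (v.filter fun b => D.Leaf v b).card := by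
  have h1 : ∑ T ∈ Tsets D.g n, D.leafN T = ((Tsets D.g n).sigma fun T =>
      (Rset D.g T).sigma fun r =>
        ((Rset D.g T).erase r).filter fun b => D.Leaf (T.erase r) b).card := by
    rw [Finset.card_sigma]
    refine Finset.sum_congr rfl fun T _ => ?_
    rw [Finset.card_sigma]
    rfl
  rw [h1, ← Finset.card_sigma]
  refine Finset.card_le_card_of_injOn
    (fun p => (⟨p.1.erase p.2.1, p.2.2⟩ : (_ : Finset D.ι) × D.ι)) ?_ ?_
  · rintro ⟨T, r, b⟩ hp
    rw [Finset.mem_coe, Finset.mem_sigma, Finset.mem_sigma, Finset.mem_filter,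
      Finset.mem_erase] at hp
    obtain ⟨hT, hr, ⟨hbr, hb⟩, hleaf⟩ := hp
    simp only at hr hbr hb hleaf
    obtain ⟨hrT, hrp⟩ := mem_Rset.1 hr
    obtain ⟨hbT, hbp⟩ := mem_Rset.1 hb
    rw [Finset.mem_coe, Finset.mem_sigma, mem_Verts, Finset.mem_filter]
    have hc := (mem_Tsets.1 hT).1
    refine ⟨⟨hrp, ?_⟩, Finset.mem_erase.2 ⟨hbr, hbT⟩, hleaf⟩
    rw [Finset.card_erase_of_mem hrT, hc]; omega
  · rintro ⟨T, r, b⟩ hp ⟨T', r', b'⟩ hp' heq
    rw [Finset.mem_coe, Finset.mem_sigma, Finset.mem_sigma, Finset.mem_filter,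
      Finset.mem_erase] at hp hp'
    obtain ⟨hT, hr, ⟨hbr, hb⟩, -⟩ := hp
    obtain ⟨hT', hr', ⟨hbr', hb'⟩, -⟩ := hp'
    simp only at hT hr hbr hb hT' hr' hbr' hb'
    simp only [Sigma.mk.injEq, heq_eq_eq] at heq
    obtain ⟨hv, hbb⟩ := heq
    subst hbb
    obtain ⟨h2, h3⟩ := D.block_inj hT hb hr hbr hb' hr' hbr' hv
    subst h2; subst h3; rfl

/-- **The bound from the D level and the T level.** -/
theorem dim_bound_final (hn : 2 ≤ n) (hD : D.StmtD) (hT : D.StmtT) :
    (n : ℝ) * (n - 6) ≤ 8 * ((3 / 2 + 137 / 100) * n) := by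
  classical
  have hraw := D.accounting_raw hn
    (∑ v ∈ Verts D.g n, ∑ P ∈ v.powersetCard 2, D.cor v P +
      ∑ T ∈ Tsets D.g n, ∑ i ∈ T \ Rset D.g T, ∑ P ∈ freePairs D.g T i, D.chg T i P) ?_
  swap
  · intro q hq
    have hω : ∀ v P, 0 ≤ D.cor v P := fun v P => by unfold cor; split_ifs <;> norm_num
    have ht := D.sum_quad_gen D.chg D.chg_nonneg q hq
    have hs := D.corner_sum_le' D.cor hω q hq
    have h1 : (D.QuadF.card : ℝ) = ∑ K ∈ D.QuadF, (1 : ℝ) := by simp
    rw [h1]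
    refine (Finset.sum_le_sum fun K hK => hD K _ _ _ _ (hq K hK)).trans ?_
    rw [Finset.sum_add_distrib]
    exact add_le_add hs ht
  have h1 := Finset.sum_le_sum hT
  rw [Finset.sum_add_distrib, Finset.sum_add_distrib, ← Finset.mul_sum, ← Finset.mul_sum] at h1
  have h2 := D.sum_blocks
  have h3 : ((∑ T ∈ Tsets D.g n, D.leafN T : ℕ) : ℝ) ≤
      ((∑ v ∈ Verts D.g n, (v.filter fun b => D.Leaf v b).card : ℕ) : ℝ) := by
    exact_mod_cast D.sum_leafN
  push_cast at h3
  have h4 : ∑ v ∈ Verts D.g n, ((eN D.g v : ℝ) + ∑ P ∈ v.powersetCard 2, D.cor v P +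
      1 / 2 * ((v.filter fun b => D.Leaf v b).card : ℝ)) ≤
      ∑ v ∈ Verts D.g n, (3 / 2 * n : ℝ) := Finset.sum_le_sum fun v hv => vertex_le hv
  rw [Finset.sum_add_distrib, Finset.sum_add_distrib, ← Finset.mul_sum, Finset.sum_const,
    nsmul_eq_mul] at h4
  have h5 := D.count
  have hpos : (0 : ℝ) < (Verts D.g n).card := by
    exact_mod_cast Finset.card_pos.2 D.verts_nonempty
  have h6 : ((n : ℝ) * (n - 6)) * (Verts D.g n).card ≤
      (8 * ((3 / 2 + 137 / 100) * n)) * (Verts D.g n).card := by nlinarith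
  exact le_of_mul_le_mul_right h6 hpos

/-- **The dimension is at most 28.** -/
theorem dim_le (hn : 2 ≤ n) (hD : D.StmtD) (hT : D.StmtT) : n ≤ 28 := by
  have h := D.dim_bound_final hn hD hT
  by_contra hlt
  push Not at hlt
  have h1 : (29 : ℝ) ≤ n := by exact_mod_cast hlt
  nlinarith

end CoxData

end MP345
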