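import Mathlib
import Pool.Agent.Work.MP_345ef2_gt.Rule

/-!
# Explicit types of Lannér sets (MP_345ef2_gt)
-/

namespace MP345

open Finset

variable {n : ℕ}

namespace CoxData

variable (D : CoxData n)

/-- path `a - b - c - d` with Gram entries `-x, -y, -z` -/
structure Path4 (a b c d : D.ι) (x y z : ℝ) (L : Finset D.ι) : Prop where
  eq : L = {a, b, c, d}
  ab : a ≠ b
  ac : a ≠ c
  ad : a ≠ d
  bc : b ≠ c
  bd : b ≠ d
  cd : c ≠ d
  vab : D.g a b = -x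
  vbc : D.g b c = -y
  vcd : D.g c d = -z
  vac : D.g a c = 0
  vad : D.g a d = 0
  vbd : D.g b d = 0

/-- cycle `a - b - c - d - a` (labels not recorded) -/
structure Cyc4 (a b c d : D.ι) (L : Finset D.ι) : Prop where
  eq : L = {a, b, c, d}
  ac : a ≠ c
  bd : b ≠ d
  ab : D.Adj a b
  bc : D.Adj b c
  cd : D.Adj c d
  da : D.Adj d a
  vac : D.g a c = 0
  vbd : D.g b d = 0

/-- star with centre `z`, label 5 edge `z u`, label 3 edges `z p`, `z q` -/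
structure Star4 (z u p q : D.ι) (L : Finset D.ι) : Prop where
  eq : L = {z, u, p, q}
  zu : z ≠ u
  zp : z ≠ p
  zq : z ≠ q
  up : u ≠ p
  uq : u ≠ q
  pq : p ≠ q
  vzu : D.g z u = -c5
  vzp : D.g z p = -(1 / 2)
  vzq : D.g z q = -(1 / 2)
  vup : D.g u p = 0
  vuq : D.g u q = 0
  vpq : D.g p q = 0

/-- path `a - b - c - d - e` with Gram entries `-w, -x, -y, -z` -/
structure Path5 (a b c d e : D.ι) (w x y z : ℝ) (L : Finset D.ι) : Prop where
  eq : L = {a, b, c, d, e}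
  ab : a ≠ b
  ac : a ≠ c
  ad : a ≠ d
  ae : a ≠ e
  bc : b ≠ c
  bd : b ≠ d
  be : b ≠ e
  cd : c ≠ d
  ce : c ≠ e
  de : d ≠ e
  vab : D.g a b = -w
  vbc : D.g b c = -x
  vcd : D.g c d = -y
  vde : D.g d e = -z
  vac : D.g a c = 0
  vad : D.g a d = 0
  vae : D.g a e = 0
  vbd : D.g b d = 0
  vbe : D.g b e = 0
  vce : D.g c e = 0

/-- the fork `u =5= v - w - p, q` -/
structure Fork (u v w p q : D.ι) (L : Finset D.ι) : Prop where
  eq : L = {u, v, w, p, q}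
  uv : u ≠ v
  uw : u ≠ w
  up : u ≠ p
  uq : u ≠ q
  vw : v ≠ w
  vp : v ≠ p
  vq : v ≠ q
  wp : w ≠ p
  wq : w ≠ q
  pq : p ≠ q
  vuv : D.g u v = -c5
  vvw : D.g v w = -(1 / 2)
  vwp : D.g w p = -(1 / 2)
  vwq : D.g w q = -(1 / 2)
  vuw : D.g u w = 0
  vup : D.g u p = 0
  vuq : D.g u q = 0
  vvp : D.g v p = 0
  vvq : D.g v q = 0
  vpq : D.g p q = 0

/-- the cycle `a =4= b - c - d - e - a` -/
structure Cyc5 (a b c d e : D.ι) (L : Finset D.ι) : Prop where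
  eq : L = {a, b, c, d, e}
  ab : a ≠ b
  ac : a ≠ c
  ad : a ≠ d
  ae : a ≠ e
  bc : b ≠ c
  bd : b ≠ d
  be : b ≠ e
  cd : c ≠ d
  ce : c ≠ e
  de : d ≠ e
  vab : D.g a b = -(√2 / 2)
  vbc : D.g b c = -(1 / 2)
  vcd : D.g c d = -(1 / 2)
  vde : D.g d e = -(1 / 2)
  vea : D.g e a = -(1 / 2)
  vac : D.g a c = 0
  vad : D.g a d = 0
  vbd : D.g b d = 0
  vbe : D.g b e = 0
  vce : D.g c e = 0

/-- the type of a Lannér set -/
inductive LType (L : Finset D.ι) : Prop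
  | small (h : L.card ≤ 3)
  | cyc4 (a b c d : D.ι) (h : D.Cyc4 a b c d L)
  | star4 (z u p q : D.ι) (h : D.Star4 z u p q L)
  | p353 (a b c d : D.ι) (h : D.Path4 a b c d (1 / 2) c5 (1 / 2) L)
  | p534 (a b c d : D.ι) (h : D.Path4 a b c d c5 (1 / 2) (√2 / 2) L)
  | p535 (a b c d : D.ι) (h : D.Path4 a b c d c5 (1 / 2) c5 L)
  | fork (u v w p q : D.ι) (h : D.Fork u v w p q L)
  | path5 (a b c d e : D.ι) (z : ℝ) (hz : z = 1 / 2 ∨ z = √2 / 2 ∨ z = c5)
      (h : D.Path5 a b c d e c5 (1 / 2) (1 / 2) z L)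
  | cyc5 (a b c d e : D.ι) (h : D.Cyc5 a b c d e L)

/-- **The classification of the minimal non positive definite sets** (proved by helper20). -/
def StmtCLS : Prop := ∀ L : Finset D.ι, D.Lan L → D.LType L

end CoxData

end MP345
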