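import Mathlib
import Pool.Agent.Work.MP_345ef2_gt.T_SUM

/-!
# Interface for the T level (MP_345ef2_gt, n <= 27)

The same rule as for `n ≤ 28`; the budget is `(5/2) l (l - 1) + lvs` instead of
`(8/3) l (l - 1) + lvs` (doubled).
-/

namespace MP345

open Finset

variable {n : ℕ}

namespace CoxData

variable (D : CoxData n)

/-- **T level**, `κ = 5/4`. -/
def StmtT27 : Prop :=
  ∀ T ∈ Tsets D.g n, ∑ P ∈ (Rset D.g T).powersetCard 3, D.tri P +
      ∑ i ∈ T \ Rset D.g T, ∑ P ∈ freePairs D.g T i, D.chg T i P ≤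
        5 / 4 * (((Rset D.g T).card : ℝ) * ((Rset D.g T).card - 1)) +
          1 / 2 * (D.leafN T : ℝ)

open scoped Classical in
/-- the T level bound for `T`, `κ = 5/4` -/
def TB27 (T : Finset D.ι) : Prop :=
  2 * ∑ P ∈ (Rset D.g T).powersetCard 3, D.tri P +
    ∑ P ∈ (Rset D.g T).powersetCard 2, (D.G T P : ℝ) ≤
    (5 / 2 : ℝ) * (((Rset D.g T).card : ℝ) * ((Rset D.g T).card - 1)) + D.lvs T

theorem stmtSUM27 (k : ℕ) (f : Fin k → D.ι) (A : Fin k → Fin k → Bool)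
    (β : Fin k → Fin k → ℕ) (I : Finset (Fin k)) (T : Finset D.ι) (lam : ℕ)
    (hf : Function.Injective f) (hR : ∀ x, x ∈ Rset D.g T ↔ ∃ a ∈ I, f a = x)
    (hA : ∀ a b, A a b = true → D.Adj (f a) (f b))
    (hβ : ∀ a ∈ I, ∀ b ∈ I, a < b → D.G T {f a, f b} ≤ β a b)
    (hlam : lam ≤ D.lvs T)
    (hsum : 2 * ((∑ a ∈ I, ∑ b ∈ I, if a < b then β a b else 0) +
      2 * ∑ a ∈ I, ∑ b ∈ I, ∑ c ∈ I, if a < b ∧ b < c then
        2 - (A a b).toNat - (A a c).toNat - (A b c).toNat else 0) ≤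
      5 * (I.card * (I.card - 1)) + 2 * lam) : D.TB27 T := by
  classical
  have hRI : Rset D.g T = I.map ⟨f, hf⟩ := by
    ext x; rw [hR]; simp
  unfold TB27
  have hcard : (Rset D.g T).card = I.card := by rw [hRI, Finset.card_map]
  have h2 : ∑ P ∈ (Rset D.g T).powersetCard 2, (D.G T P : ℝ) ≤
      ((∑ a ∈ I, ∑ b ∈ I, if a < b then β a b else 0 : ℕ) : ℝ) := by
    rw [hRI, D.sum_Rset2 hf]
    push_cast
    refine Finset.sum_le_sum fun a ha => Finset.sum_le_sum fun b hb => ?_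
    split_ifs with h
    · exact_mod_cast hβ a ha b hb h
    · exact le_rfl
  have h3 : ∑ P ∈ (Rset D.g T).powersetCard 3, D.tri P ≤
      ((∑ a ∈ I, ∑ b ∈ I, ∑ c ∈ I, if a < b ∧ b < c then
        2 - (A a b).toNat - (A a c).toNat - (A b c).toNat else 0 : ℕ) : ℝ) := by
    rw [hRI, D.sum_Rset3 hf, Nat.cast_sum]
    refine Finset.sum_le_sum fun a ha => ?_
    rw [Nat.cast_sum]
    refine Finset.sum_le_sum fun b hb => ?_
    rw [Nat.cast_sum]
    refine Finset.sum_le_sum fun c hc => ?_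
    split_ifs with h
    · have h4 := D.eN_ge3 hf hA h.1 h.2
      unfold tri
      refine max_le ?_ (Nat.cast_nonneg _)
      have h5 : 2 ≤ (2 - (A a b).toNat - (A a c).toNat - (A b c).toNat) +
        eN D.g {f a, f b, f c} := by omega
      have h6 : (2 : ℝ) ≤ ((2 - (A a b).toNat - (A a c).toNat - (A b c).toNat : ℕ) : ℝ) +
        (eN D.g {f a, f b, f c} : ℝ) := by exact_mod_cast h5
      linarith
    · simp
  have hc : ((I.card * (I.card - 1) : ℕ) : ℝ) = (I.card : ℝ) * ((I.card : ℝ) - 1) := by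
    rcases Nat.eq_zero_or_pos I.card with h0 | h0
    · rw [h0]; simp
    · rw [Nat.cast_mul, Nat.cast_sub h0]; simp
  have h7 : (2 : ℝ) * (((∑ a ∈ I, ∑ b ∈ I, if a < b then β a b else 0 : ℕ) : ℝ) +
      2 * ((∑ a ∈ I, ∑ b ∈ I, ∑ c ∈ I, if a < b ∧ b < c then
        2 - (A a b).toNat - (A a c).toNat - (A b c).toNat else 0 : ℕ) : ℝ)) ≤
      5 * ((I.card : ℝ) * ((I.card : ℝ) - 1)) + 2 * (lam : ℝ) := by
    rw [← hc]
    exact_mod_cast hsum
  have h8 : (lam : ℝ) ≤ (D.lvs T : ℝ) := by exact_mod_cast hlam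
  rw [hcard]
  linarith

theorem stmtRED27 : (∀ T ∈ Tsets D.g n, D.TB27 T) → D.StmtT27 := by
  classical
  intro h T hT
  have h1 := h T hT
  unfold TB27 at h1
  have hswap : ∑ i ∈ T \ Rset D.g T, ∑ P ∈ freePairs D.g T i, D.chg T i P =
      (∑ P ∈ (Rset D.g T).powersetCard 2, (D.G T P : ℝ)) / 2 := by
    have e1 : ∑ i ∈ T \ Rset D.g T, ∑ P ∈ freePairs D.g T i, D.chg T i P =
        ∑ P ∈ (Rset D.g T).powersetCard 2,
          ∑ i ∈ (T \ Rset D.g T).filter (fun x => ∀ p ∈ P, D.g x p = 0), D.chg T i P := by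
      refine Finset.sum_comm' ?_
      intro i P
      unfold freePairs
      simp only [Finset.mem_filter]
      tauto
    rw [e1, Finset.sum_div]
    refine Finset.sum_congr rfl fun P hP => ?_
    have hPc := (Finset.mem_powersetCard.1 hP).2
    unfold G
    rw [Nat.cast_sum, Finset.sum_div]
    exact Finset.sum_congr rfl fun x _ => D.chg_eq_w2 hPc
  rw [hswap, D.leafN_eq_lvs]
  linarith

/-! ### the types -/

/-- **Block TSMALL27** -/
def StmtTSMALL27 : Prop := ∀ T ∈ Tsets D.g n, (D.LM T).card ≤ 3 → D.TB27 T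
/-- **Block TCYC427** -/
def StmtTCYC427 : Prop := ∀ T ∈ Tsets D.g n, ∀ a b c d, D.Cyc4 a b c d (D.LM T) → D.TB27 T
/-- **Block TSTAR27** -/
def StmtTSTAR27 : Prop := ∀ T ∈ Tsets D.g n, ∀ z u p q, D.Star4 z u p q (D.LM T) → D.TB27 T
/-- **Block T35327** -/
def StmtT35327 : Prop := ∀ T ∈ Tsets D.g n, ∀ a b c d,
  D.Path4 a b c d (1 / 2) c5 (1 / 2) (D.LM T) → D.TB27 T
/-- **Block T53X27** -/
def StmtT53X27 : Prop := ∀ T ∈ Tsets D.g n, ∀ a b c d z, (z = √2 / 2 ∨ z = c5) →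
  D.Path4 a b c d c5 (1 / 2) z (D.LM T) → D.TB27 T
/-- **Block TFORK27** -/
def StmtTFORK27 : Prop := ∀ T ∈ Tsets D.g n, ∀ u v w p q, D.Fork u v w p q (D.LM T) → D.TB27 T
/-- **Block T533X27** -/
def StmtT533X27 : Prop := ∀ T ∈ Tsets D.g n, ∀ a b c d e z, (z = √2 / 2 ∨ z = c5) →
  D.Path5 a b c d e c5 (1 / 2) (1 / 2) z (D.LM T) → D.TB27 T
/-- **Block T533327** -/
def StmtT533327 : Prop := ∀ T ∈ Tsets D.g n, ∀ a b c d e,
  D.Path5 a b c d e c5 (1 / 2) (1 / 2) (1 / 2) (D.LM T) → D.TB27 T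
/-- **Block TCYC527** -/
def StmtTCYC527 : Prop := ∀ T ∈ Tsets D.g n, ∀ a b c d e, D.Cyc5 a b c d e (D.LM T) → D.TB27 T

theorem stmtT27_of (hcls : D.StmtCLS) (hctx : D.StmtCTX) (h1 : D.StmtTSMALL27)
    (h2 : D.StmtTCYC427) (h3 : D.StmtTSTAR27) (h4 : D.StmtT35327) (h5 : D.StmtT53X27)
    (h6 : D.StmtTFORK27) (h7 : D.StmtT533X27) (h8 : D.StmtT533327) (h9 : D.StmtTCYC527) :
    D.StmtT27 := by
  refine D.stmtRED27 ?_
  intro T hT
  rcases hcls _ (hctx T hT).2.1 with h | ⟨a, b, c, d, h⟩ | ⟨a, b, c, d, h⟩ | ⟨a, b, c, d, h⟩ |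
    ⟨a, b, c, d, h⟩ | ⟨a, b, c, d, h⟩ | ⟨a, b, c, d, e, h⟩ | ⟨a, b, c, d, e, z, hz, h⟩ |
    ⟨a, b, c, d, e, h⟩
  · exact h1 T hT h
  · exact h2 T hT a b c d h
  · exact h3 T hT a b c d h
  · exact h4 T hT a b c d h
  · exact h5 T hT a b c d _ (Or.inl rfl) h
  · exact h5 T hT a b c d _ (Or.inr rfl) h
  · exact h6 T hT a b c d e h
  · rcases hz with hz | hz | hz
    · subst hz; exact h8 T hT a b c d e h
    · exact h7 T hT a b c d e z (Or.inl hz) h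
    · exact h7 T hT a b c d e z (Or.inr hz) h
  · exact h9 T hT a b c d e h

end CoxData

end MP345
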