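import Mathlib
import Pool.Agent.Work.MP_345ef2_gt.Account4
import Pool.Agent.Work.MP_345ef2_gt.TI27
import Pool.Agent.Work.MP_345ef2_gt.Count2

/-!
# The accounting for `n ≤ 27`
-/

namespace MP345

open Finset

variable {n : ℕ}

namespace CoxData

variable (D : CoxData n)

/-- **The bound from the D level and the T level**, `κ = 5/4`, strict form. -/
theorem dim_bound27 (hn : 2 ≤ n) (hcount : (n : ℝ) * (n - 6) * (Verts D.g n).card <
    8 * ∑ K ∈ Faces2 D.g n, max (5 - (kF D.g n K : ℝ)) 0) (hD : D.StmtD) (hT : D.StmtT27) :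
    (n : ℝ) * (n - 6) < 8 * ((3 / 2 + 5 / 4) * n) := by
  classical
  have hraw := D.accounting_raw hn
    (∑ v ∈ Verts D.g n, ∑ P ∈ v.powersetCard 2, D.cor v P +
      ∑ T ∈ Tsets D.g n, ∑ i ∈ T \ Rset D.g T, ∑ P ∈ freePairs D.g T i, D.chg T i P) ?_
  swap
  · intro q hq
    have hω : ∀ v P, 0 ≤ D.cor v P := fun v P => by unfold cor; split_ifs <;> norm_num
    have ht := D.sum_quad_gen D.chg D.chg_nonneg q hq
    have hs := D.corner_sum_le' D.cor hω q hq
    have h1 : (D.QuadF.card : ℝ) = ∑ K ∈ D.QuadF, (1 : ℝ) := by simp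
    rw [h1]
    refine (Finset.sum_le_sum fun K hK => hD K _ _ _ _ (hq K hK)).trans ?_
    rw [Finset.sum_add_distrib]
    exact add_le_add hs ht
  have h1 := Finset.sum_le_sum hT
  rw [Finset.sum_add_distrib, Finset.sum_add_distrib, ← Finset.mul_sum, ← Finset.mul_sum] at h1
  have h2 := D.sum_blocks
  have h3 : ((∑ T ∈ Tsets D.g n, D.leafN T : ℕ) : ℝ) ≤
      ((∑ v ∈ Verts D.g n, (v.filter fun b => D.Leaf v b).card : ℕ) : ℝ) := by
    exact_mod_cast D.sum_leafN
  push_cast at h3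
  have h4 : ∑ v ∈ Verts D.g n, ((eN D.g v : ℝ) + ∑ P ∈ v.powersetCard 2, D.cor v P +
      1 / 2 * ((v.filter fun b => D.Leaf v b).card : ℝ)) ≤
      ∑ v ∈ Verts D.g n, (3 / 2 * n : ℝ) := Finset.sum_le_sum fun v hv => vertex_le hv
  rw [Finset.sum_add_distrib, Finset.sum_add_distrib, ← Finset.mul_sum, Finset.sum_const,
    nsmul_eq_mul] at h4
  have hpos : (0 : ℝ) < (Verts D.g n).card := by
    exact_mod_cast Finset.card_pos.2 D.verts_nonempty
  have h6 : ((n : ℝ) * (n - 6)) * (Verts D.g n).card <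
      (8 * ((3 / 2 + 5 / 4) * n)) * (Verts D.g n).card := by nlinarith
  exact lt_of_mul_lt_mul_right h6 hpos.le

/-- **The dimension is at most 27.** -/
theorem dim_le27 (hn : 2 ≤ n) (hcount : (n : ℝ) * (n - 6) * (Verts D.g n).card <
    8 * ∑ K ∈ Faces2 D.g n, max (5 - (kF D.g n K : ℝ)) 0) (hD : D.StmtD) (hT : D.StmtT27) :
    n ≤ 27 := by
  have h := D.dim_bound27 hn hcount hD hT
  by_contra hlt
  push Not at hlt
  have h1 : (28 : ℝ) ≤ n := by exact_mod_cast hlt
  nlinarith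

end CoxData

/-- the bound for polytopes, from the D level and the T level -/
theorem dim_le27_of (hD : ∀ D : CoxData n, D.StmtD) (hT : ∀ D : CoxData n, D.StmtT27)
    (P : CoxeterPolytope n) : n ≤ 27 := by
  rcases Nat.lt_or_ge n 2 with hn | hn
  · omega
  obtain ⟨C⟩ := exists_cone (by omega) P
  exact C.toCoxData.dim_le27 hn (C.count_lt hn) (hD _) (hT _)

end MP345
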