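import Mathlib
import Pool.Agent.Work.MP_345ef2_gt.LType

/-!
# Interface for the D level (MP_345ef2_gt, n <= 28)

`Duo p p' q q' L M`: two Lannér sets `L ∋ p, p'` and `M ∋ q, q'`, `p, p'` neither in nor adjacent to
`M`, `q, q'` neither in nor adjacent to `L`, and `(L - y) ∪ (M - x)` positive definite for
`y ∈ {p, p'}`, `x ∈ {q, q'}`.  (It comes from a quadrangle without near side: `p, p' = j, j'`,
`q, q' = i, i'`.)
-/

namespace MP345

open Finset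

variable {n : ℕ}

namespace CoxData

variable (D : CoxData n)

/-- see the header -/
structure Duo (p p' q q' : D.ι) (L M : Finset D.ι) : Prop where
  lanL : D.Lan L
  lanM : D.Lan M
  pp : p ≠ p'
  qq : q ≠ q'
  pL : p ∈ L
  pL' : p' ∈ L
  qM : q ∈ M
  qM' : q' ∈ M
  pM : p ∉ M
  pM' : p' ∉ M
  qL : q ∉ L
  qL' : q' ∉ L
  nP : ∀ t ∈ M, ¬ D.Adj p t
  nP' : ∀ t ∈ M, ¬ D.Adj p' t
  nQ : ∀ s ∈ L, ¬ D.Adj q s
  nQ' : ∀ s ∈ L, ¬ D.Adj q' s
  pd1 : PD D.g ((L.erase p) ∪ (M.erase q))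
  pd2 : PD D.g ((L.erase p) ∪ (M.erase q'))
  pd3 : PD D.g ((L.erase p') ∪ (M.erase q))
  pd4 : PD D.g ((L.erase p') ∪ (M.erase q'))

theorem Duo.swap {p p' q q' : D.ι} {L M : Finset D.ι} (h : D.Duo p p' q q' L M) :
    D.Duo q q' p p' M L :=
  ⟨h.lanM, h.lanL, h.qq, h.pp, h.qM, h.qM', h.pL, h.pL', h.qL, h.qL', h.pM, h.pM', h.nQ, h.nQ',
    h.nP, h.nP', by rw [Finset.union_comm]; exact h.pd1, by rw [Finset.union_comm]; exact h.pd3,
    by rw [Finset.union_comm]; exact h.pd2, by rw [Finset.union_comm]; exact h.pd4⟩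

theorem Duo.flipP {p p' q q' : D.ι} {L M : Finset D.ι} (h : D.Duo p p' q q' L M) :
    D.Duo p' p q q' L M :=
  ⟨h.lanL, h.lanM, h.pp.symm, h.qq, h.pL', h.pL, h.qM, h.qM', h.pM', h.pM, h.qL, h.qL', h.nP',
    h.nP, h.nQ, h.nQ', h.pd3, h.pd4, h.pd1, h.pd2⟩

theorem Duo.flipQ {p p' q q' : D.ι} {L M : Finset D.ι} (h : D.Duo p p' q q' L M) :
    D.Duo p p' q' q L M := (Duo.flipP D (Duo.swap D h)).swap D

theorem Duo.pd {p p' q q' : D.ι} {L M : Finset D.ι} (h : D.Duo p p' q q' L M) {y x : D.ι}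
    (hy : y = p ∨ y = p') (hx : x = q ∨ x = q') : PD D.g ((L.erase y) ∪ (M.erase x)) := by
  rcases hy with rfl | rfl <;> rcases hx with rfl | rfl
  · exact h.pd1
  · exact h.pd2
  · exact h.pd3
  · exact h.pd4

/-- for every `z` the set `(L - y) ∪ M'` with `M' = M - x`, `x ≠ z`, is positive definite -/
theorem Duo.exists_x {p p' q q' : D.ι} {L M : Finset D.ι} (h : D.Duo p p' q q' L M) {y : D.ι}
    (hy : y = p ∨ y = p') (z : D.ι) :
    ∃ x, (x = q ∨ x = q') ∧ x ≠ z ∧ PD D.g ((L.erase y) ∪ (M.erase x)) := by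
  by_cases hz : z = q
  · exact ⟨q', Or.inr rfl, fun e => h.qq (hz.symm.trans e.symm), Duo.pd D h hy (Or.inr rfl)⟩
  · exact ⟨q, Or.inl rfl, fun e => hz e.symm, Duo.pd D h hy (Or.inl rfl)⟩

/-- `s` is adjacent to an element of `M` -/
def Con (M : Finset D.ι) (s : D.ι) : Prop := ∃ t ∈ M, D.Adj s t

/-- the contact nodes of `L` are not adjacent to `p, p'` -/
def Remote (p p' : D.ι) (L M : Finset D.ι) : Prop :=
  ∀ s ∈ L, s ∉ M → D.Con M s → ¬ D.Adj s p ∧ ¬ D.Adj s p'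

/-- `x` (in `M`) is adjacent to a contact node of `M` (then `x` has distance two from `L`) -/
def W2 (x : D.ι) (L M : Finset D.ι) : Prop := ∃ m ∈ M, m ∉ L ∧ D.Adj x m ∧ D.Con L m

/-- `x` (in `{q, q'}`, `x'` the other one) has distance three from `L` (through `M`), the last node
not adjacent to `p, p'` -/
def F3 (x x' p p' : D.ι) (L M : Finset D.ι) : Prop :=
  ∃ m ∈ M, ∃ m' ∈ M, m ∉ L ∧ m' ∉ L ∧ m ≠ x ∧ m ≠ x' ∧ D.Adj x m ∧ D.Adj m m' ∧
    ∃ s ∈ L, D.Adj m' s ∧ ¬ D.Adj s p ∧ ¬ D.Adj s p'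

/-- the types of remote pairs `{p, p'} ⊆ L` -/
inductive RT (p p' : D.ι) (L M : Finset D.ι) : Prop
  | fork (u v w a b : D.ι) (h : D.Fork u v w a b L) (hP : ({p, p'} : Finset D.ι) = {u, v})
      (hB : Disjoint L M) (hc : ∀ s ∈ L, D.Con M s → s = a ∨ s = b)
  | a12 (a b c d e : D.ι) (h : D.Path5 a b c d e c5 (1 / 2) (1 / 2) (1 / 2) L)
      (hP : ({p, p'} : Finset D.ι) = {a, b}) (hB : Disjoint L M) (hc : ∀ s ∈ L, D.Con M s → s = e)
  | a13 (a b c d e : D.ι) (h : D.Path5 a b c d e c5 (1 / 2) (1 / 2) (1 / 2) L)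
      (hP : ({p, p'} : Finset D.ι) = {a, c} ∨ ({p, p'} : Finset D.ι) = {b, c})
      (hB : Disjoint L M) (hc : ∀ s ∈ L, D.Con M s → s = e)
  | bx (a b c d e : D.ι) (h : D.Path5 a b c d e c5 (1 / 2) (1 / 2) (1 / 2) L)
      (hP : ({p, p'} : Finset D.ι) = {a, b}) (hB : Disjoint L M)
      (hc : ∀ s ∈ L, D.Con M s → s = d ∨ s = e) (hd : D.Con M d)
  | c4 (a b c d e : D.ι) (h : D.Cyc5 a b c d e L)
      (hP : ({p, p'} : Finset D.ι) = {a, b}) (hB : Disjoint L M) (hc : ∀ s ∈ L, D.Con M s → s = d)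
  | ap (a b c d e : D.ι) (h : D.Path5 a b c d e c5 (1 / 2) (1 / 2) (1 / 2) L)
      (hP : ({p, p'} : Finset D.ι) = {a, b}) (hc : c ∉ M) (hd : d ∉ M) (he : e ∈ M)

/-- there is a vector supported in `L` with coordinate 1 at `c` and value at most `-A` -/
def NegAt (L : Finset D.ι) (c : D.ι) (A : ℝ) : Prop :=
  ∃ y : D.ι → ℝ, (∀ i, i ∉ L → y i = 0) ∧ y c = 1 ∧ qf D.g y ≤ -A

/-! ### blocks -/

/-- **Block LCON**: Lannér sets are connected. -/
def StmtLCON : Prop := ∀ L A : Finset D.ι, D.Lan L → A ⊆ L → A.Nonempty → A ≠ L →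
  ∃ a ∈ A, ∃ b ∈ L, b ∉ A ∧ D.Adj a b

/-- **Block CON**: contact nodes exist. -/
def StmtCON : Prop := ∀ (p p' q q' : D.ι) (L M : Finset D.ι), D.Duo p p' q q' L M →
  ∃ s ∈ L, s ∉ M ∧ D.Con M s

/-- **Block REMB**: remote, `L ∩ M` nonempty. -/
def StmtREMB : Prop := ∀ (p p' q q' : D.ι) (L M : Finset D.ι), D.Duo p p' q q' L M →
  D.Remote p p' L M → ¬ Disjoint L M → D.RT p p' L M

/-- **Block REM4**: remote, disjoint: no type of order at most 4. -/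
def StmtREM4 : Prop := ∀ (p p' q q' : D.ι) (L M : Finset D.ι), D.Duo p p' q q' L M →
  D.Remote p p' L M → Disjoint L M → 5 ≤ L.card

/-- **Block REMF**: remote, disjoint, fork. -/
def StmtREMF : Prop := ∀ (p p' q q' : D.ι) (L M : Finset D.ι), D.Duo p p' q q' L M →
  D.Remote p p' L M → Disjoint L M → ∀ u v w a b, D.Fork u v w a b L → D.RT p p' L M

/-- **Block REMP**: remote, disjoint, path of order 5. -/
def StmtREMP : Prop := ∀ (p p' q q' : D.ι) (L M : Finset D.ι), D.Duo p p' q q' L M →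
  D.Remote p p' L M → Disjoint L M → ∀ a b c d e z, (z = 1 / 2 ∨ z = √2 / 2 ∨ z = c5) →
  D.Path5 a b c d e c5 (1 / 2) (1 / 2) z L → D.RT p p' L M

/-- **Block REMC**: remote, disjoint, cycle of order 5. -/
def StmtREMC : Prop := ∀ (p p' q q' : D.ι) (L M : Finset D.ι), D.Duo p p' q q' L M →
  D.Remote p p' L M → Disjoint L M → ∀ a b c d e, D.Cyc5 a b c d e L → D.RT p p' L M

/-- **Block SIGN**: the signature. -/
def StmtSIGN : Prop := ∀ (L M : Finset D.ι) (c c' : D.ι) (A B : ℝ), Disjoint L M → c ∈ L → c' ∈ M →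
  D.g c c' = -(1 / 2) → (∀ s ∈ L, ∀ t ∈ M, D.Adj s t → s = c ∧ t = c') → 0 < A → 0 < B →
  1 / 4 < A * B → D.NegAt L c A → D.NegAt M c' B → False

/-- **Block NEG**: the test vectors. -/
def StmtNEG : Prop :=
  (∀ u v w a b L, D.Fork u v w a b L → D.NegAt L a 5 ∧ D.NegAt L b 5) ∧
  (∀ a b c d e L, D.Path5 a b c d e c5 (1 / 2) (1 / 2) (1 / 2) L → D.NegAt L e 1) ∧
  (∀ a b c d e L, D.Cyc5 a b c d e L → D.NegAt L d 1) ∧
  (∀ a b c d L, D.Path4 a b c d (1 / 2) c5 (1 / 2) L → D.NegAt L a (4 / 5) ∧ D.NegAt L d (4 / 5)) ∧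
  (∀ z u p q L, D.Star4 z u p q L → D.NegAt L p 1 ∧ D.NegAt L q 1) ∧
  (∀ L t x y, D.Lan L → L = {t, x, y} → t ≠ x → t ≠ y → x ≠ y → D.g t x = -(1 / 2) →
    D.g t y = 0 → D.NegAt L t (6 / 25))

/-- **Block FTOUCH**: `L` a remote fork, `M` touching: both `q` and `q'` have distance two. -/
def StmtFTOUCH : Prop := ∀ (p p' q q' : D.ι) (L M : Finset D.ι), D.Duo p p' q q' L M →
  ∀ u v w a b, D.Fork u v w a b L → ({p, p'} : Finset D.ι) = {u, v} → Disjoint L M →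
  (∀ s ∈ L, D.Con M s → s = a ∨ s = b) → D.W2 q L M → D.W2 q' L M

/-- **Block BOTH**: both remote. -/
def StmtBOTH : Prop := ∀ (p p' q q' : D.ι) (L M : Finset D.ι), D.Duo p p' q q' L M →
  D.Remote p p' L M → D.Remote q q' M L → D.RT p p' L M → D.RT q q' M L →
  ((D.cls L = 4 ∧ D.Five {p, p'} ∧ (D.F3 q q' p p' L M ∨ D.F3 q' q p p' L M)) ∨
   (D.cls M = 4 ∧ D.Five {q, q'} ∧ (D.F3 p p' q q' M L ∨ D.F3 p' p q q' M L)))

end CoxData

end MP345
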