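import Mathlib
import Pool.Agent.Work.MP_345ef2_gt.D_D0

/-!
# D level: assembly
-/

namespace MP345

open Finset

variable {n : ℕ}

namespace CoxData

variable (D : CoxData n)

/-- **Block CLSV**: classes of the types `[5,3,3,z]` and `(4,3,3,3,3)`. -/
def StmtCLSV : Prop :=
  (∀ L a b c d e z, 0 < z → D.Path5 a b c d e c5 (1 / 2) (1 / 2) z L → D.cls L = 4) ∧
  (∀ L a b c d e, D.Cyc5 a b c d e L → D.cls L = 4)

theorem chg_ge_half {T : Finset D.ι} {x p p' : D.ι} (hp : p ≠ p') (hn : ¬ D.Near T x)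
    (h : D.Far2 T x {p, p'}) : 1 / 2 ≤ D.chg T x {p, p'} := by
  unfold chg
  rw [if_pos (Finset.card_pair hp), if_neg hn]
  split_ifs <;> norm_num

theorem chg_ge_one {T : Finset D.ι} {x p p' : D.ι} (hp : p ≠ p') (hn : ¬ D.Near T x)
    (h : D.cls (D.LM T) = 4 ∧ (D.Far2s T x {p, p'} ∨ (D.Far3s T x {p, p'} ∧ D.Five {p, p'}))) :
    1 ≤ D.chg T x {p, p'} := by
  unfold chg
  rw [if_pos (Finset.card_pair hp), if_neg hn, if_pos h]

/-- a side with `W2` -/
theorem side_w2 {K : Finset D.ι} {x x' p p' : D.ι} {L M : Finset D.ι} (hpp : p ≠ p')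
    (hx : x ∉ L) (hpM : p ∉ M) (hpM' : p' ∉ M)
    (subM : M ⊆ insert x (insert x' K)) (hxL' : ∀ s ∈ L, ¬ D.Adj x' s)
    (nP : ∀ t ∈ M, ¬ D.Adj p t) (nP' : ∀ t ∈ M, ¬ D.Adj p' t)
    (e : D.LM (insert x (insert p (insert p' K))) = L)
    (hn : ¬ D.Near (insert x (insert p (insert p' K))) x)
    (h : D.W2 x L M) : 1 / 2 ≤ D.chg (insert x (insert p (insert p' K))) x {p, p'} := by
  refine D.chg_ge_half hpp hn ?_
  obtain ⟨m, hm, hmL, hxm, s, hs, hms⟩ := h
  have hmK : m ∈ K := by
    rcases Finset.mem_insert.1 (subM hm) with h1 | h1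
    · exact absurd h1.symm hxm.1
    · rcases Finset.mem_insert.1 h1 with h1 | h1
      · exact absurd (h1 ▸ hms) (hxL' s hs)
      · exact h1
  refine ⟨m, ⟨by simp [hmK], ?_, by rw [e]; exact hmL, ?_⟩, hxm, s, by rw [e]; exact hs, ?_, hms⟩
  · simp only [Finset.mem_insert, Finset.mem_singleton, not_or]
    exact ⟨fun h => hpM (h ▸ hm), fun h => hpM' (h ▸ hm)⟩
  · intro r hr
    simp only [Finset.mem_insert, Finset.mem_singleton] at hr
    rcases hr with rfl | rfl
    · exact fun h => nP m hm (h.symm D)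
    · exact fun h => nP' m hm (h.symm D)
  · simp only [Finset.mem_insert, Finset.mem_singleton, not_or]
    constructor
    · rintro rfl; exact nP m hm (hms.symm D)
    · rintro rfl; exact nP' m hm (hms.symm D)

/-- a side with `W2`, `L` remote and of class 4 -/
theorem side_s2 {K : Finset D.ι} {x x' p p' : D.ι} {L M : Finset D.ι} (hpp : p ≠ p')
    (hpM : p ∉ M) (hpM' : p' ∉ M)
    (subM : M ⊆ insert x (insert x' K)) (hxL' : ∀ s ∈ L, ¬ D.Adj x' s)
    (nP : ∀ t ∈ M, ¬ D.Adj p t) (nP' : ∀ t ∈ M, ¬ D.Adj p' t)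
    (e : D.LM (insert x (insert p (insert p' K))) = L)
    (hn : ¬ D.Near (insert x (insert p (insert p' K))) x) (hcls : D.cls L = 4)
    (hrem : D.Remote p p' L M)
    (h : D.W2 x L M) : 1 ≤ D.chg (insert x (insert p (insert p' K))) x {p, p'} := by
  refine D.chg_ge_one hpp hn ⟨by rw [e]; exact hcls, Or.inl ?_⟩
  obtain ⟨m, hm, hmL, hxm, s, hs, hms⟩ := h
  have hmK : m ∈ K := by
    rcases Finset.mem_insert.1 (subM hm) with h1 | h1
    · exact absurd h1.symm hxm.1
    · rcases Finset.mem_insert.1 h1 with h1 | h1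
      · exact absurd (h1 ▸ hms) (hxL' s hs)
      · exact h1
  have hsP : ¬ D.Adj s p ∧ ¬ D.Adj s p' := by
    by_cases hsM : s ∈ M
    · exact ⟨fun h => nP s hsM (h.symm D), fun h => nP' s hsM (h.symm D)⟩
    · exact hrem s hs hsM ⟨m, hm, hms.symm D⟩
  refine ⟨m, ⟨by simp [hmK], ?_, by rw [e]; exact hmL, ?_⟩, hxm, s, by rw [e]; exact hs, ?_, hms, ?_⟩
  · simp only [Finset.mem_insert, Finset.mem_singleton, not_or]
    exact ⟨fun h => hpM (h ▸ hm), fun h => hpM' (h ▸ hm)⟩
  · intro r hr
    simp only [Finset.mem_insert, Finset.mem_singleton] at hr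
    rcases hr with rfl | rfl
    · exact fun h => nP m hm (h.symm D)
    · exact fun h => nP' m hm (h.symm D)
  · simp only [Finset.mem_insert, Finset.mem_singleton, not_or]
    constructor
    · rintro rfl; exact nP m hm (hms.symm D)
    · rintro rfl; exact nP' m hm (hms.symm D)
  · intro r hr
    simp only [Finset.mem_insert, Finset.mem_singleton] at hr
    rcases hr with rfl | rfl
    · exact hsP.1
    · exact hsP.2

/-- a side with `F3` -/
theorem side_f3 {K : Finset D.ι} {x x' p p' : D.ι} {L M : Finset D.ι} (hpp : p ≠ p')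
    (hpM : p ∉ M) (hpM' : p' ∉ M)
    (subM : M ⊆ insert x (insert x' K)) (hxL : ∀ s ∈ L, ¬ D.Adj x s)
    (hxL' : ∀ s ∈ L, ¬ D.Adj x' s)
    (nP : ∀ t ∈ M, ¬ D.Adj p t) (nP' : ∀ t ∈ M, ¬ D.Adj p' t)
    (e : D.LM (insert x (insert p (insert p' K))) = L)
    (hn : ¬ D.Near (insert x (insert p (insert p' K))) x) (hcls : D.cls L = 4)
    (hfive : D.Five {p, p'})
    (h : D.F3 x x' p p' L M) : 1 ≤ D.chg (insert x (insert p (insert p' K))) x {p, p'} := by
  refine D.chg_ge_one hpp hn ⟨by rw [e]; exact hcls, Or.inr ⟨?_, hfive⟩⟩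
  obtain ⟨m, hm, m', hm', hmL, hmL', hmx, hmx', hxm, hmm, s, hs, hms, hsp, hsp'⟩ := h
  have hmK : m ∈ K := by
    rcases Finset.mem_insert.1 (subM hm) with h1 | h1
    · exact absurd h1 hmx
    · rcases Finset.mem_insert.1 h1 with h1 | h1
      · exact absurd h1 hmx'
      · exact h1
  have hmK' : m' ∈ K := by
    rcases Finset.mem_insert.1 (subM hm') with h1 | h1
    · exact absurd (h1 ▸ hms) (hxL s hs)
    · rcases Finset.mem_insert.1 h1 with h1 | h1
      · exact absurd (h1 ▸ hms) (hxL' s hs)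
      · exact h1
  have hfree : ∀ m ∈ M, m ∈ K → m ∉ L →
      D.Free (insert x (insert p (insert p' K))) {p, p'} m := by
    intro m hm hmK hmL
    refine ⟨by simp [hmK], ?_, by rw [e]; exact hmL, ?_⟩
    · simp only [Finset.mem_insert, Finset.mem_singleton, not_or]
      exact ⟨fun h => hpM (h ▸ hm), fun h => hpM' (h ▸ hm)⟩
    · intro r hr
      simp only [Finset.mem_insert, Finset.mem_singleton] at hr
      rcases hr with rfl | rfl
      · exact fun h => nP m hm (h.symm D)
      · exact fun h => nP' m hm (h.symm D)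
  refine ⟨m, m', hfree m hm hmK hmL, hfree m' hm' hmK' hmL', hxm, hmm, s, by rw [e]; exact hs, ?_,
    hms, ?_⟩
  · simp only [Finset.mem_insert, Finset.mem_singleton, not_or]
    constructor
    · rintro rfl; exact nP m' hm' (hms.symm D)
    · rintro rfl; exact nP' m' hm' (hms.symm D)
  · intro r hr
    simp only [Finset.mem_insert, Finset.mem_singleton] at hr
    rcases hr with rfl | rfl
    · exact hsp
    · exact hsp'

theorem w2_of_not_remote {p p' : D.ι} {L M : Finset D.ι} (h : ¬ D.Remote p p' L M) :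
    D.W2 p M L ∨ D.W2 p' M L := by
  unfold Remote at h
  push Not at h
  obtain ⟨s, hs, hsM, hc, h⟩ := h
  by_cases h1 : D.Adj s p
  · exact Or.inl ⟨s, hs, hsM, h1.symm D, hc⟩
  · exact Or.inr ⟨s, hs, hsM, (h h1).symm D, hc⟩

/-- all remote pairs -/
theorem rt_of (hcls : D.StmtCLS) (hB : D.StmtREMB) (h4 : D.StmtREM4) (hF : D.StmtREMF)
    (hP : D.StmtREMP) (hC : D.StmtREMC) {p p' q q' : D.ι} {L M : Finset D.ι}
    (d : D.Duo p p' q q' L M) (hr : D.Remote p p' L M) : D.RT p p' L M := by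
  by_cases hd : Disjoint L M
  · have h5 := h4 p p' q q' L M d hr hd
    have c4 : ∀ {a b c e : D.ι}, L = {a, b, c, e} → False := by
      intro a b c e h
      have := Finset.card_le_four (a := a) (b := b) (c := c) (d := e)
      rw [← h] at this; omega
    rcases hcls L d.lanL with h | ⟨a, b, c, e, h⟩ | ⟨a, b, c, e, h⟩ | ⟨a, b, c, e, h⟩ |
      ⟨a, b, c, e, h⟩ | ⟨a, b, c, e, h⟩ | ⟨a, b, c, e, f, h⟩ | ⟨a, b, c, e, f, z, hz, h⟩ |
      ⟨a, b, c, e, f, h⟩
    · omega
    · exact absurd h.eq (fun h => c4 h)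
    · exact absurd h.eq (fun h => c4 h)
    · exact absurd h.eq (fun h => c4 h)
    · exact absurd h.eq (fun h => c4 h)
    · exact absurd h.eq (fun h => c4 h)
    · exact hF p p' q q' L M d hr hd a b c e f h
    · exact hP p p' q q' L M d hr hd a b c e f z hz h
    · exact hC p p' q q' L M d hr hd a b c e f h
  · exact hB p p' q q' L M d hr hd

theorem stmtD_of (hcls : D.StmtCLS) (hB : D.StmtREMB) (h4 : D.StmtREM4) (hF : D.StmtREMF)
    (hP : D.StmtREMP) (hC : D.StmtREMC) (hV : D.StmtCLSV) (hT : D.StmtFTOUCH)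
    (hBoth : D.StmtBOTH) : D.StmtD := by
  intro K i i' j j' q
  rcases D.quad_cases q with h | ⟨L, M, nq⟩
  · exact h
  have n1 := D.cor_nonneg (insert i (insert j K)) {i, j}
  have n2 := D.cor_nonneg (insert i (insert j' K)) {i, j'}
  have n3 := D.cor_nonneg (insert i' (insert j K)) {i', j}
  have n4 := D.cor_nonneg (insert i' (insert j' K)) {i', j'}
  have m1 := D.chg_nonneg (insert i (insert j (insert j' K))) i {j, j'}
  have m2 := D.chg_nonneg (insert i' (insert j (insert j' K))) i' {j, j'}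
  have m3 := D.chg_nonneg (insert j (insert i (insert i' K))) j {i, i'}
  have m4 := D.chg_nonneg (insert j' (insert i (insert i' K))) j' {i, i'}
  have d := nq.duo
  have subM' : M ⊆ insert i' (insert i K) := by rw [Finset.insert_comm]; exact nq.subM
  have subL' : L ⊆ insert j' (insert j K) := by rw [Finset.insert_comm]; exact nq.subL
  -- payments of the four sides
  have wi : D.W2 i L M → 1 / 2 ≤ D.chg (insert i (insert j (insert j' K))) i {j, j'} :=
    D.side_w2 d.pp d.qL d.pM d.pM' nq.subM d.nQ' d.nP d.nP' nq.ei nq.ni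
  have wi' : D.W2 i' L M → 1 / 2 ≤ D.chg (insert i' (insert j (insert j' K))) i' {j, j'} :=
    D.side_w2 d.pp d.qL' d.pM d.pM' subM' d.nQ d.nP d.nP' nq.ei' nq.ni'
  have wj : D.W2 j M L → 1 / 2 ≤ D.chg (insert j (insert i (insert i' K))) j {i, i'} :=
    D.side_w2 d.qq d.pM d.qL d.qL' nq.subL d.nP' d.nQ d.nQ' nq.ej nq.nj
  have wj' : D.W2 j' M L → 1 / 2 ≤ D.chg (insert j' (insert i (insert i' K))) j' {i, i'} :=
    D.side_w2 d.qq d.pM' d.qL d.qL' subL' d.nP d.nQ d.nQ' nq.ej' nq.nj'
  -- one remote, the other one not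
  have one : D.Remote j j' L M → ¬ D.Remote i i' M L →
      1 ≤ D.chg (insert i (insert j (insert j' K))) i {j, j'} +
        D.chg (insert i' (insert j (insert j' K))) i' {j, j'} := by
    intro hr hnr
    have hw := D.w2_of_not_remote hnr
    have rt := D.rt_of hcls hB h4 hF hP hC d hr
    have c4 : D.cls L = 4 → 1 ≤ D.chg (insert i (insert j (insert j' K))) i {j, j'} +
        D.chg (insert i' (insert j (insert j' K))) i' {j, j'} := by
      intro hc
      rcases hw with hw | hw
      · have := D.side_s2 d.pp d.pM d.pM' nq.subM d.nQ' d.nP d.nP' nq.ei nq.ni hc hr hw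
        linarith
      · have := D.side_s2 d.pp d.pM d.pM' subM' d.nQ d.nP d.nP' nq.ei' nq.ni' hc hr hw
        linarith
    rcases rt with ⟨u, v, w, a, b, h, hP', hdis, hc⟩ | ⟨a, b, c, e, f, h, -, -, -⟩ |
      ⟨a, b, c, e, f, h, -, -, -⟩ | ⟨a, b, c, e, f, h, -, -, -, -⟩ | ⟨a, b, c, e, f, h, -, -, -⟩ |
      ⟨a, b, c, e, f, h, -, -, -, -⟩
    · rcases hw with hw | hw
      · have hw' := hT j j' i i' L M d u v w a b h hP' hdis hc hw
        have := wi hw; have := wi' hw'; linarith
      · have hw' := hT j j' i' i L M (Duo.flipQ D d) u v w a b h hP' hdis hc hw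
        have := wi hw'; have := wi' hw; linarith
    · exact c4 (hV.1 L a b c e f _ (by norm_num) h)
    · exact c4 (hV.1 L a b c e f _ (by norm_num) h)
    · exact c4 (hV.1 L a b c e f _ (by norm_num) h)
    · exact c4 (hV.2 L a b c e f h)
    · exact c4 (hV.1 L a b c e f _ (by norm_num) h)
  have one' : D.Remote i i' M L → ¬ D.Remote j j' L M →
      1 ≤ D.chg (insert j (insert i (insert i' K))) j {i, i'} +
        D.chg (insert j' (insert i (insert i' K))) j' {i, i'} := by
    intro hr hnr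
    have d' := Duo.swap D d
    have hw := D.w2_of_not_remote hnr
    have rt := D.rt_of hcls hB h4 hF hP hC d' hr
    have c4 : D.cls M = 4 → 1 ≤ D.chg (insert j (insert i (insert i' K))) j {i, i'} +
        D.chg (insert j' (insert i (insert i' K))) j' {i, i'} := by
      intro hc
      rcases hw with hw | hw
      · have := D.side_s2 d'.pp d'.pM d'.pM' nq.subL d'.nQ' d'.nP d'.nP' nq.ej nq.nj hc hr hw
        linarith
      · have := D.side_s2 d'.pp d'.pM d'.pM' subL' d'.nQ d'.nP d'.nP' nq.ej' nq.nj' hc hr hw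
        linarith
    rcases rt with ⟨u, v, w, a, b, h, hP', hdis, hc⟩ | ⟨a, b, c, e, f, h, -, -, -⟩ |
      ⟨a, b, c, e, f, h, -, -, -⟩ | ⟨a, b, c, e, f, h, -, -, -, -⟩ | ⟨a, b, c, e, f, h, -, -, -⟩ |
      ⟨a, b, c, e, f, h, -, -, -, -⟩
    · rcases hw with hw | hw
      · have hw' := hT i i' j j' M L d' u v w a b h hP' hdis hc hw
        have := wj hw; have := wj' hw'; linarith
      · have hw' := hT i i' j' j M L (Duo.flipQ D d') u v w a b h hP' hdis hc hw
        have := wj hw'; have := wj' hw; linarith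
    · exact c4 (hV.1 M a b c e f _ (by norm_num) h)
    · exact c4 (hV.1 M a b c e f _ (by norm_num) h)
    · exact c4 (hV.1 M a b c e f _ (by norm_num) h)
    · exact c4 (hV.2 M a b c e f h)
    · exact c4 (hV.1 M a b c e f _ (by norm_num) h)
  by_cases rL : D.Remote j j' L M
  · by_cases rM : D.Remote i i' M L
    · have rtL := D.rt_of hcls hB h4 hF hP hC d rL
      have rtM := D.rt_of hcls hB h4 hF hP hC (Duo.swap D d) rM
      rcases hBoth j j' i i' L M d rL rM rtL rtM with ⟨hc, h5, hf | hf⟩ | ⟨hc, h5, hf | hf⟩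
      · have := D.side_f3 d.pp d.pM d.pM' nq.subM d.nQ d.nQ' d.nP d.nP' nq.ei nq.ni hc h5 hf
        linarith
      · have := D.side_f3 d.pp d.pM d.pM' subM' d.nQ' d.nQ d.nP d.nP' nq.ei' nq.ni' hc h5 hf
        linarith
      · have := D.side_f3 d.qq d.qL d.qL' nq.subL d.nP d.nP' d.nQ d.nQ' nq.ej nq.nj hc h5 hf
        linarith
      · have := D.side_f3 d.qq d.qL d.qL' subL' d.nP' d.nP d.nQ d.nQ' nq.ej' nq.nj' hc h5 hf
        linarith
    · have := one rL rM; linarith
  · by_cases rM : D.Remote i i' M L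
    · have := one' rM rL; linarith
    · have h1 : 1 / 2 ≤ D.chg (insert i (insert j (insert j' K))) i {j, j'} +
          D.chg (insert i' (insert j (insert j' K))) i' {j, j'} := by
        rcases D.w2_of_not_remote rM with h | h
        · have := wi h; linarith
        · have := wi' h; linarith
      have h2 : 1 / 2 ≤ D.chg (insert j (insert i (insert i' K))) j {i, i'} +
          D.chg (insert j' (insert i (insert i' K))) j' {i, i'} := by
        rcases D.w2_of_not_remote rL with h | h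
        · have := wj h; linarith
        · have := wj' h; linarith
      linarith

end CoxData

end MP345
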