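import Mathlib
import Pool.Agent.Work.MP_345ef2_gt.LType

/-!
# Adjacency facts for the explicit types
-/

namespace MP345

open Finset

variable {n : ℕ}

namespace CoxData

variable {D : CoxData n}

theorem c5_pos : 0 < c5 := by have := c5_gt; linarith
theorem s2_pos : 0 < √2 / 2 := by positivity
theorem c5_heavy {x y : D.ι} (h : D.g x y = -c5) : 1 / 2 ≤ D.g x y ^ 2 := by
  rw [h]; have := c5_gt; nlinarith
theorem s2_heavy {x y : D.ι} (h : D.g x y = -(√2 / 2)) : 1 / 2 ≤ D.g x y ^ 2 := by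
  rw [h]; have := s2_sq; nlinarith
theorem z_heavy {x y : D.ι} {z : ℝ} (hz : z = √2 / 2 ∨ z = c5) (h : D.g x y = -z) :
    1 / 2 ≤ D.g x y ^ 2 := by
  rcases hz with rfl | rfl
  · exact s2_heavy h
  · exact c5_heavy h
theorem c5_le {x y : D.ι} (h : D.g x y = -c5) : D.g x y ≤ -(√2 / 2) := by
  rw [h]; have := c5_gt; have := s2_lt; linarith

theorem adj_of {x y : D.ι} {z : ℝ} (hne : x ≠ y) (hz : 0 < z) (h : D.g x y = -z) : D.Adj x y :=
  ⟨hne, by rw [h]; exact neg_ne_zero.2 hz.ne'⟩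

theorem nadj_of {x y : D.ι} (h : D.g x y = 0) : ¬ D.Adj x y ∧ ¬ D.Adj y x :=
  ⟨fun h' => h'.2 h, fun h' => h'.2 (by rw [D.symm]; exact h)⟩

theorem Fork.Auv {u v w p q : D.ι} {L : Finset D.ι} (h : D.Fork u v w p q L) : D.Adj u v :=
  adj_of h.uv c5_pos h.vuv
theorem Fork.Avu {u v w p q : D.ι} {L : Finset D.ι} (h : D.Fork u v w p q L) : D.Adj v u :=
  (Fork.Auv h).symm D
theorem Fork.Avw {u v w p q : D.ι} {L : Finset D.ι} (h : D.Fork u v w p q L) : D.Adj v w :=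
  adj_of h.vw (by norm_num) h.vvw
theorem Fork.Awv {u v w p q : D.ι} {L : Finset D.ι} (h : D.Fork u v w p q L) : D.Adj w v :=
  (Fork.Avw h).symm D
theorem Fork.Awp {u v w p q : D.ι} {L : Finset D.ι} (h : D.Fork u v w p q L) : D.Adj w p :=
  adj_of h.wp (by norm_num) h.vwp
theorem Fork.Apw {u v w p q : D.ι} {L : Finset D.ι} (h : D.Fork u v w p q L) : D.Adj p w :=
  (Fork.Awp h).symm D
theorem Fork.Awq {u v w p q : D.ι} {L : Finset D.ι} (h : D.Fork u v w p q L) : D.Adj w q :=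
  adj_of h.wq (by norm_num) h.vwq
theorem Fork.Aqw {u v w p q : D.ι} {L : Finset D.ι} (h : D.Fork u v w p q L) : D.Adj q w :=
  (Fork.Awq h).symm D
theorem Fork.Nuw {u v w p q : D.ι} {L : Finset D.ι} (h : D.Fork u v w p q L) : ¬ D.Adj u w :=
  (nadj_of h.vuw).1
theorem Fork.Nwu {u v w p q : D.ι} {L : Finset D.ι} (h : D.Fork u v w p q L) : ¬ D.Adj w u :=
  (nadj_of h.vuw).2
theorem Fork.Nup {u v w p q : D.ι} {L : Finset D.ι} (h : D.Fork u v w p q L) : ¬ D.Adj u p :=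
  (nadj_of h.vup).1
theorem Fork.Npu {u v w p q : D.ι} {L : Finset D.ι} (h : D.Fork u v w p q L) : ¬ D.Adj p u :=
  (nadj_of h.vup).2
theorem Fork.Nuq {u v w p q : D.ι} {L : Finset D.ι} (h : D.Fork u v w p q L) : ¬ D.Adj u q :=
  (nadj_of h.vuq).1
theorem Fork.Nqu {u v w p q : D.ι} {L : Finset D.ι} (h : D.Fork u v w p q L) : ¬ D.Adj q u :=
  (nadj_of h.vuq).2
theorem Fork.Nvp {u v w p q : D.ι} {L : Finset D.ι} (h : D.Fork u v w p q L) : ¬ D.Adj v p :=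
  (nadj_of h.vvp).1
theorem Fork.Npv {u v w p q : D.ι} {L : Finset D.ι} (h : D.Fork u v w p q L) : ¬ D.Adj p v :=
  (nadj_of h.vvp).2
theorem Fork.Nvq {u v w p q : D.ι} {L : Finset D.ι} (h : D.Fork u v w p q L) : ¬ D.Adj v q :=
  (nadj_of h.vvq).1
theorem Fork.Nqv {u v w p q : D.ι} {L : Finset D.ι} (h : D.Fork u v w p q L) : ¬ D.Adj q v :=
  (nadj_of h.vvq).2
theorem Fork.Npq {u v w p q : D.ι} {L : Finset D.ι} (h : D.Fork u v w p q L) : ¬ D.Adj p q :=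
  (nadj_of h.vpq).1
theorem Fork.Nqp {u v w p q : D.ι} {L : Finset D.ι} (h : D.Fork u v w p q L) : ¬ D.Adj q p :=
  (nadj_of h.vpq).2
theorem Fork.mu {u v w p q : D.ι} {L : Finset D.ι} (h : D.Fork u v w p q L) : u ∈ L := by rw [h.eq]; simp
theorem Fork.mv {u v w p q : D.ι} {L : Finset D.ι} (h : D.Fork u v w p q L) : v ∈ L := by rw [h.eq]; simp
theorem Fork.mw {u v w p q : D.ι} {L : Finset D.ι} (h : D.Fork u v w p q L) : w ∈ L := by rw [h.eq]; simp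
theorem Fork.mp {u v w p q : D.ι} {L : Finset D.ι} (h : D.Fork u v w p q L) : p ∈ L := by rw [h.eq]; simp
theorem Fork.mq {u v w p q : D.ι} {L : Finset D.ι} (h : D.Fork u v w p q L) : q ∈ L := by rw [h.eq]; simp
theorem Star4.Azu {z u p q : D.ι} {L : Finset D.ι} (h : D.Star4 z u p q L) : D.Adj z u :=
  adj_of h.zu c5_pos h.vzu
theorem Star4.Auz {z u p q : D.ι} {L : Finset D.ι} (h : D.Star4 z u p q L) : D.Adj u z :=
  (Star4.Azu h).symm D
theorem Star4.Azp {z u p q : D.ι} {L : Finset D.ι} (h : D.Star4 z u p q L) : D.Adj z p :=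
  adj_of h.zp (by norm_num) h.vzp
theorem Star4.Apz {z u p q : D.ι} {L : Finset D.ι} (h : D.Star4 z u p q L) : D.Adj p z :=
  (Star4.Azp h).symm D
theorem Star4.Azq {z u p q : D.ι} {L : Finset D.ι} (h : D.Star4 z u p q L) : D.Adj z q :=
  adj_of h.zq (by norm_num) h.vzq
theorem Star4.Aqz {z u p q : D.ι} {L : Finset D.ι} (h : D.Star4 z u p q L) : D.Adj q z :=
  (Star4.Azq h).symm D
theorem Star4.Nup {z u p q : D.ι} {L : Finset D.ι} (h : D.Star4 z u p q L) : ¬ D.Adj u p :=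
  (nadj_of h.vup).1
theorem Star4.Npu {z u p q : D.ι} {L : Finset D.ι} (h : D.Star4 z u p q L) : ¬ D.Adj p u :=
  (nadj_of h.vup).2
theorem Star4.Nuq {z u p q : D.ι} {L : Finset D.ι} (h : D.Star4 z u p q L) : ¬ D.Adj u q :=
  (nadj_of h.vuq).1
theorem Star4.Nqu {z u p q : D.ι} {L : Finset D.ι} (h : D.Star4 z u p q L) : ¬ D.Adj q u :=
  (nadj_of h.vuq).2
theorem Star4.Npq {z u p q : D.ι} {L : Finset D.ι} (h : D.Star4 z u p q L) : ¬ D.Adj p q :=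
  (nadj_of h.vpq).1
theorem Star4.Nqp {z u p q : D.ι} {L : Finset D.ι} (h : D.Star4 z u p q L) : ¬ D.Adj q p :=
  (nadj_of h.vpq).2
theorem Star4.mz {z u p q : D.ι} {L : Finset D.ι} (h : D.Star4 z u p q L) : z ∈ L := by rw [h.eq]; simp
theorem Star4.mu {z u p q : D.ι} {L : Finset D.ι} (h : D.Star4 z u p q L) : u ∈ L := by rw [h.eq]; simp
theorem Star4.mp {z u p q : D.ι} {L : Finset D.ι} (h : D.Star4 z u p q L) : p ∈ L := by rw [h.eq]; simp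
theorem Star4.mq {z u p q : D.ι} {L : Finset D.ι} (h : D.Star4 z u p q L) : q ∈ L := by rw [h.eq]; simp
theorem Cyc5.Aab {a b c d e : D.ι} {L : Finset D.ι} (h : D.Cyc5 a b c d e L) : D.Adj a b :=
  adj_of h.ab s2_pos h.vab
theorem Cyc5.Aba {a b c d e : D.ι} {L : Finset D.ι} (h : D.Cyc5 a b c d e L) : D.Adj b a :=
  (Cyc5.Aab h).symm D
theorem Cyc5.Abc {a b c d e : D.ι} {L : Finset D.ι} (h : D.Cyc5 a b c d e L) : D.Adj b c :=
  adj_of h.bc (by norm_num) h.vbc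
theorem Cyc5.Acb {a b c d e : D.ι} {L : Finset D.ι} (h : D.Cyc5 a b c d e L) : D.Adj c b :=
  (Cyc5.Abc h).symm D
theorem Cyc5.Acd {a b c d e : D.ι} {L : Finset D.ι} (h : D.Cyc5 a b c d e L) : D.Adj c d :=
  adj_of h.cd (by norm_num) h.vcd
theorem Cyc5.Adc {a b c d e : D.ι} {L : Finset D.ι} (h : D.Cyc5 a b c d e L) : D.Adj d c :=
  (Cyc5.Acd h).symm D
theorem Cyc5.Ade {a b c d e : D.ι} {L : Finset D.ι} (h : D.Cyc5 a b c d e L) : D.Adj d e :=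
  adj_of h.de (by norm_num) h.vde
theorem Cyc5.Aed {a b c d e : D.ι} {L : Finset D.ι} (h : D.Cyc5 a b c d e L) : D.Adj e d :=
  (Cyc5.Ade h).symm D
theorem Cyc5.Aea {a b c d e : D.ι} {L : Finset D.ι} (h : D.Cyc5 a b c d e L) : D.Adj e a :=
  adj_of h.ae.symm (by norm_num) h.vea
theorem Cyc5.Aae {a b c d e : D.ι} {L : Finset D.ι} (h : D.Cyc5 a b c d e L) : D.Adj a e :=
  (Cyc5.Aea h).symm D
theorem Cyc5.Nac {a b c d e : D.ι} {L : Finset D.ι} (h : D.Cyc5 a b c d e L) : ¬ D.Adj a c :=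
  (nadj_of h.vac).1
theorem Cyc5.Nca {a b c d e : D.ι} {L : Finset D.ι} (h : D.Cyc5 a b c d e L) : ¬ D.Adj c a :=
  (nadj_of h.vac).2
theorem Cyc5.Nad {a b c d e : D.ι} {L : Finset D.ι} (h : D.Cyc5 a b c d e L) : ¬ D.Adj a d :=
  (nadj_of h.vad).1
theorem Cyc5.Nda {a b c d e : D.ι} {L : Finset D.ι} (h : D.Cyc5 a b c d e L) : ¬ D.Adj d a :=
  (nadj_of h.vad).2
theorem Cyc5.Nbd {a b c d e : D.ι} {L : Finset D.ι} (h : D.Cyc5 a b c d e L) : ¬ D.Adj b d :=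
  (nadj_of h.vbd).1
theorem Cyc5.Ndb {a b c d e : D.ι} {L : Finset D.ι} (h : D.Cyc5 a b c d e L) : ¬ D.Adj d b :=
  (nadj_of h.vbd).2
theorem Cyc5.Nbe {a b c d e : D.ι} {L : Finset D.ι} (h : D.Cyc5 a b c d e L) : ¬ D.Adj b e :=
  (nadj_of h.vbe).1
theorem Cyc5.Neb {a b c d e : D.ι} {L : Finset D.ι} (h : D.Cyc5 a b c d e L) : ¬ D.Adj e b :=
  (nadj_of h.vbe).2
theorem Cyc5.Nce {a b c d e : D.ι} {L : Finset D.ι} (h : D.Cyc5 a b c d e L) : ¬ D.Adj c e :=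
  (nadj_of h.vce).1
theorem Cyc5.Nec {a b c d e : D.ι} {L : Finset D.ι} (h : D.Cyc5 a b c d e L) : ¬ D.Adj e c :=
  (nadj_of h.vce).2
theorem Cyc5.ma {a b c d e : D.ι} {L : Finset D.ι} (h : D.Cyc5 a b c d e L) : a ∈ L := by rw [h.eq]; simp
theorem Cyc5.mb {a b c d e : D.ι} {L : Finset D.ι} (h : D.Cyc5 a b c d e L) : b ∈ L := by rw [h.eq]; simp
theorem Cyc5.mc {a b c d e : D.ι} {L : Finset D.ι} (h : D.Cyc5 a b c d e L) : c ∈ L := by rw [h.eq]; simp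
theorem Cyc5.md {a b c d e : D.ι} {L : Finset D.ι} (h : D.Cyc5 a b c d e L) : d ∈ L := by rw [h.eq]; simp
theorem Cyc5.me {a b c d e : D.ι} {L : Finset D.ι} (h : D.Cyc5 a b c d e L) : e ∈ L := by rw [h.eq]; simp
theorem Path5.Aab {a b c d e : D.ι} {w x y z : ℝ} {L : Finset D.ι} (h : D.Path5 a b c d e w x y z L) (h0 : 0 < w) : D.Adj a b :=
  adj_of h.ab h0 h.vab
theorem Path5.Aba {a b c d e : D.ι} {w x y z : ℝ} {L : Finset D.ι} (h : D.Path5 a b c d e w x y z L) (h0 : 0 < w) : D.Adj b a :=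
  (h.Aab h0).symm D
theorem Path5.Abc {a b c d e : D.ι} {w x y z : ℝ} {L : Finset D.ι} (h : D.Path5 a b c d e w x y z L) (h0 : 0 < x) : D.Adj b c :=
  adj_of h.bc h0 h.vbc
theorem Path5.Acb {a b c d e : D.ι} {w x y z : ℝ} {L : Finset D.ι} (h : D.Path5 a b c d e w x y z L) (h0 : 0 < x) : D.Adj c b :=
  (h.Abc h0).symm D
theorem Path5.Acd {a b c d e : D.ι} {w x y z : ℝ} {L : Finset D.ι} (h : D.Path5 a b c d e w x y z L) (h0 : 0 < y) : D.Adj c d :=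
  adj_of h.cd h0 h.vcd
theorem Path5.Adc {a b c d e : D.ι} {w x y z : ℝ} {L : Finset D.ι} (h : D.Path5 a b c d e w x y z L) (h0 : 0 < y) : D.Adj d c :=
  (h.Acd h0).symm D
theorem Path5.Ade {a b c d e : D.ι} {w x y z : ℝ} {L : Finset D.ι} (h : D.Path5 a b c d e w x y z L) (h0 : 0 < z) : D.Adj d e :=
  adj_of h.de h0 h.vde
theorem Path5.Aed {a b c d e : D.ι} {w x y z : ℝ} {L : Finset D.ι} (h : D.Path5 a b c d e w x y z L) (h0 : 0 < z) : D.Adj e d :=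
  (h.Ade h0).symm D
theorem Path5.Nac {a b c d e : D.ι} {w x y z : ℝ} {L : Finset D.ι} (h : D.Path5 a b c d e w x y z L) : ¬ D.Adj a c :=
  (nadj_of h.vac).1
theorem Path5.Nca {a b c d e : D.ι} {w x y z : ℝ} {L : Finset D.ι} (h : D.Path5 a b c d e w x y z L) : ¬ D.Adj c a :=
  (nadj_of h.vac).2
theorem Path5.Nad {a b c d e : D.ι} {w x y z : ℝ} {L : Finset D.ι} (h : D.Path5 a b c d e w x y z L) : ¬ D.Adj a d :=
  (nadj_of h.vad).1
theorem Path5.Nda {a b c d e : D.ι} {w x y z : ℝ} {L : Finset D.ι} (h : D.Path5 a b c d e w x y z L) : ¬ D.Adj d a :=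
  (nadj_of h.vad).2
theorem Path5.Nae {a b c d e : D.ι} {w x y z : ℝ} {L : Finset D.ι} (h : D.Path5 a b c d e w x y z L) : ¬ D.Adj a e :=
  (nadj_of h.vae).1
theorem Path5.Nea {a b c d e : D.ι} {w x y z : ℝ} {L : Finset D.ι} (h : D.Path5 a b c d e w x y z L) : ¬ D.Adj e a :=
  (nadj_of h.vae).2
theorem Path5.Nbd {a b c d e : D.ι} {w x y z : ℝ} {L : Finset D.ι} (h : D.Path5 a b c d e w x y z L) : ¬ D.Adj b d :=
  (nadj_of h.vbd).1
theorem Path5.Ndb {a b c d e : D.ι} {w x y z : ℝ} {L : Finset D.ι} (h : D.Path5 a b c d e w x y z L) : ¬ D.Adj d b :=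
  (nadj_of h.vbd).2
theorem Path5.Nbe {a b c d e : D.ι} {w x y z : ℝ} {L : Finset D.ι} (h : D.Path5 a b c d e w x y z L) : ¬ D.Adj b e :=
  (nadj_of h.vbe).1
theorem Path5.Neb {a b c d e : D.ι} {w x y z : ℝ} {L : Finset D.ι} (h : D.Path5 a b c d e w x y z L) : ¬ D.Adj e b :=
  (nadj_of h.vbe).2
theorem Path5.Nce {a b c d e : D.ι} {w x y z : ℝ} {L : Finset D.ι} (h : D.Path5 a b c d e w x y z L) : ¬ D.Adj c e :=
  (nadj_of h.vce).1
theorem Path5.Nec {a b c d e : D.ι} {w x y z : ℝ} {L : Finset D.ι} (h : D.Path5 a b c d e w x y z L) : ¬ D.Adj e c :=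
  (nadj_of h.vce).2
theorem Path5.ma {a b c d e : D.ι} {w x y z : ℝ} {L : Finset D.ι} (h : D.Path5 a b c d e w x y z L) : a ∈ L := by rw [h.eq]; simp
theorem Path5.mb {a b c d e : D.ι} {w x y z : ℝ} {L : Finset D.ι} (h : D.Path5 a b c d e w x y z L) : b ∈ L := by rw [h.eq]; simp
theorem Path5.mc {a b c d e : D.ι} {w x y z : ℝ} {L : Finset D.ι} (h : D.Path5 a b c d e w x y z L) : c ∈ L := by rw [h.eq]; simp
theorem Path5.md {a b c d e : D.ι} {w x y z : ℝ} {L : Finset D.ι} (h : D.Path5 a b c d e w x y z L) : d ∈ L := by rw [h.eq]; simp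
theorem Path5.me {a b c d e : D.ι} {w x y z : ℝ} {L : Finset D.ι} (h : D.Path5 a b c d e w x y z L) : e ∈ L := by rw [h.eq]; simp
theorem Path4.Aab {a b c d : D.ι} {x y z : ℝ} {L : Finset D.ι} (h : D.Path4 a b c d x y z L) (h0 : 0 < x) : D.Adj a b :=
  adj_of h.ab h0 h.vab
theorem Path4.Aba {a b c d : D.ι} {x y z : ℝ} {L : Finset D.ι} (h : D.Path4 a b c d x y z L) (h0 : 0 < x) : D.Adj b a :=
  (h.Aab h0).symm D
theorem Path4.Abc {a b c d : D.ι} {x y z : ℝ} {L : Finset D.ι} (h : D.Path4 a b c d x y z L) (h0 : 0 < y) : D.Adj b c :=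
  adj_of h.bc h0 h.vbc
theorem Path4.Acb {a b c d : D.ι} {x y z : ℝ} {L : Finset D.ι} (h : D.Path4 a b c d x y z L) (h0 : 0 < y) : D.Adj c b :=
  (h.Abc h0).symm D
theorem Path4.Acd {a b c d : D.ι} {x y z : ℝ} {L : Finset D.ι} (h : D.Path4 a b c d x y z L) (h0 : 0 < z) : D.Adj c d :=
  adj_of h.cd h0 h.vcd
theorem Path4.Adc {a b c d : D.ι} {x y z : ℝ} {L : Finset D.ι} (h : D.Path4 a b c d x y z L) (h0 : 0 < z) : D.Adj d c :=
  (h.Acd h0).symm D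
theorem Path4.Nac {a b c d : D.ι} {x y z : ℝ} {L : Finset D.ι} (h : D.Path4 a b c d x y z L) : ¬ D.Adj a c :=
  (nadj_of h.vac).1
theorem Path4.Nca {a b c d : D.ι} {x y z : ℝ} {L : Finset D.ι} (h : D.Path4 a b c d x y z L) : ¬ D.Adj c a :=
  (nadj_of h.vac).2
theorem Path4.Nad {a b c d : D.ι} {x y z : ℝ} {L : Finset D.ι} (h : D.Path4 a b c d x y z L) : ¬ D.Adj a d :=
  (nadj_of h.vad).1
theorem Path4.Nda {a b c d : D.ι} {x y z : ℝ} {L : Finset D.ι} (h : D.Path4 a b c d x y z L) : ¬ D.Adj d a :=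
  (nadj_of h.vad).2
theorem Path4.Nbd {a b c d : D.ι} {x y z : ℝ} {L : Finset D.ι} (h : D.Path4 a b c d x y z L) : ¬ D.Adj b d :=
  (nadj_of h.vbd).1
theorem Path4.Ndb {a b c d : D.ι} {x y z : ℝ} {L : Finset D.ι} (h : D.Path4 a b c d x y z L) : ¬ D.Adj d b :=
  (nadj_of h.vbd).2
theorem Path4.ma {a b c d : D.ι} {x y z : ℝ} {L : Finset D.ι} (h : D.Path4 a b c d x y z L) : a ∈ L := by rw [h.eq]; simp
theorem Path4.mb {a b c d : D.ι} {x y z : ℝ} {L : Finset D.ι} (h : D.Path4 a b c d x y z L) : b ∈ L := by rw [h.eq]; simp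
theorem Path4.mc {a b c d : D.ι} {x y z : ℝ} {L : Finset D.ι} (h : D.Path4 a b c d x y z L) : c ∈ L := by rw [h.eq]; simp
theorem Path4.md {a b c d : D.ι} {x y z : ℝ} {L : Finset D.ι} (h : D.Path4 a b c d x y z L) : d ∈ L := by rw [h.eq]; simp
theorem Cyc4.Nac {a b c d : D.ι} {L : Finset D.ι} (h : D.Cyc4 a b c d L) : ¬ D.Adj a c :=
  (nadj_of h.vac).1
theorem Cyc4.Nca {a b c d : D.ι} {L : Finset D.ι} (h : D.Cyc4 a b c d L) : ¬ D.Adj c a :=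
  (nadj_of h.vac).2
theorem Cyc4.Nbd {a b c d : D.ι} {L : Finset D.ι} (h : D.Cyc4 a b c d L) : ¬ D.Adj b d :=
  (nadj_of h.vbd).1
theorem Cyc4.Ndb {a b c d : D.ι} {L : Finset D.ι} (h : D.Cyc4 a b c d L) : ¬ D.Adj d b :=
  (nadj_of h.vbd).2
theorem Cyc4.ma {a b c d : D.ι} {L : Finset D.ι} (h : D.Cyc4 a b c d L) : a ∈ L := by rw [h.eq]; simp
theorem Cyc4.mb {a b c d : D.ι} {L : Finset D.ι} (h : D.Cyc4 a b c d L) : b ∈ L := by rw [h.eq]; simp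
theorem Cyc4.mc {a b c d : D.ι} {L : Finset D.ι} (h : D.Cyc4 a b c d L) : c ∈ L := by rw [h.eq]; simp
theorem Cyc4.md {a b c d : D.ι} {L : Finset D.ι} (h : D.Cyc4 a b c d L) : d ∈ L := by rw [h.eq]; simp

end CoxData

end MP345
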