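import Mathlib
import Pool.Agent.Work.MP_345ef2_gt.D_REM4

/-!
# Remote pairs: the types of order 5, disjoint case (REMF, REMP, REMC)
-/

namespace MP345

open Finset

variable {n : ℕ}

namespace CoxData

variable (D : CoxData n)

theorem pair_of {α : Type*} [DecidableEq α] {p p' x y : α} (hp : p = x ∨ p = y)
    (hp' : p' = x ∨ p' = y) (hne : p ≠ p') : ({p, p'} : Finset α) = {x, y} := by
  rcases hp with rfl | rfl <;> rcases hp' with rfl | rfl
  · exact absurd rfl hne
  · rfl
  · exact Finset.pair_comm _ _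
  · exact absurd rfl hne

theorem fork_con {p p' q q' : D.ι} {L M : Finset D.ι} (du : D.Duo p p' q q' L M)
    {u v w a b : D.ι} (h : D.Fork u v w a b L) {s t : D.ι} (hs : s ∈ L) (ht : t ∈ M)
    (htL : t ∉ L) (hst : D.Adj s t) (h1 : ¬ D.Adj s p) (h2 : ¬ D.Adj s p') :
    ({p, p'} : Finset D.ι) = {u, v} ∧ (s = a ∨ s = b) := by
  obtain ⟨h3, h4, htq, htq'⟩ := Duo.con_ne D du hs ht hst
  have np : p ≠ s := h3.symm
  have np' : p' ≠ s := h4.symm
  have expl : ∀ r ∈ L, r = u ∨ r = v ∨ r = w ∨ r = a ∨ r = b := by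
    intro r hr; rw [h.eq] at hr; simpa using hr
  have A1 := h.Auv; have A2 := h.Avw; have A3 := h.Awp; have A4 := h.Awq
  have A1' := h.Avu; have A2' := h.Awv; have A3' := h.Apw; have A4' := h.Aqw
  have hpL := expl p du.pL
  have hpL' := expl p' du.pL'
  have hpp := du.pp
  have n1 : u ≠ t := fun e => htL (e ▸ h.mu)
  have n2 : v ≠ t := fun e => htL (e ▸ h.mv)
  have n3 : w ≠ t := fun e => htL (e ▸ h.mw)
  have n4 : a ≠ t := fun e => htL (e ▸ h.mp)
  have n5 : b ≠ t := fun e => htL (e ▸ h.mq)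
  rcases expl s hs with rfl | rfl | rfl | rfl | rfl
  · exfalso
    have hy : ∃ y, (y = p ∨ y = p') ∧ (y = a ∨ y = b) := by
      have hp : p = w ∨ p = a ∨ p = b := by grind
      have hp' : p' = w ∨ p' = a ∨ p' = b := by grind
      rcases hp with rfl | hp
      · rcases hp' with rfl | hp'
        · exact absurd rfl hpp
        · exact ⟨p', Or.inr rfl, hp'⟩
      · exact ⟨p, Or.inl rfl, hp⟩
    obtain ⟨y, hy, hyab⟩ := hy
    obtain ⟨S, hS, hL, hM, -⟩ := Duo.get D du hy t
    have m1 : s ≠ y := by rcases hyab with rfl | rfl; exacts [h.up, h.uq]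
    have m2 : v ≠ y := by rcases hyab with rfl | rfl; exacts [h.vp, h.vq]
    have m3 : w ≠ y := by rcases hyab with rfl | rfl; exacts [h.wp, h.wq]
    exact no_353 hS (s := t) (q := s) (p := v) (r := w) (hM _ ht htq htq') (hL _ h.mu m1)
      (hL _ h.mv m2) (hL _ h.mw m3) (hst.symm D) (le_of_eq h.vuv) h.uv.symm h.Avw n2.symm
      n3.symm h.uw.symm
  · exfalso
    have hp : p = a ∨ p = b := by grind
    have hp' : p' = a ∨ p' = b := by grind
    obtain ⟨S, hS, hL, hM, -⟩ := Duo.get D du (two_of hp hp' hpp).1 t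
    exact no_heavy3 hS (p := s) (q := u) (r := w) (s := t) (hL _ h.mv h.vp) (hL _ h.mu h.up)
      (hL _ h.mw h.wp) (hM _ ht htq htq') h.uw n1 n3
      (c5_heavy (by rw [D.symm]; exact h.vuv)) h.uv.symm h.Avw hst
  · exfalso
    have hp : p = u := by grind
    have hp' : p' = u := by grind
    exact hpp (hp.trans hp'.symm)
  · have hp : p = u ∨ p = v ∨ p = b := by grind
    have hp' : p' = u ∨ p' = v ∨ p' = b := by grind
    by_cases hb : b = p ∨ b = p'
    · exfalso
      obtain ⟨S, hS, hL, hM, -⟩ := Duo.get D du hb t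
      exact no_5333 hS (q := u) (p := v) (r := w) (t := s) (u := t) (hL _ h.mu h.uq)
        (hL _ h.mv h.vq) (hL _ h.mw h.wq) (hL _ h.mp h.pq) (hM _ ht htq htq')
        (le_of_eq h.vuv) h.Avw h.Awp hst (by
          have := h.uv; have := h.uw; have := h.up; have := h.vw; have := h.vp; have := h.wp
          simp; grind)
    · refine ⟨pair_of (by grind) (by grind) hpp, Or.inl rfl⟩
  · have hp : p = u ∨ p = v ∨ p = a := by grind
    have hp' : p' = u ∨ p' = v ∨ p' = a := by grind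
    by_cases hb : a = p ∨ a = p'
    · exfalso
      obtain ⟨S, hS, hL, hM, -⟩ := Duo.get D du hb t
      exact no_5333 hS (q := u) (p := v) (r := w) (t := s) (u := t) (hL _ h.mu h.up)
        (hL _ h.mv h.vp) (hL _ h.mw h.wp) (hL _ h.mq h.pq.symm) (hM _ ht htq htq')
        (le_of_eq h.vuv) h.Avw h.Awq hst (by
          have := h.uv; have := h.uw; have := h.uq; have := h.vw; have := h.vq; have := h.wq
          simp; grind)
    · refine ⟨pair_of (by grind) (by grind) hpp, Or.inr rfl⟩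

theorem stmtREMF : D.StmtREMF := by
  intro p p' q q' L M du hr hdis u v w a b h
  have hdj : ∀ {t : D.ι}, t ∈ M → t ∉ L := fun {t} ht h => (Finset.disjoint_left.1 hdis h) ht
  have key : ∀ s ∈ L, D.Con M s → ({p, p'} : Finset D.ι) = {u, v} ∧ (s = a ∨ s = b) := by
    intro s hs ⟨t, ht, hst⟩
    have hsM : s ∉ M := fun h => (Finset.disjoint_left.1 hdis hs) h
    obtain ⟨h1, h2⟩ := hr s hs hsM ⟨t, ht, hst⟩
    exact D.fork_con du h hs ht (hdj ht) hst h1 h2
  obtain ⟨s, hs, hsM, hc⟩ := D.stmtCON p p' q q' L M du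
  exact RT.fork u v w a b h (key s hs hc).1 hdis fun s hs hc => (key s hs hc).2

theorem cyc5_con {p p' q q' : D.ι} {L M : Finset D.ι} (du : D.Duo p p' q q' L M)
    {a b c d e : D.ι} (h : D.Cyc5 a b c d e L) {s t : D.ι} (hs : s ∈ L) (ht : t ∈ M)
    (htL : t ∉ L) (hst : D.Adj s t) (h1 : ¬ D.Adj s p) (h2 : ¬ D.Adj s p') :
    ({p, p'} : Finset D.ι) = {a, b} ∧ s = d := by
  obtain ⟨h3, h4, htq, htq'⟩ := Duo.con_ne D du hs ht hst
  have np : p ≠ s := h3.symm
  have np' : p' ≠ s := h4.symm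
  have expl : ∀ r ∈ L, r = a ∨ r = b ∨ r = c ∨ r = d ∨ r = e := by
    intro r hr; rw [h.eq] at hr; simpa using hr
  have A1 := h.Aab; have A2 := h.Abc; have A3 := h.Acd; have A4 := h.Ade; have A5 := h.Aea
  have A1' := h.Aba; have A2' := h.Acb; have A3' := h.Adc; have A4' := h.Aed; have A5' := h.Aae
  have hpL := expl p du.pL
  have hpL' := expl p' du.pL'
  have hpp := du.pp
  have n1 : a ≠ t := fun e => htL (e ▸ h.ma)
  have n2 : b ≠ t := fun e => htL (e ▸ h.mb)
  have n3 : c ≠ t := fun e => htL (e ▸ h.mc)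
  have n4 : d ≠ t := fun e => htL (e ▸ h.md)
  have n5 : e ≠ t := fun e' => htL (e' ▸ h.me)
  rcases expl s hs with rfl | rfl | rfl | rfl | rfl
  · exfalso
    have hp : p = c ∨ p = d := by grind
    have hp' : p' = c ∨ p' = d := by grind
    obtain ⟨S, hS, hL, hM, -⟩ := Duo.get D du (two_of hp hp' hpp).1 t
    exact no_heavy3 hS (p := s) (q := b) (r := e) (s := t) (hL _ h.ma h.ac) (hL _ h.mb h.bc)
      (hL _ h.me h.ce.symm) (hM _ ht htq htq') h.be n2 n5 (s2_heavy h.vab) h.ab h.Aae hst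
  · exfalso
    have hp : p = d ∨ p = e := by grind
    have hp' : p' = d ∨ p' = e := by grind
    obtain ⟨S, hS, hL, hM, -⟩ := Duo.get D du (two_of hp hp' hpp).1 t
    exact no_heavy3 hS (p := s) (q := a) (r := c) (s := t) (hL _ h.mb h.bd) (hL _ h.ma h.ad)
      (hL _ h.mc h.cd) (hM _ ht htq htq') h.ac n1 n3 (s2_heavy (by rw [D.symm]; exact h.vab))
      h.ab.symm h.Abc hst
  · exfalso
    have hp : p = e ∨ p = a := by grind
    have hp' : p' = e ∨ p' = a := by grind
    obtain ⟨S, hS, hL, hM, -⟩ := Duo.get D du (two_of hp hp' hpp).1 t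
    refine core_test' hS (U := {s, b}) ?_ ⟨s, by simp⟩ ?_
    · intro r hr; simp only [Finset.mem_insert, Finset.mem_singleton] at hr
      rcases hr with rfl | rfl
      · exact hL _ h.mc h.ce
      · exact hL _ h.mb h.be
    · intro r hr; simp only [Finset.mem_insert, Finset.mem_singleton] at hr
      right
      rcases hr with rfl | rfl
      · refine ⟨⟨b, by simp, h.Acb⟩, Or.inr ⟨d, hL _ h.md h.de, t, hM _ ht htq htq', ?_, ?_, n4,
          h.Acd, hst⟩⟩
        · simp [h.cd.symm, h.bd.symm]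
        · simp [hst.1.symm, n2.symm]
      · refine ⟨⟨s, by simp, h.Abc⟩, Or.inl ⟨a, hL _ h.ma h.ae, ?_, s2_heavy (by rw [D.symm]; exact h.vab)⟩⟩
        simp [h.ac, h.ab]
  · refine ⟨pair_of (by grind) (by grind) hpp, rfl⟩
  · exfalso
    have hp : p = b ∨ p = c := by grind
    have hp' : p' = b ∨ p' = c := by grind
    obtain ⟨S, hS, hL, hM, -⟩ := Duo.get D du (two_of hp hp' hpp).2 t
    refine core_test' hS (U := {s, a}) ?_ ⟨s, by simp⟩ ?_
    · intro r hr; simp only [Finset.mem_insert, Finset.mem_singleton] at hr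
      rcases hr with rfl | rfl
      · exact hL _ h.me h.ce.symm
      · exact hL _ h.ma h.ac
    · intro r hr; simp only [Finset.mem_insert, Finset.mem_singleton] at hr
      right
      rcases hr with rfl | rfl
      · refine ⟨⟨a, by simp, h.Aea⟩, Or.inr ⟨d, hL _ h.md h.cd.symm, t, hM _ ht htq htq', ?_, ?_,
          n4, h.Aed, hst⟩⟩
        · simp [h.de, h.ad.symm]
        · simp [hst.1.symm, n1.symm]
      · refine ⟨⟨s, by simp, h.Aae⟩, Or.inl ⟨b, hL _ h.mb h.bc, ?_, s2_heavy h.vab⟩⟩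
        simp [h.be, h.ab.symm]

theorem stmtREMC : D.StmtREMC := by
  intro p p' q q' L M du hr hdis a b c d e h
  have hdj : ∀ {t : D.ι}, t ∈ M → t ∉ L := fun {t} ht h => (Finset.disjoint_left.1 hdis h) ht
  have key : ∀ s ∈ L, D.Con M s → ({p, p'} : Finset D.ι) = {a, b} ∧ s = d := by
    intro s hs ⟨t, ht, hst⟩
    have hsM : s ∉ M := fun h => (Finset.disjoint_left.1 hdis hs) h
    obtain ⟨h1, h2⟩ := hr s hs hsM ⟨t, ht, hst⟩
    exact D.cyc5_con du h hs ht (hdj ht) hst h1 h2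
  obtain ⟨s, hs, hsM, hc⟩ := D.stmtCON p p' q q' L M du
  exact RT.c4 a b c d e h (key s hs hc).1 hdis fun s hs hc => (key s hs hc).2

theorem path5_con {p p' q q' : D.ι} {L M : Finset D.ι} (du : D.Duo p p' q q' L M)
    (hdis : Disjoint L M)
    {a b c d e : D.ι} {z : ℝ} (hz : z = 1 / 2 ∨ z = √2 / 2 ∨ z = c5)
    (h : D.Path5 a b c d e c5 (1 / 2) (1 / 2) z L) {s t : D.ι} (hs : s ∈ L) (ht : t ∈ M)
    (hst : D.Adj s t) (h1 : ¬ D.Adj s p) (h2 : ¬ D.Adj s p') :
    z = 1 / 2 ∧
    ((({p, p'} : Finset D.ι) = {a, b} ∧ (s = d ∨ s = e)) ∨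
      (({p, p'} : Finset D.ι) = {a, c} ∧ s = e) ∨ (({p, p'} : Finset D.ι) = {b, c} ∧ s = e)) := by
  obtain ⟨h3, h4, htq, htq'⟩ := Duo.con_ne D du hs ht hst
  have htL : t ∉ L := fun h => (Finset.disjoint_left.1 hdis h) ht
  have hz0 : 0 < z := by
    rcases hz with rfl | rfl | rfl
    · norm_num
    · exact s2_pos
    · exact c5_pos
  have np : p ≠ s := h3.symm
  have np' : p' ≠ s := h4.symm
  have expl : ∀ r ∈ L, r = a ∨ r = b ∨ r = c ∨ r = d ∨ r = e := by
    intro r hr; rw [h.eq] at hr; simpa using hr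
  have A1 := h.Aab c5_pos; have A2 := h.Abc (by norm_num); have A3 := h.Acd (by norm_num)
  have A4 := h.Ade hz0
  have A1' := h.Aba c5_pos; have A2' := h.Acb (by norm_num); have A3' := h.Adc (by norm_num)
  have A4' := h.Aed hz0
  have hpL := expl p du.pL
  have hpL' := expl p' du.pL'
  have hpp := du.pp
  have n1 : a ≠ t := fun e => htL (e ▸ h.ma)
  have n2 : b ≠ t := fun e => htL (e ▸ h.mb)
  have n3 : c ≠ t := fun e => htL (e ▸ h.mc)
  have n4 : d ≠ t := fun e => htL (e ▸ h.md)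
  have n5 : e ≠ t := fun e' => htL (e' ▸ h.me)
  obtain ⟨t2, ht2, htt⟩ := Duo.ext D du ht htq
  have ht2L : t2 ∉ L := fun h => (Finset.disjoint_left.1 hdis h) ht2
  have k1 : a ≠ t2 := fun e => ht2L (e ▸ h.ma)
  have k2 : b ≠ t2 := fun e => ht2L (e ▸ h.mb)
  have k3 : c ≠ t2 := fun e => ht2L (e ▸ h.mc)
  have k4 : d ≠ t2 := fun e => ht2L (e ▸ h.md)
  have k5 : e ≠ t2 := fun e' => ht2L (e' ▸ h.me)
  rcases expl s hs with rfl | rfl | rfl | rfl | rfl
  · exfalso
    have hy : ∃ y, (y = p ∨ y = p') ∧ (y = d ∨ y = e) := by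
      have hp : p = c ∨ p = d ∨ p = e := by grind
      have hp' : p' = c ∨ p' = d ∨ p' = e := by grind
      rcases hp with rfl | hp
      · rcases hp' with rfl | hp'
        · exact absurd rfl hpp
        · exact ⟨p', Or.inr rfl, hp'⟩
      · exact ⟨p, Or.inl rfl, hp⟩
    obtain ⟨y, hy, hyab⟩ := hy
    obtain ⟨S, hS, hL, hM, -⟩ := Duo.get D du hy t
    have m1 : s ≠ y := by rcases hyab with rfl | rfl; exacts [h.ad, h.ae]
    have m2 : b ≠ y := by rcases hyab with rfl | rfl; exacts [h.bd, h.be]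
    have m3 : c ≠ y := by rcases hyab with rfl | rfl; exacts [h.cd, h.ce]
    exact no_353 hS (s := t) (q := s) (p := b) (r := c) (hM _ ht htq htq') (hL _ h.ma m1)
      (hL _ h.mb m2) (hL _ h.mc m3) (hst.symm D) (le_of_eq h.vab) h.ab.symm A2 n2.symm
      n3.symm h.ac.symm
  · exfalso
    have hp : p = d ∨ p = e := by grind
    have hp' : p' = d ∨ p' = e := by grind
    obtain ⟨S, hS, hL, hM, -⟩ := Duo.get D du (two_of hp hp' hpp).1 t
    exact no_heavy3 hS (p := s) (q := a) (r := c) (s := t) (hL _ h.mb h.bd) (hL _ h.ma h.ad)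
      (hL _ h.mc h.cd) (hM _ ht htq htq') h.ac n1 n3
      (c5_heavy (by rw [D.symm]; exact h.vab)) h.ab.symm A2 hst
  · exfalso
    have hp : p = a ∨ p = e := by grind
    have hp' : p' = a ∨ p' = e := by grind
    obtain ⟨S, hS, hL, hM, -⟩ := Duo.get D du (two_of hp hp' hpp).2 t
    refine core_test' hS (U := {s, b}) ?_ ⟨s, by simp⟩ ?_
    · intro r hr; simp only [Finset.mem_insert, Finset.mem_singleton] at hr
      rcases hr with rfl | rfl
      · exact hL _ h.mc h.ce
      · exact hL _ h.mb h.be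
    · intro r hr; simp only [Finset.mem_insert, Finset.mem_singleton] at hr
      right
      rcases hr with rfl | rfl
      · refine ⟨⟨b, by simp, A2'⟩, Or.inr ⟨d, hL _ h.md h.de, t, hM _ ht htq htq', ?_, ?_, n4,
          A3, hst⟩⟩
        · simp [h.cd.symm, h.bd.symm]
        · simp [hst.1.symm, n2.symm]
      · refine ⟨⟨s, by simp, A2⟩, Or.inl ⟨a, hL _ h.ma h.ae, ?_, c5_heavy (by rw [D.symm]; exact h.vab)⟩⟩
        simp [h.ac, h.ab]
  · -- s = d, P = {a, b}
    have hp : p = a ∨ p = b := by grind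
    have hp' : p' = a ∨ p' = b := by grind
    rcases hz with hz | hz
    · exact ⟨hz, Or.inl ⟨pair_of hp hp' hpp, Or.inl rfl⟩⟩
    · exfalso
      obtain ⟨S, hS, hL, hM, -⟩ := Duo.get D du (two_of hp hp' hpp).1 t
      exact no_heavy3 hS (p := s) (q := e) (r := c) (s := t) (hL _ h.md h.ad.symm)
        (hL _ h.me h.ae.symm) (hL _ h.mc h.ac.symm) (hM _ ht htq htq') h.ce.symm n5 n3
        (z_heavy hz h.vde) h.de A3' hst
  · -- s = e
    have hp : p = a ∨ p = b ∨ p = c := by grind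
    have hp' : p' = a ∨ p' = b ∨ p' = c := by grind
    have fab := h.ab
    have fac := h.ac
    have fbc := h.bc
    rcases hz with hz | hz | hz
    · refine ⟨hz, ?_⟩
      by_cases hc : p = c ∨ p' = c
      · by_cases ha : p = a ∨ p' = a
        · exact Or.inr (Or.inl ⟨pair_of (by grind) (by grind) hpp, rfl⟩)
        · exact Or.inr (Or.inr ⟨pair_of (by grind) (by grind) hpp, rfl⟩)
      · exact Or.inl ⟨pair_of (by grind) (by grind) hpp, Or.inr rfl⟩
    · exfalso
      subst hz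
      by_cases ha : a = p ∨ a = p'
      · obtain ⟨S, hS, hL, hM, -⟩ := Duo.get D du ha t
        -- b - c - d = e - t : F4~ needs s - q = p - r - t with s q p r t := t e d c b
        exact no_F4t hS (s := t) (q := s) (p := d) (r := c) (t := b) (hM _ ht htq htq')
          (hL _ h.me h.ae.symm) (hL _ h.md h.ad.symm) (hL _ h.mc h.ac.symm)
          (hL _ h.mb h.ab.symm) (hst.symm D) (by rw [D.symm]; exact le_of_eq h.vde) A3' A2' (by
            have := h.bc; have := h.bd; have := h.be; have := h.cd; have := h.ce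
            have := h.de; have := hst.1
            simp; grind)
      · -- P = {b, c}
        have hp : p = b ∨ p = c := by grind
        have hp' : p' = b ∨ p' = c := by grind
        obtain ⟨S, hS, hL, hM, ht2S⟩ := Duo.get D du (two_of hp hp' hpp).1 t2
        exact no_F4t hS (s := c) (q := d) (p := s) (r := t) (t := t2) (hL _ h.mc h.bc.symm)
          (hL _ h.md h.bd.symm) (hL _ h.me h.be.symm) (hM _ ht htq htq') (ht2S ht2) A3
          (le_of_eq h.vde) hst htt (by
            have := h.cd; have := h.ce; have := h.de; have := hst.1; have := htt.1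
            simp; grind)
    · exfalso
      subst hz
      have hy : ∃ y, (y = p ∨ y = p') ∧ (y = a ∨ y = b) := by
        rcases hp with hp | hp | hp
        · exact ⟨p, Or.inl rfl, Or.inl hp⟩
        · exact ⟨p, Or.inl rfl, Or.inr hp⟩
        · rcases hp' with hp' | hp' | hp'
          · exact ⟨p', Or.inr rfl, Or.inl hp'⟩
          · exact ⟨p', Or.inr rfl, Or.inr hp'⟩
          · exact absurd (hp.trans hp'.symm) hpp
      obtain ⟨y, hy, hyab⟩ := hy
      obtain ⟨S, hS, hL, hM, -⟩ := Duo.get D du hy t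
      have m1 : c ≠ y := by rcases hyab with rfl | rfl; exacts [h.ac.symm, h.bc.symm]
      have m2 : d ≠ y := by rcases hyab with rfl | rfl; exacts [h.ad.symm, h.bd.symm]
      have m3 : s ≠ y := by rcases hyab with rfl | rfl; exacts [h.ae.symm, h.be.symm]
      exact no_353 hS (s := c) (q := d) (p := s) (r := t) (hL _ h.mc m1) (hL _ h.md m2)
        (hL _ h.me m3) (hM _ ht htq htq') A3 (le_of_eq h.vde) h.de.symm hst h.ce n3 n4.symm

theorem stmtREMP : D.StmtREMP := by
  classical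
  intro p p' q q' L M du hr hdis a b c d e z hz h
  have key : ∀ s ∈ L, D.Con M s → z = 1 / 2 ∧
    ((({p, p'} : Finset D.ι) = {a, b} ∧ (s = d ∨ s = e)) ∨
      (({p, p'} : Finset D.ι) = {a, c} ∧ s = e) ∨ (({p, p'} : Finset D.ι) = {b, c} ∧ s = e)) := by
    intro s hs ⟨t, ht, hst⟩
    have hsM : s ∉ M := fun h => (Finset.disjoint_left.1 hdis hs) h
    obtain ⟨h1, h2⟩ := hr s hs hsM ⟨t, ht, hst⟩
    exact D.path5_con du hdis hz h hs ht hst h1 h2
  obtain ⟨s, hs, hsM, hc⟩ := D.stmtCON p p' q q' L M du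
  obtain ⟨hz', h0⟩ := key s hs hc
  subst hz'
  have hab_ac : ({a, b} : Finset D.ι) ≠ {a, c} := by
    rw [Ne, pair_eq]; rintro (⟨-, e⟩ | ⟨e, -⟩)
    · exact h.bc e
    · exact h.ac e
  have hab_bc : ({a, b} : Finset D.ι) ≠ {b, c} := by
    rw [Ne, pair_eq]; rintro (⟨e, -⟩ | ⟨e, -⟩)
    · exact h.ab e
    · exact h.ac e
  rcases h0 with ⟨hP, -⟩ | ⟨hP, -⟩ | ⟨hP, -⟩
  · have hc' : ∀ s ∈ L, D.Con M s → s = d ∨ s = e := by
      intro s hs hc
      rcases (key s hs hc).2 with ⟨-, h1⟩ | ⟨h1, -⟩ | ⟨h1, -⟩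
      · exact h1
      · exact absurd (hP.symm.trans h1) hab_ac
      · exact absurd (hP.symm.trans h1) hab_bc
    by_cases hd : D.Con M d
    · exact RT.bx a b c d e h hP hdis hc' hd
    · refine RT.a12 a b c d e h hP hdis fun s hs hc => ?_
      rcases hc' s hs hc with rfl | rfl
      · exact absurd hc hd
      · rfl
  · refine RT.a13 a b c d e h (Or.inl hP) hdis fun s hs hc => ?_
    rcases (key s hs hc).2 with ⟨h1, -⟩ | ⟨-, h1⟩ | ⟨-, h1⟩
    · exact absurd (h1.symm.trans hP) hab_ac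
    · exact h1
    · exact h1
  · refine RT.a13 a b c d e h (Or.inr hP) hdis fun s hs hc => ?_
    rcases (key s hs hc).2 with ⟨h1, -⟩ | ⟨-, h1⟩ | ⟨-, h1⟩
    · exact absurd (h1.symm.trans hP) hab_bc
    · exact h1
    · exact h1

end CoxData

end MP345
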