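import Mathlib
import Pool.Agent.Work.MP_345ef2_gt.D_REMF

/-!
# Remote pairs: `L ∩ M` nonempty (REMB)
-/

namespace MP345

open Finset

variable {n : ℕ}

namespace CoxData

variable (D : CoxData n)

/-- an element of `L ∩ M` has a neighbour in `M` -/
theorem Duo.ext' {p p' q q' : D.ι} {L M : Finset D.ι} (du : D.Duo p p' q q' L M) {t : D.ι}
    (ht : t ∈ M) (htL : t ∈ L) : ∃ t2 ∈ M, D.Adj t t2 :=
  Duo.ext D du ht (fun e => du.qL (e ▸ htL))

theorem stmtREMB (hcls : D.StmtCLS) : D.StmtREMB := by
  classical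
  intro p p' q q' L M du hr hdis
  rw [Finset.not_disjoint_iff] at hdis
  obtain ⟨x0, hx0L, hx0M⟩ := hdis
  obtain ⟨b0, hb0, s, hs, hsb, hbs⟩ := D.stmtLCON L (L ∩ M) du.lanL Finset.inter_subset_left
    ⟨x0, Finset.mem_inter.2 ⟨hx0L, hx0M⟩⟩ (fun e => du.pM (by
      have := du.pL; rw [← e] at this; exact (Finset.mem_inter.1 this).2))
  obtain ⟨hbL, hbM⟩ := Finset.mem_inter.1 hb0
  have hsM : s ∉ M := fun h => hsb (Finset.mem_inter.2 ⟨hs, h⟩)
  have hsb' := hbs.symm D
  obtain ⟨h1, h2⟩ := hr s hs hsM ⟨b0, hbM, hsb'⟩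
  obtain ⟨h3, h4, -, -⟩ := Duo.con_ne D du hs hbM hsb'
  have h5 : ¬ D.Adj b0 p := fun h => du.nP b0 hbM (h.symm D)
  have h6 : ¬ D.Adj b0 p' := fun h => du.nP' b0 hbM (h.symm D)
  have h7 : b0 ≠ p := fun h => du.pM (h ▸ hbM)
  have h8 : b0 ≠ p' := fun h => du.pM' (h ▸ hbM)
  have hpp := du.pp
  have hbs0 := hbs.1
  -- nodes adjacent to P are not in M, and not contacts
  have hPM : ∀ r, (D.Adj r p ∨ D.Adj r p') → r ∉ M := by
    rintro r (h | h) hrM
    · exact du.nP r hrM (h.symm D)
    · exact du.nP' r hrM (h.symm D)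
  have hPC : ∀ r ∈ L, (D.Adj r p ∨ D.Adj r p') → ¬ D.Con M r := by
    intro r hrL h hc
    obtain ⟨k1, k2⟩ := hr r hrL (hPM r h) hc
    rcases h with h | h
    · exact k1 h
    · exact k2 h
  have small : L.card ≤ 4 → False := by
    intro hc
    have hL : ({s, b0, p, p'} : Finset D.ι) = L := by
      apply Finset.eq_of_subset_of_card_le
      · intro r hr
        simp only [Finset.mem_insert, Finset.mem_singleton] at hr
        rcases hr with rfl | rfl | rfl | rfl
        · exact hs
        · exact hbL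
        · exact du.pL
        · exact du.pL'
      · rw [Finset.card_insert_of_notMem (by simp [h3, h4, hbs0.symm]),
          Finset.card_insert_of_notMem (by simp [h7, h8]), Finset.card_pair hpp]
        exact hc
    obtain ⟨a, ha, b, hb, hba, hab⟩ := D.stmtLCON L {s, b0} du.lanL (by
      intro r hr
      simp only [Finset.mem_insert, Finset.mem_singleton] at hr
      rcases hr with rfl | rfl <;> assumption) ⟨s, by simp⟩
      (by
        intro e
        have := du.pL; rw [← e] at this
        simp only [Finset.mem_insert, Finset.mem_singleton] at this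
        rcases this with h | h
        · exact h3 h.symm
        · exact h7 h.symm)
    simp only [Finset.mem_insert, Finset.mem_singleton, not_or] at ha hba
    rw [← hL] at hb
    simp only [Finset.mem_insert, Finset.mem_singleton] at hb
    rcases hb with hb | hb | hb | hb
    · exact hba.1 hb
    · exact hba.2 hb
    · rw [hb] at hab
      rcases ha with rfl | rfl
      · exact h1 hab
      · exact h5 hab
    · rw [hb] at hab
      rcases ha with rfl | rfl
      · exact h2 hab
      · exact h6 hab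
  have c4 : ∀ {a b c e : D.ι}, L = {a, b, c, e} → False := by
    intro a b c e h
    apply small
    rw [h]; exact Finset.card_le_four
  rcases hcls L du.lanL with h | ⟨a, b, c, e, h⟩ | ⟨z, u, a, b, h⟩ | ⟨a, b, c, e, h⟩ |
      ⟨a, b, c, e, h⟩ | ⟨a, b, c, e, h⟩ | ⟨u, v, w, a, b, h⟩ | ⟨a, b, c, d, e, z, hz, h⟩ |
      ⟨a, b, c, d, e, h⟩
  · exact (small (by omega)).elim
  · exact (c4 h.eq).elim
  · exact (c4 h.eq).elim
  · exact (c4 h.eq).elim
  · exact (c4 h.eq).elim
  · exact (c4 h.eq).elim
  · -- fork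
    exfalso
    have expl : ∀ r ∈ L, r = u ∨ r = v ∨ r = w ∨ r = a ∨ r = b := by
      intro r hr; rw [h.eq] at hr; simpa using hr
    have A1 := h.Auv; have A2 := h.Avw; have A3 := h.Awp; have A4 := h.Awq
    have A1' := h.Avu; have A2' := h.Awv; have A3' := h.Apw; have A4' := h.Aqw
    have N1 := h.Nuw; have N2 := h.Nup; have N3 := h.Nuq; have N4 := h.Nvp; have N5 := h.Nvq
    have N6 := h.Npq
    have N1' := h.Nwu; have N2' := h.Npu; have N3' := h.Nqu; have N4' := h.Npv; have N5' := h.Nqv
    have N6' := h.Nqp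
    have hpL := expl p du.pL
    have hpL' := expl p' du.pL'
    have hse := expl s hs
    have hbe := expl b0 hbL
    have hsv : (s = u ∧ b0 = v ∧ (p = a ∨ p = b)) ∨ (s = v ∧ b0 = u ∧ (p = a ∨ p = b) ∧
        (p' = a ∨ p' = b)) := by
      rcases hse with rfl | rfl | rfl | rfl | rfl <;> rcases hbe with rfl | rfl | rfl | rfl | rfl <;>
        first
        | exact absurd rfl hbs0
        | exact absurd hbs (by assumption)
        | (left; refine ⟨rfl, rfl, ?_⟩; grind)
        | (right; refine ⟨rfl, rfl, ?_, ?_⟩ <;> grind)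
        | (exfalso; grind)
    rcases hsv with ⟨rfl, rfl, hpa⟩ | ⟨rfl, rfl, hpa, hpa'⟩
    · refine hPC w h.mw (Or.inl ?_) ⟨b0, hbM, A2'⟩
      rcases hpa with rfl | rfl <;> assumption
    · obtain ⟨y, hyM, hby⟩ := Duo.ext' D du hbM hbL
      have hyL : y ∉ L := by
        intro hyL
        rcases expl y hyL with rfl | rfl | rfl | rfl | rfl
        · exact hby.1 rfl
        · exact hsM hyM
        · exact N1 hby
        · exact N2 hby
        · exact N3 hby
      have hyp : a = p ∨ a = p' := (two_of hpa hpa' hpp).1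
      obtain ⟨S, hS, hL, hM, hyS⟩ := Duo.get D du hyp y
      exact no_353 hS (s := y) (q := b0) (p := s) (r := w) (hyS hyM) (hL _ h.mu h.up)
        (hL _ h.mv h.vp) (hL _ h.mw h.wp) (hby.symm D) (le_of_eq h.vuv) h.uv.symm A2
        (fun e => hyL (e ▸ h.mv)) (fun e => hyL (e ▸ h.mw)) h.uw.symm
  · -- path
    have hz0 : 0 < z := by
      rcases hz with rfl | rfl | rfl
      · norm_num
      · exact s2_pos
      · exact c5_pos
    have expl : ∀ r ∈ L, r = a ∨ r = b ∨ r = c ∨ r = d ∨ r = e := by
      intro r hr; rw [h.eq] at hr; simpa using hr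
    have A1 := h.Aab c5_pos; have A2 := h.Abc (by norm_num); have A3 := h.Acd (by norm_num)
    have A4 := h.Ade hz0
    have A1' := h.Aba c5_pos; have A2' := h.Acb (by norm_num); have A3' := h.Adc (by norm_num)
    have A4' := h.Aed hz0
    have N1 := h.Nac; have N2 := h.Nad; have N3 := h.Nae; have N4 := h.Nbd; have N5 := h.Nbe
    have N6 := h.Nce
    have N1' := h.Nca; have N2' := h.Nda; have N3' := h.Nea; have N4' := h.Ndb; have N5' := h.Neb
    have N6' := h.Nec
    have hpL := expl p du.pL
    have hpL' := expl p' du.pL'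
    have hse := expl s hs
    have hbe := expl b0 hbL
    have hsv : (s = d ∧ b0 = e ∧ (p = a ∨ p = b) ∧ (p' = a ∨ p' = b)) ∨
        (s = e ∧ b0 = d ∧ (p = b ∨ p' = b)) ∨ (s = a ∧ b0 = b ∧ (p = d ∨ p' = d)) ∨
        (s = b ∧ b0 = a ∧ (p = d ∨ p = e) ∧ (p' = d ∨ p' = e)) := by
      rcases hse with rfl | rfl | rfl | rfl | rfl <;> rcases hbe with rfl | rfl | rfl | rfl | rfl <;>
        first
        | exact absurd rfl hbs0
        | exact absurd hbs (by assumption)
        | (left; refine ⟨rfl, rfl, ?_, ?_⟩ <;> grind)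
        | (right; left; refine ⟨rfl, rfl, ?_⟩; grind)
        | (right; right; left; refine ⟨rfl, rfl, ?_⟩; grind)
        | (right; right; right; refine ⟨rfl, rfl, ?_, ?_⟩ <;> grind)
        | (exfalso; grind)
    rcases hsv with ⟨rfl, rfl, hpa, hpa'⟩ | ⟨rfl, rfl, hpa⟩ | ⟨rfl, rfl, hpa⟩ | ⟨rfl, rfl, hpa, hpa'⟩
    · -- good case
      have hbp : b = p ∨ b = p' := (two_of hpa hpa' hpp).2
      have hap : a = p ∨ a = p' := (two_of hpa hpa' hpp).1
      have hcM : c ∉ M := by
        apply hPM
        rcases hbp with rfl | rfl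
        · exact Or.inl A2'
        · exact Or.inr A2'
      obtain ⟨y, hyM, hby⟩ := Duo.ext' D du hbM hbL
      have hyL : y ∉ L := by
        intro hyL
        rcases expl y hyL with rfl | rfl | rfl | rfl | rfl
        · exact N3' hby
        · exact N5' hby
        · exact N6' hby
        · exact hsM hyM
        · exact hby.1 rfl
      have k1 : a ≠ y := fun e => hyL (e ▸ h.ma)
      have k2 : b ≠ y := fun e => hyL (e ▸ h.mb)
      have k3 : c ≠ y := fun e => hyL (e ▸ h.mc)
      have k4 : s ≠ y := fun e => hyL (e ▸ h.md)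
      have k5 : b0 ≠ y := fun e' => hyL (e' ▸ h.me)
      obtain ⟨S, hS, hL, hM, hyS⟩ := Duo.get D du hap y
      rcases hz with rfl | rfl | rfl
      · exact RT.ap a b c s b0 h (pair_of hpa hpa' hpp) hcM hsM hbM
      · exfalso
        exact no_F4t hS (s := y) (q := b0) (p := s) (r := c) (t := b) (hyS hyM)
          (hL _ h.me h.ae.symm) (hL _ h.md h.ad.symm) (hL _ h.mc h.ac.symm)
          (hL _ h.mb h.ab.symm) (hby.symm D) (by rw [D.symm]; exact le_of_eq h.vde) A3' A2' (by
            have := h.bc; have := h.bd; have := h.be; have := h.cd; have := h.ce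
            have := h.de
            simp; grind)
      · exfalso
        exact no_353 hS (s := c) (q := s) (p := b0) (r := y) (hL _ h.mc h.ac.symm)
          (hL _ h.md h.ad.symm) (hL _ h.me h.ae.symm) (hyS hyM) A3 (le_of_eq h.vde) h.de.symm hby
          h.ce k3 k4.symm
    · exfalso
      refine hPC c h.mc ?_ ⟨b0, hbM, A3⟩
      rcases hpa with rfl | rfl
      · exact Or.inl A2'
      · exact Or.inr A2'
    · exfalso
      refine hPC c h.mc ?_ ⟨b0, hbM, A2'⟩
      rcases hpa with rfl | rfl
      · exact Or.inl A3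
      · exact Or.inr A3
    · exfalso
      obtain ⟨y, hyM, hby⟩ := Duo.ext' D du hbM hbL
      have hyL : y ∉ L := by
        intro hyL
        rcases expl y hyL with rfl | rfl | rfl | rfl | rfl
        · exact hby.1 rfl
        · exact hsM hyM
        · exact N1 hby
        · exact N2 hby
        · exact N3 hby
      have hyp : e = p ∨ e = p' := (two_of hpa hpa' hpp).2
      obtain ⟨S, hS, hL, hM, hyS⟩ := Duo.get D du hyp y
      exact no_353 hS (s := y) (q := b0) (p := s) (r := c) (hyS hyM) (hL _ h.ma h.ae)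
        (hL _ h.mb h.be) (hL _ h.mc h.ce) (hby.symm D) (le_of_eq h.vab) h.ab.symm A2
        (fun e => hyL (e ▸ h.mb)) (fun e => hyL (e ▸ h.mc)) h.ac.symm
  · -- cycle
    exfalso
    have expl : ∀ r ∈ L, r = a ∨ r = b ∨ r = c ∨ r = d ∨ r = e := by
      intro r hr; rw [h.eq] at hr; simpa using hr
    have A1 := h.Aab; have A2 := h.Abc; have A3 := h.Acd; have A4 := h.Ade; have A5 := h.Aea
    have A1' := h.Aba; have A2' := h.Acb; have A3' := h.Adc; have A4' := h.Aed; have A5' := h.Aae
    have N1 := h.Nac; have N2 := h.Nad; have N3 := h.Nbd; have N4 := h.Nbe; have N5 := h.Nce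
    have N1' := h.Nca; have N2' := h.Nda; have N3' := h.Ndb; have N4' := h.Neb; have N5' := h.Nec
    have hpL := expl p du.pL
    have hpL' := expl p' du.pL'
    have hse := expl s hs
    have hbe := expl b0 hbL
    rcases hse with rfl | rfl | rfl | rfl | rfl <;> rcases hbe with rfl | rfl | rfl | rfl | rfl <;>
      first
      | exact absurd rfl hbs0
      | exact absurd hbs (by assumption)
      | grind

end CoxData

end MP345
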