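import Mathlib
import Pool.Agent.Work.MP_345ef2_gt.D_FTOUCH

/-!
# Both sets are remote (BOTH), and the D level
-/

namespace MP345

open Finset

variable {n : ℕ}

namespace CoxData

variable (D : CoxData n)

theorem Duo.get2 {p p' q q' : D.ι} {L M : Finset D.ι} (du : D.Duo p p' q q' L M) {y x : D.ι}
    (hy : y = p ∨ y = p') (hx : x = q ∨ x = q') :
    ∃ S : Finset D.ι, PD D.g S ∧ (∀ r ∈ L, r ≠ y → r ∈ S) ∧ (∀ r ∈ M, r ≠ x → r ∈ S) :=
  ⟨_, Duo.pd D du hy hx, fun r hr h => Finset.mem_union_left _ (Finset.mem_erase.2 ⟨h, hr⟩),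
    fun r hr h => Finset.mem_union_right _ (Finset.mem_erase.2 ⟨h, hr⟩)⟩

theorem of_pair {α : Type*} [DecidableEq α] {p p' x y : α} (h : ({p, p'} : Finset α) = {x, y}) :
    (x = p ∨ x = p') ∧ (y = p ∨ y = p') ∧ (p = x ∨ p = y) ∧ (p' = x ∨ p' = y) := by
  have h1 : x ∈ ({p, p'} : Finset α) := by rw [h]; simp
  have h2 : y ∈ ({p, p'} : Finset α) := by rw [h]; simp
  have h3 : p ∈ ({x, y} : Finset α) := by rw [← h]; simp
  have h4 : p' ∈ ({x, y} : Finset α) := by rw [← h]; simp
  simp only [Finset.mem_insert, Finset.mem_singleton] at h1 h2 h3 h4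
  exact ⟨h1, h2, h3, h4⟩

theorem five_of {p p' x y : D.ι} (h : ({p, p'} : Finset D.ι) = {x, y}) (hg : D.g x y = -c5) :
    D.Five {p, p'} := by
  rw [h]; exact ⟨x, by simp, y, by simp, hg⟩

/-- distance three from `L` through `M` -/
theorem f3_of {p p' q q' : D.ι} {L M : Finset D.ι} (hdis : Disjoint L M)
    (hr : D.Remote p p' L M) {x m m' : D.ι} (hx : x = q ∨ x = q') (hm : m ∈ M) (hm' : m' ∈ M)
    (hmq : m ≠ q) (hmq' : m ≠ q') (h1 : D.Adj x m) (h2 : D.Adj m m') (hc : D.Con L m') :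
    D.F3 q q' p p' L M ∨ D.F3 q' q p p' L M := by
  have hdj : ∀ {t : D.ι}, t ∈ M → t ∉ L := fun {t} ht h => (Finset.disjoint_left.1 hdis h) ht
  obtain ⟨s, hs, hms⟩ := hc
  obtain ⟨k1, k2⟩ := hr s hs (fun h => hdj h hs) ⟨m', hm', hms.symm D⟩
  rcases hx with rfl | rfl
  · exact Or.inl ⟨m, hm, m', hm', hdj hm, hdj hm', hmq, hmq', h1, h2, s, hs, hms, k1, k2⟩
  · exact Or.inr ⟨m, hm, m', hm', hdj hm, hdj hm', hmq', hmq, h1, h2, s, hs, hms, k1, k2⟩

/-- the conclusion -/
def Concl (p p' q q' : D.ι) (L M : Finset D.ι) : Prop :=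
  ((D.cls L = 4 ∧ D.Five {p, p'} ∧ (D.F3 q q' p p' L M ∨ D.F3 q' q p p' L M)) ∨
   (D.cls M = 4 ∧ D.Five {q, q'} ∧ (D.F3 p p' q q' M L ∨ D.F3 p' p q q' M L)))

theorem Concl.swap {p p' q q' : D.ι} {L M : Finset D.ι} (h : D.Concl p p' q q' L M) :
    D.Concl q q' p p' M L := Or.symm h

/-- fork and a contact of `M` with two further neighbours -/
theorem fork_branch {p p' q q' : D.ι} {L M : Finset D.ι} (du : D.Duo p p' q q' L M)
    (hdis : Disjoint L M) {u v w a b : D.ι} (h : D.Fork u v w a b L)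
    (hP : ({p, p'} : Finset D.ι) = {u, v}) (hc : ∀ s ∈ L, D.Con M s → s = a ∨ s = b)
    {x d c e : D.ι} (hx : x = q ∨ x = q') (hd : d ∈ M) (hcM : c ∈ M) (he : e ∈ M) (hdx : d ≠ x)
    (hcx : c ≠ x) (hex : e ≠ x) (hce : c ≠ e) (hdc : D.Adj d c) (hde : D.Adj d e)
    (hcon : D.Con L d) : False := by
  have aux : ∀ {a b : D.ι}, D.Fork u v w a b L → D.Adj a d → False := by
    intro a b h had
    have hdj : ∀ {t : D.ι}, t ∈ M → t ∉ L := fun {t} ht h => (Finset.disjoint_left.1 hdis h) ht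
    obtain ⟨hu, -, -, -⟩ := of_pair hP
    obtain ⟨S, hS, hL, hM⟩ := Duo.get2 D du hu hx
    refine D.fork_special hS (hL _ h.mv h.uv.symm) (hL _ h.mw h.uw.symm) (hL _ h.mp h.up.symm)
      (hL _ h.mq h.uq.symm) h.Awv h.Awp h.Awq h.vq h.vp h.pq.symm {d} ?_ ?_ ?_ ?_ ?_
    · intro r hr; rw [Finset.mem_singleton] at hr; subst hr; exact hM _ hd hdx
    · rw [Finset.mem_singleton]; exact fun e => hdj hd (e ▸ h.mv)
    · rw [Finset.mem_singleton]; exact fun e => hdj hd (e ▸ h.mq)
    · exact ⟨d, by simp, Or.inl ⟨fun e => hdj hd (e ▸ h.mw), had⟩⟩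
    · intro r hr; rw [Finset.mem_singleton] at hr; subst hr
      right
      refine ⟨⟨a, by simp, had.symm D⟩, Or.inr ⟨c, hM _ hcM hcx, e, hM _ he hex, ?_, ?_, hce, hdc,
        hde⟩⟩
      · simp only [Finset.mem_insert, Finset.mem_singleton, not_or]
        exact ⟨fun e => hdj hcM (e ▸ h.mw), fun e => hdj hcM (e ▸ h.mp), hdc.1.symm⟩
      · simp only [Finset.mem_insert, Finset.mem_singleton, not_or]
        exact ⟨fun e' => hdj he (e' ▸ h.mw), fun e' => hdj he (e' ▸ h.mp), hde.1.symm⟩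
  obtain ⟨s, hs, hds⟩ := hcon
  rcases hc s hs ⟨d, hd, hds.symm D⟩ with rfl | rfl
  · exact aux h (hds.symm D)
  · exact aux (Fork.swap D h) (hds.symm D)

/-- two paths -/
theorem path_path {p p' q q' : D.ι} {L M : Finset D.ι} (du : D.Duo p p' q q' L M)
    (hdis : Disjoint L M) {a b c d e a' b' c' d' e' : D.ι}
    (h : D.Path5 a b c d e c5 (1 / 2) (1 / 2) (1 / 2) L)
    (h' : D.Path5 a' b' c' d' e' c5 (1 / 2) (1 / 2) (1 / 2) M)
    (hc : ∀ s ∈ L, D.Con M s → s = e) (hc' : ∀ s ∈ M, D.Con L s → s = e')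
    (hp : p ≠ d ∧ p ≠ e) (hx : ∃ x, (x = q ∨ x = q') ∧ x ≠ c' ∧ x ≠ d' ∧ x ≠ e') : False := by
  have hdj : ∀ {t : D.ι}, t ∈ M → t ∉ L := fun {t} ht h => (Finset.disjoint_left.1 hdis h) ht
  obtain ⟨s, hs, hsM, t, ht, hst⟩ := D.stmtCON p p' q q' L M du
  have e1 := hc s hs ⟨t, ht, hst⟩
  have e2 := hc' t ht ⟨s, hs, hst.symm D⟩
  subst e1; subst e2
  have hone : ∀ s' ∈ L, ∀ t' ∈ M, D.Adj s' t' → s' = s ∧ t' = t := fun s' hs' t' ht' h =>
    ⟨hc s' hs' ⟨t', ht', h⟩, hc' t' ht' ⟨s', hs', h.symm D⟩⟩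
  have hg : D.g s t = -(1 / 2) := by
    by_contra hne
    obtain ⟨x, hx, hxc, hxd, hxe⟩ := hx
    obtain ⟨S, hS, hL, hM⟩ := Duo.get2 D du (y := p) (Or.inl rfl) hx
    have hle : D.g s t ≤ -(√2 / 2) := by
      rcases hst.simple_or D with h | h
      · exact absurd h hne
      · exact h.1
    have n1 : d ≠ t := fun e => hdj ht (e ▸ h.md)
    have n2 : d ≠ d' := fun e => hdj h'.md (e ▸ h.md)
    have n3 : d ≠ c' := fun e => hdj h'.mc (e ▸ h.md)
    have n4 : s ≠ d' := fun e => hdj h'.md (e ▸ h.me)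
    have n5 : s ≠ c' := fun e => hdj h'.mc (e ▸ h.me)
    exact no_F4t hS (s := d) (q := s) (p := t) (r := d') (t := c') (hL _ h.md hp.1.symm)
      (hL _ h.me hp.2.symm) (hM _ h'.me hxe.symm) (hM _ h'.md hxd.symm) (hM _ h'.mc hxc.symm)
      (h.Ade (by norm_num)) hle (h'.Aed (by norm_num)) (h'.Adc (by norm_num)) (by
        have := h.de; have := h'.de; have := h'.ce; have := h'.cd; have := hst.1
        simp; grind)
  exact D.stmtSIGN L M s t 1 1 hdis h.me h'.me hg hone (by norm_num) (by norm_num) (by norm_num)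
    (D.stmtNEG.2.1 a b c d s L h) (D.stmtNEG.2.1 a' b' c' d' t M h')

theorem both_aux {p p' q q' : D.ι} {L M : Finset D.ι} (du : D.Duo p p' q q' L M)
    (rL : D.Remote p p' L M) (rM : D.Remote q q' M L) (hL : D.RT p p' L M) (hM : D.RT q q' M L) :
    D.Concl p p' q q' L M := by
  classical
  have cV := D.stmtCLSV
  -- contact edges
  obtain ⟨s0, hs0, hs0M, t0, ht0, hst0⟩ := D.stmtCON p p' q q' L M du
  have conL : D.Con M s0 := ⟨t0, ht0, hst0⟩
  have conM : D.Con L t0 := ⟨s0, hs0, hst0.symm D⟩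
  -- general F3 facts: `M` a path with end contact, or (hd), or the cycle
  have F3M : ∀ {a' b' c' d' e' : D.ι}, D.Path5 a' b' c' d' e' c5 (1 / 2) (1 / 2) (1 / 2) M →
      Disjoint L M → (c' = q ∨ c' = q') → d' ≠ q → d' ≠ q' → D.Con L e' →
      D.F3 q q' p p' L M ∨ D.F3 q' q p p' L M := by
    intro a' b' c' d' e' k hdis hc1 hd1 hd2 hcon
    exact D.f3_of hdis rL hc1 k.md k.me hd1 hd2 (k.Acd (by norm_num)) (k.Ade (by norm_num)) hcon
  rcases hL with ⟨u, v, w, a, b, h, hP, hdis, hc⟩ | ⟨a, b, c, d, e, h, hP, hdis, hc⟩ |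
    ⟨a, b, c, d, e, h, hP, hdis, hc⟩ | ⟨a, b, c, d, e, h, hP, hdis, hc, hd⟩ |
    ⟨a, b, c, d, e, h, hP, hdis, hc⟩ | ⟨a, b, c, d, e, h, hP, hcM, hdM, heM⟩
  · -- L fork
    have hdj : ∀ {t : D.ι}, t ∈ M → t ∉ L := fun {t} ht h => (Finset.disjoint_left.1 hdis h) ht
    obtain ⟨hu, hv, hp1, hp2⟩ := of_pair hP
    rcases hM with ⟨u', v', w', a', b', h', hP', -, hc'⟩ | ⟨a', b', c', d', e', h', hP', -, hc'⟩ |
      ⟨a', b', c', d', e', h', hP', -, hc'⟩ | ⟨a', b', c', d', e', h', hP', -, hc', hd'⟩ |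
      ⟨a', b', c', d', e', h', hP', -, hc'⟩ | ⟨a', b', c', d', e', h', hP', hcM', hdM', heM'⟩
    · -- fork - fork
      exfalso
      obtain ⟨hu', hv', -, -⟩ := of_pair hP'
      obtain ⟨S, hS, hLS, hMS⟩ := Duo.get2 D du hu hu'
      have aux : ∀ {a b a' b' : D.ι}, D.Fork u v w a b L → D.Fork u' v' w' a' b' M →
          D.Adj a a' → False := by
        intro a b a' b' h h' haa
        refine D.fork_special hS (hLS _ h.mv h.uv.symm) (hLS _ h.mw h.uw.symm)
          (hLS _ h.mp h.up.symm) (hLS _ h.mq h.uq.symm) h.Awv h.Awp h.Awq h.vq h.vp h.pq.symm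
          {a', w'} ?_ ?_ ?_ ?_ ?_
        · intro r hr; simp only [Finset.mem_insert, Finset.mem_singleton] at hr
          rcases hr with rfl | rfl
          · exact hMS _ h'.mp h'.up.symm
          · exact hMS _ h'.mw h'.uw.symm
        · simp only [Finset.mem_insert, Finset.mem_singleton, not_or]
          exact ⟨fun e => hdj h'.mp (e ▸ h.mv), fun e => hdj h'.mw (e ▸ h.mv)⟩
        · simp only [Finset.mem_insert, Finset.mem_singleton, not_or]
          exact ⟨fun e => hdj h'.mp (e ▸ h.mq), fun e => hdj h'.mw (e ▸ h.mq)⟩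
        · exact ⟨a', by simp, Or.inl ⟨fun e => hdj h'.mp (e ▸ h.mw), haa⟩⟩
        · intro r hr; simp only [Finset.mem_insert, Finset.mem_singleton] at hr
          rcases hr with rfl | rfl
          · left
            exact ⟨a, by simp, w', by simp, fun e => hdj h'.mw (e ▸ h.mp), haa.symm D, h'.Apw⟩
          · right
            refine ⟨⟨a', by simp, h'.Awp⟩, Or.inr ⟨v', hMS _ h'.mv h'.uv.symm, b',
              hMS _ h'.mq h'.uq.symm, ?_, ?_, h'.vq, h'.Awv, h'.Awq⟩⟩
            · simp only [Finset.mem_insert, Finset.mem_singleton, not_or]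
              exact ⟨fun e => hdj h'.mv (e ▸ h.mw), fun e => hdj h'.mv (e ▸ h.mp), h'.vp, h'.vw⟩
            · simp only [Finset.mem_insert, Finset.mem_singleton, not_or]
              exact ⟨fun e => hdj h'.mq (e ▸ h.mw), fun e => hdj h'.mq (e ▸ h.mp), h'.pq.symm,
                h'.wq.symm⟩
      rcases hc s0 hs0 conL with rfl | rfl <;> rcases hc' t0 ht0 conM with rfl | rfl
      · exact aux h h' hst0
      · exact aux h (Fork.swap D h') hst0
      · exact aux (Fork.swap D h) h' hst0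
      · exact aux (Fork.swap D h) (Fork.swap D h') hst0
    · -- fork - a12
      right
      refine ⟨cV.1 M a' b' c' d' e' _ (by norm_num) h', D.five_of hP' h'.vab, ?_⟩
      have hs := hc s0 hs0 conL
      have hws : D.Adj w s0 := by rcases hs with rfl | rfl; exacts [h.Awp, h.Awq]
      have hwp : w ≠ p := by rcases hp1 with e | e <;> rw [e]; exacts [h.uw.symm, h.vw.symm]
      have hwp' : w ≠ p' := by rcases hp2 with e | e <;> rw [e]; exacts [h.uw.symm, h.vw.symm]
      exact D.f3_of hdis.symm rM hv h.mw hs0 hwp hwp' h.Avw hws conL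
    · -- fork - a13
      exfalso
      have hq : q = a' ∨ q = b' ∨ q = c' := by
        rcases hP' with hP' | hP'
        · obtain ⟨-, -, k, -⟩ := of_pair hP'; tauto
        · obtain ⟨-, -, k, -⟩ := of_pair hP'; tauto
      have hqe : e' ≠ q := by
        rcases hq with e | e | e <;> rw [e]
        exacts [h'.ae.symm, h'.be.symm, h'.ce.symm]
      obtain ⟨S, hS, hLS, hMS⟩ := Duo.get2 D du hu (x := q) (Or.inl rfl)
      have hte := hc' t0 ht0 conM
      subst hte
      have aux : ∀ {a b : D.ι}, D.Fork u v w a b L → (∀ s ∈ L, D.Con M s → s = a ∨ s = b) →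
          D.Adj a t0 → False := by
        intro a b h hc hat
        have nw : w ≠ t0 := fun e => hdj ht0 (e ▸ h.mw)
        have na : a ≠ t0 := hat.1
        have hbt : ¬ D.Adj b t0 := by
          intro hbt
          refine core_test' hS (U := {w, a, t0, b}) ?_ ⟨w, by simp⟩ ?_
          · intro r hr; simp only [Finset.mem_insert, Finset.mem_singleton] at hr
            rcases hr with rfl | rfl | rfl | rfl
            · exact hLS _ h.mw h.uw.symm
            · exact hLS _ h.mp h.up.symm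
            · exact hMS _ h'.me hqe
            · exact hLS _ h.mq h.uq.symm
          · intro r hr; simp only [Finset.mem_insert, Finset.mem_singleton] at hr
            left
            rcases hr with rfl | rfl | rfl | rfl
            · exact ⟨a, by simp, b, by simp, h.pq, h.Awp, h.Awq⟩
            · exact ⟨w, by simp, t0, by simp, nw, h.Apw, hat⟩
            · exact ⟨a, by simp, b, by simp, h.pq, hat.symm D, hbt.symm D⟩
            · exact ⟨w, by simp, t0, by simp, nw, h.Aqw, hbt⟩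
        have hsa : D.g a t0 = -(1 / 2) := by
          by_contra hne
          refine D.fork_special hS (hLS _ h.mv h.uv.symm) (hLS _ h.mw h.uw.symm)
            (hLS _ h.mp h.up.symm) (hLS _ h.mq h.uq.symm) h.Awv h.Awp h.Awq h.vq h.vp h.pq.symm ∅
            (by simp) (by simp) (by simp) ⟨w, by simp, Or.inr (Or.inl ⟨t0, hMS _ h'.me hqe, ?_,
              D.heavy_of hat hne⟩)⟩ (by simp)
          simp [nw.symm, na.symm]
        refine D.stmtSIGN L M a t0 5 1 hdis h.mp h'.me hsa ?_ (by norm_num) (by norm_num)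
          (by norm_num) ((D.stmtNEG.1 u v w a b L h).1) (D.stmtNEG.2.1 a' b' c' d' t0 M h')
        intro s hs t ht hst
        have e2 := hc' t ht ⟨s, hs, hst.symm D⟩
        subst e2
        rcases hc s hs ⟨t, ht, hst⟩ with rfl | rfl
        · exact ⟨rfl, rfl⟩
        · exact absurd hst hbt
      rcases hc s0 hs0 conL with rfl | rfl
      · exact aux h hc hst0
      · exact aux (Fork.swap D h) (fun s hs h => (hc s hs h).symm) hst0
    · -- fork - bx
      obtain ⟨ha', hb', -, -⟩ := of_pair hP'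
      exact (D.fork_branch du hdis h hP hc ha' h'.md h'.mc h'.me h'.ad.symm h'.ac.symm h'.ae.symm
        h'.ce (h'.Adc (by norm_num)) (h'.Ade (by norm_num)) hd').elim
    · -- fork - c4
      obtain ⟨ha', hb', -, -⟩ := of_pair hP'
      have hte := hc' t0 ht0 conM
      subst hte
      exact (D.fork_branch du hdis h hP hc ha' h'.md h'.mc h'.me h'.ad.symm h'.ac.symm h'.ae.symm
        h'.ce h'.Adc h'.Ade conM).elim
    · exact absurd heM' (hdj h'.me)
  · -- L = a12
    have hdj : ∀ {t : D.ι}, t ∈ M → t ∉ L := fun {t} ht h => (Finset.disjoint_left.1 hdis h) ht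
    obtain ⟨ha, hb, hp1, hp2⟩ := of_pair hP
    have cL : D.cls L = 4 := cV.1 L a b c d e _ (by norm_num) h
    have f5 : D.Five {p, p'} := D.five_of hP h.vab
    have hse := hc s0 hs0 conL
    have hpd : p ≠ d ∧ p ≠ e := by
      rcases hp1 with e | e <;> rw [e]
      · exact ⟨h.ad, h.ae⟩
      · exact ⟨h.bd, h.be⟩
    rcases hM with ⟨u', v', w', a', b', h', hP', -, hc'⟩ | ⟨a', b', c', d', e', h', hP', -, hc'⟩ |
      ⟨a', b', c', d', e', h', hP', -, hc'⟩ | ⟨a', b', c', d', e', h', hP', -, hc', hd'⟩ |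
      ⟨a', b', c', d', e', h', hP', -, hc'⟩ | ⟨a', b', c', d', e', h', hP', hcM', hdM', heM'⟩
    · -- a12 - fork: F3 from M
      left
      refine ⟨cL, f5, ?_⟩
      obtain ⟨hu', hv', hq1, hq2⟩ := of_pair hP'
      have ht := hc' t0 ht0 conM
      have hwt : D.Adj w' t0 := by rcases ht with rfl | rfl; exacts [h'.Awp, h'.Awq]
      have hwq : w' ≠ q := by rcases hq1 with e | e <;> rw [e]; exacts [h'.uw.symm, h'.vw.symm]
      have hwq' : w' ≠ q' := by rcases hq2 with e | e <;> rw [e]; exacts [h'.uw.symm, h'.vw.symm]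
      exact D.f3_of hdis rL hv' h'.mw ht0 hwq hwq' h'.Avw hwt conM
    · -- a12 - a12
      exfalso
      obtain ⟨ha', -, -, -⟩ := of_pair hP'
      exact D.path_path du hdis h h' hc hc' hpd ⟨a', ha', h'.ac, h'.ad, h'.ae⟩
    · -- a12 - a13
      left
      refine ⟨cL, f5, ?_⟩
      have hte := hc' t0 ht0 conM
      subst hte
      have k : (c' = q ∨ c' = q') ∧ d' ≠ q ∧ d' ≠ q' := by
        rcases hP' with hP' | hP'
        · obtain ⟨-, k2, k3, k4⟩ := of_pair hP'
          refine ⟨k2, ?_, ?_⟩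
          · rcases k3 with e | e <;> rw [e]; exacts [h'.ad.symm, h'.cd.symm]
          · rcases k4 with e | e <;> rw [e]; exacts [h'.ad.symm, h'.cd.symm]
        · obtain ⟨-, k2, k3, k4⟩ := of_pair hP'
          refine ⟨k2, ?_, ?_⟩
          · rcases k3 with e | e <;> rw [e]; exacts [h'.bd.symm, h'.cd.symm]
          · rcases k4 with e | e <;> rw [e]; exacts [h'.bd.symm, h'.cd.symm]
      exact F3M h' hdis k.1 k.2.1 k.2.2 conM
    · -- a12 - bx
      left
      refine ⟨cL, f5, ?_⟩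
      obtain ⟨ha', hb', hq1, hq2⟩ := of_pair hP'
      have k1 : c' ≠ q := by rcases hq1 with e | e <;> rw [e]; exacts [h'.ac.symm, h'.bc.symm]
      have k2 : c' ≠ q' := by rcases hq2 with e | e <;> rw [e]; exacts [h'.ac.symm, h'.bc.symm]
      exact D.f3_of hdis rL hb' h'.mc h'.md k1 k2 (h'.Abc (by norm_num)) (h'.Acd (by norm_num)) hd'
    · -- a12 - c4
      left
      refine ⟨cL, f5, ?_⟩
      obtain ⟨ha', hb', hq1, hq2⟩ := of_pair hP'
      have hte := hc' t0 ht0 conM
      subst hte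
      have k1 : e' ≠ q := by rcases hq1 with e | e <;> rw [e]; exacts [h'.ae.symm, h'.be.symm]
      have k2 : e' ≠ q' := by rcases hq2 with e | e <;> rw [e]; exacts [h'.ae.symm, h'.be.symm]
      exact D.f3_of hdis rL ha' h'.me h'.md k1 k2 h'.Aae h'.Aed conM
    · exact absurd heM' (hdj h'.me)
  · -- L = a13
    have hdj : ∀ {t : D.ι}, t ∈ M → t ∉ L := fun {t} ht h => (Finset.disjoint_left.1 hdis h) ht
    have hse := hc s0 hs0 conL
    subst hse
    have hc13 : (c = p ∨ c = p') ∧ d ≠ p ∧ d ≠ p' := by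
      rcases hP with hP | hP
      · obtain ⟨-, k2, k3, k4⟩ := of_pair hP
        refine ⟨k2, ?_, ?_⟩
        · rcases k3 with e | e <;> rw [e]; exacts [h.ad.symm, h.cd.symm]
        · rcases k4 with e | e <;> rw [e]; exacts [h.ad.symm, h.cd.symm]
      · obtain ⟨-, k2, k3, k4⟩ := of_pair hP
        refine ⟨k2, ?_, ?_⟩
        · rcases k3 with e | e <;> rw [e]; exacts [h.bd.symm, h.cd.symm]
        · rcases k4 with e | e <;> rw [e]; exacts [h.bd.symm, h.cd.symm]
    have hpe : p ≠ s0 := (Duo.con_ne D du hs0 ht0 hst0).1.symm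
    have hpd : p ≠ d ∧ p ≠ s0 := ⟨hc13.2.1.symm, hpe⟩
    rcases hM with ⟨u', v', w', a', b', h', hP', -, hc'⟩ | ⟨a', b', c', d', e', h', hP', -, hc'⟩ |
      ⟨a', b', c', d', e', h', hP', -, hc'⟩ | ⟨a', b', c', d', e', h', hP', -, hc', hd'⟩ |
      ⟨a', b', c', d', e', h', hP', -, hc'⟩ | ⟨a', b', c', d', e', h', hP', hcM', hdM', heM'⟩
    · -- a13 - fork
      exfalso
      obtain ⟨hu', -, -, -⟩ := of_pair hP'
      obtain ⟨S, hS, hLS, hMS⟩ := Duo.get2 D du (y := p) (Or.inl rfl) hu'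
      have aux : ∀ {a' b' : D.ι}, D.Fork u' v' w' a' b' M →
          (∀ s ∈ M, D.Con L s → s = a' ∨ s = b') → D.Adj a' s0 → False := by
        intro a' b' h' hc' hat
        have nw : w' ≠ s0 := fun e => hdj h'.mw (e ▸ hs0)
        have na : a' ≠ s0 := hat.1
        have hbt : ¬ D.Adj b' s0 := by
          intro hbt
          refine core_test' hS (U := {w', a', s0, b'}) ?_ ⟨w', by simp⟩ ?_
          · intro r hr; simp only [Finset.mem_insert, Finset.mem_singleton] at hr
            rcases hr with rfl | rfl | rfl | rfl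
            · exact hMS _ h'.mw h'.uw.symm
            · exact hMS _ h'.mp h'.up.symm
            · exact hLS _ hs0 hpe.symm
            · exact hMS _ h'.mq h'.uq.symm
          · intro r hr; simp only [Finset.mem_insert, Finset.mem_singleton] at hr
            left
            rcases hr with rfl | rfl | rfl | rfl
            · exact ⟨a', by simp, b', by simp, h'.pq, h'.Awp, h'.Awq⟩
            · exact ⟨w', by simp, s0, by simp, nw, h'.Apw, hat⟩
            · exact ⟨a', by simp, b', by simp, h'.pq, hat.symm D, hbt.symm D⟩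
            · exact ⟨w', by simp, s0, by simp, nw, h'.Aqw, hbt⟩
        have hsa : D.g a' s0 = -(1 / 2) := by
          by_contra hne
          refine D.fork_special hS (hMS _ h'.mv h'.uv.symm) (hMS _ h'.mw h'.uw.symm)
            (hMS _ h'.mp h'.up.symm) (hMS _ h'.mq h'.uq.symm) h'.Awv h'.Awp h'.Awq h'.vq h'.vp
            h'.pq.symm ∅
            (by simp) (by simp) (by simp) ⟨w', by simp, Or.inr (Or.inl ⟨s0, hLS _ hs0 hpe.symm, ?_,
              D.heavy_of hat hne⟩)⟩ (by simp)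
          simp [nw.symm, na.symm]
        refine D.stmtSIGN M L a' s0 5 1 hdis.symm h'.mp h.me hsa ?_ (by norm_num) (by norm_num)
          (by norm_num) ((D.stmtNEG.1 u' v' w' a' b' M h').1) (D.stmtNEG.2.1 a b c d s0 L h)
        intro s hs t ht hst
        have e2 := hc t ht ⟨s, hs, hst.symm D⟩
        subst e2
        rcases hc' s hs ⟨t, ht, hst⟩ with rfl | rfl
        · exact ⟨rfl, rfl⟩
        · exact absurd hst hbt
      rcases hc' t0 ht0 conM with rfl | rfl
      · exact aux h' hc' (hst0.symm D)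
      · exact aux (Fork.swap D h') (fun s hs h => (hc' s hs h).symm) (hst0.symm D)
    · -- a13 - a12
      right
      obtain ⟨ha', hb', -, -⟩ := of_pair hP'
      refine ⟨cV.1 M a' b' c' d' e' _ (by norm_num) h', D.five_of hP' h'.vab, ?_⟩
      exact D.f3_of hdis.symm rM hc13.1 h.md h.me hc13.2.1 hc13.2.2 (h.Acd (by norm_num))
        (h.Ade (by norm_num)) conL
    · -- a13 - a13
      exfalso
      have hx : ∃ x, (x = q ∨ x = q') ∧ x ≠ c' ∧ x ≠ d' ∧ x ≠ e' := by
        rcases hP' with hP' | hP'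
        · obtain ⟨k, -, -, -⟩ := of_pair hP'
          exact ⟨a', k, h'.ac, h'.ad, h'.ae⟩
        · obtain ⟨k, -, -, -⟩ := of_pair hP'
          exact ⟨b', k, h'.bc, h'.bd, h'.be⟩
      exact D.path_path du hdis h h' hc hc' hpd hx
    · -- a13 - bx
      right
      obtain ⟨ha', hb', -, -⟩ := of_pair hP'
      refine ⟨cV.1 M a' b' c' d' e' _ (by norm_num) h', D.five_of hP' h'.vab, ?_⟩
      exact D.f3_of hdis.symm rM hc13.1 h.md h.me hc13.2.1 hc13.2.2 (h.Acd (by norm_num))
        (h.Ade (by norm_num)) conL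
    · -- a13 - c4
      exfalso
      have hte := hc' t0 ht0 conM
      subst hte
      obtain ⟨ha', hb', -, -⟩ := of_pair hP'
      obtain ⟨S, hS, hLS, hMS⟩ := Duo.get2 D du (y := p) (Or.inl rfl) ha'
      have hg : D.g s0 t0 = -(1 / 2) := by
        by_contra hne
        have hh := D.heavy_of hst0 hne
        rw [D.symm] at hh
        exact no_heavy3 hS (p := t0) (q := s0) (r := c') (s := e') (hMS _ h'.md h'.ad.symm)
          (hLS _ hs0 hpe.symm) (hMS _ h'.mc h'.ac.symm) (hMS _ h'.me h'.ae.symm)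
          (fun e => hdj h'.mc (e ▸ hs0)) (fun e => hdj h'.me (e ▸ hs0)) h'.ce hh
          hst0.1.symm h'.Adc h'.Ade
      exact D.stmtSIGN L M s0 t0 1 1 hdis h.me h'.md hg
        (fun s hs t ht hst => ⟨hc s hs ⟨t, ht, hst⟩, hc' t ht ⟨s, hs, hst.symm D⟩⟩)
        (by norm_num) (by norm_num) (by norm_num)
        (D.stmtNEG.2.1 a b c d s0 L h) (D.stmtNEG.2.2.1 a' b' c' t0 e' M h')
    · exact absurd heM' (hdj h'.me)
  · -- L = bx
    have hdj : ∀ {t : D.ι}, t ∈ M → t ∉ L := fun {t} ht h => (Finset.disjoint_left.1 hdis h) ht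
    obtain ⟨ha, hb, hp1, hp2⟩ := of_pair hP
    have cL : D.cls L = 4 := cV.1 L a b c d e _ (by norm_num) h
    have f5 : D.Five {p, p'} := D.five_of hP h.vab
    rcases hM with ⟨u', v', w', a', b', h', hP', -, hc'⟩ | ⟨a', b', c', d', e', h', hP', -, hc'⟩ |
      ⟨a', b', c', d', e', h', hP', -, hc'⟩ | ⟨a', b', c', d', e', h', hP', -, hc', hd'⟩ |
      ⟨a', b', c', d', e', h', hP', -, hc'⟩ | ⟨a', b', c', d', e', h', hP', hcM', hdM', heM'⟩
    · -- bx - fork
      exact (D.fork_branch (Duo.swap D du) hdis.symm h' hP' hc' ha h.md h.mc h.me h.ad.symm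
        h.ac.symm h.ae.symm h.ce (h.Adc (by norm_num)) (h.Ade (by norm_num)) hd).elim
    · -- bx - a12
      right
      refine ⟨cV.1 M a' b' c' d' e' _ (by norm_num) h', D.five_of hP' h'.vab, ?_⟩
      have k1 : c ≠ p := by rcases hp1 with e | e <;> rw [e]; exacts [h.ac.symm, h.bc.symm]
      have k2 : c ≠ p' := by rcases hp2 with e | e <;> rw [e]; exacts [h.ac.symm, h.bc.symm]
      exact D.f3_of hdis.symm rM hb h.mc h.md k1 k2 (h.Abc (by norm_num)) (h.Acd (by norm_num)) hd
    · -- bx - a13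
      left
      refine ⟨cL, f5, ?_⟩
      have hte := hc' t0 ht0 conM
      subst hte
      have k : (c' = q ∨ c' = q') ∧ d' ≠ q ∧ d' ≠ q' := by
        rcases hP' with hP' | hP'
        · obtain ⟨-, k2, k3, k4⟩ := of_pair hP'
          refine ⟨k2, ?_, ?_⟩
          · rcases k3 with e | e <;> rw [e]; exacts [h'.ad.symm, h'.cd.symm]
          · rcases k4 with e | e <;> rw [e]; exacts [h'.ad.symm, h'.cd.symm]
        · obtain ⟨-, k2, k3, k4⟩ := of_pair hP'
          refine ⟨k2, ?_, ?_⟩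
          · rcases k3 with e | e <;> rw [e]; exacts [h'.bd.symm, h'.cd.symm]
          · rcases k4 with e | e <;> rw [e]; exacts [h'.bd.symm, h'.cd.symm]
      exact F3M h' hdis k.1 k.2.1 k.2.2 conM
    · -- bx - bx
      left
      refine ⟨cL, f5, ?_⟩
      obtain ⟨ha', hb', hq1, hq2⟩ := of_pair hP'
      have k1 : c' ≠ q := by rcases hq1 with e | e <;> rw [e]; exacts [h'.ac.symm, h'.bc.symm]
      have k2 : c' ≠ q' := by rcases hq2 with e | e <;> rw [e]; exacts [h'.ac.symm, h'.bc.symm]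
      exact D.f3_of hdis rL hb' h'.mc h'.md k1 k2 (h'.Abc (by norm_num)) (h'.Acd (by norm_num)) hd'
    · -- bx - c4
      left
      refine ⟨cL, f5, ?_⟩
      obtain ⟨ha', hb', hq1, hq2⟩ := of_pair hP'
      have hte := hc' t0 ht0 conM
      subst hte
      have k1 : e' ≠ q := by rcases hq1 with e | e <;> rw [e]; exacts [h'.ae.symm, h'.be.symm]
      have k2 : e' ≠ q' := by rcases hq2 with e | e <;> rw [e]; exacts [h'.ae.symm, h'.be.symm]
      exact D.f3_of hdis rL ha' h'.me h'.md k1 k2 h'.Aae h'.Aed conM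
    · exact absurd heM' (hdj h'.me)
  · -- L = c4
    have hdj : ∀ {t : D.ι}, t ∈ M → t ∉ L := fun {t} ht h => (Finset.disjoint_left.1 hdis h) ht
    obtain ⟨ha, hb, hp1, hp2⟩ := of_pair hP
    have hse := hc s0 hs0 conL
    subst hse
    rcases hM with ⟨u', v', w', a', b', h', hP', -, hc'⟩ | ⟨a', b', c', d', e', h', hP', -, hc'⟩ |
      ⟨a', b', c', d', e', h', hP', -, hc'⟩ | ⟨a', b', c', d', e', h', hP', -, hc', hd'⟩ |
      ⟨a', b', c', d', e', h', hP', -, hc'⟩ | ⟨a', b', c', d', e', h', hP', hcM', hdM', heM'⟩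
    · -- c4 - fork
      exact (D.fork_branch (Duo.swap D du) hdis.symm h' hP' hc' ha h.md h.mc h.me h.ad.symm
        h.ac.symm h.ae.symm h.ce h.Adc h.Ade conL).elim
    · -- c4 - a12
      right
      refine ⟨cV.1 M a' b' c' d' e' _ (by norm_num) h', D.five_of hP' h'.vab, ?_⟩
      have k1 : e ≠ p := by rcases hp1 with e | e <;> rw [e]; exacts [h.ae.symm, h.be.symm]
      have k2 : e ≠ p' := by rcases hp2 with e | e <;> rw [e]; exacts [h.ae.symm, h.be.symm]
      exact D.f3_of hdis.symm rM ha h.me h.md k1 k2 h.Aae h.Aed conL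
    · -- c4 - a13
      exfalso
      have hte := hc' t0 ht0 conM
      subst hte
      have hqe : q ≠ t0 := (Duo.con_ne D du hs0 ht0 hst0).2.2.1.symm
      obtain ⟨S, hS, hLS, hMS⟩ := Duo.get2 D du ha (x := q) (Or.inl rfl)
      have hg : D.g s0 t0 = -(1 / 2) := by
        by_contra hne
        have hh := D.heavy_of hst0 hne
        exact no_heavy3 hS (p := s0) (q := t0) (r := c) (s := e) (hLS _ h.md h.ad.symm)
          (hMS _ ht0 hqe.symm) (hLS _ h.mc h.ac.symm) (hLS _ h.me h.ae.symm)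
          (fun e => hdj ht0 (e ▸ h.mc)) (fun e' => hdj ht0 (e' ▸ h.me)) h.ce hh
          hst0.1 h.Adc h.Ade
      exact D.stmtSIGN L M s0 t0 1 1 hdis h.md h'.me hg
        (fun s hs t ht hst => ⟨hc s hs ⟨t, ht, hst⟩, hc' t ht ⟨s, hs, hst.symm D⟩⟩)
        (by norm_num) (by norm_num) (by norm_num)
        (D.stmtNEG.2.2.1 a b c s0 e L h) (D.stmtNEG.2.1 a' b' c' d' t0 M h')
    · -- c4 - bx
      right
      refine ⟨cV.1 M a' b' c' d' e' _ (by norm_num) h', D.five_of hP' h'.vab, ?_⟩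
      have k1 : e ≠ p := by rcases hp1 with e | e <;> rw [e]; exacts [h.ae.symm, h.be.symm]
      have k2 : e ≠ p' := by rcases hp2 with e | e <;> rw [e]; exacts [h.ae.symm, h.be.symm]
      exact D.f3_of hdis.symm rM ha h.me h.md k1 k2 h.Aae h.Aed conL
    · -- c4 - c4
      exfalso
      have hte := hc' t0 ht0 conM
      subst hte
      obtain ⟨ha', hb', -, -⟩ := of_pair hP'
      obtain ⟨S, hS, hLS, hMS⟩ := Duo.get2 D du ha ha'
      refine core_test' hS (U := {s0, t0}) ?_ ⟨s0, by simp⟩ ?_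
      · intro r hr; simp only [Finset.mem_insert, Finset.mem_singleton] at hr
        rcases hr with rfl | rfl
        · exact hLS _ h.md h.ad.symm
        · exact hMS _ h'.md h'.ad.symm
      · intro r hr; simp only [Finset.mem_insert, Finset.mem_singleton] at hr
        right
        rcases hr with rfl | rfl
        · refine ⟨⟨t0, by simp, hst0⟩, Or.inr ⟨c, hLS _ h.mc h.ac.symm, e, hLS _ h.me h.ae.symm,
            ?_, ?_, h.ce, h.Adc, h.Ade⟩⟩
          · simp only [Finset.mem_insert, Finset.mem_singleton, not_or]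
            exact ⟨h.cd, fun e => hdj ht0 (e ▸ h.mc)⟩
          · simp only [Finset.mem_insert, Finset.mem_singleton, not_or]
            exact ⟨h.de.symm, fun e' => hdj ht0 (e' ▸ h.me)⟩
        · refine ⟨⟨s0, by simp, hst0.symm D⟩, Or.inr ⟨c', hMS _ h'.mc h'.ac.symm, e',
            hMS _ h'.me h'.ae.symm, ?_, ?_, h'.ce, h'.Adc, h'.Ade⟩⟩
          · simp only [Finset.mem_insert, Finset.mem_singleton, not_or]
            exact ⟨fun e => hdj h'.mc (e ▸ h.md), h'.cd⟩
          · simp only [Finset.mem_insert, Finset.mem_singleton, not_or]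
            exact ⟨fun e => hdj h'.me (e ▸ h.md), h'.de.symm⟩
    · exact absurd heM' (hdj h'.me)
  · -- L = ap
    have heL := h.me
    rcases hM with ⟨u', v', w', a', b', h', hP', hd', hc'⟩ | ⟨a', b', c', d', e', h', hP', hd', hc'⟩ |
      ⟨a', b', c', d', e', h', hP', hd', hc'⟩ | ⟨a', b', c', d', e', h', hP', hd', hc', hd''⟩ |
      ⟨a', b', c', d', e', h', hP', hd', hc'⟩ | ⟨a', b', c', d', e', h', hP', hcM', hdM', heM'⟩
    · exact absurd heL (Finset.disjoint_left.1 hd' heM)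
    · exact absurd heL (Finset.disjoint_left.1 hd' heM)
    · exact absurd heL (Finset.disjoint_left.1 hd' heM)
    · exact absurd heL (Finset.disjoint_left.1 hd' heM)
    · exact absurd heL (Finset.disjoint_left.1 hd' heM)
    · right
      refine ⟨cV.1 M a' b' c' d' e' _ (by norm_num) h', D.five_of hP' h'.vab, ?_⟩
      obtain ⟨ha, hb, hp1, hp2⟩ := of_pair hP
      have k1 : c ≠ p := by rcases hp1 with e | e <;> rw [e]; exacts [h.ac.symm, h.bc.symm]
      have k2 : c ≠ p' := by rcases hp2 with e | e <;> rw [e]; exacts [h.ac.symm, h.bc.symm]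
      have hq1 : ¬ D.Adj e q := fun k => du.nQ e heL (k.symm D)
      have hq2 : ¬ D.Adj e q' := fun k => du.nQ' e heL (k.symm D)
      rcases hb with rfl | rfl
      · exact Or.inl ⟨c, h.mc, d, h.md, hcM, hdM, k1, k2, h.Abc (by norm_num),
          h.Acd (by norm_num), e, heM, h.Ade (by norm_num), hq1, hq2⟩
      · exact Or.inr ⟨c, h.mc, d, h.md, hcM, hdM, k2, k1, h.Abc (by norm_num),
          h.Acd (by norm_num), e, heM, h.Ade (by norm_num), hq1, hq2⟩

theorem stmtBOTH : D.StmtBOTH := fun _ _ _ _ _ _ du rL rM hL hM => D.both_aux du rL rM hL hM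

/-- **The D level**, given the classification of the Lannér sets. -/
theorem stmtD_of_cls (hcls : D.StmtCLS) : D.StmtD :=
  D.stmtD_of hcls (D.stmtREMB hcls) (D.stmtREM4 hcls) D.stmtREMF D.stmtREMP D.stmtREMC D.stmtCLSV
    (D.stmtFTOUCH hcls) D.stmtBOTH

end CoxData

end MP345
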