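import Mathlib
import Pool.Agent.Work.MP_345ef2_gt.T_FIVE

/-!
# Trees (MP_345ef2_gt, T level): block GEN
-/

namespace MP345

open Finset

variable {n : ℕ}

namespace CoxData

variable (D : CoxData n)

open scoped Classical in
theorem nb_union (A B : Finset D.ι) (x : D.ι) : D.nb (A ∪ B) x = D.nb A x ∪ D.nb B x := by
  unfold nb
  rw [Finset.filter_union]

open scoped Classical in
theorem ds_union {A B : Finset D.ι} (h : Disjoint A B) :
    D.ds (A ∪ B) = D.ds A + D.ds B + 2 * ∑ b ∈ B, (D.nb A b).card := by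
  have h1 : ∀ x, (D.nb (A ∪ B) x).card = (D.nb A x).card + (D.nb B x).card := by
    intro x
    rw [D.nb_union, Finset.card_union_of_disjoint]
    exact Finset.disjoint_of_subset_left (Finset.filter_subset _ _)
      (Finset.disjoint_of_subset_right (Finset.filter_subset _ _) h)
  have h2 : ∑ x ∈ A, (D.nb B x).card = ∑ b ∈ B, (D.nb A b).card := by
    simp only [Finset.card_eq_sum_ones]
    refine Finset.sum_comm' ?_
    intro x y
    simp only [mem_nb]
    constructor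
    · rintro ⟨h1, h2, h3⟩; exact ⟨⟨h1, h3.symm D⟩, h2⟩
    · rintro ⟨⟨h1, h2⟩, h3⟩; exact ⟨h1, h3, h2.symm D⟩
  unfold ds
  rw [Finset.sum_union h]
  simp only [h1, Finset.sum_add_distrib]
  rw [h2]
  ring

/-- attaching nodes with at least one neighbour to a tree, in a positive definite set -/
theorem attach {V N : Finset D.ι} (hpd : PD D.g (V ∪ N)) (hd : Disjoint V N)
    (ht : D.TC V) (h : ∀ m ∈ N, ∃ v ∈ V, D.Adj m v) :
    D.TC (V ∪ N) ∧ (∀ m ∈ N, (D.nb V m).card = 1) ∧ (∀ m ∈ N, ∀ m' ∈ N, ¬ D.Adj m m') := by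
  classical
  have h1 := D.ds_union hd
  have hne : (V ∪ N).Nonempty := ht.1.mono Finset.subset_union_left
  have h2 := D.ds_le hpd hne
  have h3 : (V ∪ N).card = V.card + N.card := Finset.card_union_of_disjoint hd
  have h4 : ∀ m ∈ N, 1 ≤ (D.nb V m).card := by
    intro m hm
    obtain ⟨v, hv, hmv⟩ := h m hm
    exact Finset.card_pos.2 ⟨v, (mem_nb D).2 ⟨hv, hmv⟩⟩
  have h5 : N.card ≤ ∑ m ∈ N, (D.nb V m).card := by
    rw [Finset.card_eq_sum_ones]
    exact Finset.sum_le_sum h4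
  have h6 := ht.2
  refine ⟨⟨hne, by omega⟩, ?_, ?_⟩
  · intro m hm
    by_contra hne1
    have h7 : N.card < ∑ m ∈ N, (D.nb V m).card := by
      rw [Finset.card_eq_sum_ones]
      refine Finset.sum_lt_sum h4 ⟨m, hm, ?_⟩
      have := h4 m hm
      omega
    omega
  · intro m hm m' hm' hmm
    have h7 : 1 ≤ D.ds N := by
      unfold ds
      have : 1 ≤ (D.nb N m).card := Finset.card_pos.2 ⟨m', (mem_nb D).2 ⟨hm', hmm⟩⟩
      exact this.trans (Finset.single_le_sum (f := fun x => (D.nb N x).card)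
        (fun _ _ => Nat.zero_le _) hm)
    omega

/-- the number of leaves of a tree -/
theorem leaves_le {U A : Finset D.ι} (hU : PD D.g U) (ht : D.TC U) (hA : A ⊆ U)
    (h : ∀ x ∈ A, (D.nb U x).card = 1) :
    A.card ≤ 3 ∧ ((∀ x ∈ U, (D.nb U x).card ≤ 2) → A.card ≤ 2) := by
  classical
  obtain ⟨_, h3, h1⟩ := D.stmtTREE U hU ht
  have h4 : A.card ≤ (U.filter fun x => (D.nb U x).card = 1).card :=
    Finset.card_le_card fun x hx => Finset.mem_filter.2 ⟨hA hx, h x hx⟩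
  refine ⟨by omega, fun h2 => ?_⟩
  have h5 : (U.filter fun x => (D.nb U x).card = 3) = ∅ := by
    rw [Finset.filter_eq_empty_iff]
    intro x hx h5
    have := h2 x hx
    omega
  rw [h5] at h1
  simp only [Finset.card_empty] at h1
  omega

theorem nb_eq_left {A B : Finset D.ι} {x : D.ι} (h : ∀ b ∈ B, ¬ D.Adj x b) :
    D.nb (A ∪ B) x = D.nb A x := by
  classical
  ext y
  rw [mem_nb, mem_nb, Finset.mem_union]
  constructor
  · rintro ⟨h1 | h1, h2⟩
    · exact ⟨h1, h2⟩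
    · exact absurd h2 (h y h1)
  · rintro ⟨h1, h2⟩; exact ⟨Or.inl h1, h2⟩

theorem nb_eq_right {A B : Finset D.ι} {x : D.ι} (h : ∀ b ∈ A, ¬ D.Adj x b) :
    D.nb (A ∪ B) x = D.nb B x := by
  rw [Finset.union_comm]; exact D.nb_eq_left h

theorem stmtGEN : D.StmtGEN := by
  classical
  intro S V N1 N2 H
  have hd12 : Disjoint (V ∪ N1) N2 := Finset.disjoint_union_left.2 ⟨H.d2, H.d3⟩
  have pd1 : PD D.g (V ∪ N1) := H.pd.mono (Finset.union_subset H.sV H.s1)
  have pd2 : PD D.g (V ∪ N1 ∪ N2) :=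
    H.pd.mono (Finset.union_subset (Finset.union_subset H.sV H.s1) H.s2)
  obtain ⟨t1, e1, f1⟩ := D.attach pd1 H.d1 H.tc H.h1
  obtain ⟨t2, e2, f2⟩ := D.attach pd2 hd12 t1 (fun x hx => by
    obtain ⟨m, hm, hxm⟩ := H.h2 x hx
    exact ⟨m, Finset.mem_union_right _ hm, hxm⟩)
  -- degrees
  have g1 : ∀ m ∈ N1, (D.nb (V ∪ N1) m).card = 1 := fun m hm => by
    rw [D.nb_eq_left (f1 m hm)]; exact e1 m hm
  have g2 : ∀ x ∈ N2, (D.nb (V ∪ N1 ∪ N2) x).card = 1 := fun x hx => by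
    rw [D.nb_eq_left (f2 x hx)]; exact e2 x hx
  have g3 : ∀ x ∈ N2, (D.nb N1 x).card = 1 := fun x hx => by
    have := e2 x hx
    rwa [D.nb_eq_right (H.h3 x hx)] at this
  have gV : ∀ z ∈ V, D.nb (V ∪ N1 ∪ N2) z = D.nb (V ∪ N1) z := fun z hz =>
    D.nb_eq_left fun x hx h => H.h3 x hx z hz (h.symm D)
  -- protected nodes
  have hprot : ∀ y, D.Prot V N1 y → (D.nb (V ∪ N1) y).card = 1 ∧
      (D.nb (V ∪ N1 ∪ N2) y).card = 1 := by
    intro y hy
    obtain ⟨hyV, h2V, hy1, hyN⟩ := hy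
    have h1 := D.deg_pos (H.pd.mono H.sV) H.tc h2V hyV
    have h2 : (D.nb (V ∪ N1) y).card = 1 := by
      rw [D.nb_eq_left hyN]; omega
    exact ⟨h2, by rw [gV y hyV]; exact h2⟩
  have hL1 := D.leaves_le pd1 t1 (A := N1) Finset.subset_union_right g1
  have hL2 := D.leaves_le pd2 t2 (A := N2) Finset.subset_union_right g2
  have hP1 : ∀ y, D.Prot V N1 y → (insert y N1).card ≤ 3 ∧
      ((∀ x ∈ V ∪ N1, (D.nb (V ∪ N1) x).card ≤ 2) → (insert y N1).card ≤ 2) := by
    intro y hy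
    refine D.leaves_le pd1 t1 ?_ ?_
    · intro z hz
      rcases Finset.mem_insert.1 hz with rfl | hz
      · exact Finset.mem_union_left _ hy.1
      · exact Finset.mem_union_right _ hz
    · intro z hz
      rcases Finset.mem_insert.1 hz with rfl | hz
      · exact (hprot z hy).1
      · exact g1 z hz
  have hP2 : ∀ y, D.Prot V N1 y → (insert y N2).card ≤ 3 ∧
      ((∀ x ∈ V ∪ N1 ∪ N2, (D.nb (V ∪ N1 ∪ N2) x).card ≤ 2) → (insert y N2).card ≤ 2) := by
    intro y hy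
    refine D.leaves_le pd2 t2 ?_ ?_
    · intro z hz
      rcases Finset.mem_insert.1 hz with rfl | hz
      · exact Finset.mem_union_left _ (Finset.mem_union_left _ hy.1)
      · exact Finset.mem_union_right _ hz
    · intro z hz
      rcases Finset.mem_insert.1 hz with rfl | hz
      · exact (hprot z hy).2
      · exact g2 z hz
  have hc1 : ∀ y, D.Prot V N1 y → (insert y N1).card = N1.card + 1 := fun y hy =>
    Finset.card_insert_of_notMem fun h => Finset.disjoint_left.1 H.d1 hy.1 h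
  have hc2 : ∀ y, D.Prot V N1 y → (insert y N2).card = N2.card + 1 := fun y hy =>
    Finset.card_insert_of_notMem fun h => Finset.disjoint_left.1 H.d2 hy.1 h
  refine ⟨t2, e1, f1, g3, hL1.1, hL2.1, ?_, ?_, ?_, ?_⟩
  · -- not (3, 3)
    by_contra hlt
    push Not at hlt
    have hN1 : N1.card = 3 := by have := hL1.1; have := hL2.1; omega
    have hN2 : N2.card = 3 := by have := hL1.1; have := hL2.1; omega
    -- every leaf of `V ∪ N1 ∪ N2` is in `N2`
    have hleaf : ∀ y ∈ V ∪ N1 ∪ N2, (D.nb (V ∪ N1 ∪ N2) y).card ≤ 1 → y ∈ N2 := by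
      intro y hy h1
      by_contra hyn
      have h2U : 2 ≤ (V ∪ N1 ∪ N2).card := by
        have := Finset.card_le_card (Finset.subset_union_right (s₁ := V ∪ N1) (s₂ := N2))
        omega
      have h3 := D.deg_pos pd2 t2 h2U hy
      have h4 := (D.leaves_le pd2 t2 (A := insert y N2) (by
        intro z hz
        rcases Finset.mem_insert.1 hz with rfl | hz
        · exact hy
        · exact Finset.mem_union_right _ hz) (by
        intro z hz
        rcases Finset.mem_insert.1 hz with rfl | hz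
        · omega
        · exact g2 z hz)).1
      rw [Finset.card_insert_of_notMem hyn] at h4
      omega
    -- the branch node of `V ∪ N1`
    obtain ⟨z, hz, hz3⟩ : ∃ z ∈ V ∪ N1, 3 ≤ (D.nb (V ∪ N1) z).card := by
      by_contra hno
      push Not at hno
      have := hL1.2 fun x hx => by have := hno x hx; omega
      omega
    have hzV : z ∈ V := by
      rcases Finset.mem_union.1 hz with h | h
      · exact h
      · have := g1 z h; omega
    have hzU : z ∈ V ∪ N1 ∪ N2 := Finset.mem_union_left _ hz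
    obtain ⟨y1, y2, y3, h1, h2, h3, h12, h13, h23⟩ := Finset.two_lt_card_iff.1
      (show 2 < (D.nb (V ∪ N1) z).card by omega)
    rw [mem_nb] at h1 h2 h3
    have hnext : ∀ y ∈ V ∪ N1, D.Adj z y → ∃ y' ∈ V ∪ N1 ∪ N2, D.Adj y y' ∧ y' ≠ z := by
      intro y hy hzy
      have hyn : y ∉ N2 := fun h => Finset.disjoint_left.1 hd12 hy h
      have : ¬ (D.nb (V ∪ N1 ∪ N2) y).card ≤ 1 := fun h =>
        hyn (hleaf y (Finset.mem_union_left _ hy) h)
      obtain ⟨y', hy', hne⟩ := Finset.exists_mem_ne (by omega : 1 < (D.nb (V ∪ N1 ∪ N2) y).card) z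
      exact ⟨y', ((mem_nb D).1 hy').1, ((mem_nb D).1 hy').2, hne⟩
    obtain ⟨x1, hx1, hyx1, hne1⟩ := hnext y1 h1.1 h1.2
    obtain ⟨x2, hx2, hyx2, hne2⟩ := hnext y2 h2.1 h2.2
    obtain ⟨x3, hx3, hyx3, hne3⟩ := hnext y3 h3.1 h3.2
    have m1 : y1 ∈ V ∪ N1 ∪ N2 := Finset.mem_union_left _ h1.1
    have m2 : y2 ∈ V ∪ N1 ∪ N2 := Finset.mem_union_left _ h2.1
    have m3 : y3 ∈ V ∪ N1 ∪ N2 := Finset.mem_union_left _ h3.1
    -- no triangles
    have tri : ∀ {y x}, y ∈ V ∪ N1 ∪ N2 → x ∈ V ∪ N1 ∪ N2 → D.Adj z y → D.Adj y x → D.Adj z x →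
      False := fun hy hx h h' h'' => no_tri pd2 hzU hy hx h h' h''
    have quad : ∀ {y x y'}, y ∈ V ∪ N1 ∪ N2 → x ∈ V ∪ N1 ∪ N2 → y' ∈ V ∪ N1 ∪ N2 →
        D.Adj z y → D.Adj y x → D.Adj y' x → D.Adj z y' → y ≠ y' → x ≠ z → False := by
      intro y x y' hy hx hy' h h' h'' h3 hne hxz
      exact no_quad pd2 hzU hy hx hy' h h' (h''.symm D) (h3.symm D) hxz.symm hne
    refine no_E6t pd2 hzU m1 hx1 m2 hx2 m3 hx3 h1.2 h2.2 h3.2 hyx1 hyx2 hyx3 ?_
    have a12 : x1 ≠ y2 := by rintro rfl; exact tri m1 hx1 h1.2 hyx1 h2.2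
    have a13 : x1 ≠ y3 := by rintro rfl; exact tri m1 hx1 h1.2 hyx1 h3.2
    have a21 : x2 ≠ y1 := by rintro rfl; exact tri m2 hx2 h2.2 hyx2 h1.2
    have a23 : x2 ≠ y3 := by rintro rfl; exact tri m2 hx2 h2.2 hyx2 h3.2
    have a31 : x3 ≠ y1 := by rintro rfl; exact tri m3 hx3 h3.2 hyx3 h1.2
    have a32 : x3 ≠ y2 := by rintro rfl; exact tri m3 hx3 h3.2 hyx3 h2.2
    have b12 : x1 ≠ x2 := by rintro rfl; exact quad m1 hx1 m2 h1.2 hyx1 hyx2 h2.2 h12 hne1
    have b13 : x1 ≠ x3 := by rintro rfl; exact quad m1 hx1 m3 h1.2 hyx1 hyx3 h3.2 h13 hne1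
    have b23 : x2 ≠ x3 := by rintro rfl; exact quad m2 hx2 m3 h2.2 hyx2 hyx3 h3.2 h23 hne2
    simp only [List.nodup_cons, List.mem_cons, List.not_mem_nil, or_false, not_or,
      not_false_eq_true, List.nodup_nil, and_true]
    exact ⟨⟨h1.2.1, hne1.symm, h2.2.1, hne2.symm, h3.2.1, hne3.symm⟩,
      ⟨hyx1.1, h12, a21.symm, h13, a31.symm⟩, ⟨a12, b12, a13, b13⟩, ⟨hyx2.1, h23, a32.symm⟩,
      ⟨a23, b23⟩, hyx3.1⟩
  · intro y hy
    have h1 := (hP1 y hy).1
    have h2 := (hP2 y hy).1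
    rw [hc1 y hy] at h1
    rw [hc2 y hy] at h2
    omega
  · rintro ⟨a, ha, b, hb, hab⟩
    have H1 := D.stmtHEAVY _ pd1 t1 ⟨a, Finset.mem_union_left _ ha, b, Finset.mem_union_left _ hb,
      hab⟩
    have H2 := D.stmtHEAVY _ pd2 t2 ⟨a, Finset.mem_union_left _ (Finset.mem_union_left _ ha), b,
      Finset.mem_union_left _ (Finset.mem_union_left _ hb), hab⟩
    refine ⟨hL1.2 H1, hL2.2 H2, fun y hy => ?_⟩
    have h1 := (hP1 y hy).2 H1
    have h2 := (hP2 y hy).2 H2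
    rw [hc1 y hy] at h1
    rw [hc2 y hy] at h2
    omega
  · rintro ⟨a, ha, b, hb, hab⟩
    have h := D.stmtFIVE _ pd2 t2 ⟨a, Finset.mem_union_left _ (Finset.mem_union_left _ ha), b,
      Finset.mem_union_left _ (Finset.mem_union_left _ hb), hab⟩
    rw [Finset.card_union_of_disjoint hd12, Finset.card_union_of_disjoint H.d1] at h
    exact h

end CoxData

end MP345
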