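import Mathlib
import Pool.Agent.Work.MP_345ef2_gt.T_GEN
import Pool.Agent.Work.MP_345ef2_gt.T_Lib
import Pool.Agent.Work.MP_345ef2_gt.LAdj

/-!
# Bounds for one pair (MP_345ef2_gt, T level)
-/

namespace MP345

open Finset

variable {n : ℕ}

namespace CoxData

variable (D : CoxData n)

theorem cls_ne_four_h {L : Finset D.ι} (h : L.card ≤ 4) : D.cls L ≠ 4 := by
  classical
  unfold cls
  split_ifs <;> omega

/-- GEN for a tree `V` in `L - b` that contains `L - a - b` -/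
theorem gen_at_h (hcgen : D.StmtCGEN) {T : Finset D.ι} (hT : T ∈ Tsets D.g n) {a b : D.ι}
    (ha : a ∈ Rset D.g T) (hb : b ∈ Rset D.g T) (hab : a ≠ b) {V : Finset D.ι}
    (hV : V ⊆ (D.LM T).erase b) (ht : D.TC V) (hcov : ∀ s ∈ D.LM T, s ≠ a → s ≠ b → s ∈ V) :
    (D.N1 T (D.LM T) {a, b}).card ≤ 3 ∧ (D.N2 T (D.LM T) {a, b}).card ≤ 3 ∧
    (D.N1 T (D.LM T) {a, b}).card + (D.N2 T (D.LM T) {a, b}).card ≤ 5 ∧
    (∀ y, D.Prot V (D.N1 T (D.LM T) {a, b}) y → (D.N1 T (D.LM T) {a, b}).card ≤ 2 ∧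
      (D.N2 T (D.LM T) {a, b}).card ≤ 2) ∧
    ((∃ a ∈ V, ∃ b ∈ V, D.Heavy a b) → (D.N1 T (D.LM T) {a, b}).card ≤ 2 ∧
      (D.N2 T (D.LM T) {a, b}).card ≤ 2 ∧
      ∀ y, D.Prot V (D.N1 T (D.LM T) {a, b}) y → (D.N1 T (D.LM T) {a, b}).card ≤ 1 ∧
        (D.N2 T (D.LM T) {a, b}).card ≤ 1) ∧
    ((∃ a ∈ V, ∃ b ∈ V, D.g a b = -c5) →
      V.card + (D.N1 T (D.LM T) {a, b}).card + (D.N2 T (D.LM T) {a, b}).card ≤ 4) := by
  obtain ⟨h1, h2⟩ := hcgen T hT a ha b hb hab V hV ht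
  obtain ⟨e1, e2⟩ := h2 hcov
  rw [e1, e2] at h1
  obtain ⟨_, _, _, _, g1, g2, g3, g4, g5, g6⟩ := D.stmtGEN _ _ _ _ h1
  exact ⟨g1, g2, g3, g4, g5, g6⟩

/-- `G` for a pair such that all other elements of `L` except those of `E` are adjacent to the
pair -/
theorem N0_sum_le_h (T : Finset D.ι) {a b : D.ι} (ha : a ∈ Rset D.g T) (hb : b ∈ Rset D.g T)
    (E : Finset D.ι)
    (hE : ∀ s ∈ D.LM T, s ≠ a → s ≠ b → ¬ D.Adj s a → ¬ D.Adj s b → s ∈ E) :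
    ∑ x ∈ D.N0 T (D.LM T) {a, b}, (2 - D.cnt T x {a, b}) ≤ ∑ x ∈ E, (2 - D.cnt T x {a, b}) := by
  classical
  refine Finset.sum_le_sum_of_subset fun x hx => ?_
  unfold N0 at hx
  rw [Finset.mem_filter, Finset.mem_sdiff] at hx
  refine hE x hx.1.1 ?_ ?_ (hx.2 a (by simp)) (hx.2 b (by simp))
  · rintro rfl; exact hx.1.2 ha
  · rintro rfl; exact hx.1.2 hb

theorem N1_cnt_h (hctx : D.StmtCTX) {T : Finset D.ι} (hT : T ∈ Tsets D.g n) {a b : D.ι}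
    (hcov : ∀ s ∈ D.LM T, s ≠ a → s ≠ b → D.Adj s a ∨ D.Adj s b) :
    ∑ x ∈ D.N1 T (D.LM T) {a, b}, (2 - D.cnt T x {a, b}) ≤ (D.N1 T (D.LM T) {a, b}).card := by
  classical
  rw [Finset.card_eq_sum_ones]
  refine Finset.sum_le_sum fun m hm => ?_
  unfold N1 at hm
  rw [Finset.mem_filter] at hm
  obtain ⟨hmT, hmL, hmP, s, hs, hms⟩ := hm
  have hsa : s ≠ a := by rintro rfl; exact hmP s (by simp) hms
  have hsb : s ≠ b := by rintro rfl; exact hmP s (by simp) hms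
  have hsT := (hctx T hT).2.2.1 hs
  have h1 : 1 ≤ D.cnt T m {a, b} := by
    rcases hcov s hs hsa hsb with h | h
    · exact cnt_pos (p := a) (by simp) hsT (by simp [hsa, hsb]) (hms.symm D) h
    · exact cnt_pos (p := b) (by simp) hsT (by simp [hsa, hsb]) (hms.symm D) h
  omega

theorem N1_cnt2_h (T : Finset D.ι) {a b : D.ι} :
    ∑ x ∈ D.N1 T (D.LM T) {a, b}, (2 - D.cnt T x {a, b}) ≤
      2 * (D.N1 T (D.LM T) {a, b}).card := by
  classical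
  rw [Finset.card_eq_sum_ones, Finset.mul_sum]
  exact Finset.sum_le_sum fun m hm => by omega

/-- `G` for a covering pair -/
theorem G_le_cov_h (hctx : D.StmtCTX) (hgdec : D.StmtGDEC) {T : Finset D.ι}
    (hT : T ∈ Tsets D.g n) {a b : D.ι} (ha : a ∈ Rset D.g T) (hb : b ∈ Rset D.g T) (hab : a ≠ b)
    (hcls : D.cls (D.LM T) ≠ 4)
    (hcov : ∀ s ∈ D.LM T, s ≠ a → s ≠ b → D.Adj s a ∨ D.Adj s b) :
    D.G T {a, b} ≤ (D.N1 T (D.LM T) {a, b}).card + (D.N2 T (D.LM T) {a, b}).card := by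
  have h1 := (hgdec T hT a ha b hb hab).1 hcls
  have h2 := D.N0_sum_le_h T ha hb ∅ (fun s hs h3 h4 h5 h6 => by
    rcases hcov s hs h3 h4 with h | h
    · exact absurd h h5
    · exact absurd h h6)
  rw [Finset.sum_empty] at h2
  have h3 := D.N1_cnt_h hctx hT hcov
  omega

theorem G_comm_h (T : Finset D.ι) (a b : D.ι) : D.G T {a, b} = D.G T {b, a} := by
  rw [Finset.pair_comm]

/-- an element of `N1` -/
theorem mem_N1_h {T L P : Finset D.ι} {m : D.ι} :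
    m ∈ D.N1 T L P ↔ m ∈ T ∧ m ∉ L ∧ D.NA m P ∧ ∃ s ∈ L, D.Adj m s := by
  classical
  unfold N1; rw [Finset.mem_filter]

theorem mem_N2_h {T L P : Finset D.ι} {x : D.ι} :
    x ∈ D.N2 T L P ↔ x ∈ T ∧ x ∉ L ∧ D.NA x P ∧ D.NA x L ∧ ∃ m ∈ D.N1 T L P, D.Adj x m := by
  classical
  unfold N2; rw [Finset.mem_filter]

open scoped Classical in
/-- the part of `N1` adjacent to `V` -/
noncomputable def N1p_h (T L P V : Finset D.ι) : Finset D.ι :=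
  (D.N1 T L P).filter fun m => ∃ v ∈ V, D.Adj m v

open scoped Classical in
/-- the part of `N2` adjacent to `N1p_h V` -/
noncomputable def N2p_h (T L P V : Finset D.ι) : Finset D.ι :=
  (D.N2 T L P).filter fun x => ∃ m ∈ D.N1 T L P, (∃ v ∈ V, D.Adj m v) ∧ D.Adj x m

/-- GEN for a tree `V` in `L - b` -/
theorem gen_part_h (hcgen : D.StmtCGEN) {T : Finset D.ι} (hT : T ∈ Tsets D.g n) {a b : D.ι}
    (ha : a ∈ Rset D.g T) (hb : b ∈ Rset D.g T) (hab : a ≠ b) {V : Finset D.ι}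
    (hV : V ⊆ (D.LM T).erase b) (ht : D.TC V) :
    (D.N1p_h T (D.LM T) {a, b} V).card ≤ 3 ∧ (D.N2p_h T (D.LM T) {a, b} V).card ≤ 3 ∧
    (D.N1p_h T (D.LM T) {a, b} V).card + (D.N2p_h T (D.LM T) {a, b} V).card ≤ 5 ∧
    (∀ y, D.Prot V (D.N1p_h T (D.LM T) {a, b} V) y → (D.N1p_h T (D.LM T) {a, b} V).card ≤ 2 ∧
      (D.N2p_h T (D.LM T) {a, b} V).card ≤ 2) ∧
    ((∃ a ∈ V, ∃ b ∈ V, D.Heavy a b) → (D.N1p_h T (D.LM T) {a, b} V).card ≤ 2 ∧
      (D.N2p_h T (D.LM T) {a, b} V).card ≤ 2 ∧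
      ∀ y, D.Prot V (D.N1p_h T (D.LM T) {a, b} V) y → (D.N1p_h T (D.LM T) {a, b} V).card ≤ 1 ∧
        (D.N2p_h T (D.LM T) {a, b} V).card ≤ 1) ∧
    ((∃ a ∈ V, ∃ b ∈ V, D.g a b = -c5) →
      V.card + (D.N1p_h T (D.LM T) {a, b} V).card + (D.N2p_h T (D.LM T) {a, b} V).card ≤ 4) := by
  obtain ⟨h1, h2⟩ := hcgen T hT a ha b hb hab V hV ht
  obtain ⟨_, _, _, _, g1, g2, g3, g4, g5, g6⟩ := D.stmtGEN _ _ _ _ h1
  exact ⟨g1, g2, g3, g4, g5, g6⟩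

/-- two parts cover `N1` and `N2` -/
theorem parts_le_h (T : Finset D.ι) {a b : D.ι} {V W : Finset D.ι}
    (hcov : ∀ s ∈ D.LM T, s ≠ a → s ≠ b → s ∈ V ∨ s ∈ W) :
    (D.N1 T (D.LM T) {a, b}).card ≤
      (D.N1p_h T (D.LM T) {a, b} V).card + (D.N1p_h T (D.LM T) {a, b} W).card ∧
    (D.N2 T (D.LM T) {a, b}).card ≤
      (D.N2p_h T (D.LM T) {a, b} V).card + (D.N2p_h T (D.LM T) {a, b} W).card := by
  classical
  have key : ∀ m ∈ D.N1 T (D.LM T) {a, b}, (∃ v ∈ V, D.Adj m v) ∨ (∃ v ∈ W, D.Adj m v) := by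
    intro m hm
    obtain ⟨_, _, hmP, s, hs, hms⟩ := D.mem_N1_h.1 hm
    have hsa : s ≠ a := by rintro rfl; exact hmP s (by simp) hms
    have hsb : s ≠ b := by rintro rfl; exact hmP s (by simp) hms
    rcases hcov s hs hsa hsb with h | h
    · exact Or.inl ⟨s, h, hms⟩
    · exact Or.inr ⟨s, h, hms⟩
  constructor
  · refine (Finset.card_le_card ?_).trans (Finset.card_union_le _ _)
    intro m hm
    rw [Finset.mem_union]
    rcases key m hm with h | h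
    · exact Or.inl (Finset.mem_filter.2 ⟨hm, h⟩)
    · exact Or.inr (Finset.mem_filter.2 ⟨hm, h⟩)
  · refine (Finset.card_le_card ?_).trans (Finset.card_union_le _ _)
    intro x hx
    obtain ⟨_, _, _, _, m, hm, hxm⟩ := D.mem_N2_h.1 hx
    rw [Finset.mem_union]
    rcases key m hm with h | h
    · exact Or.inl (Finset.mem_filter.2 ⟨hx, m, hm, h, hxm⟩)
    · exact Or.inr (Finset.mem_filter.2 ⟨hx, m, hm, h, hxm⟩)

/-- an element of the pair that is an end of `V` is protected -/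
theorem prot_of_h {T L P V N : Finset D.ι} {y z : D.ι} (hN : N ⊆ D.N1 T L P) (hyP : y ∈ P)
    (hyV : y ∈ V) (h2 : 2 ≤ V.card) (h1 : ∀ v ∈ V, D.Adj y v → v = z) : D.Prot V N y := by
  classical
  refine ⟨hyV, h2, ?_, fun m hm h => ?_⟩
  · refine Finset.card_le_one.2 fun v hv w hw => ?_
    rw [mem_nb] at hv hw
    rw [h1 v hv.1 hv.2, h1 w hw.1 hw.2]
  · exact (D.mem_N1_h.1 (hN hm)).2.2.1 y hyP (h.symm D)

theorem N1p_sub_h (T L P V : Finset D.ι) : D.N1p_h T L P V ⊆ D.N1 T L P := by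
  classical
  exact Finset.filter_subset _ _

end CoxData

end MP345
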