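import Mathlib
import Pool.Agent.Work.MP_345ef2_gt.T_Lib

/-!
# Bounds for the pairs of the T level (helper82)
-/

namespace MP345

open Finset

variable {n : ℕ}

namespace CoxData

namespace TP

variable {D : CoxData n}

theorem mem_N1 {T L P : Finset D.ι} {m : D.ι} :
    m ∈ D.N1 T L P ↔ m ∈ T ∧ m ∉ L ∧ D.NA m P ∧ ∃ s ∈ L, D.Adj m s := by
  classical
  unfold N1; simp

theorem mem_N2 {T L P : Finset D.ι} {m : D.ι} :
    m ∈ D.N2 T L P ↔ m ∈ T ∧ m ∉ L ∧ D.NA m P ∧ D.NA m L ∧ ∃ x ∈ D.N1 T L P, D.Adj m x := by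
  classical
  unfold N2; simp

theorem mem_N0 {T L P : Finset D.ι} {m : D.ι} :
    m ∈ D.N0 T L P ↔ (m ∈ L ∧ m ∉ Rset D.g T) ∧ D.NA m P := by
  classical
  unfold N0; simp

theorem NA_pair {m x y : D.ι} : D.NA m {x, y} ↔ ¬ D.Adj m x ∧ ¬ D.Adj m y := by
  unfold NA
  constructor
  · intro h; exact ⟨h x (by simp), h y (by simp)⟩
  · rintro ⟨h1, h2⟩ p hp
    simp only [Finset.mem_insert, Finset.mem_singleton] at hp
    rcases hp with rfl | rfl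
    · exact h1
    · exact h2

/-- contact count -/
theorem cnt_pos_of_contact {T : Finset D.ι} {m s x y : D.ι} (hs : s ∈ T) (hsx : s ≠ x)
    (hsy : s ≠ y) (hm : D.Adj m s) (h : D.Adj s x ∨ D.Adj s y) : 1 ≤ D.cnt T m {x, y} := by
  have hsP : s ∉ ({x, y} : Finset D.ι) := by simp [hsx, hsy]
  rcases h with h | h
  · exact cnt_pos (p := x) (by simp) hs hsP (hm.symm D) h
  · exact cnt_pos (p := y) (by simp) hs hsP (hm.symm D) h

/-- two common neighbours -/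
theorem cnt_two_of {T : Finset D.ι} {m s s' x y : D.ι} (hxy : x ≠ y) (hs : s ∈ T) (hsx : s ≠ x)
    (hsy : s ≠ y) (hs' : s' ∈ T) (hsx' : s' ≠ x) (hsy' : s' ≠ y) (h1 : D.Adj s m)
    (h2 : D.Adj s x) (h1' : D.Adj s' m) (h2' : D.Adj s' y) : 2 ≤ D.cnt T m {x, y} :=
  cnt_two (p := x) (p' := y) (by simp) (by simp) hxy hs (by simp [hsx, hsy]) h1 h2 hs'
    (by simp [hsx', hsy']) h1' h2'

theorem N0_sum_le {T L P : Finset D.ι} (F : Finset D.ι) (k : D.ι → ℕ)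
    (h : ∀ z ∈ D.N0 T L P, z ∈ F ∧ 2 - D.cnt T z P ≤ k z) :
    ∑ z ∈ D.N0 T L P, (2 - D.cnt T z P) ≤ ∑ z ∈ F, k z :=
  (Finset.sum_le_sum fun z hz => (h z hz).2).trans
    (Finset.sum_le_sum_of_subset_of_nonneg (fun z hz => (h z hz).1) fun _ _ _ => Nat.zero_le _)

theorem N0_sum_zero {T L P : Finset D.ι} (h : ∀ z ∈ D.N0 T L P, 2 ≤ D.cnt T z P) :
    ∑ z ∈ D.N0 T L P, (2 - D.cnt T z P) = 0 :=
  Finset.sum_eq_zero fun z hz => by have := h z hz; omega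

/-- the covering condition: every node of `L` outside the pair is adjacent to the pair or not
adjacent to `N1` -/
def Cov (D : CoxData n) (T : Finset D.ι) (x y : D.ι) : Prop :=
  ∀ s ∈ D.LM T, s ≠ x → s ≠ y →
    (D.Adj s x ∨ D.Adj s y) ∨ ∀ m ∈ D.N1 T (D.LM T) {x, y}, ¬ D.Adj m s

theorem Cov.cnt {T : Finset D.ι} (hLT : D.LM T ⊆ T) {x y : D.ι} (h : Cov D T x y) :
    ∀ m ∈ D.N1 T (D.LM T) {x, y}, 1 ≤ D.cnt T m {x, y} := by
  intro m hm
  obtain ⟨hmT, hmL, hNA, s, hs, hms⟩ := mem_N1.1 hm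
  rw [NA_pair] at hNA
  have hsx : s ≠ x := by rintro rfl; exact hNA.1 hms
  have hsy : s ≠ y := by rintro rfl; exact hNA.2 hms
  rcases h s hs hsx hsy with h1 | h1
  · exact cnt_pos_of_contact (hLT hs) hsx hsy hms h1
  · exact absurd hms (h1 m hm)

theorem Cov.far {T : Finset D.ι} {x y : D.ι} (h : Cov D T x y) (z : D.ι) :
    ¬ D.Far2s T z {x, y} := by
  rintro ⟨m, ⟨hmT, hmP, hmL, hmNA⟩, hzm, s, hs, hsP, hms, hsNA⟩
  have hsx : s ≠ x := by rintro rfl; exact hsP (by simp)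
  have hsy : s ≠ y := by rintro rfl; exact hsP (by simp)
  rcases h s hs hsx hsy with h1 | h1
  · rcases h1 with h1 | h1
    · exact hsNA x (by simp) h1
    · exact hsNA y (by simp) h1
  · exact h1 m (mem_N1.2 ⟨hmT, hmL, hmNA, s, hs, hms⟩) hms

section

variable (hG : D.StmtGDEC)

include hG

/-- payments `1` on `N1` and `N2` -/
theorem G_le_cov {T : Finset D.ι} (hT : T ∈ Tsets D.g n) {x y : D.ι} (hx : x ∈ Rset D.g T)
    (hy : y ∈ Rset D.g T) (hxy : x ≠ y) (hLT : D.LM T ⊆ T) (hc : Cov D T x y)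
    (h5 : D.cls (D.LM T) ≠ 4 ∨ ¬ D.Five {x, y}) {c0 : ℕ}
    (h0 : ∑ z ∈ D.N0 T (D.LM T) {x, y}, (2 - D.cnt T z {x, y}) ≤ c0) :
    D.G T {x, y} ≤ c0 + (D.N1 T (D.LM T) {x, y}).card + (D.N2 T (D.LM T) {x, y}).card := by
  classical
  obtain ⟨g1, g2⟩ := hG T hT x hx y hy hxy
  have hN1 : ∑ z ∈ D.N1 T (D.LM T) {x, y}, (2 - D.cnt T z {x, y}) ≤
      (D.N1 T (D.LM T) {x, y}).card := by
    calc _ ≤ ∑ z ∈ D.N1 T (D.LM T) {x, y}, 1 :=
          Finset.sum_le_sum fun z hz => by have := hc.cnt hLT z hz; omega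
      _ = _ := by simp
  rcases h5 with h5 | h5
  · have := g1 h5; omega
  · have hN2 : ∑ z ∈ D.N2 T (D.LM T) {x, y},
        (if (D.Far2s T z {x, y} ∨ D.Five {x, y}) then 2 else 1) =
        (D.N2 T (D.LM T) {x, y}).card := by
      rw [Finset.card_eq_sum_ones]
      refine Finset.sum_congr rfl fun z _ => ?_
      rw [if_neg]
      rintro (h | h)
      · exact hc.far z h
      · exact h5 h
    rw [if_neg h5] at g2
    have g3 : ∑ z ∈ D.N2 T (D.LM T) {x, y},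
        (if (D.Far2s T z {x, y} ∨ D.Five {x, y}) then 2 else 1) =
        (D.N2 T (D.LM T) {x, y}).card := hN2
    have g4 : ∑ x_1 ∈ D.N2 T (D.LM T) {x, y},
        (if (D.Far2s T x_1 {x, y} ∨ D.Five {x, y}) then 2 else 1) ≤
        (D.N2 T (D.LM T) {x, y}).card := by rw [g3]
    omega

/-- payments `2` on `N1` and `N2` -/
theorem G_le_two {T : Finset D.ι} (hT : T ∈ Tsets D.g n) {x y : D.ι} (hx : x ∈ Rset D.g T)
    (hy : y ∈ Rset D.g T) (hxy : x ≠ y)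
    (h5 : D.cls (D.LM T) ≠ 4 ∨ ¬ D.Five {x, y}) {c0 : ℕ}
    (h0 : ∑ z ∈ D.N0 T (D.LM T) {x, y}, (2 - D.cnt T z {x, y}) ≤ c0) :
    D.G T {x, y} ≤ c0 + 2 * (D.N1 T (D.LM T) {x, y}).card +
      2 * (D.N2 T (D.LM T) {x, y}).card := by
  classical
  obtain ⟨g1, g2⟩ := hG T hT x hx y hy hxy
  have hN1 : ∑ z ∈ D.N1 T (D.LM T) {x, y}, (2 - D.cnt T z {x, y}) ≤
      2 * (D.N1 T (D.LM T) {x, y}).card := by
    calc _ ≤ ∑ z ∈ D.N1 T (D.LM T) {x, y}, 2 := Finset.sum_le_sum fun z hz => by omega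
      _ = _ := by simp [mul_comm]
  rcases h5 with h5 | h5
  · have := g1 h5; omega
  · rw [if_neg h5] at g2
    have g4 : ∑ x_1 ∈ D.N2 T (D.LM T) {x, y},
        (if (D.Far2s T x_1 {x, y} ∨ D.Five {x, y}) then 2 else 1) ≤
        2 * (D.N2 T (D.LM T) {x, y}).card := by
      calc _ ≤ ∑ z ∈ D.N2 T (D.LM T) {x, y}, 2 :=
            Finset.sum_le_sum fun z hz => by split_ifs <;> omega
        _ = _ := by simp [mul_comm]
    omega

/-- class at most 3: payments `2` on `N1`, `1` on `N2` -/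
theorem G_le_21 {T : Finset D.ι} (hT : T ∈ Tsets D.g n) {x y : D.ι} (hx : x ∈ Rset D.g T)
    (hy : y ∈ Rset D.g T) (hxy : x ≠ y) (h5 : D.cls (D.LM T) ≠ 4) {c0 : ℕ}
    (h0 : ∑ z ∈ D.N0 T (D.LM T) {x, y}, (2 - D.cnt T z {x, y}) ≤ c0) :
    D.G T {x, y} ≤ c0 + 2 * (D.N1 T (D.LM T) {x, y}).card +
      (D.N2 T (D.LM T) {x, y}).card := by
  classical
  obtain ⟨g1, g2⟩ := hG T hT x hx y hy hxy
  have hN1 : ∑ z ∈ D.N1 T (D.LM T) {x, y}, (2 - D.cnt T z {x, y}) ≤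
      2 * (D.N1 T (D.LM T) {x, y}).card := by
    calc _ ≤ ∑ z ∈ D.N1 T (D.LM T) {x, y}, 2 := Finset.sum_le_sum fun z hz => by omega
      _ = _ := by simp [mul_comm]
  have := g1 h5; omega

end

/-- `GenHyp` with the full neighbourhoods, second element of the pair removed -/
theorem gen_full (hC : D.StmtCGEN) {T : Finset D.ι} (hT : T ∈ Tsets D.g n) {x y : D.ι}
    (hx : x ∈ Rset D.g T) (hy : y ∈ Rset D.g T) (hxy : x ≠ y) {V : Finset D.ι}
    (hV : V ⊆ (D.LM T).erase y) (hTC : D.TC V) (hcov : ∀ s ∈ D.LM T, s ≠ x → s ≠ y → s ∈ V) :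
    D.GenHyp (T.erase y) V (D.N1 T (D.LM T) {x, y}) (D.N2 T (D.LM T) {x, y}) := by
  obtain ⟨h1, h2⟩ := hC T hT x hx y hy hxy V hV hTC
  obtain ⟨e1, e2⟩ := h2 hcov
  rw [e1, e2] at h1
  exact h1

/-- `GenHyp` with the full neighbourhoods, first element of the pair removed -/
theorem gen_full' (hC : D.StmtCGEN) {T : Finset D.ι} (hT : T ∈ Tsets D.g n) {x y : D.ι}
    (hx : x ∈ Rset D.g T) (hy : y ∈ Rset D.g T) (hxy : x ≠ y) {V : Finset D.ι}
    (hV : V ⊆ (D.LM T).erase x) (hTC : D.TC V) (hcov : ∀ s ∈ D.LM T, s ≠ x → s ≠ y → s ∈ V) :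
    D.GenHyp (T.erase x) V (D.N1 T (D.LM T) {x, y}) (D.N2 T (D.LM T) {x, y}) := by
  have h := gen_full hC hT hy hx hxy.symm hV hTC fun s hs h1 h2 => hcov s hs h2 h1
  rw [Finset.pair_comm] at h
  exact h

end TP

end CoxData

end MP345
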