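import Mathlib
import Pool.Agent.Work.MP_345ef2_gt.T_Pair

/-!
# Block TCYC5 (helper82)
-/

namespace MP345

open Finset

variable {n : ℕ}

namespace CoxData

namespace TP

variable {D : CoxData n}

theorem Cyc5.flip {a b c d e : D.ι} {L : Finset D.ι} (h : D.Cyc5 a b c d e L) :
    D.Cyc5 b a e d c L where
  eq := by rw [h.eq]; ext z; simp only [Finset.mem_insert, Finset.mem_singleton]; tauto
  ab := h.ab.symm
  ac := h.be
  ad := h.bd
  ae := h.bc
  bc := h.ae
  bd := h.ad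
  be := h.ac
  cd := h.de.symm
  ce := h.ce.symm
  de := h.cd.symm
  vab := by rw [D.symm]; exact h.vab
  vbc := by rw [D.symm]; exact h.vea
  vcd := by rw [D.symm]; exact h.vde
  vde := by rw [D.symm]; exact h.vcd
  vea := by rw [D.symm]; exact h.vbc
  vac := h.vbe
  vad := h.vbd
  vbd := h.vad
  vbe := h.vac
  vce := by rw [D.symm]; exact h.vce

theorem Cyc5.heavy {a b c d e : D.ι} {L : Finset D.ι} (h : D.Cyc5 a b c d e L) :
    D.Heavy a b := by
  refine ⟨Cyc5.Aab h, ?_⟩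
  rw [h.vab]
  have := s2_gt
  intro e; linarith

theorem Cyc5.not_five {a b c d e : D.ι} {L : Finset D.ι} (h : D.Cyc5 a b c d e L) {x y : D.ι}
    (hx : x ∈ L) (hy : y ∈ L) : ¬ D.Five {x, y} := by
  have key : ∀ p ∈ L, ∀ q ∈ L, D.g p q ≠ -c5 := by
    have h1 := h.vab
    have h2 := h.vbc
    have h3 := h.vcd
    have h4 := h.vde
    have h5 := h.vea
    have h6 := h.vac
    have h7 := h.vad
    have h8 := h.vbd
    have h9 := h.vbe
    have h10 := h.vce
    have k1 := (D.symm b a).trans h1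
    have k2 := (D.symm c b).trans h2
    have k3 := (D.symm d c).trans h3
    have k4 := (D.symm e d).trans h4
    have k5 := (D.symm a e).trans h5
    have k6 := (D.symm c a).trans h6
    have k7 := (D.symm d a).trans h7
    have k8 := (D.symm d b).trans h8
    have k9 := (D.symm e b).trans h9
    have k10 := (D.symm e c).trans h10
    have g1 := c5_gt
    have g2 := s2_lt
    intro p hp q hq e1
    rw [h.eq] at hp hq
    simp only [Finset.mem_insert, Finset.mem_singleton] at hp hq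
    rcases hp with rfl | rfl | rfl | rfl | rfl <;> rcases hq with rfl | rfl | rfl | rfl | rfl <;>
      first
      | (rw [D.self] at e1; linarith)
      | (simp only [h1, h2, h3, h4, h5, h6, h7, h8, h9, h10, k1, k2, k3, k4, k5, k6, k7, k8, k9,
          k10] at e1; linarith)
  rintro ⟨p, hp, q, hq, e1⟩
  have hsub : ∀ p ∈ ({x, y} : Finset D.ι), p ∈ L := by
    intro p hp
    simp only [Finset.mem_insert, Finset.mem_singleton] at hp
    rcases hp with rfl | rfl
    · exact hx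
    · exact hy
  exact key p (hsub p hp) q (hsub q hq) e1

/-- the path `d - e - a - b` -/
theorem Cyc5.tc {a b c d e : D.ι} {L : Finset D.ι} (h : D.Cyc5 a b c d e L) :
    D.TC {d, e, a, b} := by
  have h1 := TC_pair (Cyc5.Aab h)
  have h2 := TC_insert (x := e) (u := a) h1 (by simp [h.ae.symm, h.be.symm]) (by simp)
    (Cyc5.Aea h)
  exact TC_insert (x := d) (u := e) h2 (by simp [h.de, h.ad.symm, h.bd.symm]) (by simp)
    (Cyc5.Ade h)

/-- the path `c - d - e - a` -/
theorem Cyc5.tc' {a b c d e : D.ι} {L : Finset D.ι} (h : D.Cyc5 a b c d e L) :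
    D.TC {c, d, e, a} := by
  have h1 := TC_pair (Cyc5.Aea h)
  have h2 := TC_insert (x := d) (u := e) h1 (by simp [h.de, h.ad.symm]) (by simp)
    (Cyc5.Ade h)
  exact TC_insert (x := c) (u := d) h2 (by simp [h.cd, h.ce, h.ac.symm]) (by simp)
    (Cyc5.Acd h)

/-- the path `e - a - b - c` -/
theorem Cyc5.tc'' {a b c d e : D.ι} {L : Finset D.ι} (h : D.Cyc5 a b c d e L) :
    D.TC {e, a, b, c} := by
  have h1 := TC_pair (Cyc5.Abc h)
  have h2 := TC_insert (x := a) (u := b) h1 (by simp [h.ab, h.ac]) (by simp)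
    (Cyc5.Aab h)
  exact TC_insert (x := e) (u := a) h2 (by simp [h.ae.symm, h.be.symm, h.ce.symm]) (by simp)
    (Cyc5.Aea h)

theorem card4 {a b c d : D.ι} (h1 : a ≠ b) (h2 : a ≠ c) (h3 : a ≠ d) (h4 : b ≠ c) (h5 : b ≠ d)
    (h6 : c ≠ d) : ({a, b, c, d} : Finset D.ι).card = 4 := by
  rw [Finset.card_insert_of_notMem (by simp [h1, h2, h3]),
    Finset.card_insert_of_notMem (by simp [h4, h5]), Finset.card_pair h6]

/-- nodes with a single neighbour -/
theorem nb_card_le_one {V : Finset D.ι} {x z : D.ι} (h : ∀ w ∈ V, D.Adj x w → w = z) :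
    (D.nb V x).card ≤ 1 := by
  classical
  have : D.nb V x ⊆ {z} := by
    intro w hw
    obtain ⟨h1, h2⟩ := (mem_nb D).1 hw
    simp [h w h1 h2]
  exact (Finset.card_le_card this).trans (by simp)

section

variable (hctx : D.StmtCTX) (hgd : D.StmtGDEC) (hcg : D.StmtCGEN) (hgen : D.StmtGEN)
  (hclf : D.StmtCLF) {T : Finset D.ι} (hT : T ∈ Tsets D.g n) {a b c d e : D.ι}
  (h : D.Cyc5 a b c d e (D.LM T))

include hctx hgd hcg hgen hT h

/-- pair `b, c` -/
theorem cyc5_bc (hb : b ∈ Rset D.g T) (hc : c ∈ Rset D.g T) : D.G T {b, c} ≤ 4 := by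
  classical
  have hRL := (hctx T hT).2.2.2.1
  have hLT := (hctx T hT).2.2.1
  have hg := gen_full hcg hT hb hc h.bc (V := {d, e, a, b}) (by
    intro z hz
    simp only [Finset.mem_insert, Finset.mem_singleton] at hz
    rw [Finset.mem_erase, h.eq]
    simp only [Finset.mem_insert, Finset.mem_singleton]
    rcases hz with rfl | rfl | rfl | rfl
    · exact ⟨h.cd.symm, by simp⟩
    · exact ⟨h.ce.symm, by simp⟩
    · exact ⟨h.ac, by simp⟩
    · exact ⟨h.bc, by simp⟩) (Cyc5.tc h) (by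
    intro s hs h1 h2
    rw [h.eq] at hs
    simp only [Finset.mem_insert, Finset.mem_singleton] at hs ⊢
    rcases hs with rfl | rfl | rfl | rfl | rfl <;> simp_all)
  have h3 := (hgen _ _ _ _ hg).2.2.2.2.2.2.2.2.1 ⟨a, by simp, b, by simp, Cyc5.heavy h⟩
  have h4 := h3.2.2 b ⟨by simp, by
    rw [card4 h.de h.ad.symm h.bd.symm h.ae.symm h.be.symm h.ab]; norm_num, by
    refine nb_card_le_one (z := a) fun w hw ha => ?_
    simp only [Finset.mem_insert, Finset.mem_singleton] at hw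
    rcases hw with rfl | rfl | rfl | rfl
    · exact absurd ha (Cyc5.Nbd h)
    · exact absurd ha (Cyc5.Nbe h)
    · rfl
    · exact absurd rfl ha.1, fun m hm ha =>
      (NA_pair.1 (mem_N1.1 hm).2.2.1).1 (ha.symm D)⟩
  have h0 : ∑ z ∈ D.N0 T (D.LM T) {b, c}, (2 - D.cnt T z {b, c}) = 0 := by
    refine N0_sum_zero fun z hz => ?_
    obtain ⟨⟨z1, z2⟩, z3⟩ := mem_N0.1 hz
    rw [NA_pair] at z3
    rw [h.eq] at z1
    simp only [Finset.mem_insert, Finset.mem_singleton] at z1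
    rcases z1 with rfl | rfl | rfl | rfl | rfl
    · exact absurd (Cyc5.Aab h) z3.1
    · exact absurd hb z2
    · exact absurd hc z2
    · exact absurd (Cyc5.Adc h) z3.2
    · exact cnt_two_of h.bc (hLT (Cyc5.ma h)) h.ab h.ac (hLT (Cyc5.md h)) h.bd.symm h.cd.symm
        (Cyc5.Aae h) (Cyc5.Aab h) (Cyc5.Ade h) (Cyc5.Adc h)
  have h5 := G_le_two hgd hT hb hc h.bc (Or.inr (Cyc5.not_five h (Cyc5.mb h) (Cyc5.mc h))) h0.le
  have := h4.1
  have := h4.2
  omega

/-- pair `c, d` -/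
theorem cyc5_cd (hc : c ∈ Rset D.g T) (hd : d ∈ Rset D.g T) : D.G T {c, d} ≤ 4 := by
  classical
  have hRL := (hctx T hT).2.2.2.1
  have hLT := (hctx T hT).2.2.1
  have hg := gen_full' hcg hT hc hd h.cd (V := {d, e, a, b}) (by
    intro z hz
    simp only [Finset.mem_insert, Finset.mem_singleton] at hz
    rw [Finset.mem_erase, h.eq]
    simp only [Finset.mem_insert, Finset.mem_singleton]
    rcases hz with rfl | rfl | rfl | rfl
    · exact ⟨h.cd.symm, by simp⟩
    · exact ⟨h.ce.symm, by simp⟩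
    · exact ⟨h.ac, by simp⟩
    · exact ⟨h.bc, by simp⟩) (Cyc5.tc h) (by
    intro s hs h1 h2
    rw [h.eq] at hs
    simp only [Finset.mem_insert, Finset.mem_singleton] at hs ⊢
    rcases hs with rfl | rfl | rfl | rfl | rfl <;> simp_all)
  have h3 := (hgen _ _ _ _ hg).2.2.2.2.2.2.2.2.1 ⟨a, by simp, b, by simp, Cyc5.heavy h⟩
  have h4 := h3.2.2 d ⟨by simp, by
    rw [card4 h.de h.ad.symm h.bd.symm h.ae.symm h.be.symm h.ab]; norm_num, by
    refine nb_card_le_one (z := e) fun w hw ha => ?_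
    simp only [Finset.mem_insert, Finset.mem_singleton] at hw
    rcases hw with rfl | rfl | rfl | rfl
    · exact absurd rfl ha.1
    · rfl
    · exact absurd ha (Cyc5.Nda h)
    · exact absurd ha (Cyc5.Ndb h), fun m hm ha =>
      (NA_pair.1 (mem_N1.1 hm).2.2.1).2 (ha.symm D)⟩
  have h0 : ∑ z ∈ D.N0 T (D.LM T) {c, d}, (2 - D.cnt T z {c, d}) = 0 := by
    refine N0_sum_zero fun z hz => ?_
    obtain ⟨⟨z1, z2⟩, z3⟩ := mem_N0.1 hz
    rw [NA_pair] at z3
    rw [h.eq] at z1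
    simp only [Finset.mem_insert, Finset.mem_singleton] at z1
    rcases z1 with rfl | rfl | rfl | rfl | rfl
    · exact cnt_two_of h.cd (hLT (Cyc5.mb h)) h.bc h.bd (hLT (Cyc5.me h)) h.ce.symm h.de.symm
        (Cyc5.Aba h) (Cyc5.Abc h) (Cyc5.Aea h) (Cyc5.Aed h)
    · exact absurd (Cyc5.Abc h) z3.1
    · exact absurd hc z2
    · exact absurd hd z2
    · exact absurd (Cyc5.Aed h) z3.2
  have h5 := G_le_two hgd hT hc hd h.cd (Or.inr (Cyc5.not_five h (Cyc5.mc h) (Cyc5.md h))) h0.le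
  have := h4.1
  have := h4.2
  omega

/-- nonadjacent pairs: common part -/
theorem cyc5_non {x y : D.ι} (hx : x ∈ Rset D.g T) (hy : y ∈ Rset D.g T) (hxy : x ≠ y)
    {V : Finset D.ι} (hV : V ⊆ (D.LM T).erase y ∨ V ⊆ (D.LM T).erase x) (hTC : D.TC V)
    (hcov : ∀ s ∈ D.LM T, s ≠ x → s ≠ y → s ∈ V) (ha : a ∈ V) (hb : b ∈ V)
    (hadj : ∀ s ∈ D.LM T, s ≠ x → s ≠ y → D.Adj s x ∨ D.Adj s y) : D.G T {x, y} ≤ 4 := by
  classical
  have hRL := (hctx T hT).2.2.2.1
  have hLT := (hctx T hT).2.2.1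
  have h3 : (D.N1 T (D.LM T) {x, y}).card ≤ 2 ∧ (D.N2 T (D.LM T) {x, y}).card ≤ 2 := by
    rcases hV with hV | hV
    · have h3 := (hgen _ _ _ _ (gen_full hcg hT hx hy hxy hV hTC hcov)).2.2.2.2.2.2.2.2.1
        ⟨a, ha, b, hb, Cyc5.heavy h⟩
      exact ⟨h3.1, h3.2.1⟩
    · have h3 := (hgen _ _ _ _ (gen_full' hcg hT hx hy hxy hV hTC hcov)).2.2.2.2.2.2.2.2.1
        ⟨a, ha, b, hb, Cyc5.heavy h⟩
      exact ⟨h3.1, h3.2.1⟩
  have h0 : ∑ z ∈ D.N0 T (D.LM T) {x, y}, (2 - D.cnt T z {x, y}) = 0 := by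
    refine N0_sum_zero fun z hz => ?_
    obtain ⟨⟨z1, z2⟩, z3⟩ := mem_N0.1 hz
    rw [NA_pair] at z3
    have hzx : z ≠ x := by rintro rfl; exact z2 hx
    have hzy : z ≠ y := by rintro rfl; exact z2 hy
    rcases hadj z z1 hzx hzy with h1 | h1
    · exact absurd h1 z3.1
    · exact absurd h1 z3.2
  have h5 := G_le_cov hgd hT hx hy hxy hLT (fun s hs h1 h2 => Or.inl (hadj s hs h1 h2))
    (Or.inr (Cyc5.not_five h (hRL hx) (hRL hy))) h0.le
  have := h3.1
  have := h3.2
  omega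

/-- pair `a, c` -/
theorem cyc5_ac (ha : a ∈ Rset D.g T) (hc : c ∈ Rset D.g T) : D.G T {a, c} ≤ 4 := by
  refine cyc5_non hctx hgd hcg hgen hT h ha hc h.ac (V := {d, e, a, b}) (Or.inl ?_) (Cyc5.tc h)
    ?_ (by simp) (by simp) ?_
  · intro z hz
    simp only [Finset.mem_insert, Finset.mem_singleton] at hz
    rw [Finset.mem_erase, h.eq]
    simp only [Finset.mem_insert, Finset.mem_singleton]
    rcases hz with rfl | rfl | rfl | rfl
    · exact ⟨h.cd.symm, by simp⟩
    · exact ⟨h.ce.symm, by simp⟩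
    · exact ⟨h.ac, by simp⟩
    · exact ⟨h.bc, by simp⟩
  · intro s hs h1 h2
    rw [h.eq] at hs
    simp only [Finset.mem_insert, Finset.mem_singleton] at hs ⊢
    rcases hs with rfl | rfl | rfl | rfl | rfl <;> simp_all
  · intro s hs h1 h2
    rw [h.eq] at hs
    simp only [Finset.mem_insert, Finset.mem_singleton] at hs
    rcases hs with rfl | rfl | rfl | rfl | rfl
    · exact absurd rfl h1
    · exact Or.inl (Cyc5.Aba h)
    · exact absurd rfl h2
    · exact Or.inr (Cyc5.Adc h)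
    · exact Or.inl (Cyc5.Aea h)

/-- pair `c, e` -/
theorem cyc5_ce (hc : c ∈ Rset D.g T) (he : e ∈ Rset D.g T) : D.G T {c, e} ≤ 4 := by
  refine cyc5_non hctx hgd hcg hgen hT h hc he h.ce (V := {d, e, a, b}) (Or.inr ?_) (Cyc5.tc h)
    ?_ (by simp) (by simp) ?_
  · intro z hz
    simp only [Finset.mem_insert, Finset.mem_singleton] at hz
    rw [Finset.mem_erase, h.eq]
    simp only [Finset.mem_insert, Finset.mem_singleton]
    rcases hz with rfl | rfl | rfl | rfl
    · exact ⟨h.cd.symm, by simp⟩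
    · exact ⟨h.ce.symm, by simp⟩
    · exact ⟨h.ac, by simp⟩
    · exact ⟨h.bc, by simp⟩
  · intro s hs h1 h2
    rw [h.eq] at hs
    simp only [Finset.mem_insert, Finset.mem_singleton] at hs ⊢
    rcases hs with rfl | rfl | rfl | rfl | rfl <;> simp_all
  · intro s hs h1 h2
    rw [h.eq] at hs
    simp only [Finset.mem_insert, Finset.mem_singleton] at hs
    rcases hs with rfl | rfl | rfl | rfl | rfl
    · exact Or.inr (Cyc5.Aae h)
    · exact Or.inl (Cyc5.Abc h)
    · exact absurd rfl h1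
    · exact Or.inl (Cyc5.Adc h)
    · exact absurd rfl h2

/-- pair `a, d` -/
theorem cyc5_ad (ha : a ∈ Rset D.g T) (hd : d ∈ Rset D.g T) : D.G T {a, d} ≤ 4 := by
  refine cyc5_non hctx hgd hcg hgen hT h ha hd h.ad (V := {e, a, b, c}) (Or.inl ?_)
    (Cyc5.tc'' h) ?_ (by simp) (by simp) ?_
  · intro z hz
    simp only [Finset.mem_insert, Finset.mem_singleton] at hz
    rw [Finset.mem_erase, h.eq]
    simp only [Finset.mem_insert, Finset.mem_singleton]
    rcases hz with rfl | rfl | rfl | rfl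
    · exact ⟨h.de.symm, by simp⟩
    · exact ⟨h.ad, by simp⟩
    · exact ⟨h.bd, by simp⟩
    · exact ⟨h.cd, by simp⟩
  · intro s hs h1 h2
    rw [h.eq] at hs
    simp only [Finset.mem_insert, Finset.mem_singleton] at hs ⊢
    rcases hs with rfl | rfl | rfl | rfl | rfl <;> simp_all
  · intro s hs h1 h2
    rw [h.eq] at hs
    simp only [Finset.mem_insert, Finset.mem_singleton] at hs
    rcases hs with rfl | rfl | rfl | rfl | rfl
    · exact absurd rfl h1
    · exact Or.inl (Cyc5.Aba h)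
    · exact Or.inr (Cyc5.Acd h)
    · exact absurd rfl h2
    · exact Or.inl (Cyc5.Aea h)

end

section

variable (hctx : D.StmtCTX) (hgd : D.StmtGDEC) (hcg : D.StmtCGEN) (hgen : D.StmtGEN)
  (htree : D.StmtTREE) {T : Finset D.ι} (hT : T ∈ Tsets D.g n)

include htree in
/-- a positive definite tree has no two branch nodes -/
theorem no_two_branch {U : Finset D.ι} (hU : PD D.g U) (hTC : D.TC U) {x y : D.ι} (hx : x ∈ U)
    (hy : y ∈ U) (hxy : x ≠ y) (h1 : 3 ≤ (D.nb U x).card) (h2 : 3 ≤ (D.nb U y).card) : False := by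
  classical
  have h3 := D.deg_le hU hx
  have h4 := D.deg_le hU hy
  have h5 := (htree U hU hTC).2.1
  have h6 : ({x, y} : Finset D.ι) ⊆ U.filter fun x => (D.nb U x).card = 3 := by
    intro z hz
    simp only [Finset.mem_insert, Finset.mem_singleton] at hz
    rcases hz with rfl | rfl
    · exact Finset.mem_filter.2 ⟨hx, by omega⟩
    · exact Finset.mem_filter.2 ⟨hy, by omega⟩
  have h7 := Finset.card_le_card h6
  rw [Finset.card_pair hxy] at h7
  have h8 : (U.filter fun x => (D.nb U x).card = 3).card ≤ 1 := by convert h5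
  omega

/-- three neighbours -/
theorem nb_card_ge3 {U : Finset D.ι} {x p q r : D.ι} (hp : p ∈ U) (hq : q ∈ U) (hr : r ∈ U)
    (h1 : p ≠ q) (h2 : p ≠ r) (h3 : q ≠ r) (a1 : D.Adj x p) (a2 : D.Adj x q) (a3 : D.Adj x r) :
    3 ≤ (D.nb U x).card := by
  classical
  have : ({p, q, r} : Finset D.ι) ⊆ D.nb U x := by
    intro z hz
    simp only [Finset.mem_insert, Finset.mem_singleton] at hz
    rcases hz with rfl | rfl | rfl
    · exact (mem_nb D).2 ⟨hp, a1⟩
    · exact (mem_nb D).2 ⟨hq, a2⟩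
    · exact (mem_nb D).2 ⟨hr, a3⟩
  have h4 := Finset.card_le_card this
  rwa [Finset.card_insert_of_notMem (by simp [h1, h2]), Finset.card_pair h3] at h4

/-- four neighbours -/
theorem nb_card_ge4 {U : Finset D.ι} {x p q r s : D.ι} (hp : p ∈ U) (hq : q ∈ U) (hr : r ∈ U)
    (hs : s ∈ U) (h1 : p ≠ q) (h2 : p ≠ r) (h3 : p ≠ s) (h4 : q ≠ r) (h5 : q ≠ s) (h6 : r ≠ s)
    (a1 : D.Adj x p) (a2 : D.Adj x q) (a3 : D.Adj x r) (a4 : D.Adj x s) :
    4 ≤ (D.nb U x).card := by
  classical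
  have : ({p, q, r, s} : Finset D.ι) ⊆ D.nb U x := by
    intro z hz
    simp only [Finset.mem_insert, Finset.mem_singleton] at hz
    rcases hz with rfl | rfl | rfl | rfl
    · exact (mem_nb D).2 ⟨hp, a1⟩
    · exact (mem_nb D).2 ⟨hq, a2⟩
    · exact (mem_nb D).2 ⟨hr, a3⟩
    · exact (mem_nb D).2 ⟨hs, a4⟩
  have h7 := Finset.card_le_card this
  rwa [card4 h1 h2 h3 h4 h5 h6] at h7

variable {a b c d e : D.ι} (h : D.Cyc5 a b c d e (D.LM T))

include hctx hcg hgen hT h htree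

/-- `m ∈ N1` adjacent to `d`, `m'` adjacent to `c`: two branch nodes in `T - a` -/
theorem cyc5_ab_c (ha : a ∈ Rset D.g T) (hb : b ∈ Rset D.g T) {m m' : D.ι}
    (hm : m ∈ D.N1 T (D.LM T) {a, b}) (hmd : D.Adj m d) (hm' : m' ∈ D.N1 T (D.LM T) {a, b})
    (hmc : D.Adj m' c) : False := by
  classical
  have hLT := (hctx T hT).2.2.1
  have hg := gen_full' hcg hT ha hb h.ab (V := {e, d, c, b}) (by
    intro z hz
    simp only [Finset.mem_insert, Finset.mem_singleton] at hz
    rw [Finset.mem_erase, h.eq]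
    simp only [Finset.mem_insert, Finset.mem_singleton]
    rcases hz with rfl | rfl | rfl | rfl
    · exact ⟨h.ae.symm, by simp⟩
    · exact ⟨h.ad.symm, by simp⟩
    · exact ⟨h.ac.symm, by simp⟩
    · exact ⟨h.ab.symm, by simp⟩) (Cyc5.tc' (Cyc5.flip h)) (by
    intro s hs h1 h2
    rw [h.eq] at hs
    simp only [Finset.mem_insert, Finset.mem_singleton] at hs ⊢
    rcases hs with rfl | rfl | rfl | rfl | rfl <;> simp_all)
  have hU := hgen _ _ _ _ hg
  have hPD : PD D.g ({e, d, c, b} ∪ D.N1 T (D.LM T) {a, b} ∪ D.N2 T (D.LM T) {a, b}) :=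
    hg.pd.mono (Finset.union_subset (Finset.union_subset hg.sV hg.s1) hg.s2)
  have hmL := (mem_N1.1 hm).2.1
  have hmL' := (mem_N1.1 hm').2.1
  have hne : m ≠ c ∧ m ≠ e ∧ m ≠ b := by
    refine ⟨?_, ?_, ?_⟩
    · rintro rfl; exact hmL (Cyc5.mc h)
    · rintro rfl; exact hmL (Cyc5.me h)
    · rintro rfl; exact hmL (Cyc5.mb h)
  have hne' : m' ≠ d ∧ m' ≠ b := by
    refine ⟨?_, ?_⟩
    · rintro rfl; exact hmL' (Cyc5.md h)
    · rintro rfl; exact hmL' (Cyc5.mb h)
  refine no_two_branch htree hPD hU.1 (x := d) (y := c) (by simp) (by simp) h.cd.symm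
    (nb_card_ge3 (p := c) (q := e) (r := m) (by simp) (by simp) (by simp [hm]) h.ce
      hne.1.symm hne.2.1.symm (Cyc5.Adc h) (Cyc5.Ade h) (hmd.symm D))
    (nb_card_ge3 (p := b) (q := d) (r := m') (by simp) (by simp) (by simp [hm']) h.bd
      hne'.2.symm hne'.1.symm (Cyc5.Acb h) (Cyc5.Acd h) (hmc.symm D))

/-- pair `a, b`, some `m ∈ N1` adjacent to `d` -/
theorem cyc5_ab_N1 (ha : a ∈ Rset D.g T) (hb : b ∈ Rset D.g T) {m : D.ι}
    (hm : m ∈ D.N1 T (D.LM T) {a, b}) (hmd : D.Adj m d) :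
    (D.N1 T (D.LM T) {a, b}).card ≤ 1 ∧ (D.N2 T (D.LM T) {a, b}).card ≤ 1 := by
  classical
  have hLT := (hctx T hT).2.2.1
  have hg := gen_full' hcg hT ha hb h.ab (V := {e, d, c, b}) (by
    intro z hz
    simp only [Finset.mem_insert, Finset.mem_singleton] at hz
    rw [Finset.mem_erase, h.eq]
    simp only [Finset.mem_insert, Finset.mem_singleton]
    rcases hz with rfl | rfl | rfl | rfl
    · exact ⟨h.ae.symm, by simp⟩
    · exact ⟨h.ad.symm, by simp⟩
    · exact ⟨h.ac.symm, by simp⟩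
    · exact ⟨h.ab.symm, by simp⟩) (Cyc5.tc' (Cyc5.flip h)) (by
    intro s hs h1 h2
    rw [h.eq] at hs
    simp only [Finset.mem_insert, Finset.mem_singleton] at hs ⊢
    rcases hs with rfl | rfl | rfl | rfl | rfl <;> simp_all)
  have hU := hgen _ _ _ _ hg
  have hPD : PD D.g ({e, d, c, b} ∪ D.N1 T (D.LM T) {a, b} ∪ D.N2 T (D.LM T) {a, b}) :=
    hg.pd.mono (Finset.union_subset (Finset.union_subset hg.sV hg.s1) hg.s2)
  have hmL := (mem_N1.1 hm).2.1
  have hne : m ≠ c ∧ m ≠ e ∧ m ≠ b ∧ m ≠ d := by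
    refine ⟨?_, ?_, ?_, ?_⟩
    · rintro rfl; exact hmL (Cyc5.mc h)
    · rintro rfl; exact hmL (Cyc5.me h)
    · rintro rfl; exact hmL (Cyc5.mb h)
    · rintro rfl; exact hmL (Cyc5.md h)
  have honly : ∀ m' ∈ D.N1 T (D.LM T) {a, b}, m' = m := by
    intro m' hm'
    by_contra hmm
    obtain ⟨hmT', hmL', hNA', s, hs, hms⟩ := mem_N1.1 hm'
    rw [NA_pair] at hNA'
    rw [h.eq] at hs
    simp only [Finset.mem_insert, Finset.mem_singleton] at hs
    rcases hs with rfl | rfl | rfl | rfl | rfl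
    · exact hNA'.1 hms
    · exact hNA'.2 hms
    · exact cyc5_ab_c hctx hcg hgen htree hT h ha hb hm hmd hm' hms
    · have h4 := D.deg_le hPD (p := s) (by simp)
      have hne' : m' ≠ c ∧ m' ≠ e := by
        refine ⟨?_, ?_⟩
        · rintro rfl; exact hmL' (Cyc5.mc h)
        · rintro rfl; exact hmL' (Cyc5.me h)
      have h5 := nb_card_ge4 (D := D) (U := {e, s, c, b} ∪ D.N1 T (D.LM T) {a, b} ∪
        D.N2 T (D.LM T) {a, b}) (x := s) (p := c) (q := e) (r := m) (s := m') (by simp)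
        (by simp) (by simp [hm]) (by simp [hm']) h.ce hne.1.symm hne'.1.symm hne.2.1.symm
        hne'.2.symm (Ne.symm hmm) (Cyc5.Adc h) (Cyc5.Ade h) (hmd.symm D) (hms.symm D)
      omega
    · have h2 := Cyc5.flip h
      have e1 : ({a, b} : Finset D.ι) = {b, a} := Finset.pair_comm _ _
      rw [e1] at hm hm'
      exact cyc5_ab_c hctx hcg hgen htree hT h2 hb ha hm hmd hm' hms
  refine ⟨Finset.card_le_one.2 fun x hx y hy => by rw [honly x hx, honly y hy], ?_⟩
  refine Finset.card_le_one.2 fun x hx y hy => ?_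
  by_contra hxy
  obtain ⟨x1, x2, x3, x4, x', hx', hxx⟩ := mem_N2.1 hx
  obtain ⟨y1, y2, y3, y4, y', hy', hyy⟩ := mem_N2.1 hy
  rw [honly x' hx'] at hxx
  rw [honly y' hy'] at hyy
  have hxd : x ≠ d := by rintro rfl; exact x2 (Cyc5.md h)
  have hyd : y ≠ d := by rintro rfl; exact y2 (Cyc5.md h)
  exact no_two_branch htree hPD hU.1 (x := d) (y := m) (by simp) (by simp [hm]) hne.2.2.2.symm
    (nb_card_ge3 (p := c) (q := e) (r := m) (by simp) (by simp) (by simp [hm]) h.ce
      hne.1.symm hne.2.1.symm (Cyc5.Adc h) (Cyc5.Ade h) (hmd.symm D))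
    (nb_card_ge3 (p := d) (q := x) (r := y) (by simp) (by simp [hx]) (by simp [hy]) hxd.symm
      hyd.symm hxy hmd (hxx.symm D) (hyy.symm D))

include hgd in
/-- pair `a, b` -/
theorem cyc5_ab (ha : a ∈ Rset D.g T) (hb : b ∈ Rset D.g T) : D.G T {a, b} ≤ 5 := by
  classical
  have hRL := (hctx T hT).2.2.2.1
  have hLT := (hctx T hT).2.2.1
  have h0 : ∑ z ∈ D.N0 T (D.LM T) {a, b}, (2 - D.cnt T z {a, b}) = 0 := by
    refine N0_sum_zero fun z hz => ?_
    obtain ⟨⟨z1, z2⟩, z3⟩ := mem_N0.1 hz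
    rw [NA_pair] at z3
    rw [h.eq] at z1
    simp only [Finset.mem_insert, Finset.mem_singleton] at z1
    rcases z1 with rfl | rfl | rfl | rfl | rfl
    · exact absurd ha z2
    · exact absurd hb z2
    · exact absurd (Cyc5.Acb h) z3.2
    · exact cnt_two_of h.ab (hLT (Cyc5.me h)) h.ae.symm h.be.symm (hLT (Cyc5.mc h)) h.ac.symm
        h.bc.symm (Cyc5.Aed h) (Cyc5.Aea h) (Cyc5.Acd h) (Cyc5.Acb h)
    · exact absurd (Cyc5.Aea h) z3.1
  by_cases hd : ∃ m ∈ D.N1 T (D.LM T) {a, b}, D.Adj m d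
  · obtain ⟨m, hm, hmd⟩ := hd
    have h1 := cyc5_ab_N1 hctx hcg hgen htree hT h ha hb hm hmd
    have h5 := G_le_two hgd hT ha hb h.ab (Or.inr (Cyc5.not_five h (hRL ha) (hRL hb))) h0.le
    have := h1.1
    have := h1.2
    omega
  · push Not at hd
    have hg := gen_full hcg hT ha hb h.ab (V := {c, d, e, a}) (by
      intro z hz
      simp only [Finset.mem_insert, Finset.mem_singleton] at hz
      rw [Finset.mem_erase, h.eq]
      simp only [Finset.mem_insert, Finset.mem_singleton]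
      rcases hz with rfl | rfl | rfl | rfl
      · exact ⟨h.bc.symm, by simp⟩
      · exact ⟨h.bd.symm, by simp⟩
      · exact ⟨h.be.symm, by simp⟩
      · exact ⟨h.ab, by simp⟩) (Cyc5.tc' h) (by
      intro s hs h1 h2
      rw [h.eq] at hs
      simp only [Finset.mem_insert, Finset.mem_singleton] at hs ⊢
      rcases hs with rfl | rfl | rfl | rfl | rfl <;> simp_all)
    have h3 := (hgen _ _ _ _ hg).2.2.2.2.2.2.1
    have h5 := G_le_cov hgd hT ha hb h.ab hLT (fun s hs h1 h2 => by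
      rw [h.eq] at hs
      simp only [Finset.mem_insert, Finset.mem_singleton] at hs
      rcases hs with rfl | rfl | rfl | rfl | rfl
      · exact absurd rfl h1
      · exact absurd rfl h2
      · exact Or.inl (Or.inr (Cyc5.Acb h))
      · exact Or.inr hd
      · exact Or.inl (Or.inl (Cyc5.Aea h)))
      (Or.inr (Cyc5.not_five h (hRL ha) (hRL hb))) h0.le
    omega

end

/-- the bounds -/
def cyc5β : Fin 5 → Fin 5 → ℕ := fun i j => if i = 0 ∧ j = 1 then 5 else 4

/-- the adjacencies -/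
def cyc5A : Fin 5 → Fin 5 → Bool := fun i j => decide (j = i + 1) || decide (i = j + 1)

theorem cyc5_num : ∀ I : Finset (Fin 5),
    3 * ((∑ a ∈ I, ∑ b ∈ I, if a < b then cyc5β a b else 0) +
    2 * ∑ a ∈ I, ∑ b ∈ I, ∑ c ∈ I, if a < b ∧ b < c then
      2 - (cyc5A a b).toNat - (cyc5A a c).toNat - (cyc5A b c).toNat else 0) ≤
    8 * (I.card * (I.card - 1)) + 3 * 0 := by decide

end TP

open TP

/-- **Block TCYC5** -/
theorem stmtTCYC5 (D : CoxData n) (hctx : D.StmtCTX) (hgd : D.StmtGDEC) (hcg : D.StmtCGEN)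
    (hgen : D.StmtGEN) (htree : D.StmtTREE) (hsum : D.StmtSUM) : D.StmtTCYC5 := by
  classical
  intro T hT a b c d e h
  have hRL := (hctx T hT).2.2.2.1
  set f : Fin 5 → D.ι := ![a, b, c, d, e] with hf
  have f0 : f 0 = a := rfl
  have f1 : f 1 = b := rfl
  have f2 : f 2 = c := rfl
  have f3 : f 3 = d := rfl
  have f4 : f 4 = e := rfl
  have hfl := Cyc5.flip h
  refine hsum 5 f cyc5A cyc5β (Finset.univ.filter fun i => f i ∈ Rset D.g T) T 0 ?_ ?_ ?_ ?_ ?_ ?_
  · intro i j hij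
    have e1 := h.ab
    have e2 := h.ac
    have e3 := h.ad
    have e4 := h.ae
    have e5 := h.bc
    have e6 := h.bd
    have e7 := h.be
    have e8 := h.cd
    have e9 := h.ce
    have e10 := h.de
    fin_cases i <;> fin_cases j <;> simp_all [f0, f1, f2, f3, f4]
  · intro x
    constructor
    · intro hx
      have := hRL hx
      rw [h.eq] at this
      simp only [Finset.mem_insert, Finset.mem_singleton] at this
      rcases this with rfl | rfl | rfl | rfl | rfl
      · exact ⟨0, by simpa [f0] using hx, rfl⟩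
      · exact ⟨1, by simpa [f1] using hx, rfl⟩
      · exact ⟨2, by simpa [f2] using hx, rfl⟩
      · exact ⟨3, by simpa [f3] using hx, rfl⟩
      · exact ⟨4, by simpa [f4] using hx, rfl⟩
    · rintro ⟨i, hi, rfl⟩
      exact (Finset.mem_filter.1 hi).2
  · intro i j hij
    have a1 := Cyc5.Aab h
    have a2 := Cyc5.Abc h
    have a3 := Cyc5.Acd h
    have a4 := Cyc5.Ade h
    have a5 := Cyc5.Aea h
    have b1 := Cyc5.Aba h
    have b2 := Cyc5.Acb h
    have b3 := Cyc5.Adc h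
    have b4 := Cyc5.Aed h
    have b5 := Cyc5.Aae h
    fin_cases i <;> fin_cases j <;> first | assumption | (exact absurd hij (by decide))
  · intro i hi j hj hij
    have hi' := (Finset.mem_filter.1 hi).2
    have hj' := (Finset.mem_filter.1 hj).2
    fin_cases i <;> fin_cases j <;> first | (exact absurd hij (by decide)) | skip
    · exact cyc5_ab hctx hgd hcg hgen htree hT h hi' hj'
    · exact cyc5_ac hctx hgd hcg hgen hT h hi' hj'
    · exact cyc5_ad hctx hgd hcg hgen hT h hi' hj'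
    · have := cyc5_bc hctx hgd hcg hgen hT hfl hi' hj'
      exact this
    · exact cyc5_bc hctx hgd hcg hgen hT h hi' hj'
    · exact cyc5_ad hctx hgd hcg hgen hT hfl hi' hj'
    · exact cyc5_ac hctx hgd hcg hgen hT hfl hi' hj'
    · exact cyc5_cd hctx hgd hcg hgen hT h hi' hj'
    · exact cyc5_ce hctx hgd hcg hgen hT h hi' hj'
    · have := cyc5_cd hctx hgd hcg hgen hT hfl hj' hi'
      rw [Finset.pair_comm] at this
      exact this
  · exact Nat.zero_le _
  · exact cyc5_num _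

end CoxData

end MP345
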