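import Mathlib
import Pool.Agent.Work.MP_345ef2_gt.T_TFORK

/-!
# Improved pair bounds for the bound 27 (helper82)
-/

namespace MP345

open Finset

variable {n : ℕ}

namespace CoxData

namespace TP

variable {D : CoxData n}

section

variable (hctx : D.StmtCTX) (hgd : D.StmtGDEC) (hcg : D.StmtCGEN) (hclf : D.StmtCLF)
  (hclt : D.StmtCLT) {T : Finset D.ι} (hT : T ∈ Tsets D.g n) {u v w p q : D.ι}
  (h : D.Fork u v w p q (D.LM T))

include hctx hgd hcg hclf hclt hT h in
/-- pair `u, w`, improved: `v` is protected in `L - u` -/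
theorem fork_uw4 (hgen : D.StmtGEN) (hu : u ∈ Rset D.g T) (hw : w ∈ Rset D.g T) :
    D.G T {u, w} ≤ 4 := by
  classical
  have hLT := (hctx T hT).2.2.1
  have hc := fork_cls hclf h
  have hHuv : D.Heavy u v := D.heavy_of_five h.vuv
  have hnv : ∀ m ∈ T, D.Adj v m → m = u ∨ m = w := by
    intro m hm hvm
    by_contra hcon
    push Not at hcon
    exact heavy_deg hctx hclt hT (by omega) (hLT (Fork.mv h)) (hLT (Fork.mu h))
      (hLT (Fork.mw h)) hm (Heavy.symm D hHuv) (Fork.Avw h) hvm h.uw hcon.1.symm hcon.2.symm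
  rw [Finset.pair_comm]
  have h1 := D.G_le_cov_h hctx hgd hT hw hu h.uw.symm (by omega) (by
    intro s hs h1 h2
    rw [h.eq] at hs
    simp only [Finset.mem_insert, Finset.mem_singleton] at hs
    rcases hs with rfl | rfl | rfl | rfl | rfl
    · exact absurd rfl h2
    · exact Or.inl (Fork.Avw h)
    · exact absurd rfl h1
    · exact Or.inl (Fork.Apw h)
    · exact Or.inl (Fork.Aqw h))
  have hg := gen_full hcg hT hw hu h.uw.symm (V := {v, p, q, w}) (by
    intro z hz
    simp only [Finset.mem_insert, Finset.mem_singleton] at hz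
    rw [Finset.mem_erase, h.eq]
    simp only [Finset.mem_insert, Finset.mem_singleton]
    rcases hz with rfl | rfl | rfl | rfl
    · exact ⟨h.uv.symm, by simp⟩
    · exact ⟨h.up.symm, by simp⟩
    · exact ⟨h.uq.symm, by simp⟩
    · exact ⟨h.uw.symm, by simp⟩) (Fork.tcs h) (by
    intro s hs h1 h2
    rw [h.eq] at hs
    simp only [Finset.mem_insert, Finset.mem_singleton] at hs ⊢
    tauto)
  have hU := hgen _ _ _ _ hg
  have hprot := hU.2.2.2.2.2.2.2.1 v ⟨by simp,
    by rw [card4 h.vp h.vq h.vw h.pq h.wp.symm h.wq.symm]; norm_num, by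
      refine nb_card_le_one (z := w) fun z hz ha => ?_
      simp only [Finset.mem_insert, Finset.mem_singleton] at hz
      rcases hz with rfl | rfl | rfl | rfl
      · exact absurd rfl ha.1
      · exact absurd ha (Fork.Nvp h)
      · exact absurd ha (Fork.Nvq h)
      · rfl, by
      intro m hm ha
      obtain ⟨m1, m2, m3, m4⟩ := mem_N1.1 hm
      rcases hnv m m1 ha with rfl | rfl
      · exact m2 (Fork.mu h)
      · exact m2 (Fork.mw h)⟩
  have := hprot.1
  have := hprot.2
  omega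

end

section

variable (hctx : D.StmtCTX) (hgd : D.StmtGDEC) (hcg : D.StmtCGEN) (hgen : D.StmtGEN)
  (htree : D.StmtTREE) {T : Finset D.ι} (hT : T ∈ Tsets D.g n) {a b c d e : D.ι}
  (h : D.Cyc5 a b c d e (D.LM T))

include hctx hT h in
/-- if `d ∈ R` then no node outside `L` is adjacent to `c` -/
theorem cyc5_no_c (hd : d ∈ Rset D.g T) {m : D.ι} (hm : m ∈ T) (hmL : m ∉ D.LM T) :
    ¬ D.Adj m c := by
  intro hmc
  have hLT := (hctx T hT).2.2.1
  have hPD := (hctx T hT).2.2.2.2.1 d hd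
  have ne : ∀ {z : D.ι}, z ∈ D.LM T → z ≠ m := by
    rintro z hz rfl; exact hmL hz
  have ma := Cyc5.ma h
  have mb := Cyc5.mb h
  have mc := Cyc5.mc h
  have md := Cyc5.md h
  have me := Cyc5.me h
  refine no_F4t hPD (s := e) (q := a) (p := b) (r := c) (t := m)
    (Finset.mem_erase.2 ⟨h.de.symm, hLT me⟩) (Finset.mem_erase.2 ⟨h.ad, hLT ma⟩)
    (Finset.mem_erase.2 ⟨h.bd, hLT mb⟩) (Finset.mem_erase.2 ⟨h.cd, hLT mc⟩)
    (Finset.mem_erase.2 ⟨(ne md).symm, hm⟩) (Cyc5.Aea h) (le_of_eq h.vab) (Cyc5.Abc h)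
    (hmc.symm D) ?_
  simp only [List.nodup_cons, List.mem_cons, List.not_mem_nil, or_false, not_or,
    not_false_eq_true, List.nodup_nil, and_true]
  exact ⟨⟨h.ae.symm, h.be.symm, h.ce.symm, ne me⟩, ⟨h.ab, h.ac, ne ma⟩, ⟨h.bc, ne mb⟩, ne mc⟩

include hctx hcg hgen hT h htree hgd in
/-- pair `a, b`, improved if `d ∈ R` -/
theorem cyc5_ab4 (ha : a ∈ Rset D.g T) (hb : b ∈ Rset D.g T) (hd : d ∈ Rset D.g T) :
    D.G T {a, b} ≤ 4 := by
  classical
  have hRL := (hctx T hT).2.2.2.1
  have hLT := (hctx T hT).2.2.1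
  have h0 : ∑ z ∈ D.N0 T (D.LM T) {a, b}, (2 - D.cnt T z {a, b}) = 0 := by
    refine N0_sum_zero fun z hz => ?_
    obtain ⟨⟨z1, z2⟩, z3⟩ := mem_N0.1 hz
    rw [NA_pair] at z3
    rw [h.eq] at z1
    simp only [Finset.mem_insert, Finset.mem_singleton] at z1
    rcases z1 with rfl | rfl | rfl | rfl | rfl
    · exact absurd ha z2
    · exact absurd hb z2
    · exact absurd (Cyc5.Acb h) z3.2
    · exact absurd hd z2
    · exact absurd (Cyc5.Aea h) z3.1
  have h5 := G_le_two hgd hT ha hb h.ab (Or.inr (Cyc5.not_five h (hRL ha) (hRL hb))) h0.le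
  by_cases hN : (D.N1 T (D.LM T) {a, b}).Nonempty
  · obtain ⟨m, hm⟩ := hN
    have hmd : D.Adj m d := by
      obtain ⟨m1, m2, m3, s, hs, hms⟩ := mem_N1.1 hm
      rw [NA_pair] at m3
      rw [h.eq] at hs
      simp only [Finset.mem_insert, Finset.mem_singleton] at hs
      rcases hs with rfl | rfl | rfl | rfl | rfl
      · exact absurd hms m3.1
      · exact absurd hms m3.2
      · exact absurd hms (cyc5_no_c hctx hT h hd m1 m2)
      · exact hms
      · exact absurd hms (cyc5_no_c hctx hT (Cyc5.flip h) hd m1 m2)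
    have h1 := cyc5_ab_N1 hctx hcg hgen htree hT h ha hb hm hmd
    have := h1.1
    have := h1.2
    omega
  · have h1 : D.N1 T (D.LM T) {a, b} = ∅ := Finset.not_nonempty_iff_eq_empty.1 hN
    have h2 : D.N2 T (D.LM T) {a, b} = ∅ := by
      refine Finset.eq_empty_of_forall_notMem fun x hx => ?_
      obtain ⟨_, _, _, _, y, hy, _⟩ := mem_N2.1 hx
      rw [h1] at hy
      simp at hy
    rw [h1, h2] at h5
    simp at h5
    omega

end

end TP

end CoxData

end MP345
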