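import Mathlib
import Pool.Agent.Work.MP_345ef2_gt.T27_Pairs
import Pool.Agent.Work.MP_345ef2_gt.TI27

/-!
# Blocks TFORK27 and TCYC527 (helper82)
-/

namespace MP345

open Finset

variable {n : ℕ}

namespace CoxData

namespace TP

variable {D : CoxData n}

/-- the bounds -/
def fork27β : Fin 5 → Fin 5 → ℕ := ![![0, 7, 4, 1, 1], ![0, 0, 6, 1, 1], ![0, 0, 0, 1, 1],
  ![0, 0, 0, 0, 2], ![0, 0, 0, 0, 0]]

theorem fork27_num : ∀ I : Finset (Fin 5),
    2 * ((∑ a ∈ I, ∑ b ∈ I, if a < b then fork27β a b else 0) +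
    2 * ∑ a ∈ I, ∑ b ∈ I, ∑ c ∈ I, if a < b ∧ b < c then
      2 - (forkA a b).toNat - (forkA a c).toNat - (forkA b c).toNat else 0) ≤
    5 * (I.card * (I.card - 1)) +
      2 * (forkQ.filter fun q => q.1 ∈ I ∧ q.2 ∈ I).card := by decide

/-- the bounds -/
def cyc527β (I : Finset (Fin 5)) : Fin 5 → Fin 5 → ℕ :=
  fun i j => if i = 0 ∧ j = 1 then (if 3 ∈ I then 4 else 5) else 4

theorem cyc527_num : ∀ I : Finset (Fin 5),
    2 * ((∑ a ∈ I, ∑ b ∈ I, if a < b then cyc527β I a b else 0) +
    2 * ∑ a ∈ I, ∑ b ∈ I, ∑ c ∈ I, if a < b ∧ b < c then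
      2 - (cyc5A a b).toNat - (cyc5A a c).toNat - (cyc5A b c).toNat else 0) ≤
    5 * (I.card * (I.card - 1)) + 2 * 0 := by decide

end TP

open TP

/-- **Block TFORK27** -/
theorem stmtTFORK27 (D : CoxData n) (hctx : D.StmtCTX) (hgd : D.StmtGDEC) (hcg : D.StmtCGEN)
    (hgen : D.StmtGEN) (htree : D.StmtTREE) (hheavy : D.StmtHEAVY) (hclf : D.StmtCLF)
    (hclt : D.StmtCLT) : D.StmtTFORK27 := by
  classical
  intro T hT u v w p q h
  have hLT := (hctx T hT).2.2.1
  have hRL := (hctx T hT).2.2.2.1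
  have hc := fork_cls hclf h
  set f : Fin 5 → D.ι := ![u, v, w, p, q] with hf
  have f0 : f 0 = u := rfl
  have f1 : f 1 = v := rfl
  have f2 : f 2 = w := rfl
  have f3 : f 3 = p := rfl
  have f4 : f 4 = q := rfl
  have hfl := Fork.flip h
  have hinj : Function.Injective f := by
    intro i j hij
    have e1 := h.uv
    have e2 := h.uw
    have e3 := h.up
    have e4 := h.uq
    have e5 := h.vw
    have e6 := h.vp
    have e7 := h.vq
    have e8 := h.wp
    have e9 := h.wq
    have e10 := h.pq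
    fin_cases i <;> fin_cases j <;> simp_all [f0, f1, f2, f3, f4]
  refine D.stmtSUM27 5 f forkA fork27β (Finset.univ.filter fun i => f i ∈ Rset D.g T) T
    (forkQ.filter fun q => q.1 ∈ (Finset.univ.filter fun i => f i ∈ Rset D.g T) ∧
      q.2 ∈ (Finset.univ.filter fun i => f i ∈ Rset D.g T)).card hinj ?_ ?_ ?_ ?_ ?_
  · intro x
    constructor
    · intro hx
      have := hRL hx
      rw [h.eq] at this
      simp only [Finset.mem_insert, Finset.mem_singleton] at this
      rcases this with rfl | rfl | rfl | rfl | rfl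
      · exact ⟨0, by simpa [f0] using hx, rfl⟩
      · exact ⟨1, by simpa [f1] using hx, rfl⟩
      · exact ⟨2, by simpa [f2] using hx, rfl⟩
      · exact ⟨3, by simpa [f3] using hx, rfl⟩
      · exact ⟨4, by simpa [f4] using hx, rfl⟩
    · rintro ⟨i, hi, rfl⟩
      exact (Finset.mem_filter.1 hi).2
  · intro i j hij
    have a1 := Fork.Auv h
    have a2 := Fork.Avw h
    have a3 := Fork.Awp h
    have a4 := Fork.Awq h
    have b1 := Fork.Avu h
    have b2 := Fork.Awv h
    have b3 := Fork.Apw h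
    have b4 := Fork.Aqw h
    fin_cases i <;> fin_cases j <;> first | assumption | (exact absurd hij (by decide))
  · intro i hi j hj hij
    have hi' := (Finset.mem_filter.1 hi).2
    have hj' := (Finset.mem_filter.1 hj).2
    fin_cases i <;> fin_cases j <;> first | (exact absurd hij (by decide)) | skip
    · exact fork_uv hgen htree hT h hctx hgd hcg hclf hi' hj'
    · exact fork_uw4 hctx hgd hcg hclf hclt hT h hgen hi' hj'
    · exact fork_up hctx hgd hcg hclf hT h hi' hj'
    · exact fork_up hctx hgd hcg hclf hT hfl hi' hj'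
    · exact fork_vw hgen hheavy hctx hgd hcg hclf hclt hT h hi' hj'
    · exact fork_vp hctx hgd hcg hclf hT h hi' hj'
    · exact fork_vp hctx hgd hcg hclf hT hfl hi' hj'
    · exact fork_wp hctx hgd hcg hclf hT h hi' hj'
    · exact fork_wp hctx hgd hcg hclf hT hfl hi' hj'
    · exact fork_pq hctx hgd hcg hclf hT h hi' hj'
  · refine lvs_ge_idx hinj _ fun x hx => ?_
    obtain ⟨hx1, hx2, hx3⟩ := Finset.mem_filter.1 hx
    have hx2 := (Finset.mem_filter.1 hx2).2
    have hx3 := (Finset.mem_filter.1 hx3).2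
    refine ⟨hx2, hx3, ?_⟩
    have hHuv : D.Heavy u v := D.heavy_of_five h.vuv
    have hnv : ∀ m ∈ T, D.Adj v m → m = u ∨ m = w := by
      intro m hm hvm
      by_contra hcon
      push Not at hcon
      exact heavy_deg hctx hclt hT (by omega) (hLT (Fork.mv h)) (hLT (Fork.mu h))
        (hLT (Fork.mw h)) hm (Heavy.symm D hHuv) (Fork.Avw h) hvm h.uw hcon.1.symm hcon.2.symm
    simp only [forkQ, Finset.mem_insert, Finset.mem_singleton] at hx1
    rcases hx1 with rfl | rfl | rfl
    · exact ⟨by decide, leafAt_of (z := w) hnv⟩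
    · exact ⟨by decide, heavy_leaf hctx hclt hT (by omega) (hLT (Fork.mu h)) (hLT (Fork.mv h))
        hHuv⟩
    · exact ⟨by decide, leafAt_of (z := u) fun m hm hvm => (hnv m hm hvm).symm⟩
  · exact fork27_num _

/-- **Block TCYC527** -/
theorem stmtTCYC527 (D : CoxData n) (hctx : D.StmtCTX) (hgd : D.StmtGDEC) (hcg : D.StmtCGEN)
    (hgen : D.StmtGEN) (htree : D.StmtTREE) : D.StmtTCYC527 := by
  classical
  intro T hT a b c d e h
  have hRL := (hctx T hT).2.2.2.1
  set f : Fin 5 → D.ι := ![a, b, c, d, e] with hf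
  have f0 : f 0 = a := rfl
  have f1 : f 1 = b := rfl
  have f2 : f 2 = c := rfl
  have f3 : f 3 = d := rfl
  have f4 : f 4 = e := rfl
  have hfl := Cyc5.flip h
  refine D.stmtSUM27 5 f cyc5A (cyc527β (Finset.univ.filter fun i => f i ∈ Rset D.g T))
    (Finset.univ.filter fun i => f i ∈ Rset D.g T) T 0 ?_ ?_ ?_ ?_ ?_ ?_
  · intro i j hij
    have e1 := h.ab
    have e2 := h.ac
    have e3 := h.ad
    have e4 := h.ae
    have e5 := h.bc
    have e6 := h.bd
    have e7 := h.be
    have e8 := h.cd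
    have e9 := h.ce
    have e10 := h.de
    fin_cases i <;> fin_cases j <;> simp_all [f0, f1, f2, f3, f4]
  · intro x
    constructor
    · intro hx
      have := hRL hx
      rw [h.eq] at this
      simp only [Finset.mem_insert, Finset.mem_singleton] at this
      rcases this with rfl | rfl | rfl | rfl | rfl
      · exact ⟨0, by simpa [f0] using hx, rfl⟩
      · exact ⟨1, by simpa [f1] using hx, rfl⟩
      · exact ⟨2, by simpa [f2] using hx, rfl⟩
      · exact ⟨3, by simpa [f3] using hx, rfl⟩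
      · exact ⟨4, by simpa [f4] using hx, rfl⟩
    · rintro ⟨i, hi, rfl⟩
      exact (Finset.mem_filter.1 hi).2
  · intro i j hij
    have a1 := Cyc5.Aab h
    have a2 := Cyc5.Abc h
    have a3 := Cyc5.Acd h
    have a4 := Cyc5.Ade h
    have a5 := Cyc5.Aea h
    have b1 := Cyc5.Aba h
    have b2 := Cyc5.Acb h
    have b3 := Cyc5.Adc h
    have b4 := Cyc5.Aed h
    have b5 := Cyc5.Aae h
    fin_cases i <;> fin_cases j <;> first | assumption | (exact absurd hij (by decide))
  · intro i hi j hj hij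
    have hi' := (Finset.mem_filter.1 hi).2
    have hj' := (Finset.mem_filter.1 hj).2
    fin_cases i <;> fin_cases j <;> first | (exact absurd hij (by decide)) | skip
    · change D.G T {a, b} ≤ if (3 : Fin 5) ∈ (Finset.univ.filter fun i => f i ∈ Rset D.g T)
        then 4 else 5
      split_ifs with h3
      · exact cyc5_ab4 hctx hgd hcg hgen htree hT h hi' hj' (Finset.mem_filter.1 h3).2
      · exact cyc5_ab hctx hgd hcg hgen htree hT h hi' hj'
    · exact cyc5_ac hctx hgd hcg hgen hT h hi' hj'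
    · exact cyc5_ad hctx hgd hcg hgen hT h hi' hj'
    · have := cyc5_bc hctx hgd hcg hgen hT hfl hi' hj'
      exact this
    · exact cyc5_bc hctx hgd hcg hgen hT h hi' hj'
    · exact cyc5_ad hctx hgd hcg hgen hT hfl hi' hj'
    · exact cyc5_ac hctx hgd hcg hgen hT hfl hi' hj'
    · exact cyc5_cd hctx hgd hcg hgen hT h hi' hj'
    · exact cyc5_ce hctx hgd hcg hgen hT h hi' hj'
    · have := cyc5_cd hctx hgd hcg hgen hT hfl hj' hi'
      rw [Finset.pair_comm] at this
      exact this
  · exact Nat.zero_le _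
  · exact cyc527_num _

end CoxData

end MP345
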