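import Mathlib
import Pool.Agent.Work.MP_345ef2_gt.T_PairH

/-!
# Block TSTAR (MP_345ef2_gt, T level)
-/

namespace MP345

open Finset

variable {n : ℕ}

namespace CoxData

variable (D : CoxData n)

theorem inj4_h {α : Type*} {a b c d : α} (h1 : a ≠ b) (h2 : a ≠ c) (h3 : a ≠ d) (h4 : b ≠ c)
    (h5 : b ≠ d) (h6 : c ≠ d) : Function.Injective ![a, b, c, d] := by
  intro i j h
  fin_cases i <;> fin_cases j <;> simp_all

/-- reduction of `TB` to the six pairs (`L` of order 4) -/
theorem tb4_h (hctx : D.StmtCTX) (hsum : D.StmtSUM) {T : Finset D.ι} (hT : T ∈ Tsets D.g n)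
    {a b c d : D.ι} (hL : D.LM T = {a, b, c, d}) (h1 : a ≠ b) (h2 : a ≠ c) (h3 : a ≠ d)
    (h4 : b ≠ c) (h5 : b ≠ d) (h6 : c ≠ d) (A : Fin 4 → Fin 4 → Bool) (β : Fin 4 → Fin 4 → ℕ)
    (hA : ∀ i j, A i j = true → D.Adj (![a, b, c, d] i) (![a, b, c, d] j))
    (b01 : a ∈ Rset D.g T → b ∈ Rset D.g T → D.G T {a, b} ≤ β 0 1)
    (b02 : a ∈ Rset D.g T → c ∈ Rset D.g T → D.G T {a, c} ≤ β 0 2)
    (b03 : a ∈ Rset D.g T → d ∈ Rset D.g T → D.G T {a, d} ≤ β 0 3)
    (b12 : b ∈ Rset D.g T → c ∈ Rset D.g T → D.G T {b, c} ≤ β 1 2)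
    (b13 : b ∈ Rset D.g T → d ∈ Rset D.g T → D.G T {b, d} ≤ β 1 3)
    (b23 : c ∈ Rset D.g T → d ∈ Rset D.g T → D.G T {c, d} ≤ β 2 3)
    (hnum : ∀ I : Finset (Fin 4), 3 * ((∑ a ∈ I, ∑ b ∈ I, if a < b then β a b else 0) +
      2 * ∑ a ∈ I, ∑ b ∈ I, ∑ c ∈ I, if a < b ∧ b < c then
      2 - (A a b).toNat - (A a c).toNat - (A b c).toNat else 0) ≤ 8 * (I.card * (I.card - 1))) :
    D.TB T := by
  classical
  refine hsum 4 ![a, b, c, d] A β (Finset.univ.filter fun i => ![a, b, c, d] i ∈ Rset D.g T) T 0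
    (inj4_h h1 h2 h3 h4 h5 h6) ?_ hA ?_ (Nat.zero_le _) ?_
  · intro x
    constructor
    · intro hx
      have h := (hctx T hT).2.2.2.1 hx
      rw [hL] at h
      simp only [Finset.mem_insert, Finset.mem_singleton] at h
      rcases h with rfl | rfl | rfl | rfl
      · exact ⟨0, by simpa using hx, rfl⟩
      · exact ⟨1, by simpa using hx, rfl⟩
      · exact ⟨2, by simpa using hx, rfl⟩
      · exact ⟨3, by simpa using hx, rfl⟩
    · rintro ⟨i, hi, rfl⟩
      exact (Finset.mem_filter.1 hi).2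
  · intro i hi j hj hij
    have hi := (Finset.mem_filter.1 hi).2
    have hj := (Finset.mem_filter.1 hj).2
    fin_cases i <;> fin_cases j <;>
      first
      | exact absurd hij (by decide)
      | exact b01 hi hj
      | exact b02 hi hj
      | exact b03 hi hj
      | exact b12 hi hj
      | exact b13 hi hj
      | exact b23 hi hj
  · have := hnum (Finset.univ.filter fun i => ![a, b, c, d] i ∈ Rset D.g T)
    simpa using this

theorem star_zx_h (hctx : D.StmtCTX) (hgdec : D.StmtGDEC) (hcgen : D.StmtCGEN) {T : Finset D.ι}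
    (hT : T ∈ Tsets D.g n) {z x y w : D.ι} (hL : D.LM T = {z, x, y, w}) (zx : D.Adj z x)
    (zy : D.Adj z y) (zw : D.Adj z w) (xy : x ≠ y) (xw : x ≠ w) (yw : y ≠ w)
    (hz : z ∈ Rset D.g T) (hx : x ∈ Rset D.g T) : D.G T {z, x} ≤ 5 := by
  classical
  have hcard : (D.LM T).card ≤ 4 := by rw [hL]; exact Finset.card_le_four
  have h1 := D.G_le_cov_h hctx hgdec hT hz hx zx.1 (D.cls_ne_four_h hcard) (by
    intro s hs h1 h2
    rw [hL] at hs
    simp only [Finset.mem_insert, Finset.mem_singleton] at hs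
    rcases hs with rfl | rfl | rfl | rfl
    · exact absurd rfl h1
    · exact absurd rfl h2
    · exact Or.inl (zy.symm D)
    · exact Or.inl (zw.symm D))
  have ht : D.TC {w, y, z} := TC_insert (TC_pair (zy.symm D)) (by simp [yw.symm, zw.1.symm])
    (u := z) (by simp) (zw.symm D)
  have h2 := (D.gen_at_h hcgen hT hz hx zx.1 (V := {w, y, z}) (by
    intro s hs
    simp only [Finset.mem_insert, Finset.mem_singleton] at hs
    rw [Finset.mem_erase, hL]
    simp only [Finset.mem_insert, Finset.mem_singleton]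
    rcases hs with rfl | rfl | rfl
    · exact ⟨xw.symm, by simp⟩
    · exact ⟨xy.symm, by simp⟩
    · exact ⟨zx.1, by simp⟩) ht (by
    intro s hs h1 h2
    rw [hL] at hs
    simp only [Finset.mem_insert, Finset.mem_singleton] at hs ⊢
    tauto)).2.2.1
  omega

theorem star_xy_h (hctx : D.StmtCTX) (hgdec : D.StmtGDEC) (hcgen : D.StmtCGEN) {T : Finset D.ι}
    (hT : T ∈ Tsets D.g n) {z x y w : D.ι} (hL : D.LM T = {z, x, y, w}) (zx : D.Adj z x)
    (zy : D.Adj z y) (zw : D.Adj z w) (xy : x ≠ y) (xw : x ≠ w) (yw : y ≠ w)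
    (hx : x ∈ Rset D.g T) (hy : y ∈ Rset D.g T) (hfive : D.g z x = -c5 ∨ D.g z w = -c5) :
    D.G T {x, y} ≤ 2 := by
  classical
  have hcard : (D.LM T).card ≤ 4 := by rw [hL]; exact Finset.card_le_four
  have hzT : z ∈ T := (hctx T hT).2.2.1 (by rw [hL]; simp)
  have h1 := (hgdec T hT x hx y hy xy).1 (D.cls_ne_four_h hcard)
  have h2 := D.N0_sum_le_h T hx hy {w} (fun s hs h3 h4 h5 h6 => by
    rw [hL] at hs
    simp only [Finset.mem_insert, Finset.mem_singleton] at hs ⊢
    rcases hs with rfl | rfl | rfl | rfl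
    · exact absurd zx h5
    · exact absurd rfl h3
    · exact absurd rfl h4
    · rfl)
  rw [Finset.sum_singleton] at h2
  have h3 : 2 ≤ D.cnt T w {x, y} := cnt_two (p := x) (p' := y) (by simp) (by simp) xy hzT
    (by simp [zx.1, zy.1]) zw zx hzT (by simp [zx.1, zy.1]) zw zy
  have h4 := D.N1_cnt2_h T (a := x) (b := y)
  have ht : D.TC {w, x, z} := TC_insert (TC_pair (zx.symm D)) (by simp [xw.symm, zw.1.symm])
    (u := z) (by simp) (zw.symm D)
  have h5' := (D.gen_at_h hcgen hT hx hy xy (V := {w, x, z}) (by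
    intro s hs
    simp only [Finset.mem_insert, Finset.mem_singleton] at hs
    rw [Finset.mem_erase, hL]
    simp only [Finset.mem_insert, Finset.mem_singleton]
    rcases hs with rfl | rfl | rfl
    · exact ⟨yw.symm, by simp⟩
    · exact ⟨xy, by simp⟩
    · exact ⟨zy.1, by simp⟩) ht (by
    intro s hs h1 h2
    rw [hL] at hs
    simp only [Finset.mem_insert, Finset.mem_singleton] at hs ⊢
    tauto)).2.2.2.2.2 (by
      rcases hfive with h | h
      · exact ⟨z, by simp, x, by simp, h⟩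
      · exact ⟨z, by simp, w, by simp, h⟩)
  have h6 : ({w, x, z} : Finset D.ι).card = 3 := by
    rw [Finset.card_insert_of_notMem (by simp [xw.symm, zw.1.symm]), Finset.card_pair zx.1.symm]
  omega

theorem stmtTSTAR (hctx : D.StmtCTX) (hgdec : D.StmtGDEC) (hcgen : D.StmtCGEN)
    (hsum : D.StmtSUM) : D.StmtTSTAR := by
  classical
  intro T hT z u p q h
  have e := h.eq
  refine D.tb4_h hctx hsum hT e h.zu h.zp h.zq h.up h.uq h.pq
    ![![false, true, true, true], ![true, false, false, false], ![true, false, false, false],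
      ![true, false, false, false]]
    ![![0, 5, 5, 5], ![0, 0, 2, 2], ![0, 0, 0, 2], ![0, 0, 0, 0]] ?_ ?_ ?_ ?_ ?_ ?_ ?_ ?_
  · intro i j hij
    fin_cases i <;> fin_cases j <;>
      first
      | exact absurd hij (by decide)
      | exact h.Azu
      | exact h.Azp
      | exact h.Azq
      | exact h.Auz
      | exact h.Apz
      | exact h.Aqz
  · exact fun h1 h2 => D.star_zx_h hctx hgdec hcgen hT e h.Azu h.Azp h.Azq h.up h.uq h.pq h1 h2
  · exact fun h1 h2 => D.star_zx_h hctx hgdec hcgen hT (x := p) (y := u) (w := q)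
      (by rw [e]; ext; simp; tauto) h.Azp h.Azu h.Azq h.up.symm h.pq h.uq h1 h2
  · exact fun h1 h2 => D.star_zx_h hctx hgdec hcgen hT (x := q) (y := u) (w := p)
      (by rw [e]; ext; simp; tauto) h.Azq h.Azu h.Azp h.uq.symm h.pq.symm h.up h1 h2
  · exact fun h1 h2 => D.star_xy_h hctx hgdec hcgen hT (x := u) (y := p) (w := q)
      (by rw [e]) h.Azu h.Azp h.Azq h.up h.uq h.pq h1 h2 (Or.inl h.vzu)
  · exact fun h1 h2 => D.star_xy_h hctx hgdec hcgen hT (x := u) (y := q) (w := p)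
      (by rw [e]; ext; simp; tauto) h.Azu h.Azq h.Azp h.uq h.up h.pq.symm h1 h2 (Or.inl h.vzu)
  · exact fun h1 h2 => D.star_xy_h hctx hgdec hcgen hT (x := p) (y := q) (w := u)
      (by rw [e]; ext; simp; tauto) h.Azp h.Azq h.Azu h.pq h.up.symm h.uq.symm h1 h2
      (Or.inr h.vzu)
  · decide

end CoxData

end MP345
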