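import Mathlib
import Pool.Agent.Work.MP_345ef2_gt.T_TSTAR
import Pool.Agent.Work.MP_345ef2_gt.D_LCON
import Pool.Agent.Work.MP_345ef2_gt.D_SIGN

/-!
# Block T353 (MP_345ef2_gt, T level)
-/

namespace MP345

open Finset

variable {n : ℕ}

namespace CoxData

variable (D : CoxData n)

theorem p353_one (hctx : D.StmtCTX) (hclf : D.StmtCLF) {T : Finset D.ι} (hT : T ∈ Tsets D.g n)
    {a b c d : D.ι} (h : D.Path4 a b c d (1 / 2) c5 (1 / 2) (D.LM T)) (hb : b ∈ Rset D.g T)
    (hc : c ∈ Rset D.g T) {m m' : D.ι} (hm : m ∈ T) (hm' : m' ∈ T) (hmL : m ∉ D.LM T)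
    (hm'L : m' ∉ D.LM T) (hne : m ≠ m') (ham : D.Adj a m) (ham' : D.Adj a m')
    (nmb : ¬ D.Adj m b) (nmc : ¬ D.Adj m c) (nmb' : ¬ D.Adj m' b) (nmc' : ¬ D.Adj m' c) :
    False := by
  classical
  have Aab := h.Aab (by norm_num)
  have Aba := h.Aba (by norm_num)
  have Abc := h.Abc c5_pos
  have Acb := h.Acb c5_pos
  have hLT := (hctx T hT).2.2.1
  have haT := hLT h.ma
  have hbT := hLT h.mb
  have hcT := hLT h.mc
  have hma : m ≠ a := fun e => hmL (e ▸ h.ma)
  have hmb : m ≠ b := fun e => hmL (e ▸ h.mb)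
  have hmc : m ≠ c := fun e => hmL (e ▸ h.mc)
  have hma' : m' ≠ a := fun e => hm'L (e ▸ h.ma)
  have hmb' : m' ≠ b := fun e => hm'L (e ▸ h.mb)
  have hmc' : m' ≠ c := fun e => hm'L (e ▸ h.mc)
  have hUT : ({m', m, a, c, b} : Finset D.ι) ⊆ T := by
    intro s hs
    simp only [Finset.mem_insert, Finset.mem_singleton] at hs
    rcases hs with rfl | rfl | rfl | rfl | rfl <;> assumption
  have tU : D.TC {m', m, a, c, b} :=
    TC_insert (TC_insert (TC_insert (TC_pair Acb) (by simp [h.ac, h.ab]) (u := b) (by simp) Aab)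
      (by simp [hma, hmc, hmb]) (u := a) (by simp) (ham.symm D))
      (by simp [hne.symm, hma', hmc', hmb']) (u := a) (by simp) (ham'.symm D)
  have hUn : ¬ PD D.g ({m', m, a, c, b} : Finset D.ι) := by
    intro hU
    have h1 := D.stmtHEAVY _ hU tU ⟨b, by simp, c, by simp, D.heavy_of_five h.vbc⟩ a (by simp)
    exact D.deg2_of h1 (x := b) (y := m) (z := m') (by simp) (by simp) (by simp) Aab ham ham'
      hmb.symm hmb'.symm hne
  obtain ⟨A, hAU, hA⟩ := D.exists_lan _ hUn
  obtain ⟨hRA, hcls⟩ := (hctx T hT).2.2.2.2.2.2 A (hAU.trans hUT) hA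
  rw [hclf.2.1 _ a b c d h] at hcls
  obtain ⟨h4, _, h353⟩ := hclf.2.2.2.2.1 A hA (by omega)
  have hdeg := hclf.2.2.2.2.2.1 A hA hcls
  have hbA := hRA hb
  have hcA := hRA hc
  have haA : a ∈ A := by
    by_contra haA
    obtain ⟨s, hs, t, htA, htn, hst⟩ := D.stmtLCON A {b, c} hA (by
      intro s hs
      simp only [Finset.mem_insert, Finset.mem_singleton] at hs
      rcases hs with rfl | rfl <;> assumption) ⟨b, by simp⟩ (by
      intro e; rw [← e, Finset.card_pair h.bc] at h4; omega)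
    have htU := hAU htA
    simp only [Finset.mem_insert, Finset.mem_singleton, not_or] at hs htn htU
    rcases htU with rfl | rfl | rfl | rfl | rfl
    · rcases hs with rfl | rfl
      · exact nmb' (hst.symm D)
      · exact nmc' (hst.symm D)
    · rcases hs with rfl | rfl
      · exact nmb (hst.symm D)
      · exact nmc (hst.symm D)
    · exact haA htA
    · exact htn.2 rfl
    · exact htn.1 rfl
  have hcard : A.card = 4 := by
    by_cases h1 : m ∈ A
    · by_cases h2 : m' ∈ A
      · exact (D.deg2_of (hdeg a haA) (x := b) (y := m) (z := m') hbA h1 h2 Aab ham ham'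
          hmb.symm hmb'.symm hne).elim
      · have : A ⊆ {m, a, c, b} := by
          intro s hs
          have := hAU hs
          simp only [Finset.mem_insert, Finset.mem_singleton] at this ⊢
          rcases this with rfl | h3
          · exact absurd hs h2
          · exact h3
        have h5 := Finset.card_le_card this
        have h6 := Finset.card_le_four (a := m) (b := a) (c := c) (d := b)
        omega
    · have : A ⊆ {m', a, c, b} := by
        intro s hs
        have := hAU hs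
        simp only [Finset.mem_insert, Finset.mem_singleton] at this ⊢
        rcases this with rfl | rfl | h3
        · exact Or.inl rfl
        · exact absurd hs h1
        · exact Or.inr h3
      have h5 := Finset.card_le_card this
      have h6 := Finset.card_le_four (a := m') (b := a) (c := c) (d := b)
      omega
  have honly : ∀ t ∈ A, D.Adj c t → t = b := by
    intro t ht hct
    have htU := hAU ht
    simp only [Finset.mem_insert, Finset.mem_singleton] at htU
    rcases htU with rfl | rfl | rfl | rfl | rfl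
    · exact absurd (hct.symm D) nmc'
    · exact absurd (hct.symm D) nmc
    · exact absurd hct h.Nca
    · exact absurd rfl hct.1
    · rfl
  obtain ⟨x, y, z, w, hp⟩ := h353 hcard
  have h5 := c5_gt
  have hcA' := hcA
  rw [hp.eq] at hcA'
  simp only [Finset.mem_insert, Finset.mem_singleton] at hcA'
  rcases hcA' with rfl | rfl | rfl | rfl
  · have e1 := honly y hp.mb (hp.Aab (by norm_num))
    subst e1
    have e2 := hp.vab
    rw [D.symm, h.vbc] at e2
    linarith
  · have e1 := honly x hp.ma (hp.Aba (by norm_num))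
    have e2 := honly z hp.mc (hp.Abc c5_pos)
    exact hp.ac (e1.trans e2.symm)
  · have e1 := honly y hp.mb (hp.Acb c5_pos)
    have e2 := honly w hp.md (hp.Acd (by norm_num))
    exact hp.bd (e1.trans e2.symm)
  · have e1 := honly z hp.mc (hp.Adc (by norm_num))
    subst e1
    have e2 := hp.vcd
    rw [h.vbc] at e2
    linarith

theorem p353_N1 (hctx : D.StmtCTX) (hclf : D.StmtCLF) {T : Finset D.ι} (hT : T ∈ Tsets D.g n)
    {a b c d : D.ι} (h : D.Path4 a b c d (1 / 2) c5 (1 / 2) (D.LM T)) (hb : b ∈ Rset D.g T)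
    (hc : c ∈ Rset D.g T) : (D.N1p_h T (D.LM T) {b, c} {a, b}).card ≤ 1 := by
  classical
  refine Finset.card_le_one.2 fun m hm m' hm' => ?_
  by_contra hne
  have key : ∀ m ∈ D.N1p_h T (D.LM T) {b, c} {a, b}, m ∈ T ∧ m ∉ D.LM T ∧ ¬ D.Adj m b ∧
      ¬ D.Adj m c ∧ D.Adj a m := by
    intro m hm
    have hm1 := Finset.mem_filter.1 hm
    obtain ⟨h1, h2, h3, _⟩ := D.mem_N1_h.1 hm1.1
    obtain ⟨v, hv, hmv⟩ := hm1.2
    simp only [Finset.mem_insert, Finset.mem_singleton] at hv
    refine ⟨h1, h2, h3 b (by simp), h3 c (by simp), ?_⟩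
    rcases hv with rfl | rfl
    · exact hmv.symm D
    · exact absurd hmv (h3 v (by simp))
  obtain ⟨a1, a2, a3, a4, a5⟩ := key m hm
  obtain ⟨b1, b2, b3, b4, b5⟩ := key m' hm'
  exact D.p353_one hctx hclf hT h hb hc a1 b1 a2 b2 hne a5 b5 a3 a4 b3 b4

theorem p353_leaf (hctx : D.StmtCTX) (hclf : D.StmtCLF) (hclt : D.StmtCLT) {T : Finset D.ι}
    (hT : T ∈ Tsets D.g n) {a b c d : D.ι}
    (h : D.Path4 a b c d (1 / 2) c5 (1 / 2) (D.LM T)) : LeafAt D T c b := by
  classical
  refine leafAt_of (z := a) fun y hy hby => ?_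
  by_contra hno
  push Not at hno
  have hLT := (hctx T hT).2.2.1
  have h3 := hclf.2.1 _ a b c d h
  have hpd : PD D.g ({a, b, c, y} : Finset D.ι) := by
    refine (hclt T hT).2.1 (by omega) _ ?_ Finset.card_le_four ⟨b, by simp, ?_⟩
    · intro s hs
      simp only [Finset.mem_insert, Finset.mem_singleton] at hs
      rcases hs with rfl | rfl | rfl | rfl
      · exact hLT h.ma
      · exact hLT h.mb
      · exact hLT h.mc
      · exact hy
    · have h1 : ({a, c, y} : Finset D.ι) ⊆ D.nb {a, b, c, y} b := by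
        intro s hs
        simp only [Finset.mem_insert, Finset.mem_singleton] at hs
        rcases hs with rfl | rfl | rfl
        · exact (mem_nb D).2 ⟨by simp, h.Aba (by norm_num)⟩
        · exact (mem_nb D).2 ⟨by simp, h.Abc c5_pos⟩
        · exact (mem_nb D).2 ⟨by simp, hby⟩
      have h2 := Finset.card_le_card h1
      rw [Finset.card_insert_of_notMem (by simp [h.ac, Ne.symm hno.2]),
        Finset.card_pair (Ne.symm hno.1)] at h2
      exact h2
  exact no_heavy3 hpd (p := b) (q := c) (r := a) (s := y) (by simp) (by simp) (by simp) (by simp)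
    h.ac.symm (Ne.symm hno.1) (Ne.symm hno.2) (c5_heavy h.vbc) h.bc (h.Aba (by norm_num)) hby

/-- reduction of `TB` to the six pairs (`L` of order 4), with leaves -/
theorem tb4L_h (hctx : D.StmtCTX) (hsum : D.StmtSUM) {T : Finset D.ι} (hT : T ∈ Tsets D.g n)
    {a b c d : D.ι} (hL : D.LM T = {a, b, c, d}) (h1 : a ≠ b) (h2 : a ≠ c) (h3 : a ≠ d)
    (h4 : b ≠ c) (h5 : b ≠ d) (h6 : c ≠ d) (A : Fin 4 → Fin 4 → Bool) (β : Fin 4 → Fin 4 → ℕ)
    (hA : ∀ i j, A i j = true → D.Adj (![a, b, c, d] i) (![a, b, c, d] j))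
    (b01 : a ∈ Rset D.g T → b ∈ Rset D.g T → D.G T {a, b} ≤ β 0 1)
    (b02 : a ∈ Rset D.g T → c ∈ Rset D.g T → D.G T {a, c} ≤ β 0 2)
    (b03 : a ∈ Rset D.g T → d ∈ Rset D.g T → D.G T {a, d} ≤ β 0 3)
    (b12 : b ∈ Rset D.g T → c ∈ Rset D.g T → D.G T {b, c} ≤ β 1 2)
    (b13 : b ∈ Rset D.g T → d ∈ Rset D.g T → D.G T {b, d} ≤ β 1 3)
    (b23 : c ∈ Rset D.g T → d ∈ Rset D.g T → D.G T {c, d} ≤ β 2 3)
    (lam : ℕ) (hlam : lam ≤ D.lvs T)
    (C : Finset (Fin 4) → Prop)
    (hC : ∀ I : Finset (Fin 4), (∀ i, i ∈ I ↔ ![a, b, c, d] i ∈ Rset D.g T) → C I)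
    (hnum : ∀ I : Finset (Fin 4), C I → 3 * ((∑ a ∈ I, ∑ b ∈ I, if a < b then β a b else 0) +
      2 * ∑ a ∈ I, ∑ b ∈ I, ∑ c ∈ I, if a < b ∧ b < c then
      2 - (A a b).toNat - (A a c).toNat - (A b c).toNat else 0) ≤
      8 * (I.card * (I.card - 1)) + 3 * lam) :
    D.TB T := by
  classical
  refine hsum 4 ![a, b, c, d] A β (Finset.univ.filter fun i => ![a, b, c, d] i ∈ Rset D.g T) T lam
    (inj4_h h1 h2 h3 h4 h5 h6) ?_ hA ?_ hlam ?_
  · intro x
    constructor
    · intro hx
      have h := (hctx T hT).2.2.2.1 hx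
      rw [hL] at h
      simp only [Finset.mem_insert, Finset.mem_singleton] at h
      rcases h with rfl | rfl | rfl | rfl
      · exact ⟨0, by simpa using hx, rfl⟩
      · exact ⟨1, by simpa using hx, rfl⟩
      · exact ⟨2, by simpa using hx, rfl⟩
      · exact ⟨3, by simpa using hx, rfl⟩
    · rintro ⟨i, hi, rfl⟩
      exact (Finset.mem_filter.1 hi).2
  · intro i hi j hj hij
    have hi := (Finset.mem_filter.1 hi).2
    have hj := (Finset.mem_filter.1 hj).2
    fin_cases i <;> fin_cases j <;>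
      first
      | exact absurd hij (by decide)
      | exact b01 hi hj
      | exact b02 hi hj
      | exact b03 hi hj
      | exact b12 hi hj
      | exact b13 hi hj
      | exact b23 hi hj
  · exact hnum _ (hC _ (fun i => by simp))

/-- the pair of an end and its neighbour -/
theorem p353_ab (hctx : D.StmtCTX) (hgdec : D.StmtGDEC) (hcgen : D.StmtCGEN)
    {T : Finset D.ι} (hT : T ∈ Tsets D.g n) {a b c d : D.ι}
    (h : D.Path4 a b c d (1 / 2) c5 (1 / 2) (D.LM T)) (ha : a ∈ Rset D.g T)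
    (hb : b ∈ Rset D.g T) : D.G T {a, b} ≤ 3 := by
  classical
  have e := h.eq
  have Acb := h.Acb c5_pos
  have Acd := h.Acd (by norm_num)
  have hcard : (D.LM T).card ≤ 4 := by rw [e]; exact Finset.card_le_four
  have hcls := D.cls_ne_four_h hcard
  have hcT : c ∈ T := (hctx T hT).2.2.1 h.mc
  rw [D.G_comm_h]
  have h1 := (hgdec T hT b hb a ha h.ab.symm).1 hcls
  have h2 := D.N0_sum_le_h T hb ha {d} (fun s hs h3 h4 h5 h6 => by
    rw [e] at hs
    simp only [Finset.mem_insert, Finset.mem_singleton] at hs ⊢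
    rcases hs with rfl | rfl | rfl | rfl
    · exact absurd rfl h4
    · exact absurd rfl h3
    · exact absurd Acb h5
    · rfl)
  rw [Finset.sum_singleton] at h2
  have h3 : 1 ≤ D.cnt T d {b, a} := cnt_pos (p := b) (by simp) hcT
    (by simp [h.bc.symm, h.ac.symm]) Acd Acb
  have h4 := D.N1_cnt2_h T (a := b) (b := a)
  have tbcd : D.TC {d, c, b} := TC_insert (TC_pair Acb) (by simp [h.cd.symm, h.bd.symm])
    (u := c) (by simp) (Acd.symm D)
  have h5 := (D.gen_at_h hcgen hT hb ha h.ab.symm (V := {d, c, b}) (by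
    intro s hs
    simp only [Finset.mem_insert, Finset.mem_singleton] at hs
    rw [Finset.mem_erase]
    rcases hs with rfl | rfl | rfl
    · exact ⟨h.ad.symm, h.md⟩
    · exact ⟨h.ac.symm, h.mc⟩
    · exact ⟨h.ab.symm, h.mb⟩) tbcd (by
    intro s hs _ h2
    rw [e] at hs
    simp only [Finset.mem_insert, Finset.mem_singleton] at hs ⊢
    tauto)).2.2.2.2.2 ⟨b, by simp, c, by simp, h.vbc⟩
  have c3 : ({d, c, b} : Finset D.ι).card = 3 := by
    rw [Finset.card_insert_of_notMem (by simp [h.cd.symm, h.bd.symm]), Finset.card_pair h.bc.symm]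
  omega

/-- a covering pair that contains an end of the path -/
theorem p353_cov (hctx : D.StmtCTX) (hgdec : D.StmtGDEC) (hcgen : D.StmtCGEN)
    {T : Finset D.ι} (hT : T ∈ Tsets D.g n) {a b c d x : D.ι}
    (h : D.Path4 a b c d (1 / 2) c5 (1 / 2) (D.LM T)) (hx : x ∈ Rset D.g T)
    (ha : a ∈ Rset D.g T) (hxa : x = c ∨ x = d) : D.G T {x, a} ≤ 1 := by
  classical
  have e := h.eq
  have Aba := h.Aba (by norm_num)
  have Acb := h.Acb c5_pos
  have Acd := h.Acd (by norm_num)
  have hcard : (D.LM T).card ≤ 4 := by rw [e]; exact Finset.card_le_four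
  have hcls := D.cls_ne_four_h hcard
  have hne : x ≠ a := by
    rcases hxa with rfl | rfl
    · exact h.ac.symm
    · exact h.ad.symm
  have h1 := D.G_le_cov_h hctx hgdec hT hx ha hne hcls (by
    intro s hs h1 h2
    rw [e] at hs
    simp only [Finset.mem_insert, Finset.mem_singleton] at hs
    rcases hs with rfl | rfl | rfl | rfl
    · exact absurd rfl h2
    · exact Or.inr Aba
    · rcases hxa with rfl | rfl
      · exact absurd rfl h1
      · exact Or.inl Acd
    · rcases hxa with rfl | rfl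
      · exact Or.inl (Acd.symm D)
      · exact absurd rfl h1)
  have tbcd : D.TC {d, c, b} := TC_insert (TC_pair Acb) (by simp [h.cd.symm, h.bd.symm])
    (u := c) (by simp) (Acd.symm D)
  have h5 := (D.gen_at_h hcgen hT hx ha hne (V := {d, c, b}) (by
    intro s hs
    simp only [Finset.mem_insert, Finset.mem_singleton] at hs
    rw [Finset.mem_erase]
    rcases hs with rfl | rfl | rfl
    · exact ⟨h.ad.symm, h.md⟩
    · exact ⟨h.ac.symm, h.mc⟩
    · exact ⟨h.ab.symm, h.mb⟩) tbcd (by
    intro s hs _ h2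
    rw [e] at hs
    simp only [Finset.mem_insert, Finset.mem_singleton] at hs ⊢
    tauto)).2.2.2.2.2 ⟨b, by simp, c, by simp, h.vbc⟩
  have c3 : ({d, c, b} : Finset D.ι).card = 3 := by
    rw [Finset.card_insert_of_notMem (by simp [h.cd.symm, h.bd.symm]), Finset.card_pair h.bc.symm]
  omega

theorem p353_bc (hctx : D.StmtCTX) (hgdec : D.StmtGDEC) (hcgen : D.StmtCGEN) (hclf : D.StmtCLF)
    {T : Finset D.ι} (hT : T ∈ Tsets D.g n) {a b c d : D.ι}
    (h : D.Path4 a b c d (1 / 2) c5 (1 / 2) (D.LM T)) (hb : b ∈ Rset D.g T)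
    (hc : c ∈ Rset D.g T) : D.G T {b, c} ≤ 6 := by
  classical
  have e := h.eq
  have Aab := h.Aab (by norm_num)
  have Adc := h.Adc (by norm_num)
  have hcard : (D.LM T).card ≤ 4 := by rw [e]; exact Finset.card_le_four
  have hcls := D.cls_ne_four_h hcard
  have h1 := D.G_le_cov_h hctx hgdec hT hb hc h.bc hcls (by
    intro s hs h1 h2
    rw [e] at hs
    simp only [Finset.mem_insert, Finset.mem_singleton] at hs
    rcases hs with rfl | rfl | rfl | rfl
    · exact Or.inl Aab
    · exact absurd rfl h1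
    · exact absurd rfl h2
    · exact Or.inr Adc)
  obtain ⟨p1, p2⟩ := D.parts_le_h T (a := b) (b := c) (V := {a, b}) (W := {d, c}) (by
    intro s hs h1 h2
    rw [e] at hs
    simp only [Finset.mem_insert, Finset.mem_singleton] at hs ⊢
    tauto)
  have q1 := D.p353_N1 hctx hclf hT h hb hc
  have q2 := D.p353_N1 hctx hclf hT h.rev hc hb
  rw [Finset.pair_comm c b] at q2
  have q3 := (D.gen_part_h hcgen hT hb hc h.bc (V := {a, b}) (by
      intro s hs
      simp only [Finset.mem_insert, Finset.mem_singleton] at hs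
      rw [Finset.mem_erase]
      rcases hs with rfl | rfl
      · exact ⟨h.ac, h.ma⟩
      · exact ⟨h.bc, h.mb⟩) (TC_pair Aab)).2.2.2.1 b
      (D.prot_of_h (z := a) (D.N1p_sub_h _ _ _ _) (by simp) (by simp)
        (by rw [Finset.card_pair h.ab]) (by
        intro v hv hbv
        simp only [Finset.mem_insert, Finset.mem_singleton] at hv
        rcases hv with rfl | rfl
        · rfl
        · exact absurd rfl hbv.1))
  have q4 := (D.gen_part_h hcgen hT hc hb h.bc.symm (V := {d, c}) (by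
      intro s hs
      simp only [Finset.mem_insert, Finset.mem_singleton] at hs
      rw [Finset.mem_erase]
      rcases hs with rfl | rfl
      · exact ⟨h.bd.symm, h.md⟩
      · exact ⟨h.bc.symm, h.mc⟩) (TC_pair Adc)).2.2.2.1 c
      (D.prot_of_h (z := d) (D.N1p_sub_h _ _ _ _) (by simp) (by simp)
        (by rw [Finset.card_pair h.cd.symm]) (by
        intro v hv hbv
        simp only [Finset.mem_insert, Finset.mem_singleton] at hv
        rcases hv with rfl | rfl
        · rfl
        · exact absurd rfl hbv.1))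
  rw [Finset.pair_comm c b] at q4
  omega

theorem stmtT353 (hctx : D.StmtCTX) (hgdec : D.StmtGDEC) (hcgen : D.StmtCGEN)
    (hsum : D.StmtSUM) (hclf : D.StmtCLF) (hclt : D.StmtCLT) : D.StmtT353 := by
  classical
  intro T hT a b c d h
  have Aab := h.Aab (by norm_num)
  have Aba := h.Aba (by norm_num)
  have Abc := h.Abc c5_pos
  have Acb := h.Acb c5_pos
  have Acd := h.Acd (by norm_num)
  have Adc := h.Adc (by norm_num)
  have hA : ∀ i j, (![![false, true, false, false], ![true, false, true, false],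
      ![false, true, false, true], ![false, false, true, false]] : Fin 4 → Fin 4 → Bool) i j = true →
      D.Adj (![a, b, c, d] i) (![a, b, c, d] j) := by
    intro i j hij
    fin_cases i <;> fin_cases j <;>
      first
      | exact absurd hij (by decide)
      | exact Aab
      | exact Aba
      | exact Abc
      | exact Acb
      | exact Acd
      | exact Adc
  have b02 : a ∈ Rset D.g T → c ∈ Rset D.g T → D.G T {a, c} ≤ 1 := fun h1 h2 => by
    rw [D.G_comm_h]
    exact D.p353_cov hctx hgdec hcgen hT h h2 h1 (Or.inl rfl)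
  have b03 : a ∈ Rset D.g T → d ∈ Rset D.g T → D.G T {a, d} ≤ 1 := fun h1 h2 => by
    rw [D.G_comm_h]
    exact D.p353_cov hctx hgdec hcgen hT h h2 h1 (Or.inr rfl)
  have b13 : b ∈ Rset D.g T → d ∈ Rset D.g T → D.G T {b, d} ≤ 1 := fun h1 h2 =>
    D.p353_cov hctx hgdec hcgen hT h.rev h1 h2 (Or.inl rfl)
  have b23 : c ∈ Rset D.g T → d ∈ Rset D.g T → D.G T {c, d} ≤ 3 := fun h1 h2 => by
    rw [D.G_comm_h]
    exact D.p353_ab hctx hgdec hcgen hT h.rev h2 h1
  have b01 : a ∈ Rset D.g T → b ∈ Rset D.g T → D.G T {a, b} ≤ 3 := fun h1 h2 =>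
    D.p353_ab hctx hgdec hcgen hT h h1 h2
  by_cases hbc : b ∈ Rset D.g T ∧ c ∈ Rset D.g T
  · have hlam : 2 ≤ D.lvs T := by
      have := lvs_ge_idx (f := ![a, b, c, d]) (inj4_h h.ab h.ac h.ad h.bc h.bd h.cd) (T := T)
        {(2, 1), (1, 2)} (by
          intro q hq
          simp only [Finset.mem_insert, Finset.mem_singleton] at hq
          rcases hq with rfl | rfl
          · exact ⟨hbc.2, hbc.1, by decide, D.p353_leaf hctx hclf hclt hT h⟩
          · exact ⟨hbc.1, hbc.2, by decide, D.p353_leaf hctx hclf hclt hT h.rev⟩)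
      simpa using this
    refine D.tb4L_h hctx hsum hT h.eq h.ab h.ac h.ad h.bc h.bd h.cd _
      ![![0, 3, 1, 1], ![0, 0, 6, 1], ![0, 0, 0, 3], ![0, 0, 0, 0]] hA b01 b02 b03
      (fun h1 h2 => D.p353_bc hctx hgdec hcgen hclf hT h h1 h2) b13 b23 2 hlam
      (fun I => (1 : Fin 4) ∈ I ∧ (2 : Fin 4) ∈ I) ?_ ?_
    · intro I hI
      exact ⟨(hI 1).2 hbc.1, (hI 2).2 hbc.2⟩
    · decide
  · refine D.tb4_h hctx hsum hT h.eq h.ab h.ac h.ad h.bc h.bd h.cd _
      ![![0, 3, 1, 1], ![0, 0, 0, 1], ![0, 0, 0, 3], ![0, 0, 0, 0]] hA b01 b02 b03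
      (fun h1 h2 => absurd ⟨h1, h2⟩ hbc) b13 b23 ?_
    decide

end CoxData

end MP345
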