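import Mathlib
import Pool.Agent.Work.MP_345ef2_gt.T_TSTAR

/-!
# Block T53X (MP_345ef2_gt, T level)
-/

namespace MP345

open Finset

variable {n : ℕ}

namespace CoxData

variable (D : CoxData n)

theorem stmtT53X (hctx : D.StmtCTX) (hgdec : D.StmtGDEC) (hcgen : D.StmtCGEN)
    (hsum : D.StmtSUM) : D.StmtT53X := by
  classical
  intro T hT a b c d z hz h
  have e := h.eq
  have hz0 : 0 < z := by
    rcases hz with rfl | rfl
    · exact s2_pos
    · exact c5_pos
  have hzne : z ≠ 1 / 2 := by
    rcases hz with rfl | rfl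
    · have := s2_gt; intro h'; linarith
    · have := c5_gt; intro h'; linarith
  have Aab := h.Aab c5_pos
  have Aba := h.Aba c5_pos
  have Abc := h.Abc (by norm_num)
  have Acb := h.Acb (by norm_num)
  have Acd := h.Acd hz0
  have Adc := h.Adc hz0
  have hcard : (D.LM T).card ≤ 4 := by rw [e]; exact Finset.card_le_four
  have hcls := D.cls_ne_four_h hcard
  have hLT := (hctx T hT).2.2.1
  have hbT : b ∈ T := hLT h.mb
  have hcT : c ∈ T := hLT h.mc
  -- the two long trees
  have tbcd : D.TC {d, c, b} := TC_insert (TC_pair Acb) (by simp [h.cd.symm, h.bd.symm])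
    (u := c) (by simp) Adc
  have tabc : D.TC {a, b, c} := TC_insert (TC_pair Abc) (by simp [h.ab, h.ac])
    (u := b) (by simp) Aab
  have Hcd : D.Heavy c d := ⟨Acd, by rw [h.vcd]; intro h'; exact hzne (neg_injective h')⟩
  have Hab : D.Heavy a b := D.heavy_of_five h.vab
  have sub_a : ({d, c, b} : Finset D.ι) ⊆ (D.LM T).erase a := by
    intro s hs
    simp only [Finset.mem_insert, Finset.mem_singleton] at hs
    rw [Finset.mem_erase, e]
    simp only [Finset.mem_insert, Finset.mem_singleton]
    rcases hs with rfl | rfl | rfl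
    · exact ⟨h.ad.symm, by simp⟩
    · exact ⟨h.ac.symm, by simp⟩
    · exact ⟨h.ab.symm, by simp⟩
  have sub_d : ({a, b, c} : Finset D.ι) ⊆ (D.LM T).erase d := by
    intro s hs
    simp only [Finset.mem_insert, Finset.mem_singleton] at hs
    rw [Finset.mem_erase, e]
    simp only [Finset.mem_insert, Finset.mem_singleton]
    rcases hs with rfl | rfl | rfl
    · exact ⟨h.ad, by simp⟩
    · exact ⟨h.bd, by simp⟩
    · exact ⟨h.cd, by simp⟩
  have cov_a : ∀ s ∈ D.LM T, s ≠ a → s ∈ ({d, c, b} : Finset D.ι) := by
    intro s hs h1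
    rw [e] at hs
    simp only [Finset.mem_insert, Finset.mem_singleton] at hs ⊢
    tauto
  have cov_d : ∀ s ∈ D.LM T, s ≠ d → s ∈ ({a, b, c} : Finset D.ι) := by
    intro s hs h1
    rw [e] at hs
    simp only [Finset.mem_insert, Finset.mem_singleton] at hs ⊢
    tauto
  have c3 : ({d, c, b} : Finset D.ι).card = 3 := by
    rw [Finset.card_insert_of_notMem (by simp [h.cd.symm, h.bd.symm]), Finset.card_pair h.bc.symm]
  have c3' : ({a, b, c} : Finset D.ι).card = 3 := by
    rw [Finset.card_insert_of_notMem (by simp [h.ab, h.ac]), Finset.card_pair h.bc]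
  refine D.tb4_h hctx hsum hT e h.ab h.ac h.ad h.bc h.bd h.cd
    ![![false, true, false, false], ![true, false, true, false], ![false, true, false, true],
      ![false, false, true, false]]
    ![![0, 4, 5, 5], ![0, 0, 4, 5], ![0, 0, 0, 3], ![0, 0, 0, 0]] ?_ ?_ ?_ ?_ ?_ ?_ ?_ ?_
  · intro i j hij
    fin_cases i <;> fin_cases j <;>
      first
      | exact absurd hij (by decide)
      | exact Aab
      | exact Aba
      | exact Abc
      | exact Acb
      | exact Acd
      | exact Adc
  · -- a b
    intro ha hb
    rw [D.G_comm_h]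
    have h1 := (hgdec T hT b hb a ha h.ab.symm).1 hcls
    have h2 := D.N0_sum_le_h T hb ha {d} (fun s hs h3 h4 h5 h6 => by
      rw [e] at hs
      simp only [Finset.mem_insert, Finset.mem_singleton] at hs ⊢
      rcases hs with rfl | rfl | rfl | rfl
      · exact absurd rfl h4
      · exact absurd rfl h3
      · exact absurd Acb h5
      · rfl)
    rw [Finset.sum_singleton] at h2
    have h3 : 1 ≤ D.cnt T d {b, a} := cnt_pos (p := b) (by simp) hcT
      (by simp [h.bc.symm, h.ac.symm]) Acd Acb
    have h4 := D.N1_cnt2_h T (a := b) (b := a)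
    have h5 := (D.gen_at_h hcgen hT hb ha h.ab.symm sub_a tbcd (fun s hs _ h2 => cov_a s hs h2)).2.2.2.2.1
      ⟨c, by simp, d, by simp, Hcd⟩
    have h6 := h5.2.2 b (D.prot_of_h (z := c) subset_rfl (by simp) (by simp) (by omega) (by
      intro v hv hbv
      simp only [Finset.mem_insert, Finset.mem_singleton] at hv
      rcases hv with rfl | rfl | rfl
      · exact absurd hbv h.Nbd
      · rfl
      · exact absurd rfl hbv.1))
    change _ ≤ 4
    omega
  · -- a c
    intro ha hc
    rw [D.G_comm_h]
    have h1 := D.G_le_cov_h hctx hgdec hT hc ha h.ac.symm hcls (by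
      intro s hs h1 h2
      rw [e] at hs
      simp only [Finset.mem_insert, Finset.mem_singleton] at hs
      rcases hs with rfl | rfl | rfl | rfl
      · exact absurd rfl h2
      · exact Or.inl Abc
      · exact absurd rfl h1
      · exact Or.inl Adc)
    have h2 := (D.gen_at_h hcgen hT hc ha h.ac.symm sub_a tbcd
      (fun s hs _ h2 => cov_a s hs h2)).2.2.1
    change _ ≤ 5
    omega
  · -- a d
    intro ha hd
    have h1 := D.G_le_cov_h hctx hgdec hT ha hd h.ad hcls (by
      intro s hs h1 h2
      rw [e] at hs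
      simp only [Finset.mem_insert, Finset.mem_singleton] at hs
      rcases hs with rfl | rfl | rfl | rfl
      · exact absurd rfl h1
      · exact Or.inl Aba
      · exact Or.inr Acd
      · exact absurd rfl h2)
    have h2 := (D.gen_at_h hcgen hT ha hd h.ad sub_d tabc
      (fun s hs _ h2 => cov_d s hs h2)).2.2.1
    change _ ≤ 5
    omega
  · -- b c
    intro hb hc
    have h1 := D.G_le_cov_h hctx hgdec hT hb hc h.bc hcls (by
      intro s hs h1 h2
      rw [e] at hs
      simp only [Finset.mem_insert, Finset.mem_singleton] at hs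
      rcases hs with rfl | rfl | rfl | rfl
      · exact Or.inl Aab
      · exact absurd rfl h1
      · exact absurd rfl h2
      · exact Or.inr Adc)
    obtain ⟨p1, p2⟩ := D.parts_le_h T (a := b) (b := c) (V := {a, b}) (W := {d, c}) (by
      intro s hs h1 h2
      rw [e] at hs
      simp only [Finset.mem_insert, Finset.mem_singleton] at hs ⊢
      tauto)
    have q1 := (D.gen_part_h hcgen hT hb hc h.bc (V := {a, b}) (by
      intro s hs
      simp only [Finset.mem_insert, Finset.mem_singleton] at hs
      rw [Finset.mem_erase]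
      rcases hs with rfl | rfl
      · exact ⟨h.ac, h.ma⟩
      · exact ⟨h.bc, h.mb⟩) (TC_pair Aab)).2.2.2.2.1 ⟨a, by simp, b, by simp, Hab⟩
    have q2 := q1.2.2 b (D.prot_of_h (z := a) (D.N1p_sub_h _ _ _ _) (by simp) (by simp)
      (by rw [Finset.card_pair h.ab]) (by
      intro v hv hbv
      simp only [Finset.mem_insert, Finset.mem_singleton] at hv
      rcases hv with rfl | rfl
      · rfl
      · exact absurd rfl hbv.1))
    have q3 := (D.gen_part_h hcgen hT hc hb h.bc.symm (V := {d, c}) (by
      intro s hs
      simp only [Finset.mem_insert, Finset.mem_singleton] at hs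
      rw [Finset.mem_erase]
      rcases hs with rfl | rfl
      · exact ⟨h.bd.symm, h.md⟩
      · exact ⟨h.bc.symm, h.mc⟩) (TC_pair Adc)).2.2.2.2.1 ⟨c, by simp, d, by simp, Hcd⟩
    have q4 := q3.2.2 c (D.prot_of_h (z := d) (D.N1p_sub_h _ _ _ _) (by simp) (by simp)
      (by rw [Finset.card_pair h.cd.symm]) (by
      intro v hv hbv
      simp only [Finset.mem_insert, Finset.mem_singleton] at hv
      rcases hv with rfl | rfl
      · rfl
      · exact absurd rfl hbv.1))
    rw [Finset.pair_comm c b] at q4
    change _ ≤ 4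
    omega
  · -- b d
    intro hb hd
    have h1 := D.G_le_cov_h hctx hgdec hT hb hd h.bd hcls (by
      intro s hs h1 h2
      rw [e] at hs
      simp only [Finset.mem_insert, Finset.mem_singleton] at hs
      rcases hs with rfl | rfl | rfl | rfl
      · exact Or.inl Aab
      · exact absurd rfl h1
      · exact Or.inl Acb
      · exact absurd rfl h2)
    have h2 := (D.gen_at_h hcgen hT hb hd h.bd sub_d tabc
      (fun s hs _ h2 => cov_d s hs h2)).2.2.1
    change _ ≤ 5
    omega
  · -- c d
    intro hc hd
    have h1 := (hgdec T hT c hc d hd h.cd).1 hcls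
    have h2 := D.N0_sum_le_h T hc hd {a} (fun s hs h3 h4 h5 h6 => by
      rw [e] at hs
      simp only [Finset.mem_insert, Finset.mem_singleton] at hs ⊢
      rcases hs with rfl | rfl | rfl | rfl
      · rfl
      · exact absurd Abc h5
      · exact absurd rfl h3
      · exact absurd rfl h4)
    rw [Finset.sum_singleton] at h2
    have h3 : 1 ≤ D.cnt T a {c, d} := cnt_pos (p := c) (by simp) hbT
      (by simp [h.bc, h.bd]) Aba Abc
    have h4 := D.N1_cnt2_h T (a := c) (b := d)
    have h5 := (D.gen_at_h hcgen hT hc hd h.cd sub_d tabc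
      (fun s hs _ h2 => cov_d s hs h2)).2.2.2.2.2 ⟨a, by simp, b, by simp, h.vab⟩
    change _ ≤ 3
    omega
  · decide

end CoxData

end MP345
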