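import Mathlib
import Pool.Agent.Work.MP_345ef2_gt.T_T53X
import Pool.Agent.Work.MP_345ef2_gt.TI27
import Pool.Agent.Work.MP_345ef2_gt.T_T353

/-!
# Blocks TSTAR27, T53X27, T35327 (MP_345ef2_gt, T level, n <= 27)
-/

namespace MP345

open Finset

variable {n : ℕ}

namespace CoxData

variable (D : CoxData n)

/-- reduction of `TB27` to the six pairs (`L` of order 4), with leaves -/
theorem tb4L27_h (hctx : D.StmtCTX) {T : Finset D.ι} (hT : T ∈ Tsets D.g n)
    {a b c d : D.ι} (hL : D.LM T = {a, b, c, d}) (h1 : a ≠ b) (h2 : a ≠ c) (h3 : a ≠ d)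
    (h4 : b ≠ c) (h5 : b ≠ d) (h6 : c ≠ d) (A : Fin 4 → Fin 4 → Bool) (β : Fin 4 → Fin 4 → ℕ)
    (hA : ∀ i j, A i j = true → D.Adj (![a, b, c, d] i) (![a, b, c, d] j))
    (b01 : a ∈ Rset D.g T → b ∈ Rset D.g T → D.G T {a, b} ≤ β 0 1)
    (b02 : a ∈ Rset D.g T → c ∈ Rset D.g T → D.G T {a, c} ≤ β 0 2)
    (b03 : a ∈ Rset D.g T → d ∈ Rset D.g T → D.G T {a, d} ≤ β 0 3)
    (b12 : b ∈ Rset D.g T → c ∈ Rset D.g T → D.G T {b, c} ≤ β 1 2)
    (b13 : b ∈ Rset D.g T → d ∈ Rset D.g T → D.G T {b, d} ≤ β 1 3)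
    (b23 : c ∈ Rset D.g T → d ∈ Rset D.g T → D.G T {c, d} ≤ β 2 3)
    (lam : ℕ) (hlam : lam ≤ D.lvs T)
    (C : Finset (Fin 4) → Prop)
    (hC : ∀ I : Finset (Fin 4), (∀ i, i ∈ I ↔ ![a, b, c, d] i ∈ Rset D.g T) → C I)
    (hnum : ∀ I : Finset (Fin 4), C I → 2 * ((∑ a ∈ I, ∑ b ∈ I, if a < b then β a b else 0) +
      2 * ∑ a ∈ I, ∑ b ∈ I, ∑ c ∈ I, if a < b ∧ b < c then
      2 - (A a b).toNat - (A a c).toNat - (A b c).toNat else 0) ≤
      5 * (I.card * (I.card - 1)) + 2 * lam) :
    D.TB27 T := by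
  classical
  refine D.stmtSUM27 4 ![a, b, c, d] A β (Finset.univ.filter fun i => ![a, b, c, d] i ∈ Rset D.g T) T lam
    (inj4_h h1 h2 h3 h4 h5 h6) ?_ hA ?_ hlam ?_
  · intro x
    constructor
    · intro hx
      have h := (hctx T hT).2.2.2.1 hx
      rw [hL] at h
      simp only [Finset.mem_insert, Finset.mem_singleton] at h
      rcases h with rfl | rfl | rfl | rfl
      · exact ⟨0, by simpa using hx, rfl⟩
      · exact ⟨1, by simpa using hx, rfl⟩
      · exact ⟨2, by simpa using hx, rfl⟩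
      · exact ⟨3, by simpa using hx, rfl⟩
    · rintro ⟨i, hi, rfl⟩
      exact (Finset.mem_filter.1 hi).2
  · intro i hi j hj hij
    have hi := (Finset.mem_filter.1 hi).2
    have hj := (Finset.mem_filter.1 hj).2
    fin_cases i <;> fin_cases j <;>
      first
      | exact absurd hij (by decide)
      | exact b01 hi hj
      | exact b02 hi hj
      | exact b03 hi hj
      | exact b12 hi hj
      | exact b13 hi hj
      | exact b23 hi hj
  · exact hnum _ (hC _ (fun i => by simp))

/-- reduction of `TB27` to the six pairs (`L` of order 4) -/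
theorem tb4_27_h (hctx : D.StmtCTX) {T : Finset D.ι} (hT : T ∈ Tsets D.g n)
    {a b c d : D.ι} (hL : D.LM T = {a, b, c, d}) (h1 : a ≠ b) (h2 : a ≠ c) (h3 : a ≠ d)
    (h4 : b ≠ c) (h5 : b ≠ d) (h6 : c ≠ d) (A : Fin 4 → Fin 4 → Bool) (β : Fin 4 → Fin 4 → ℕ)
    (hA : ∀ i j, A i j = true → D.Adj (![a, b, c, d] i) (![a, b, c, d] j))
    (b01 : a ∈ Rset D.g T → b ∈ Rset D.g T → D.G T {a, b} ≤ β 0 1)
    (b02 : a ∈ Rset D.g T → c ∈ Rset D.g T → D.G T {a, c} ≤ β 0 2)
    (b03 : a ∈ Rset D.g T → d ∈ Rset D.g T → D.G T {a, d} ≤ β 0 3)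
    (b12 : b ∈ Rset D.g T → c ∈ Rset D.g T → D.G T {b, c} ≤ β 1 2)
    (b13 : b ∈ Rset D.g T → d ∈ Rset D.g T → D.G T {b, d} ≤ β 1 3)
    (b23 : c ∈ Rset D.g T → d ∈ Rset D.g T → D.G T {c, d} ≤ β 2 3)
    (hnum : ∀ I : Finset (Fin 4), 2 * ((∑ a ∈ I, ∑ b ∈ I, if a < b then β a b else 0) +
      2 * ∑ a ∈ I, ∑ b ∈ I, ∑ c ∈ I, if a < b ∧ b < c then
      2 - (A a b).toNat - (A a c).toNat - (A b c).toNat else 0) ≤ 5 * (I.card * (I.card - 1))) :
    D.TB27 T := by
  classical
  refine D.stmtSUM27 4 ![a, b, c, d] A β (Finset.univ.filter fun i => ![a, b, c, d] i ∈ Rset D.g T) T 0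
    (inj4_h h1 h2 h3 h4 h5 h6) ?_ hA ?_ (Nat.zero_le _) ?_
  · intro x
    constructor
    · intro hx
      have h := (hctx T hT).2.2.2.1 hx
      rw [hL] at h
      simp only [Finset.mem_insert, Finset.mem_singleton] at h
      rcases h with rfl | rfl | rfl | rfl
      · exact ⟨0, by simpa using hx, rfl⟩
      · exact ⟨1, by simpa using hx, rfl⟩
      · exact ⟨2, by simpa using hx, rfl⟩
      · exact ⟨3, by simpa using hx, rfl⟩
    · rintro ⟨i, hi, rfl⟩
      exact (Finset.mem_filter.1 hi).2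
  · intro i hi j hj hij
    have hi := (Finset.mem_filter.1 hi).2
    have hj := (Finset.mem_filter.1 hj).2
    fin_cases i <;> fin_cases j <;>
      first
      | exact absurd hij (by decide)
      | exact b01 hi hj
      | exact b02 hi hj
      | exact b03 hi hj
      | exact b12 hi hj
      | exact b13 hi hj
      | exact b23 hi hj
  · have := hnum (Finset.univ.filter fun i => ![a, b, c, d] i ∈ Rset D.g T)
    simpa using this

theorem stmtTSTAR27 (hctx : D.StmtCTX) (hgdec : D.StmtGDEC) (hcgen : D.StmtCGEN) :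
    D.StmtTSTAR27 := by
  classical
  intro T hT z u p q h
  have e := h.eq
  refine D.tb4_27_h hctx hT e h.zu h.zp h.zq h.up h.uq h.pq
    ![![false, true, true, true], ![true, false, false, false], ![true, false, false, false],
      ![true, false, false, false]]
    ![![0, 5, 5, 5], ![0, 0, 2, 2], ![0, 0, 0, 2], ![0, 0, 0, 0]] ?_ ?_ ?_ ?_ ?_ ?_ ?_ ?_
  · intro i j hij
    fin_cases i <;> fin_cases j <;>
      first
      | exact absurd hij (by decide)
      | exact h.Azu
      | exact h.Azp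
      | exact h.Azq
      | exact h.Auz
      | exact h.Apz
      | exact h.Aqz
  · exact fun h1 h2 => D.star_zx_h hctx hgdec hcgen hT e h.Azu h.Azp h.Azq h.up h.uq h.pq h1 h2
  · exact fun h1 h2 => D.star_zx_h hctx hgdec hcgen hT (x := p) (y := u) (w := q)
      (by rw [e]; ext; simp; tauto) h.Azp h.Azu h.Azq h.up.symm h.pq h.uq h1 h2
  · exact fun h1 h2 => D.star_zx_h hctx hgdec hcgen hT (x := q) (y := u) (w := p)
      (by rw [e]; ext; simp; tauto) h.Azq h.Azu h.Azp h.uq.symm h.pq.symm h.up h1 h2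
  · exact fun h1 h2 => D.star_xy_h hctx hgdec hcgen hT (x := u) (y := p) (w := q)
      (by rw [e]) h.Azu h.Azp h.Azq h.up h.uq h.pq h1 h2 (Or.inl h.vzu)
  · exact fun h1 h2 => D.star_xy_h hctx hgdec hcgen hT (x := u) (y := q) (w := p)
      (by rw [e]; ext; simp; tauto) h.Azu h.Azq h.Azp h.uq h.up h.pq.symm h1 h2 (Or.inl h.vzu)
  · exact fun h1 h2 => D.star_xy_h hctx hgdec hcgen hT (x := p) (y := q) (w := u)
      (by rw [e]; ext; simp; tauto) h.Azp h.Azq h.Azu h.pq h.up.symm h.uq.symm h1 h2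
      (Or.inr h.vzu)
  · decide

theorem stmtT53X27 (hctx : D.StmtCTX) (hgdec : D.StmtGDEC) (hcgen : D.StmtCGEN) :
    D.StmtT53X27 := by
  classical
  intro T hT a b c d z hz h
  have e := h.eq
  have hz0 : 0 < z := by
    rcases hz with rfl | rfl
    · exact s2_pos
    · exact c5_pos
  have hzne : z ≠ 1 / 2 := by
    rcases hz with rfl | rfl
    · have := s2_gt; intro h'; linarith
    · have := c5_gt; intro h'; linarith
  have Aab := h.Aab c5_pos
  have Aba := h.Aba c5_pos
  have Abc := h.Abc (by norm_num)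
  have Acb := h.Acb (by norm_num)
  have Acd := h.Acd hz0
  have Adc := h.Adc hz0
  have hcard : (D.LM T).card ≤ 4 := by rw [e]; exact Finset.card_le_four
  have hcls := D.cls_ne_four_h hcard
  have hLT := (hctx T hT).2.2.1
  have hbT : b ∈ T := hLT h.mb
  have hcT : c ∈ T := hLT h.mc
  -- the two long trees
  have tbcd : D.TC {d, c, b} := TC_insert (TC_pair Acb) (by simp [h.cd.symm, h.bd.symm])
    (u := c) (by simp) Adc
  have tabc : D.TC {a, b, c} := TC_insert (TC_pair Abc) (by simp [h.ab, h.ac])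
    (u := b) (by simp) Aab
  have Hcd : D.Heavy c d := ⟨Acd, by rw [h.vcd]; intro h'; exact hzne (neg_injective h')⟩
  have Hab : D.Heavy a b := D.heavy_of_five h.vab
  have sub_a : ({d, c, b} : Finset D.ι) ⊆ (D.LM T).erase a := by
    intro s hs
    simp only [Finset.mem_insert, Finset.mem_singleton] at hs
    rw [Finset.mem_erase, e]
    simp only [Finset.mem_insert, Finset.mem_singleton]
    rcases hs with rfl | rfl | rfl
    · exact ⟨h.ad.symm, by simp⟩
    · exact ⟨h.ac.symm, by simp⟩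
    · exact ⟨h.ab.symm, by simp⟩
  have sub_d : ({a, b, c} : Finset D.ι) ⊆ (D.LM T).erase d := by
    intro s hs
    simp only [Finset.mem_insert, Finset.mem_singleton] at hs
    rw [Finset.mem_erase, e]
    simp only [Finset.mem_insert, Finset.mem_singleton]
    rcases hs with rfl | rfl | rfl
    · exact ⟨h.ad, by simp⟩
    · exact ⟨h.bd, by simp⟩
    · exact ⟨h.cd, by simp⟩
  have cov_a : ∀ s ∈ D.LM T, s ≠ a → s ∈ ({d, c, b} : Finset D.ι) := by
    intro s hs h1
    rw [e] at hs
    simp only [Finset.mem_insert, Finset.mem_singleton] at hs ⊢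
    tauto
  have cov_d : ∀ s ∈ D.LM T, s ≠ d → s ∈ ({a, b, c} : Finset D.ι) := by
    intro s hs h1
    rw [e] at hs
    simp only [Finset.mem_insert, Finset.mem_singleton] at hs ⊢
    tauto
  have c3 : ({d, c, b} : Finset D.ι).card = 3 := by
    rw [Finset.card_insert_of_notMem (by simp [h.cd.symm, h.bd.symm]), Finset.card_pair h.bc.symm]
  have c3' : ({a, b, c} : Finset D.ι).card = 3 := by
    rw [Finset.card_insert_of_notMem (by simp [h.ab, h.ac]), Finset.card_pair h.bc]
  refine D.tb4_27_h hctx hT e h.ab h.ac h.ad h.bc h.bd h.cd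
    ![![false, true, false, false], ![true, false, true, false], ![false, true, false, true],
      ![false, false, true, false]]
    ![![0, 4, 5, 5], ![0, 0, 4, 1], ![0, 0, 0, 3], ![0, 0, 0, 0]] ?_ ?_ ?_ ?_ ?_ ?_ ?_ ?_
  · intro i j hij
    fin_cases i <;> fin_cases j <;>
      first
      | exact absurd hij (by decide)
      | exact Aab
      | exact Aba
      | exact Abc
      | exact Acb
      | exact Acd
      | exact Adc
  · -- a b
    intro ha hb
    rw [D.G_comm_h]
    have h1 := (hgdec T hT b hb a ha h.ab.symm).1 hcls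
    have h2 := D.N0_sum_le_h T hb ha {d} (fun s hs h3 h4 h5 h6 => by
      rw [e] at hs
      simp only [Finset.mem_insert, Finset.mem_singleton] at hs ⊢
      rcases hs with rfl | rfl | rfl | rfl
      · exact absurd rfl h4
      · exact absurd rfl h3
      · exact absurd Acb h5
      · rfl)
    rw [Finset.sum_singleton] at h2
    have h3 : 1 ≤ D.cnt T d {b, a} := cnt_pos (p := b) (by simp) hcT
      (by simp [h.bc.symm, h.ac.symm]) Acd Acb
    have h4 := D.N1_cnt2_h T (a := b) (b := a)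
    have h5 := (D.gen_at_h hcgen hT hb ha h.ab.symm sub_a tbcd (fun s hs _ h2 => cov_a s hs h2)).2.2.2.2.1
      ⟨c, by simp, d, by simp, Hcd⟩
    have h6 := h5.2.2 b (D.prot_of_h (z := c) subset_rfl (by simp) (by simp) (by omega) (by
      intro v hv hbv
      simp only [Finset.mem_insert, Finset.mem_singleton] at hv
      rcases hv with rfl | rfl | rfl
      · exact absurd hbv h.Nbd
      · rfl
      · exact absurd rfl hbv.1))
    change _ ≤ 4
    omega
  · -- a c
    intro ha hc
    rw [D.G_comm_h]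
    have h1 := D.G_le_cov_h hctx hgdec hT hc ha h.ac.symm hcls (by
      intro s hs h1 h2
      rw [e] at hs
      simp only [Finset.mem_insert, Finset.mem_singleton] at hs
      rcases hs with rfl | rfl | rfl | rfl
      · exact absurd rfl h2
      · exact Or.inl Abc
      · exact absurd rfl h1
      · exact Or.inl Adc)
    have h2 := (D.gen_at_h hcgen hT hc ha h.ac.symm sub_a tbcd
      (fun s hs _ h2 => cov_a s hs h2)).2.2.1
    change _ ≤ 5
    omega
  · -- a d
    intro ha hd
    have h1 := D.G_le_cov_h hctx hgdec hT ha hd h.ad hcls (by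
      intro s hs h1 h2
      rw [e] at hs
      simp only [Finset.mem_insert, Finset.mem_singleton] at hs
      rcases hs with rfl | rfl | rfl | rfl
      · exact absurd rfl h1
      · exact Or.inl Aba
      · exact Or.inr Acd
      · exact absurd rfl h2)
    have h2 := (D.gen_at_h hcgen hT ha hd h.ad sub_d tabc
      (fun s hs _ h2 => cov_d s hs h2)).2.2.1
    change _ ≤ 5
    omega
  · -- b c
    intro hb hc
    have h1 := D.G_le_cov_h hctx hgdec hT hb hc h.bc hcls (by
      intro s hs h1 h2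
      rw [e] at hs
      simp only [Finset.mem_insert, Finset.mem_singleton] at hs
      rcases hs with rfl | rfl | rfl | rfl
      · exact Or.inl Aab
      · exact absurd rfl h1
      · exact absurd rfl h2
      · exact Or.inr Adc)
    obtain ⟨p1, p2⟩ := D.parts_le_h T (a := b) (b := c) (V := {a, b}) (W := {d, c}) (by
      intro s hs h1 h2
      rw [e] at hs
      simp only [Finset.mem_insert, Finset.mem_singleton] at hs ⊢
      tauto)
    have q1 := (D.gen_part_h hcgen hT hb hc h.bc (V := {a, b}) (by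
      intro s hs
      simp only [Finset.mem_insert, Finset.mem_singleton] at hs
      rw [Finset.mem_erase]
      rcases hs with rfl | rfl
      · exact ⟨h.ac, h.ma⟩
      · exact ⟨h.bc, h.mb⟩) (TC_pair Aab)).2.2.2.2.1 ⟨a, by simp, b, by simp, Hab⟩
    have q2 := q1.2.2 b (D.prot_of_h (z := a) (D.N1p_sub_h _ _ _ _) (by simp) (by simp)
      (by rw [Finset.card_pair h.ab]) (by
      intro v hv hbv
      simp only [Finset.mem_insert, Finset.mem_singleton] at hv
      rcases hv with rfl | rfl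
      · rfl
      · exact absurd rfl hbv.1))
    have q3 := (D.gen_part_h hcgen hT hc hb h.bc.symm (V := {d, c}) (by
      intro s hs
      simp only [Finset.mem_insert, Finset.mem_singleton] at hs
      rw [Finset.mem_erase]
      rcases hs with rfl | rfl
      · exact ⟨h.bd.symm, h.md⟩
      · exact ⟨h.bc.symm, h.mc⟩) (TC_pair Adc)).2.2.2.2.1 ⟨c, by simp, d, by simp, Hcd⟩
    have q4 := q3.2.2 c (D.prot_of_h (z := d) (D.N1p_sub_h _ _ _ _) (by simp) (by simp)
      (by rw [Finset.card_pair h.cd.symm]) (by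
      intro v hv hbv
      simp only [Finset.mem_insert, Finset.mem_singleton] at hv
      rcases hv with rfl | rfl
      · rfl
      · exact absurd rfl hbv.1))
    rw [Finset.pair_comm c b] at q4
    change _ ≤ 4
    omega
  · -- b d
    intro hb hd
    have h1 := D.G_le_cov_h hctx hgdec hT hb hd h.bd hcls (by
      intro s hs h1 h2
      rw [e] at hs
      simp only [Finset.mem_insert, Finset.mem_singleton] at hs
      rcases hs with rfl | rfl | rfl | rfl
      · exact Or.inl Aab
      · exact absurd rfl h1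
      · exact Or.inl Acb
      · exact absurd rfl h2)
    have h2 := (D.gen_at_h hcgen hT hb hd h.bd sub_d tabc
      (fun s hs _ h2 => cov_d s hs h2)).2.2.2.2.2 ⟨a, by simp, b, by simp, h.vab⟩
    change _ ≤ 1
    omega
  · -- c d
    intro hc hd
    have h1 := (hgdec T hT c hc d hd h.cd).1 hcls
    have h2 := D.N0_sum_le_h T hc hd {a} (fun s hs h3 h4 h5 h6 => by
      rw [e] at hs
      simp only [Finset.mem_insert, Finset.mem_singleton] at hs ⊢
      rcases hs with rfl | rfl | rfl | rfl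
      · rfl
      · exact absurd Abc h5
      · exact absurd rfl h3
      · exact absurd rfl h4)
    rw [Finset.sum_singleton] at h2
    have h3 : 1 ≤ D.cnt T a {c, d} := cnt_pos (p := c) (by simp) hbT
      (by simp [h.bc, h.bd]) Aba Abc
    have h4 := D.N1_cnt2_h T (a := c) (b := d)
    have h5 := (D.gen_at_h hcgen hT hc hd h.cd sub_d tabc
      (fun s hs _ h2 => cov_d s hs h2)).2.2.2.2.2 ⟨a, by simp, b, by simp, h.vab⟩
    change _ ≤ 3
    omega
  · decide

theorem stmtT35327 (hctx : D.StmtCTX) (hgdec : D.StmtGDEC) (hcgen : D.StmtCGEN)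
    (hclf : D.StmtCLF) (hclt : D.StmtCLT) : D.StmtT35327 := by
  classical
  intro T hT a b c d h
  have Aab := h.Aab (by norm_num)
  have Aba := h.Aba (by norm_num)
  have Abc := h.Abc c5_pos
  have Acb := h.Acb c5_pos
  have Acd := h.Acd (by norm_num)
  have Adc := h.Adc (by norm_num)
  have hA : ∀ i j, (![![false, true, false, false], ![true, false, true, false],
      ![false, true, false, true], ![false, false, true, false]] : Fin 4 → Fin 4 → Bool) i j = true →
      D.Adj (![a, b, c, d] i) (![a, b, c, d] j) := by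
    intro i j hij
    fin_cases i <;> fin_cases j <;>
      first
      | exact absurd hij (by decide)
      | exact Aab
      | exact Aba
      | exact Abc
      | exact Acb
      | exact Acd
      | exact Adc
  have b02 : a ∈ Rset D.g T → c ∈ Rset D.g T → D.G T {a, c} ≤ 1 := fun h1 h2 => by
    rw [D.G_comm_h]
    exact D.p353_cov hctx hgdec hcgen hT h h2 h1 (Or.inl rfl)
  have b03 : a ∈ Rset D.g T → d ∈ Rset D.g T → D.G T {a, d} ≤ 1 := fun h1 h2 => by
    rw [D.G_comm_h]
    exact D.p353_cov hctx hgdec hcgen hT h h2 h1 (Or.inr rfl)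
  have b13 : b ∈ Rset D.g T → d ∈ Rset D.g T → D.G T {b, d} ≤ 1 := fun h1 h2 =>
    D.p353_cov hctx hgdec hcgen hT h.rev h1 h2 (Or.inl rfl)
  have b23 : c ∈ Rset D.g T → d ∈ Rset D.g T → D.G T {c, d} ≤ 3 := fun h1 h2 => by
    rw [D.G_comm_h]
    exact D.p353_ab hctx hgdec hcgen hT h.rev h2 h1
  have b01 : a ∈ Rset D.g T → b ∈ Rset D.g T → D.G T {a, b} ≤ 3 := fun h1 h2 =>
    D.p353_ab hctx hgdec hcgen hT h h1 h2
  by_cases hbc : b ∈ Rset D.g T ∧ c ∈ Rset D.g T
  · have hlam : 2 ≤ D.lvs T := by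
      have := lvs_ge_idx (f := ![a, b, c, d]) (inj4_h h.ab h.ac h.ad h.bc h.bd h.cd) (T := T)
        {(2, 1), (1, 2)} (by
          intro q hq
          simp only [Finset.mem_insert, Finset.mem_singleton] at hq
          rcases hq with rfl | rfl
          · exact ⟨hbc.2, hbc.1, by decide, D.p353_leaf hctx hclf hclt hT h⟩
          · exact ⟨hbc.1, hbc.2, by decide, D.p353_leaf hctx hclf hclt hT h.rev⟩)
      simpa using this
    refine D.tb4L27_h hctx hT h.eq h.ab h.ac h.ad h.bc h.bd h.cd _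
      ![![0, 3, 1, 1], ![0, 0, 6, 1], ![0, 0, 0, 3], ![0, 0, 0, 0]] hA b01 b02 b03
      (fun h1 h2 => D.p353_bc hctx hgdec hcgen hclf hT h h1 h2) b13 b23 2 hlam
      (fun I => (1 : Fin 4) ∈ I ∧ (2 : Fin 4) ∈ I) ?_ ?_
    · intro I hI
      exact ⟨(hI 1).2 hbc.1, (hI 2).2 hbc.2⟩
    · decide
  · refine D.tb4_27_h hctx hT h.eq h.ab h.ac h.ad h.bc h.bd h.cd _
      ![![0, 3, 1, 1], ![0, 0, 0, 1], ![0, 0, 0, 3], ![0, 0, 0, 0]] hA b01 b02 b03
      (fun h1 h2 => absurd ⟨h1, h2⟩ hbc) b13 b23 ?_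
    decide

end CoxData

end MP345
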