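import Mathlib
import Pool.Agent.Work.MP_345ef2_gt.T_CTX
import Pool.Agent.Work.MP_345ef2_gt.D_LCON

/-!
# Block CLF and CLT (MP_345ef2_gt, T level)
-/

namespace MP345

open Finset

variable {n : ℕ}

namespace CoxData

variable (D : CoxData n)

theorem nb_le_two_of {L : Finset D.ι} {w x y : D.ι}
    (h : ∀ r ∈ L, D.Adj w r → r = x ∨ r = y) : (D.nb L w).card ≤ 2 := by
  classical
  have : D.nb L w ⊆ {x, y} := by
    intro r hr
    obtain ⟨hr1, hr2⟩ := (mem_nb D).1 hr
    simpa using h r hr1 hr2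
  exact (Finset.card_le_card this).trans Finset.card_le_two

theorem Path4.card {a b c d : D.ι} {x y z : ℝ} {L : Finset D.ι} (h : D.Path4 a b c d x y z L) :
    L.card = 4 := by
  classical
  rw [h.eq]
  have h1 := h.ab; have h2 := h.ac; have h3 := h.ad; have h5 := h.bc
  have h6 := h.bd; have h8 := h.cd
  rw [Finset.card_insert_of_notMem, Finset.card_insert_of_notMem, Finset.card_insert_of_notMem,
    Finset.card_singleton] <;> simp_all

theorem Path4.deg {a b c d : D.ι} {x y z : ℝ} {L : Finset D.ι} (h : D.Path4 a b c d x y z L) :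
    ∀ w ∈ L, (D.nb L w).card ≤ 2 := by
  classical
  intro w hw
  have expl : ∀ r ∈ L, r = a ∨ r = b ∨ r = c ∨ r = d := by
    intro r hr; rw [h.eq] at hr; simpa using hr
  rcases expl w hw with rfl | rfl | rfl | rfl
  · refine D.nb_le_two_of (x := b) (y := b) fun r hr ha => ?_
    rcases expl r hr with rfl | rfl | rfl | rfl
    · exact absurd rfl ha.1
    · exact Or.inl rfl
    · exact absurd ha h.Nac
    · exact absurd ha h.Nad
  · refine D.nb_le_two_of (x := a) (y := c) fun r hr ha => ?_
    rcases expl r hr with rfl | rfl | rfl | rfl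
    · exact Or.inl rfl
    · exact absurd rfl ha.1
    · exact Or.inr rfl
    · exact absurd ha h.Nbd
  · refine D.nb_le_two_of (x := b) (y := d) fun r hr ha => ?_
    rcases expl r hr with rfl | rfl | rfl | rfl
    · exact absurd ha h.Nca
    · exact Or.inl rfl
    · exact absurd rfl ha.1
    · exact Or.inr rfl
  · refine D.nb_le_two_of (x := c) (y := c) fun r hr ha => ?_
    rcases expl r hr with rfl | rfl | rfl | rfl
    · exact absurd ha h.Nda
    · exact absurd ha h.Ndb
    · exact Or.inl rfl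
    · exact absurd rfl ha.1

theorem cls_card {L : Finset D.ι} (h : 2 ≤ D.cls L) : 4 ≤ L.card := by
  unfold cls at h
  split_ifs at h <;> omega

theorem cls_le_four (L : Finset D.ι) : D.cls L ≤ 4 := by
  unfold cls
  split_ifs <;> omega

/-- a path `s - q - p - r` in a path `a - b - c - d` with an edge `q p` of label 5 that is not the
middle one -/
theorem not_353_path {a b c d : D.ι} {x y z : ℝ} {L : Finset D.ι} (h : D.Path4 a b c d x y z L)
    (hy : y ≠ c5) : ¬ D.Is353 L := by
  classical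
  rintro ⟨s, q, p, r, e, hnd, hsq, hqp, hpr, -⟩
  have expl : ∀ r ∈ L, r = a ∨ r = b ∨ r = c ∨ r = d := by
    intro r hr; rw [h.eq] at hr; simpa using hr
  have hs := expl s (by rw [e]; simp)
  have hq := expl q (by rw [e]; simp)
  have hp := expl p (by rw [e]; simp)
  have hr := expl r (by rw [e]; simp)
  simp only [List.nodup_cons, List.mem_cons, List.not_mem_nil, or_false, not_or,
    List.nodup_nil, and_true, not_false_eq_true] at hnd
  obtain ⟨⟨n1, n2, n3⟩, ⟨n4, n5⟩, n6⟩ := hnd
  have hc : (c5 : ℝ) ≠ 0 := c5_pos.ne'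
  -- the ends have only one neighbour
  have ha1 : ∀ t ∈ L, D.Adj a t → t = b := by
    intro t ht hat
    rcases expl t ht with rfl | rfl | rfl | rfl
    · exact absurd rfl hat.1
    · rfl
    · exact absurd hat h.Nac
    · exact absurd hat h.Nad
  have hd1 : ∀ t ∈ L, D.Adj d t → t = c := by
    intro t ht hat
    rcases expl t ht with rfl | rfl | rfl | rfl
    · exact absurd hat h.Nda
    · exact absurd hat h.Ndb
    · rfl
    · exact absurd rfl hat.1
  have hqp' : D.Adj q p := ⟨n4, by rw [hqp]; exact neg_ne_zero.2 hc⟩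
  have hsL : s ∈ L := by rw [e]; simp
  have hqL : q ∈ L := by rw [e]; simp
  have hpL : p ∈ L := by rw [e]; simp
  have hrL : r ∈ L := by rw [e]; simp
  rcases hq with rfl | rfl | rfl | rfl
  · exact n2 ((ha1 s hsL (hsq.symm D)).trans (ha1 p hpL hqp').symm)
  · rcases hp with rfl | rfl | rfl | rfl
    · exact n5 ((ha1 q hqL (hqp'.symm D)).trans (ha1 r hrL hpr).symm)
    · exact n4 rfl
    · rw [h.vbc] at hqp
      exact hy (neg_injective hqp)
    · exact hqp'.2 h.vbd
  · rcases hp with rfl | rfl | rfl | rfl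
    · exact (h.Nca hqp')
    · rw [D.symm, h.vbc] at hqp
      exact hy (neg_injective hqp)
    · exact n4 rfl
    · exact n5 ((hd1 q hqL (hqp'.symm D)).trans (hd1 r hrL hpr).symm)
  · exact n2 ((hd1 s hsL (hsq.symm D)).trans (hd1 p hpL hqp').symm)

theorem not_353_cyc {a b c d : D.ι} {L : Finset D.ι} (h : D.Cyc4 a b c d L) : ¬ D.Is353 L := by
  classical
  rintro ⟨s, q, p, r, e, hnd, hsq, hqp, hpr, hsr⟩
  have expl : ∀ r ∈ L, r = a ∨ r = b ∨ r = c ∨ r = d := by
    intro r hr; rw [h.eq] at hr; simpa using hr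
  have hs := expl s (by rw [e]; simp)
  have hq := expl q (by rw [e]; simp)
  have hp := expl p (by rw [e]; simp)
  have hr := expl r (by rw [e]; simp)
  simp only [List.nodup_cons, List.mem_cons, List.not_mem_nil, or_false, not_or,
    List.nodup_nil, and_true, not_false_eq_true] at hnd
  obtain ⟨⟨n1, n2, n3⟩, ⟨n4, n5⟩, n6⟩ := hnd
  have hc : -(c5 : ℝ) ≠ 0 := neg_ne_zero.2 c5_pos.ne'
  have z1 := h.vac
  have z2 := h.vbd
  have z1' : D.g c a = 0 := by rw [D.symm]; exact z1
  have z2' : D.g d b = 0 := by rw [D.symm]; exact z2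
  have e1 := h.ab.2
  have e2 := h.bc.2
  have e3 := h.cd.2
  have e4 := h.da.2
  have e1' : D.g b a ≠ 0 := by rw [D.symm]; exact e1
  have e2' : D.g c b ≠ 0 := by rw [D.symm]; exact e2
  have e3' : D.g d c ≠ 0 := by rw [D.symm]; exact e3
  have e4' : D.g a d ≠ 0 := by rw [D.symm]; exact e4
  rcases hs with rfl | rfl | rfl | rfl <;> rcases hr with rfl | rfl | rfl | rfl <;>
    first
    | exact absurd rfl n3
    | exact absurd hsr e1
    | exact absurd hsr e2
    | exact absurd hsr e3
    | exact absurd hsr e4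
    | exact absurd hsr e1'
    | exact absurd hsr e2'
    | exact absurd hsr e3'
    | exact absurd hsr e4'
    | (rcases hq with rfl | rfl | rfl | rfl <;> rcases hp with rfl | rfl | rfl | rfl <;>
        first
        | exact absurd rfl n1
        | exact absurd rfl n2
        | exact absurd rfl n4
        | exact absurd rfl n5
        | exact absurd rfl n6
        | exact hc (hqp.symm.trans z1)
        | exact hc (hqp.symm.trans z2)
        | exact hc (hqp.symm.trans z1')
        | exact hc (hqp.symm.trans z2'))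

theorem not_353_star {z u p q : D.ι} {L : Finset D.ι} (h : D.Star4 z u p q L) :
    ¬ D.Is353 L := by
  classical
  rintro ⟨s', q', p', r', e, hnd, hsq, -, hpr, -⟩
  have expl : ∀ r ∈ L, r = z ∨ r = u ∨ r = p ∨ r = q := by
    intro r hr; rw [h.eq] at hr; simpa using hr
  have key : ∀ x ∈ L, ∀ y ∈ L, D.Adj x y → x = z ∨ y = z := by
    intro x hx y hy hxy
    rcases expl x hx with rfl | rfl | rfl | rfl
    · exact Or.inl rfl
    all_goals rcases expl y hy with rfl | rfl | rfl | rfl
    all_goals first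
      | exact Or.inr rfl
      | exact absurd rfl hxy.1
      | exact absurd hxy h.Nup
      | exact absurd hxy h.Nuq
      | exact absurd hxy h.Npq
      | exact absurd hxy h.Npu
      | exact absurd hxy h.Nqu
      | exact absurd hxy h.Nqp
  simp only [List.nodup_cons, List.mem_cons, List.not_mem_nil, or_false, not_or,
    List.nodup_nil, and_true, not_false_eq_true] at hnd
  obtain ⟨⟨n1, n2, n3⟩, ⟨n4, n5⟩, n6⟩ := hnd
  rcases key s' (by rw [e]; simp) q' (by rw [e]; simp) hsq with h1 | h1 <;>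
    rcases key p' (by rw [e]; simp) r' (by rw [e]; simp) hpr with h2 | h2
  · exact n2 (h1.trans h2.symm)
  · exact n3 (h1.trans h2.symm)
  · exact n4 (h1.trans h2.symm)
  · exact n5 (h1.trans h2.symm)

theorem cls_one_of {L : Finset D.ι} (hc : L.card = 4) (h : ¬ D.Is353 L) : D.cls L = 1 := by
  unfold cls
  rw [if_neg (by omega), if_pos hc, if_neg h]

theorem half_ne_c5 : (1 / 2 : ℝ) ≠ c5 := by have := c5_gt; intro h; linarith

theorem Cyc4.card {a b c d : D.ι} {L : Finset D.ι} (h : D.Cyc4 a b c d L) : L.card = 4 := by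
  classical
  rw [h.eq]
  have h1 := h.ab.1; have h2 := h.ac; have h3 := h.da.1.symm; have h5 := h.bc.1
  have h6 := h.bd; have h8 := h.cd.1
  rw [Finset.card_insert_of_notMem, Finset.card_insert_of_notMem, Finset.card_insert_of_notMem,
    Finset.card_singleton] <;> simp_all

theorem Star4.card {z u p q : D.ι} {L : Finset D.ι} (h : D.Star4 z u p q L) : L.card = 4 := by
  classical
  rw [h.eq]
  have h1 := h.zu; have h2 := h.zp; have h3 := h.zq; have h5 := h.up
  have h6 := h.uq; have h8 := h.pq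
  rw [Finset.card_insert_of_notMem, Finset.card_insert_of_notMem, Finset.card_insert_of_notMem,
    Finset.card_singleton] <;> simp_all

theorem Fork.card {u v w p q : D.ι} {L : Finset D.ι} (h : D.Fork u v w p q L) : L.card = 5 := by
  classical
  rw [h.eq]
  have h1 := h.uv; have h2 := h.uw; have h3 := h.up; have h4 := h.uq; have h5 := h.vw
  have h6 := h.vp; have h7 := h.vq; have h8 := h.wp; have h9 := h.wq; have h10 := h.pq
  rw [Finset.card_insert_of_notMem, Finset.card_insert_of_notMem, Finset.card_insert_of_notMem,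
    Finset.card_insert_of_notMem, Finset.card_singleton] <;> simp_all

theorem Path5.card {a b c d e : D.ι} {w x y z : ℝ} {L : Finset D.ι}
    (h : D.Path5 a b c d e w x y z L) : L.card = 5 := by
  classical
  rw [h.eq]
  have h1 := h.ab; have h2 := h.ac; have h3 := h.ad; have h4 := h.ae; have h5 := h.bc
  have h6 := h.bd; have h7 := h.be; have h8 := h.cd; have h9 := h.ce; have h10 := h.de
  rw [Finset.card_insert_of_notMem, Finset.card_insert_of_notMem, Finset.card_insert_of_notMem,
    Finset.card_insert_of_notMem, Finset.card_singleton] <;> simp_all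

theorem Cyc5.card {a b c d e : D.ι} {L : Finset D.ι} (h : D.Cyc5 a b c d e L) : L.card = 5 := by
  classical
  rw [h.eq]
  have h1 := h.ab; have h2 := h.ac; have h3 := h.ad; have h4 := h.ae; have h5 := h.bc
  have h6 := h.bd; have h7 := h.be; have h8 := h.cd; have h9 := h.ce; have h10 := h.de
  rw [Finset.card_insert_of_notMem, Finset.card_insert_of_notMem, Finset.card_insert_of_notMem,
    Finset.card_insert_of_notMem, Finset.card_singleton] <;> simp_all

/-- the Lannér sets of class at least two -/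
theorem cls_ge_two_types (hcls : D.StmtCLS) {L : Finset D.ι} (hL : D.Lan L) (h2 : 2 ≤ D.cls L) :
    (∃ a b c d, D.Path4 a b c d (1 / 2) c5 (1 / 2) L) ∨ (∃ u v w p q, D.Fork u v w p q L) ∨
    (∃ a b c d e z, (z = 1 / 2 ∨ z = √2 / 2 ∨ z = c5) ∧
      D.Path5 a b c d e c5 (1 / 2) (1 / 2) z L) ∨ (∃ a b c d e, D.Cyc5 a b c d e L) := by
  rcases hcls L hL with h | ⟨a, b, c, d, h⟩ | ⟨a, b, c, d, h⟩ | ⟨a, b, c, d, h⟩ |
    ⟨a, b, c, d, h⟩ | ⟨a, b, c, d, h⟩ | ⟨a, b, c, d, e, h⟩ | ⟨a, b, c, d, e, z, hz, h⟩ |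
    ⟨a, b, c, d, e, h⟩
  · have := D.cls_card h2; omega
  · have := D.cls_one_of (Cyc4.card D h) (D.not_353_cyc h); omega
  · have := D.cls_one_of (Star4.card D h) (D.not_353_star h); omega
  · exact Or.inl ⟨a, b, c, d, h⟩
  · have := D.cls_one_of (Path4.card D h) (D.not_353_path h half_ne_c5); omega
  · have := D.cls_one_of (Path4.card D h) (D.not_353_path h half_ne_c5); omega
  · exact Or.inr (Or.inl ⟨a, b, c, d, e, h⟩)
  · exact Or.inr (Or.inr (Or.inl ⟨a, b, c, d, e, z, hz, h⟩))
  · exact Or.inr (Or.inr (Or.inr ⟨a, b, c, d, e, h⟩))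

theorem stmtCLF (hcls : D.StmtCLS) : D.StmtCLF := by
  classical
  obtain ⟨hv1, hv2⟩ := D.stmtCLSV
  have h5 : ∀ L, D.Lan L → 2 ≤ D.cls L → 4 ≤ L.card ∧ L.card ≤ 5 ∧
      (L.card = 4 → ∃ a b c d, D.Path4 a b c d (1 / 2) c5 (1 / 2) L) := by
    intro L hL h2
    refine ⟨D.cls_card h2, ?_⟩
    rcases D.cls_ge_two_types hcls hL h2 with ⟨a, b, c, d, h⟩ | ⟨u, v, w, p, q, h⟩ |
      ⟨a, b, c, d, e, z, hz, h⟩ | ⟨a, b, c, d, e, h⟩
    · exact ⟨by rw [Path4.card D h]; norm_num, fun _ => ⟨a, b, c, d, h⟩⟩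
    · have := Fork.card D h
      exact ⟨by omega, fun h' => by omega⟩
    · have := Path5.card D h
      exact ⟨by omega, fun h' => by omega⟩
    · have := Cyc5.card D h
      exact ⟨by omega, fun h' => by omega⟩
  refine ⟨?_, ?_, hv1, hv2, h5, ?_, ?_⟩
  · intro L u v w p q h
    have hc := Fork.card D h
    have hb : D.HasBranch L := by
      refine ⟨w, h.mw, ?_⟩
      have hsub : ({v, p, q} : Finset D.ι) ⊆ D.nb L w := by
        intro r hr
        simp only [Finset.mem_insert, Finset.mem_singleton] at hr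
        rcases hr with rfl | rfl | rfl
        · exact (mem_nb D).2 ⟨h.mv, h.Awv⟩
        · exact (mem_nb D).2 ⟨h.mp, h.Awp⟩
        · exact (mem_nb D).2 ⟨h.mq, h.Awq⟩
      have h3 : ({v, p, q} : Finset D.ι).card = 3 := by
        rw [Finset.card_insert_of_notMem, Finset.card_insert_of_notMem, Finset.card_singleton]
        · simp [h.pq]
        · simp [h.vp, h.vq]
      rw [← h3]
      exact Finset.card_le_card hsub
    unfold cls
    rw [if_neg (by omega), if_neg (by omega), if_pos hb]
  · intro L a b c d h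
    have hc := Path4.card D h
    have h353 : D.Is353 L := by
      refine ⟨a, b, c, d, h.eq, ?_, h.Aab (by norm_num), h.vbc, h.Acd (by norm_num), h.vad⟩
      simp [h.ab, h.ac, h.ad, h.bc, h.bd, h.cd]
    unfold cls
    rw [if_neg (by omega), if_pos hc, if_pos h353]
  · intro L hL h3 x hx
    obtain ⟨k1, k2, k3⟩ := h5 L hL (by omega)
    by_cases hc : L.card = 4
    · obtain ⟨a, b, c, d, h⟩ := k3 hc
      exact Path4.deg D h x hx
    · by_contra hlt
      have hb : D.HasBranch L := ⟨x, hx, by omega⟩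
      unfold cls at h3
      rw [if_neg (by omega), if_neg hc, if_pos hb] at h3
      omega
  · intro L hL h4
    obtain ⟨k1, k2, k3⟩ := h5 L hL (by omega)
    by_contra hne
    have hc : L.card = 4 := by omega
    unfold cls at h4
    rw [if_neg (by omega), if_pos hc] at h4
    split_ifs at h4 <;> omega

theorem stmtCLT (hcls : D.StmtCLS) : D.StmtCLT := by
  classical
  obtain ⟨-, -, -, -, f5, f6, f7⟩ := D.stmtCLF hcls
  intro T hT
  obtain ⟨-, -, -, -, -, -, hall⟩ := D.stmtCTX T hT
  have key : ∀ A ⊆ T, ¬ PD D.g A → ∃ A' ⊆ A, D.Lan A' ∧ D.cls (D.LM T) ≤ D.cls A' := by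
    intro A hA hn
    obtain ⟨A', h1, h2⟩ := D.exists_lan A hn
    exact ⟨A', h1, h2, (hall A' (h1.trans hA) h2).2⟩
  refine ⟨?_, ?_, ?_, ?_, ?_⟩
  · intro h2 A hA hc
    by_contra hn
    obtain ⟨A', h1, h3, h4⟩ := key A hA hn
    have := (f5 A' h3 (by omega)).1
    have := Finset.card_le_card h1
    omega
  · intro h2 A hA hc hbr
    by_contra hn
    obtain ⟨A', h1, h3, h4⟩ := key A hA hn
    have h5 := f5 A' h3 (by omega)
    have h6 := Finset.card_le_card h1
    have h7 : A' = A := Finset.eq_of_subset_of_card_le h1 (by omega)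
    subst h7
    obtain ⟨a, b, c, d, h⟩ := h5.2.2 (by omega)
    obtain ⟨x, hx, hx3⟩ := hbr
    have := Path4.deg D h x hx
    omega
  · intro h2 A hA hh
    by_contra hn
    obtain ⟨A', h1, h3, h4⟩ := key A hA hn
    have hs2 := s2_gt
    have hc5 := c5_gt
    rcases D.cls_ge_two_types hcls h3 (by omega) with ⟨a, b, c, d, h⟩ | ⟨u, v, w, p, q, h⟩ |
      ⟨a, b, c, d, e, z, hz, h⟩ | ⟨a, b, c, d, e, h⟩
    · exact hh b (h1 h.mb) c (h1 h.mc) ⟨h.Abc c5_pos, by rw [h.vbc]; intro e; linarith⟩
    · exact hh u (h1 h.mu) v (h1 h.mv) ⟨h.Auv, by rw [h.vuv]; intro e; linarith⟩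
    · exact hh a (h1 h.ma) b (h1 h.mb) ⟨h.Aab c5_pos, by rw [h.vab]; intro e; linarith⟩
    · exact hh a (h1 h.ma) b (h1 h.mb) ⟨h.Aab, by rw [h.vab]; intro e; linarith⟩
  · intro h2 A hA hc
    by_contra hn
    obtain ⟨A', h1, h3, h4⟩ := key A hA hn
    have := D.cls_le_four A'
    have := f7 A' h3 (by omega)
    have := Finset.card_le_card h1
    omega
  · intro h2 A hA hL
    exact f6 A hL (h2.trans (hall A hA hL).2)

end CoxData

end MP345
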