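import Mathlib
import Pool.Agent.Work.MP_345ef2_gt.T_CLF
import Pool.Agent.Work.MP_345ef2_gt.T_SUM
import Pool.Agent.Work.MP_345ef2_gt.T_Lib

/-!
# Block TSMALL and TCYC4 (MP_345ef2_gt, T level)
-/

namespace MP345

open Finset

variable {n : ℕ}

namespace CoxData

variable (D : CoxData n)

/-- if every element of `L - P` is adjacent to `P` then `G <= |N1| + |N2|` -/
theorem G_le_card (hdec : D.StmtGDEC) {T : Finset D.ι} (hT : T ∈ Tsets D.g n) {a b : D.ι}
    (ha : a ∈ Rset D.g T) (hb : b ∈ Rset D.g T) (hab : a ≠ b) (h4 : D.cls (D.LM T) ≠ 4)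
    (hadj : ∀ s ∈ D.LM T, s ≠ a → s ≠ b → D.Adj s a ∨ D.Adj s b) :
    D.G T {a, b} ≤ (D.N1 T (D.LM T) {a, b}).card + (D.N2 T (D.LM T) {a, b}).card := by
  classical
  obtain ⟨hn, hLan, hLT, hRL, hRP, -, -⟩ := D.stmtCTX T hT
  have h1 := (hdec T hT a ha b hb hab).1 h4
  have h0 : D.N0 T (D.LM T) {a, b} = ∅ := by
    rw [Finset.eq_empty_iff_forall_notMem]
    intro x hx
    unfold N0 at hx
    rw [Finset.mem_filter, Finset.mem_sdiff] at hx
    obtain ⟨⟨hxL, hxR⟩, hna⟩ := hx
    have hxa : x ≠ a := fun e => hxR (e ▸ ha)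
    have hxb : x ≠ b := fun e => hxR (e ▸ hb)
    rcases hadj x hxL hxa hxb with h | h
    · exact hna a (by simp) h
    · exact hna b (by simp) h
  rw [h0, Finset.sum_empty, zero_add] at h1
  refine h1.trans (Nat.add_le_add_right ?_ _)
  have h2 : ∀ m ∈ D.N1 T (D.LM T) {a, b}, 2 - D.cnt T m {a, b} ≤ 1 := by
    intro m hm
    unfold N1 at hm
    rw [Finset.mem_filter] at hm
    obtain ⟨hmT, hmL, hna, s, hs, hms⟩ := hm
    have hsa : s ≠ a := by rintro rfl; exact hna s (by simp) hms
    have hsb : s ≠ b := by rintro rfl; exact hna s (by simp) hms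
    have hsP : s ∉ ({a, b} : Finset D.ι) := by simp [hsa, hsb]
    have h3 : 1 ≤ D.cnt T m {a, b} := by
      rcases hadj s hs hsa hsb with h | h
      · exact cnt_pos (p := a) (z := s) (by simp) (hLT hs) hsP (hms.symm D) h
      · exact cnt_pos (p := b) (z := s) (by simp) (hLT hs) hsP (hms.symm D) h
    omega
  calc ∑ x ∈ D.N1 T (D.LM T) {a, b}, (2 - D.cnt T x {a, b})
      ≤ ∑ _x ∈ D.N1 T (D.LM T) {a, b}, 1 := Finset.sum_le_sum h2
    _ = (D.N1 T (D.LM T) {a, b}).card := by simp

/-- the standard bound 5 -/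
theorem G_le_five (hgen : D.StmtGEN) (hdec : D.StmtGDEC) {T : Finset D.ι}
    (hT : T ∈ Tsets D.g n) {a b : D.ι} (ha : a ∈ Rset D.g T) (hb : b ∈ Rset D.g T)
    (hab : a ≠ b) (h4 : D.cls (D.LM T) ≠ 4) {V : Finset D.ι} (hV : V ⊆ (D.LM T).erase b)
    (hTC : D.TC V)
    (hadj : ∀ s ∈ D.LM T, s ≠ a → s ≠ b → s ∈ V ∧ (D.Adj s a ∨ D.Adj s b)) :
    D.G T {a, b} ≤ 5 := by
  classical
  have h1 := D.G_le_card hdec hT ha hb hab h4 fun s hs h h' => (hadj s hs h h').2
  obtain ⟨h2, h3⟩ := D.stmtCGEN T hT a ha b hb hab V hV hTC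
  obtain ⟨h5, h6⟩ := h3 fun s hs h h' => (hadj s hs h h').1
  rw [h5, h6] at h2
  obtain ⟨-, -, -, -, -, -, h7, -⟩ := hgen _ _ _ _ h2
  exact h1.trans h7

/-- index set of `R(T)` -/
theorem exists_idx {k : ℕ} {f : Fin k → D.ι} (_hf : Function.Injective f) {T : Finset D.ι}
    (hT : T ∈ Tsets D.g n) (hR : ∀ x ∈ Rset D.g T, ∃ i, f i = x) :
    ∃ I : Finset (Fin k), (∀ x, x ∈ Rset D.g T ↔ ∃ a ∈ I, f a = x) ∧ 2 ≤ I.card := by
  classical
  refine ⟨Finset.univ.filter fun i => f i ∈ Rset D.g T, fun x => ?_, ?_⟩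
  · constructor
    · intro hx
      obtain ⟨i, rfl⟩ := hR x hx
      exact ⟨i, by simpa using hx, rfl⟩
    · rintro ⟨i, hi, rfl⟩
      simpa using hi
  · refine (mem_Tsets.1 hT).2.trans ?_
    have : Rset D.g T ⊆ (Finset.univ.filter fun i => f i ∈ Rset D.g T).image f := by
      intro x hx
      obtain ⟨i, rfl⟩ := hR x hx
      exact Finset.mem_image.2 ⟨i, by simpa using hx, rfl⟩
    exact (Finset.card_le_card this).trans Finset.card_image_le

theorem idx_mem {k : ℕ} {f : Fin k → D.ι} {T : Finset D.ι} {I : Finset (Fin k)}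
    (h : ∀ x, x ∈ Rset D.g T ↔ ∃ a ∈ I, f a = x) {a : Fin k} (ha : a ∈ I) :
    f a ∈ Rset D.g T := (h _).2 ⟨a, ha, rfl⟩

/-- a Lannér set of order three is a path or a triangle -/
theorem Lan.path3 {L : Finset D.ι} (hL : D.Lan L) (h3 : L.card = 3) :
    ∃ a b c, L = {a, b, c} ∧ a ≠ b ∧ a ≠ c ∧ b ≠ c ∧ D.Adj a b ∧ D.Adj b c := by
  classical
  obtain ⟨x, y, z, hxy, hxz, hyz, rfl⟩ := Finset.card_eq_three.1 h3
  -- an edge at x
  obtain ⟨u, hu, v, hv, hvu, huv⟩ := D.stmtLCON {x, y, z} {x} hL (by simp) (by simp) (by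
    intro e
    have := congrArg Finset.card e
    rw [h3] at this; simp at this)
  rw [Finset.mem_singleton] at hu
  subst hu
  have hv' : v = y ∨ v = z := by
    simp only [Finset.mem_insert, Finset.mem_singleton] at hv hvu
    tauto
  -- reduce to v = y
  have main : ∀ x y z : D.ι, x ≠ y → x ≠ z → y ≠ z → D.Lan {x, y, z} → D.Adj x y →
      ∃ a b c, ({x, y, z} : Finset D.ι) = {a, b, c} ∧ a ≠ b ∧ a ≠ c ∧ b ≠ c ∧ D.Adj a b ∧
        D.Adj b c := by
    intro x y z hxy hxz hyz hL hadj
    obtain ⟨u, hu, v, hv, hvu, huv⟩ := D.stmtLCON {x, y, z} {x, y} hL (by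
      intro t ht; simp only [Finset.mem_insert, Finset.mem_singleton] at ht ⊢; tauto) (by simp) (by
      intro e
      have : z ∈ ({x, y} : Finset D.ι) := by rw [e]; simp
      simp only [Finset.mem_insert, Finset.mem_singleton] at this
      rcases this with h | h
      · exact hxz h.symm
      · exact hyz h.symm)
    have hvz : v = z := by
      simp only [Finset.mem_insert, Finset.mem_singleton] at hv hvu
      tauto
    subst hvz
    simp only [Finset.mem_insert, Finset.mem_singleton] at hu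
    rcases hu with rfl | rfl
    · exact ⟨y, u, v, by ext t; simp only [Finset.mem_insert, Finset.mem_singleton]; tauto,
        hxy.symm, hyz, hxz, hadj.symm D, huv⟩
    · exact ⟨x, u, v, rfl, hxy, hxz, hyz, hadj, huv⟩
  rcases hv' with rfl | rfl
  · exact main u v z hxy hxz hyz hL huv
  · have e : ({u, y, v} : Finset D.ι) = {u, v, y} := by
      ext t; simp only [Finset.mem_insert, Finset.mem_singleton]; tauto
    rw [e] at hL ⊢
    exact main u v y hxz hxy hyz.symm hL huv

theorem inj3 {α : Type*} {a b c : α} (hab : a ≠ b) (hac : a ≠ c) (hbc : b ≠ c) :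
    Function.Injective ![a, b, c] := by
  intro i j h
  fin_cases i <;> fin_cases j <;> simp_all

theorem inj4 {α : Type*} {a b c d : α} (hab : a ≠ b) (hac : a ≠ c) (had : a ≠ d) (hbc : b ≠ c)
    (hbd : b ≠ d) (hcd : c ≠ d) : Function.Injective ![a, b, c, d] := by
  intro i j h
  fin_cases i <;> fin_cases j <;> simp_all

theorem cls_zero {L : Finset D.ι} (h : L.card ≤ 3) : D.cls L = 0 := by
  unfold cls; rw [if_pos h]

theorem stmtTSMALL (hgen : D.StmtGEN) (hdec : D.StmtGDEC) : D.StmtTSMALL := by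
  classical
  intro T hT hc
  obtain ⟨hn, hLan, hLT, hRL, hRP, -, -⟩ := D.stmtCTX T hT
  have h4 : D.cls (D.LM T) ≠ 4 := by rw [D.cls_zero hc]; norm_num
  have hR2 := (mem_Tsets.1 hT).2
  have hL2 := hR2.trans (Finset.card_le_card hRL)
  have hsum := D.stmtSUM
  rcases (show (D.LM T).card = 2 ∨ (D.LM T).card = 3 by omega) with h2 | h3
  · -- order two
    have hRe : Rset D.g T = D.LM T := Finset.eq_of_subset_of_card_le hRL (by omega)
    obtain ⟨a, b, hab, hLe⟩ := Finset.card_eq_two.1 h2
    have hf : Function.Injective ![a, b] := by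
      intro i j h
      fin_cases i <;> fin_cases j <;> simp_all
    refine hsum 2 ![a, b] (fun _ _ => false) (fun _ _ => 0) Finset.univ T 0 hf ?_ ?_ ?_
      (Nat.zero_le _) ?_
    · intro x
      rw [hRe, hLe]
      simp [Fin.exists_fin_two, eq_comm]
    · intro i j h; simp at h
    · intro i _ j _ hij
      have hi : i = 0 := by omega
      have hj : j = 1 := by omega
      subst hi; subst hj
      show D.G T {a, b} ≤ 0
      have haR : a ∈ Rset D.g T := by rw [hRe, hLe]; simp
      have hbR : b ∈ Rset D.g T := by rw [hRe, hLe]; simp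
      have h1 := D.G_le_card hdec hT haR hbR hab h4 (by
        intro s hs h h'
        rw [hLe] at hs
        simp only [Finset.mem_insert, Finset.mem_singleton] at hs
        tauto)
      have hN1 : D.N1 T (D.LM T) {a, b} = ∅ := by
        rw [Finset.eq_empty_iff_forall_notMem]
        intro m hm
        unfold N1 at hm
        rw [Finset.mem_filter] at hm
        obtain ⟨hmT, hmL, hna, s, hs, hms⟩ := hm
        rw [hLe] at hs
        exact hna s hs hms
      have hN2 : D.N2 T (D.LM T) {a, b} = ∅ := by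
        rw [Finset.eq_empty_iff_forall_notMem]
        intro m hm
        unfold N2 at hm
        rw [Finset.mem_filter, hN1] at hm
        obtain ⟨-, -, -, -, m', hm', -⟩ := hm
        exact absurd hm' (Finset.notMem_empty _)
      rw [hN1, hN2] at h1
      simpa using h1
    · decide
  · -- order three
    obtain ⟨a, b, c, hLe, hab, hac, hbc, Aab, Abc⟩ := Lan.path3 D hLan h3
    have hf := inj3 hab hac hbc
    obtain ⟨I, hI, hI2⟩ := D.exists_idx (f := ![a, b, c]) hf hT (by
      intro x hx
      have := hRL hx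
      rw [hLe] at this
      simp only [Finset.mem_insert, Finset.mem_singleton] at this
      rcases this with rfl | rfl | rfl
      · exact ⟨0, rfl⟩
      · exact ⟨1, rfl⟩
      · exact ⟨2, rfl⟩)
    have expl : ∀ s ∈ D.LM T, s = a ∨ s = b ∨ s = c := by
      intro s hs; rw [hLe] at hs; simpa using hs
    have haL : a ∈ D.LM T := by rw [hLe]; simp
    have hbL : b ∈ D.LM T := by rw [hLe]; simp
    have hcL : c ∈ D.LM T := by rw [hLe]; simp
    refine hsum 3 ![a, b, c] (fun i j => decide ((i = 0 ∧ j = 1) ∨ (i = 1 ∧ j = 2)))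
      (fun _ _ => 5) I T 0 hf hI ?_ ?_ (Nat.zero_le _) ?_
    · intro i j h
      rw [decide_eq_true_eq] at h
      rcases h with ⟨rfl, rfl⟩ | ⟨rfl, rfl⟩
      · exact Aab
      · exact Abc
    · intro i hi j hj hij
      have hiR := D.idx_mem hI hi
      have hjR := D.idx_mem hI hj
      have hcase : (i = 0 ∧ j = 1) ∨ (i = 0 ∧ j = 2) ∨ (i = 1 ∧ j = 2) := by omega
      rcases hcase with ⟨rfl, rfl⟩ | ⟨rfl, rfl⟩ | ⟨rfl, rfl⟩
      · -- pair {a, b}: V = {c, b}, remove a
        change D.G T {a, b} ≤ 5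
        change a ∈ _ at hiR
        change b ∈ _ at hjR
        rw [Finset.pair_comm]
        refine D.G_le_five hgen hdec hT hjR hiR hab.symm h4 (V := {b, c}) ?_ (TC_pair Abc) ?_
        · intro s hs
          simp only [Finset.mem_insert, Finset.mem_singleton] at hs
          rcases hs with rfl | rfl
          · exact Finset.mem_erase.2 ⟨hab.symm, hbL⟩
          · exact Finset.mem_erase.2 ⟨hac.symm, hcL⟩
        · intro s hs h h'
          rcases expl s hs with rfl | rfl | rfl
          · exact absurd rfl h'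
          · exact absurd rfl h
          · exact ⟨by simp, Or.inl (Abc.symm D)⟩
      · -- pair {a, c}: V = {a, b}
        change D.G T {a, c} ≤ 5
        change a ∈ _ at hiR
        change c ∈ _ at hjR
        refine D.G_le_five hgen hdec hT hiR hjR hac h4 (V := {a, b}) ?_ (TC_pair Aab) ?_
        · intro s hs
          simp only [Finset.mem_insert, Finset.mem_singleton] at hs
          rcases hs with rfl | rfl
          · exact Finset.mem_erase.2 ⟨hac, haL⟩
          · exact Finset.mem_erase.2 ⟨hbc, hbL⟩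
        · intro s hs h h'
          rcases expl s hs with rfl | rfl | rfl
          · exact absurd rfl h
          · exact ⟨by simp, Or.inl (Aab.symm D)⟩
          · exact absurd rfl h'
      · -- pair {b, c}: V = {a, b}, remove c
        change D.G T {b, c} ≤ 5
        change b ∈ _ at hiR
        change c ∈ _ at hjR
        refine D.G_le_five hgen hdec hT hiR hjR hbc h4 (V := {a, b}) ?_ (TC_pair Aab) ?_
        · intro s hs
          simp only [Finset.mem_insert, Finset.mem_singleton] at hs
          rcases hs with rfl | rfl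
          · exact Finset.mem_erase.2 ⟨hac, haL⟩
          · exact Finset.mem_erase.2 ⟨hbc, hbL⟩
        · intro s hs h h'
          rcases expl s hs with rfl | rfl | rfl
          · exact ⟨by simp, Or.inl Aab⟩
          · exact absurd rfl h
          · exact absurd rfl h'
    · revert hI2
      clear hI
      revert I
      decide

theorem stmtTCYC4 (hgen : D.StmtGEN) (hdec : D.StmtGDEC) : D.StmtTCYC4 := by
  classical
  intro T hT a b c d h
  obtain ⟨hn, hLan, hLT, hRL, hRP, -, -⟩ := D.stmtCTX T hT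
  have h4 : D.cls (D.LM T) ≠ 4 := by
    rw [D.cls_one_of (Cyc4.card D h) (D.not_353_cyc h)]; norm_num
  have hsum := D.stmtSUM
  have hab := h.ab.1
  have hac := h.ac
  have had := h.da.1.symm
  have hbc := h.bc.1
  have hbd := h.bd
  have hcd := h.cd.1
  have hf := inj4 hab hac had hbc hbd hcd
  obtain ⟨I, hI, hI2⟩ := D.exists_idx (f := ![a, b, c, d]) hf hT (by
    intro x hx
    have := hRL hx
    rw [h.eq] at this
    simp only [Finset.mem_insert, Finset.mem_singleton] at this
    rcases this with rfl | rfl | rfl | rfl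
    · exact ⟨0, rfl⟩
    · exact ⟨1, rfl⟩
    · exact ⟨2, rfl⟩
    · exact ⟨3, rfl⟩)
  -- bound for a pair `x, y` with `L - y = {x', m, x''}` a path with centre `m`
  have key : ∀ (x y : D.ι), x ∈ Rset D.g T → y ∈ Rset D.g T → x ≠ y →
      ∀ u m v : D.ι, D.Adj u m → D.Adj m v → u ≠ v → u ≠ y → m ≠ y → v ≠ y → u ∈ D.LM T →
      m ∈ D.LM T → v ∈ D.LM T → (∀ s ∈ D.LM T, s ≠ y → s = u ∨ s = m ∨ s = v) →
      (∀ s ∈ D.LM T, s ≠ x → s ≠ y → D.Adj s x ∨ D.Adj s y) → D.G T {x, y} ≤ 5 := by
    intro x y hx hy hxy u m v hum hmv huv huy hmy hvy huL hmL hvL hex hadj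
    refine D.G_le_five hgen hdec hT hx hy hxy h4 (V := {u, m, v}) ?_ ?_ ?_
    · intro s hs
      simp only [Finset.mem_insert, Finset.mem_singleton] at hs
      rcases hs with rfl | rfl | rfl
      · exact Finset.mem_erase.2 ⟨huy, huL⟩
      · exact Finset.mem_erase.2 ⟨hmy, hmL⟩
      · exact Finset.mem_erase.2 ⟨hvy, hvL⟩
    · refine TC_insert (TC_pair hmv) ?_ (by simp : m ∈ ({m, v} : Finset D.ι)) hum
      simp [hum.1, huv]
    · intro s hs h1 h2
      refine ⟨?_, hadj s hs h1 h2⟩
      simpa using hex s hs h2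
  have expl : ∀ s ∈ D.LM T, s = a ∨ s = b ∨ s = c ∨ s = d := by
    intro s hs; rw [h.eq] at hs; simpa using hs
  have Aab := h.ab
  have Abc := h.bc
  have Acd := h.cd
  have Ada := h.da
  have Aba := Aab.symm D
  have Acb := Abc.symm D
  have Adc := Acd.symm D
  have Aad := Ada.symm D
  refine hsum 4 ![a, b, c, d] (fun i j => decide ((i = 0 ∧ j = 1) ∨ (i = 1 ∧ j = 2) ∨
      (i = 2 ∧ j = 3) ∨ (i = 0 ∧ j = 3))) (fun _ _ => 5) I T 0 hf hI ?_ ?_ (Nat.zero_le _) ?_
  · intro i j hh
    rw [decide_eq_true_eq] at hh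
    rcases hh with ⟨rfl, rfl⟩ | ⟨rfl, rfl⟩ | ⟨rfl, rfl⟩ | ⟨rfl, rfl⟩
    · exact Aab
    · exact Abc
    · exact Acd
    · exact Aad
  · intro i hi j hj hij
    have hiR := D.idx_mem hI hi
    have hjR := D.idx_mem hI hj
    have hcase : (i = 0 ∧ j = 1) ∨ (i = 0 ∧ j = 2) ∨ (i = 0 ∧ j = 3) ∨ (i = 1 ∧ j = 2) ∨
        (i = 1 ∧ j = 3) ∨ (i = 2 ∧ j = 3) := by omega
    rcases hcase with ⟨rfl, rfl⟩ | ⟨rfl, rfl⟩ | ⟨rfl, rfl⟩ | ⟨rfl, rfl⟩ | ⟨rfl, rfl⟩ | ⟨rfl, rfl⟩
    · -- a, b : remove b: c - d - a
      refine key a b hiR hjR hab c d a Acd Ada hac.symm hbc.symm hbd.symm hab h.mc h.md h.ma ?_ ?_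
      · intro s hs hne; have := expl s hs; tauto
      · intro s hs h1 h2
        rcases expl s hs with rfl | rfl | rfl | rfl
        · exact absurd rfl h1
        · exact absurd rfl h2
        · exact Or.inr Acb
        · exact Or.inl Ada
    · -- a, c : remove c: d - a - b
      refine key a c hiR hjR hac d a b Ada Aab hbd.symm hcd.symm hac hbc h.md h.ma h.mb ?_ ?_
      · intro s hs hne; have := expl s hs; tauto
      · intro s hs h1 h2
        rcases expl s hs with rfl | rfl | rfl | rfl
        · exact absurd rfl h1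
        · exact Or.inl Aba
        · exact absurd rfl h2
        · exact Or.inl Ada
    · -- a, d : remove d: a - b - c
      refine key a d hiR hjR had a b c Aab Abc hac had hbd hcd h.ma h.mb h.mc ?_ ?_
      · intro s hs hne; have := expl s hs; tauto
      · intro s hs h1 h2
        rcases expl s hs with rfl | rfl | rfl | rfl
        · exact absurd rfl h1
        · exact Or.inl Aba
        · exact Or.inr Acd
        · exact absurd rfl h2
    · -- b, c : remove c: d - a - b
      refine key b c hiR hjR hbc d a b Ada Aab hbd.symm hcd.symm hac hbc h.md h.ma h.mb ?_ ?_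
      · intro s hs hne; have := expl s hs; tauto
      · intro s hs h1 h2
        rcases expl s hs with rfl | rfl | rfl | rfl
        · exact Or.inl Aab
        · exact absurd rfl h1
        · exact absurd rfl h2
        · exact Or.inr Adc
    · -- b, d : remove d: a - b - c
      refine key b d hiR hjR hbd a b c Aab Abc hac had hbd hcd h.ma h.mb h.mc ?_ ?_
      · intro s hs hne; have := expl s hs; tauto
      · intro s hs h1 h2
        rcases expl s hs with rfl | rfl | rfl | rfl
        · exact Or.inl Aab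
        · exact absurd rfl h1
        · exact Or.inl Acb
        · exact absurd rfl h2
    · -- c, d : remove d: a - b - c
      refine key c d hiR hjR hcd a b c Aab Abc hac had hbd hcd h.ma h.mb h.mc ?_ ?_
      · intro s hs hne; have := expl s hs; tauto
      · intro s hs h1 h2
        rcases expl s hs with rfl | rfl | rfl | rfl
        · exact Or.inr Aad
        · exact Or.inl Abc
        · exact absurd rfl h1
        · exact absurd rfl h2
  · revert hI2
    clear hI
    revert I
    decide

end CoxData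

end MP345
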