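import Mathlib
import Pool.Agent.Work.MP_345ef2_gt.TI27
import Pool.Agent.Work.MP_345ef2_gt.T_TSMALL

/-!
# Blocks TSMALL27, TCYC427 (MP_345ef2_gt, T level, n <= 27)
-/

namespace MP345

open Finset

variable {n : ℕ}

namespace CoxData

variable (D : CoxData n)

theorem stmtTSMALL27 (hgen : D.StmtGEN) (hdec : D.StmtGDEC) : D.StmtTSMALL27 := by
  classical
  intro T hT hc
  obtain ⟨hn, hLan, hLT, hRL, hRP, -, -⟩ := D.stmtCTX T hT
  have h4 : D.cls (D.LM T) ≠ 4 := by rw [D.cls_zero hc]; norm_num
  have hR2 := (mem_Tsets.1 hT).2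
  have hL2 := hR2.trans (Finset.card_le_card hRL)
  have hsum := D.stmtSUM27
  rcases (show (D.LM T).card = 2 ∨ (D.LM T).card = 3 by omega) with h2 | h3
  · -- order two
    have hRe : Rset D.g T = D.LM T := Finset.eq_of_subset_of_card_le hRL (by omega)
    obtain ⟨a, b, hab, hLe⟩ := Finset.card_eq_two.1 h2
    have hf : Function.Injective ![a, b] := by
      intro i j h
      fin_cases i <;> fin_cases j <;> simp_all
    refine hsum 2 ![a, b] (fun _ _ => false) (fun _ _ => 0) Finset.univ T 0 hf ?_ ?_ ?_
      (Nat.zero_le _) ?_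
    · intro x
      rw [hRe, hLe]
      simp [Fin.exists_fin_two, eq_comm]
    · intro i j h; simp at h
    · intro i _ j _ hij
      have hi : i = 0 := by omega
      have hj : j = 1 := by omega
      subst hi; subst hj
      show D.G T {a, b} ≤ 0
      have haR : a ∈ Rset D.g T := by rw [hRe, hLe]; simp
      have hbR : b ∈ Rset D.g T := by rw [hRe, hLe]; simp
      have h1 := D.G_le_card hdec hT haR hbR hab h4 (by
        intro s hs h h'
        rw [hLe] at hs
        simp only [Finset.mem_insert, Finset.mem_singleton] at hs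
        tauto)
      have hN1 : D.N1 T (D.LM T) {a, b} = ∅ := by
        rw [Finset.eq_empty_iff_forall_notMem]
        intro m hm
        unfold N1 at hm
        rw [Finset.mem_filter] at hm
        obtain ⟨hmT, hmL, hna, s, hs, hms⟩ := hm
        rw [hLe] at hs
        exact hna s hs hms
      have hN2 : D.N2 T (D.LM T) {a, b} = ∅ := by
        rw [Finset.eq_empty_iff_forall_notMem]
        intro m hm
        unfold N2 at hm
        rw [Finset.mem_filter, hN1] at hm
        obtain ⟨-, -, -, -, m', hm', -⟩ := hm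
        exact absurd hm' (Finset.notMem_empty _)
      rw [hN1, hN2] at h1
      simpa using h1
    · decide
  · -- order three
    obtain ⟨a, b, c, hLe, hab, hac, hbc, Aab, Abc⟩ := Lan.path3 D hLan h3
    have hf := inj3 hab hac hbc
    obtain ⟨I, hI, hI2⟩ := D.exists_idx (f := ![a, b, c]) hf hT (by
      intro x hx
      have := hRL hx
      rw [hLe] at this
      simp only [Finset.mem_insert, Finset.mem_singleton] at this
      rcases this with rfl | rfl | rfl
      · exact ⟨0, rfl⟩
      · exact ⟨1, rfl⟩
      · exact ⟨2, rfl⟩)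
    have expl : ∀ s ∈ D.LM T, s = a ∨ s = b ∨ s = c := by
      intro s hs; rw [hLe] at hs; simpa using hs
    have haL : a ∈ D.LM T := by rw [hLe]; simp
    have hbL : b ∈ D.LM T := by rw [hLe]; simp
    have hcL : c ∈ D.LM T := by rw [hLe]; simp
    refine hsum 3 ![a, b, c] (fun i j => decide ((i = 0 ∧ j = 1) ∨ (i = 1 ∧ j = 2)))
      (fun _ _ => 5) I T 0 hf hI ?_ ?_ (Nat.zero_le _) ?_
    · intro i j h
      rw [decide_eq_true_eq] at h
      rcases h with ⟨rfl, rfl⟩ | ⟨rfl, rfl⟩
      · exact Aab
      · exact Abc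
    · intro i hi j hj hij
      have hiR := D.idx_mem hI hi
      have hjR := D.idx_mem hI hj
      have hcase : (i = 0 ∧ j = 1) ∨ (i = 0 ∧ j = 2) ∨ (i = 1 ∧ j = 2) := by omega
      rcases hcase with ⟨rfl, rfl⟩ | ⟨rfl, rfl⟩ | ⟨rfl, rfl⟩
      · -- pair {a, b}: V = {c, b}, remove a
        change D.G T {a, b} ≤ 5
        change a ∈ _ at hiR
        change b ∈ _ at hjR
        rw [Finset.pair_comm]
        refine D.G_le_five hgen hdec hT hjR hiR hab.symm h4 (V := {b, c}) ?_ (TC_pair Abc) ?_
        · intro s hs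
          simp only [Finset.mem_insert, Finset.mem_singleton] at hs
          rcases hs with rfl | rfl
          · exact Finset.mem_erase.2 ⟨hab.symm, hbL⟩
          · exact Finset.mem_erase.2 ⟨hac.symm, hcL⟩
        · intro s hs h h'
          rcases expl s hs with rfl | rfl | rfl
          · exact absurd rfl h'
          · exact absurd rfl h
          · exact ⟨by simp, Or.inl (Abc.symm D)⟩
      · -- pair {a, c}: V = {a, b}
        change D.G T {a, c} ≤ 5
        change a ∈ _ at hiR
        change c ∈ _ at hjR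
        refine D.G_le_five hgen hdec hT hiR hjR hac h4 (V := {a, b}) ?_ (TC_pair Aab) ?_
        · intro s hs
          simp only [Finset.mem_insert, Finset.mem_singleton] at hs
          rcases hs with rfl | rfl
          · exact Finset.mem_erase.2 ⟨hac, haL⟩
          · exact Finset.mem_erase.2 ⟨hbc, hbL⟩
        · intro s hs h h'
          rcases expl s hs with rfl | rfl | rfl
          · exact absurd rfl h
          · exact ⟨by simp, Or.inl (Aab.symm D)⟩
          · exact absurd rfl h'
      · -- pair {b, c}: V = {a, b}, remove c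
        change D.G T {b, c} ≤ 5
        change b ∈ _ at hiR
        change c ∈ _ at hjR
        refine D.G_le_five hgen hdec hT hiR hjR hbc h4 (V := {a, b}) ?_ (TC_pair Aab) ?_
        · intro s hs
          simp only [Finset.mem_insert, Finset.mem_singleton] at hs
          rcases hs with rfl | rfl
          · exact Finset.mem_erase.2 ⟨hac, haL⟩
          · exact Finset.mem_erase.2 ⟨hbc, hbL⟩
        · intro s hs h h'
          rcases expl s hs with rfl | rfl | rfl
          · exact ⟨by simp, Or.inl Aab⟩
          · exact absurd rfl h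
          · exact absurd rfl h'
    · revert hI2
      clear hI
      revert I
      decide

theorem stmtTCYC427 (hgen : D.StmtGEN) (hdec : D.StmtGDEC) : D.StmtTCYC427 := by
  classical
  intro T hT a b c d h
  obtain ⟨hn, hLan, hLT, hRL, hRP, -, -⟩ := D.stmtCTX T hT
  have h4 : D.cls (D.LM T) ≠ 4 := by
    rw [D.cls_one_of (Cyc4.card D h) (D.not_353_cyc h)]; norm_num
  have hsum := D.stmtSUM27
  have hab := h.ab.1
  have hac := h.ac
  have had := h.da.1.symm
  have hbc := h.bc.1
  have hbd := h.bd
  have hcd := h.cd.1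
  have hf := inj4 hab hac had hbc hbd hcd
  obtain ⟨I, hI, hI2⟩ := D.exists_idx (f := ![a, b, c, d]) hf hT (by
    intro x hx
    have := hRL hx
    rw [h.eq] at this
    simp only [Finset.mem_insert, Finset.mem_singleton] at this
    rcases this with rfl | rfl | rfl | rfl
    · exact ⟨0, rfl⟩
    · exact ⟨1, rfl⟩
    · exact ⟨2, rfl⟩
    · exact ⟨3, rfl⟩)
  -- bound for a pair `x, y` with `L - y = {x', m, x''}` a path with centre `m`
  have key : ∀ (x y : D.ι), x ∈ Rset D.g T → y ∈ Rset D.g T → x ≠ y →
      ∀ u m v : D.ι, D.Adj u m → D.Adj m v → u ≠ v → u ≠ y → m ≠ y → v ≠ y → u ∈ D.LM T →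
      m ∈ D.LM T → v ∈ D.LM T → (∀ s ∈ D.LM T, s ≠ y → s = u ∨ s = m ∨ s = v) →
      (∀ s ∈ D.LM T, s ≠ x → s ≠ y → D.Adj s x ∨ D.Adj s y) → D.G T {x, y} ≤ 5 := by
    intro x y hx hy hxy u m v hum hmv huv huy hmy hvy huL hmL hvL hex hadj
    refine D.G_le_five hgen hdec hT hx hy hxy h4 (V := {u, m, v}) ?_ ?_ ?_
    · intro s hs
      simp only [Finset.mem_insert, Finset.mem_singleton] at hs
      rcases hs with rfl | rfl | rfl
      · exact Finset.mem_erase.2 ⟨huy, huL⟩
      · exact Finset.mem_erase.2 ⟨hmy, hmL⟩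
      · exact Finset.mem_erase.2 ⟨hvy, hvL⟩
    · refine TC_insert (TC_pair hmv) ?_ (by simp : m ∈ ({m, v} : Finset D.ι)) hum
      simp [hum.1, huv]
    · intro s hs h1 h2
      refine ⟨?_, hadj s hs h1 h2⟩
      simpa using hex s hs h2
  have expl : ∀ s ∈ D.LM T, s = a ∨ s = b ∨ s = c ∨ s = d := by
    intro s hs; rw [h.eq] at hs; simpa using hs
  have Aab := h.ab
  have Abc := h.bc
  have Acd := h.cd
  have Ada := h.da
  have Aba := Aab.symm D
  have Acb := Abc.symm D
  have Adc := Acd.symm D
  have Aad := Ada.symm D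
  refine hsum 4 ![a, b, c, d] (fun i j => decide ((i = 0 ∧ j = 1) ∨ (i = 1 ∧ j = 2) ∨
      (i = 2 ∧ j = 3) ∨ (i = 0 ∧ j = 3))) (fun _ _ => 5) I T 0 hf hI ?_ ?_ (Nat.zero_le _) ?_
  · intro i j hh
    rw [decide_eq_true_eq] at hh
    rcases hh with ⟨rfl, rfl⟩ | ⟨rfl, rfl⟩ | ⟨rfl, rfl⟩ | ⟨rfl, rfl⟩
    · exact Aab
    · exact Abc
    · exact Acd
    · exact Aad
  · intro i hi j hj hij
    have hiR := D.idx_mem hI hi
    have hjR := D.idx_mem hI hj
    have hcase : (i = 0 ∧ j = 1) ∨ (i = 0 ∧ j = 2) ∨ (i = 0 ∧ j = 3) ∨ (i = 1 ∧ j = 2) ∨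
        (i = 1 ∧ j = 3) ∨ (i = 2 ∧ j = 3) := by omega
    rcases hcase with ⟨rfl, rfl⟩ | ⟨rfl, rfl⟩ | ⟨rfl, rfl⟩ | ⟨rfl, rfl⟩ | ⟨rfl, rfl⟩ | ⟨rfl, rfl⟩
    · -- a, b : remove b: c - d - a
      refine key a b hiR hjR hab c d a Acd Ada hac.symm hbc.symm hbd.symm hab h.mc h.md h.ma ?_ ?_
      · intro s hs hne; have := expl s hs; tauto
      · intro s hs h1 h2
        rcases expl s hs with rfl | rfl | rfl | rfl
        · exact absurd rfl h1
        · exact absurd rfl h2
        · exact Or.inr Acb
        · exact Or.inl Ada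
    · -- a, c : remove c: d - a - b
      refine key a c hiR hjR hac d a b Ada Aab hbd.symm hcd.symm hac hbc h.md h.ma h.mb ?_ ?_
      · intro s hs hne; have := expl s hs; tauto
      · intro s hs h1 h2
        rcases expl s hs with rfl | rfl | rfl | rfl
        · exact absurd rfl h1
        · exact Or.inl Aba
        · exact absurd rfl h2
        · exact Or.inl Ada
    · -- a, d : remove d: a - b - c
      refine key a d hiR hjR had a b c Aab Abc hac had hbd hcd h.ma h.mb h.mc ?_ ?_
      · intro s hs hne; have := expl s hs; tauto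
      · intro s hs h1 h2
        rcases expl s hs with rfl | rfl | rfl | rfl
        · exact absurd rfl h1
        · exact Or.inl Aba
        · exact Or.inr Acd
        · exact absurd rfl h2
    · -- b, c : remove c: d - a - b
      refine key b c hiR hjR hbc d a b Ada Aab hbd.symm hcd.symm hac hbc h.md h.ma h.mb ?_ ?_
      · intro s hs hne; have := expl s hs; tauto
      · intro s hs h1 h2
        rcases expl s hs with rfl | rfl | rfl | rfl
        · exact Or.inl Aab
        · exact absurd rfl h1
        · exact absurd rfl h2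
        · exact Or.inr Adc
    · -- b, d : remove d: a - b - c
      refine key b d hiR hjR hbd a b c Aab Abc hac had hbd hcd h.ma h.mb h.mc ?_ ?_
      · intro s hs hne; have := expl s hs; tauto
      · intro s hs h1 h2
        rcases expl s hs with rfl | rfl | rfl | rfl
        · exact Or.inl Aab
        · exact absurd rfl h1
        · exact Or.inl Acb
        · exact absurd rfl h2
    · -- c, d : remove d: a - b - c
      refine key c d hiR hjR hcd a b c Aab Abc hac had hbd hcd h.ma h.mb h.mc ?_ ?_
      · intro s hs hne; have := expl s hs; tauto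
      · intro s hs h1 h2
        rcases expl s hs with rfl | rfl | rfl | rfl
        · exact Or.inr Aad
        · exact Or.inl Abc
        · exact absurd rfl h1
        · exact absurd rfl h2
  · revert hI2
    clear hI
    revert I
    decide

end CoxData

end MP345
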