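import Mathlib
import Pool.Agent.Work.MP_345ef2_gt.T_Lib

/-!
# T level, type `[5,3,3,3]` (helper29)
-/

namespace MP345

open Finset

variable {n : ℕ}

namespace CoxData

variable {D : CoxData n}

/-- facts on `T` with `LM T = [5,3,3,3]` -/
structure H5 (D : CoxData n) (T : Finset D.ι) (a b c d e : D.ι) : Prop where
  hT : T ∈ Tsets D.g n
  p : D.Path5 a b c d e c5 (1 / 2) (1 / 2) (1 / 2) (D.LM T)
  sub : D.LM T ⊆ T
  Rsub : Rset D.g T ⊆ D.LM T
  pdR : ∀ x ∈ Rset D.g T, PD D.g (T.erase x)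
  na : ∀ m ∈ T, m ∉ D.LM T → ¬ D.Adj m a
  nb : ∀ m ∈ T, m ∉ D.LM T → ¬ D.Adj m b
  nc : ∀ m ∈ T, m ∉ D.LM T → ¬ D.Adj m c
  nde : ∀ m ∈ T, m ∉ D.LM T → ¬ (D.Adj m d ∧ D.Adj m e)

theorem mem_N1 {T L P : Finset D.ι} {m : D.ι} :
    m ∈ D.N1 T L P ↔ m ∈ T ∧ m ∉ L ∧ D.NA m P ∧ ∃ s ∈ L, D.Adj m s := by
  classical
  simp [N1]

theorem mem_N2 {T L P : Finset D.ι} {x : D.ι} :
    x ∈ D.N2 T L P ↔ x ∈ T ∧ x ∉ L ∧ D.NA x P ∧ D.NA x L ∧ ∃ m ∈ D.N1 T L P, D.Adj x m := by
  classical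
  simp [N2]

theorem mem_N3 {T L P : Finset D.ι} {x : D.ι} :
    x ∈ D.N3 T L P ↔ x ∈ T ∧ x ∉ L ∧ D.NA x P ∧ D.NA x L ∧ D.NA x (D.N1 T L P) ∧
      ∃ m ∈ D.N2 T L P, D.Adj x m := by
  classical
  simp [N3]

theorem mem_N0 {T L P : Finset D.ι} {x : D.ι} :
    x ∈ D.N0 T L P ↔ x ∈ L ∧ x ∉ Rset D.g T ∧ D.NA x P := by
  classical
  simp [N0, and_assoc]

theorem na_pair {x y z : D.ι} : D.NA z {x, y} ↔ ¬ D.Adj z x ∧ ¬ D.Adj z y := by
  simp [NA]

theorem not_five {x y : D.ι} (h : D.g x y = 0 ∨ D.g x y = -(1 / 2)) : ¬ D.Five {x, y} := by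
  have h5 := c5_gt
  rintro ⟨s, hs, t, ht, hst⟩
  simp only [Finset.mem_insert, Finset.mem_singleton] at hs ht
  have hyx := D.symm y x
  rcases hs with rfl | rfl <;> rcases ht with rfl | rfl
  · rw [D.self] at hst; linarith
  · rcases h with h | h <;> rw [h] at hst <;> linarith
  · rw [hyx] at hst
    rcases h with h | h <;> rw [h] at hst <;> linarith
  · rw [D.self] at hst; linarith

namespace H5

variable {T : Finset D.ι} {a b c d e : D.ι} (H : D.H5 T a b c d e)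

include H

theorem memL {x : D.ι} (hx : x ∈ D.LM T) : x = a ∨ x = b ∨ x = c ∨ x = d ∨ x = e := by
  rw [H.p.eq] at hx
  simpa using hx

/-- a node outside `L` adjacent to `L` is adjacent to `d` or `e` -/
theorem contact {m s : D.ι} (hm : m ∈ T) (hmL : m ∉ D.LM T) (hs : s ∈ D.LM T) (h : D.Adj m s) :
    s = d ∨ s = e := by
  rcases H.memL hs with rfl | rfl | rfl | rfl | rfl
  · exact absurd h (H.na m hm hmL)
  · exact absurd h (H.nb m hm hmL)
  · exact absurd h (H.nc m hm hmL)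
  · exact Or.inl rfl
  · exact Or.inr rfl

theorem N1_adj {P : Finset D.ι} {m : D.ι} (hm : m ∈ D.N1 T (D.LM T) P) :
    D.Adj m d ∨ D.Adj m e := by
  obtain ⟨h1, h2, h3, s, hs, h4⟩ := mem_N1.1 hm
  rcases H.contact h1 h2 hs h4 with rfl | rfl
  · exact Or.inl h4
  · exact Or.inr h4

theorem sum_N0 (P : Finset D.ι) (fa fb fc fd fe : ℕ)
    (ha : a ∉ Rset D.g T → D.NA a P → 2 - D.cnt T a P ≤ fa)
    (hb : b ∉ Rset D.g T → D.NA b P → 2 - D.cnt T b P ≤ fb)
    (hc : c ∉ Rset D.g T → D.NA c P → 2 - D.cnt T c P ≤ fc)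
    (hd : d ∉ Rset D.g T → D.NA d P → 2 - D.cnt T d P ≤ fd)
    (he : e ∉ Rset D.g T → D.NA e P → 2 - D.cnt T e P ≤ fe) :
    ∑ x ∈ D.N0 T (D.LM T) P, (2 - D.cnt T x P) ≤ fa + fb + fc + fd + fe := by
  classical
  have h1 : ∑ x ∈ D.N0 T (D.LM T) P, (2 - D.cnt T x P) =
      ∑ x ∈ D.LM T, if x ∉ Rset D.g T ∧ D.NA x P then (2 - D.cnt T x P) else 0 := by
    rw [← Finset.sum_filter]
    refine Finset.sum_congr ?_ fun _ _ => rfl
    ext x
    rw [mem_N0, Finset.mem_filter]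
  have e1 : a ∉ ({b, c, d, e} : Finset D.ι) := by
    simp [H.p.ab, H.p.ac, H.p.ad, H.p.ae]
  have e2 : b ∉ ({c, d, e} : Finset D.ι) := by
    simp [H.p.bc, H.p.bd, H.p.be]
  have e3 : c ∉ ({d, e} : Finset D.ι) := by
    simp [H.p.cd, H.p.ce]
  have e4 : d ∉ ({e} : Finset D.ι) := by
    simp [H.p.de]
  rw [h1, H.p.eq, Finset.sum_insert e1, Finset.sum_insert e2, Finset.sum_insert e3,
    Finset.sum_insert e4, Finset.sum_singleton]
  have key : ∀ (x : D.ι) (f : ℕ), (x ∉ Rset D.g T → D.NA x P → 2 - D.cnt T x P ≤ f) →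
      (if x ∉ Rset D.g T ∧ D.NA x P then (2 - D.cnt T x P) else 0) ≤ f := by
    intro x f hx
    split_ifs with h
    · exact hx h.1 h.2
    · exact Nat.zero_le _
  have := key a fa ha
  have := key b fb hb
  have := key c fc hc
  have := key d fd hd
  have := key e fe he
  omega

/-- cross terms -/
theorem genhyp (hcgen : D.StmtCGEN) {y x : D.ι} (hy : y ∈ Rset D.g T) (hx : x ∈ Rset D.g T)
    (hne : y ≠ x) {V : Finset D.ι} (hV : V ⊆ (D.LM T).erase x) (hTC : D.TC V) (hd : d ∈ V)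
    (he : e ∈ V) :
    D.GenHyp (T.erase x) V (D.N1 T (D.LM T) {y, x}) (D.N2 T (D.LM T) {y, x}) := by
  classical
  have h := (hcgen T H.hT y hy x hx hne V hV hTC).1
  have e1 : ((D.N1 T (D.LM T) {y, x}).filter fun m => ∃ v ∈ V, D.Adj m v) =
      D.N1 T (D.LM T) {y, x} := by
    refine Finset.filter_true_of_mem fun m hm => ?_
    rcases H.N1_adj hm with h | h
    · exact ⟨d, hd, h⟩
    · exact ⟨e, he, h⟩
  have e2 : ((D.N2 T (D.LM T) {y, x}).filter fun w =>
      ∃ m ∈ D.N1 T (D.LM T) {y, x}, (∃ v ∈ V, D.Adj m v) ∧ D.Adj w m) =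
      D.N2 T (D.LM T) {y, x} := by
    refine Finset.filter_true_of_mem fun w hw => ?_
    obtain ⟨_, _, _, _, m, hm, hwm⟩ := mem_N2.1 hw
    refine ⟨m, hm, ?_, hwm⟩
    rcases H.N1_adj hm with h | h
    · exact ⟨d, hd, h⟩
    · exact ⟨e, he, h⟩
  have e1' : ∀ (dp : DecidablePred fun m => ∃ v ∈ V, D.Adj m v),
      (@Finset.filter _ (fun m => ∃ v ∈ V, D.Adj m v) dp (D.N1 T (D.LM T) {y, x})) =
      D.N1 T (D.LM T) {y, x} := by
    intro dp; convert e1
  have e2' : ∀ (dp : DecidablePred fun w =>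
      ∃ m ∈ D.N1 T (D.LM T) {y, x}, (∃ v ∈ V, D.Adj m v) ∧ D.Adj w m),
      (@Finset.filter _ (fun w =>
      ∃ m ∈ D.N1 T (D.LM T) {y, x}, (∃ v ∈ V, D.Adj m v) ∧ D.Adj w m) dp
      (D.N2 T (D.LM T) {y, x})) = D.N2 T (D.LM T) {y, x} := by
    intro dp; convert e2
  rw [e1', e2'] at h
  exact h

theorem mL {x : D.ι} (h : x = a ∨ x = b ∨ x = c ∨ x = d ∨ x = e) : x ∈ D.LM T := by
  rw [H.p.eq]; simpa using h

theorem Aab : D.Adj a b := H.p.Aab c5_pos
theorem Aba : D.Adj b a := H.Aab.symm D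
theorem Abc : D.Adj b c := H.p.Abc (by norm_num)
theorem Acb : D.Adj c b := H.Abc.symm D
theorem Acd : D.Adj c d := H.p.Acd (by norm_num)
theorem Adc : D.Adj d c := H.Acd.symm D
theorem Ade : D.Adj d e := H.p.Ade (by norm_num)
theorem Aed : D.Adj e d := H.Ade.symm D

theorem TCde : D.TC {d, e} := TC_pair H.Ade
theorem TCcde : D.TC {c, d, e} := TC_insert H.TCde (by simp [H.p.cd, H.p.ce]) (by simp) H.Acd
theorem TCbcde : D.TC {b, c, d, e} :=
  TC_insert H.TCcde (by simp [H.p.bc, H.p.bd, H.p.be]) (by simp) H.Abc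

/-- the three trees -/
theorem tree_a (hcgen : D.StmtCGEN) {y : D.ι} (hy : y ∈ Rset D.g T) (hx : a ∈ Rset D.g T)
    (hne : y ≠ a) :
    D.GenHyp (T.erase a) {b, c, d, e} (D.N1 T (D.LM T) {y, a}) (D.N2 T (D.LM T) {y, a}) := by
  refine H.genhyp hcgen hy hx hne ?_ H.TCbcde (by simp) (by simp)
  intro x hx
  simp only [Finset.mem_insert, Finset.mem_singleton] at hx
  rw [Finset.mem_erase]
  refine ⟨?_, H.mL (by tauto)⟩
  rcases hx with rfl | rfl | rfl | rfl
  · exact H.p.ab.symm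
  · exact H.p.ac.symm
  · exact H.p.ad.symm
  · exact H.p.ae.symm

theorem tree_b (hcgen : D.StmtCGEN) {y : D.ι} (hy : y ∈ Rset D.g T) (hx : b ∈ Rset D.g T)
    (hne : y ≠ b) :
    D.GenHyp (T.erase b) {c, d, e} (D.N1 T (D.LM T) {y, b}) (D.N2 T (D.LM T) {y, b}) := by
  refine H.genhyp hcgen hy hx hne ?_ H.TCcde (by simp) (by simp)
  intro x hx
  simp only [Finset.mem_insert, Finset.mem_singleton] at hx
  rw [Finset.mem_erase]
  refine ⟨?_, H.mL (by tauto)⟩
  rcases hx with rfl | rfl | rfl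
  · exact H.p.bc.symm
  · exact H.p.bd.symm
  · exact H.p.be.symm

theorem tree_c (hcgen : D.StmtCGEN) {y : D.ι} (hy : y ∈ Rset D.g T) (hx : c ∈ Rset D.g T)
    (hne : y ≠ c) :
    D.GenHyp (T.erase c) {d, e} (D.N1 T (D.LM T) {y, c}) (D.N2 T (D.LM T) {y, c}) := by
  refine H.genhyp hcgen hy hx hne ?_ H.TCde (by simp) (by simp)
  intro x hx
  simp only [Finset.mem_insert, Finset.mem_singleton] at hx
  rw [Finset.mem_erase]
  refine ⟨?_, H.mL (by tauto)⟩
  rcases hx with rfl | rfl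
  · exact H.p.cd.symm
  · exact H.p.ce.symm

theorem prot_b {P : Finset D.ι} : D.Prot {b, c, d, e} (D.N1 T (D.LM T) P) b := by
  classical
  refine ⟨by simp, ?_, ?_, ?_⟩
  · rw [Finset.card_insert_of_notMem (by simp [H.p.bc, H.p.bd, H.p.be]),
      Finset.card_insert_of_notMem (by simp [H.p.cd, H.p.ce])]
    omega
  · have : D.nb {b, c, d, e} b ⊆ {c} := by
      intro x hx
      obtain ⟨hx1, hx2⟩ := (mem_nb D).1 hx
      simp only [Finset.mem_insert, Finset.mem_singleton] at hx1 ⊢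
      rcases hx1 with rfl | rfl | rfl | rfl
      · exact absurd rfl hx2.1
      · rfl
      · exact absurd hx2 H.p.Nbd
      · exact absurd hx2 H.p.Nbe
    exact (Finset.card_le_card this).trans (by simp)
  · intro m hm h
    obtain ⟨h1, h2, _⟩ := mem_N1.1 hm
    exact H.nb m h1 h2 (h.symm D)

theorem prot_c {P : Finset D.ι} : D.Prot {c, d, e} (D.N1 T (D.LM T) P) c := by
  classical
  refine ⟨by simp, ?_, ?_, ?_⟩
  · rw [Finset.card_insert_of_notMem (by simp [H.p.cd, H.p.ce])]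
    have : 1 ≤ ({d, e} : Finset D.ι).card := Finset.card_pos.2 ⟨d, by simp⟩
    omega
  · have : D.nb {c, d, e} c ⊆ {d} := by
      intro x hx
      obtain ⟨hx1, hx2⟩ := (mem_nb D).1 hx
      simp only [Finset.mem_insert, Finset.mem_singleton] at hx1 ⊢
      rcases hx1 with rfl | rfl | rfl
      · exact absurd rfl hx2.1
      · rfl
      · exact absurd hx2 H.p.Nce
    exact (Finset.card_le_card this).trans (by simp)
  · intro m hm h
    obtain ⟨h1, h2, _⟩ := mem_N1.1 hm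
    exact H.nc m h1 h2 (h.symm D)

theorem prot_d {P : Finset D.ι} (hdP : d ∈ P) : D.Prot {d, e} (D.N1 T (D.LM T) P) d := by
  classical
  refine ⟨by simp, ?_, ?_, ?_⟩
  · rw [Finset.card_pair H.p.de]
  · have : D.nb {d, e} d ⊆ {e} := by
      intro x hx
      obtain ⟨hx1, hx2⟩ := (mem_nb D).1 hx
      simp only [Finset.mem_insert, Finset.mem_singleton] at hx1 ⊢
      rcases hx1 with rfl | rfl
      · exact absurd rfl hx2.1
      · rfl
    exact (Finset.card_le_card this).trans (by simp)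
  · intro m hm h
    obtain ⟨h1, h2, h3, _⟩ := mem_N1.1 hm
    exact h3 d hdP (h.symm D)

/-- `N1, N2` have at most two elements -/
theorem card_a (hgen : D.StmtGEN) (hcgen : D.StmtCGEN) {y : D.ι} (hy : y ∈ Rset D.g T)
    (hx : a ∈ Rset D.g T) (hne : y ≠ a) :
    (D.N1 T (D.LM T) {a, y}).card ≤ 2 ∧ (D.N2 T (D.LM T) {a, y}).card ≤ 2 := by
  have h := hgen _ _ _ _ (H.tree_a hcgen hy hx hne)
  rw [Finset.pair_comm a y]
  exact h.2.2.2.2.2.2.2.1 b H.prot_b

theorem card_b (hgen : D.StmtGEN) (hcgen : D.StmtCGEN) {y : D.ι} (hy : y ∈ Rset D.g T)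
    (hx : b ∈ Rset D.g T) (hne : y ≠ b) :
    (D.N1 T (D.LM T) {b, y}).card ≤ 2 ∧ (D.N2 T (D.LM T) {b, y}).card ≤ 2 := by
  have h := hgen _ _ _ _ (H.tree_b hcgen hy hx hne)
  rw [Finset.pair_comm b y]
  exact h.2.2.2.2.2.2.2.1 c H.prot_c

theorem card_c (hgen : D.StmtGEN) (hcgen : D.StmtCGEN) (hy : d ∈ Rset D.g T)
    (hx : c ∈ Rset D.g T) :
    (D.N1 T (D.LM T) {c, d}).card ≤ 2 ∧ (D.N2 T (D.LM T) {c, d}).card ≤ 2 := by
  have h := hgen _ _ _ _ (H.tree_c hcgen hy hx H.p.cd.symm)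
  rw [Finset.pair_comm c d]
  exact h.2.2.2.2.2.2.2.1 d (H.prot_d (by simp))

/-- `N3` has at most two elements for `P = {a, b}` -/
theorem card_N3 (hgen : D.StmtGEN) (hcgen : D.StmtCGEN) (ha : a ∈ Rset D.g T)
    (hb : b ∈ Rset D.g T) : (D.N3 T (D.LM T) {a, b}).card ≤ 2 := by
  classical
  have hg := H.tree_a hcgen hb ha H.p.ab.symm
  rw [Finset.pair_comm b a] at hg
  have hVN1 : D.TC ({b, c, d, e} ∪ D.N1 T (D.LM T) {a, b}) := by
    have h0 : D.GenHyp (T.erase a) {b, c, d, e} (D.N1 T (D.LM T) {a, b}) ∅ :=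
      { pd := hg.pd, sV := hg.sV, s1 := hg.s1, s2 := by simp, d1 := hg.d1, d2 := by simp,
        d3 := by simp, tc := hg.tc, h1 := hg.h1, h2 := by simp, h3 := by simp }
    have := (hgen _ _ _ _ h0).1
    rwa [Finset.union_empty] at this
  have hG : D.GenHyp (T.erase a) ({b, c, d, e} ∪ D.N1 T (D.LM T) {a, b})
      (D.N2 T (D.LM T) {a, b}) (D.N3 T (D.LM T) {a, b}) := by
    refine { pd := hg.pd, sV := Finset.union_subset hg.sV hg.s1, s1 := hg.s2, s2 := ?_, d1 := ?_,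
             d2 := ?_, d3 := ?_, tc := hVN1, h1 := ?_, h2 := ?_, h3 := ?_ }
    · intro x hx
      obtain ⟨h1, h2, _⟩ := mem_N3.1 hx
      exact Finset.mem_erase.2 ⟨fun e => h2 (e ▸ H.mL (by simp)), h1⟩
    · rw [Finset.disjoint_union_left]; exact ⟨hg.d2, hg.d3⟩
    · rw [Finset.disjoint_union_left]
      constructor
      · rw [Finset.disjoint_left]
        intro x hx hx3
        obtain ⟨h1, h2, _⟩ := mem_N3.1 hx3
        simp only [Finset.mem_insert, Finset.mem_singleton] at hx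
        exact h2 (H.mL (by tauto))
      · rw [Finset.disjoint_left]
        intro x hx hx3
        obtain ⟨h1, h2, h3, h4, _⟩ := mem_N3.1 hx3
        obtain ⟨_, _, _, s, hs, hxs⟩ := mem_N1.1 hx
        exact h4 s hs hxs
    · rw [Finset.disjoint_left]
      intro x hx hx3
      obtain ⟨h1, h2, h3, h4, h5, _⟩ := mem_N3.1 hx3
      obtain ⟨_, _, _, _, m, hm, hxm⟩ := mem_N2.1 hx
      exact h5 m hm hxm
    · intro m hm
      obtain ⟨_, _, _, _, v, hv, hmv⟩ := mem_N2.1 hm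
      exact ⟨v, Finset.mem_union_right _ hv, hmv⟩
    · intro x hx
      obtain ⟨_, _, _, _, _, m, hm, hxm⟩ := mem_N3.1 hx
      exact ⟨m, hm, hxm⟩
    · intro x hx v hv hxv
      obtain ⟨_, _, _, h4, h5, _⟩ := mem_N3.1 hx
      rcases Finset.mem_union.1 hv with hv | hv
      · refine h4 v (H.mL ?_) hxv
        simp only [Finset.mem_insert, Finset.mem_singleton] at hv
        tauto
      · exact h5 v hv hxv
  have hP : D.Prot ({b, c, d, e} ∪ D.N1 T (D.LM T) {a, b}) (D.N2 T (D.LM T) {a, b}) b := by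
    obtain ⟨h1, h2, h3, h4⟩ := H.prot_b (P := {a, b})
    refine ⟨Finset.mem_union_left _ h1, h2.trans (Finset.card_le_card Finset.subset_union_left),
      ?_, ?_⟩
    · refine (Finset.card_le_card ?_).trans h3
      intro x hx
      obtain ⟨hx1, hx2⟩ := (mem_nb D).1 hx
      rcases Finset.mem_union.1 hx1 with hx1 | hx1
      · exact (mem_nb D).2 ⟨hx1, hx2⟩
      · exact absurd hx2 (h4 x hx1)
    · intro m hm h
      obtain ⟨_, _, _, h5, _⟩ := mem_N2.1 hm
      exact h5 b (H.mL (by simp)) (h.symm D)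
  exact ((hgen _ _ _ _ hG).2.2.2.2.2.2.2.1 b hP).2


omit H in
theorem sum_le_two_mul {α : Type*} {N : Finset α} {f : α → ℕ} {k w : ℕ} (h : N.card ≤ k)
    (hf : ∀ x ∈ N, f x ≤ w) : ∑ x ∈ N, f x ≤ w * k := by
  calc ∑ x ∈ N, f x ≤ ∑ x ∈ N, w := Finset.sum_le_sum hf
    _ = N.card * w := by simp
    _ ≤ w * k := by rw [mul_comm]; exact Nat.mul_le_mul_left _ h

/-- the decomposition for a pair that is not of label 5 -/
theorem G_le (hgdec : D.StmtGDEC) {x y : D.ι} (hx : x ∈ Rset D.g T) (hy : y ∈ Rset D.g T)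
    (hne : x ≠ y) (h5 : ¬ D.Five {x, y}) {k0 k1 k2 : ℕ}
    (h0 : ∑ z ∈ D.N0 T (D.LM T) {x, y}, (2 - D.cnt T z {x, y}) ≤ k0)
    (h1 : ∑ z ∈ D.N1 T (D.LM T) {x, y}, (2 - D.cnt T z {x, y}) ≤ k1)
    (h2 : ∀ w : D.ι → ℕ, (∀ z ∈ D.N2 T (D.LM T) {x, y}, w z ≤ 2) →
      (∀ z ∈ D.N2 T (D.LM T) {x, y}, ¬ D.Far2s T z {x, y} → w z ≤ 1) →
      ∑ z ∈ D.N2 T (D.LM T) {x, y}, w z ≤ k2) :
    D.G T {x, y} ≤ k0 + k1 + k2 := by
  classical
  have h := (hgdec T H.hT x hx y hy hne).2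
  rw [if_neg h5, add_zero] at h
  refine h.trans ?_
  refine Nat.add_le_add (Nat.add_le_add h0 h1) ?_
  refine h2 _ (fun z _ => by split_ifs <;> simp) (fun z _ hz => ?_)
  rw [if_neg]
  rintro (h | h)
  · exact hz h
  · exact h5 h

/-- `Far2s` needs a neighbour of `e` and `e` not adjacent to `P`, or of `d` and ... -/
theorem far2s_contact {P : Finset D.ι} {x : D.ι} (h : D.Far2s T x P) :
    ∃ y ∈ T, y ∉ D.LM T ∧ D.NA y P ∧ D.Adj x y ∧
      ((D.Adj y d ∧ d ∉ P ∧ D.NA d P) ∨ (D.Adj y e ∧ e ∉ P ∧ D.NA e P)) := by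
  obtain ⟨y, ⟨hy1, hy2, hy3, hy4⟩, hxy, s, hs, hsP, hys, hsn⟩ := h
  refine ⟨y, hy1, hy3, hy4, hxy, ?_⟩
  rcases H.contact hy1 hy3 hs hys with rfl | rfl
  · exact Or.inl ⟨hys, hsP, hsn⟩
  · exact Or.inr ⟨hys, hsP, hsn⟩

/-- pairs `{x, e}` or `{d, e}`: no neighbours of `L` -/
theorem N1_empty {P : Finset D.ι} (heP : e ∈ P) (hd : d ∈ P ∨ ∀ m ∈ T, m ∉ D.LM T → ¬ D.Adj m d) :
    D.N1 T (D.LM T) P = ∅ := by
  rw [Finset.eq_empty_iff_forall_notMem]
  intro m hm
  obtain ⟨h1, h2, h3, _⟩ := mem_N1.1 hm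
  rcases H.N1_adj hm with h | h
  · rcases hd with hd | hd
    · exact h3 d hd h
    · exact hd m h1 h2 h
  · exact h3 e heP h

omit H in
theorem N2_empty {P L : Finset D.ι} (h : D.N1 T L P = ∅) : D.N2 T L P = ∅ := by
  rw [Finset.eq_empty_iff_forall_notMem]
  intro m hm
  obtain ⟨_, _, _, _, s, hs, _⟩ := mem_N2.1 hm
  rw [h] at hs
  exact absurd hs (Finset.notMem_empty _)

omit H in
theorem sub_one {k : ℕ} (h : 1 ≤ k) : 2 - k ≤ 1 := by omega

/-- `{d, e}` -/
theorem G_de (hgdec : D.StmtGDEC) (hd : d ∈ Rset D.g T) (he : e ∈ Rset D.g T) (ka kb : ℕ)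
    (ha : a ∉ Rset D.g T → 2 ≤ ka) (hb : b ∉ Rset D.g T → 1 ≤ kb) :
    D.G T {d, e} ≤ ka + kb := by
  have h1 : D.N1 T (D.LM T) {d, e} = ∅ := H.N1_empty (by simp) (Or.inl (by simp))
  have h := H.G_le hgdec hd he H.p.de (not_five (Or.inr H.p.vde)) (k0 := ka + kb) (k1 := 0)
    (k2 := 0) ?_ (by rw [h1]; simp) (fun w _ _ => by rw [N2_empty h1]; simp)
  · omega
  · have := H.sum_N0 {d, e} ka kb 0 0 0 ?_ ?_ ?_ ?_ ?_
    · omega
    · intro h _; have := ha h; omega
    · intro h _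
      have h2 : 1 ≤ D.cnt T b {d, e} :=
        cnt_pos (p := d) (z := c) (by simp) (H.sub H.p.mc) (by simp [H.p.cd, H.p.ce]) H.Acb H.Acd
      have := hb h; omega
    · intro _ h; exact absurd H.Acd (h d (by simp))
    · intro h; exact absurd hd h
    · intro h; exact absurd he h

/-- `{c, e}` -/
theorem G_ce (hgdec : D.StmtGDEC) (hc : c ∈ Rset D.g T) (he : e ∈ Rset D.g T)
    (hd : ∀ m ∈ T, m ∉ D.LM T → ¬ D.Adj m d) (ka : ℕ)
    (ha : a ∉ Rset D.g T → 1 ≤ ka) :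
    D.G T {c, e} ≤ ka := by
  have h1 : D.N1 T (D.LM T) {c, e} = ∅ := H.N1_empty (by simp) (Or.inr hd)
  have h := H.G_le hgdec hc he H.p.ce (not_five (Or.inl H.p.vce)) (k0 := ka) (k1 := 0)
    (k2 := 0) ?_ (by rw [h1]; simp) (fun w _ _ => by rw [N2_empty h1]; simp)
  · omega
  · have := H.sum_N0 {c, e} ka 0 0 0 0 ?_ ?_ ?_ ?_ ?_
    · omega
    · intro h _
      have h2 : 1 ≤ D.cnt T a {c, e} :=
        cnt_pos (p := c) (z := b) (by simp) (H.sub H.p.mb) (by simp [H.p.bc, H.p.be]) H.Aba H.Abc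
      have := ha h; omega
    · intro _ h; exact absurd H.Abc (h c (by simp))
    · intro h; exact absurd hc h
    · intro _ h; exact absurd H.Adc (h c (by simp))
    · intro h; exact absurd he h

/-- `{b, e}` -/
theorem G_be (hgdec : D.StmtGDEC) (hb : b ∈ Rset D.g T) (he : e ∈ Rset D.g T)
    (hd : ∀ m ∈ T, m ∉ D.LM T → ¬ D.Adj m d) :
    D.G T {b, e} ≤ 0 := by
  have h1 : D.N1 T (D.LM T) {b, e} = ∅ := H.N1_empty (by simp) (Or.inr hd)
  have h := H.G_le hgdec hb he H.p.be (not_five (Or.inl H.p.vbe)) (k0 := 0) (k1 := 0)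
    (k2 := 0) ?_ (by rw [h1]; simp) (fun w _ _ => by rw [N2_empty h1]; simp)
  · omega
  · have := H.sum_N0 {b, e} 0 0 0 0 0 ?_ ?_ ?_ ?_ ?_
    · omega
    · intro _ h; exact absurd H.Aab (h b (by simp))
    · intro h; exact absurd hb h
    · intro _ h; exact absurd H.Acb (h b (by simp))
    · intro _ h; exact absurd H.Ade (h e (by simp))
    · intro h; exact absurd he h

/-- `{a, e}` -/
theorem G_ae (hgdec : D.StmtGDEC) (ha : a ∈ Rset D.g T) (he : e ∈ Rset D.g T)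
    (hc : c ∈ Rset D.g T) (hd : ∀ m ∈ T, m ∉ D.LM T → ¬ D.Adj m d) :
    D.G T {a, e} ≤ 0 := by
  have h1 : D.N1 T (D.LM T) {a, e} = ∅ := H.N1_empty (by simp) (Or.inr hd)
  have h := H.G_le hgdec ha he H.p.ae (not_five (Or.inl H.p.vae)) (k0 := 0) (k1 := 0)
    (k2 := 0) ?_ (by rw [h1]; simp) (fun w _ _ => by rw [N2_empty h1]; simp)
  · omega
  · have := H.sum_N0 {a, e} 0 0 0 0 0 ?_ ?_ ?_ ?_ ?_
    · omega
    · intro h; exact absurd ha h
    · intro _ h; exact absurd H.Aba (h a (by simp))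
    · intro h; exact absurd hc h
    · intro _ h; exact absurd H.Ade (h e (by simp))
    · intro h; exact absurd he h

/-- pairs containing `d`: `N1` consists of neighbours of `e`, and pays at most 1; `N2` pays at most
one -/
theorem N1_pay_d {P : Finset D.ι} (hdP : d ∈ P) (heP : e ∉ P) :
    ∀ m ∈ D.N1 T (D.LM T) P, D.Adj m e ∧ 2 - D.cnt T m P ≤ 1 := by
  intro m hm
  obtain ⟨h1, h2, h3, _⟩ := mem_N1.1 hm
  have h4 : D.Adj m e := by
    rcases H.N1_adj hm with h | h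
    · exact absurd h (h3 d hdP)
    · exact h
  exact ⟨h4, sub_one (cnt_pos hdP (H.sub H.p.me) heP (h4.symm D) H.Aed)⟩

theorem N2_pay_d {P : Finset D.ι} (hdP : d ∈ P) {x : D.ι} : ¬ D.Far2s T x P := by
  intro h
  obtain ⟨y, hy1, hy2, hy3, hxy, h | h⟩ := H.far2s_contact h
  · exact hy3 d hdP h.1
  · exact h.2.2 d hdP H.Aed

/-- general bound for pairs containing `d` -/
theorem G_xd (hgdec : D.StmtGDEC) {x : D.ι} (hx : x ∈ Rset D.g T) (hd : d ∈ Rset D.g T)
    (hne : x ≠ d) (hxe : x ≠ e) (h5 : ¬ D.Five {x, d}) {k0 k1 k2 : ℕ}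
    (h0 : ∑ z ∈ D.N0 T (D.LM T) {x, d}, (2 - D.cnt T z {x, d}) ≤ k0)
    (h1 : (D.N1 T (D.LM T) {x, d}).card ≤ k1) (h2 : (D.N2 T (D.LM T) {x, d}).card ≤ k2) :
    D.G T {x, d} ≤ k0 + k1 + k2 := by
  have heP : e ∉ ({x, d} : Finset D.ι) := by simp [hxe.symm, H.p.de.symm]
  have h := H.G_le hgdec hx hd hne h5 h0 (k1 := k1) (k2 := k2) ?_ ?_
  · exact h
  · have := sum_le_two_mul (f := fun z => 2 - D.cnt T z {x, d}) h1
      (fun m hm => (H.N1_pay_d (P := {x, d}) (by simp) heP m hm).2)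
    omega
  · intro w _ hw
    have := sum_le_two_mul (f := w) h2 (fun m hm => hw m hm (H.N2_pay_d (by simp)))
    omega

/-- `N0` for `{c, d}` -/
theorem N0_cd (hc : c ∈ Rset D.g T) (hd : d ∈ Rset D.g T) (ka : ℕ)
    (ha : a ∉ Rset D.g T → 1 ≤ ka) :
    ∑ z ∈ D.N0 T (D.LM T) {c, d}, (2 - D.cnt T z {c, d}) ≤ ka := by
  have := H.sum_N0 {c, d} ka 0 0 0 0 ?_ ?_ ?_ ?_ ?_
  · omega
  · intro h _
    have h2 : 1 ≤ D.cnt T a {c, d} :=
      cnt_pos (p := c) (z := b) (by simp) (H.sub H.p.mb) (by simp [H.p.bc, H.p.bd]) H.Aba H.Abc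
    have := ha h; omega
  · intro _ h; exact absurd H.Abc (h c (by simp))
  · intro h; exact absurd hc h
  · intro h; exact absurd hd h
  · intro _ h; exact absurd H.Aed (h d (by simp))

theorem N0_bd (hb : b ∈ Rset D.g T) (hd : d ∈ Rset D.g T) :
    ∑ z ∈ D.N0 T (D.LM T) {b, d}, (2 - D.cnt T z {b, d}) ≤ 0 := by
  have := H.sum_N0 {b, d} 0 0 0 0 0 ?_ ?_ ?_ ?_ ?_
  · omega
  · intro _ h; exact absurd H.Aab (h b (by simp))
  · intro h; exact absurd hb h
  · intro _ h; exact absurd H.Acb (h b (by simp))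
  · intro h; exact absurd hd h
  · intro _ h; exact absurd H.Aed (h d (by simp))

theorem N0_ad (ha : a ∈ Rset D.g T) (hd : d ∈ Rset D.g T) :
    ∑ z ∈ D.N0 T (D.LM T) {a, d}, (2 - D.cnt T z {a, d}) ≤ 0 := by
  have := H.sum_N0 {a, d} 0 0 0 0 0 ?_ ?_ ?_ ?_ ?_
  · omega
  · intro h; exact absurd ha h
  · intro _ h; exact absurd H.Aba (h a (by simp))
  · intro _ h; exact absurd H.Acd (h d (by simp))
  · intro h; exact absurd hd h
  · intro _ h; exact absurd H.Aed (h d (by simp))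

theorem N0_bc (hb : b ∈ Rset D.g T) (hc : c ∈ Rset D.g T) (ke : ℕ)
    (he : e ∉ Rset D.g T → 1 ≤ ke) :
    ∑ z ∈ D.N0 T (D.LM T) {b, c}, (2 - D.cnt T z {b, c}) ≤ ke := by
  have := H.sum_N0 {b, c} 0 0 0 0 ke ?_ ?_ ?_ ?_ ?_
  · omega
  · intro _ h; exact absurd H.Aab (h b (by simp))
  · intro h; exact absurd hb h
  · intro h; exact absurd hc h
  · intro _ h; exact absurd H.Adc (h c (by simp))
  · intro h _
    have h2 : 1 ≤ D.cnt T e {b, c} :=
      cnt_pos (p := c) (z := d) (by simp) (H.sub H.p.md)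
        (by simp [H.p.bd.symm, H.p.cd.symm]) H.Ade H.Adc
    have := he h; omega

theorem N0_ac (ha : a ∈ Rset D.g T) (hc : c ∈ Rset D.g T) (ke : ℕ)
    (he : e ∉ Rset D.g T → 1 ≤ ke) :
    ∑ z ∈ D.N0 T (D.LM T) {a, c}, (2 - D.cnt T z {a, c}) ≤ ke := by
  have := H.sum_N0 {a, c} 0 0 0 0 ke ?_ ?_ ?_ ?_ ?_
  · omega
  · intro h; exact absurd ha h
  · intro _ h; exact absurd H.Aba (h a (by simp))
  · intro h; exact absurd hc h
  · intro _ h; exact absurd H.Adc (h c (by simp))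
  · intro h _
    have h2 : 1 ≤ D.cnt T e {a, c} :=
      cnt_pos (p := c) (z := d) (by simp) (H.sub H.p.md)
        (by simp [H.p.ad.symm, H.p.cd.symm]) H.Ade H.Adc
    have := he h; omega

/-- `{a, b}` -/
theorem G_ab (hgdec : D.StmtGDEC) (hgen : D.StmtGEN) (hcgen : D.StmtCGEN) (ha : a ∈ Rset D.g T)
    (hb : b ∈ Rset D.g T) (hd : d ∈ Rset D.g T) (ke : ℕ)
    (he : e ∉ Rset D.g T → 2 ≤ ke) : D.G T {a, b} ≤ ke + 12 := by
  classical
  have h := (hgdec T H.hT a ha b hb H.p.ab).2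
  have h5 : D.Five {a, b} := ⟨a, by simp, b, by simp, H.p.vab⟩
  have c12 := H.card_a hgen hcgen hb ha H.p.ab.symm
  have c3 := H.card_N3 hgen hcgen ha hb
  rw [if_pos h5] at h
  have h0 := H.sum_N0 {a, b} 0 0 0 0 ke
    (fun h _ => absurd ha h) (fun h _ => absurd hb h)
    (fun _ h => absurd H.Acb (h b (by simp))) (fun h _ => absurd hd h)
    (fun h _ => by have := he h; omega)
  have h1 := sum_le_two_mul (f := fun z => 2 - D.cnt T z {a, b}) (w := 2) c12.1
    (fun m _ => by omega)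
  have h2 := sum_le_two_mul (f := fun z => if (D.Far2s T z {a, b} ∨ D.Five {a, b}) then 2 else 1)
    (w := 2) c12.2 (fun m _ => by split_ifs <;> omega)
  omega

/-- `{a, c}` and `{b, c}`, the general bound -/
theorem G_ac (hgdec : D.StmtGDEC) (hgen : D.StmtGEN) (hcgen : D.StmtCGEN) (ha : a ∈ Rset D.g T)
    (hc : c ∈ Rset D.g T) (ke : ℕ) (he : e ∉ Rset D.g T → 1 ≤ ke) :
    D.G T {a, c} ≤ ke + 8 := by
  have c12 := H.card_a hgen hcgen hc ha H.p.ac.symm
  have h := H.G_le hgdec ha hc H.p.ac (not_five (Or.inl H.p.vac)) (k0 := ke) (k1 := 4)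
    (k2 := 4) (H.N0_ac ha hc ke he)
    (sum_le_two_mul (f := fun z => 2 - D.cnt T z {a, c}) (w := 2) c12.1 (fun m _ => by omega))
    (fun w hw _ => sum_le_two_mul (f := w) (w := 2) c12.2 hw)
  omega

theorem G_bc (hgdec : D.StmtGDEC) (hgen : D.StmtGEN) (hcgen : D.StmtCGEN) (hb : b ∈ Rset D.g T)
    (hc : c ∈ Rset D.g T) (ke : ℕ) (he : e ∉ Rset D.g T → 1 ≤ ke) :
    D.G T {b, c} ≤ ke + 8 := by
  have c12 := H.card_b hgen hcgen hc hb H.p.bc.symm
  have h := H.G_le hgdec hb hc H.p.bc (not_five (Or.inr H.p.vbc)) (k0 := ke) (k1 := 4)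
    (k2 := 4) (H.N0_bc hb hc ke he)
    (sum_le_two_mul (f := fun z => 2 - D.cnt T z {b, c}) (w := 2) c12.1 (fun m _ => by omega))
    (fun w hw _ => sum_le_two_mul (f := w) (w := 2) c12.2 hw)
  omega

theorem G_ad (hgdec : D.StmtGDEC) (hgen : D.StmtGEN) (hcgen : D.StmtCGEN) (ha : a ∈ Rset D.g T)
    (hd : d ∈ Rset D.g T) : D.G T {a, d} ≤ 4 := by
  have c12 := H.card_a hgen hcgen hd ha H.p.ad.symm
  have := H.G_xd hgdec ha hd H.p.ad H.p.ae (not_five (Or.inl H.p.vad)) (H.N0_ad ha hd) c12.1 c12.2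
  omega

theorem G_bd (hgdec : D.StmtGDEC) (hgen : D.StmtGEN) (hcgen : D.StmtCGEN) (hb : b ∈ Rset D.g T)
    (hd : d ∈ Rset D.g T) : D.G T {b, d} ≤ 4 := by
  have c12 := H.card_b hgen hcgen hd hb H.p.bd.symm
  have := H.G_xd hgdec hb hd H.p.bd H.p.be (not_five (Or.inl H.p.vbd)) (H.N0_bd hb hd) c12.1 c12.2
  omega

theorem G_cd (hgdec : D.StmtGDEC) (hgen : D.StmtGEN) (hcgen : D.StmtCGEN) (hc : c ∈ Rset D.g T)
    (hd : d ∈ Rset D.g T) (ka : ℕ) (ha : a ∉ Rset D.g T → 1 ≤ ka) : D.G T {c, d} ≤ ka + 4 := by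
  have c12 := H.card_c hgen hcgen hd hc
  have := H.G_xd hgdec hc hd H.p.cd H.p.ce (not_five (Or.inr H.p.vcd)) (H.N0_cd hc hd ka ha)
    c12.1 c12.2
  omega


/-! ### the unary case: `a ∈ R`, a node `m4` adjacent to `d` -/

/-- the big tree in `T - a` -/
noncomputable def U (_H : D.H5 T a b c d e) : Finset D.ι :=
  open scoped Classical in
  {b, c, d, e} ∪ D.N1 T (D.LM T) {a, b} ∪ D.N2 T (D.LM T) {a, b}

theorem N1_sub {P : Finset D.ι} : D.N1 T (D.LM T) P ⊆ D.N1 T (D.LM T) {a, b} := by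
  intro m hm
  obtain ⟨h1, h2, h3, h4⟩ := mem_N1.1 hm
  exact mem_N1.2 ⟨h1, h2, na_pair.2 ⟨H.na m h1 h2, H.nb m h1 h2⟩, h4⟩

theorem N2_sub {P : Finset D.ι} : D.N2 T (D.LM T) P ⊆ D.N2 T (D.LM T) {a, b} := by
  intro x hx
  obtain ⟨h1, h2, h3, h4, m, hm, hxm⟩ := mem_N2.1 hx
  exact mem_N2.2 ⟨h1, h2, na_pair.2 ⟨h4 a (H.mL (by simp)), h4 b (H.mL (by simp))⟩, h4,
    m, H.N1_sub hm, hxm⟩

theorem mU_L {x : D.ι} (h : x = b ∨ x = c ∨ x = d ∨ x = e) : x ∈ H.U := by
  classical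
  unfold U
  refine Finset.mem_union_left _ (Finset.mem_union_left _ ?_)
  simpa using h

theorem mU_1 {P : Finset D.ι} {x : D.ι} (h : x ∈ D.N1 T (D.LM T) P) : x ∈ H.U := by
  classical
  unfold U
  exact Finset.mem_union_left _ (Finset.mem_union_right _ (H.N1_sub h))

theorem mU_2 {P : Finset D.ι} {x : D.ι} (h : x ∈ D.N2 T (D.LM T) P) : x ∈ H.U := by
  classical
  unfold U
  exact Finset.mem_union_right _ (H.N2_sub h)

theorem U_pd (hcgen : D.StmtCGEN) (ha : a ∈ Rset D.g T) (hb : b ∈ Rset D.g T) :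
    PD D.g H.U := by
  classical
  have hg := H.tree_a hcgen hb ha H.p.ab.symm
  rw [Finset.pair_comm b a] at hg
  refine hg.pd.mono ?_
  unfold U
  exact Finset.union_subset (Finset.union_subset (by convert hg.sV) hg.s1) hg.s2

theorem U_tc (hgen : D.StmtGEN) (hcgen : D.StmtCGEN) (ha : a ∈ Rset D.g T)
    (hb : b ∈ Rset D.g T) : D.TC H.U := by
  classical
  have hg := H.tree_a hcgen hb ha H.p.ab.symm
  rw [Finset.pair_comm b a] at hg
  have := (hgen _ _ _ _ hg).1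
  unfold U
  convert this

theorem U_deg (htree : D.StmtTREE) (hgen : D.StmtGEN) (hcgen : D.StmtCGEN)
    (ha : a ∈ Rset D.g T) (hb : b ∈ Rset D.g T) {m4 : D.ι} (hm : m4 ∈ T) (hmL : m4 ∉ D.LM T)
    (hmd : D.Adj m4 d) {v : D.ι} (hv : v ∈ H.U) (hvd : v ≠ d) : (D.nb H.U v).card ≤ 2 := by
  classical
  have hpd := H.U_pd hcgen ha hb
  have hd : (D.nb H.U d).card = 3 := by
    refine le_antisymm (D.deg_le hpd (H.mU_L (by simp))) ?_
    have hm4 : m4 ∈ D.N1 T (D.LM T) {a, b} :=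
      mem_N1.2 ⟨hm, hmL, na_pair.2 ⟨H.na m4 hm hmL, H.nb m4 hm hmL⟩, d, H.mL (by simp), hmd⟩
    have hsub : ({c, e, m4} : Finset D.ι) ⊆ D.nb H.U d := by
      intro x hx
      simp only [Finset.mem_insert, Finset.mem_singleton] at hx
      rcases hx with rfl | rfl | rfl
      · exact (mem_nb D).2 ⟨H.mU_L (by simp), H.Adc⟩
      · exact (mem_nb D).2 ⟨H.mU_L (by simp), H.Ade⟩
      · exact (mem_nb D).2 ⟨H.mU_1 hm4, hmd.symm D⟩
    have h1 := Finset.card_le_card hsub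
    have e1 : c ≠ m4 := fun h => hmL (h ▸ H.mL (by simp))
    have e2 : e ≠ m4 := fun h => hmL (h ▸ H.mL (by simp))
    rw [Finset.card_eq_three.2 ⟨c, e, m4, H.p.ce, e1, e2, rfl⟩] at h1
    exact h1
  have h3 := D.deg_le hpd hv
  by_contra hlt
  have hv3 : (D.nb H.U v).card = 3 := by omega
  have h4 := (htree H.U hpd (H.U_tc hgen hcgen ha hb)).2.1
  have h5 : ({v, d} : Finset D.ι) ⊆ H.U.filter fun x => (D.nb H.U x).card = 3 := by
    intro x hx
    simp only [Finset.mem_insert, Finset.mem_singleton] at hx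
    rcases hx with rfl | rfl
    · exact Finset.mem_filter.2 ⟨hv, hv3⟩
    · exact Finset.mem_filter.2 ⟨H.mU_L (by simp), hd⟩
  have h6 := Finset.card_le_card h5
  rw [Finset.card_pair hvd] at h6
  have h7 : (H.U.filter fun x => (D.nb H.U x).card = 3).card ≤ 1 := by convert h4
  omega

theorem card_one (htree : D.StmtTREE) (hgen : D.StmtGEN) (hcgen : D.StmtCGEN)
    (ha : a ∈ Rset D.g T) (hb : b ∈ Rset D.g T) {m4 : D.ι} (hm : m4 ∈ T) (hmL : m4 ∉ D.LM T)
    (hmd : D.Adj m4 d) {v w : D.ι} (hv : v ∈ H.U) (hvd : v ≠ d) {X : Finset D.ι}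
    (hX : ∀ x ∈ X, x ∈ H.U ∧ D.Adj v x) (hw : w ∈ H.U) (hwX : w ∉ X) (hvw : D.Adj v w) :
    X.card ≤ 1 := by
  classical
  have h := H.U_deg htree hgen hcgen ha hb hm hmL hmd hv hvd
  have h1 : insert w X ⊆ D.nb H.U v := by
    intro x hx
    rcases Finset.mem_insert.1 hx with rfl | hx
    · exact (mem_nb D).2 ⟨hw, hvw⟩
    · exact (mem_nb D).2 (hX x hx)
  have h2 := Finset.card_le_card h1
  rw [Finset.card_insert_of_notMem hwX] at h2
  omega

theorem unary_xd (htree : D.StmtTREE) (hgdec : D.StmtGDEC) (hgen : D.StmtGEN)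
    (hcgen : D.StmtCGEN) (ha : a ∈ Rset D.g T) (hb : b ∈ Rset D.g T) {m4 : D.ι} (hm : m4 ∈ T)
    (hmL : m4 ∉ D.LM T) (hmd : D.Adj m4 d) {x : D.ι} (hx : x ∈ Rset D.g T)
    (hd : d ∈ Rset D.g T) (hne : x ≠ d) (hxe : x ≠ e) (h5 : ¬ D.Five {x, d}) {k0 : ℕ}
    (h0 : ∑ z ∈ D.N0 T (D.LM T) {x, d}, (2 - D.cnt T z {x, d}) ≤ k0) :
    D.G T {x, d} ≤ k0 + 2 := by
  classical
  have hd' : d ∈ ({x, d} : Finset D.ι) := by simp
  have heP : e ∉ ({x, d} : Finset D.ι) := by simp [hxe.symm, H.p.de.symm]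
  have hpay := H.N1_pay_d hd' heP
  have c1 : (D.N1 T (D.LM T) {x, d}).card ≤ 1 := by
    refine H.card_one htree hgen hcgen ha hb hm hmL hmd (v := e) (w := d) (H.mU_L (by simp))
      H.p.de.symm (fun m hm' => ⟨H.mU_1 hm', (hpay m hm').1.symm D⟩) (H.mU_L (by simp)) ?_ H.Aed
    intro h
    exact (mem_N1.1 h).2.1 (H.mL (by simp))
  have c2 : (D.N2 T (D.LM T) {x, d}).card ≤ 1 := by
    rcases Finset.eq_empty_or_nonempty (D.N1 T (D.LM T) {x, d}) with h | ⟨m, hm'⟩
    · rw [N2_empty h]; simp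
    · have hme := (hpay m hm').1
      refine H.card_one htree hgen hcgen ha hb hm hmL hmd (v := m) (w := e) (H.mU_1 hm')
        (fun h => (mem_N1.1 hm').2.1 (h ▸ H.mL (by simp))) (fun y hy => ⟨H.mU_2 hy, ?_⟩)
        (H.mU_L (by simp)) ?_ hme
      · obtain ⟨_, _, _, _, m', hm'', hym⟩ := mem_N2.1 hy
        rw [Finset.card_le_one] at c1
        rw [c1 m hm' m' hm'']
        exact hym.symm D
      · intro h
        exact (mem_N2.1 h).2.1 (H.mL (by simp))
  have := H.G_xd hgdec hx hd hne hxe h5 h0 c1 c2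
  omega

theorem unary_xc (htree : D.StmtTREE) (hgdec : D.StmtGDEC) (hgen : D.StmtGEN)
    (hcgen : D.StmtCGEN) (ha : a ∈ Rset D.g T) (hb : b ∈ Rset D.g T) {m4 : D.ι} (hm : m4 ∈ T)
    (hmL : m4 ∉ D.LM T) (hmd : D.Adj m4 d) {x : D.ι} (hx : x ∈ Rset D.g T)
    (hc : c ∈ Rset D.g T) (hne : x ≠ c) (hxd : x ≠ d) (h5 : ¬ D.Five {x, c}) {k0 : ℕ}
    (h0 : ∑ z ∈ D.N0 T (D.LM T) {x, c}, (2 - D.cnt T z {x, c}) ≤ k0) :
    D.G T {x, c} ≤ k0 + 6 := by
  classical
  set P : Finset D.ι := {x, c} with hP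
  have hcP : c ∈ P := by simp [hP]
  have hdP : d ∉ P := by simp [hP, hxd.symm, H.p.cd.symm]
  set N := D.N1 T (D.LM T) P with hN
  set A4 := N.filter fun m => D.Adj m d with hA4
  set A5 := N.filter fun m => D.Adj m e with hA5
  have hNsub : N ⊆ A4 ∪ A5 := by
    intro m hm'
    rcases H.N1_adj hm' with h | h
    · exact Finset.mem_union_left _ (Finset.mem_filter.2 ⟨hm', h⟩)
    · exact Finset.mem_union_right _ (Finset.mem_filter.2 ⟨hm', h⟩)
  have notL : ∀ m ∈ N, m ∉ D.LM T := fun m hm' => (mem_N1.1 hm').2.1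
  have c5 : A5.card ≤ 1 := by
    refine H.card_one htree hgen hcgen ha hb hm hmL hmd (v := e) (w := d) (H.mU_L (by simp))
      H.p.de.symm (fun m hm' => ⟨H.mU_1 (Finset.mem_filter.1 hm').1,
        (Finset.mem_filter.1 hm').2.symm D⟩) (H.mU_L (by simp)) ?_ H.Aed
    intro h
    exact notL d (Finset.mem_filter.1 h).1 (H.mL (by simp))
  have c4 : A4.card ≤ 1 := by
    have h1 : insert c (insert e A4) ⊆ D.nb H.U d := by
      intro y hy
      rcases Finset.mem_insert.1 hy with rfl | hy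
      · exact (mem_nb D).2 ⟨H.mU_L (by simp), H.Adc⟩
      · rcases Finset.mem_insert.1 hy with rfl | hy
        · exact (mem_nb D).2 ⟨H.mU_L (by simp), H.Ade⟩
        · obtain ⟨hy1, hy2⟩ := Finset.mem_filter.1 hy
          exact (mem_nb D).2 ⟨H.mU_1 hy1, hy2.symm D⟩
    have h2 := Finset.card_le_card h1
    have e1 : e ∉ A4 := fun h => notL e (Finset.mem_filter.1 h).1 (H.mL (by simp))
    have e2 : c ∉ insert e A4 := by
      rw [Finset.mem_insert]
      rintro (h | h)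
      · exact H.p.ce h
      · exact notL c (Finset.mem_filter.1 h).1 (H.mL (by simp))
    rw [Finset.card_insert_of_notMem e2, Finset.card_insert_of_notMem e1] at h2
    have h3 := D.deg_le (H.U_pd hcgen ha hb) (p := d) (H.mU_L (by simp))
    omega
  have s1 : ∑ z ∈ N, (2 - D.cnt T z P) ≤ 3 := by
    have h1 : ∑ z ∈ N, (2 - D.cnt T z P) ≤ ∑ z ∈ A4 ∪ A5, (2 - D.cnt T z P) :=
      Finset.sum_le_sum_of_subset hNsub
    have h2 : ∑ z ∈ A4 ∪ A5, (2 - D.cnt T z P) ≤ ∑ z ∈ A4, (2 - D.cnt T z P) +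
        ∑ z ∈ A5, (2 - D.cnt T z P) := by
      rw [← Finset.sum_union_inter]; exact Nat.le_add_right _ _
    have h3 := sum_le_two_mul (f := fun z => 2 - D.cnt T z P) (w := 1) c4 (by
      intro m hm'
      obtain ⟨_, h⟩ := Finset.mem_filter.1 hm'
      exact sub_one (cnt_pos hcP (H.sub H.p.md) hdP (h.symm D) H.Adc))
    have h4 := sum_le_two_mul (f := fun z => 2 - D.cnt T z P) (w := 2) c5
      (fun m _ => by omega)
    omega
  have s2 : ∀ w : D.ι → ℕ, (∀ z ∈ D.N2 T (D.LM T) P, w z ≤ 2) →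
      (∀ z ∈ D.N2 T (D.LM T) P, ¬ D.Far2s T z P → w z ≤ 1) →
      ∑ z ∈ D.N2 T (D.LM T) P, w z ≤ 3 := by
    intro w hw hw'
    set M := D.N2 T (D.LM T) P with hM
    set B5 := M.filter fun y => ∃ m ∈ A5, D.Adj y m with hB5
    have b5 : B5.card ≤ 1 := by
      rcases Finset.eq_empty_or_nonempty A5 with h | ⟨m, hm'⟩
      · have : B5 = ∅ := by
          rw [Finset.eq_empty_iff_forall_notMem]
          intro y hy
          obtain ⟨_, m, hm, _⟩ := Finset.mem_filter.1 hy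
          rw [h] at hm
          exact absurd hm (Finset.notMem_empty _)
        rw [this]; simp
      · obtain ⟨hm1, hm2⟩ := Finset.mem_filter.1 hm'
        refine H.card_one htree hgen hcgen ha hb hm hmL hmd (v := m) (w := e) (H.mU_1 hm1)
          (fun h => notL m hm1 (h ▸ H.mL (by simp))) (fun y hy => ?_)
          (H.mU_L (by simp)) ?_ hm2
        · obtain ⟨hy1, m', hm'', hym⟩ := Finset.mem_filter.1 hy
          refine ⟨H.mU_2 hy1, ?_⟩
          rw [Finset.card_le_one] at c5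
          rw [c5 m hm' m' hm'']
          exact hym.symm D
        · intro h
          exact (mem_N2.1 (Finset.mem_filter.1 h).1).2.1 (H.mL (by simp))
    have b4 : (M.filter fun y => ¬ ∃ m ∈ A5, D.Adj y m).card ≤ 1 := by
      rcases Finset.eq_empty_or_nonempty A4 with h | ⟨m, hm'⟩
      · have : (M.filter fun y => ¬ ∃ m ∈ A5, D.Adj y m) = ∅ := by
          rw [Finset.eq_empty_iff_forall_notMem]
          intro y hy
          obtain ⟨hy1, hy2⟩ := Finset.mem_filter.1 hy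
          obtain ⟨_, _, _, _, m, hm, hym⟩ := mem_N2.1 hy1
          rcases Finset.mem_union.1 (hNsub hm) with h' | h'
          · rw [h] at h'
            exact absurd h' (Finset.notMem_empty _)
          · exact hy2 ⟨m, h', hym⟩
        rw [this]; simp
      · obtain ⟨hm1, hm2⟩ := Finset.mem_filter.1 hm'
        refine H.card_one htree hgen hcgen ha hb hm hmL hmd (v := m) (w := d) (H.mU_1 hm1)
          (fun h => notL m hm1 (h ▸ H.mL (by simp))) (fun y hy => ?_)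
          (H.mU_L (by simp)) ?_ hm2
        · obtain ⟨hy1, hy2⟩ := Finset.mem_filter.1 hy
          obtain ⟨_, _, _, _, m', hm'', hym⟩ := mem_N2.1 hy1
          refine ⟨H.mU_2 hy1, ?_⟩
          rcases Finset.mem_union.1 (hNsub hm'') with h' | h'
          · rw [Finset.card_le_one] at c4
            rw [c4 m hm' m' h']
            exact hym.symm D
          · exact absurd ⟨m', h', hym⟩ hy2
        · intro h
          exact (mem_N2.1 (Finset.mem_filter.1 h).1).2.1 (H.mL (by simp))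
    rw [← Finset.sum_filter_add_sum_filter_not M (fun y => ∃ m ∈ A5, D.Adj y m)]
    have h1 := sum_le_two_mul (f := w) (w := 2) b5 (fun y hy => hw y (Finset.mem_filter.1 hy).1)
    rw [← hB5]
    have h2 := sum_le_two_mul (f := w) (w := 1) b4 (by
      intro y hy
      obtain ⟨hy1, hy2⟩ := Finset.mem_filter.1 hy
      refine hw' y hy1 fun hf => ?_
      obtain ⟨z, hz1, hz2, hz3, hyz, h | h⟩ := H.far2s_contact hf
      · exact h.2.2 c hcP H.Adc
      · refine hy2 ⟨z, Finset.mem_filter.2 ⟨mem_N1.2 ⟨hz1, hz2, hz3, e, H.mL (by simp), h.1⟩,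
          h.1⟩, hyz⟩)
    omega
  have := H.G_le hgdec hx hc hne h5 h0 s1 s2
  omega

/-! ### leaves -/

theorem leaf_a {x : D.ι} : D.LeafAt T x a := by
  refine leafAt_of (z := b) fun w hw h => Or.inr ?_
  by_cases hwL : w ∈ D.LM T
  · rcases H.memL hwL with rfl | rfl | rfl | rfl | rfl
    · exact absurd rfl h.1
    · rfl
    · exact absurd h H.p.Nac
    · exact absurd h H.p.Nad
    · exact absurd h H.p.Nae
  · exact absurd (h.symm D) (H.na w hw hwL)

theorem nbr_b {w : D.ι} (hw : w ∈ T) (h : D.Adj b w) : w = a ∨ w = c := by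
  by_cases hwL : w ∈ D.LM T
  · rcases H.memL hwL with rfl | rfl | rfl | rfl | rfl
    · exact Or.inl rfl
    · exact absurd rfl h.1
    · exact Or.inr rfl
    · exact absurd h H.p.Nbd
    · exact absurd h H.p.Nbe
  · exact absurd (h.symm D) (H.nb w hw hwL)

theorem nbr_c {w : D.ι} (hw : w ∈ T) (h : D.Adj c w) : w = b ∨ w = d := by
  by_cases hwL : w ∈ D.LM T
  · rcases H.memL hwL with rfl | rfl | rfl | rfl | rfl
    · exact absurd h H.p.Nca
    · exact Or.inl rfl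
    · exact absurd rfl h.1
    · exact Or.inr rfl
    · exact absurd h H.p.Nce
  · exact absurd (h.symm D) (H.nc w hw hwL)

theorem leaf_ab : D.LeafAt T a b := leafAt_of (z := c) fun _ hw h => H.nbr_b hw h
theorem leaf_cb : D.LeafAt T c b := leafAt_of (z := a) fun _ hw h => (H.nbr_b hw h).symm
theorem leaf_bc : D.LeafAt T b c := leafAt_of (z := d) fun _ hw h => H.nbr_c hw h
theorem leaf_dc : D.LeafAt T d c := leafAt_of (z := b) fun _ hw h => (H.nbr_c hw h).symm

end H5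


/-- adjacency along the path -/
def A5 (i j : Fin 5) : Bool := decide (i.val + 1 = j.val)

theorem H5.inj {T : Finset D.ι} {a b c d e : D.ι} (H : D.H5 T a b c d e) :
    Function.Injective ![a, b, c, d, e] := by
  rw [← List.nodup_ofFn]
  simp [H.p.ab, H.p.ac, H.p.ad, H.p.ae, H.p.bc, H.p.bd, H.p.be, H.p.cd, H.p.ce, H.p.de]

theorem H5.adjA {T : Finset D.ι} {a b c d e : D.ι} (H : D.H5 T a b c d e) :
    ∀ i j, A5 i j = true → D.Adj (![a, b, c, d, e] i) (![a, b, c, d, e] j) := by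
  intro i j h
  fin_cases i <;> fin_cases j <;> first | exact H.Aab | exact H.Abc | exact H.Acd | exact H.Ade | (exact absurd h (by decide))

/-- the ten pairs -/
theorem H5.pairs {T : Finset D.ι} {a b c d e : D.ι} (I : Finset (Fin 5))
    (β : Fin 5 → Fin 5 → ℕ)
    (h01 : 0 ∈ I → 1 ∈ I → D.G T {a, b} ≤ β 0 1) (h02 : 0 ∈ I → 2 ∈ I → D.G T {a, c} ≤ β 0 2)
    (h03 : 0 ∈ I → 3 ∈ I → D.G T {a, d} ≤ β 0 3) (h04 : 0 ∈ I → 4 ∈ I → D.G T {a, e} ≤ β 0 4)
    (h12 : 1 ∈ I → 2 ∈ I → D.G T {b, c} ≤ β 1 2) (h13 : 1 ∈ I → 3 ∈ I → D.G T {b, d} ≤ β 1 3)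
    (h14 : 1 ∈ I → 4 ∈ I → D.G T {b, e} ≤ β 1 4) (h23 : 2 ∈ I → 3 ∈ I → D.G T {c, d} ≤ β 2 3)
    (h24 : 2 ∈ I → 4 ∈ I → D.G T {c, e} ≤ β 2 4) (h34 : 3 ∈ I → 4 ∈ I → D.G T {d, e} ≤ β 3 4) :
    ∀ i ∈ I, ∀ j ∈ I, i < j → D.G T {![a, b, c, d, e] i, ![a, b, c, d, e] j} ≤ β i j := by
  intro i hi j hj hij
  match i, j, hi, hj, hij with
  | 0, 1, hi, hj, _ => exact h01 hi hj
  | 0, 2, hi, hj, _ => exact h02 hi hj
  | 0, 3, hi, hj, _ => exact h03 hi hj
  | 0, 4, hi, hj, _ => exact h04 hi hj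
  | 1, 2, hi, hj, _ => exact h12 hi hj
  | 1, 3, hi, hj, _ => exact h13 hi hj
  | 1, 4, hi, hj, _ => exact h14 hi hj
  | 2, 3, hi, hj, _ => exact h23 hi hj
  | 2, 4, hi, hj, _ => exact h24 hi hj
  | 3, 4, hi, hj, _ => exact h34 hi hj
  | 0, 0, _, _, h => exact absurd h (by decide)
  | 1, 1, _, _, h => exact absurd h (by decide)
  | 2, 2, _, _, h => exact absurd h (by decide)
  | 3, 3, _, _, h => exact absurd h (by decide)
  | 4, 4, _, _, h => exact absurd h (by decide)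
  | 1, 0, _, _, h => exact absurd h (by decide)
  | 2, 0, _, _, h => exact absurd h (by decide)
  | 3, 0, _, _, h => exact absurd h (by decide)
  | 4, 0, _, _, h => exact absurd h (by decide)
  | 2, 1, _, _, h => exact absurd h (by decide)
  | 3, 1, _, _, h => exact absurd h (by decide)
  | 4, 1, _, _, h => exact absurd h (by decide)
  | 3, 2, _, _, h => exact absurd h (by decide)
  | 4, 2, _, _, h => exact absurd h (by decide)
  | 4, 3, _, _, h => exact absurd h (by decide)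

/-- final step, `R(T)` given by `I` -/
theorem H5.fin {T : Finset D.ι} {a b c d e : D.ι} (H : D.H5 T a b c d e) (hsum : D.StmtSUM)
    (I : Finset (Fin 5)) (hI : ∀ i, ![a, b, c, d, e] i ∈ Rset D.g T ↔ i ∈ I)
    (β : Fin 5 → Fin 5 → ℕ)
    (hβ : ∀ i ∈ I, ∀ j ∈ I, i < j → D.G T {![a, b, c, d, e] i, ![a, b, c, d, e] j} ≤ β i j)
    (lam : ℕ) (hlam : lam ≤ D.lvs T)
    (h : 3 * ((∑ a ∈ I, ∑ b ∈ I, if a < b then β a b else 0) +
    2 * ∑ a ∈ I, ∑ b ∈ I, ∑ c ∈ I, if a < b ∧ b < c then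
      2 - (A5 a b).toNat - (A5 a c).toNat - (A5 b c).toNat else 0) ≤
    8 * (I.card * (I.card - 1)) + 3 * lam) : D.TB T := by
  refine hsum 5 ![a, b, c, d, e] A5 β I T lam H.inj ?_ H.adjA hβ hlam h
  intro x
  constructor
  · intro hx
    have key : ∃ i, ![a, b, c, d, e] i = x := by
      rcases H.memL (H.Rsub hx) with rfl | rfl | rfl | rfl | rfl
      · exact ⟨0, rfl⟩
      · exact ⟨1, rfl⟩
      · exact ⟨2, rfl⟩
      · exact ⟨3, rfl⟩
      · exact ⟨4, rfl⟩
    obtain ⟨i, hi⟩ := key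
    exact ⟨i, (hI i).1 (hi ▸ hx), hi⟩
  · rintro ⟨i, hi, rfl⟩
    exact (hI i).2 hi

theorem stmtT5333 (D : CoxData n) (hctx : D.StmtCTX) (hgdec : D.StmtGDEC) (hcgen : D.StmtCGEN)
    (hgen : D.StmtGEN) (htree : D.StmtTREE) (hsum : D.StmtSUM) (hnb : D.StmtNB)
    (hr5 : D.StmtR5) : D.StmtT5333 := by
  classical
  intro T hT a b c d e hp
  obtain ⟨_, _, x3, x4, x5, _, _⟩ := hctx T hT
  have hNB := hnb T hT a b c d e (1 / 2) (Or.inl rfl) hp
  obtain ⟨r1, r2, r3, r4, r5⟩ := hr5 T hT a b c d e hp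
  have H : D.H5 T a b c d e :=
    { hT := hT, p := hp, sub := x3, Rsub := x4, pdR := x5,
      na := fun m h1 h2 => (hNB m h1 h2).1,
      nb := fun m h1 h2 => (hNB m h1 h2).2.1,
      nc := fun m h1 h2 => (hNB m h1 h2).2.2.1,
      nde := fun m h1 h2 => (hNB m h1 h2).2.2.2.2.1 }
  by_cases hd : d ∈ Rset D.g T
  swap
  · have hc : c ∉ Rset D.g T := fun h => hd (r3 h)
    have hb : b ∉ Rset D.g T := fun h => hc (r2 h)
    have ha : a ∉ Rset D.g T := fun h => hb (r1 h)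
    by_cases he : e ∈ Rset D.g T
    · refine H.fin hsum {4} ?_ (fun _ _ => 0) ?_ 0 (Nat.zero_le _) (by decide)
      · intro i; fin_cases i <;> simp [ha, hb, hc, hd, he]
      · intro i hi j hj hij
        rw [Finset.mem_singleton] at hi hj
        subst hi; subst hj
        exact absurd hij (lt_irrefl _)
    · refine H.fin hsum ∅ ?_ (fun _ _ => 0) ?_ 0 (Nat.zero_le _) (by decide)
      · intro i; fin_cases i <;> simp [ha, hb, hc, hd, he]
      · intro i hi
        exact absurd hi (Finset.notMem_empty _)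
  by_cases hc : c ∈ Rset D.g T
  swap
  · have hb : b ∉ Rset D.g T := fun h => hc (r2 h)
    have ha : a ∉ Rset D.g T := fun h => hb (r1 h)
    by_cases he : e ∈ Rset D.g T
    · have h34 := H.G_de hgdec hd he 2 1 (fun _ => le_rfl) (fun _ => le_rfl)
      refine H.fin hsum {3, 4} ?_ (fun _ _ => 3) ?_ 0 (Nat.zero_le _) (by decide)
      · intro i; fin_cases i <;> simp [ha, hb, hc, hd, he]
      · exact H5.pairs _ _ (fun hi hj => absurd (And.intro hi hj) (by decide))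
          (fun hi hj => absurd (And.intro hi hj) (by decide))
          (fun hi hj => absurd (And.intro hi hj) (by decide))
          (fun hi hj => absurd (And.intro hi hj) (by decide))
          (fun hi hj => absurd (And.intro hi hj) (by decide))
          (fun hi hj => absurd (And.intro hi hj) (by decide))
          (fun hi hj => absurd (And.intro hi hj) (by decide))
          (fun hi hj => absurd (And.intro hi hj) (by decide))
          (fun hi hj => absurd (And.intro hi hj) (by decide))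
          (fun _ _ => h34)
    · refine H.fin hsum {3} ?_ (fun _ _ => 0) ?_ 0 (Nat.zero_le _) (by decide)
      · intro i; fin_cases i <;> simp [ha, hb, hc, hd, he]
      · intro i hi j hj hij
        rw [Finset.mem_singleton] at hi hj
        subst hi; subst hj
        exact absurd hij (lt_irrefl _)
  by_cases hb : b ∈ Rset D.g T
  swap
  · have ha : a ∉ Rset D.g T := fun h => hb (r1 h)
    have h23 := H.G_cd hgdec hgen hcgen hc hd 1 (fun _ => le_rfl)
    by_cases he : e ∈ Rset D.g T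
    · have hNd : ∀ m ∈ T, m ∉ D.LM T → ¬ D.Adj m d := fun m h1 h2 h3 => r4 m h1 h2 h3 he
      have h34 := H.G_de hgdec hd he 2 1 (fun _ => le_rfl) (fun _ => le_rfl)
      have h24 := H.G_ce hgdec hc he hNd 1 (fun _ => le_rfl)
      refine H.fin hsum {2, 3, 4} ?_ (fun i j => ![![0, 0, 0, 0, 0], ![0, 0, 0, 0, 0],
        ![0, 0, 0, 5, 1], ![0, 0, 0, 0, 3], ![0, 0, 0, 0, 0]] i j) ?_ 0 (Nat.zero_le _) (by decide)
      · intro i; fin_cases i <;> simp [ha, hb, hc, hd, he]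
      · exact H5.pairs _ _ (fun hi hj => absurd (And.intro hi hj) (by decide))
          (fun hi hj => absurd (And.intro hi hj) (by decide))
          (fun hi hj => absurd (And.intro hi hj) (by decide))
          (fun hi hj => absurd (And.intro hi hj) (by decide))
          (fun hi hj => absurd (And.intro hi hj) (by decide))
          (fun hi hj => absurd (And.intro hi hj) (by decide))
          (fun hi hj => absurd (And.intro hi hj) (by decide))
          (fun _ _ => h23)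
          (fun _ _ => h24)
          (fun _ _ => h34)
    · refine H.fin hsum {2, 3} ?_ (fun _ _ => 5) ?_ 0 (Nat.zero_le _) (by decide)
      · intro i; fin_cases i <;> simp [ha, hb, hc, hd, he]
      · exact H5.pairs _ _ (fun hi hj => absurd (And.intro hi hj) (by decide))
          (fun hi hj => absurd (And.intro hi hj) (by decide))
          (fun hi hj => absurd (And.intro hi hj) (by decide))
          (fun hi hj => absurd (And.intro hi hj) (by decide))
          (fun hi hj => absurd (And.intro hi hj) (by decide))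
          (fun hi hj => absurd (And.intro hi hj) (by decide))
          (fun hi hj => absurd (And.intro hi hj) (by decide))
          (fun _ _ => h23)
          (fun hi hj => absurd (And.intro hi hj) (by decide))
          (fun hi hj => absurd (And.intro hi hj) (by decide))
  by_cases ha : a ∈ Rset D.g T
  swap
  · have h13 := H.G_bd hgdec hgen hcgen hb hd
    have h23 := H.G_cd hgdec hgen hcgen hc hd 1 (fun _ => le_rfl)
    by_cases he : e ∈ Rset D.g T
    · have hNd : ∀ m ∈ T, m ∉ D.LM T → ¬ D.Adj m d := fun m h1 h2 h3 => r4 m h1 h2 h3 he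
      have h12 := H.G_bc hgdec hgen hcgen hb hc 0 (fun h => absurd he h)
      have h14 := H.G_be hgdec hb he hNd
      have h34 := H.G_de hgdec hd he 2 0 (fun _ => le_rfl) (fun h => absurd hb h)
      have h24 := H.G_ce hgdec hc he hNd 1 (fun _ => le_rfl)
      refine H.fin hsum {1, 2, 3, 4} ?_ (fun i j => ![![0, 0, 0, 0, 0], ![0, 0, 8, 4, 0],
        ![0, 0, 0, 5, 1], ![0, 0, 0, 0, 2], ![0, 0, 0, 0, 0]] i j) ?_ 0 (Nat.zero_le _)
        (by decide)
      · intro i; fin_cases i <;> simp [ha, hb, hc, hd, he]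
      · exact H5.pairs _ _ (fun hi hj => absurd (And.intro hi hj) (by decide))
          (fun hi hj => absurd (And.intro hi hj) (by decide))
          (fun hi hj => absurd (And.intro hi hj) (by decide))
          (fun hi hj => absurd (And.intro hi hj) (by decide))
          (fun _ _ => h12)
          (fun _ _ => h13)
          (fun _ _ => h14)
          (fun _ _ => h23)
          (fun _ _ => h24)
          (fun _ _ => h34)
    · have h12 := H.G_bc hgdec hgen hcgen hb hc 1 (fun _ => le_rfl)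
      have hl := lvs_ge_idx H.inj (T := T) {(2, 1), (1, 2), (3, 2)} (by
        intro q hq
        simp only [Finset.mem_insert, Finset.mem_singleton] at hq
        rcases hq with rfl | rfl | rfl
        · exact ⟨hc, hb, by decide, H.leaf_cb⟩
        · exact ⟨hb, hc, by decide, H.leaf_bc⟩
        · exact ⟨hd, hc, by decide, H.leaf_dc⟩)
      refine H.fin hsum {1, 2, 3} ?_ (fun i j => ![![0, 0, 0, 0, 0], ![0, 0, 9, 4, 0],
        ![0, 0, 0, 5, 0], ![0, 0, 0, 0, 0], ![0, 0, 0, 0, 0]] i j) ?_ 3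
        (le_trans (by decide) hl) (by decide)
      · intro i; fin_cases i <;> simp [ha, hb, hc, hd, he]
      · exact H5.pairs _ _ (fun hi hj => absurd (And.intro hi hj) (by decide))
          (fun hi hj => absurd (And.intro hi hj) (by decide))
          (fun hi hj => absurd (And.intro hi hj) (by decide))
          (fun hi hj => absurd (And.intro hi hj) (by decide))
          (fun _ _ => h12)
          (fun _ _ => h13)
          (fun hi hj => absurd (And.intro hi hj) (by decide))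
          (fun _ _ => h23)
          (fun hi hj => absurd (And.intro hi hj) (by decide))
          (fun hi hj => absurd (And.intro hi hj) (by decide))
  have hl := lvs_ge_idx H.inj (T := T) {(2, 0), (3, 0), (0, 1), (2, 1), (1, 2), (3, 2)} (by
    intro q hq
    simp only [Finset.mem_insert, Finset.mem_singleton] at hq
    rcases hq with rfl | rfl | rfl | rfl | rfl | rfl
    · exact ⟨hc, ha, by decide, H.leaf_a⟩
    · exact ⟨hd, ha, by decide, H.leaf_a⟩
    · exact ⟨ha, hb, by decide, H.leaf_ab⟩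
    · exact ⟨hc, hb, by decide, H.leaf_cb⟩
    · exact ⟨hb, hc, by decide, H.leaf_bc⟩
    · exact ⟨hd, hc, by decide, H.leaf_dc⟩)
  by_cases he : e ∈ Rset D.g T
  · have hNd : ∀ m ∈ T, m ∉ D.LM T → ¬ D.Adj m d := fun m h1 h2 h3 => r4 m h1 h2 h3 he
    have h01 := H.G_ab hgdec hgen hcgen ha hb hd 0 (fun h => absurd he h)
    have h02 := H.G_ac hgdec hgen hcgen ha hc 0 (fun h => absurd he h)
    have h03 := H.G_ad hgdec hgen hcgen ha hd
    have h04 := H.G_ae hgdec ha he hc hNd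
    have h12 := H.G_bc hgdec hgen hcgen hb hc 0 (fun h => absurd he h)
    have h13 := H.G_bd hgdec hgen hcgen hb hd
    have h14 := H.G_be hgdec hb he hNd
    have h23 := H.G_cd hgdec hgen hcgen hc hd 0 (fun h => absurd ha h)
    have h24 := H.G_ce hgdec hc he hNd 0 (fun h => absurd ha h)
    have h34 := H.G_de hgdec hd he 0 0 (fun h => absurd ha h) (fun h => absurd hb h)
    refine H.fin hsum {0, 1, 2, 3, 4} ?_ (fun i j => ![![0, 12, 8, 4, 0], ![0, 0, 8, 4, 0],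
        ![0, 0, 0, 4, 0], ![0, 0, 0, 0, 0], ![0, 0, 0, 0, 0]] i j) ?_ 6
        (le_trans (by decide) hl) (by decide)
    · intro i; fin_cases i <;> simp [ha, hb, hc, hd, he]
    · exact H5.pairs _ _ (fun _ _ => h01)
        (fun _ _ => h02)
        (fun _ _ => h03)
        (fun _ _ => h04)
        (fun _ _ => h12)
        (fun _ _ => h13)
        (fun _ _ => h14)
        (fun _ _ => h23)
        (fun _ _ => h24)
        (fun _ _ => h34)
  · obtain ⟨m4, hm, hmL, hmd⟩ := r5 hc he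
    have h01 := H.G_ab hgdec hgen hcgen ha hb hd 2 (fun _ => le_rfl)
    have h02 := H.unary_xc htree hgdec hgen hcgen ha hb hm hmL hmd ha hc H.p.ac H.p.ad
      (not_five (Or.inl H.p.vac)) (H.N0_ac ha hc 1 (fun _ => le_rfl))
    have h12 := H.unary_xc htree hgdec hgen hcgen ha hb hm hmL hmd hb hc H.p.bc H.p.bd
      (not_five (Or.inr H.p.vbc)) (H.N0_bc hb hc 1 (fun _ => le_rfl))
    have h03 := H.unary_xd htree hgdec hgen hcgen ha hb hm hmL hmd ha hd H.p.ad H.p.ae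
      (not_five (Or.inl H.p.vad)) (H.N0_ad ha hd)
    have h13 := H.unary_xd htree hgdec hgen hcgen ha hb hm hmL hmd hb hd H.p.bd H.p.be
      (not_five (Or.inl H.p.vbd)) (H.N0_bd hb hd)
    have h23 := H.unary_xd htree hgdec hgen hcgen ha hb hm hmL hmd hc hd H.p.cd H.p.ce
      (not_five (Or.inr H.p.vcd)) (H.N0_cd hc hd 0 (fun h => absurd ha h))
    refine H.fin hsum {0, 1, 2, 3} ?_ (fun i j => ![![0, 14, 7, 2, 0], ![0, 0, 7, 2, 0],
        ![0, 0, 0, 2, 0], ![0, 0, 0, 0, 0], ![0, 0, 0, 0, 0]] i j) ?_ 6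
        (le_trans (by decide) hl) (by decide)
    · intro i; fin_cases i <;> simp [ha, hb, hc, hd, he]
    · exact H5.pairs _ _ (fun _ _ => h01)
        (fun _ _ => h02)
        (fun _ _ => h03)
        (fun hi hj => absurd (And.intro hi hj) (by decide))
        (fun _ _ => h12)
        (fun _ _ => h13)
        (fun hi hj => absurd (And.intro hi hj) (by decide))
        (fun _ _ => h23)
        (fun hi hj => absurd (And.intro hi hj) (by decide))
        (fun hi hj => absurd (And.intro hi hj) (by decide))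

end CoxData

end MP345
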