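import Mathlib
import Pool.Agent.Work.MP_345ef2_gt.T_T5333

/-!
# T level, types `[5,3,3,4]` and `[5,3,3,5]` (helper29)
-/

namespace MP345

open Finset

variable {n : ℕ}

namespace CoxData

variable {D : CoxData n}

theorem all_I : ∀ I : Finset (Fin 5),
    3 * ((∑ a ∈ I, ∑ b ∈ I, if a < b then 3 else 0) +
    2 * ∑ a ∈ I, ∑ b ∈ I, ∑ c ∈ I, if a < b ∧ b < c then
      2 - (A5 a b).toNat - (A5 a c).toNat - (A5 b c).toNat else 0) ≤
    8 * (I.card * (I.card - 1)) + 3 * 0 := by
  decide +kernel

theorem stmtT533X (D : CoxData n) (hctx : D.StmtCTX) (hgdec : D.StmtGDEC) (hsum : D.StmtSUM)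
    (hnb : D.StmtNB) : D.StmtT533X := by
  classical
  intro T hT a b c d e z hz hp
  obtain ⟨_, _, x3, x4, x5, _, _⟩ := hctx T hT
  have hz0 : 0 < z := by
    rcases hz with rfl | rfl
    · exact s2_pos
    · exact c5_pos
  have hz1 : z ≠ 1 / 2 := by
    rcases hz with rfl | rfl
    · have := s2_gt; intro h; linarith
    · have := c5_gt; intro h; linarith
  have hNB := hnb T hT a b c d e z (Or.inr hz) hp
  have memL : ∀ x ∈ D.LM T, x = a ∨ x = b ∨ x = c ∨ x = d ∨ x = e := by
    intro x hx
    rw [hp.eq] at hx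
    simpa using hx
  have hN1 : ∀ P, D.N1 T (D.LM T) P = ∅ := by
    intro P
    rw [Finset.eq_empty_iff_forall_notMem]
    intro m hm
    obtain ⟨h1, h2, _, s, hs, h3⟩ := mem_N1.1 hm
    obtain ⟨k1, k2, k3, k4, _⟩ := hNB m h1 h2
    obtain ⟨k4, k5⟩ := k4 hz1
    rcases memL s hs with rfl | rfl | rfl | rfl | rfl
    · exact k1 h3
    · exact k2 h3
    · exact k3 h3
    · exact k4 h3
    · exact k5 h3
  have hN2 : ∀ P, D.N2 T (D.LM T) P = ∅ := fun P => H5.N2_empty (hN1 P)
  have hN3 : ∀ P, D.N3 T (D.LM T) P = ∅ := by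
    intro P
    rw [Finset.eq_empty_iff_forall_notMem]
    intro m hm
    obtain ⟨_, _, _, _, _, s, hs, _⟩ := mem_N3.1 hm
    rw [hN2] at hs
    exact absurd hs (Finset.notMem_empty _)
  have hG : ∀ x ∈ Rset D.g T, ∀ y ∈ Rset D.g T, x ≠ y →
      D.G T {x, y} ≤ ∑ w ∈ D.N0 T (D.LM T) {x, y}, (2 - D.cnt T w {x, y}) := by
    intro x hx y hy hne
    have h := (hgdec T hT x hx y hy hne).2
    rw [hN1, hN2, hN3] at h
    simpa using h
  -- the sum over `N0`
  have hsumN0 : ∀ (P : Finset D.ι) (fa fb fc fd fe : ℕ),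
      (a ∉ P → D.NA a P → 2 - D.cnt T a P ≤ fa) → (b ∉ P → D.NA b P → 2 - D.cnt T b P ≤ fb) →
      (c ∉ P → D.NA c P → 2 - D.cnt T c P ≤ fc) → (d ∉ P → D.NA d P → 2 - D.cnt T d P ≤ fd) →
      (e ∉ P → D.NA e P → 2 - D.cnt T e P ≤ fe) → (∀ p ∈ P, p ∈ Rset D.g T) →
      ∑ x ∈ D.N0 T (D.LM T) P, (2 - D.cnt T x P) ≤ fa + fb + fc + fd + fe := by
    intro P fa fb fc fd fe ha hb hc hd he hPR
    have h1 : ∑ x ∈ D.N0 T (D.LM T) P, (2 - D.cnt T x P) =
        ∑ x ∈ D.LM T, if x ∉ Rset D.g T ∧ D.NA x P then (2 - D.cnt T x P) else 0 := by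
      rw [← Finset.sum_filter]
      refine Finset.sum_congr ?_ fun _ _ => rfl
      ext x
      rw [mem_N0, Finset.mem_filter]
    have e1 : a ∉ ({b, c, d, e} : Finset D.ι) := by simp [hp.ab, hp.ac, hp.ad, hp.ae]
    have e2 : b ∉ ({c, d, e} : Finset D.ι) := by simp [hp.bc, hp.bd, hp.be]
    have e3 : c ∉ ({d, e} : Finset D.ι) := by simp [hp.cd, hp.ce]
    have e4 : d ∉ ({e} : Finset D.ι) := by simp [hp.de]
    rw [h1, hp.eq, Finset.sum_insert e1, Finset.sum_insert e2, Finset.sum_insert e3,
      Finset.sum_insert e4, Finset.sum_singleton]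
    have key : ∀ (x : D.ι) (f : ℕ), (x ∉ P → D.NA x P → 2 - D.cnt T x P ≤ f) →
        (if x ∉ Rset D.g T ∧ D.NA x P then (2 - D.cnt T x P) else 0) ≤ f := by
      intro x f hx
      split_ifs with h
      · exact hx (fun hxP => h.1 (hPR x hxP)) h.2
      · exact Nat.zero_le _
    have := key a fa ha
    have := key b fb hb
    have := key c fc hc
    have := key d fd hd
    have := key e fe he
    omega
  have Aab : D.Adj a b := hp.Aab c5_pos
  have Abc : D.Adj b c := hp.Abc (by norm_num)
  have Acd : D.Adj c d := hp.Acd (by norm_num)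
  have Ade : D.Adj d e := hp.Ade hz0
  have Aba := Aab.symm D
  have Acb := Abc.symm D
  have Adc := Acd.symm D
  have Aed := Ade.symm D
  have two : ∀ k : ℕ, 2 - k ≤ 2 := fun k => Nat.sub_le _ _
  have hinj : Function.Injective ![a, b, c, d, e] := by
    rw [← List.nodup_ofFn]
    simp [hp.ab, hp.ac, hp.ad, hp.ae, hp.bc, hp.bd, hp.be, hp.cd, hp.ce, hp.de]
  have hpr : ∀ {x y : D.ι}, x ∈ Rset D.g T → y ∈ Rset D.g T → ∀ p ∈ ({x, y} : Finset D.ι),
      p ∈ Rset D.g T := by
    intro x y hx hy p hp
    simp only [Finset.mem_insert, Finset.mem_singleton] at hp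
    rcases hp with rfl | rfl <;> assumption
  refine hsum 5 ![a, b, c, d, e] A5 (fun _ _ => 3)
    (Finset.univ.filter fun i => ![a, b, c, d, e] i ∈ Rset D.g T) T 0 hinj ?_ ?_ ?_
    (Nat.zero_le _) (by convert all_I _)
  · intro x
    constructor
    · intro hx
      have key : ∃ i, ![a, b, c, d, e] i = x := by
        rcases memL x (x4 hx) with rfl | rfl | rfl | rfl | rfl
        · exact ⟨0, rfl⟩
        · exact ⟨1, rfl⟩
        · exact ⟨2, rfl⟩
        · exact ⟨3, rfl⟩
        · exact ⟨4, rfl⟩
      obtain ⟨i, hi⟩ := key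
      exact ⟨i, Finset.mem_filter.2 ⟨Finset.mem_univ _, hi ▸ hx⟩, hi⟩
    · rintro ⟨i, hi, rfl⟩
      exact (Finset.mem_filter.1 hi).2
  · intro i j h
    fin_cases i <;> fin_cases j <;>
      first | exact Aab | exact Abc | exact Acd | exact Ade | (exact absurd h (by decide))
  · have mR : ∀ {i : Fin 5}, i ∈ (Finset.univ.filter fun i => ![a, b, c, d, e] i ∈ Rset D.g T) →
        ![a, b, c, d, e] i ∈ Rset D.g T := fun h => (Finset.mem_filter.1 h).2
    refine H5.pairs _ _ ?_ ?_ ?_ ?_ ?_ ?_ ?_ ?_ ?_ ?_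
    · intro h0 h1
      have hx : a ∈ Rset D.g T := mR h0
      have hy : b ∈ Rset D.g T := mR h1
      refine (hG a hx b hy hp.ab).trans ((hsumN0 {a, b} 0 0 0 1 2 ?_ ?_ ?_ ?_ ?_
        (hpr hx hy)).trans (by norm_num))
      · intro h; exact absurd (by simp) h
      · intro h; exact absurd (by simp) h
      · intro _ h; exact absurd Acb (h b (by simp))
      · intro _ _
        exact H5.sub_one (cnt_pos (p := b) (z := c) (by simp) (x3 hp.mc)
          (by simp [hp.ac.symm, hp.bc.symm]) Acd Acb)
      · intro _ _; exact two _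
    · intro h0 h1
      have hx : a ∈ Rset D.g T := mR h0
      have hy : c ∈ Rset D.g T := mR h1
      refine (hG a hx c hy hp.ac).trans ((hsumN0 {a, c} 0 0 0 0 2 ?_ ?_ ?_ ?_ ?_
        (hpr hx hy)).trans (by norm_num))
      · intro h; exact absurd (by simp) h
      · intro _ h; exact absurd Aba (h a (by simp))
      · intro h; exact absurd (by simp) h
      · intro _ h; exact absurd Adc (h c (by simp))
      · intro _ _; exact two _
    · intro h0 h1
      have hx : a ∈ Rset D.g T := mR h0
      have hy : d ∈ Rset D.g T := mR h1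
      refine (hG a hx d hy hp.ad).trans ((hsumN0 {a, d} 0 0 0 0 0 ?_ ?_ ?_ ?_ ?_
        (hpr hx hy)).trans (by norm_num))
      · intro h; exact absurd (by simp) h
      · intro _ h; exact absurd Aba (h a (by simp))
      · intro _ h; exact absurd Acd (h d (by simp))
      · intro h; exact absurd (by simp) h
      · intro _ h; exact absurd Aed (h d (by simp))
    · intro h0 h1
      have hx : a ∈ Rset D.g T := mR h0
      have hy : e ∈ Rset D.g T := mR h1
      refine (hG a hx e hy hp.ae).trans ((hsumN0 {a, e} 0 0 2 0 0 ?_ ?_ ?_ ?_ ?_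
        (hpr hx hy)).trans (by norm_num))
      · intro h; exact absurd (by simp) h
      · intro _ h; exact absurd Aba (h a (by simp))
      · intro _ _; exact two _
      · intro _ h; exact absurd Ade (h e (by simp))
      · intro h; exact absurd (by simp) h
    · intro h0 h1
      have hx : b ∈ Rset D.g T := mR h0
      have hy : c ∈ Rset D.g T := mR h1
      refine (hG b hx c hy hp.bc).trans ((hsumN0 {b, c} 0 0 0 0 2 ?_ ?_ ?_ ?_ ?_
        (hpr hx hy)).trans (by norm_num))
      · intro _ h; exact absurd Aab (h b (by simp))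
      · intro h; exact absurd (by simp) h
      · intro h; exact absurd (by simp) h
      · intro _ h; exact absurd Adc (h c (by simp))
      · intro _ _; exact two _
    · intro h0 h1
      have hx : b ∈ Rset D.g T := mR h0
      have hy : d ∈ Rset D.g T := mR h1
      refine (hG b hx d hy hp.bd).trans ((hsumN0 {b, d} 0 0 0 0 0 ?_ ?_ ?_ ?_ ?_
        (hpr hx hy)).trans (by norm_num))
      · intro _ h; exact absurd Aab (h b (by simp))
      · intro h; exact absurd (by simp) h
      · intro _ h; exact absurd Acb (h b (by simp))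
      · intro h; exact absurd (by simp) h
      · intro _ h; exact absurd Aed (h d (by simp))
    · intro h0 h1
      have hx : b ∈ Rset D.g T := mR h0
      have hy : e ∈ Rset D.g T := mR h1
      refine (hG b hx e hy hp.be).trans ((hsumN0 {b, e} 0 0 0 0 0 ?_ ?_ ?_ ?_ ?_
        (hpr hx hy)).trans (by norm_num))
      · intro _ h; exact absurd Aab (h b (by simp))
      · intro h; exact absurd (by simp) h
      · intro _ h; exact absurd Acb (h b (by simp))
      · intro _ h; exact absurd Ade (h e (by simp))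
      · intro h; exact absurd (by simp) h
    · intro h0 h1
      have hx : c ∈ Rset D.g T := mR h0
      have hy : d ∈ Rset D.g T := mR h1
      refine (hG c hx d hy hp.cd).trans ((hsumN0 {c, d} 2 0 0 0 0 ?_ ?_ ?_ ?_ ?_
        (hpr hx hy)).trans (by norm_num))
      · intro _ _; exact two _
      · intro _ h; exact absurd Abc (h c (by simp))
      · intro h; exact absurd (by simp) h
      · intro h; exact absurd (by simp) h
      · intro _ h; exact absurd Aed (h d (by simp))
    · intro h0 h1
      have hx : c ∈ Rset D.g T := mR h0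
      have hy : e ∈ Rset D.g T := mR h1
      refine (hG c hx e hy hp.ce).trans ((hsumN0 {c, e} 2 0 0 0 0 ?_ ?_ ?_ ?_ ?_
        (hpr hx hy)).trans (by norm_num))
      · intro _ _; exact two _
      · intro _ h; exact absurd Abc (h c (by simp))
      · intro h; exact absurd (by simp) h
      · intro _ h; exact absurd Adc (h c (by simp))
      · intro h; exact absurd (by simp) h
    · intro h0 h1
      have hx : d ∈ Rset D.g T := mR h0
      have hy : e ∈ Rset D.g T := mR h1
      refine (hG d hx e hy hp.de).trans ((hsumN0 {d, e} 2 1 0 0 0 ?_ ?_ ?_ ?_ ?_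
        (hpr hx hy)).trans (by norm_num))
      · intro _ _; exact two _
      · intro _ _
        exact H5.sub_one (cnt_pos (p := d) (z := c) (by simp) (x3 hp.mc)
          (by simp [hp.cd, hp.ce]) Acb Acd)
      · intro _ h; exact absurd Acd (h d (by simp))
      · intro h; exact absurd (by simp) h
      · intro h; exact absurd (by simp) h

end CoxData

end MP345
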