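import Mathlib
import Pool.Agent.Work.MP_345ef2_gt.TI27
import Pool.Agent.Work.MP_345ef2_gt.T_T5333

/-!
# Block T533327 (MP_345ef2_gt, T level, n <= 27)
-/

namespace MP345

open Finset

variable {n : ℕ}

namespace CoxData

variable {D : CoxData n}

namespace H5

variable {T : Finset D.ι} {a b c d e : D.ι} (H : D.H5 T a b c d e)

include H

/-- `|N1| + |N2| ≤ 3` if there is a node `m4` adjacent to `d` -/
theorem unary_sum (htree : D.StmtTREE) (hgen : D.StmtGEN) (hcgen : D.StmtCGEN)
    (ha : a ∈ Rset D.g T) (hb : b ∈ Rset D.g T) {m4 : D.ι} (hm : m4 ∈ T)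
    (hmL : m4 ∉ D.LM T) (hmd : D.Adj m4 d) :
    (D.N1 T (D.LM T) {a, b}).card + (D.N2 T (D.LM T) {a, b}).card ≤ 3 := by
  classical
  set P : Finset D.ι := {a, b} with hP
  set N := D.N1 T (D.LM T) P with hN
  set M := D.N2 T (D.LM T) P with hM
  set A4 := N.filter fun m => D.Adj m d with hA4
  set A5 := N.filter fun m => D.Adj m e with hA5
  have hNsub : N ⊆ A4 ∪ A5 := by
    intro m hm'
    rcases H.N1_adj hm' with h | h
    · exact Finset.mem_union_left _ (Finset.mem_filter.2 ⟨hm', h⟩)
    · exact Finset.mem_union_right _ (Finset.mem_filter.2 ⟨hm', h⟩)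
  have notL : ∀ m ∈ N, m ∉ D.LM T := fun m hm' => (mem_N1.1 hm').2.1
  have notL2 : ∀ y ∈ M, y ∉ D.LM T := fun m hm' => (mem_N2.1 hm').2.1
  have c5 : A5.card ≤ 1 := by
    refine H.card_one htree hgen hcgen ha hb hm hmL hmd (v := e) (w := d) (H.mU_L (by simp))
      H.p.de.symm (fun m hm' => ⟨H.mU_1 (Finset.mem_filter.1 hm').1,
        (Finset.mem_filter.1 hm').2.symm D⟩) (H.mU_L (by simp)) ?_ H.Aed
    intro h
    exact notL d (Finset.mem_filter.1 h).1 (H.mL (by simp))
  have c4 : A4.card ≤ 1 := by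
    have h1 : insert c (insert e A4) ⊆ D.nb H.U d := by
      intro y hy
      rcases Finset.mem_insert.1 hy with rfl | hy
      · exact (mem_nb D).2 ⟨H.mU_L (by simp), H.Adc⟩
      · rcases Finset.mem_insert.1 hy with rfl | hy
        · exact (mem_nb D).2 ⟨H.mU_L (by simp), H.Ade⟩
        · obtain ⟨hy1, hy2⟩ := Finset.mem_filter.1 hy
          exact (mem_nb D).2 ⟨H.mU_1 hy1, hy2.symm D⟩
    have h2 := Finset.card_le_card h1
    have e1 : e ∉ A4 := fun h => notL e (Finset.mem_filter.1 h).1 (H.mL (by simp))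
    have e2 : c ∉ insert e A4 := by
      rw [Finset.mem_insert]
      rintro (h | h)
      · exact H.p.ce h
      · exact notL c (Finset.mem_filter.1 h).1 (H.mL (by simp))
    rw [Finset.card_insert_of_notMem e2, Finset.card_insert_of_notMem e1] at h2
    have h3 := D.deg_le (H.U_pd hcgen ha hb) (p := d) (H.mU_L (by simp))
    omega
  have hNc : N.card ≤ A4.card + A5.card :=
    (Finset.card_le_card hNsub).trans (Finset.card_union_le _ _)
  -- the neighbours of one node of `N1`
  have hone : ∀ m ∈ N, ∀ w, (w = d ∨ w = e) → D.Adj m w →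
      (M.filter fun y => D.Adj y m).card ≤ 1 := by
    intro m hm' w hw hmw
    refine H.card_one htree hgen hcgen ha hb hm hmL hmd (v := m) (w := w) (H.mU_1 hm')
      (fun h => notL m hm' (h ▸ H.mL (by simp))) (fun y hy => ?_) (H.mU_L ?_) ?_ hmw
    · obtain ⟨hy1, hy2⟩ := Finset.mem_filter.1 hy
      exact ⟨H.mU_2 hy1, hy2.symm D⟩
    · rcases hw with rfl | rfl <;> simp
    · intro h
      refine notL2 w (Finset.mem_filter.1 h).1 (H.mL ?_)
      rcases hw with rfl | rfl <;> simp
  rcases Finset.eq_empty_or_nonempty A5 with h5 | ⟨m5, hm5⟩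
  · -- no neighbour of `e`
    rw [h5, Finset.card_empty] at hNc
    have hMc : M.card ≤ 1 := by
      rcases Finset.eq_empty_or_nonempty N with h | ⟨m, hm'⟩
      · rw [hM, N2_empty h]; simp
      · have hm4 : m ∈ A4 := by
          rcases Finset.mem_union.1 (hNsub hm') with h | h
          · exact h
          · rw [h5] at h; exact absurd h (Finset.notMem_empty _)
        refine (Finset.card_le_card ?_).trans (hone m hm' d (Or.inl rfl)
          (Finset.mem_filter.1 hm4).2)
        intro y hy
        obtain ⟨_, _, _, _, m', hm'', hym⟩ := mem_N2.1 hy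
        have hm4' : m' ∈ A4 := by
          rcases Finset.mem_union.1 (hNsub hm'') with h | h
          · exact h
          · rw [h5] at h; exact absurd h (Finset.notMem_empty _)
        have := Finset.card_le_one.1 c4 m hm4 m' hm4'
        exact Finset.mem_filter.2 ⟨hy, this ▸ hym⟩
    omega
  · obtain ⟨hm51, hm52⟩ := Finset.mem_filter.1 hm5
    have hMc : M.card ≤ 1 := by
      refine (Finset.card_le_card ?_).trans (hone m5 hm51 e (Or.inr rfl) hm52)
      intro y hy
      obtain ⟨_, _, _, _, m', hm'', hym⟩ := mem_N2.1 hy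
      rcases Finset.mem_union.1 (hNsub hm'') with h | h
      · -- `m'` adjacent to `d`: the tree `E6~`
        exfalso
        obtain ⟨_, hm'd⟩ := Finset.mem_filter.1 h
        have hne : m' ≠ m5 := by
          rintro rfl
          exact H.nde m' (mem_N1.1 hm'').1 (notL m' hm'') ⟨hm'd, hm52⟩
        have hyL := notL2 y hy
        have hyN : y ∉ N := fun h' => by
          obtain ⟨_, _, _, s, hs, hys⟩ := mem_N1.1 h'
          exact (mem_N2.1 hy).2.2.2.1 s hs hys
        have nL : ∀ {x z : D.ι}, x ∉ D.LM T → (z = b ∨ z = c ∨ z = d ∨ z = e) → z ≠ x := by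
          rintro x z hx hz rfl
          exact hx (H.mL (Or.inr hz))
        refine no_E6t (H.U_pd hcgen ha hb) (p := d) (x := c) (x2 := b) (y := e) (y2 := m5)
          (z := m') (z2 := y) (H.mU_L (by simp)) (H.mU_L (by simp)) (H.mU_L (by simp))
          (H.mU_L (by simp)) (H.mU_1 hm51) (H.mU_1 hm'') (H.mU_2 hy) H.Adc H.Ade
          (hm'd.symm D) H.Acb (hm52.symm D) (hym.symm D) ?_
        simp only [List.nodup_cons, List.mem_cons, List.not_mem_nil, or_false, not_or,
          not_false_eq_true, List.nodup_nil, and_true]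
        exact ⟨⟨H.p.cd.symm, H.p.bd.symm, H.p.de, nL (notL m5 hm51) (by simp),
            nL (notL m' hm'') (by simp), nL hyL (by simp)⟩,
          ⟨H.p.bc.symm, H.p.ce, nL (notL m5 hm51) (by simp), nL (notL m' hm'') (by simp),
            nL hyL (by simp)⟩,
          ⟨H.p.be, nL (notL m5 hm51) (by simp), nL (notL m' hm'') (by simp), nL hyL (by simp)⟩,
          ⟨nL (notL m5 hm51) (by simp), nL (notL m' hm'') (by simp), nL hyL (by simp)⟩,
          ⟨hne.symm, fun h' => hyN (h' ▸ hm51)⟩, fun h' => hyN (h' ▸ hm'')⟩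
      · have := Finset.card_le_one.1 c5 m5 hm5 m' h
        exact Finset.mem_filter.2 ⟨hy, this ▸ hym⟩
    omega

theorem G_ab27 (htree : D.StmtTREE) (hgdec : D.StmtGDEC) (hgen : D.StmtGEN)
    (hcgen : D.StmtCGEN) (ha : a ∈ Rset D.g T)
    (hb : b ∈ Rset D.g T) (hd : d ∈ Rset D.g T) {m4 : D.ι} (hm : m4 ∈ T)
    (hmL : m4 ∉ D.LM T) (hmd : D.Adj m4 d) (ke : ℕ)
    (he : e ∉ Rset D.g T → 2 ≤ ke) : D.G T {a, b} ≤ ke + 10 := by
  classical
  have h := (hgdec T H.hT a ha b hb H.p.ab).2
  have h5 : D.Five {a, b} := ⟨a, by simp, b, by simp, H.p.vab⟩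
  have c12 := H.unary_sum htree hgen hcgen ha hb hm hmL hmd
  have c3 := H.card_N3 hgen hcgen ha hb
  rw [if_pos h5] at h
  have h0 := H.sum_N0 {a, b} 0 0 0 0 ke
    (fun h _ => absurd ha h) (fun h _ => absurd hb h)
    (fun _ h => absurd H.Acb (h b (by simp))) (fun h _ => absurd hd h)
    (fun h _ => by have := he h; omega)
  have h1 := sum_le_two_mul (f := fun z => 2 - D.cnt T z {a, b}) (w := 2)
    (le_refl (D.N1 T (D.LM T) {a, b}).card) (fun m _ => by omega)
  have h2 := sum_le_two_mul (f := fun z => if (D.Far2s T z {a, b} ∨ D.Five {a, b}) then 2 else 1)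
    (w := 2) (le_refl (D.N2 T (D.LM T) {a, b}).card) (fun m _ => by split_ifs <;> omega)
  omega

end H5

/-- final step, `R(T)` given by `I` -/
theorem H5.fin27 {T : Finset D.ι} {a b c d e : D.ι} (H : D.H5 T a b c d e)
    (I : Finset (Fin 5)) (hI : ∀ i, ![a, b, c, d, e] i ∈ Rset D.g T ↔ i ∈ I)
    (β : Fin 5 → Fin 5 → ℕ)
    (hβ : ∀ i ∈ I, ∀ j ∈ I, i < j → D.G T {![a, b, c, d, e] i, ![a, b, c, d, e] j} ≤ β i j)
    (lam : ℕ) (hlam : lam ≤ D.lvs T)
    (h : 2 * ((∑ a ∈ I, ∑ b ∈ I, if a < b then β a b else 0) +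
    2 * ∑ a ∈ I, ∑ b ∈ I, ∑ c ∈ I, if a < b ∧ b < c then
      2 - (A5 a b).toNat - (A5 a c).toNat - (A5 b c).toNat else 0) ≤
    5 * (I.card * (I.card - 1)) + 2 * lam) : D.TB27 T := by
  refine D.stmtSUM27 5 ![a, b, c, d, e] A5 β I T lam H.inj ?_ H.adjA hβ hlam h
  intro x
  constructor
  · intro hx
    have key : ∃ i, ![a, b, c, d, e] i = x := by
      rcases H.memL (H.Rsub hx) with rfl | rfl | rfl | rfl | rfl
      · exact ⟨0, rfl⟩
      · exact ⟨1, rfl⟩
      · exact ⟨2, rfl⟩
      · exact ⟨3, rfl⟩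
      · exact ⟨4, rfl⟩
    obtain ⟨i, hi⟩ := key
    exact ⟨i, (hI i).1 (hi ▸ hx), hi⟩
  · rintro ⟨i, hi, rfl⟩
    exact (hI i).2 hi

theorem stmtT533327 (D : CoxData n) (hctx : D.StmtCTX) (hgdec : D.StmtGDEC) (hcgen : D.StmtCGEN)
    (hgen : D.StmtGEN) (htree : D.StmtTREE) (hnb : D.StmtNB)
    (hr5 : D.StmtR5) : D.StmtT533327 := by
  classical
  intro T hT a b c d e hp
  obtain ⟨_, _, x3, x4, x5, _, _⟩ := hctx T hT
  have hNB := hnb T hT a b c d e (1 / 2) (Or.inl rfl) hp
  obtain ⟨r1, r2, r3, r4, r5⟩ := hr5 T hT a b c d e hp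
  have H : D.H5 T a b c d e :=
    { hT := hT, p := hp, sub := x3, Rsub := x4, pdR := x5,
      na := fun m h1 h2 => (hNB m h1 h2).1,
      nb := fun m h1 h2 => (hNB m h1 h2).2.1,
      nc := fun m h1 h2 => (hNB m h1 h2).2.2.1,
      nde := fun m h1 h2 => (hNB m h1 h2).2.2.2.2.1 }
  by_cases hd : d ∈ Rset D.g T
  swap
  · have hc : c ∉ Rset D.g T := fun h => hd (r3 h)
    have hb : b ∉ Rset D.g T := fun h => hc (r2 h)
    have ha : a ∉ Rset D.g T := fun h => hb (r1 h)
    by_cases he : e ∈ Rset D.g T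
    · refine H.fin27 {4} ?_ (fun _ _ => 0) ?_ 0 (Nat.zero_le _) (by decide)
      · intro i; fin_cases i <;> simp [ha, hb, hc, hd, he]
      · intro i hi j hj hij
        rw [Finset.mem_singleton] at hi hj
        subst hi; subst hj
        exact absurd hij (lt_irrefl _)
    · refine H.fin27 ∅ ?_ (fun _ _ => 0) ?_ 0 (Nat.zero_le _) (by decide)
      · intro i; fin_cases i <;> simp [ha, hb, hc, hd, he]
      · intro i hi
        exact absurd hi (Finset.notMem_empty _)
  by_cases hc : c ∈ Rset D.g T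
  swap
  · have hb : b ∉ Rset D.g T := fun h => hc (r2 h)
    have ha : a ∉ Rset D.g T := fun h => hb (r1 h)
    by_cases he : e ∈ Rset D.g T
    · have h34 := H.G_de hgdec hd he 2 1 (fun _ => le_rfl) (fun _ => le_rfl)
      refine H.fin27 {3, 4} ?_ (fun _ _ => 3) ?_ 0 (Nat.zero_le _) (by decide)
      · intro i; fin_cases i <;> simp [ha, hb, hc, hd, he]
      · exact H5.pairs _ _ (fun hi hj => absurd (And.intro hi hj) (by decide))
          (fun hi hj => absurd (And.intro hi hj) (by decide))
          (fun hi hj => absurd (And.intro hi hj) (by decide))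
          (fun hi hj => absurd (And.intro hi hj) (by decide))
          (fun hi hj => absurd (And.intro hi hj) (by decide))
          (fun hi hj => absurd (And.intro hi hj) (by decide))
          (fun hi hj => absurd (And.intro hi hj) (by decide))
          (fun hi hj => absurd (And.intro hi hj) (by decide))
          (fun hi hj => absurd (And.intro hi hj) (by decide))
          (fun _ _ => h34)
    · refine H.fin27 {3} ?_ (fun _ _ => 0) ?_ 0 (Nat.zero_le _) (by decide)
      · intro i; fin_cases i <;> simp [ha, hb, hc, hd, he]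
      · intro i hi j hj hij
        rw [Finset.mem_singleton] at hi hj
        subst hi; subst hj
        exact absurd hij (lt_irrefl _)
  by_cases hb : b ∈ Rset D.g T
  swap
  · have ha : a ∉ Rset D.g T := fun h => hb (r1 h)
    have h23 := H.G_cd hgdec hgen hcgen hc hd 1 (fun _ => le_rfl)
    by_cases he : e ∈ Rset D.g T
    · have hNd : ∀ m ∈ T, m ∉ D.LM T → ¬ D.Adj m d := fun m h1 h2 h3 => r4 m h1 h2 h3 he
      have h34 := H.G_de hgdec hd he 2 1 (fun _ => le_rfl) (fun _ => le_rfl)
      have h24 := H.G_ce hgdec hc he hNd 1 (fun _ => le_rfl)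
      refine H.fin27 {2, 3, 4} ?_ (fun i j => ![![0, 0, 0, 0, 0], ![0, 0, 0, 0, 0],
        ![0, 0, 0, 5, 1], ![0, 0, 0, 0, 3], ![0, 0, 0, 0, 0]] i j) ?_ 0 (Nat.zero_le _) (by decide)
      · intro i; fin_cases i <;> simp [ha, hb, hc, hd, he]
      · exact H5.pairs _ _ (fun hi hj => absurd (And.intro hi hj) (by decide))
          (fun hi hj => absurd (And.intro hi hj) (by decide))
          (fun hi hj => absurd (And.intro hi hj) (by decide))
          (fun hi hj => absurd (And.intro hi hj) (by decide))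
          (fun hi hj => absurd (And.intro hi hj) (by decide))
          (fun hi hj => absurd (And.intro hi hj) (by decide))
          (fun hi hj => absurd (And.intro hi hj) (by decide))
          (fun _ _ => h23)
          (fun _ _ => h24)
          (fun _ _ => h34)
    · refine H.fin27 {2, 3} ?_ (fun _ _ => 5) ?_ 0 (Nat.zero_le _) (by decide)
      · intro i; fin_cases i <;> simp [ha, hb, hc, hd, he]
      · exact H5.pairs _ _ (fun hi hj => absurd (And.intro hi hj) (by decide))
          (fun hi hj => absurd (And.intro hi hj) (by decide))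
          (fun hi hj => absurd (And.intro hi hj) (by decide))
          (fun hi hj => absurd (And.intro hi hj) (by decide))
          (fun hi hj => absurd (And.intro hi hj) (by decide))
          (fun hi hj => absurd (And.intro hi hj) (by decide))
          (fun hi hj => absurd (And.intro hi hj) (by decide))
          (fun _ _ => h23)
          (fun hi hj => absurd (And.intro hi hj) (by decide))
          (fun hi hj => absurd (And.intro hi hj) (by decide))
  by_cases ha : a ∈ Rset D.g T
  swap
  · have h13 := H.G_bd hgdec hgen hcgen hb hd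
    have h23 := H.G_cd hgdec hgen hcgen hc hd 1 (fun _ => le_rfl)
    by_cases he : e ∈ Rset D.g T
    · have hNd : ∀ m ∈ T, m ∉ D.LM T → ¬ D.Adj m d := fun m h1 h2 h3 => r4 m h1 h2 h3 he
      have h12 := H.G_bc hgdec hgen hcgen hb hc 0 (fun h => absurd he h)
      have h14 := H.G_be hgdec hb he hNd
      have h34 := H.G_de hgdec hd he 2 0 (fun _ => le_rfl) (fun h => absurd hb h)
      have h24 := H.G_ce hgdec hc he hNd 1 (fun _ => le_rfl)
      refine H.fin27 {1, 2, 3, 4} ?_ (fun i j => ![![0, 0, 0, 0, 0], ![0, 0, 8, 4, 0],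
        ![0, 0, 0, 5, 1], ![0, 0, 0, 0, 2], ![0, 0, 0, 0, 0]] i j) ?_ 0 (Nat.zero_le _)
        (by decide)
      · intro i; fin_cases i <;> simp [ha, hb, hc, hd, he]
      · exact H5.pairs _ _ (fun hi hj => absurd (And.intro hi hj) (by decide))
          (fun hi hj => absurd (And.intro hi hj) (by decide))
          (fun hi hj => absurd (And.intro hi hj) (by decide))
          (fun hi hj => absurd (And.intro hi hj) (by decide))
          (fun _ _ => h12)
          (fun _ _ => h13)
          (fun _ _ => h14)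
          (fun _ _ => h23)
          (fun _ _ => h24)
          (fun _ _ => h34)
    · have h12 := H.G_bc hgdec hgen hcgen hb hc 1 (fun _ => le_rfl)
      have hl := lvs_ge_idx H.inj (T := T) {(2, 1), (1, 2), (3, 2)} (by
        intro q hq
        simp only [Finset.mem_insert, Finset.mem_singleton] at hq
        rcases hq with rfl | rfl | rfl
        · exact ⟨hc, hb, by decide, H.leaf_cb⟩
        · exact ⟨hb, hc, by decide, H.leaf_bc⟩
        · exact ⟨hd, hc, by decide, H.leaf_dc⟩)
      refine H.fin27 {1, 2, 3} ?_ (fun i j => ![![0, 0, 0, 0, 0], ![0, 0, 9, 4, 0],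
        ![0, 0, 0, 5, 0], ![0, 0, 0, 0, 0], ![0, 0, 0, 0, 0]] i j) ?_ 3
        (le_trans (by decide) hl) (by decide)
      · intro i; fin_cases i <;> simp [ha, hb, hc, hd, he]
      · exact H5.pairs _ _ (fun hi hj => absurd (And.intro hi hj) (by decide))
          (fun hi hj => absurd (And.intro hi hj) (by decide))
          (fun hi hj => absurd (And.intro hi hj) (by decide))
          (fun hi hj => absurd (And.intro hi hj) (by decide))
          (fun _ _ => h12)
          (fun _ _ => h13)
          (fun hi hj => absurd (And.intro hi hj) (by decide))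
          (fun _ _ => h23)
          (fun hi hj => absurd (And.intro hi hj) (by decide))
          (fun hi hj => absurd (And.intro hi hj) (by decide))
  have hl := lvs_ge_idx H.inj (T := T) {(2, 0), (3, 0), (0, 1), (2, 1), (1, 2), (3, 2)} (by
    intro q hq
    simp only [Finset.mem_insert, Finset.mem_singleton] at hq
    rcases hq with rfl | rfl | rfl | rfl | rfl | rfl
    · exact ⟨hc, ha, by decide, H.leaf_a⟩
    · exact ⟨hd, ha, by decide, H.leaf_a⟩
    · exact ⟨ha, hb, by decide, H.leaf_ab⟩
    · exact ⟨hc, hb, by decide, H.leaf_cb⟩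
    · exact ⟨hb, hc, by decide, H.leaf_bc⟩
    · exact ⟨hd, hc, by decide, H.leaf_dc⟩)
  by_cases he : e ∈ Rset D.g T
  · have hNd : ∀ m ∈ T, m ∉ D.LM T → ¬ D.Adj m d := fun m h1 h2 h3 => r4 m h1 h2 h3 he
    have h01 := H.G_ab hgdec hgen hcgen ha hb hd 0 (fun h => absurd he h)
    have h02 := H.G_ac hgdec hgen hcgen ha hc 0 (fun h => absurd he h)
    have h03 := H.G_ad hgdec hgen hcgen ha hd
    have h04 := H.G_ae hgdec ha he hc hNd
    have h12 := H.G_bc hgdec hgen hcgen hb hc 0 (fun h => absurd he h)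
    have h13 := H.G_bd hgdec hgen hcgen hb hd
    have h14 := H.G_be hgdec hb he hNd
    have h23 := H.G_cd hgdec hgen hcgen hc hd 0 (fun h => absurd ha h)
    have h24 := H.G_ce hgdec hc he hNd 0 (fun h => absurd ha h)
    have h34 := H.G_de hgdec hd he 0 0 (fun h => absurd ha h) (fun h => absurd hb h)
    refine H.fin27 {0, 1, 2, 3, 4} ?_ (fun i j => ![![0, 12, 8, 4, 0], ![0, 0, 8, 4, 0],
        ![0, 0, 0, 4, 0], ![0, 0, 0, 0, 0], ![0, 0, 0, 0, 0]] i j) ?_ 6
        (le_trans (by decide) hl) (by decide)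
    · intro i; fin_cases i <;> simp [ha, hb, hc, hd, he]
    · exact H5.pairs _ _ (fun _ _ => h01)
        (fun _ _ => h02)
        (fun _ _ => h03)
        (fun _ _ => h04)
        (fun _ _ => h12)
        (fun _ _ => h13)
        (fun _ _ => h14)
        (fun _ _ => h23)
        (fun _ _ => h24)
        (fun _ _ => h34)
  · obtain ⟨m4, hm, hmL, hmd⟩ := r5 hc he
    have h01 := H.G_ab27 htree hgdec hgen hcgen ha hb hd hm hmL hmd 2 (fun _ => le_rfl)
    have h02 := H.unary_xc htree hgdec hgen hcgen ha hb hm hmL hmd ha hc H.p.ac H.p.ad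
      (not_five (Or.inl H.p.vac)) (H.N0_ac ha hc 1 (fun _ => le_rfl))
    have h12 := H.unary_xc htree hgdec hgen hcgen ha hb hm hmL hmd hb hc H.p.bc H.p.bd
      (not_five (Or.inr H.p.vbc)) (H.N0_bc hb hc 1 (fun _ => le_rfl))
    have h03 := H.unary_xd htree hgdec hgen hcgen ha hb hm hmL hmd ha hd H.p.ad H.p.ae
      (not_five (Or.inl H.p.vad)) (H.N0_ad ha hd)
    have h13 := H.unary_xd htree hgdec hgen hcgen ha hb hm hmL hmd hb hd H.p.bd H.p.be
      (not_five (Or.inl H.p.vbd)) (H.N0_bd hb hd)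
    have h23 := H.unary_xd htree hgdec hgen hcgen ha hb hm hmL hmd hc hd H.p.cd H.p.ce
      (not_five (Or.inr H.p.vcd)) (H.N0_cd hc hd 0 (fun h => absurd ha h))
    refine H.fin27 {0, 1, 2, 3} ?_ (fun i j => ![![0, 12, 7, 2, 0], ![0, 0, 7, 2, 0],
        ![0, 0, 0, 2, 0], ![0, 0, 0, 0, 0], ![0, 0, 0, 0, 0]] i j) ?_ 6
        (le_trans (by decide) hl) (by decide)
    · intro i; fin_cases i <;> simp [ha, hb, hc, hd, he]
    · exact H5.pairs _ _ (fun _ _ => h01)
        (fun _ _ => h02)
        (fun _ _ => h03)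
        (fun hi hj => absurd (And.intro hi hj) (by decide))
        (fun _ _ => h12)
        (fun _ _ => h13)
        (fun hi hj => absurd (And.intro hi hj) (by decide))
        (fun _ _ => h23)
        (fun hi hj => absurd (And.intro hi hj) (by decide))
        (fun hi hj => absurd (And.intro hi hj) (by decide))

end CoxData

end MP345
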