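import Mathlib
import Pool.Agent.Work.MP_345ef2_gt.TI

/-!
# Block GDEC (MP_345ef2_gt, T level): decomposition of `G`
-/

namespace MP345

open Finset

variable {n : ℕ}

namespace CoxData

variable (D : CoxData n)

theorem sum_ind_le {α : Type*} [DecidableEq α] (S N : Finset α) (F : α → ℕ) :
    ∑ x ∈ S, (if x ∈ N then F x else 0) ≤ ∑ x ∈ N, F x := by
  rw [← Finset.sum_filter]
  refine Finset.sum_le_sum_of_subset fun x hx => ?_
  exact (Finset.mem_filter.1 hx).2

open scoped Classical in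
theorem gdec_aux {T P : Finset D.ι} {x : D.ι} (hx : x ∈ T) (hxR : x ∉ Rset D.g T)
    (hxP : D.NA x P) :
    (D.Near T x → x ∈ D.N0 T (D.LM T) P ∨ x ∈ D.N1 T (D.LM T) P) ∧
    (¬ D.Near T x → D.Far2 T x P → x ∈ D.N2 T (D.LM T) P) ∧
    (D.Far2s T x P → D.Far2 T x P) ∧
    (¬ D.Near T x → D.Far3s T x P → x ∈ D.N2 T (D.LM T) P ∨ x ∈ D.N3 T (D.LM T) P) := by
  have hfree : ∀ y, D.Free T P y → (∃ s ∈ D.LM T, D.Adj y s) → y ∈ D.N1 T (D.LM T) P := by
    intro y hy hs
    obtain ⟨h1, h2, h3, h4⟩ := hy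
    unfold N1
    exact Finset.mem_filter.2 ⟨h1, h3, h4, hs⟩
  have hN2 : ∀ y, y ∈ T → y ∉ D.LM T → D.NA y P → D.NA y (D.LM T) →
      (∃ m ∈ D.N1 T (D.LM T) P, D.Adj y m) → y ∈ D.N2 T (D.LM T) P := by
    intro y h1 h2 h3 h4 h5
    unfold N2
    exact Finset.mem_filter.2 ⟨h1, h2, h3, h4, h5⟩
  have hnear : ¬ D.Near T x → x ∉ D.LM T ∧ D.NA x (D.LM T) := by
    intro h
    unfold Near at h
    push Not at h
    exact h
  refine ⟨?_, ?_, ?_, ?_⟩
  · rintro (h | h)
    · left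
      unfold N0
      exact Finset.mem_filter.2 ⟨Finset.mem_sdiff.2 ⟨h, hxR⟩, hxP⟩
    · by_cases hL : x ∈ D.LM T
      · left
        unfold N0
        exact Finset.mem_filter.2 ⟨Finset.mem_sdiff.2 ⟨hL, hxR⟩, hxP⟩
      · right
        unfold N1
        exact Finset.mem_filter.2 ⟨hx, hL, hxP, h⟩
  · rintro h ⟨y, hy, hxy, s, hs, _, hys⟩
    exact hN2 x hx (hnear h).1 hxP (hnear h).2 ⟨y, hfree y hy ⟨s, hs, hys⟩, hxy⟩
  · rintro ⟨y, hy, hxy, s, hs, hsP, hys, _⟩
    exact ⟨y, hy, hxy, s, hs, hsP, hys⟩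
  · rintro h ⟨y, y', hy, hy', hxy, hyy, s, hs, hsP, hys, _⟩
    have h1 := hfree y' hy' ⟨s, hs, hys⟩
    by_cases h2 : ∃ m ∈ D.N1 T (D.LM T) P, D.Adj x m
    · exact Or.inl (hN2 x hx (hnear h).1 hxP (hnear h).2 h2)
    · right
      push Not at h2
      have h3 : y ∈ D.N2 T (D.LM T) P := by
        refine hN2 y hy.1 hy.2.2.1 hy.2.2.2 ?_ ⟨y', h1, hyy⟩
        intro s' hs' hys'
        exact h2 y (hfree y hy ⟨s', hs', hys'⟩) hxy
      unfold N3
      exact Finset.mem_filter.2 ⟨hx, (hnear h).1, hxP, (hnear h).2, h2, y, h3, hxy⟩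

theorem stmtGDEC : D.StmtGDEC := by
  classical
  intro T hT a ha b hb hab
  have hNA : ∀ x ∈ (T \ Rset D.g T).filter (fun x => ∀ p ∈ ({a, b} : Finset D.ι), D.g x p = 0),
      x ∈ T ∧ x ∉ Rset D.g T ∧ D.NA x {a, b} := by
    intro x hx
    rw [Finset.mem_filter, Finset.mem_sdiff] at hx
    exact ⟨hx.1.1, hx.1.2, fun p hp h => h.2 (hx.2 p hp)⟩
  constructor
  · intro hcls
    have h1 : D.G T {a, b} ≤ ∑ x ∈ (T \ Rset D.g T).filter
        (fun x => ∀ p ∈ ({a, b} : Finset D.ι), D.g x p = 0),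
        ((if x ∈ D.N0 T (D.LM T) {a, b} then (2 - D.cnt T x {a, b}) else 0) +
        (if x ∈ D.N1 T (D.LM T) {a, b} then (2 - D.cnt T x {a, b}) else 0) +
        (if x ∈ D.N2 T (D.LM T) {a, b} then 1 else 0)) := by
      unfold G
      refine Finset.sum_le_sum fun x hx => ?_
      obtain ⟨h1, h2, h3⟩ := hNA x hx
      obtain ⟨g1, g2, g3, g4⟩ := D.gdec_aux h1 h2 h3
      unfold w2
      by_cases c1 : D.Near T x
      · rw [if_pos c1]
        rcases g1 c1 with h | h
        · rw [if_pos h]; omega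
        · rw [if_pos h (c := x ∈ D.N1 T (D.LM T) {a, b})]; omega
      · rw [if_neg c1, if_neg (fun h => hcls h.1)]
        by_cases c3 : D.Far2 T x {a, b}
        · rw [if_pos c3, if_pos (g2 c1 c3)]; omega
        · rw [if_neg c3]; omega
    rw [Finset.sum_add_distrib, Finset.sum_add_distrib] at h1
    have e0 := sum_ind_le ((T \ Rset D.g T).filter
        (fun x => ∀ p ∈ ({a, b} : Finset D.ι), D.g x p = 0)) (D.N0 T (D.LM T) {a, b})
        (fun x => 2 - D.cnt T x {a, b})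
    have e1 := sum_ind_le ((T \ Rset D.g T).filter
        (fun x => ∀ p ∈ ({a, b} : Finset D.ι), D.g x p = 0)) (D.N1 T (D.LM T) {a, b})
        (fun x => 2 - D.cnt T x {a, b})
    have e2 := sum_ind_le ((T \ Rset D.g T).filter
        (fun x => ∀ p ∈ ({a, b} : Finset D.ι), D.g x p = 0)) (D.N2 T (D.LM T) {a, b})
        (fun x => 1)
    rw [← Finset.card_eq_sum_ones] at e2
    refine h1.trans ?_
    exact Nat.add_le_add (Nat.add_le_add e0 e1) e2
  · have h1 : D.G T {a, b} ≤ ∑ x ∈ (T \ Rset D.g T).filter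
        (fun x => ∀ p ∈ ({a, b} : Finset D.ι), D.g x p = 0),
        ((if x ∈ D.N0 T (D.LM T) {a, b} then (2 - D.cnt T x {a, b}) else 0) +
        (if x ∈ D.N1 T (D.LM T) {a, b} then (2 - D.cnt T x {a, b}) else 0) +
        (if x ∈ D.N2 T (D.LM T) {a, b} then
          (if (D.Far2s T x {a, b} ∨ D.Five {a, b}) then 2 else 1) else 0) +
        (if x ∈ D.N3 T (D.LM T) {a, b} then (if D.Five {a, b} then 2 else 0) else 0)) := by
      unfold G
      refine Finset.sum_le_sum fun x hx => ?_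
      obtain ⟨h1, h2, h3⟩ := hNA x hx
      obtain ⟨g1, g2, g3, g4⟩ := D.gdec_aux h1 h2 h3
      unfold w2
      by_cases c1 : D.Near T x
      · rw [if_pos c1]
        rcases g1 c1 with h | h
        · rw [if_pos h]; omega
        · rw [if_pos h (c := x ∈ D.N1 T (D.LM T) {a, b})]; omega
      · rw [if_neg c1]
        by_cases c2 : D.cls (D.LM T) = 4 ∧ (D.Far2s T x {a, b} ∨ (D.Far3s T x {a, b} ∧
          D.Five {a, b}))
        · rw [if_pos c2]
          rcases c2.2 with h | ⟨h, h5⟩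
          · have hx2 := g2 c1 (g3 h)
            rw [if_pos hx2, if_pos (Or.inl h)]; omega
          · rcases g4 c1 h with hx2 | hx3
            · rw [if_pos hx2, if_pos (Or.inr h5)]; omega
            · rw [if_pos hx3, if_pos h5]; omega
        · rw [if_neg c2]
          by_cases c3 : D.Far2 T x {a, b}
          · rw [if_pos c3, if_pos (g2 c1 c3)]
            split_ifs <;> omega
          · rw [if_neg c3]; omega
    rw [Finset.sum_add_distrib, Finset.sum_add_distrib, Finset.sum_add_distrib] at h1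
    have e0 := sum_ind_le ((T \ Rset D.g T).filter
        (fun x => ∀ p ∈ ({a, b} : Finset D.ι), D.g x p = 0)) (D.N0 T (D.LM T) {a, b})
        (fun x => 2 - D.cnt T x {a, b})
    have e1 := sum_ind_le ((T \ Rset D.g T).filter
        (fun x => ∀ p ∈ ({a, b} : Finset D.ι), D.g x p = 0)) (D.N1 T (D.LM T) {a, b})
        (fun x => 2 - D.cnt T x {a, b})
    have e2 := sum_ind_le ((T \ Rset D.g T).filter
        (fun x => ∀ p ∈ ({a, b} : Finset D.ι), D.g x p = 0)) (D.N2 T (D.LM T) {a, b})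
        (fun x => if (D.Far2s T x {a, b} ∨ D.Five {a, b}) then 2 else 1)
    have e3 := sum_ind_le ((T \ Rset D.g T).filter
        (fun x => ∀ p ∈ ({a, b} : Finset D.ι), D.g x p = 0)) (D.N3 T (D.LM T) {a, b})
        (fun _ => if D.Five {a, b} then 2 else 0)
    have e4 : ∑ x ∈ D.N3 T (D.LM T) {a, b}, (if D.Five {a, b} then 2 else 0) =
        if D.Five {a, b} then 2 * (D.N3 T (D.LM T) {a, b}).card else 0 := by
      rw [Finset.sum_const, smul_eq_mul]
      split_ifs <;> omega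
    rw [e4] at e3
    refine h1.trans ?_
    exact Nat.add_le_add (Nat.add_le_add (Nat.add_le_add e0 e1) e2) e3

end CoxData

end MP345
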