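import Mathlib
import Pool.Agent.Work.MP_345ef2_gt.T_CTX
import Pool.Agent.Work.MP_345ef2_gt.T_SUM
import Pool.Agent.Work.MP_345ef2_gt.T_CLF
import Pool.Agent.Work.MP_345ef2_gt.T_TSMALL
import Pool.Agent.Work.MP_345ef2_gt.T_T5333
import Pool.Agent.Work.MP_345ef2_gt.T_TCYC5
import Pool.Agent.Work.MP_345ef2_gt.T_T53X
import Pool.Agent.Work.MP_345ef2_gt.T_GDEC
import Pool.Agent.Work.MP_345ef2_gt.T_NB
import Pool.Agent.Work.MP_345ef2_gt.T_R5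
import Pool.Agent.Work.MP_345ef2_gt.T_T533X
import Pool.Agent.Work.MP_345ef2_gt.T_TFORK
import Pool.Agent.Work.MP_345ef2_gt.T_T353
import Pool.Agent.Work.MP_345ef2_gt.D_BOTH
import Pool.Agent.Work.MP_345ef2_gt.Cls
import Pool.Agent.Work.MP_345ef2_gt.Account4

/-!
# The T level and the D level: assembly (MP_345ef2_gt)
-/

namespace MP345

open Finset

variable {n : ℕ}

namespace CoxData

variable (D : CoxData n)

theorem stmtD_final : D.StmtD := D.stmtD_of_cls D.stmtCLS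

theorem stmtT_aux (hnb : D.StmtNB) (hr5 : D.StmtR5) (h4 : D.StmtT353) (h6 : D.StmtTFORK)
    (h7 : D.StmtT533X) : D.StmtT :=
  D.stmtT_of D.stmtCLS D.stmtCTX D.stmtRED (D.stmtTSMALL D.stmtGEN D.stmtGDEC)
    (D.stmtTCYC4 D.stmtGEN D.stmtGDEC) (D.stmtTSTAR D.stmtCTX D.stmtGDEC D.stmtCGEN D.stmtSUM) h4
    (D.stmtT53X D.stmtCTX D.stmtGDEC D.stmtCGEN D.stmtSUM) h6 h7
    (stmtT5333 D D.stmtCTX D.stmtGDEC D.stmtCGEN D.stmtGEN D.stmtTREE D.stmtSUM hnb hr5)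
    (stmtTCYC5 D D.stmtCTX D.stmtGDEC D.stmtCGEN D.stmtGEN D.stmtTREE D.stmtSUM)

theorem dim_le_aux (hn : 2 ≤ n) (hnb : D.StmtNB) (hr5 : D.StmtR5) (h4 : D.StmtT353)
    (h6 : D.StmtTFORK) (h7 : D.StmtT533X) : n ≤ 28 :=
  D.dim_le hn D.stmtD_final (D.stmtT_aux hnb hr5 h4 h6 h7)

theorem stmtNB_final : D.StmtNB :=
  stmtNB D (D.stmtCLF D.stmtCLS) (D.stmtCLT D.stmtCLS) D.stmtCLS D.stmtCTX

theorem stmtR5_final : D.StmtR5 :=
  stmtR5 D D.stmtCTX (D.stmtCLF D.stmtCLS) (D.stmtCLT D.stmtCLS) D.stmtNB_final D.stmtLCON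

/-- **The T level.** -/
theorem stmtT_final : D.StmtT :=
  D.stmtT_aux D.stmtNB_final D.stmtR5_final
    (D.stmtT353 D.stmtCTX D.stmtGDEC D.stmtCGEN D.stmtSUM (D.stmtCLF D.stmtCLS)
      (D.stmtCLT D.stmtCLS))
    (stmtTFORK D D.stmtCTX D.stmtGDEC D.stmtCGEN D.stmtGEN D.stmtTREE D.stmtHEAVY
      (D.stmtCLF D.stmtCLS) (D.stmtCLT D.stmtCLS) D.stmtSUM)
    (stmtT533X D D.stmtCTX D.stmtGDEC D.stmtSUM D.stmtNB_final)

include D in
/-- **The dimension is at most 28.** -/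
theorem dim_le_28 (hn : 2 ≤ n) : n ≤ 28 := D.dim_le hn D.stmtD_final D.stmtT_final

end CoxData

end MP345
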