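import Mathlib
import Pool.Agent.Work.MP_345ef2_gt.T_Main
import Pool.Agent.Work.MP_345ef2_gt.T_A27
import Pool.Agent.Work.MP_345ef2_gt.T_B27
import Pool.Agent.Work.MP_345ef2_gt.T_C27
import Pool.Agent.Work.MP_345ef2_gt.T_D27
import Pool.Agent.Work.MP_345ef2_gt.T27_FORKCYC5
import Pool.Agent.Work.MP_345ef2_gt.Account5

/-!
# `n ≤ 27`: assembly (MP_345ef2_gt)
-/

namespace MP345

open Finset

variable {n : ℕ}

namespace CoxData

variable (D : CoxData n)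

/-- **The T level**, `κ = 5/4`. -/
theorem stmtT27_final : D.StmtT27 := by
  have hclf := D.stmtCLF D.stmtCLS
  have hclt := D.stmtCLT D.stmtCLS
  exact D.stmtT27_of D.stmtCLS D.stmtCTX (D.stmtTSMALL27 D.stmtGEN D.stmtGDEC)
    (D.stmtTCYC427 D.stmtGEN D.stmtGDEC) (D.stmtTSTAR27 D.stmtCTX D.stmtGDEC D.stmtCGEN)
    (D.stmtT35327 D.stmtCTX D.stmtGDEC D.stmtCGEN hclf hclt)
    (D.stmtT53X27 D.stmtCTX D.stmtGDEC D.stmtCGEN)
    (stmtTFORK27 D D.stmtCTX D.stmtGDEC D.stmtCGEN D.stmtGEN D.stmtTREE D.stmtHEAVY hclf hclt)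
    (stmtT533X27 D D.stmtCTX D.stmtGDEC D.stmtNB_final)
    (stmtT533327 D D.stmtCTX D.stmtGDEC D.stmtCGEN D.stmtGEN D.stmtTREE D.stmtNB_final
      D.stmtR5_final)
    (stmtTCYC527 D D.stmtCTX D.stmtGDEC D.stmtCGEN D.stmtGEN D.stmtTREE)

end CoxData

/-- **A compact Coxeter polytope in hyperbolic space has dimension at most 27.** -/
theorem dim_le_27 (P : CoxeterPolytope n) : n ≤ 27 :=
  dim_le27_of (fun D => D.stmtD_final) (fun D => D.stmtT27_final) P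

end MP345
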